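import Pool.Agent.P.MP_33ab4b_ag.T.Basic

/-! More on standard, finite and bounded elements; generalised inverses over the rationals. -/

set_option autoImplicit false
set_option linter.unusedSectionVars false

namespace Pool.Agent.P.MP_33ab4b_ag.T

variable {K : Type} [Field K] [LinearOrder K] [IsStrictOrderedRing K]

namespace Lb
variable {x y r s : K}

theorem std_abs (a : Std x) : Std |x| := by
  obtain ⟨p, rfl⟩ := a; exact ⟨|p|, by simp⟩
theorem std_pow (a : Std x) (n : ℕ) : Std (x ^ n) := by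
  obtain ⟨p, rfl⟩ := a; exact ⟨p ^ n, by simp⟩
theorem std_ofNat (n : ℕ) [n.AtLeastTwo] : Std (OfNat.ofNat n : K) := ⟨OfNat.ofNat n, by simp⟩
theorem std_ite {p : Prop} [Decidable p] (a : Std x) (b : Std y) : Std (if p then x else y) := by
  split_ifs <;> assumption
theorem std_of_mul (a : Std x) (h : x ≠ 0) (b : Std (x * y)) : Std y := by
  have := b.div a; rwa [mul_div_cancel_left₀ _ h] at this
theorem bo_cancel (h : s ≠ 0) (a : BO (s * x) (s * r)) : BO x r := by
  have := (BO.refl s⁻¹).mul a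
  rwa [inv_mul_cancel_left₀ h, inv_mul_cancel_left₀ h] at this
theorem bo_div (h : s ≠ 0) (a : BO (s * x) r) : BO x (r / s) :=
  bo_cancel h (by rwa [mul_div_cancel₀ _ h])
theorem bo_std_cancel (a : Std s) (h : s ≠ 0) (b : BO (s * x) r) : BO x r := by
  have := b.fi_mul a.inv.fi; rwa [inv_mul_cancel_left₀ h] at this
theorem bo_of_one_le (h : 1 ≤ |s|) (b : BO (s * x) r) : BO x r :=
  b.mono (by rw [abs_mul]; nlinarith [abs_nonneg x])
theorem bo_eq_zero (a : BO x 0) : x = 0 := by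
  obtain ⟨m, a⟩ := a; simpa using a

/-- `r = O(l + r / t)` with `t` infinite gives `r = O(l)`. -/
theorem bo_absorb {t l : K} (h : ¬ Fi t) (a : BO r (|l| + |r / t|)) : BO r l := by
  obtain ⟨m, a⟩ := a
  have h1 : ((2 * m : ℕ) : K) < |t| := lt_of_not_ge fun e => h ⟨_, e⟩
  have h2 : 0 < |t| := lt_of_le_of_lt (by positivity) h1
  refine ⟨2 * m, ?_⟩
  rw [abs_of_nonneg (by positivity : 0 ≤ |l| + |r / t|), abs_div] at a
  have h3 : 2 * (m * (|r| / |t|)) ≤ |r| := by
    rw [← mul_assoc, ← mul_div_assoc, div_le_iff₀ h2]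
    push_cast at h1; nlinarith [abs_nonneg r]
  push_cast; linarith

theorem succ_le (H : HF K) (h : x ∈ H.Z) (h' : y ∈ H.Z) (e : x < y) : x + 1 ≤ y := by
  have := H.disc _ (H.Z.sub_mem h' h) (sub_pos.2 e); linarith

/-- A divisor in `Z` of a nonzero finite element is standard. -/
theorem std_dvd (H : HF K) (h : x ∈ H.Z) (h' : y ∈ H.Z) (e : x * y ≠ 0) (f : Fi (x * y)) : Std x :=
  H.std_of_fi h (bo_one_iff.1 (bo_of_one_le (H.one_le_abs h' (right_ne_zero_of_mul e))
    (by rw [mul_comm]; exact bo_one_iff.2 f)))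

/-- Units of `Z`. -/
theorem unit (H : HF K) (h : x ∈ H.Z) (h' : y ∈ H.Z) (e : x * y = 1) : x = 1 ∨ x = -1 := by
  have a := H.one_le_abs h (by rintro rfl; simp at e)
  have b := H.one_le_abs h' (by rintro rfl; simp at e)
  have c : |x| * |y| = 1 := by rw [← abs_mul, e, abs_one]
  exact (abs_eq zero_le_one).1 (le_antisymm (by nlinarith) a)

theorem std_common {ι : Type} [Finite ι] {x : ι → K} (h : ∀ i, Std (x i)) :
    ∃ N : ℕ, 0 < N ∧ ∀ i, ∃ z : ℤ, (N : K) * x i = z := by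
  choose q hq using h
  have := Fintype.ofFinite ι
  refine ⟨∏ i, (q i).den, Finset.prod_pos fun i _ => (q i).den_pos, fun i => ?_⟩
  obtain ⟨c, e⟩ := Finset.dvd_prod_of_mem (fun i => (q i).den) (Finset.mem_univ i)
  refine ⟨c * (q i).num, ?_⟩
  have t : ((q i).den : K) * (q i : K) = ((q i).num : K) := by
    exact_mod_cast congrArg (Rat.cast : ℚ → K) (Rat.den_mul_eq_num (q i))
  rw [e, hq]; push_cast; rw [← t]; ring

theorem stdv (H : HF K) {I : Type} [Fintype I] {x lam : I → K} {q : K}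
    (s : Std q) (e : q ≠ 0) (hx : ∀ i, q * x i ∈ H.Z) (hl : ∀ i, lam i ∈ H.Z)
    (s' : Std (∑ i, lam i * x i)) (e' : ∑ i, lam i * x i ≠ 0)
    (hd : ∀ d : Derivation ℚ K K, ∃ c : K, ∀ i, d (x i) = c * x i) (i : I) : Std (x i) := by
  rcases eq_or_ne (x i) 0 with z | z
  · rw [z]; exact Std.zero
  have r : ∀ j, Std (x j / x i) := fun j => H.der _ fun d => by
    obtain ⟨c, hc⟩ := hd d
    rw [d.leibniz_div, hc, hc]; simp only [smul_eq_mul]; ring
  obtain ⟨N, n0, hN⟩ := std_common r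
  have n1 : (N : K) ≠ 0 := by positivity
  have m : (∑ j, lam j * (N * (x j / x i))) ∈ H.Z := H.Z.sum_mem fun j _ => H.Z.mul_mem (hl j) (by
    obtain ⟨z, e⟩ := hN j; rw [e]; exact intCast_mem H.Z z)
  have t : (q * x i) * ∑ j, lam j * (N * (x j / x i)) = q * N * ∑ j, lam j * x j := by
    simp only [Finset.mul_sum]; exact Finset.sum_congr rfl fun j _ => by field_simp
  exact std_of_mul s e (std_dvd H (hx i) m (by rw [t]; exact mul_ne_zero (mul_ne_zero e n1) e')
    (by rw [t]; exact ((s.mul (Std.nat N)).mul s').fi))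

theorem stdsub (H : HF K) {I : Type} [Fintype I] (W : Submodule K (I → K))
    (hd : ∀ d : Derivation ℚ K K, ∀ w ∈ W, dv d w ∈ W) :
    W = Submodule.span K {w | w ∈ W ∧ ∀ i, Std (w i)} := by
  classical
  refine le_antisymm ?_ (Submodule.span_le.2 fun w h => h.1)
  suffices k : ∀ n : ℕ, ∀ w ∈ W, (Finset.univ.filter fun i => w i ≠ 0).card < n →
      w ∈ Submodule.span K {w | w ∈ W ∧ ∀ i, Std (w i)} from fun w h => k _ w h (Nat.lt_succ_self _)
  intro n
  induction n with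
  | zero => exact fun _ _ h => absurd h (Nat.not_lt_zero _)
  | succ n ih =>
    intro w hw hc
    have sm : ∀ u ∈ W, ∀ b, w b ≠ 0 → u b = 0 → (∀ i, w i = 0 → u i = 0) →
        u ∈ Submodule.span K {w | w ∈ W ∧ ∀ i, Std (w i)} := fun u hu b p p' p'' => ih u hu
      (lt_of_lt_of_le (Finset.card_lt_card ⟨fun i => by simpa using fun a c => a (p'' i c),
        fun c => by simpa [p'] using c (x := b) (by simpa using p)⟩) (Nat.lt_succ_iff.1 hc))
    by_cases z : w = 0
    · rw [z]; exact Submodule.zero_mem _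
    obtain ⟨a, ha⟩ := Function.ne_iff.1 z
    have hu : (w a)⁻¹ • w ∈ W := W.smul_mem _ hw
    by_cases c : ∀ d : Derivation ℚ K K, ∀ i, d (((w a)⁻¹ • w) i) = 0
    · have : w = w a • (w a)⁻¹ • w := (smul_inv_smul₀ ha w).symm
      rw [this]
      exact Submodule.smul_mem _ _ (Submodule.subset_span ⟨hu, fun i => H.der _ fun d => c d i⟩)
    push Not at c
    obtain ⟨d, b, hb⟩ := c
    replace hb : dv d ((w a)⁻¹ • w) b ≠ 0 := hb
    have h0 : ∀ i, w i = 0 → dv d ((w a)⁻¹ • w) i = 0 := fun i e => by simp [dv, e]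
    have h1 := sm _ (hd d _ hu) a ha (by simp [dv, inv_mul_cancel₀ (show w a ≠ 0 from ha)]) h0
    have h2 := sm (w - (w b / dv d ((w a)⁻¹ • w) b) • dv d ((w a)⁻¹ • w))
      (W.sub_mem hw (W.smul_mem _ (hd d _ hu))) b (fun e => hb (h0 b e))
      (by rw [Pi.sub_apply, Pi.smul_apply, smul_eq_mul, div_mul_cancel₀ _ hb, sub_self])
      (fun i e => by rw [Pi.sub_apply, Pi.smul_apply, h0 i e, e]; simp)
    simpa using Submodule.add_mem _ h2 (Submodule.smul_mem _ (w b / dv d ((w a)⁻¹ • w) b) h1)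

theorem exists_ginv {ι κ : Type} [Fintype ι] [Fintype κ] (A : Matrix ι κ ℚ) :
    ∃ G : Matrix κ ι ℚ, A * G * A = A := by
  classical
  obtain ⟨h, hh⟩ := (Matrix.toLin' A).rangeRestrict.exists_rightInverse_of_surjective
    (LinearMap.range_rangeRestrict _)
  obtain ⟨p, hp⟩ := (LinearMap.range (Matrix.toLin' A)).subtype.exists_leftInverse_of_injective
    (Submodule.ker_subtype _)
  refine ⟨LinearMap.toMatrix' (h ∘ₗ p), Matrix.toLin'.injective ?_⟩
  rw [Matrix.toLin'_mul, Matrix.toLin'_mul, Matrix.toLin'_toMatrix']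
  refine LinearMap.ext fun x => ?_
  have a := LinearMap.congr_fun hp ((Matrix.toLin' A).rangeRestrict x)
  have b := congrArg Subtype.val (LinearMap.congr_fun hh ((Matrix.toLin' A).rangeRestrict x))
  exact (congrArg (fun t => Matrix.toLin' A (h t)) a).trans b

/-- A standard generalised inverse of a standard matrix. -/
theorem std_ginv {ι κ : Type} [Fintype ι] [Fintype κ] (A : Matrix ι κ K) (hs : ∀ i k, Std (A i k)) :
    ∃ G : Matrix κ ι K, (∀ k i, Std (G k i)) ∧ A * G * A = A := by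
  choose q hq using hs
  obtain ⟨G, hG⟩ := exists_ginv (Matrix.of q)
  have e : A = (Matrix.of q).map (Rat.castHom K) := by ext i k; exact hq i k
  exact ⟨G.map (Rat.castHom K), fun _ _ => Std.rat _, by
    rw [e, ← Matrix.map_mul, ← Matrix.map_mul, hG]⟩

theorem linb_mat {ι κ : Type} [Fintype ι] [Fintype κ] (A : ι → κ → K) (hs : ∀ i k, Std (A i k))
    (x : κ → K) {r : K} (h : ∀ i, BO (∑ k, A i k * x k) r) :
    ∃ x1 : κ → K, (∀ i, ∑ k, A i k * x1 k = 0) ∧ ∀ k, BO (x k - x1 k) r := by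
  obtain ⟨G, sG, hG⟩ := std_ginv (Matrix.of A) hs
  refine ⟨x - G.mulVec ((Matrix.of A).mulVec x), fun i => ?_, fun k => ?_⟩
  · change (Matrix.of A).mulVec _ i = 0
    rw [Matrix.mulVec_sub, Matrix.mulVec_mulVec, Matrix.mulVec_mulVec, hG]; simp
  · rw [Pi.sub_apply, sub_sub_cancel]
    exact BO.sum _ fun i _ => (h i).fi_mul (sG k i).fi

variable {M : Type} [AddCommGroup M] [Module K M]

theorem form_eq {κ : Type} [Fintype κ] (b : Module.Basis κ K M) (f : M →ₗ[K] K) (x : M) :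
    f x = ∑ k, f (b k) * b.repr x k := by
  conv_lhs => rw [← b.sum_repr x, map_sum]
  simp [mul_comm]

/-- LINB for linear forms on a space with a basis. -/
theorem linb {ι κ : Type} [Finite ι] [Finite κ] (b : Module.Basis κ K M) (f : ι → M →ₗ[K] K)
    (hs : ∀ i k, Std (f i (b k))) (x : M) {r : K} (h : ∀ i, BO (f i x) r) :
    ∃ x1 : M, (∀ i, f i x1 = 0) ∧ (∀ k, BO (b.repr (x - x1) k) r) ∧
      ∀ g : M →ₗ[K] K, (∀ k, Fi (g (b k))) → BO (g x - g x1) r := by
  have := Fintype.ofFinite ι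
  have := Fintype.ofFinite κ
  obtain ⟨y, p, q⟩ := linb_mat (fun i k => f i (b k)) hs (b.repr x) fun i => by
    rw [← form_eq]; exact h i
  have q' : ∀ k, BO (b.repr (x - b.equivFun.symm y) k) r := fun k => by
    have : b.repr (b.equivFun.symm y) k = y k := congrFun (b.equivFun.apply_symm_apply y) k
    rw [map_sub, Finsupp.sub_apply, this]; exact q k
  refine ⟨b.equivFun.symm y, fun i => ?_, q', fun g hg => ?_⟩
  · rw [form_eq b, ← p i]
    exact Finset.sum_congr rfl fun k _ => congrArg _ (congrFun (b.equivFun.apply_symm_apply y) k)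
  · rw [← map_sub, form_eq b]
    exact BO.sum _ fun k _ => (q' k).fi_mul (hg k)

/-- LINB, kernel form: a finite form that vanishes on the common kernel is `O(r)`. -/
theorem linb_ker {ι κ : Type} [Finite ι] [Finite κ] (b : Module.Basis κ K M) (f : ι → M →ₗ[K] K)
    (hs : ∀ i k, Std (f i (b k))) (g : M →ₗ[K] K) (hg : ∀ k, Fi (g (b k)))
    (hk : ∀ y, (∀ i, f i y = 0) → g y = 0) (x : M) {r : K} (h : ∀ i, BO (f i x) r) :
    BO (g x) r := by
  obtain ⟨y, p, -, q⟩ := linb b f hs x h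
  simpa [hk y p] using q g hg

theorem linb_pi {ι κ : Type} [Finite ι] [Finite κ] [DecidableEq κ] (f : ι → (κ → K) →ₗ[K] K)
    (hs : ∀ i k, Std (f i (Pi.single k 1))) (x : κ → K) {r : K} (h : ∀ i, BO (f i x) r) :
    ∃ x1 : κ → K, (∀ i, f i x1 = 0) ∧ ∀ k, BO (x k - x1 k) r := by
  obtain ⟨y, p, q, -⟩ := linb (Pi.basisFun K κ) f (by simpa using hs) x h
  exact ⟨y, p, by simpa using q⟩

/-- INEQ with standard coefficients in `K`. -/
theorem ineq (H : HF K) {ι κ : Type} [Finite ι] [Fintype κ] (A : ι → κ → K)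
    (hA : ∀ i k, Std (A i k)) (x : κ → K) (h : ∀ i, 0 < ∑ k, A i k * x k) :
    ∃ y : κ → K, (∀ k, Std (y k)) ∧ ∀ i, 0 < ∑ k, A i k * y k := by
  have := Fintype.ofFinite ι
  choose a ha using hA
  obtain ⟨y, p⟩ := H.ineq ι κ a ⟨x, fun i => by simpa [ha] using h i⟩
  refine ⟨fun k => y k, fun k => Std.rat _, fun i => ?_⟩
  simp only [ha]; exact_mod_cast p i

/-- INEQ inside a subspace spanned by standard vectors. -/
theorem ineq_span (H : HF K) {ι I : Type} [Finite ι] [Fintype I]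
    (W : Submodule K (I → K)) (hW : W = Submodule.span K {w | w ∈ W ∧ ∀ i, Std (w i)})
    (f : ι → (I → K) →ₗ[K] K) (hf : ∀ j, ∀ w ∈ W, (∀ i, Std (w i)) → Std (f j w))
    {x : I → K} (hx : x ∈ W) (h : ∀ j, 0 < f j x) :
    ∃ y ∈ W, (∀ i, Std (y i)) ∧ ∀ j, 0 < f j y := by
  rw [hW] at hx
  obtain ⟨n, c, w, e⟩ := Submodule.mem_span_set'.1 hx
  obtain ⟨y, p, q⟩ := ineq H (fun j k => f j (w k)) (fun j k => hf j _ (w k).2.1 (w k).2.2) c
    (fun j => by simpa [← e, mul_comm] using h j)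
  refine ⟨∑ k, y k • (w k : I → K), W.sum_mem fun k _ => W.smul_mem _ (w k).2.1, fun i => ?_,
    fun j => by simpa [mul_comm] using q j⟩
  rw [Finset.sum_apply]
  exact Std.sum _ fun k _ => (p k).mul ((w k).2.2 i)

end Lb

end Pool.Agent.P.MP_33ab4b_ag.T
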