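import Pool.Agent.P.MP_33ab4b_ag.T.Basic

/-! Generic statements: linear algebra over ordered fields, two-dimensional fans, ultrapower. -/

set_option autoImplicit false

namespace Pool.Agent.P.MP_33ab4b_ag.T

open scoped Classical

-- deps:
def S_ZAR : Prop :=
  ∀ (K : Type) [Field K] [LinearOrder K] [IsStrictOrderedRing K] (ι : Type) (A : Finset ι)
    (M : ι → ι → K) (n : ι → K), (∀ a ∈ A, ∀ b ∈ A, M a b = M b a) →
    (∀ a ∈ A, ∀ b ∈ A, a ≠ b → 0 ≤ M a b) → (∀ a ∈ A, 0 < n a) →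
    (∀ a ∈ A, ∑ b ∈ A, M a b * n b ≤ 0) → ∀ x : ι → K,
    ∑ a ∈ A, ∑ b ∈ A, x a * M a b * x b ≤ 0 ∧
    (∑ a ∈ A, ∑ b ∈ A, x a * M a b * x b = 0 →
      (∀ a ∈ A, ∑ b ∈ A, M a b * x b = 0) ∧
      (∀ a ∈ A, ∀ b ∈ A, M a b ≠ 0 → x a / n a = x b / n b) ∧
      ∀ a ∈ A, ∑ b ∈ A, M a b * n b ≠ 0 → x a = 0)

-- deps:
def S_JC : Prop :=
  ∀ (K : Type) [Field K] [LinearOrder K] [IsStrictOrderedRing K] (L : Type) [AddCommGroup L]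
    [Module K L] [FiniteDimensional K L] (mu : Tri K L) (p : L →ₗ[K] K) (U : Module.End K L),
    (∀ x y z, rho U mu (U x) y z + rho U mu x (U y) z + rho U mu x y (U z) = 0) →
    (∀ x, p (U (U x)) = 0) →
    ∃ s n : Module.End K L, U = s + n ∧ IsNilpotent n ∧ (∀ x y z, rho s mu x y z = 0) ∧
      (∀ x, p (s x) = 0) ∧ (∀ x, ∃ y, n x = U y) ∧ (∀ x, U x = 0 → n x = 0) ∧
      ∀ x, ∃ y, s x = s (s y)

-- deps:
def S_BIN : Prop :=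
  ∀ (K : Type) [Field K] [LinearOrder K] [IsStrictOrderedRing K] (L : Type) [AddCommGroup L]
    [Module K L] (mu : Tri K L) (n : Module.End K L) (H x : L) (k : ℕ),
    (∀ a b c : ℕ, a + b + c + 1 = 2 * k → rho n mu ((n ^ a) H) ((n ^ b) x) ((n ^ c) x) = 0) →
    mu ((n ^ (2 * k)) H) x x =
      ∑ i ∈ Finset.range (2 * k + 1), ((2 * k).choose i : K) * mu H ((n ^ i) x) ((n ^ (2 * k - i)) x)

-- deps: JC BIN
def S_VERT : Prop :=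
  ∀ (K : Type) [Field K] [LinearOrder K] [IsStrictOrderedRing K] (L : Type) [AddCommGroup L]
    [Module K L] [FiniteDimensional K L] (mu : Tri K L) (U : Module.End K L) (W : Submodule K L)
    (H : L), Sym3 mu → (∀ x, U x ∈ W) → (∀ x y, ∀ w ∈ W, rho U mu x y w = 0) →
    (∀ w ∈ W, mu H w w = 0 → w = 0) →
    (∀ x y z, rho U mu x y z = 0) ∧ ∀ x, ∃ y, U x = U (U y)

-- deps: BIN
def S_NIL2 : Prop :=
  ∀ (K : Type) [Field K] [LinearOrder K] [IsStrictOrderedRing K] (L : Type) [AddCommGroup L]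
    [Module K L] (mu : Tri K L) (n : Module.End K L) (W : Submodule K L) (H f : L),
    Sym3 mu → IsNilpotent n → (∀ x, n x ∈ W) → n f = 0 → (∀ w ∈ W, mu f w = 0) →
    (∀ x y, ∀ w ∈ W, rho n mu x y w = 0) → (∀ w ∈ W, mu H w w = 0 → ∃ c : K, w = c • f) →
    (∀ w ∈ W, ∃ c : K, n w = c • f) ∧ ∀ y, ∀ w ∈ W, ∀ w' ∈ W, mu (n y) w w' = 0

-- deps:
def S_LINB : Prop :=
  ∀ (K : Type) [Field K] [LinearOrder K] [IsStrictOrderedRing K] (ι κ : Type) [Fintype ι]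
    [Fintype κ] [DecidableEq κ] (φ : ι → (κ → K) →ₗ[K] K),
    (∀ i a, Std (φ i (Pi.single a 1))) → ∀ (x : κ → K) (r : K), (∀ i, BO (φ i x) r) →
    ∃ x1 : κ → K, (∀ i, φ i x1 = 0) ∧ ∀ a, BO (x a - x1 a) r

-- deps:
def S_STD : Prop :=
  ∀ (K : Type) [Field K] [LinearOrder K] [IsStrictOrderedRing K] (hf : HF K) (I : Type)
    [Fintype I] [DecidableEq I] (x : I → K) (q : ℚ) (lam : (I → K) →ₗ[K] K), q ≠ 0 →
    (∀ i, (q : K) * x i ∈ hf.Z) → (∀ i, lam (Pi.single i 1) ∈ hf.Z) → Std (lam x) → lam x ≠ 0 →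
    (∀ d : Derivation ℚ K K, ∃ s : K, dv d x = s • x) → ∀ i, Std (x i)

-- deps:
def S_STDSUB : Prop :=
  ∀ (K : Type) [Field K] [LinearOrder K] [IsStrictOrderedRing K] (_hf : HF K) (I : Type)
    [Fintype I] [DecidableEq I] (B : Submodule K (I → K)),
    (∀ d : Derivation ℚ K K, ∀ x ∈ B, dv d x ∈ B) →
    ∃ (n : ℕ) (b : Fin n → I → K), (∀ k, b k ∈ B) ∧ (∀ k i, Std (b k i)) ∧
      ∀ x ∈ B, ∃ s : Fin n → K, x = ∑ k, s k • b k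

-- deps:
def S_GEN : Prop :=
  ∀ (K : Type) [Field K] [LinearOrder K] [IsStrictOrderedRing K] (E : Type) [AddCommGroup E]
    [Module K E] (A B : Set (E →ₗ[K] K)), A.Finite → B.Finite → (∀ u ∈ A, u ≠ 0) →
    ∀ y0 : E, (∀ u ∈ B, 0 < u y0) → ∃ y : E, (∀ u ∈ A, u y ≠ 0) ∧ ∀ u ∈ B, 0 < u y

-- deps:
def S_NX : Prop :=
  ∀ (K : Type) [Field K] [LinearOrder K] [IsStrictOrderedRing K] (V : Type) (e : V3 K)
    (v : V → V3 K) (A : Finset V), e ≠ 0 → (∀ a ∈ A, ∀ t : K, v a ≠ t • e) →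
    (∀ a ∈ A, ∀ b ∈ A, a ≠ b → det3 e (v a) (v b) = 0 →
      ∃ s t : K, 0 < s ∧ v b = (-s) • v a + t • e) →
    (∀ u : Fm K, u ≠ 0 → u e = 0 → ∃ a ∈ A, 0 < u (v a)) →
    ∃ nx pv : V → V, Cyc e v A nx pv

-- deps:
def S_SL : Prop :=
  ∀ (K : Type) [Field K] [LinearOrder K] [IsStrictOrderedRing K] (hf : HF K) (V : Type)
    (e : V3 K) (v : V → V3 K) (A : Finset V) (nx pv : V → V), Cyc e v A nx pv →
    (∀ a ∈ A, ∀ b ∈ A, det3 e (v a) (v b) ∈ hf.Z) → (∀ a ∈ A, Fi (det3 e (v a) (v (nx a)))) →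
    (∀ a ∈ A, (∀ b ∈ A, b ≠ a → det3 e (v a) (v b) ≠ 0) → Fi (cA e v nx pv a)) ∧
    (∀ a ∈ A, ∀ b ∈ A, (∃ t : K, v b = - v a + t • e) → Fi (cA e v nx pv a + cA e v nx pv b)) ∧
    ((∀ a ∈ A, ∀ b ∈ A, a ≠ b → det3 e (v a) (v b) = 0 → ∃ t : K, v b = - v a + t • e) →
      Fi (∑ a ∈ A, cA e v nx pv a))

-- deps:
def S_INJ1 : Prop :=
  ∀ (K : Type) [Field K] [LinearOrder K] [IsStrictOrderedRing K] (ι Y : Type) [Fintype ι]
    [DecidableEq ι] [AddCommGroup Y] [Module K Y] (σ : Y ≃ₗ[K] (ι → K)) (κ : ι → K)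
    (q : Y → Y → K) (P : Y → Y → Y → K) (Γ : Y →ₗ[K] Y) (l : Y →ₗ[K] K) (θ : K),
    3 ≤ Fintype.card ι → (∀ i, κ i ≠ 0) →
    (∀ y y', q y y' = - ∑ i, κ i * σ y i * σ y' i) →
    (∀ y y' y'', P y y' y'' = ∑ i, κ i * σ y i * σ y' i * σ y'' i) →
    (∀ y y', q (Γ y) y' + q y (Γ y') = 0) →
    (∀ y y' y'', P (Γ y) y' y'' + P y (Γ y') y'' + P y y' (Γ y'') +
      (l y * q y' y'' + l y' * q y y'' + l y'' * q y y') - θ * P y y' y'' = 0) → Γ = 0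

-- deps:
def S_INJ2 : Prop :=
  ∀ (K : Type) [Field K] [LinearOrder K] [IsStrictOrderedRing K] (ι Y : Type) [Fintype ι]
    [DecidableEq ι] [Nonempty ι] [AddCommGroup Y] [Module K Y] (σ : Y ≃ₗ[K] (K × K × (ι → K)))
    (κ : ι → K) (c : K) (q : Y → Y → K) (P : Y → Y → Y → K) (Γ : Y →ₗ[K] Y) (l : Y →ₗ[K] K)
    (θ : K), (∀ i, κ i ≠ 0) →
    (∀ y y', q y y' = (σ y).1 * (σ y').2.1 + (σ y).2.1 * (σ y').1 + c * (σ y).1 * (σ y').1 -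
      ∑ i, κ i * (σ y).2.2 i * (σ y').2.2 i) →
    (∀ y y' y'', P y y' y'' = (σ y).1 * (σ y').1 * (σ y'').2.1 + (σ y).1 * (σ y').2.1 * (σ y'').1 +
      (σ y).2.1 * (σ y').1 * (σ y'').1 + c * (σ y).1 * (σ y').1 * (σ y'').1 +
      ∑ i, κ i * (σ y).2.2 i * (σ y').2.2 i * (σ y'').2.2 i) →
    (∀ y y', q (Γ y) y' + q y (Γ y') = 0) →
    (∀ y y' y'', P (Γ y) y' y'' + P y (Γ y') y'' + P y y' (Γ y'') +
      (l y * q y' y'' + l y' * q y y'' + l y'' * q y y') - θ * P y y' y'' = 0) → Γ = 0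

-- deps: LINB VERT
def S_RHOA : Prop :=
  ∀ (K : Type) [Field K] [LinearOrder K] [IsStrictOrderedRing K] (A L : Type) [Fintype A]
    [DecidableEq A] [AddCommGroup L] [Module K L] (b : Module.Basis A K L) (N S : A)
    (U W : Finset A) (t lam κ0 : K) (κ : A → K) (s : A → L →ₗ[K] K) (l p : L →ₗ[K] K)
    (mu mu0 : Tri K L) (m1 m2 : L → L → L → K) (E : Module.End K L) (η H : L),
    N ≠ S → N ∉ U → S ∉ U → N ∉ W → S ∉ W → (∀ a ∈ U, a ∉ W) →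
    (∀ a, a = N ∨ a = S ∨ a ∈ U ∨ a ∈ W) → ¬ Fi t → Std κ0 → κ0 ≠ 0 →
    (∀ u ∈ U, Std (κ u) ∧ κ u ≠ 0) → (∀ u ∈ U, ∀ a, Std (s u (b a))) →
    (∀ u ∈ U, ∀ a, a ∉ U → s u (b a) = 0) →
    (∀ x : L, (∀ a, a ∉ U → b.repr x a = 0) → (∀ u ∈ U, s u x = 0) → x = 0) →
    (∀ a, Std (l (b a))) → l (b N) = 0 → (∀ i ∈ W, l (b i) = 0) → Sym3 mu →
    (∀ a a' a'', Std (mu0 (b a) (b a') (b a''))) →
    (∀ x y w, m2 x y w = κ0 * (b.repr x N * b.repr y N * b.repr w N +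
      b.repr x S * b.repr y S * b.repr w S)) →
    (∀ x y w, m1 x y w = ∑ u ∈ U, κ u * s u x * s u y * s u w +
      (b.repr x S * b.repr y S * l w + b.repr x S * l y * b.repr w S +
        l x * b.repr y S * b.repr w S)) →
    (∀ x y w, mu x y w = t ^ 2 * m2 x y w + t * m1 x y w + mu0 x y w) →
    (∀ x y w, rho E mu x y w = lam * (2 * t ^ 2 * m2 x y w + t * m1 x y w)) →
    b.repr η N = -1 → b.repr η S = 1 → (∀ u ∈ U, s u η ≠ 0) → (∀ i ∈ W, ∀ y, mu η y (b i) = 0) →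
    (∀ w ∈ Submodule.span K (b '' (W : Set A)),
      (∀ i ∈ W, ∀ i' ∈ W, mu w (b i) (b i') = 0) → w = 0) →
    (∀ w ∈ Submodule.span K (b '' (W : Set A)), mu H w w = 0 → w = 0) →
    Std (p (b N) - t ^ 2 * κ0) → (∀ a, BO (p (b a)) (t ^ 2)) → (∀ i ∈ W, Std (p (b i))) →
    p (E (b N)) = 2 * lam * t ^ 2 * κ0 → (∀ i ∈ W, p (E (b i)) = 0) → lam = 0

/-- The ultrapower of the rationals. -/
abbrev QU : Type := Filter.Germ (Filter.hyperfilter ℕ : Filter ℕ) ℚ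

-- deps:
def S_HFQ : Prop :=
  ∃ hf : HF QU, (∀ x : QU, x ∈ hf.Z ↔ ∃ a : ℕ → ℤ, x = ((fun n => (a n : ℚ)) : ℕ → ℚ)) ∧
    ∀ q : ℚ, (q : QU) = ((fun _ => q : ℕ → ℚ) : QU)

end Pool.Agent.P.MP_33ab4b_ag.T
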