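import Pool.Agent.P.MP_33ab4b_ag.T.IfaceA
import Pool.Agent.P.MP_33ab4b_ag.Der

/-! Step HFQ. -/

set_option autoImplicit false

namespace Pool.Agent.P.MP_33ab4b_ag.T

open scoped Classical
open Filter

namespace Hq

/-- The germ of a sequence of rationals. -/
noncomputable def hq : (ℕ → ℚ) →+* QU := Germ.coeRingHom _

theorem hq_def (a : ℕ → ℚ) : hq a = (a : QU) := rfl

theorem hq_const (q : ℚ) : hq (fun _ => q) = (q : QU) :=
  eq_ratCast (hq.comp (Pi.constRingHom ℕ ℚ)) q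

theorem hq_surj (x : QU) : ∃ a, x = hq a := Germ.inductionOn x fun a => ⟨a, rfl⟩

theorem hq_eq {a b : ℕ → ℚ} : hq a = hq b ↔ ∀ᶠ n in (hyperfilter ℕ : Filter ℕ), a n = b n :=
  Germ.coe_eq

theorem hq_lt {a b : ℕ → ℚ} : hq a < hq b ↔ ∀ᶠ n in (hyperfilter ℕ : Filter ℕ), a n < b n :=
  Germ.coe_lt

theorem hq_le {a b : ℕ → ℚ} : hq a ≤ hq b ↔ ∀ᶠ n in (hyperfilter ℕ : Filter ℕ), a n ≤ b n :=
  Germ.coe_le

theorem std_of_alg {x : QU} (h : IsAlgebraic ℚ x) : Std x := by
  obtain ⟨a, rfl⟩ := hq_surj x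
  obtain ⟨P, P0, hP⟩ := h
  have e : hq (fun n => P.eval (a n)) = hq (fun _ => 0) := by
    rw [hq_const, Rat.cast_zero, ← hP, Polynomial.aeval_eq_sum_range]
    have : (fun n => P.eval (a n)) =
        ∑ i ∈ Finset.range (P.natDegree + 1), (fun _ => P.coeff i) * a ^ i := by
      funext n; simp [Polynomial.eval_eq_sum_range, Finset.sum_apply]
    rw [this, map_sum]
    exact Finset.sum_congr rfl fun i _ => by rw [map_mul, map_pow, hq_const, Rat.smul_def]
  have f : ∀ᶠ n in (hyperfilter ℕ : Filter ℕ), ∃ r ∈ (P.roots.toFinset : Set ℚ), a n = r :=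
    (hq_eq.1 e).mono fun n hn => ⟨a n, by simpa [P0] using hn, rfl⟩
  obtain ⟨r, -, hr⟩ := (Ultrafilter.eventually_exists_mem_iff (Finset.finite_toSet _)).1 f
  exact ⟨r, by rw [← hq_const]; exact hq_eq.2 hr⟩

/-- The germs of integer sequences. -/
noncomputable def hz : (ℕ → ℤ) →+* QU := hq.comp ((Int.castRingHom ℚ).compLeft ℕ)

theorem hz_def (a : ℕ → ℤ) : hz a = hq fun n => (a n : ℚ) := rfl

/-- The ultrapower has the transfer properties. -/
noncomputable def hf : HF QU where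
  Z := hz.range
  disc := by
    rintro _ ⟨a, rfl⟩ h
    rw [hz_def, ← map_zero hq] at h
    rw [hz_def, ← map_one hq]
    exact hq_le.2 ((hq_lt.1 h).mono fun n hn => by
      have : 0 < a n := by simpa using hn
      simpa using (by exact_mod_cast this : (1 : ℚ) ≤ a n))
  flo x := by
    obtain ⟨a, rfl⟩ := hq_surj x
    refine ⟨_, ⟨fun n => ⌊a n⌋, rfl⟩, ?_, ?_⟩
    · exact hq_le.2 (.of_forall fun n => Int.floor_le _)
    · rw [hz_def, ← map_one hq, ← map_add]
      exact hq_lt.2 (.of_forall fun n => Int.lt_floor_add_one _)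
  der x h := std_of_alg (der_algebraic _ x h)
  ineq ι κ _ _ c := by
    rintro ⟨s, h⟩
    choose a ha using fun k => hq_surj (s k)
    have : ∀ᶠ n in (hyperfilter ℕ : Filter ℕ), ∀ i, 0 < ∑ k, c i k * a k n :=
      eventually_all.2 fun i => by
        have e : ∑ k, (c i k : QU) * s k = hq (∑ k, (fun _ => c i k) * a k) := by
          rw [map_sum]
          exact Finset.sum_congr rfl fun k _ => by rw [map_mul, hq_const, ha]
        have := h i
        rw [e, ← map_zero hq] at this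
        exact (hq_lt.1 this).mono fun n hn => by simpa [Finset.sum_apply] using hn
    obtain ⟨n, hn⟩ := this.exists
    exact ⟨fun k => a k n, hn⟩

end Hq

theorem p_HFQ :
    S_HFQ :=
  ⟨Hq.hf, fun _ => ⟨fun ⟨a, h⟩ => ⟨a, h.symm⟩, fun ⟨a, h⟩ => ⟨a, h.symm⟩⟩,
    fun q => (Hq.hq_const q).symm⟩

end Pool.Agent.P.MP_33ab4b_ag.T
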