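import Pool.Agent.P.MP_33ab4b_ag.T.IfaceM
import Pool.Agent.P.MP_33ab4b_ag.T.IfaceA
import Pool.Agent.P.MP_33ab4b_ag.T.THFQ

/-! Step CORE. -/

set_option autoImplicit false

namespace Pool.Agent.P.MP_33ab4b_ag.T

open scoped Classical
open Filter

namespace Hq

/-- The germ of a sequence of rational vectors. -/
noncomputable def hw {I : Type} (x : ℕ → I → ℚ) : I → QU := fun i => hq fun k => x k i

/-- The germ of a sequence of integer vectors. -/
noncomputable def hv {I : Type} (x : ℕ → I → ℤ) : I → QU := fun i => hz fun k => x k i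

theorem hw_surj {I : Type} (x : I → QU) : ∃ y, x = hw y := by
  choose a ha using fun i => hq_surj (x i)
  exact ⟨fun k i => a i k, funext ha⟩

theorem hq_sum {I : Type} [Fintype I] (x y : ℕ → I → ℚ) :
    ∑ i, hw x i * hw y i = hq fun k => ∑ i, x k i * y k i := by
  have : (fun k => ∑ i, x k i * y k i) = ∑ i, (fun k => x k i) * fun k => y k i := by
    funext k; simp [Finset.sum_apply]
  rw [this, map_sum]
  exact Finset.sum_congr rfl fun i _ => (map_mul hq _ _).symm

theorem hz_const (z : ℤ) : hz (fun _ => z) = (z : QU) := by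
  rw [hz_def, hq_const, Rat.cast_intCast]

theorem hv_single {I : Type} [DecidableEq I] (i : I) :
    hv (fun _ => Pi.single i 1) = Pi.single i 1 := by
  funext j
  rw [hv, hz_const]
  by_cases h : j = i <;> simp [Pi.single_apply, h]

theorem hq_det (x y z : ℕ → V3 ℚ) :
    det3 (hw x) (hw y) (hw z) = hq fun k => det3 (x k) (y k) (z k) := by
  simp only [det3, hw, ← map_mul, ← map_sub, ← map_add]; rfl

/-- The trilinear form with integer coefficients. -/
noncomputable def muK {b : ℕ} (mu : Fin b → Fin b → Fin b → ℤ) : Tri QU (Fin b → QU) :=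
  ∑ i, ∑ j, ∑ k, (mu i j k : QU) • (LinearMap.proj i : (Fin b → QU) →ₗ[QU] QU).smulRight
    ((LinearMap.proj j : (Fin b → QU) →ₗ[QU] QU).smulRight (LinearMap.proj k))

theorem muK_apply {b : ℕ} (mu : Fin b → Fin b → Fin b → ℤ) (x y z : Fin b → QU) :
    muK mu x y z = ∑ i, ∑ j, ∑ k, (mu i j k : QU) * x i * y j * z k := by
  simp [muK, LinearMap.sum_apply, mul_assoc]

theorem muK_hv {b : ℕ} (mu : Fin b → Fin b → Fin b → ℤ) (x y z : ℕ → Fin b → ℤ) :
    muK mu (hv x) (hv y) (hv z) = hz fun n => tri mu (x n) (y n) (z n) := by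
  have : (fun n => tri mu (x n) (y n) (z n)) = ∑ i, ∑ j, ∑ k, (fun _ => mu i j k) *
      (fun n => x n i) * (fun n => y n j) * fun n => z n k := by
    funext k; simp [Finset.sum_apply, tri]
  rw [this, muK_apply]
  simp only [map_sum, map_mul, hz_const, hv]

/-- The linear form with given coefficients. -/
noncomputable def fmK {I : Type} [Fintype I] (c : I → QU) : (I → QU) →ₗ[QU] QU :=
  ∑ i, c i • LinearMap.proj i

theorem fmK_apply {I : Type} [Fintype I] (c x : I → QU) : fmK c x = ∑ i, c i * x i := by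
  simp [fmK, LinearMap.sum_apply]

theorem fm_eq {R I : Type} [Field R] [Fintype I] [DecidableEq I] (u : (I → R) →ₗ[R] R) (x : I → R) :
    u x = ∑ i, u (Pi.single i 1) * x i := by
  conv_lhs => rw [pi_eq_sum_univ' x, map_sum]
  simp [mul_comm]

theorem fmK_hw {I : Type} [Fintype I] [DecidableEq I] (u : ℕ → (I → ℚ) →ₗ[ℚ] ℚ) (x : ℕ → I → ℚ) :
    fmK (hw fun k i => u k (Pi.single i 1)) (hw x) = hq fun k => u k (x k) := by
  rw [fmK_apply, hq_sum]
  exact congrArg _ (funext fun k => (fm_eq _ _).symm)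

/-- The ultraproduct of a sequence of rational fans with the same faces. -/
noncomputable def fan {V : Type} [Fintype V] [DecidableEq V] (Φ : ℕ → Fan ℚ V)
    (h : ∀ k, (Φ k).F = (Φ 0).F) : Fan QU V where
  v a := hw fun k => (Φ k).v a
  F := (Φ 0).F
  h := hw fun k => (Φ k).h
  card3 := (Φ 0).card3
  unimod a b c e := by
    rw [hq_det, ← map_one hq, ← map_neg, hq_eq, hq_eq, ← Ultrafilter.eventually_or]
    exact .of_forall fun k => (Φ k).unimod a b c (by rwa [h])
  cover x := by
    obtain ⟨x, rfl⟩ := hw_surj x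
    choose s hs t t0 t1 t2 using fun k => (Φ k).cover (x k)
    obtain ⟨s0, e⟩ := (Ultrafilter.eventually_exists_iff (f := hyperfilter ℕ)).1
      (.of_forall fun k => ⟨s k, rfl⟩ : ∀ᶠ k in _, ∃ s0, s k = s0)
    refine ⟨s0, ?_, hw t, fun a => ?_, fun a ha => ?_, funext fun i => ?_⟩
    · obtain ⟨k, rfl⟩ := e.exists; rw [← h k]; exact hs k
    · rw [← map_zero hq]; exact hq_le.2 (.of_forall fun k => t0 k a)
    · rw [← map_zero hq]; exact hq_eq.2 (e.mono fun k e => t1 k a (e ▸ ha))
    · rw [Finset.sum_apply]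
      exact Eq.trans (congrArg hq (funext fun k => by
        simpa [Finset.sum_apply] using congrFun (t2 k) i))
        (hq_sum t fun k a => (Φ k).v a i).symm
  used := (Φ 0).used
  conv s hs := by
    choose u u1 u2 using fun k => (Φ k).conv s (by rwa [h])
    refine ⟨fmK (hw fun k i => u k (Pi.single i 1)), fun a ha => ?_, fun a ha => ?_⟩
    · rw [fmK_hw]; exact congrArg _ (funext fun k => u1 k a ha)
    · rw [fmK_hw]; exact hq_lt.2 (.of_forall fun k => u2 k a ha)

theorem exists_hp (hQ : S_QFAN) (hR : S_RANK) {b m : ℕ} {mu : Fin b → Fin b → Fin b → ℤ}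
    {p : Fin b → ℤ} (s1 : ∀ i j k, mu i j k = mu j i k) (s2 : ∀ i j k, mu i j k = mu i k j)
    (S : ℕ → SPFan m) (Z : ∀ k, ZPres (S k) b mu p) (h : ∀ k, (S k).F = (S 0).F) :
    ∃ P : HP QU (Fin m) (Fin b), P.c3 =
      hz fun k => tri mu (∑ a, (Z k).D a) (∑ a, (Z k).D a) (∑ a, (Z k).D a) := by
  choose Φ hv' hF using fun k => hQ m (S k)
  have h' : ∀ k, (Φ k).F = (Φ 0).F := fun k => by rw [hF, hF, h]
  have ev : ∀ a i, (fan Φ h').v a i = hw (fun k i => ((S k).v a i : ℚ)) i := fun a i =>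
    congrArg hq (funext fun k => hv' k a i)
  refine ⟨{
    toFan := fan Φ h'
    hf := hf
    vZ := fun a i => ⟨fun k => (S k).v a i, (ev a i).symm⟩
    D := fun a => hv fun k => (Z k).D a
    mu := muK mu
    p := fmK fun i => p i
    sym := ⟨fun x y z => ?_, fun x y z => ?_⟩
    muZ := fun i j k => ⟨tri mu (Pi.single i 1) (Pi.single j 1) (Pi.single k 1), ?_⟩
    pZ := fun i => ⟨p i, by simp [fmK_apply, Pi.single_apply]⟩
    DZ := fun a i => ⟨_, rfl⟩
    onto := fun i => ?_
    ker := fun x => ?_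
    mface := fun a c e n1 n2 n3 => ?_
    mnadj := fun a c n1 n2 => ?_
    pdef := fun x => ?_ }, ?_⟩
  · rw [muK_apply, muK_apply, Finset.sum_comm]
    exact Finset.sum_congr rfl fun i _ => Finset.sum_congr rfl fun j _ =>
      Finset.sum_congr rfl fun k _ => by rw [s1]; ring
  · rw [muK_apply, muK_apply]
    refine Finset.sum_congr rfl fun i _ => Finset.sum_comm.trans ?_
    exact Finset.sum_congr rfl fun j _ => Finset.sum_congr rfl fun k _ => by rw [s2]; ring
  · rw [← hv_single i, ← hv_single j, ← hv_single k, muK_hv, hz_const]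
  · choose y hy using fun k => (Z k).onto (Pi.single i 1)
    refine ⟨hv y, fun a => ⟨_, rfl⟩, (hv_single i).symm.trans (funext fun j => ?_)⟩
    rw [Finset.sum_apply]
    refine Eq.trans (congrArg hq (funext fun k => ?_))
      (hq_sum (fun k a => y k a) fun k a => (Z k).D a j).symm
    have := congrFun (hy k) j
    simp only [Finset.sum_apply, Pi.smul_apply, smul_eq_mul] at this
    change (((Pi.single i 1 : Fin b → ℤ) j : ℤ) : ℚ) = _
    rw [this]; push_cast; rfl
  · obtain ⟨x, rfl⟩ := hw_surj x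
    have e : ∀ i, (∑ a, hw x a • hv fun k => (Z k).D a) i =
        hq fun k => ∑ a, x k a * ((Z k).D a i : ℚ) := fun i => by
      rw [Finset.sum_apply]; exact hq_sum x fun k a => (Z k).D a i
    constructor
    · intro h0
      have e1 : ∀ᶠ k in (hyperfilter ℕ : Filter ℕ), ∀ i, ∑ a, x k a * ((Z k).D a i : ℚ) = 0 :=
        eventually_all.2 fun i => hq_eq.1 (by rw [← e, h0]; exact (map_zero hq).symm)
      have : ∀ k, ∃ u : Fin 3 → ℚ, (∀ i, ∑ a, x k a * ((Z k).D a i : ℚ) = 0) →
          ∀ a, x k a = ∑ i, u i * ((S k).v a i : ℚ) := fun k => by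
        by_cases c : ∀ i, ∑ a, x k a * ((Z k).D a i : ℚ) = 0
        · obtain ⟨u, hu⟩ := ((hR m _ b mu p (Z k)).2 (x k)).1 c
          exact ⟨u, fun _ => hu⟩
        · exact ⟨0, fun c' => absurd c' c⟩
      choose u hu using this
      refine ⟨fmK (hw u), fun a => ?_⟩
      rw [fmK_apply]
      simp only [ev]
      rw [hq_sum]
      exact hq_eq.2 (e1.mono fun k e => hu k e a)
    · rintro ⟨u, hu⟩
      obtain ⟨c, hc⟩ := hw_surj fun i => u (Pi.single i 1)
      have e1 : ∀ᶠ k in (hyperfilter ℕ : Filter ℕ), ∀ a,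
          x k a = ∑ i, c k i * ((S k).v a i : ℚ) := eventually_all.2 fun a => hq_eq.1 (by
        rw [← hq_sum, ← hc]
        refine (hu a).trans ((fm_eq _ _).trans ?_)
        simp only [ev])
      funext i
      rw [e, Pi.zero_apply, ← map_zero hq]
      exact hq_eq.2 (e1.mono fun k e => ((hR m _ b mu p (Z k)).2 (x k)).2 ⟨_, e⟩ i)
  · rw [muK_hv]
    have : (fun k => tri mu ((Z k).D a) ((Z k).D c) ((Z k).D e)) =
        fun _ => if ({a, c, e} : Finset (Fin m)) ∈ (Φ 0).F then 1 else 0 :=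
      funext fun k => by rw [(Z k).mface a c e n1 n2 n3, hF, h]
    rw [this, hz_const]
    change _ = if ({a, c, e} : Finset (Fin m)) ∈ (Φ 0).F then 1 else 0
    split_ifs <;> simp
  · refine (Pi.basisFun QU (Fin b)).ext fun i => ?_
    rw [Pi.basisFun_apply, ← hv_single, muK_hv, LinearMap.zero_apply, ← map_zero hz]
    exact congrArg _ (funext fun k => (Z k).mnadj a c n1
      (fun s hs e => n2 ⟨n1, s, by change s ∈ (Φ 0).F; rwa [hF, ← h k], e⟩) _)
  · rw [← LinearMap.sum_apply]
    refine LinearMap.congr_fun ((Pi.basisFun QU (Fin b)).ext fun i => ?_) x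
    rw [Pi.basisFun_apply, LinearMap.sum_apply, fmK_apply]
    conv_rhs => rw [← hv_single]
    simp only [muK_hv]
    rw [← map_sum]
    have : (∑ a, fun k => tri mu ((Z k).D a) ((Z k).D a) (Pi.single i 1)) = fun _ => p i :=
      funext fun k => by rw [Finset.sum_apply, ← (Z k).pdef]; simp
    rw [this, hz_const]; simp [Pi.single_apply]
  · have : (∑ a, hv fun k => (Z k).D a) = hv fun k => ∑ a, (Z k).D a := by
      funext i
      simp only [Finset.sum_apply, hv, ← map_sum]
      exact congrArg _ (funext fun k => by simp [Finset.sum_apply])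
    exact (congrArg (fun x => muK mu x x x) this).trans (muK_hv _ _ _ _)

end Hq

theorem p_CORE (hHFQ : S_HFQ) (hQFAN : S_QFAN) (hRANK : S_RANK) (hKMAIN : S_KMAIN) :
    S_CORE := by
  intro b mu p s1 s2
  have fin : ∀ F0 : Finset (Finset (Fin (b + 3))), {n : ℤ | ∃ (S : SPFan (b + 3))
      (Z : ZPres S b mu p), S.F = F0 ∧
      n = tri mu (∑ a, Z.D a) (∑ a, Z.D a) (∑ a, Z.D a)}.Finite := fun F0 => by
    by_contra hi
    have f := Set.Infinite.natEmbedding _ hi
    choose S Z hF hn using fun k => (f k).2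
    obtain ⟨P, hP⟩ := Hq.exists_hp hQFAN hRANK s1 s2 S Z fun k => by rw [hF, hF]
    obtain ⟨q, hq⟩ := hKMAIN _ _ _ P
    rw [hP, Hq.hz_def, ← Hq.hq_const, Hq.hq_eq] at hq
    refine Set.Finite.notMem_hyperfilter (Set.Subsingleton.finite fun k hk l hl => ?_) hq
    refine f.injective (Subtype.ext ?_)
    rw [hn, hn]
    exact_mod_cast hk.trans hl.symm
  refine (Set.finite_iUnion fin).subset ?_
  rintro n ⟨m, S, Z, e⟩
  obtain rfl := (hRANK m S b mu p Z).1
  exact Set.mem_iUnion.2 ⟨S.F, S, Z, rfl, e⟩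

end Pool.Agent.P.MP_33ab4b_ag.T
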