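import Pool.Agent.P.MP_33ab4b_ag.T.DefsB

/-! Small library: standard, finite and bounded elements, determinants, derivations. -/

set_option autoImplicit false

namespace Pool.Agent.P.MP_33ab4b_ag.T

section field

variable {K : Type} [Field K] [LinearOrder K] [IsStrictOrderedRing K]

/-! ### Standard elements -/

theorem Std.rat (q : ℚ) : Std (q : K) := ⟨q, rfl⟩
theorem Std.int (n : ℤ) : Std (n : K) := ⟨n, by simp⟩
theorem Std.nat (n : ℕ) : Std (n : K) := ⟨n, by simp⟩
theorem Std.zero : Std (0 : K) := ⟨0, by simp⟩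
theorem Std.one : Std (1 : K) := ⟨1, by simp⟩
theorem Std.add {x y : K} (hx : Std x) (hy : Std y) : Std (x + y) := by
  obtain ⟨a, rfl⟩ := hx; obtain ⟨b, rfl⟩ := hy; exact ⟨a + b, by simp⟩
theorem Std.neg {x : K} (hx : Std x) : Std (-x) := by
  obtain ⟨a, rfl⟩ := hx; exact ⟨-a, by simp⟩
theorem Std.sub {x y : K} (hx : Std x) (hy : Std y) : Std (x - y) := by
  obtain ⟨a, rfl⟩ := hx; obtain ⟨b, rfl⟩ := hy; exact ⟨a - b, by simp⟩
theorem Std.mul {x y : K} (hx : Std x) (hy : Std y) : Std (x * y) := by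
  obtain ⟨a, rfl⟩ := hx; obtain ⟨b, rfl⟩ := hy; exact ⟨a * b, by simp⟩
theorem Std.div {x y : K} (hx : Std x) (hy : Std y) : Std (x / y) := by
  obtain ⟨a, rfl⟩ := hx; obtain ⟨b, rfl⟩ := hy; exact ⟨a / b, by simp⟩
theorem Std.inv {x : K} (hx : Std x) : Std x⁻¹ := by
  obtain ⟨a, rfl⟩ := hx; exact ⟨a⁻¹, by simp⟩
theorem Std.sum {ι : Type} (s : Finset ι) {f : ι → K} (h : ∀ i ∈ s, Std (f i)) :
    Std (∑ i ∈ s, f i) :=
  Finset.sum_induction f Std (fun _ _ => Std.add) Std.zero h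
theorem Std.of_eq {x y : K} (hx : Std x) (h : y = x) : Std y := h ▸ hx
theorem Std.der {x : K} (hx : Std x) (d : Derivation ℚ K K) : d x = 0 := by
  obtain ⟨a, rfl⟩ := hx
  have := d.map_algebraMap a
  simpa using this
theorem Std.der_eq {x y : K} (h : Std (x - y)) (d : Derivation ℚ K K) : d x = d y := by
  have := h.der d
  rw [map_sub] at this
  exact sub_eq_zero.mp this

/-! ### Finite elements -/

theorem Fi.of_abs_le {x y : K} (hy : Fi y) (h : |x| ≤ |y|) : Fi x := by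
  obtain ⟨n, hn⟩ := hy; exact ⟨n, h.trans hn⟩
theorem Std.fi {x : K} (hx : Std x) : Fi x := by
  obtain ⟨a, rfl⟩ := hx
  obtain ⟨n, hn⟩ := exists_nat_ge |a|
  refine ⟨n, ?_⟩
  have : ((|a| : ℚ) : K) ≤ ((n : ℚ) : K) := Rat.cast_le.mpr hn
  simpa using this
theorem Fi.zero : Fi (0 : K) := Std.zero.fi
theorem Fi.one : Fi (1 : K) := Std.one.fi
theorem Fi.add {x y : K} (hx : Fi x) (hy : Fi y) : Fi (x + y) := by
  obtain ⟨n, hn⟩ := hx; obtain ⟨m, hm⟩ := hy
  exact ⟨n + m, by push_cast; exact (abs_add_le _ _).trans (add_le_add hn hm)⟩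
theorem Fi.neg {x : K} (hx : Fi x) : Fi (-x) := hx.of_abs_le (by simp)
theorem Fi.abs {x : K} (hx : Fi x) : Fi |x| := hx.of_abs_le (by simp)
theorem Fi.sub {x y : K} (hx : Fi x) (hy : Fi y) : Fi (x - y) := by
  rw [sub_eq_add_neg]; exact hx.add hy.neg
theorem Fi.mul {x y : K} (hx : Fi x) (hy : Fi y) : Fi (x * y) := by
  obtain ⟨n, hn⟩ := hx; obtain ⟨m, hm⟩ := hy
  exact ⟨n * m, by push_cast; rw [abs_mul]; exact mul_le_mul hn hm (abs_nonneg _) (by positivity)⟩
theorem Fi.sum {ι : Type} (s : Finset ι) {f : ι → K} (h : ∀ i ∈ s, Fi (f i)) :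
    Fi (∑ i ∈ s, f i) :=
  Finset.sum_induction f Fi (fun _ _ => Fi.add) Fi.zero h
theorem Fi.of_eq {x y : K} (hx : Fi x) (h : y = x) : Fi y := h ▸ hx
theorem Fi.div {x y : K} (hx : Fi x) (hy : 1 ≤ |y|) : Fi (x / y) := by
  refine hx.of_abs_le ?_
  rw [abs_div]
  exact div_le_self (abs_nonneg _) hy
theorem Fi.of_le_of_le {a b x : K} (ha : Fi a) (hb : Fi b) (h1 : a ≤ x) (h2 : x ≤ b) : Fi x := by
  refine (ha.abs.add hb.abs).of_abs_le ?_
  rw [abs_of_nonneg (show 0 ≤ |a| + |b| by positivity), abs_le]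
  constructor
  · have := neg_abs_le a; have := abs_nonneg b; linarith
  · have := le_abs_self b; have := abs_nonneg a; linarith

/-! ### Bounded ratios -/

theorem BO.refl (x : K) : BO x x := ⟨1, by simp⟩
theorem BO.zero (y : K) : BO 0 y := ⟨0, by simp⟩
theorem BO.of_abs_le {x y : K} (h : |x| ≤ |y|) : BO x y := ⟨1, by simpa using h⟩
theorem BO.mono {x x' y : K} (h : BO x y) (h' : |x'| ≤ |x|) : BO x' y := by
  obtain ⟨n, hn⟩ := h; exact ⟨n, h'.trans hn⟩
theorem BO.add {x x' y : K} (h : BO x y) (h' : BO x' y) : BO (x + x') y := by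
  obtain ⟨n, hn⟩ := h; obtain ⟨m, hm⟩ := h'
  exact ⟨n + m, by push_cast; rw [add_mul]; exact (abs_add_le _ _).trans (add_le_add hn hm)⟩
theorem BO.neg {x y : K} (h : BO x y) : BO (-x) y := h.mono (by simp)
theorem BO.sub {x x' y : K} (h : BO x y) (h' : BO x' y) : BO (x - x') y := by
  rw [sub_eq_add_neg]; exact h.add h'.neg
theorem BO.sum {ι : Type} (s : Finset ι) {f : ι → K} {y : K} (h : ∀ i ∈ s, BO (f i) y) :
    BO (∑ i ∈ s, f i) y :=
  Finset.sum_induction f (fun x => BO x y) (fun _ _ => BO.add) (BO.zero y) h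
theorem BO.mul {a b c e : K} (h : BO a b) (h' : BO c e) : BO (a * c) (b * e) := by
  obtain ⟨n, hn⟩ := h; obtain ⟨m, hm⟩ := h'
  refine ⟨n * m, ?_⟩
  push_cast
  rw [abs_mul, abs_mul]
  calc |a| * |c| ≤ (n * |b|) * (m * |e|) := mul_le_mul hn hm (abs_nonneg _) (by positivity)
    _ = _ := by ring
theorem BO.trans {x y z : K} (h : BO x y) (h' : BO y z) : BO x z := by
  obtain ⟨n, hn⟩ := h; obtain ⟨m, hm⟩ := h'
  refine ⟨n * m, ?_⟩
  push_cast
  calc |x| ≤ n * |y| := hn
    _ ≤ n * (m * |z|) := mul_le_mul_of_nonneg_left hm (by positivity)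
    _ = _ := by ring
theorem bo_one_iff {x : K} : BO x 1 ↔ Fi x := by simp [BO, Fi]
theorem BO.fi_mul {a x y : K} (ha : Fi a) (h : BO x y) : BO (a * x) y := by
  simpa using (bo_one_iff.mpr ha).mul h
theorem BO.mul_fi {a x y : K} (h : BO x y) (ha : Fi a) : BO (x * a) y := by
  rw [mul_comm]; exact h.fi_mul ha
theorem BO.of_eq {x x' y : K} (h : BO x y) (e : x' = x) : BO x' y := e ▸ h
theorem BO.fi {x y : K} (h : BO x y) (hy : Fi y) : Fi x :=
  bo_one_iff.mp (h.trans (bo_one_iff.mpr hy))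
theorem BO.fi_div {x y : K} (h : BO x y) : Fi (x / y) := by
  obtain ⟨n, hn⟩ := h
  rcases eq_or_ne y 0 with rfl | hy
  · simpa using Fi.zero
  · exact ⟨n, by rw [abs_div, div_le_iff₀ (abs_pos.mpr hy)]; exact hn⟩
theorem BO.of_fi_div {x y : K} (hy : y ≠ 0) (h : Fi (x / y)) : BO x y := by
  obtain ⟨n, hn⟩ := h
  exact ⟨n, by rwa [abs_div, div_le_iff₀ (abs_pos.mpr hy)] at hn⟩
/-- If `t` is infinite and `t r = O(r)` then `r = 0`. -/
theorem BO.eq_zero_of_inf {t r : K} (ht : ¬ Fi t) (h : BO (t * r) r) : r = 0 := by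
  by_contra hr
  exact ht (by simpa [mul_div_assoc, div_self hr] using h.fi_div)

/-! ### Hyperintegers -/

theorem HF.one_le_abs (hf : HF K) {x : K} (hx : x ∈ hf.Z) (h0 : x ≠ 0) : 1 ≤ |x| := by
  rcases lt_or_gt_of_ne h0 with h | h
  · rw [abs_of_neg h]; exact hf.disc _ (hf.Z.neg_mem hx) (neg_pos.mpr h)
  · rw [abs_of_pos h]; exact hf.disc _ hx h

theorem HF.int_of_fi (hf : HF K) {x : K} (hx : x ∈ hf.Z) (h : Fi x) : ∃ n : ℤ, x = n := by
  obtain ⟨n, hn⟩ := h
  have key : ∀ m : ℕ, ∀ y ∈ hf.Z, 0 ≤ y → y ≤ m → ∃ k : ℤ, y = k := by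
    intro m
    induction m with
    | zero => intro y _ h0 h1; exact ⟨0, by simp at h1 ⊢; exact le_antisymm h1 h0⟩
    | succ m ih =>
      intro y hy h0 h1
      rcases h0.eq_or_lt with h | h
      · exact ⟨0, by simp [← h]⟩
      · obtain ⟨k, hk⟩ := ih (y - 1) (hf.Z.sub_mem hy hf.Z.one_mem)
          (by have := hf.disc y hy h; linarith) (by push_cast at h1; linarith)
        exact ⟨k + 1, by push_cast; linarith⟩
  rcases le_total 0 x with h0 | h0
  · exact key n x hx h0 ((le_abs_self x).trans hn)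
  · obtain ⟨k, hk⟩ := key n (-x) (hf.Z.neg_mem hx) (neg_nonneg.mpr h0) ((neg_le_abs x).trans hn)
    exact ⟨-k, by push_cast; linarith⟩

theorem HF.std_of_fi (hf : HF K) {x : K} (hx : x ∈ hf.Z) (h : Fi x) : Std x := by
  obtain ⟨n, rfl⟩ := hf.int_of_fi hx h; exact Std.int n

/-- A finite element with a standard denominator is standard. -/
theorem HF.std_of_fi_mul (hf : HF K) {x c : K} (hc : Std c) (h0 : c ≠ 0) (hx : c * x ∈ hf.Z)
    (h : Fi x) : Std x :=
  ((hf.std_of_fi hx (hc.fi.mul h)).div hc).of_eq (by field_simp)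

/-! ### Determinants -/

@[simp] theorem detL_apply (a b c : V3 K) : detL a b c = det3 a b c := rfl
theorem det3_swap12 (a b c : V3 K) : det3 b a c = - det3 a b c := by simp only [det3]; ring
theorem det3_swap23 (a b c : V3 K) : det3 a c b = - det3 a b c := by simp only [det3]; ring
theorem det3_swap13 (a b c : V3 K) : det3 c b a = - det3 a b c := by simp only [det3]; ring
theorem det3_rot (a b c : V3 K) : det3 b c a = det3 a b c := by simp only [det3]; ring
@[simp] theorem det3_self12 (a c : V3 K) : det3 a a c = 0 := by simp only [det3]; ring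
@[simp] theorem det3_self13 (a b : V3 K) : det3 a b a = 0 := by simp only [det3]; ring
@[simp] theorem det3_self23 (a b : V3 K) : det3 a b b = 0 := by simp only [det3]; ring
theorem cramer (a b c x : V3 K) :
    det3 a b c • x = det3 x b c • a + det3 a x c • b + det3 a b x • c := by
  funext i
  fin_cases i <;> simp [det3] <;> ring
/-- A linear form is determined by its values on a basis. -/
theorem form_cramer (u : Fm K) (a b c x : V3 K) :
    det3 a b c * u x = det3 x b c * u a + det3 a x c * u b + det3 a b x * u c := by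
  have := congrArg u (cramer a b c x)
  simpa using this
theorem form_ext {u u' : Fm K} {a b c : V3 K} (h : det3 a b c ≠ 0) (ha : u a = u' a)
    (hb : u b = u' b) (hc : u c = u' c) : u = u' := by
  refine LinearMap.ext fun x => mul_left_cancel₀ h ?_
  rw [form_cramer u, form_cramer u', ha, hb, hc]
theorem exists_form {a b c : V3 K} (h : det3 a b c ≠ 0) (r s t : K) :
    ∃ u : Fm K, u a = r ∧ u b = s ∧ u c = t := by
  refine ⟨(det3 a b c)⁻¹ • (r • detL b c + s • detL c a + t • detL a b), ?_, ?_, ?_⟩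
  · simp [det3_rot a b c]; field_simp
  · simp [← det3_rot c a b]; field_simp
  · simp; field_simp
theorem plucker (e a b c x : V3 K) :
    det3 e a b * det3 e c x = det3 e a c * det3 e b x - det3 e a x * det3 e b c := by
  simp only [det3]; ring
theorem det3_mem (Z : Subring K) {a b c : V3 K} (ha : ∀ i, a i ∈ Z) (hb : ∀ i, b i ∈ Z)
    (hc : ∀ i, c i ∈ Z) : det3 a b c ∈ Z := by
  simp only [det3]
  exact Z.add_mem (Z.sub_mem (Z.mul_mem (ha 0) (Z.sub_mem (Z.mul_mem (hb 1) (hc 2))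
    (Z.mul_mem (hb 2) (hc 1)))) (Z.mul_mem (ha 1) (Z.sub_mem (Z.mul_mem (hb 0) (hc 2))
    (Z.mul_mem (hb 2) (hc 0))))) (Z.mul_mem (ha 2) (Z.sub_mem (Z.mul_mem (hb 0) (hc 1))
    (Z.mul_mem (hb 1) (hc 0))))

/-! ### Derivations on vectors -/

section dv
variable {I : Type} (d : Derivation ℚ K K)
@[simp] theorem dv_zero : dv d (0 : I → K) = 0 := by funext i; simp [dv]
theorem dv_add (x y : I → K) : dv d (x + y) = dv d x + dv d y := by funext i; simp [dv]
theorem dv_sub (x y : I → K) : dv d (x - y) = dv d x - dv d y := by funext i; simp [dv]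
theorem dv_neg (x : I → K) : dv d (-x) = - dv d x := by funext i; simp [dv]
theorem dv_smul (s : K) (x : I → K) : dv d (s • x) = s • dv d x + d s • x := by
  funext i; simp [dv, mul_comm]
theorem dv_smul_std {s : K} (hs : Std s) (x : I → K) : dv d (s • x) = s • dv d x := by
  rw [dv_smul, hs.der, zero_smul, add_zero]
theorem dv_sum {ι : Type} (s : Finset ι) (f : ι → I → K) :
    dv d (∑ i ∈ s, f i) = ∑ i ∈ s, dv d (f i) := by
  funext i; simp [dv, Finset.sum_apply]
theorem dv_std {x : I → K} (hx : ∀ i, Std (x i)) : dv d x = 0 := by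
  funext i; exact (hx i).der d
theorem d_form [Fintype I] [DecidableEq I] (l : (I → K) →ₗ[K] K)
    (hl : ∀ i, Std (l (Pi.single i 1))) (x : I → K) : d (l x) = l (dv d x) := by
  have e : ∀ y : I → K, l y = ∑ i, y i * l (Pi.single i 1) := fun y => by
    conv_lhs => rw [pi_eq_sum_univ' y]
    simp [map_sum]
  rw [e x, e (dv d x), map_sum]
  refine Finset.sum_congr rfl fun i _ => ?_
  simp [dv, (hl i).der d, mul_comm]
end dv

end field

/-! ### Fans -/

namespace Fan

variable {K V : Type} [Field K] [LinearOrder K] [IsStrictOrderedRing K] [Fintype V] [DecidableEq V]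
  {Φ : Fan K V}

theorem adj.symm {a b : V} (h : Φ.adj a b) : Φ.adj b a := by
  obtain ⟨h1, s, hs, ha, hb⟩ := h; exact ⟨h1.symm, s, hs, hb, ha⟩
theorem adj_comm {a b : V} : Φ.adj a b ↔ Φ.adj b a := ⟨adj.symm, adj.symm⟩
theorem not_adj_self (a : V) : ¬ Φ.adj a a := fun h => h.1 rfl
theorem face.swap12 {a b c : V} (h : Φ.face a b c) : Φ.face b a c := by
  unfold face at *; rwa [Finset.insert_comm]
theorem face.swap23 {a b c : V} (h : Φ.face a b c) : Φ.face a c b := by
  unfold face at *; rwa [Finset.pair_comm c b]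
theorem face.rot {a b c : V} (h : Φ.face a b c) : Φ.face b c a := h.swap12.swap23
theorem face.det {a b c : V} (h : Φ.face a b c) :
    det3 (Φ.v a) (Φ.v b) (Φ.v c) = 1 ∨ det3 (Φ.v a) (Φ.v b) (Φ.v c) = -1 := Φ.unimod a b c h
theorem face.det_ne {a b c : V} (h : Φ.face a b c) : det3 (Φ.v a) (Φ.v b) (Φ.v c) ≠ 0 := by
  rcases h.det with e | e <;> rw [e] <;> norm_num
theorem face.ne {a b c : V} (h : Φ.face a b c) : a ≠ b ∧ a ≠ c ∧ b ≠ c := by
  have := h.det_ne
  refine ⟨?_, ?_, ?_⟩ <;> rintro rfl <;> simp at this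
theorem face.adj12 {a b c : V} (h : Φ.face a b c) : Φ.adj a b := ⟨h.ne.1, _, h, by simp, by simp⟩
theorem face.adj13 {a b c : V} (h : Φ.face a b c) : Φ.adj a c := h.swap23.adj12
theorem face.adj23 {a b c : V} (h : Φ.face a b c) : Φ.adj b c := h.rot.adj12
theorem exists_face_eq {s : Finset V} (hs : s ∈ Φ.F) : ∃ a b c, s = {a, b, c} ∧ Φ.face a b c := by
  obtain ⟨a, b, c, _, _, _, e⟩ := Finset.card_eq_three.mp (Φ.card3 s hs)
  exact ⟨a, b, c, e, by unfold face; rwa [← e]⟩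
theorem exists_face_of_mem {s : Finset V} (hs : s ∈ Φ.F) {a : V} (ha : a ∈ s) :
    ∃ b c, s = {a, b, c} ∧ Φ.face a b c := by
  obtain ⟨x, y, z, e, h⟩ := exists_face_eq hs
  subst e
  simp only [Finset.mem_insert, Finset.mem_singleton] at ha
  rcases ha with rfl | rfl | rfl
  · exact ⟨y, z, rfl, h⟩
  · exact ⟨x, z, Finset.insert_comm _ _ _, h.swap12⟩
  · exact ⟨x, y, by ext; simp; tauto, h.rot.rot⟩
theorem exists_face_of_mem2 {s : Finset V} (hs : s ∈ Φ.F) {a b : V} (ha : a ∈ s) (hb : b ∈ s)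
    (hab : a ≠ b) : ∃ c, s = {a, b, c} ∧ Φ.face a b c := by
  obtain ⟨x, y, e, h⟩ := exists_face_of_mem hs ha
  subst e
  simp only [Finset.mem_insert, Finset.mem_singleton] at hb
  rcases hb with rfl | rfl | rfl
  · exact absurd rfl hab
  · exact ⟨y, rfl, h⟩
  · exact ⟨x, by rw [Finset.pair_comm], h.swap23⟩
theorem adj.exists_face {a b : V} (h : Φ.adj a b) : ∃ c, Φ.face a b c := by
  obtain ⟨h1, s, hs, ha, hb⟩ := h
  obtain ⟨c, _, hc⟩ := exists_face_of_mem2 hs ha hb h1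
  exact ⟨c, hc⟩
theorem exists_rep (x : V3 K) : ∃ t, Φ.IsRep x t := by
  obtain ⟨s, hs, t, h0, h1, h2⟩ := Φ.cover x
  exact ⟨t, h0, ⟨s, hs, h1⟩, h2⟩
theorem mem_nbrs {a b : V} : b ∈ Φ.nbrs a ↔ Φ.adj a b := by simp [nbrs]

end Fan

/-! ### Presentations -/

namespace HP

variable {K V I : Type} [Field K] [LinearOrder K] [IsStrictOrderedRing K] [Fintype V]
  [DecidableEq V] [Fintype I] [DecidableEq I] (P : HP K V I)

theorem mu12 (x y z : I → K) : P.mu x y z = P.mu y x z := P.sym.1 x y z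
theorem mu23 (x y z : I → K) : P.mu x y z = P.mu x z y := P.sym.2 x y z
theorem mu13 (x y z : I → K) : P.mu x y z = P.mu z y x := by rw [P.mu12, P.mu23, P.mu12]
theorem mu_comm (x y : I → K) : P.mu x y = P.mu y x := LinearMap.ext fun z => P.mu12 x y z
theorem cl_add (x y : V → K) : P.cl (x + y) = P.cl x + P.cl y := by
  simp [cl, add_smul, Finset.sum_add_distrib]
theorem cl_sub (x y : V → K) : P.cl (x - y) = P.cl x - P.cl y := by
  simp [cl, sub_smul, Finset.sum_sub_distrib]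
theorem cl_smul (r : K) (x : V → K) : P.cl (r • x) = r • P.cl x := by
  simp [cl, Finset.smul_sum, smul_smul]
@[simp] theorem cl_zero : P.cl 0 = 0 := by simp [cl]
theorem cl_single (a : V) : P.cl (Pi.single a 1) = P.D a := by
  simp [cl, Pi.single_apply, ite_smul]
/-- `cl` as a linear map. -/
def clL : (V → K) →ₗ[K] (I → K) where
  toFun := P.cl
  map_add' := P.cl_add
  map_smul' := P.cl_smul
@[simp] theorem clL_apply (x : V → K) : P.clL x = P.cl x := rfl
theorem cl_form (u : Fm K) : P.cl (fun a => u (P.v a)) = 0 := (P.ker _).mpr ⟨u, fun _ => rfl⟩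
theorem exists_cl (x : I → K) : ∃ c : V → K, x = P.cl c := by
  choose y _ hy using P.onto
  refine ⟨∑ i, x i • y i, ?_⟩
  rw [← clL_apply, map_sum]
  conv_lhs => rw [pi_eq_sum_univ' x]
  refine Finset.sum_congr rfl fun i _ => ?_
  rw [map_smul, clL_apply, cl, ← hy i]
theorem form_cl (l : (I → K) →ₗ[K] K) (x : V → K) : l (P.cl x) = ∑ a, x a * l (P.D a) := by
  simp [cl, map_sum]
theorem form_ext {l l' : (I → K) →ₗ[K] K} (h : ∀ a, l (P.D a) = l' (P.D a)) : l = l' := by
  refine LinearMap.ext fun x => ?_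
  obtain ⟨c, rfl⟩ := P.exists_cl x
  simp [form_cl, h]
theorem mu_cl (x : V → K) (y z : I → K) : P.mu (P.cl x) y z = ∑ a, x a * P.mu (P.D a) y z := by
  simp [cl, map_sum, LinearMap.sum_apply]
/-- The linear relations, for any linear form on the lattice. -/
theorem LR (l : (I → K) →ₗ[K] K) (u : Fm K) : ∑ a, u (P.v a) * l (P.D a) = 0 := by
  rw [← form_cl, cl_form, map_zero]
theorem LRv (l : (I → K) →ₗ[K] K) : ∑ a, l (P.D a) • P.v a = 0 := by
  funext i
  have := P.LR l (LinearMap.proj i)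
  simpa [Finset.sum_apply, mul_comm] using this
theorem nadj {a b : V} (hab : a ≠ b) (h : ¬ P.adj a b) (x : I → K) :
    P.mu x (P.D a) (P.D b) = 0 := by
  rw [P.mu13, P.mu12, P.mnadj a b hab h]; rfl
theorem m3_face {a b c : V} (h : P.face a b c) : P.m3 a b c = 1 := by
  have := P.mface a b c h.ne.1 h.ne.2.1 h.ne.2.2
  rw [m3, this, if_pos (show ({a, b, c} : Finset V) ∈ P.F from h)]
theorem m3_not_face {a b c : V} (h1 : a ≠ b) (h2 : a ≠ c) (h3 : b ≠ c) (h : ¬ P.face a b c) :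
    P.m3 a b c = 0 := by
  rw [m3, P.mface a b c h1 h2 h3, if_neg (show ¬ ({a, b, c} : Finset V) ∈ P.F from h)]
theorem m3_std {a b c : V} (h1 : a ≠ b) (h2 : a ≠ c) (h3 : b ≠ c) : Std (P.m3 a b c) := by
  by_cases h : P.face a b c
  · rw [P.m3_face h]; exact Std.one
  · rw [P.m3_not_face h1 h2 h3 h]; exact Std.zero
theorem mu_expand (x y z : I → K) : P.mu x y z =
    ∑ i, ∑ j, ∑ k, x i * y j * z k * P.mu (Pi.single i 1) (Pi.single j 1) (Pi.single k 1) := by
  conv_lhs => rw [pi_eq_sum_univ' x, pi_eq_sum_univ' y, pi_eq_sum_univ' z]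
  simp only [map_sum, map_smul, LinearMap.sum_apply, LinearMap.smul_apply, smul_eq_mul,
    Finset.mul_sum]
  rw [Finset.sum_comm]
  refine (Finset.sum_congr rfl fun j _ => Finset.sum_comm).trans ?_
  rw [Finset.sum_comm]
  refine Finset.sum_congr rfl fun i _ => Finset.sum_congr rfl fun j _ =>
    Finset.sum_congr rfl fun k _ => by ring
theorem mu_mem {x y z : I → K} (hx : ∀ i, x i ∈ P.hf.Z) (hy : ∀ i, y i ∈ P.hf.Z)
    (hz : ∀ i, z i ∈ P.hf.Z) : P.mu x y z ∈ P.hf.Z := by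
  rw [mu_expand]
  refine sum_mem fun i _ => sum_mem fun j _ => sum_mem fun k _ => ?_
  obtain ⟨n, hn⟩ := P.muZ i j k
  rw [hn]
  exact mul_mem (mul_mem (mul_mem (hx i) (hy j)) (hz k)) (intCast_mem _ n)
theorem mu_std {x y z : I → K} (hx : ∀ i, Std (x i)) (hy : ∀ i, Std (y i)) (hz : ∀ i, Std (z i)) :
    Std (P.mu x y z) := by
  rw [mu_expand]
  refine Std.sum _ fun i _ => Std.sum _ fun j _ => Std.sum _ fun k _ => ?_
  obtain ⟨n, hn⟩ := P.muZ i j k
  rw [hn]
  exact (((hx i).mul (hy j)).mul (hz k)).mul (Std.int n)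
theorem m3_mem (a b c : V) : P.m3 a b c ∈ P.hf.Z := P.mu_mem (P.DZ a) (P.DZ b) (P.DZ c)
theorem det_mem (a b c : V) : det3 (P.v a) (P.v b) (P.v c) ∈ P.hf.Z :=
  det3_mem _ (P.vZ a) (P.vZ b) (P.vZ c)
/-- The Leibniz rule. -/
theorem d_mu (d : Derivation ℚ K K) (x y z : I → K) :
    d (P.mu x y z) = P.mu (dv d x) y z + P.mu x (dv d y) z + P.mu x y (dv d z) := by
  rw [mu_expand, mu_expand _ (dv d x), mu_expand _ x (dv d y), mu_expand _ x y (dv d z)]
  simp only [map_sum, ← Finset.sum_add_distrib]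
  refine Finset.sum_congr rfl fun i _ => Finset.sum_congr rfl fun j _ =>
    Finset.sum_congr rfl fun k _ => ?_
  obtain ⟨n, hn⟩ := P.muZ i j k
  rw [hn]
  simp [dv]
  ring
theorem d_p (d : Derivation ℚ K K) (x : I → K) : d (P.p x) = P.p (dv d x) :=
  d_form d P.p (fun i => by obtain ⟨n, hn⟩ := P.pZ i; rw [hn]; exact Std.int n) x
/-- If a product of two classes vanishes, so does its derivative. -/
theorem d_mu_zero (d : Derivation ℚ K K) {x y : I → K} (h : P.mu x y = 0) (z : I → K) :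
    P.mu (dv d x) y z + P.mu x (dv d y) z = 0 := by
  have := P.d_mu d x y z
  rw [h] at this
  simpa using this.symm
theorem dv_cl (d : Derivation ℚ K K) (x : V → K) :
    dv d (P.cl x) = ∑ a, x a • P.ep d a + P.cl (fun a => d (x a)) := by
  simp only [cl, dv_sum, dv_smul, ep, Finset.sum_add_distrib]
theorem dv_cl_std (d : Derivation ℚ K K) {x : V → K} (hx : ∀ a, Std (x a)) :
    dv d (P.cl x) = ∑ a, x a • P.ep d a := by
  simp only [cl, dv_sum, ep]
  exact Finset.sum_congr rfl fun a _ => dv_smul_std d (hx a) _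
theorem mem_sp {A : Set V} {x : I → K} :
    x ∈ P.sp A ↔ ∃ c : V → K, (∀ a, a ∉ A → c a = 0) ∧ x = P.cl c := by
  constructor
  · intro h
    induction h using Submodule.span_induction with
    | mem x hx =>
      obtain ⟨a, ha, rfl⟩ := hx
      exact ⟨Pi.single a 1, fun b hb => Pi.single_eq_of_ne (by rintro rfl; exact hb ha) _,
        (P.cl_single a).symm⟩
    | zero => exact ⟨0, fun _ _ => rfl, by simp⟩
    | add x y _ _ hx hy =>
      obtain ⟨c, hc, rfl⟩ := hx; obtain ⟨c', hc', rfl⟩ := hy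
      exact ⟨c + c', fun a ha => by simp [hc a ha, hc' a ha], (P.cl_add _ _).symm⟩
    | smul r x _ hx =>
      obtain ⟨c, hc, rfl⟩ := hx
      exact ⟨r • c, fun a ha => by simp [hc a ha], (P.cl_smul _ _).symm⟩
  · rintro ⟨c, hc, rfl⟩
    refine sum_mem fun a _ => ?_
    by_cases ha : a ∈ A
    · exact Submodule.smul_mem _ _ (Submodule.subset_span ⟨a, ha, rfl⟩)
    · simp [hc a ha]

end HP

end Pool.Agent.P.MP_33ab4b_ag.T
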