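import Pool.Agent.P.MP_33ab4b_ag.T.IfaceT
import Pool.Agent.P.MP_33ab4b_ag.T.Basic

/-! Crossing edges in a sector. -/

set_option autoImplicit false

namespace Pool.Agent.P.MP_33ab4b_ag.T

open scoped Classical

variable {K V I : Type} [Field K] [LinearOrder K] [IsStrictOrderedRing K] [Fintype V]
  [DecidableEq V] [Fintype I] [DecidableEq I]

theorem cr_rep2 (Φ : Fan K V) {a b : V} (h : Φ.adj a b) {r s : K} (hr : 0 ≤ r) (hs : 0 ≤ s) :
    Φ.IsRep (r • Φ.v a + s • Φ.v b) (Pi.single a r + Pi.single b s) := by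
  obtain ⟨_, F, hF, ha, hb⟩ := h
  refine ⟨fun c => ?_, ⟨F, hF, fun c hc => ?_⟩, ?_⟩
  · simp only [Pi.add_apply, Pi.single_apply]
    split_ifs <;> linarith
  · have h1 : c ≠ a := by rintro rfl; exact hc ha
    have h2 : c ≠ b := by rintro rfl; exact hc hb
    simp [h1, h2]
  · simp [add_smul, Finset.sum_add_distrib, Pi.single_apply, ite_smul]

theorem cr_cross (hU : S_UNIQ) (Φ : Fan K V) {a b c e : V} (h : Φ.adj a b) (h' : Φ.adj c e)
    {r s r' s' : K} (hr : 0 ≤ r) (hs : 0 < s) (hr' : 0 ≤ r') (hs' : 0 ≤ s')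
    (he : r • Φ.v a + s • Φ.v b = r' • Φ.v c + s' • Φ.v e) : b = c ∨ b = e := by
  have h1 := cr_rep2 Φ h hr hs.le
  have h2 := cr_rep2 Φ h' hr' hs'
  rw [← he] at h2
  have h3 := congrFun ((hU K V Φ).1 _ _ _ h1 h2) b
  by_contra hn
  push Not at hn
  have hab : b ≠ a := h.1.symm
  simp [hab, hn.1, hn.2] at h3
  exact hs.ne' h3

theorem cr_exists_adj (Φ : Fan K V) (a : V) : ∃ b, Φ.adj b a := by
  obtain ⟨s, hs, ha⟩ := Φ.used a
  obtain ⟨b, c, _, h⟩ := Fan.exists_face_of_mem hs ha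
  exact ⟨b, h.adj12.symm⟩

namespace TA0

variable {Φ : HFan K V} (T : TA0 Φ)

theorem cr_nx_ne {j : V} (hj : j ∈ T.J) : T.nx j ≠ j := by
  intro h
  have := T.cyc.pos j hj
  rw [h] at this
  simp at this

theorem cr_nb {j j' : V} (hj : j ∈ T.J) (h : j' = T.nx j ∨ j' = T.pv j) : j' ∈ T.J ∧ j' ≠ j := by
  obtain ⟨h1, h2, _, h4⟩ := T.cyc.mem j hj
  rcases h with rfl | rfl
  · exact ⟨h1, T.cr_nx_ne hj⟩
  · refine ⟨h2, fun e => T.cr_nx_ne h2 ?_⟩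
    rw [h4, e]

theorem cr_coord {j j' a : V} (hj : j ∈ T.J) (hj' : j' ∈ T.J) (hne : j' ≠ j)
    (ha : ∀ i, i ≠ j → i ≠ j' → T.be i a = 0) :
    Φ.v a = (T.be j a : K) • Φ.v j + (T.be j' a : K) • Φ.v j' + (T.et a : K) • Φ.v T.N := by
  rw [T.coord a, Finset.sum_eq_add_of_mem j j' hj hj' hne.symm]
  intro c _ hc
  simp [ha c hc.1 hc.2]

/-- Two adjacent vertices lie in one closed sector. -/
theorem cr_sec {a b : V} (h : Φ.adj a b) : ∃ j ∈ T.J,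
    (∀ i, i ≠ j → i ≠ T.nx j → T.be i a = 0) ∧ ∀ i, i ≠ j → i ≠ T.nx j → T.be i b = 0 := by
  obtain ⟨_, s, hs, ha, hb⟩ := h
  obtain ⟨j, hj, h⟩ := T.fsec s hs
  exact ⟨j, hj, h a ha, h b hb⟩

theorem cr_pair {a b j j' : V} (h : Φ.adj a b) (hne : j' ≠ j)
    (h1 : 0 < T.be j a ∨ 0 < T.be j b) (h2 : 0 < T.be j' a ∨ 0 < T.be j' b) :
    (j' = T.nx j ∨ j' = T.pv j) ∧ (∀ i, i ≠ j → i ≠ j' → T.be i a = 0) ∧
      ∀ i, i ≠ j → i ≠ j' → T.be i b = 0 := by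
  obtain ⟨j0, hj0, ha, hb⟩ := T.cr_sec h
  have key : ∀ i, (0 < T.be i a ∨ 0 < T.be i b) → i = j0 ∨ i = T.nx j0 := by
    intro i hi
    by_contra hn
    push Not at hn
    rcases hi with hi | hi
    · exact hi.ne' (ha i hn.1 hn.2)
    · exact hi.ne' (hb i hn.1 hn.2)
  rcases key j h1 with e | e <;> rcases key j' h2 with e' | e'
  · exact absurd (e'.trans e.symm) hne
  · subst e; subst e'
    exact ⟨Or.inl rfl, ha, hb⟩
  · subst e'
    refine ⟨Or.inr ?_, fun i x y => ha i y (e ▸ x), fun i x y => hb i y (e ▸ x)⟩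
    rw [e, (T.cyc.mem _ hj0).2.2.1]
  · exact absurd (e'.trans e.symm) hne

theorem cr_crossQ (hU : S_UNIQ) {j j' a b c e : V} (hj : j ∈ T.J) (hj' : j' ∈ T.J) (hne : j' ≠ j)
    (ha : ∀ i, i ≠ j → i ≠ j' → T.be i a = 0) (hb : ∀ i, i ≠ j → i ≠ j' → T.be i b = 0)
    (hc : ∀ i, i ≠ j → i ≠ j' → T.be i c = 0) (he : ∀ i, i ≠ j → i ≠ j' → T.be i e = 0)
    (h : Φ.adj a b) (h' : Φ.adj c e) {r s r' s' : ℚ} (hr : 0 ≤ r) (hs : 0 < s) (hr' : 0 ≤ r')
    (hs' : 0 ≤ s') (e1 : r * T.be j a + s * T.be j b = r' * T.be j c + s' * T.be j e)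
    (e2 : r * T.be j' a + s * T.be j' b = r' * T.be j' c + s' * T.be j' e)
    (e3 : r * T.et a + s * T.et b = r' * T.et c + s' * T.et e) : b = c ∨ b = e := by
  refine cr_cross hU Φ.toFan h h' (r := (r : K)) (s := (s : K)) (r' := (r' : K)) (s' := (s' : K))
    (by exact_mod_cast hr) (by exact_mod_cast hs) (by exact_mod_cast hr') (by exact_mod_cast hs') ?_
  have f1 := congrArg (Rat.cast : ℚ → K) e1
  have f2 := congrArg (Rat.cast : ℚ → K) e2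
  have f3 := congrArg (Rat.cast : ℚ → K) e3
  push_cast at f1 f2 f3
  rw [T.cr_coord hj hj' hne ha, T.cr_coord hj hj' hne hb, T.cr_coord hj hj' hne hc,
    T.cr_coord hj hj' hne he]
  funext i
  simp only [Pi.add_apply, Pi.smul_apply, smul_eq_mul]
  linear_combination (Φ.v j i) * f1 + (Φ.v j' i) * f2 + (Φ.v T.N i) * f3

end TA0

end Pool.Agent.P.MP_33ab4b_ag.T
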