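import Pool.Agent.P.MP_33ab4b_ag.T.Basic

/-! Lemmas on cyclic families of rays. -/

set_option autoImplicit false
set_option linter.unusedSectionVars false

namespace Pool.Agent.P.MP_33ab4b_ag.T

variable {K : Type} [Field K] [LinearOrder K] [IsStrictOrderedRing K]

theorem det3_neg2 (e x y : V3 K) : det3 e (-x) y = det3 e y x := by
  simp only [det3, Pi.neg_apply]; ring

theorem det3_comb2 (e x y : V3 K) (s t : K) : det3 e (s • x + t • e) y = s * det3 e x y := by
  simp only [det3, Pi.add_apply, Pi.smul_apply, smul_eq_mul]; ring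

theorem det3_comb3 (e x y : V3 K) (s t : K) : det3 e y (s • x + t • e) = s * det3 e y x := by
  simp only [det3, Pi.add_apply, Pi.smul_apply, smul_eq_mul]; ring

theorem det3_opp2 (e x y : V3 K) (t : K) : det3 e (-x + t • e) y = - det3 e x y := by
  simp only [det3, Pi.add_apply, Pi.smul_apply, Pi.neg_apply, smul_eq_mul]; ring

theorem det3_opp3 (e x y : V3 K) (t : K) : det3 e y (-x + t • e) = - det3 e y x := by
  simp only [det3, Pi.add_apply, Pi.smul_apply, Pi.neg_apply, smul_eq_mul]; ring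

/-- a vector with vanishing cross product with `e ≠ 0` is a multiple of `e`. -/
theorem par_of_detL {e x : V3 K} (he : e ≠ 0) (h : detL e x = 0) : ∃ t : K, x = t • e := by
  have h0 : ∀ y, det3 e x y = 0 := fun y => by
    have := LinearMap.congr_fun h y
    simpa using this
  have h1 := h0 (Pi.single 0 1)
  have h2 := h0 (Pi.single 1 1)
  have h3 := h0 (Pi.single 2 1)
  simp [det3] at h1 h2 h3
  obtain ⟨i, hi⟩ := Function.ne_iff.1 he
  refine ⟨x i / e i, ?_⟩
  have hi' : e i ≠ 0 := hi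
  funext j
  simp only [Pi.smul_apply, smul_eq_mul]
  field_simp
  fin_cases i <;> fin_cases j <;> simp at hi' ⊢ <;> linarith

theorem detL_ne_zero {e x : V3 K} (he : e ≠ 0) (h : ∀ t : K, x ≠ t • e) : detL e x ≠ 0 :=
  fun h0 => by obtain ⟨t, ht⟩ := par_of_detL he h0; exact h t ht

theorem not_par_of_det {e x y : V3 K} (h : det3 e x y ≠ 0) (t : K) : x ≠ t • e := by
  rintro rfl
  apply h
  simp only [det3, Pi.smul_apply, smul_eq_mul]; ring

theorem not_par_of_det' {e x y : V3 K} (h : det3 e y x ≠ 0) (t : K) : x ≠ t • e :=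
  not_par_of_det (y := y) (by rw [det3_swap23]; exact neg_ne_zero.2 h) t

theorem not_par_of_detL {e x : V3 K} (h : detL e x ≠ 0) (t : K) : x ≠ t • e := by
  obtain ⟨y, hy⟩ : ∃ y, det3 e x y ≠ 0 := by
    by_contra hc
    push Not at hc
    exact h (LinearMap.ext hc)
  exact not_par_of_det hy t

/-- vectors with vanishing determinant are parallel modulo `e`. -/
theorem par_mod {e x y : V3 K} (hx : detL e x ≠ 0) (h : det3 e x y = 0) :
    ∃ s t : K, y = s • x + t • e := by
  obtain ⟨z, hz⟩ : ∃ z, det3 e x z ≠ 0 := by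
    by_contra hc
    push Not at hc
    exact hx (LinearMap.ext hc)
  have hc := cramer e x z y
  rw [h, zero_smul, add_zero] at hc
  refine ⟨(det3 e x z)⁻¹ * det3 e y z, (det3 e x z)⁻¹ * det3 y x z, ?_⟩
  rw [← smul_smul, ← smul_smul, ← smul_add, add_comm, ← hc, smul_smul, inv_mul_cancel₀ hz,
    one_smul]

theorem det3_lin2 (e x y z : V3 K) (s t : K) :
    det3 e (s • x + t • y) z = s * det3 e x z + t * det3 e y z := by
  simp only [det3, Pi.add_apply, Pi.smul_apply, smul_eq_mul]; ring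

theorem det3_lin3 (e x y z : V3 K) (s t : K) :
    det3 e z (s • x + t • y) = s * det3 e z x + t * det3 e z y := by
  simp only [det3, Pi.add_apply, Pi.smul_apply, smul_eq_mul]; ring

/-- every form that kills `e ≠ 0` is a determinant. -/
theorem form_eq_detL {e : V3 K} (he : e ≠ 0) (u : Fm K) (hu : u e = 0) :
    ∃ x : V3 K, u = detL e x := by
  obtain ⟨a, b, hab⟩ : ∃ a b : V3 K, det3 e a b ≠ 0 := by
    by_contra hc
    push Not at hc
    have h1 := hc (Pi.single 1 1) (Pi.single 2 1)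
    have h2 := hc (Pi.single 2 1) (Pi.single 0 1)
    have h3 := hc (Pi.single 0 1) (Pi.single 1 1)
    simp [det3] at h1 h2 h3
    apply he
    funext i
    fin_cases i <;> simp [h1, h2, h3]
  refine ⟨(u b / det3 e a b) • a + (-(u a / det3 e a b)) • b, form_ext hab ?_ ?_ ?_⟩
  · simp [hu]
  · rw [detL_apply, det3_lin2, det3_swap23 e a b, det3_self23]; field_simp; ring
  · rw [detL_apply, det3_lin2, det3_self23]; field_simp; ring

section ext

variable {V : Type} (e : V3 K) (v : V → V3 K)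

/-- the first ray to the left of `x`. -/
theorem cyc_min (x : V3 K) (S : Finset V) (h : ∃ c ∈ S, 0 < det3 e x (v c)) :
    ∃ b ∈ S, 0 < det3 e x (v b) ∧ ∀ b' ∈ S, 0 < det3 e x (v b') → 0 ≤ det3 e (v b) (v b') := by
  classical
  obtain ⟨c, hc, hc0⟩ := h
  obtain ⟨b, hb, hmin⟩ := (S.filter fun b => 0 < det3 e x (v b)).exists_min_image
    (fun b => det3 e (v c) (v b) / det3 e x (v b)) ⟨c, Finset.mem_filter.2 ⟨hc, hc0⟩⟩
  obtain ⟨hb, hb0⟩ := Finset.mem_filter.1 hb
  refine ⟨b, hb, hb0, fun b' hb' h' => ?_⟩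
  have h1 := hmin b' (Finset.mem_filter.2 ⟨hb', h'⟩)
  rw [div_le_div_iff₀ hb0 h'] at h1
  have h2 := plucker e x (v c) (v b) (v b')
  have h3 : 0 ≤ det3 e x (v c) * det3 e (v b) (v b') := by linarith
  by_contra hn
  push Not at hn
  have := mul_neg_of_pos_of_neg hc0 hn
  linarith

/-- the last ray to the left of `x`. -/
theorem cyc_max (x : V3 K) (S : Finset V) (h : ∃ c ∈ S, 0 < det3 e x (v c)) :
    ∃ b ∈ S, 0 < det3 e x (v b) ∧ ∀ b' ∈ S, 0 < det3 e x (v b') → 0 ≤ det3 e (v b') (v b) := by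
  classical
  obtain ⟨c, hc, hc0⟩ := h
  obtain ⟨b, hb, hmax⟩ := (S.filter fun b => 0 < det3 e x (v b)).exists_max_image
    (fun b => det3 e (v c) (v b) / det3 e x (v b)) ⟨c, Finset.mem_filter.2 ⟨hc, hc0⟩⟩
  obtain ⟨hb, hb0⟩ := Finset.mem_filter.1 hb
  refine ⟨b, hb, hb0, fun b' hb' h' => ?_⟩
  have h1 := hmax b' (Finset.mem_filter.2 ⟨hb', h'⟩)
  rw [div_le_div_iff₀ h' hb0] at h1
  have h2 := plucker e x (v c) (v b') (v b)
  have h3 : 0 ≤ det3 e x (v c) * det3 e (v b') (v b) := by linarith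
  by_contra hn
  push Not at hn
  have := mul_neg_of_pos_of_neg hc0 hn
  linarith

/-- the half open sectors of a nonempty family closed under a left turn cover everything. -/
theorem cyc_cover (S : Finset V) (nx : V → V) (hne : S.Nonempty) (hm : ∀ a ∈ S, nx a ∈ S)
    (hp : ∀ a ∈ S, 0 < det3 e (v a) (v (nx a))) (x : V3 K) (hx : detL e x ≠ 0) :
    ∃ a ∈ S, 0 ≤ det3 e (v a) x ∧ 0 < det3 e x (v (nx a)) := by
  by_cases h : ∃ c ∈ S, 0 < det3 e (v c) x
  · obtain ⟨s, hs, hs0, hmax⟩ := cyc_max e v (-x) S (by simpa only [det3_neg2] using h)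
    simp only [det3_neg2] at hs0 hmax
    have ht := hm s hs
    have hst := hp s hs
    have h1 : 0 ≤ det3 e x (v (nx s)) := by
      by_contra hn
      push Not at hn
      have := hmax _ ht (by rw [det3_swap23]; linarith)
      rw [det3_swap23] at this
      linarith
    rcases h1.lt_or_eq with h2 | h2
    · exact ⟨s, hs, hs0.le, h2⟩
    · refine ⟨nx s, ht, by rw [det3_swap23, ← h2, neg_zero], ?_⟩
      have h3 := plucker e (v s) x (v (nx s)) (v (nx (nx s)))
      rw [← h2, mul_zero, sub_zero] at h3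
      have h4 := mul_pos hs0 (hp _ ht)
      rw [h3] at h4
      exact (pos_iff_pos_of_mul_pos h4).1 hst
  · exfalso
    push Not at h
    have h' : ∃ c ∈ S, 0 < det3 e x (v c) := by
      by_contra hc
      push Not at hc
      have h0 : ∀ c ∈ S, det3 e x (v c) = 0 := fun c hc' =>
        le_antisymm (hc c hc') (by have := h c hc'; rw [det3_swap23] at this; linarith)
      obtain ⟨s, hs⟩ := hne
      apply hx
      refine LinearMap.ext fun y => ?_
      have h3 := plucker e x y (v s) (v (nx s))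
      rw [h0 s hs, h0 _ (hm s hs), zero_mul, zero_mul, sub_zero] at h3
      exact (mul_eq_zero.1 h3).resolve_right (hp s hs).ne'
    obtain ⟨s, hs, hs0, hmax⟩ := cyc_max e v x S h'
    have ht := hm s hs
    have hst := hp s hs
    have h1 : det3 e x (v (nx s)) = 0 := by
      refine le_antisymm ?_ (by have := h _ ht; rw [det3_swap23] at this; linarith)
      by_contra hn
      push Not at hn
      have := hmax _ ht hn
      rw [det3_swap23] at this
      linarith
    have h3 := plucker e (v s) x (v (nx s)) (v (nx (nx s)))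
    rw [h1, mul_zero, sub_zero] at h3
    have h4 : det3 e (v s) x * det3 e (v (nx s)) (v (nx (nx s))) < 0 :=
      mul_neg_of_neg_of_pos (by rw [det3_swap23]; linarith) (hp _ ht)
    have h5 := h _ (hm _ ht)
    rw [det3_swap23] at h5
    have h6 := mul_nonneg hst.le (show 0 ≤ det3 e x (v (nx (nx s))) by linarith)
    linarith

end ext

namespace Cyc

variable {V : Type} {e : V3 K} {v : V → V3 K} {A : Finset V} {nx pv : V → V}
  (C : Cyc e v A nx pv)
include C

theorem nx_mem {a : V} (ha : a ∈ A) : nx a ∈ A := (C.mem a ha).1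
theorem pv_mem {a : V} (ha : a ∈ A) : pv a ∈ A := (C.mem a ha).2.1
theorem pv_nx {a : V} (ha : a ∈ A) : pv (nx a) = a := (C.mem a ha).2.2.1
theorem nx_pv {a : V} (ha : a ∈ A) : nx (pv a) = a := (C.mem a ha).2.2.2
theorem nx_inj {a b : V} (ha : a ∈ A) (hb : b ∈ A) (h : nx a = nx b) : a = b := by
  rw [← C.pv_nx ha, h, C.pv_nx hb]
theorem pv_inj {a b : V} (ha : a ∈ A) (hb : b ∈ A) (h : pv a = pv b) : a = b := by
  rw [← C.nx_pv ha, h, C.nx_pv hb]
theorem pos_pv {a : V} (ha : a ∈ A) : 0 < det3 e (v (pv a)) (v a) := by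
  have := C.pos _ (C.pv_mem ha)
  rwa [C.nx_pv ha] at this
theorem nob_pv {a b : V} (ha : a ∈ A) (hb : b ∈ A) :
    ¬ (0 < det3 e (v (pv a)) (v b) ∧ 0 < det3 e (v b) (v a)) := by
  have := C.nob _ (C.pv_mem ha) b hb
  rwa [C.nx_pv ha] at this
theorem nx_ne {a : V} (ha : a ∈ A) : nx a ≠ a := fun h => by
  have := C.pos a ha
  rw [h] at this
  simp at this
theorem pv_ne {a : V} (ha : a ∈ A) : pv a ≠ a := fun h => by
  have := C.pos_pv ha
  rw [h] at this
  simp at this
theorem nx_ne_pv {a : V} (ha : a ∈ A) : nx a ≠ pv a := fun h => by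
  have h1 := C.pos a ha
  have h2 := C.pos_pv ha
  rw [h, det3_swap23] at h1
  linarith
theorem e_ne : e ≠ 0 := by
  obtain ⟨a, ha⟩ := C.ne
  rintro rfl
  have := C.pos a ha
  simp [det3] at this
theorem detL_ne {a : V} (ha : a ∈ A) : detL e (v a) ≠ 0 := fun h => by
  have h1 := LinearMap.congr_fun h (v (nx a))
  have h2 := C.pos a ha
  simp at h1
  linarith
theorem three_le : 3 ≤ A.card := by
  classical
  obtain ⟨a, ha⟩ := C.ne
  have h : ({a, nx a, pv a} : Finset V) ⊆ A := by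
    intro b hb
    simp only [Finset.mem_insert, Finset.mem_singleton] at hb
    rcases hb with rfl | rfl | rfl
    exacts [ha, C.nx_mem ha, C.pv_mem ha]
  have h2 := Finset.card_le_card h
  rwa [Finset.card_eq_three.2 ⟨a, nx a, pv a, (C.nx_ne ha).symm, (C.pv_ne ha).symm,
    C.nx_ne_pv ha, rfl⟩] at h2

/-- positively parallel members coincide. -/
theorem eq_of_par {a b : V} (ha : a ∈ A) (hb : b ∈ A) (h : det3 e (v a) (v b) = 0) {y : V3 K}
    (h1 : 0 < det3 e (v a) y) (h2 : 0 < det3 e (v b) y) : a = b := by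
  by_contra hab
  obtain ⟨s, t, hs, hv⟩ := C.npar a ha b hb hab h
  rw [hv, det3_comb2] at h2
  nlinarith [mul_pos hs h1]

theorem eq_of_par' {a b : V} (ha : a ∈ A) (hb : b ∈ A) (h : det3 e (v a) (v b) = 0) {y : V3 K}
    (h1 : 0 < det3 e y (v a)) (h2 : 0 < det3 e y (v b)) : a = b := by
  by_contra hab
  obtain ⟨s, t, hs, hv⟩ := C.npar a ha b hb hab h
  rw [hv, det3_comb3] at h2
  nlinarith [mul_pos hs h1]

/-- a member has at most one opposite. -/
theorem opp_unique {a b c : V} (ha : a ∈ A) (hb : b ∈ A) (hc : c ∈ A) (hab : a ≠ b) (hac : a ≠ c)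
    (h1 : det3 e (v a) (v b) = 0) (h2 : det3 e (v a) (v c) = 0) : b = c := by
  obtain ⟨s, t, hs, hv⟩ := C.npar a ha b hb hab h1
  obtain ⟨s', t', hs', hv'⟩ := C.npar a ha c hc hac h2
  refine C.eq_of_par' hb hc ?_ (y := v (nx a)) ?_ ?_
  · rw [hv, det3_comb2, h2, mul_zero]
  · rw [hv, det3_comb3, det3_swap23]; nlinarith [mul_pos hs (C.pos a ha)]
  · rw [hv', det3_comb3, det3_swap23]; nlinarith [mul_pos hs' (C.pos a ha)]

/-- a member in the closed sector of `a` is one of its two ends. -/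
theorem mem_sector {a b : V} (ha : a ∈ A) (hb : b ∈ A) (h1 : 0 ≤ det3 e (v a) (v b))
    (h2 : 0 ≤ det3 e (v b) (v (nx a))) : b = a ∨ b = nx a := by
  rcases h1.lt_or_eq with h1 | h1
  · rcases h2.lt_or_eq with h2 | h2
    · exact absurd ⟨h1, h2⟩ (C.nob a ha b hb)
    · exact Or.inr (C.eq_of_par' hb (C.nx_mem ha) h2.symm h1 (C.pos a ha))
  · rcases h2.lt_or_eq with h2 | h2
    · exact Or.inl (C.eq_of_par ha hb h1.symm (C.pos a ha) h2).symm
    · exfalso
      have h3 := plucker e (v b) (v (nx b)) (v a) (v (nx a))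
      rw [← h2, det3_swap23 e (v a) (v b), ← h1] at h3
      have := mul_pos (C.pos b hb) (C.pos a ha)
      simp only [neg_zero, zero_mul, sub_zero] at h3
      linarith

/-- the half open sector of a vector is unique. -/
theorem sector_unique {a b : V} (ha : a ∈ A) (hb : b ∈ A) {x : V3 K} (h1 : 0 ≤ det3 e (v a) x)
    (h2 : 0 < det3 e x (v (nx a))) (h3 : 0 ≤ det3 e (v b) x) (h4 : 0 < det3 e x (v (nx b))) :
    a = b := by
  have key : ∀ {a b : V}, a ∈ A → b ∈ A → 0 ≤ det3 e (v a) x → 0 < det3 e x (v (nx a)) →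
      0 ≤ det3 e (v b) x → ¬ 0 < det3 e (v a) (v b) := by
    intro a b ha hb h1 h2 h3 h
    have h5 : det3 e (v b) (v (nx a)) ≤ 0 := not_lt.1 fun h' => C.nob a ha b hb ⟨h, h'⟩
    have h6 := plucker e (v a) (v b) x (v (nx a))
    have h7 := mul_pos h h2
    have h8 := mul_nonneg (C.pos a ha).le h3
    have h9 := mul_nonpos_of_nonneg_of_nonpos h1 h5
    linarith
  have h5 := key ha hb h1 h2 h3
  have h6 := key hb ha h3 h4 h1
  rw [det3_swap23] at h6
  have h0 : det3 e (v a) (v b) = 0 := by linarith [not_lt.1 h5, not_lt.1 h6]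
  by_contra hab
  obtain ⟨s, t, hs, hv⟩ := C.npar a ha b hb hab h0
  have h7 : det3 e (v a) x = 0 := by
    rw [hv, det3_comb2] at h3
    exact le_antisymm (by nlinarith) h1
  have h8 := plucker e x (v (nx a)) (v a) (v (nx b))
  rw [det3_swap23 e (v a) x, h7, det3_swap23 e (v a) (v (nx a))] at h8
  have h9 := C.pos b hb
  rw [hv, det3_comb2] at h9
  have h10 : det3 e (v a) (v (nx b)) < 0 := by nlinarith
  have h11 := mul_neg_of_pos_of_neg h2 h10
  have h12 := mul_pos h4 (C.pos a ha)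
  linarith

/-- the other half open sectors also cover. -/
theorem cov' (x : V3 K) (hx : ∀ t : K, x ≠ t • e) :
    ∃ a ∈ A, 0 < det3 e (v a) x ∧ 0 ≤ det3 e x (v (nx a)) := by
  obtain ⟨a, ha, h1, h2⟩ := C.cov x hx
  rcases h1.lt_or_eq with h1 | h1
  · exact ⟨a, ha, h1, h2.le⟩
  · refine ⟨pv a, C.pv_mem ha, ?_, by rw [C.nx_pv ha, det3_swap23, ← h1, neg_zero]⟩
    have h3 := plucker e (v (pv a)) x (v a) (v (nx a))
    rw [det3_swap23 e (v a) x, ← h1, neg_zero, mul_zero, sub_zero] at h3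
    have h4 := mul_pos (C.pos_pv ha) h2
    rw [← h3] at h4
    exact (pos_iff_pos_of_mul_pos h4).2 (C.pos a ha)

/-- every nonzero form that kills `e` is positive on a member. -/
theorem complete (u : Fm K) (hu : u ≠ 0) (he : u e = 0) : ∃ a ∈ A, 0 < u (v a) := by
  obtain ⟨x, rfl⟩ := form_eq_detL C.e_ne u he
  obtain ⟨a, ha, -, h2⟩ := C.cov x (not_par_of_detL hu)
  exact ⟨nx a, C.nx_mem ha, h2⟩

theorem exists_iter {a b : V} (ha : a ∈ A) (hb : b ∈ A) : ∃ k : ℕ, nx^[k] a = b :=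
  C.orb (fun b => ∃ k : ℕ, nx^[k] a = b) a ha ⟨0, rfl⟩
    (fun _ _ ⟨k, hk⟩ => ⟨k + 1, by rw [Function.iterate_succ_apply', hk]⟩) b hb

theorem iter_mem {a : V} (ha : a ∈ A) (k : ℕ) : nx^[k] a ∈ A := by
  induction k with
  | zero => exact ha
  | succ k ih => rw [Function.iterate_succ_apply']; exact C.nx_mem ih

/-- induction along the arc from `a` to `b`. -/
theorem arc (Q : V → Prop) {a b : V} (ha : a ∈ A) (hb : b ∈ A) (h0 : Q a)
    (hs : ∀ c ∈ A, c ≠ b → Q c → Q (nx c)) : Q b := by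
  classical
  have hex := C.exists_iter ha hb
  have key : ∀ k, k ≤ Nat.find hex → Q (nx^[k] a) := by
    intro k
    induction k with
    | zero => intro _; exact h0
    | succ k ih =>
      intro hk
      rw [Function.iterate_succ_apply']
      exact hs _ (C.iter_mem ha k) (Nat.find_min hex (by omega)) (ih (by omega))
  have := key _ le_rfl
  rwa [Nat.find_spec hex] at this

/-- the reversed cyclic family. -/
theorem rev : Cyc (-e) v A pv nx := by
  have hd : ∀ x y, det3 (-e) x y = det3 e y x := fun x y => by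
    simp only [det3, Pi.neg_apply]; ring
  refine ⟨fun a ha => ⟨C.pv_mem ha, C.nx_mem ha, C.nx_pv ha, C.pv_nx ha⟩, C.ne, ?_, ?_, ?_, ?_, ?_⟩
  · intro Q a ha h0 hs b hb
    by_contra hn
    refine C.arc (fun c => ¬ Q c) hb ha hn (fun c hc _ h1 h2 => h1 ?_) h0
    have := hs _ (C.nx_mem hc) h2
    rwa [C.pv_nx hc] at this
  · intro a ha; rw [hd]; exact C.pos_pv ha
  · intro a ha b hb h
    rw [hd, hd] at h
    exact C.nob_pv ha hb h.symm
  · intro x hx
    obtain ⟨a, ha, h1, h2⟩ := C.cov' x fun t ht => hx (-t) (by rw [ht]; simp)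
    exact ⟨nx a, C.nx_mem ha, by rw [hd]; exact h2, by rw [hd, C.pv_nx ha]; exact h1⟩
  · intro a ha b hb hab h
    rw [hd, det3_swap23, neg_eq_zero] at h
    obtain ⟨s, t, hs, hv⟩ := C.npar a ha b hb hab h
    exact ⟨s, -t, hs, by rw [hv]; simp⟩

theorem orb_pv (Q : V → Prop) {a : V} (ha : a ∈ A) (h0 : Q a) (hs : ∀ b ∈ A, Q b → Q (pv b)) :
    ∀ b ∈ A, Q b := C.rev.orb Q a ha h0 hs

theorem sum_nx {M : Type} [AddCommMonoid M] (f : V → M) : ∑ a ∈ A, f (nx a) = ∑ a ∈ A, f a :=
  Finset.sum_nbij' nx pv (fun _ h => C.nx_mem h) (fun _ h => C.pv_mem h) (fun _ h => C.pv_nx h)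
    (fun _ h => C.nx_pv h) fun _ _ => rfl

theorem sum_pv {M : Type} [AddCommMonoid M] (f : V → M) : ∑ a ∈ A, f (pv a) = ∑ a ∈ A, f a :=
  C.rev.sum_nx f

end Cyc

end Pool.Agent.P.MP_33ab4b_ag.T
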