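import Pool.Agent.P.MP_33ab4b_ag.T.IfaceF

/-! Small facts used by the linear program steps. -/

set_option autoImplicit false
set_option linter.unusedSectionVars false

namespace Pool.Agent.P.MP_33ab4b_ag.T

open scoped Classical

section
variable {K : Type} [Field K] [LinearOrder K] [IsStrictOrderedRing K]

theorem lp_det_comb1 (a b c : V3 K) (r s t : K) :
    det3 (r • a + s • b + t • c) b c = r * det3 a b c := by
  simp only [det3, Pi.add_apply, Pi.smul_apply, smul_eq_mul]; ring

theorem lp_det_comb2 (a b c : V3 K) (r s t : K) :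
    det3 a (r • a + s • b + t • c) c = s * det3 a b c := by
  simp only [det3, Pi.add_apply, Pi.smul_apply, smul_eq_mul]; ring

theorem lp_det_comb3 (a b c : V3 K) (r s t : K) :
    det3 a b (r • a + s • b + t • c) = t * det3 a b c := by
  simp only [det3, Pi.add_apply, Pi.smul_apply, smul_eq_mul]; ring

theorem lp_coord {a b c : V3 K} (h : det3 a b c ≠ 0) (x : V3 K) :
    x = (det3 x b c / det3 a b c) • a + (det3 a x c / det3 a b c) • b +
      (det3 a b x / det3 a b c) • c := by
  have e := cramer a b c x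
  funext i
  have ei := congrFun e i
  simp only [Pi.add_apply, Pi.smul_apply, smul_eq_mul] at ei ⊢
  field_simp
  linear_combination ei

theorem lp_finB_comb {p q w a b c : V3 K} {r s t : K} (ha : FinB p q w a) (hb : FinB p q w b)
    (hc : FinB p q w c) (hr : Fi r) (hs : Fi s) (ht : Fi t) :
    FinB p q w (r • a + s • b + t • c) := by
  refine ⟨?_, ?_, ?_⟩
  · refine (((hr.mul ha.1).add (hs.mul hb.1)).add (ht.mul hc.1)).of_eq ?_
    simp only [det3, Pi.add_apply, Pi.smul_apply, smul_eq_mul]; ring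
  · refine (((hr.mul ha.2.1).add (hs.mul hb.2.1)).add (ht.mul hc.2.1)).of_eq ?_
    simp only [det3, Pi.add_apply, Pi.smul_apply, smul_eq_mul]; ring
  · refine (((hr.mul ha.2.2).add (hs.mul hb.2.2)).add (ht.mul hc.2.2)).of_eq ?_
    simp only [det3, Pi.add_apply, Pi.smul_apply, smul_eq_mul]; ring

end

section
variable {K V : Type} [Field K] [LinearOrder K] [IsStrictOrderedRing K] [Fintype V] [DecidableEq V]

theorem lp_sum3 {M : Type} [AddCommMonoid M] {a b c : V} (hab : a ≠ b) (hac : a ≠ c) (hbc : b ≠ c)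
    (f : V → M) (hf : ∀ i, i ∉ ({a, b, c} : Finset V) → f i = 0) :
    ∑ i, f i = f a + f b + f c := by
  rw [← Finset.sum_subset (Finset.subset_univ ({a, b, c} : Finset V)) (fun i _ hi => hf i hi),
    Finset.sum_insert (by simp [hab, hac]), Finset.sum_insert (by simp [hbc]),
    Finset.sum_singleton, add_assoc]

theorem lp_form_sum (Φ : Fan K V) (u : Fm K) (t : V → K) :
    u (∑ i, t i • Φ.v i) = ∑ i, t i * u (Φ.v i) := by
  simp [map_sum]

theorem lp_finF_comb (Φ : Fan K V) {s : Finset V} {a b c : V3 K} {r s' t : K} (ha : Φ.FinF s a)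
    (hb : Φ.FinF s b) (hc : Φ.FinF s c) (hr : Fi r) (hs : Fi s') (ht : Fi t) :
    Φ.FinF s (r • a + s' • b + t • c) := fun p q w e =>
  lp_finB_comb (ha p q w e) (hb p q w e) (hc p q w e) hr hs ht

/-- A point with positive coordinates in the basis of a face lies in its open cone. -/
theorem lp_inOpen (Φ : Fan K V) {a b c : V} (h : Φ.face a b c) {r s t : K} (hr : 0 < r)
    (hs : 0 < s) (ht : 0 < t) :
    Φ.InOpen {a, b, c} (r • Φ.v a + s • Φ.v b + t • Φ.v c) := by
  obtain ⟨hab, hac, hbc⟩ := h.ne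
  refine ⟨fun i => if i = a then r else if i = b then s else if i = c then t else 0, ?_, ?_, ?_⟩
  · intro i hi
    simp only [Finset.mem_insert, Finset.mem_singleton] at hi
    rcases hi with rfl | rfl | rfl
    · simpa using hr
    · simpa [hab.symm] using hs
    · simpa [hac.symm, hbc.symm] using ht
  · intro i hi
    simp only [Finset.mem_insert, Finset.mem_singleton, not_or] at hi
    simp [hi.1, hi.2.1, hi.2.2]
  · rw [lp_sum3 hab hac hbc]
    · simp [hab.symm, hac.symm, hbc.symm]
    · intro i hi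
      simp only [Finset.mem_insert, Finset.mem_singleton, not_or] at hi
      simp [hi.1, hi.2.1, hi.2.2]

theorem lp_of_inOpen (Φ : Fan K V) {a b c : V} (h : Φ.face a b c) {x : V3 K}
    (hx : Φ.InOpen {a, b, c} x) :
    ∃ r s t : K, 0 < r ∧ 0 < s ∧ 0 < t ∧ x = r • Φ.v a + s • Φ.v b + t • Φ.v c := by
  obtain ⟨hab, hac, hbc⟩ := h.ne
  obtain ⟨t, h0, h1, h2⟩ := hx
  refine ⟨t a, t b, t c, h0 a (by simp), h0 b (by simp), h0 c (by simp), ?_⟩
  rw [h2, lp_sum3 hab hac hbc]
  intro i hi
  simp [h1 i hi]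

end

end Pool.Agent.P.MP_33ab4b_ag.T
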