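import Pool.Agent.P.MP_33ab4b_ag.T.Defs

/-! Basic facts on fans: uniqueness of representations, walls, paths. -/

set_option autoImplicit false

namespace Pool.Agent.P.MP_33ab4b_ag.T.Fb

open scoped Classical

section det

variable {K : Type} [Field K]

lemma det_comb (A B C : V3 K) (r s t : K) :
    det3 A B (r • A + s • B + t • C) = t * det3 A B C := by
  simp only [det3, Pi.add_apply, Pi.smul_apply, smul_eq_mul]; ring

lemma det_add (A B x y : V3 K) : det3 A B (x + y) = det3 A B x + det3 A B y := by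
  simp only [det3, Pi.add_apply]; ring

lemma det_smul (A B x : V3 K) (r : K) : det3 A B (r • x) = r * det3 A B x := by
  simp only [det3, Pi.smul_apply, smul_eq_mul]; ring

lemma det_neg (A B x : V3 K) : det3 A B (-x) = - det3 A B x := by
  simp only [det3, Pi.neg_apply]; ring

lemma det_cyc (A B C : V3 K) : det3 A B C = det3 B C A := by
  simp only [det3]; ring

lemma det_swap (A B C : V3 K) : det3 B A C = - det3 A B C := by
  simp only [det3]; ring

lemma det_swap' (A B C : V3 K) : det3 A C B = - det3 A B C := by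
  simp only [det3]; ring

lemma det_self13 (A B : V3 K) : det3 A B A = 0 := by simp only [det3]; ring

lemma det_self23 (A B : V3 K) : det3 A B B = 0 := by simp only [det3]; ring

lemma det_self12 (A B : V3 K) : det3 A A B = 0 := by simp only [det3]; ring

/-- Cramer's rule. -/
lemma cramer (A B C x : V3 K) :
    det3 A B C • x = det3 B C x • A + det3 C A x • B + det3 A B x • C := by
  funext i
  fin_cases i <;> simp [det3] <;> ring

lemma cramer' (A B C x : V3 K) (h : det3 A B C ≠ 0) :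
    x = (det3 B C x / det3 A B C) • A + (det3 C A x / det3 A B C) • B +
      (det3 A B x / det3 A B C) • C := by
  have := cramer A B C x
  have h2 : x = (det3 A B C)⁻¹ • (det3 A B C • x) := by
    rw [smul_smul, inv_mul_cancel₀ h, one_smul]
  rw [this] at h2
  rw [smul_add, smul_add, smul_smul, smul_smul, smul_smul] at h2
  simpa only [div_eq_inv_mul] using h2

end det

section ord

variable {K : Type} [Field K] [LinearOrder K] [IsStrictOrderedRing K]

lemma ev_all {ι : Type} (A : Finset ι) (P : ι → K → Prop)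
    (h : ∀ i ∈ A, ∃ δ0 : K, 0 < δ0 ∧ ∀ δ, 0 < δ → δ < δ0 → P i δ) :
    ∃ δ0 : K, 0 < δ0 ∧ ∀ δ, 0 < δ → δ < δ0 → ∀ i ∈ A, P i δ := by
  induction A using Finset.induction_on with
  | empty => exact ⟨1, one_pos, by simp⟩
  | insert a A _ ih =>
    obtain ⟨d1, h1, H1⟩ := h a (by simp)
    obtain ⟨d2, h2, H2⟩ := ih (fun i hi => h i (by simp [hi]))
    refine ⟨min d1 d2, lt_min h1 h2, fun δ hδ hlt i hi => ?_⟩
    rcases Finset.mem_insert.1 hi with rfl | hi
    · exact H1 δ hδ (hlt.trans_le (min_le_left _ _))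
    · exact H2 δ hδ (hlt.trans_le (min_le_right _ _)) i hi

lemma ev_pos (α β : K) : ∃ δ0 : K, 0 < δ0 ∧ ∀ δ, 0 < δ → δ < δ0 → 0 < α → 0 < α + δ * β := by
  by_cases hα : 0 < α
  · have hb : 0 < |β| + 1 := by positivity
    refine ⟨α / (|β| + 1), div_pos hα hb, fun δ hδ hlt _ => ?_⟩
    rw [lt_div_iff₀ hb] at hlt
    have := neg_abs_le β
    nlinarith [abs_nonneg β]
  · exact ⟨1, one_pos, fun _ _ _ h => absurd h hα⟩

end ord

variable {K V : Type} [Field K] [LinearOrder K] [IsStrictOrderedRing K] [Fintype V] [DecidableEq V]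
  (Φ : Fan K V)

lemma ex3 {s : Finset V} (hs : s ∈ Φ.F) :
    ∃ a b c, a ≠ b ∧ a ≠ c ∧ b ≠ c ∧ s = {a, b, c} :=
  Finset.card_eq_three.1 (Φ.card3 s hs)

lemma face_det_ne {a b c : V} (h : Φ.face a b c) : det3 (Φ.v a) (Φ.v b) (Φ.v c) ≠ 0 := by
  rcases Φ.unimod a b c h with h | h <;> rw [h] <;> norm_num

lemma face_ne {a b c : V} (h : Φ.face a b c) : a ≠ b ∧ a ≠ c ∧ b ≠ c := by
  have := face_det_ne Φ h
  refine ⟨?_, ?_, ?_⟩ <;> rintro rfl
  · exact this (det_self12 _ _)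
  · exact this (det_self13 _ _)
  · exact this (det_self23 _ _)

lemma face_swap {a b c : V} (h : Φ.face a b c) : Φ.face b a c := by
  unfold Fan.face at *; rwa [Finset.insert_comm]

lemma face_swap' {a b c : V} (h : Φ.face a b c) : Φ.face a c b := by
  unfold Fan.face at *; rwa [Finset.pair_comm c b]

lemma face_cyc {a b c : V} (h : Φ.face a b c) : Φ.face b c a :=
  face_swap' Φ (face_swap Φ h)

lemma face_adj {a b c : V} (h : Φ.face a b c) : Φ.adj a b :=
  ⟨(face_ne Φ h).1, _, h, by simp, by simp⟩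

lemma adj_symm {a b : V} (h : Φ.adj a b) : Φ.adj b a := by
  obtain ⟨h1, s, hs, ha, hb⟩ := h
  exact ⟨h1.symm, s, hs, hb, ha⟩

/-- A face containing two distinct vertices. -/
lemma third {s : Finset V} (hs : s ∈ Φ.F) {a b : V} (hab : a ≠ b) (ha : a ∈ s) (hb : b ∈ s) :
    ∃ c, s = {a, b, c} := by
  have h3 := Φ.card3 s hs
  have hsub : ({a, b} : Finset V) ⊆ s := by
    intro x hx; simp at hx; rcases hx with rfl | rfl <;> assumption
  have hc : (s \ {a, b}).card = 1 := by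
    rw [Finset.card_sdiff_of_subset hsub, h3, Finset.card_pair hab]
  obtain ⟨c, hc⟩ := Finset.card_eq_one.1 hc
  refine ⟨c, ?_⟩
  have := Finset.union_sdiff_of_subset hsub
  rw [hc] at this
  rw [← this]; ext x; simp

lemma adj_face {a b : V} (h : Φ.adj a b) : ∃ c, Φ.face a b c := by
  obtain ⟨h1, s, hs, ha, hb⟩ := h
  obtain ⟨c, rfl⟩ := third Φ hs h1 ha hb
  exact ⟨c, hs⟩

lemma vert_face (a : V) : ∃ b c, Φ.face a b c := by
  obtain ⟨s, hs, ha⟩ := Φ.used a
  obtain ⟨x, y, z, hxy, hxz, hyz, rfl⟩ := ex3 Φ hs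
  simp only [Finset.mem_insert, Finset.mem_singleton] at ha
  rcases ha with rfl | rfl | rfl
  · exact ⟨y, z, hs⟩
  · exact ⟨x, z, face_swap Φ hs⟩
  · exact ⟨x, y, face_cyc Φ (face_cyc Φ hs)⟩

lemma v_ne (a : V) : Φ.v a ≠ 0 := by
  obtain ⟨b, c, h⟩ := vert_face Φ a
  intro h0
  apply face_det_ne Φ h
  rw [h0]; simp [det3]

omit [LinearOrder K] [IsStrictOrderedRing K] in
lemma sum3 (v : V → V3 K) {a b c : V} (hab : a ≠ b) (hac : a ≠ c) (hbc : b ≠ c) (t : V → K)
    (ht : ∀ i, i ∉ ({a, b, c} : Finset V) → t i = 0) :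
    ∑ i, t i • v i = t a • v a + t b • v b + t c • v c := by
  rw [← Finset.sum_subset (Finset.subset_univ ({a, b, c} : Finset V))
    (fun i _ hi => by rw [ht i hi, zero_smul])]
  rw [Finset.sum_insert (by simp [hab, hac]), Finset.sum_pair hbc, add_assoc]

/-- The coefficient vector with three given entries. -/
def c3 (a b c : V) (r s t : K) : V → K := Pi.single a r + Pi.single b s + Pi.single c t

omit [LinearOrder K] [IsStrictOrderedRing K] in
lemma c3_sum (v : V → V3 K) (a b c : V) (r s t : K) :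
    ∑ i, c3 a b c r s t i • v i = r • v a + s • v b + t • v c := by
  simp [c3, add_smul, Finset.sum_add_distrib, Pi.single_apply, ite_smul]

omit [LinearOrder K] [IsStrictOrderedRing K] [Fintype V] in
lemma c3_apply (a b c : V) (r s t : K) (i : V) : c3 a b c r s t i =
    (if i = a then r else 0) + (if i = b then s else 0) + (if i = c then t else 0) := by
  simp [c3, Pi.single_apply]

lemma c3_rep {σ : Finset V} (hσ : σ ∈ Φ.F) {a b c : V} (ha : a ∈ σ) (hb : b ∈ σ) (hc : c ∈ σ)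
    {r s t : K} (hr : 0 ≤ r) (hs : 0 ≤ s) (ht : 0 ≤ t) :
    Φ.IsRep (r • Φ.v a + s • Φ.v b + t • Φ.v c) (c3 a b c r s t) := by
  refine ⟨fun i => ?_, ⟨σ, hσ, fun i hi => ?_⟩, (c3_sum _ _ _ _ _ _ _).symm⟩
  · rw [c3_apply]; split_ifs <;> positivity
  · rw [c3_apply, if_neg, if_neg, if_neg] <;> first | simp | (rintro rfl; contradiction)

lemma ex_rep (x : V3 K) : ∃ t, Φ.IsRep x t := by
  obtain ⟨s, hs, t, h1, h2, h3⟩ := Φ.cover x
  exact ⟨t, h1, ⟨s, hs, h2⟩, h3⟩

omit [LinearOrder K] [IsStrictOrderedRing K] [DecidableEq V] in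
lemma form_sum (v : V → V3 K) (u : Fm K) (t : V → K) :
    u (∑ i, t i • v i) = ∑ i, t i * u (v i) := by
  simp [map_sum]

lemma supp_of {s : Finset V} {u : Fm K} (h1 : ∀ a ∈ s, u (Φ.v a) = Φ.h a)
    (h2 : ∀ a, a ∉ s → u (Φ.v a) < Φ.h a) (t : V → K) (ht : ∀ a, 0 ≤ t a) :
    u (∑ i, t i • Φ.v i) ≤ ∑ i, t i * Φ.h i ∧
      (∑ i, t i * Φ.h i ≤ u (∑ i, t i • Φ.v i) → ∀ a, a ∉ s → t a = 0) := by
  have hle : ∀ i, t i * u (Φ.v i) ≤ t i * Φ.h i := fun i => by
    apply mul_le_mul_of_nonneg_left _ (ht i)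
    by_cases hi : i ∈ s
    · exact (h1 i hi).le
    · exact (h2 i hi).le
  rw [form_sum]
  refine ⟨Finset.sum_le_sum fun i _ => hle i, fun h a ha => ?_⟩
  by_contra h0
  have : ∑ i, t i * u (Φ.v i) < ∑ i, t i * Φ.h i :=
    Finset.sum_lt_sum (fun i _ => hle i) ⟨a, Finset.mem_univ _,
      mul_lt_mul_of_pos_left (h2 a ha) (lt_of_le_of_ne (ht a) (Ne.symm h0))⟩
  linarith

lemma val_of {s : Finset V} {u : Fm K} (h1 : ∀ a ∈ s, u (Φ.v a) = Φ.h a) (t : V → K)
    (ht : ∀ a, a ∉ s → t a = 0) : u (∑ i, t i • Φ.v i) = ∑ i, t i * Φ.h i := by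
  rw [form_sum]
  refine Finset.sum_congr rfl fun i _ => ?_
  by_cases hi : i ∈ s
  · rw [h1 i hi]
  · rw [ht i hi, zero_mul, zero_mul]

lemma coord {a b c : V} (h : Φ.face a b c) {x : V3 K} {t : V → K}
    (ht : ∀ i, i ∉ ({a, b, c} : Finset V) → t i = 0) (hx : x = ∑ i, t i • Φ.v i) :
    det3 (Φ.v a) (Φ.v b) x = t c * det3 (Φ.v a) (Φ.v b) (Φ.v c) := by
  obtain ⟨hab, hac, hbc⟩ := face_ne Φ h
  rw [hx, sum3 Φ.v hab hac hbc t ht, det_comb]

theorem uniq {x : V3 K} {t t' : V → K} (h : Φ.IsRep x t) (h' : Φ.IsRep x t') : t = t' := by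
  obtain ⟨p, ⟨s, hs, q⟩, r⟩ := h
  obtain ⟨p', ⟨s', hs', q'⟩, r'⟩ := h'
  obtain ⟨u, u1, u2⟩ := Φ.conv s hs
  obtain ⟨u', u1', u2'⟩ := Φ.conv s' hs'
  have e1 := val_of Φ u1 t q
  have e2 := val_of Φ u1' t' q'
  have e3 := supp_of Φ u1 u2 t' p'
  have e4 := (supp_of Φ u1' u2' t p).1
  rw [← r] at e1 e4
  rw [← r'] at e2 e3
  have q2 := e3.2 (by linarith)
  obtain ⟨a, b, c, -, -, -, rfl⟩ := ex3 Φ hs
  have key : ∀ a b c : V, Φ.face a b c → (∀ i, i ∉ ({a, b, c} : Finset V) → t i = 0) →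
      (∀ i, i ∉ ({a, b, c} : Finset V) → t' i = 0) → t c = t' c := by
    intro a b c f k1 k2
    have := (coord Φ f k1 r).symm.trans (coord Φ f k2 r')
    exact mul_right_cancel₀ (face_det_ne Φ f) this
  funext i
  by_cases hi : i ∈ ({a, b, c} : Finset V)
  · simp only [Finset.mem_insert, Finset.mem_singleton] at hi
    have f : Φ.face a b c := hs
    rcases hi with rfl | rfl | rfl
    · refine key b c i (face_cyc Φ f) (fun j hj => q j ?_) (fun j hj => q2 j ?_) <;>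
        (simp at hj ⊢; tauto)
    · refine key a c i (face_swap' Φ f) (fun j hj => q j ?_) (fun j hj => q2 j ?_) <;>
        (simp at hj ⊢; tauto)
    · exact key a b i f q q2
  · rw [q i hi, q2 i hi]

/-- Signs of the determinants with two rays persist under a small move. -/
lemma small_sign (x w : V3 K) : ∃ δ0 : K, 0 < δ0 ∧ ∀ δ, 0 < δ → δ < δ0 → ∀ a b,
    0 < det3 (Φ.v a) (Φ.v b) x → 0 < det3 (Φ.v a) (Φ.v b) (x + δ • w) := by
  obtain ⟨d, hd, H⟩ := ev_all (Finset.univ : Finset (V × V))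
    (fun p δ => 0 < det3 (Φ.v p.1) (Φ.v p.2) x →
      0 < det3 (Φ.v p.1) (Φ.v p.2) x + δ * det3 (Φ.v p.1) (Φ.v p.2) w)
    (fun p _ => ev_pos _ _)
  refine ⟨d, hd, fun δ h1 h2 a b h => ?_⟩
  rw [det_add, det_smul]
  exact H δ h1 h2 (a, b) (Finset.mem_univ _) h

theorem near {x : V3 K} {t : V → K} (h : Φ.IsRep x t) (w : V3 K) :
    ∃ δ0 : K, 0 < δ0 ∧ ∀ δ, 0 < δ → δ < δ0 →
      ∀ t', Φ.IsRep (x + δ • w) t' → ∀ a, t a ≠ 0 → t' a ≠ 0 := by
  obtain ⟨d, hd, H⟩ := small_sign Φ x w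
  refine ⟨d, hd, fun δ h1 h2 t' ⟨p', ⟨s', hs', q'⟩, r'⟩ => ?_⟩
  -- coordinates keep their sign
  have key : ∀ a b c : V, Φ.face a b c → (∀ i, i ∉ ({a, b, c} : Finset V) → t' i = 0) →
      0 ≤ det3 (Φ.v a) (Φ.v b) x / det3 (Φ.v a) (Φ.v b) (Φ.v c) ∧
      (det3 (Φ.v a) (Φ.v b) x / det3 (Φ.v a) (Φ.v b) (Φ.v c) ≠ 0 → t' c ≠ 0) := by
    intro a b c f k
    have e := coord Φ f k r'
    have H1 := H δ h1 h2 a b
    have H2 := H δ h1 h2 b a
    rw [det_swap, det_swap (Φ.v a) (Φ.v b) (x + δ • w)] at H2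
    have pc := p' c
    rcases Φ.unimod a b c f with g | g <;> rw [g] at e ⊢
    · refine ⟨?_, fun h0 h3 => ?_⟩
      · by_contra hn
        rw [div_one] at hn
        have := H2 (by linarith)
        linarith
      · rw [div_one] at h0
        rcases lt_or_gt_of_ne h0 with h4 | h4
        · have := H2 (by linarith); rw [h3] at e; linarith
        · have := H1 h4; rw [h3] at e; linarith
    · refine ⟨?_, fun h0 h3 => ?_⟩
      · by_contra hn
        rw [div_neg, div_one] at hn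
        have := H1 (by linarith)
        linarith
      · rw [div_neg, div_one, neg_ne_zero] at h0
        rcases lt_or_gt_of_ne h0 with h4 | h4
        · have := H2 (by linarith); rw [h3] at e; linarith
        · have := H1 h4; rw [h3] at e; linarith
  obtain ⟨a, b, c, hab, hac, hbc, rfl⟩ := ex3 Φ hs'
  have f : Φ.face a b c := hs'
  have kc := key a b c f q'
  have ka := key b c a (face_cyc Φ f) (fun j hj => q' j (by simp at hj ⊢; tauto))
  have kb := key c a b (face_cyc Φ (face_cyc Φ f)) (fun j hj => q' j (by simp at hj ⊢; tauto))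
  rw [← det_cyc (Φ.v a) (Φ.v b) (Φ.v c)] at ka
  rw [det_cyc (Φ.v c) (Φ.v a) (Φ.v b)] at kb
  have R := c3_rep Φ hs' (a := a) (b := b) (c := c) (by simp) (by simp) (by simp) ka.1 kb.1 kc.1
  rw [← cramer' _ _ _ x (face_det_ne Φ f)] at R
  have E := uniq Φ h R
  intro i hi
  rw [E, c3_apply] at hi
  by_cases ia : i = a
  · subst ia; apply ka.2; simpa [hab, hac] using hi
  by_cases ib : i = b
  · subst ib; apply kb.2; simpa [ia, hbc] using hi
  by_cases ic : i = c
  · subst ic; apply kc.2; simpa [ia, ib] using hi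
  simp [ia, ib, ic] at hi

theorem ray_inj (a b : V) (r : K) (hr : 0 < r) (h : Φ.v b = r • Φ.v a) : a = b := by
  obtain ⟨s, hs, ha⟩ := Φ.used a
  obtain ⟨s', hs', hb⟩ := Φ.used b
  have R := c3_rep Φ hs ha ha ha hr.le le_rfl le_rfl
  have R' := c3_rep Φ hs' hb hb hb zero_le_one le_rfl le_rfl
  simp only [zero_smul, add_zero, one_smul] at R R'
  rw [← h] at R
  have := congrFun (uniq Φ R R') a
  by_contra hab
  simp [c3_apply, hab] at this
  exact hr.ne' this

/-- A face on the side of `w` of an edge. -/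
lemma side {a b : V} (h : Φ.adj a b) (w : V3 K) (hw : det3 (Φ.v a) (Φ.v b) w ≠ 0) :
    ∃ k, Φ.face a b k ∧ 0 < det3 (Φ.v a) (Φ.v b) (Φ.v k) * det3 (Φ.v a) (Φ.v b) w := by
  obtain ⟨hab, s, hs, ha, hb⟩ := h
  have R := c3_rep Φ hs ha hb hb zero_le_one zero_le_one le_rfl
  obtain ⟨d, hd, H⟩ := near Φ R w
  obtain ⟨t', R'⟩ := ex_rep Φ (((1 : K) • Φ.v a + (1 : K) • Φ.v b + (0 : K) • Φ.v b) + (d / 2) • w)
  have H' := H (d / 2) (by linarith) (by linarith) t' R'
  obtain ⟨p', ⟨s', hs', q'⟩, r'⟩ := R'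
  have ma : a ∈ s' := by
    by_contra hn; exact H' a (by simp [c3_apply, hab]) (q' a hn)
  have mb : b ∈ s' := by
    by_contra hn; exact H' b (by simp [c3_apply, hab.symm]) (q' b hn)
  obtain ⟨k, rfl⟩ := third Φ hs' hab ma mb
  have f : Φ.face a b k := hs'
  refine ⟨k, f, ?_⟩
  have e := coord Φ f q' r'
  rw [det_add, det_comb, det_smul, zero_mul, zero_add] at e
  have pk := p' k
  have hk : 0 < t' k := by
    refine lt_of_le_of_ne pk fun h0 => ?_
    rw [← h0, zero_mul] at e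
    exact hw ((mul_eq_zero.1 e).resolve_left (by linarith))
  have hw2 : 0 < det3 (Φ.v a) (Φ.v b) w * det3 (Φ.v a) (Φ.v b) w := mul_self_pos.2 hw
  have : t' k * (det3 (Φ.v a) (Φ.v b) (Φ.v k) * det3 (Φ.v a) (Φ.v b) w) =
      d / 2 * (det3 (Φ.v a) (Φ.v b) w * det3 (Φ.v a) (Φ.v b) w) := by
    rw [← mul_assoc, ← e]; ring
  have h3 : 0 < t' k * (det3 (Φ.v a) (Φ.v b) (Φ.v k) * det3 (Φ.v a) (Φ.v b) w) := by
    rw [this]; positivity
  exact (pos_iff_pos_of_mul_pos h3).1 hk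

lemma same_side {a b c k : V} (f : Φ.face a b c) (g : Φ.face a b k)
    (h : det3 (Φ.v a) (Φ.v b) (Φ.v c) = det3 (Φ.v a) (Φ.v b) (Φ.v k)) : c = k := by
  have e := cramer' (Φ.v a) (Φ.v b) (Φ.v k) (Φ.v c) (face_det_ne Φ g)
  rw [h, div_self (face_det_ne Φ g)] at e
  set α := det3 (Φ.v b) (Φ.v k) (Φ.v c) / det3 (Φ.v a) (Φ.v b) (Φ.v k)
  set β := det3 (Φ.v k) (Φ.v a) (Φ.v c) / det3 (Φ.v a) (Φ.v b) (Φ.v k)
  have R := c3_rep Φ f (a := a) (b := b) (c := c) (by simp) (by simp) (by simp)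
    (abs_nonneg α) (abs_nonneg β) zero_le_one
  have R' := c3_rep Φ g (a := a) (b := b) (c := k) (by simp) (by simp) (by simp)
    (r := |α| + α) (s := |β| + β) (by linarith [neg_abs_le α]) (by linarith [neg_abs_le β])
    zero_le_one
  have E : |α| • Φ.v a + |β| • Φ.v b + (1 : K) • Φ.v c =
      (|α| + α) • Φ.v a + (|β| + β) • Φ.v b + (1 : K) • Φ.v k := by
    rw [one_smul, e]; module
  rw [E] at R
  have := congrFun (uniq Φ R R') c
  obtain ⟨-, hac, hbc⟩ := face_ne Φ f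
  by_contra hck
  simp [c3_apply, hac.symm, hbc.symm, hck] at this

theorem wall {a b : V} (h : Φ.adj a b) :
    ∃ k l, k ≠ l ∧ Φ.face a b k ∧ Φ.face a b l ∧ det3 (Φ.v a) (Φ.v b) (Φ.v k) = 1 ∧
      det3 (Φ.v a) (Φ.v b) (Φ.v l) = -1 ∧ ∀ c, Φ.face a b c → c = k ∨ c = l := by
  obtain ⟨c, f⟩ := adj_face Φ h
  obtain ⟨c', f', h'⟩ := side Φ h (-Φ.v c) (by rw [det_neg, neg_ne_zero]; exact face_det_ne Φ f)
  rw [det_neg] at h'
  have key : ∀ k l, Φ.face a b k → Φ.face a b l → det3 (Φ.v a) (Φ.v b) (Φ.v k) = 1 →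
      det3 (Φ.v a) (Φ.v b) (Φ.v l) = -1 → k ≠ l ∧ ∀ c, Φ.face a b c → c = k ∨ c = l := by
    intro k l fk fl dk dl
    refine ⟨?_, fun c fc => ?_⟩
    · rintro rfl; rw [dk] at dl; linarith
    · rcases Φ.unimod a b c fc with g | g
      · exact Or.inl (same_side Φ fc fk (g.trans dk.symm))
      · exact Or.inr (same_side Φ fc fl (g.trans dl.symm))
  rcases Φ.unimod a b c f with g | g <;> rcases Φ.unimod a b c' f' with g' | g'
  · rw [g, g'] at h'; linarith
  · exact ⟨c, c', (key c c' f f' g g').1, f, f', g, g', (key c c' f f' g g').2⟩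
  · exact ⟨c', c, (key c' c f' f g' g).1, f', f, g', g, (key c' c f' f g' g).2⟩
  · rw [g, g'] at h'; linarith

/-- The other face of an edge. -/
lemma other {a b k : V} (f : Φ.face a b k) : ∃ l, Φ.face a b l ∧ k ≠ l ∧
    det3 (Φ.v a) (Φ.v b) (Φ.v l) = - det3 (Φ.v a) (Φ.v b) (Φ.v k) := by
  obtain ⟨k', l', hne, fk, fl, dk, dl, H⟩ := wall Φ (face_adj Φ f)
  rcases H k f with rfl | rfl
  · exact ⟨l', fl, hne, by rw [dk, dl]⟩
  · exact ⟨k', fk, hne.symm, by rw [dk, dl, neg_neg]⟩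

theorem path (Q : Finset V → Prop) (s0 : Finset V) (ξ : V3 K) (h0 : s0 ∈ Φ.F)
    (hξ : Φ.InOpen s0 ξ) (q0 : Q s0)
    (step : ∀ a b k l, Φ.face a b k → Φ.face a b l → k ≠ l →
      det3 (Φ.v a) (Φ.v b) (Φ.v k) * det3 (Φ.v a) (Φ.v b) ξ < 0 → Q {a, b, l} → Q {a, b, k}) :
    ∀ s ∈ Φ.F, Q s := by
  choose! u u1 u2 using Φ.conv
  have main : ∀ n : ℕ, ∀ s ∈ Φ.F, (Φ.F.filter (fun s' => u s ξ < u s' ξ)).card = n → Q s := by
    intro n
    induction n using Nat.strong_induction_on with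
    | _ n ih =>
    intro s hs hn
    have key : ∀ a b k, s = {a, b, k} →
        det3 (Φ.v a) (Φ.v b) ξ / det3 (Φ.v a) (Φ.v b) (Φ.v k) < 0 → Q s := by
      intro a b k e hneg
      subst e
      have f : Φ.face a b k := hs
      obtain ⟨l, fl, hkl, -⟩ := other Φ f
      have dk := face_det_ne Φ f
      have hlt : u {a, b, k} ξ < u {a, b, l} ξ := by
        have e := cramer' (Φ.v a) (Φ.v b) (Φ.v k) ξ dk
        have k1 := u2 _ fl k (by
          obtain ⟨-, h1, h2⟩ := face_ne Φ f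
          simp [h1.symm, h2.symm, hkl])
        have a1 := u1 _ f a (by simp)
        have a2 := u1 _ fl a (by simp)
        have b1 := u1 _ f b (by simp)
        have b2 := u1 _ fl b (by simp)
        have k2 := u1 _ f k (by simp)
        rw [e]
        simp only [map_add, map_smul, smul_eq_mul, a1, a2, b1, b2, k2]
        nlinarith
      refine step a b k l f fl hkl ?_ (ih _ ?_ _ fl rfl)
      · have : det3 (Φ.v a) (Φ.v b) (Φ.v k) * det3 (Φ.v a) (Φ.v b) ξ =
            det3 (Φ.v a) (Φ.v b) ξ / det3 (Φ.v a) (Φ.v b) (Φ.v k) *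
              (det3 (Φ.v a) (Φ.v b) (Φ.v k) * det3 (Φ.v a) (Φ.v b) (Φ.v k)) := by
          field_simp
        rw [this]
        exact mul_neg_of_neg_of_pos hneg (mul_self_pos.2 dk)
      · rw [← hn]
        apply Finset.card_lt_card
        refine ⟨fun x hx => ?_, fun hsub => ?_⟩
        · simp only [Finset.mem_filter] at hx ⊢
          exact ⟨hx.1, hlt.trans hx.2⟩
        · have := hsub (Finset.mem_filter.2 ⟨fl, hlt⟩)
          simp at this
    obtain ⟨a, b, c, hab, hac, hbc, e⟩ := ex3 Φ hs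
    by_cases h1 : det3 (Φ.v a) (Φ.v b) ξ / det3 (Φ.v a) (Φ.v b) (Φ.v c) < 0
    · exact key a b c e h1
    by_cases h2 : det3 (Φ.v b) (Φ.v c) ξ / det3 (Φ.v b) (Φ.v c) (Φ.v a) < 0
    · exact key b c a (by rw [e]; ext x; simp; tauto) h2
    by_cases h3 : det3 (Φ.v c) (Φ.v a) ξ / det3 (Φ.v c) (Φ.v a) (Φ.v b) < 0
    · exact key c a b (by rw [e]; ext x; simp; tauto) h3
    subst e
    have f : Φ.face a b c := hs
    rw [← det_cyc (Φ.v a) (Φ.v b) (Φ.v c)] at h2
    rw [det_cyc (Φ.v c) (Φ.v a) (Φ.v b)] at h3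
    have R := c3_rep Φ hs (a := a) (b := b) (c := c) (by simp) (by simp) (by simp)
      (not_lt.1 h2) (not_lt.1 h3) (not_lt.1 h1)
    rw [← cramer' _ _ _ ξ (face_det_ne Φ f)] at R
    obtain ⟨t, t1, t2, t3⟩ := hξ
    have R' : Φ.IsRep ξ t := ⟨fun i => by
      by_cases hi : i ∈ s0
      · exact (t1 i hi).le
      · exact (t2 i hi).ge, ⟨s0, h0, t2⟩, t3⟩
    have E := uniq Φ R' R
    have hsub : s0 ⊆ {a, b, c} := by
      intro i hi
      have := (t1 i hi).ne'
      rw [E, c3_apply] at this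
      by_contra hn
      simp only [Finset.mem_insert, Finset.mem_singleton, not_or] at hn
      simp [hn.1, hn.2.1, hn.2.2] at this
    have := Finset.eq_of_subset_of_card_le hsub (by rw [Φ.card3 _ hs, Φ.card3 _ h0])
    rw [← this]; exact q0
  exact fun s hs => main _ s hs rfl

end Pool.Agent.P.MP_33ab4b_ag.T.Fb
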