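import Pool.Agent.P.MP_33ab4b_ag.T.IfaceF
import Pool.Agent.P.MP_33ab4b_ag.T.Fb23

/-! Step UNIQ. -/

set_option autoImplicit false

namespace Pool.Agent.P.MP_33ab4b_ag.T

open scoped Classical

theorem p_UNIQ :
    S_UNIQ := by
  intro K V _ _ _ _ _ Φ
  exact ⟨fun _ _ _ h h' => Fb.uniq Φ h h', fun _ _ h w => Fb.near Φ h w,
    fun a b r hr h => Fb.ray_inj Φ a b r hr h⟩

end Pool.Agent.P.MP_33ab4b_ag.T
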