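import Mathlib

/-! Generic lemmas for the toric project: Zariski type negativity, Cauchy-Schwarz for
semidefinite forms, generic points, small parameters. -/

set_option linter.unusedSectionVars false

namespace Pool.Agent.P.MP_33ab4b_ag.T

open Finset

section zar

variable {K : Type*} [Field K] [LinearOrder K] [IsStrictOrderedRing K] {ι : Type*}

theorem zar_id (S : Finset ι) (M : ι → ι → K) (n r : ι → K)
    (hs : ∀ k ∈ S, ∀ l ∈ S, M k l = M l k) :
    2 * ∑ k ∈ S, ∑ l ∈ S, (n k * r k) * M k l * (n l * r l) =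
      2 * ∑ k ∈ S, r k ^ 2 * n k * (∑ l ∈ S, M k l * n l) -
        ∑ k ∈ S, ∑ l ∈ S, M k l * n k * n l * (r k - r l) ^ 2 := by
  have h1 : ∑ k ∈ S, r k ^ 2 * n k * (∑ l ∈ S, M k l * n l) =
      ∑ k ∈ S, ∑ l ∈ S, M k l * n k * n l * r k ^ 2 := by
    refine sum_congr rfl fun k _ => ?_
    rw [mul_sum]
    exact sum_congr rfl fun l _ => by ring
  have h2 : ∑ k ∈ S, ∑ l ∈ S, M k l * n k * n l * r k ^ 2 =
      ∑ k ∈ S, ∑ l ∈ S, M k l * n k * n l * r l ^ 2 := by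
    rw [sum_comm]
    refine sum_congr rfl fun k hk => sum_congr rfl fun l hl => ?_
    rw [hs l hl k hk]; ring
  have h3 : ∑ k ∈ S, ∑ l ∈ S, M k l * n k * n l * (r k - r l) ^ 2 =
      ∑ k ∈ S, ∑ l ∈ S, M k l * n k * n l * r k ^ 2 +
      ∑ k ∈ S, ∑ l ∈ S, M k l * n k * n l * r l ^ 2 -
      2 * ∑ k ∈ S, ∑ l ∈ S, (n k * r k) * M k l * (n l * r l) := by
    rw [mul_sum, ← sum_add_distrib, ← sum_sub_distrib]
    refine sum_congr rfl fun k _ => ?_
    rw [mul_sum, ← sum_add_distrib, ← sum_sub_distrib]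
    exact sum_congr rfl fun l _ => by ring
  rw [h1, h3, ← h2]; ring

/-- ZAR, both parts, for sums over a finite set `S`. -/
theorem zar (S : Finset ι) (M : ι → ι → K) (n x : ι → K)
    (hs : ∀ k ∈ S, ∀ l ∈ S, M k l = M l k)
    (ho : ∀ k ∈ S, ∀ l ∈ S, k ≠ l → 0 ≤ M k l)
    (hn : ∀ k ∈ S, 0 < n k)
    (hm : ∀ k ∈ S, ∑ l ∈ S, M k l * n l ≤ 0) :
    ∑ k ∈ S, ∑ l ∈ S, x k * M k l * x l ≤ 0 ∧
    (∑ k ∈ S, ∑ l ∈ S, x k * M k l * x l = 0 →
      (∀ k ∈ S, ∑ l ∈ S, M k l * x l = 0) ∧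
      (∀ k ∈ S, ∀ l ∈ S, M k l ≠ 0 → x k * n l = x l * n k) ∧
      (∀ k ∈ S, ∑ l ∈ S, M k l * n l ≠ 0 → x k = 0)) := by
  classical
  set r : ι → K := fun k => x k / n k with hr
  have hx : ∀ k ∈ S, n k * r k = x k := fun k hk => by
    have := (hn k hk).ne'
    simp only [hr]; field_simp
  have hid := zar_id S M n r hs
  have he : ∑ k ∈ S, ∑ l ∈ S, (n k * r k) * M k l * (n l * r l) =
      ∑ k ∈ S, ∑ l ∈ S, x k * M k l * x l :=
    sum_congr rfl fun k hk => sum_congr rfl fun l hl => by rw [hx k hk, hx l hl]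
  rw [he] at hid
  have hA : ∀ k ∈ S, r k ^ 2 * n k * (∑ l ∈ S, M k l * n l) ≤ 0 := fun k hk =>
    mul_nonpos_of_nonneg_of_nonpos (mul_nonneg (sq_nonneg _) (hn k hk).le) (hm k hk)
  have hB : ∀ k ∈ S, ∀ l ∈ S, 0 ≤ M k l * n k * n l * (r k - r l) ^ 2 := fun k hk l hl => by
    by_cases hkl : k = l
    · subst hkl; simp
    · exact mul_nonneg (mul_nonneg (mul_nonneg (ho k hk l hl hkl) (hn k hk).le) (hn l hl).le)
        (sq_nonneg _)
  have hA' := sum_nonpos hA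
  have hB' : 0 ≤ ∑ k ∈ S, ∑ l ∈ S, M k l * n k * n l * (r k - r l) ^ 2 :=
    sum_nonneg fun k hk => sum_nonneg (hB k hk)
  refine ⟨by linarith, fun h0 => ?_⟩
  have hA0 : ∑ k ∈ S, r k ^ 2 * n k * (∑ l ∈ S, M k l * n l) = 0 := by linarith
  have hB0 : ∑ k ∈ S, ∑ l ∈ S, M k l * n k * n l * (r k - r l) ^ 2 = 0 := by linarith
  have hA1 := (sum_eq_zero_iff_of_nonpos hA).1 hA0
  have hB1 := (sum_eq_zero_iff_of_nonneg fun k hk => sum_nonneg (hB k hk)).1 hB0
  have hr2 : ∀ k ∈ S, ∀ l ∈ S, M k l ≠ 0 → r k = r l := fun k hk l hl hM => by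
    have h := (sum_eq_zero_iff_of_nonneg (hB k hk)).1 (hB1 k hk) l hl
    have h2 : M k l * n k * n l ≠ 0 := mul_ne_zero (mul_ne_zero hM (hn k hk).ne') (hn l hl).ne'
    have h3 := (mul_eq_zero.1 h).resolve_left h2
    exact sub_eq_zero.1 (pow_eq_zero_iff (two_ne_zero) |>.1 h3)
  have hr3 : ∀ k ∈ S, ∑ l ∈ S, M k l * n l ≠ 0 → r k = 0 := fun k hk hM => by
    have h := (mul_eq_zero.1 (hA1 k hk)).resolve_right hM
    have h2 := (mul_eq_zero.1 h).resolve_right (hn k hk).ne'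
    exact pow_eq_zero_iff (two_ne_zero) |>.1 h2
  refine ⟨fun k hk => ?_, fun k hk l hl hM => ?_, fun k hk hM => ?_⟩
  · have h1 : ∑ l ∈ S, M k l * x l = r k * ∑ l ∈ S, M k l * n l := by
      rw [mul_sum]
      refine sum_congr rfl fun l hl => ?_
      by_cases hM : M k l = 0
      · simp [hM]
      · rw [← hx l hl, hr2 k hk l hl hM]; ring
    rw [h1]
    by_cases hM : ∑ l ∈ S, M k l * n l = 0
    · simp [hM]
    · simp [hr3 k hk hM]
  · rw [← hx k hk, ← hx l hl, hr2 k hk l hl hM]; ring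
  · rw [← hx k hk, hr3 k hk hM, mul_zero]

variable {L : Type*} [AddCommGroup L] [Module K L]

theorem bil_sum (b : L →ₗ[K] L →ₗ[K] K) (S : Finset ι) (D : ι → L) (x y : ι → K) :
    b (∑ k ∈ S, x k • D k) (∑ l ∈ S, y l • D l) =
      ∑ k ∈ S, ∑ l ∈ S, x k * b (D k) (D l) * y l := by
  simp only [map_sum, LinearMap.sum_apply, map_smul, LinearMap.smul_apply, smul_eq_mul]
  rw [sum_comm]
  refine sum_congr rfl fun k _ => ?_
  rw [mul_sum]
  exact sum_congr rfl fun l _ => by ring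

theorem bil_sum_right (b : L →ₗ[K] L →ₗ[K] K) (S : Finset ι) (D : ι → L) (z : L) (y : ι → K) :
    b z (∑ l ∈ S, y l • D l) = ∑ l ∈ S, b z (D l) * y l := by
  simp only [map_sum, map_smul, smul_eq_mul]
  exact sum_congr rfl fun l _ => by ring

/-- ZAR for a bilinear form `b` and vectors `D k`, `k ∈ S`. -/
theorem zar_bil (b : L →ₗ[K] L →ₗ[K] K) (S : Finset ι) (D : ι → L) (n x : ι → K)
    (hs : ∀ y z, b y z = b z y)
    (ho : ∀ k ∈ S, ∀ l ∈ S, k ≠ l → 0 ≤ b (D k) (D l))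
    (hn : ∀ k ∈ S, 0 < n k)
    (hm : ∀ k ∈ S, b (D k) (∑ l ∈ S, n l • D l) ≤ 0) :
    b (∑ k ∈ S, x k • D k) (∑ k ∈ S, x k • D k) ≤ 0 ∧
    (b (∑ k ∈ S, x k • D k) (∑ k ∈ S, x k • D k) = 0 →
      (∀ k ∈ S, b (D k) (∑ l ∈ S, x l • D l) = 0) ∧
      (∀ k ∈ S, ∀ l ∈ S, b (D k) (D l) ≠ 0 → x k * n l = x l * n k) ∧
      (∀ k ∈ S, b (D k) (∑ l ∈ S, n l • D l) ≠ 0 → x k = 0)) := by
  have h := zar S (fun k l => b (D k) (D l)) n x (fun k _ l _ => hs _ _) ho hn
    (fun k hk => by rw [← bil_sum_right]; exact hm k hk)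
  simp only [bil_sum_right]
  simp only [bil_sum_right] at hm
  rw [← bil_sum_right, bil_sum]
  exact h

/-- Cauchy-Schwarz for a form that is negative semidefinite on a subspace. -/
theorem cs_neg (b : L →ₗ[K] L →ₗ[K] K) (W : Submodule K L) (hs : ∀ y z, b y z = b z y)
    (hW : ∀ w ∈ W, b w w ≤ 0) {x y : L} (hx : x ∈ W) (hy : y ∈ W) :
    b x y ^ 2 ≤ b x x * b y y := by
  have key : ∀ s t : K, s ^ 2 * b x x + 2 * s * t * b x y + t ^ 2 * b y y ≤ 0 := fun s t => by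
    have h := hW (s • x + t • y) (W.add_mem (W.smul_mem s hx) (W.smul_mem t hy))
    simp only [map_add, map_smul, LinearMap.add_apply, LinearMap.smul_apply, smul_eq_mul] at h
    rw [hs y x] at h
    linarith
  rcases (hW x hx).lt_or_eq with h | h
  · have h1 := key (b x y) (-(b x x))
    have h2 : b x x * (b x x * b y y - b x y ^ 2) ≤ 0 := by nlinarith
    by_contra hc
    push Not at hc
    have : 0 < b x x * (b x x * b y y - b x y ^ 2) := mul_pos_of_neg_of_neg h (by linarith)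
    linarith
  · rw [h, zero_mul]
    by_contra hc
    push Not at hc
    have hne : b x y ≠ 0 := fun h0 => by simp [h0] at hc
    have h1 := key ((1 - b y y) / (2 * b x y)) 1
    rw [h] at h1
    have h2 : 2 * ((1 - b y y) / (2 * b x y)) * 1 * b x y = 1 - b y y := by field_simp
    rw [h2] at h1
    linarith

/-- the radical of a semidefinite form: `b x x = 0` gives `b x y = 0`. -/
theorem cs_neg_rad (b : L →ₗ[K] L →ₗ[K] K) (W : Submodule K L) (hs : ∀ y z, b y z = b z y)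
    (hW : ∀ w ∈ W, b w w ≤ 0) {x y : L} (hx : x ∈ W) (hy : y ∈ W) (h0 : b x x = 0) :
    b x y = 0 := by
  have h := cs_neg b W hs hW hx hy
  rw [h0, zero_mul] at h
  exact pow_eq_zero_iff (two_ne_zero) |>.1 (le_antisymm h (sq_nonneg _))

end zar

section small

variable {K : Type*} [Field K] [LinearOrder K] [IsStrictOrderedRing K]

/-- `P t` holds for all small positive `t`. -/
def Sm (P : K → Prop) : Prop := ∃ ε : K, 0 < ε ∧ ∀ t, 0 < t → t ≤ ε → P t

theorem Sm.of_all {P : K → Prop} (h : ∀ t, 0 < t → P t) : Sm P :=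
  ⟨1, one_pos, fun t ht _ => h t ht⟩

theorem Sm.mono {P Q : K → Prop} (h : Sm P) (hq : ∀ t, 0 < t → P t → Q t) : Sm Q := by
  obtain ⟨ε, hε, h⟩ := h
  exact ⟨ε, hε, fun t ht h2 => hq t ht (h t ht h2)⟩

theorem Sm.and {P Q : K → Prop} (h : Sm P) (h' : Sm Q) : Sm fun t => P t ∧ Q t := by
  obtain ⟨ε, hε, h⟩ := h
  obtain ⟨δ, hδ, h'⟩ := h'
  exact ⟨min ε δ, lt_min hε hδ, fun t ht h2 =>
    ⟨h t ht (h2.trans (min_le_left _ _)), h' t ht (h2.trans (min_le_right _ _))⟩⟩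

theorem Sm.exists {P : K → Prop} (h : Sm P) : ∃ t, 0 < t ∧ P t := by
  obtain ⟨ε, hε, h⟩ := h
  exact ⟨ε, hε, h ε hε le_rfl⟩

theorem Sm.finset {α : Type*} (S : Finset α) {P : α → K → Prop} (h : ∀ a ∈ S, Sm (P a)) :
    Sm fun t => ∀ a ∈ S, P a t := by
  classical
  induction S using Finset.induction_on with
  | empty => exact Sm.of_all fun t _ a ha => absurd ha (by simp)
  | insert a S ha ih =>
    have h1 := h a (mem_insert_self _ _)
    have h2 := ih fun b hb => h b (mem_insert_of_mem hb)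
    refine (h1.and h2).mono fun t _ ht b hb => ?_
    rcases mem_insert.1 hb with rfl | hb
    · exact ht.1
    · exact ht.2 b hb

theorem Sm.all {α : Type*} [Finite α] {P : α → K → Prop} (h : ∀ a, Sm (P a)) :
    Sm fun t => ∀ a, P a t := by
  have := Fintype.ofFinite α
  exact (Sm.finset univ fun a _ => h a).mono fun t _ ht a => ht a (mem_univ _)

theorem Sm.imp {p : Prop} {P : K → Prop} (h : p → Sm P) : Sm fun t => p → P t := by
  by_cases hp : p
  · exact (h hp).mono fun t _ ht _ => ht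
  · exact Sm.of_all fun t _ h => absurd h hp

theorem Sm.le {ε : K} (h : 0 < ε) : Sm fun t => t ≤ ε := ⟨ε, h, fun _ _ h => h⟩

theorem Sm.pos {p : K} (q : K) (hp : 0 < p) : Sm fun t => 0 < p + t * q := by
  refine ⟨p / (2 * (|q| + 1)), by positivity, fun t ht h => ?_⟩
  have h1 : 0 < |q| + 1 := by positivity
  rw [le_div_iff₀ (by positivity)] at h
  have h2 : -|q| ≤ q := neg_abs_le q
  nlinarith

theorem Sm.lt {p r : K} (q s : K) (hp : p < r) : Sm fun t => p + t * q < r + t * s :=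
  (Sm.pos (s - q) (sub_pos.2 hp)).mono fun t _ h => by linarith

theorem Sm.neg {p : K} (q : K) (hp : p < 0) : Sm fun t => p + t * q < 0 :=
  (Sm.pos (-q) (neg_pos.2 hp)).mono fun t _ h => by linarith

theorem Sm.ne (p : K) {q : K} (hq : q ≠ 0) : Sm fun t => p + t * q ≠ 0 := by
  rcases lt_trichotomy p 0 with h | h | h
  · exact (Sm.neg q h).mono fun t _ h => h.ne
  · exact Sm.of_all fun t ht => by rw [h, zero_add]; exact mul_ne_zero ht.ne' hq
  · exact (Sm.pos q h).mono fun t _ h => h.ne'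

/-- lexicographic sign: `p > 0`, or `p = 0` and `q > 0`, or small values are not positive. -/
theorem Sm.sign (p q : K) :
    (Sm fun t => 0 < p + t * q) ∨ (Sm fun t => p + t * q < 0) ∨ (p = 0 ∧ q = 0) := by
  rcases lt_trichotomy p 0 with h | h | h
  · exact Or.inr (Or.inl (Sm.neg q h))
  · rcases lt_trichotomy q 0 with g | g | g
    · exact Or.inr (Or.inl (Sm.of_all fun t ht => by
        rw [h, zero_add]; exact mul_neg_of_pos_of_neg ht g))
    · exact Or.inr (Or.inr ⟨h, g⟩)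
    · exact Or.inl (Sm.of_all fun t ht => by rw [h, zero_add]; exact mul_pos ht g)
  · exact Or.inl (Sm.pos q h)

/-- a nonnegative value for one small parameter among arbitrarily small ones gives `0 ≤ p`. -/
theorem Sm.nonneg {p q : K} (h : Sm fun t => 0 ≤ p + t * q) : 0 ≤ p := by
  by_contra hp
  push Not at hp
  obtain ⟨t, -, h1, h2⟩ := (h.and (Sm.neg q hp)).exists
  linarith

/-- pigeonhole: finitely many alternatives, one of them holds for arbitrarily small `t`. -/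
theorem Sm.pigeon {α : Type*} [Finite α] {P : α → K → Prop} (h : Sm fun t => ∃ a, P a t) :
    ∃ a, ∀ ε, 0 < ε → ∃ t, 0 < t ∧ t ≤ ε ∧ P a t := by
  by_contra hc
  push Not at hc
  have h2 : ∀ a, Sm fun t => ¬ P a t := fun a => by
    obtain ⟨ε, hε, h⟩ := hc a
    exact ⟨ε, hε, h⟩
  obtain ⟨t, -, ⟨a, ha⟩, h3⟩ := (h.and (Sm.all h2)).exists
  exact h3 a ha

variable {L : Type*} [AddCommGroup L] [Module K L]

/-- GEN with a direction: `y0 + t w` avoids the kernels for all small `t`. -/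
theorem gen_dir {α : Type*} [Finite α] (W : Submodule K L) (f : α → L →ₗ[K] K)
    (hf : ∀ a, ∃ x ∈ W, f a x ≠ 0) (y0 : L) :
    ∃ w ∈ W, Sm fun t : K => ∀ a, f a (y0 + t • w) ≠ 0 := by
  obtain ⟨w, hw, h⟩ := Module.Dual.exists_forall_mem_ne_zero_of_forall_exists W f hf
  refine ⟨w, hw, Sm.all fun a => (Sm.ne (f a y0) (h a)).mono fun t _ ht => ?_⟩
  simpa using ht

/-- GEN inside a subspace. -/
theorem gen_sub {α β : Type*} [Finite α] [Finite β] (W : Submodule K L) (f : α → L →ₗ[K] K)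
    (g : β → L →ₗ[K] K) (hf : ∀ a, ∃ x ∈ W, f a x ≠ 0) {y0 : L} (hy : y0 ∈ W)
    (hg : ∀ b, 0 < g b y0) : ∃ y ∈ W, (∀ a, f a y ≠ 0) ∧ ∀ b, 0 < g b y := by
  obtain ⟨w, hw, h⟩ := gen_dir W f hf y0
  have h2 : Sm fun t : K => ∀ b, 0 < g b (y0 + t • w) :=
    Sm.all fun b => (Sm.pos (g b w) (hg b)).mono fun t _ ht => by simpa using ht
  obtain ⟨t, -, h3, h4⟩ := (h.and h2).exists
  exact ⟨_, W.add_mem hy (W.smul_mem t hw), h3, h4⟩

/-- GEN. -/
theorem gen0 {α β : Type*} [Finite α] [Finite β] (f : α → L →ₗ[K] K)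
    (g : β → L →ₗ[K] K) (hf : ∀ a, f a ≠ 0) {y0 : L}
    (hg : ∀ b, 0 < g b y0) : ∃ y, (∀ a, f a y ≠ 0) ∧ ∀ b, 0 < g b y := by
  obtain ⟨y, -, h⟩ := gen_sub ⊤ f g (fun a => by
    by_contra hc
    push Not at hc
    exact hf a (LinearMap.ext fun x => hc x trivial)) (Submodule.mem_top (x := y0)) hg
  exact ⟨y, h⟩

/-- GEN with side conditions on the indices. -/
theorem gen' {α β : Type*} [Finite α] [Finite β] (p : α → Prop) (q : β → Prop)
    (f : α → L →ₗ[K] K) (g : β → L →ₗ[K] K) (hf : ∀ a, p a → f a ≠ 0) {y0 : L}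
    (hg : ∀ b, q b → 0 < g b y0) : ∃ y, (∀ a, p a → f a y ≠ 0) ∧ ∀ b, q b → 0 < g b y := by
  obtain ⟨y, h1, h2⟩ := gen0 (fun a : {a // p a} => f a) (fun b : {b // q b} => g b)
    (fun a => hf a a.2) (fun b => hg b b.2)
  exact ⟨y, fun a ha => h1 ⟨a, ha⟩, fun b hb => h2 ⟨b, hb⟩⟩

end small

end Pool.Agent.P.MP_33ab4b_ag.T
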