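import Pool.Agent.P.MP_33ab4b_ag.T.IfaceF
import Pool.Agent.P.MP_33ab4b_ag.T.IfaceA
import Pool.Agent.P.MP_33ab4b_ag.T.CycL
import Pool.Agent.P.MP_33ab4b_ag.T.LpB
import Pool.Agent.P.MP_33ab4b_ag.T.Zar
import Pool.Agent.P.MP_33ab4b_ag.T.TUNIQ
import Pool.Agent.P.MP_33ab4b_ag.T.CrAux

/-! Step AX1. -/

set_option autoImplicit false
set_option linter.unusedSectionVars false

namespace Pool.Agent.P.MP_33ab4b_ag.T

open scoped Classical

namespace AX1x

variable {K V : Type} [Field K] [LinearOrder K] [IsStrictOrderedRing K] [Fintype V] [DecidableEq V]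

/-- The maximiser just on the positive side of `s` near the half plane of `y0`. -/
def Side (U : Set (Fm K)) (e y0 : V3 K) (s uL : Fm K) : Prop :=
  uL ∈ U ∧ (∀ u ∈ U, u y0 ≤ uL y0) ∧ (∀ u ∈ U, u y0 = uL y0 → ∃ c : K, 0 ≤ c ∧ uL = u + c • s) ∧
    ∀ r t : K, 0 < r → ∀ w : V3 K, 0 < s w → ∃ δ : K, 0 < δ ∧ SMax U (r • y0 + t • e + δ • w) uL

theorem inH_conv {e y y0 x : V3 K} {r t : K} (hr : 0 < r) (hy : y = r • y0 + t • e)
    (h : InH e y0 x) : InH e y x := by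
  obtain ⟨a, b, ha, rfl⟩ := h
  refine ⟨a / r, b - a / r * t, by positivity, ?_⟩
  rw [hy]
  funext i
  simp only [Pi.smul_apply, Pi.add_apply, smul_eq_mul]
  field_simp
  ring

theorem v_ne (Φ : Fan K V) (a : V) : Φ.v a ≠ 0 := by
  obtain ⟨s, hs, ha⟩ := Φ.used a
  obtain ⟨b, c, _, h⟩ := Fan.exists_face_of_mem hs ha
  intro h0
  have := h.det_ne
  rw [h0] at this
  simp [det3] at this

variable {Φ : HFan K V} (D : LPD Φ.toFan) {N S : V}

theorem agree (hN : D.t N ≠ 0) : ∀ u ∈ D.U, ∀ u' ∈ D.U, u (Φ.v N) = u' (Φ.v N) :=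
  fun u hu u' hu' => (D.t_tight u hu N hN).trans (D.t_tight u' hu' N hN).symm

theorem side (hAXS : S_AXS) (hN : D.t N ≠ 0) {y0 : V3 K} (hy : detL (Φ.v N) y0 ≠ 0) {s : Fm K}
    (h0 : s ≠ 0) (h1 : s (Φ.v N) = 0) (h2 : s y0 = 0) : ∃ uL, Side D.U (Φ.v N) y0 s uL := by
  obtain ⟨uL, a, b, c, d⟩ := hAXS K D.U (Φ.v N) y0 s D.fin D.ne (agree D hN) hy h0 h1 h2
  refine ⟨uL, a, b, c, fun r t hr w hw => ?_⟩
  obtain ⟨δ0, h, h'⟩ := d r t hr w hw
  exact ⟨δ0 / 2, by positivity, h' _ (by positivity) (by linarith)⟩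

theorem ns (hTOP : S_TOP) (hS : Φ.v S = - Φ.v N) {y0 : V3 K} (hy : detL (Φ.v N) y0 ≠ 0)
    (hn : ¬ Φ.Str (Φ.v N) y0) {s uL uR : Fm K} (h0 : s ≠ 0) (h1 : s (Φ.v N) = 0) (h2 : s y0 = 0)
    (hL : Side D.U (Φ.v N) y0 s uL) (hR : Side D.U (Φ.v N) y0 (-s) uR) : Φ.Eqv D.lam uL uR := by
  obtain ⟨s0, hs0, r, t, hr, w, w', hw, hw', ho⟩ :=
    (hTOP K V Φ.toFan N S hS).2.2.2.2.2 y0 hy hn s h0 h1 h2
  obtain ⟨δ, hδ, m⟩ := hL.2.2.2 r t hr w hw
  obtain ⟨δ', hδ', m'⟩ := hR.2.2.2 r t hr w' (by simpa using hw')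
  exact Relation.EqvGen.rel _ _
    ⟨s0, hs0, D.rel s0 hs0 _ (ho δ hδ).1 _ m, D.rel s0 hs0 _ (ho δ' hδ').2 _ m'⟩

theorem wall1 (hAXS : S_AXS) (hN : D.t N ≠ 0) {a b : V}
    (h : det3 (Φ.v N) (Φ.v b) (Φ.v a) ≠ 0) :
    ∃ u, ∀ k, Φ.face a b k → Φ.Rel D.lam {a, b, k} u := by
  set c := det3 (Φ.v N) (Φ.v b) (Φ.v a) with hc
  have e1 : det3 (Φ.v N) (Φ.v a + Φ.v b) (Φ.v a) = c := by
    simp only [hc, det3, Pi.add_apply]; ring
  have hy : detL (Φ.v N) (Φ.v a + Φ.v b) ≠ 0 := fun e => by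
    have := LinearMap.congr_fun e (Φ.v a)
    rw [detL_apply, e1] at this
    exact h this
  have hp : 0 < (c • detL (Φ.v N) (Φ.v a + Φ.v b)) (Φ.v a) := by
    rw [LinearMap.smul_apply, detL_apply, e1]
    exact mul_self_pos.2 h
  obtain ⟨u, hu⟩ := side D hAXS hN hy (s := c • detL (Φ.v N) (Φ.v a + Φ.v b))
    (smul_ne_zero h hy) (by simp) (by simp)
  refine ⟨u, fun k hk => ?_⟩
  obtain ⟨ε, hε, he⟩ := (Sm.pos ((c • detL (Φ.v N) (Φ.v a + Φ.v b)) (Φ.v k)) hp).exists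
  obtain ⟨δ, hδ, m⟩ := hu.2.2.2 1 0 one_pos (Φ.v a + ε • Φ.v k) (by
    rw [map_add, map_smul, smul_eq_mul]; exact he)
  refine D.rel _ hk _ ?_ _ m
  have := lp_inOpen Φ.toFan hk (r := 1 + δ) (s := 1) (t := δ * ε) (by positivity) one_pos
    (by positivity)
  convert this using 1
  module

theorem wall2 (hAXS : S_AXS) (hTOP : S_TOP) (hS : Φ.v S = - Φ.v N) (hN : D.t N ≠ 0) {a b : V}
    (hab : Φ.adj a b) (ha : detL (Φ.v N) (Φ.v a) ≠ 0) (h : det3 (Φ.v N) (Φ.v a) (Φ.v b) = 0)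
    (hm : ¬ Φ.Mer N a b) : ∃ u u', Φ.Eqv D.lam u u' ∧
      ∀ k, Φ.face a b k → Φ.Rel D.lam {a, b, k} u ∨ Φ.Rel D.lam {a, b, k} u' := by
  obtain ⟨s, t, hb⟩ := par_mod ha h
  obtain ⟨k0, hk0⟩ := hab.exists_face
  have hdet : ∀ k, det3 (Φ.v a) (Φ.v b) (Φ.v k) = - t * det3 (Φ.v N) (Φ.v a) (Φ.v k) := by
    intro k
    rw [hb]
    simp only [det3, Pi.add_apply, Pi.smul_apply, smul_eq_mul]; ring
  have ht : t ≠ 0 := by
    rintro rfl
    exact hk0.det_ne (by rw [hdet]; simp)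
  have pole : ∀ p : V, ∀ r : K, 0 < r → (∃ q : K, Φ.v p = q • Φ.v N) →
      Φ.v b + (-s) • Φ.v a = r • Φ.v p → 0 ≤ s := by
    intro p r hr hp he
    by_contra hs
    push Not at hs
    obtain ⟨q, hq⟩ := cr_exists_adj Φ.toFan p
    have h2 := cr_cross p_UNIQ Φ.toFan hq hab.symm (r := 0) (s := r) (r' := 1) (s' := -s) le_rfl hr
      zero_le_one (by linarith) (by rw [one_smul, zero_smul, zero_add]; exact he.symm)
    obtain ⟨q', hq'⟩ := hp
    rcases h2 with rfl | rfl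
    · refine not_par_of_detL ha (s⁻¹ * (q' - t)) ?_
      have e : s • Φ.v a = (q' - t) • Φ.v N := by
        rw [sub_smul, ← hq', hb]; module
      rw [← smul_smul, ← e, smul_smul, inv_mul_cancel₀ hs.ne, one_smul]
    · exact not_par_of_detL ha q' hq'
  have hs : 0 ≤ s := by
    rcases lt_or_gt_of_ne ht with h' | h'
    · exact pole S (-t) (by linarith) ⟨-1, by rw [hS]; simp⟩ (by rw [hb, hS]; module)
    · exact pole N t h' ⟨1, by simp⟩ (by rw [hb]; module)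
  have hn : ¬ Φ.Str (Φ.v N) (Φ.v a) := by
    intro hstr
    obtain ⟨⟨y, hy, r, t', hr, e⟩, -⟩ := (hTOP K V Φ.toFan N S hS).2.2.1 _ ha hstr
    exact hm ⟨y, hy, inH_conv hr e ⟨1, 0, zero_le_one, by simp⟩, inH_conv hr e ⟨s, t, hs, hb⟩⟩
  obtain ⟨uL, hL⟩ := side D hAXS hN ha (s := detL (Φ.v N) (Φ.v a)) ha (by simp) (by simp)
  obtain ⟨uR, hR⟩ := side D hAXS hN ha (s := - detL (Φ.v N) (Φ.v a)) (neg_ne_zero.2 ha) (by simp)
    (by simp)
  refine ⟨uL, uR, ns D hTOP hS ha hn ha (by simp) (by simp) hL hR, fun k hk => ?_⟩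
  have hk' : det3 (Φ.v N) (Φ.v a) (Φ.v k) ≠ 0 := fun e => hk.det_ne (by rw [hdet, e, mul_zero])
  have op : ∀ δ : K, 0 < δ →
      Φ.InOpen {a, b, k} ((1 + s) • Φ.v a + t • Φ.v N + δ • Φ.v k) := by
    intro δ hδ
    have := lp_inOpen Φ.toFan hk (r := 1) (s := 1) (t := δ) one_pos one_pos hδ
    convert this using 1
    rw [hb]; module
  rcases lt_or_gt_of_ne hk' with h' | h'
  · obtain ⟨δ, hδ, m⟩ := hR.2.2.2 (1 + s) t (by linarith) (Φ.v k) (by simpa using h')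
    exact Or.inr (D.rel _ hk _ (op δ hδ) _ m)
  · obtain ⟨δ, hδ, m⟩ := hL.2.2.2 (1 + s) t (by linarith) (Φ.v k) (by simpa using h')
    exact Or.inl (D.rel _ hk _ (op δ hδ) _ m)

theorem step (hAXS : S_AXS) (hTOP : S_TOP) (hS : Φ.v S = - Φ.v N) (hN : D.t N ≠ 0) {s1 : Fm K}
    (h1 : s1 (Φ.v N) = 0) (h2 : ∀ y, Φ.InJ N y → s1 (Φ.v y) ≤ 0) {y y' : V3 K} {u u' : Fm K}
    (hy : 0 < s1 y) (hy' : 0 < s1 y') (m : SMax D.U y u) (hu' : u' ∈ D.U) (hlt : u y' < u' y') :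
    ∃ z w, 0 < s1 z ∧ SMax D.U z w ∧ Φ.Eqv D.lam w u ∧ u y' < w y' := by
  obtain ⟨u2, h2m, hmin⟩ := Finset.exists_min_image (D.fin.toFinset.filter fun x => u y' < x y')
    (fun x => (u y - x y) / (x y' - u y')) ⟨u', by simp [hu', hlt]⟩
  simp only [Finset.mem_filter, Set.Finite.mem_toFinset] at h2m hmin
  obtain ⟨hu2, hl2⟩ := h2m
  have hne : u2 ≠ u := by rintro rfl; exact lt_irrefl _ hl2
  set c := (u y - u2 y) / (u2 y' - u y') with hc
  have hc0 : 0 < c := div_pos (sub_pos.2 (m.2 u2 hu2 hne)) (sub_pos.2 hl2)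
  have hcm : c * (u2 y' - u y') = u y - u2 y := div_mul_cancel₀ _ (sub_pos.2 hl2).ne'
  have hmax : ∀ x ∈ D.U, x (y + c • y') ≤ u (y + c • y') := by
    intro x hx
    simp only [map_add, map_smul, smul_eq_mul]
    by_cases e : x = u
    · rw [e]
    by_cases hxl : u y' < x y'
    · have := hmin x ⟨hx, hxl⟩
      rw [le_div_iff₀ (sub_pos.2 hxl)] at this
      linarith
    · have a1 := m.2 x hx e
      have a2 := mul_le_mul_of_nonneg_left (not_lt.1 hxl) hc0.le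
      linarith
  have hz : 0 < s1 (y + c • y') := by
    simp only [map_add, map_smul, smul_eq_mul]; positivity
  have hd : detL (Φ.v N) (y + c • y') ≠ 0 := by
    refine detL_ne_zero (v_ne Φ.toFan N) fun t e => ?_
    rw [e] at hz
    simp [h1] at hz
  have hn : ¬ Φ.Str (Φ.v N) (y + c • y') := by
    intro hstr
    obtain ⟨⟨j, hj, r, t', hr, e⟩, -⟩ := (hTOP K V Φ.toFan N S hS).2.2.1 _ hd hstr
    have := h2 j hj
    rw [e, map_add, map_smul, map_smul, h1, smul_eq_mul, smul_eq_mul, mul_zero, add_zero] at this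
    exact absurd this (not_le.2 (mul_pos hr hz))
  have s0 : u2 - u ≠ 0 := sub_ne_zero.2 hne
  have sN : (u2 - u) (Φ.v N) = 0 := by
    rw [LinearMap.sub_apply, agree D hN u2 hu2 u m.1, sub_self]
  have sz : (u2 - u) (y + c • y') = 0 := by
    simp only [LinearMap.sub_apply, map_add, map_smul, smul_eq_mul]
    linarith
  have tie : u2 (y + c • y') = u (y + c • y') := by
    rw [LinearMap.sub_apply] at sz; linarith
  obtain ⟨uL, hL⟩ := side D hAXS hN hd s0 sN sz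
  obtain ⟨uR, hR⟩ := side D hAXS hN hd (neg_ne_zero.2 s0)
    (by rw [LinearMap.neg_apply, sN, neg_zero])
    (by rw [LinearMap.neg_apply, sz, neg_zero])
  have E := ns D hTOP hS hd hn s0 sN sz hL hR
  have eR : uR = u := by
    by_contra hneq
    obtain ⟨q, hq, e⟩ := hR.2.2.1 u m.1 (le_antisymm (hR.2.1 u m.1) (hmax uR hR.1))
    have a1 := m.2 uR hR.1 hneq
    have a2 := m.2 u2 hu2 hne
    rw [e] at a1
    simp only [LinearMap.add_apply, LinearMap.smul_apply, LinearMap.neg_apply, LinearMap.sub_apply,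
      smul_eq_mul] at a1
    nlinarith
  obtain ⟨δ, hδ, mL⟩ := hL.2.2.2 1 0 one_pos y' (by rw [LinearMap.sub_apply]; linarith)
  refine ⟨_, uL, ?_, mL, eR ▸ E, ?_⟩
  · simp only [one_smul, zero_smul, add_zero]
    rw [map_add, map_smul, smul_eq_mul]
    positivity
  · obtain ⟨q, hq, e⟩ := hL.2.2.1 u2 hu2
      (le_antisymm (hL.2.1 u2 hu2) (by rw [tie]; exact hmax uL hL.1))
    rw [e]
    simp only [LinearMap.add_apply, LinearMap.smul_apply, LinearMap.sub_apply, smul_eq_mul]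
    nlinarith

end AX1x

theorem p_AX1 (hGEN : S_GEN) (hFRB : S_FRB) (hEQV : S_EQV) (hAXS : S_AXS) (hTOP : S_TOP) :
    S_AX1 := by
  intro K V _ _ _ _ _ Φ D N S hS hN
  refine ⟨fun a b hm => ?_, fun s1 h1 h2 y y' u u' hy hy' m m' => ?_⟩
  · have key : Φ.adj a b → ∃ u u', Φ.Eqv D.lam u u' ∧
        ∀ k, Φ.face a b k → Φ.Rel D.lam {a, b, k} u ∨ Φ.Rel D.lam {a, b, k} u' := by
      intro hab
      by_cases h : det3 (Φ.v N) (Φ.v b) (Φ.v a) = 0
      · by_cases ha : detL (Φ.v N) (Φ.v a) = 0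
        · have hb : detL (Φ.v N) (Φ.v b) ≠ 0 := by
            intro hb
            obtain ⟨t, e⟩ := par_of_detL (AX1x.v_ne Φ.toFan N) ha
            obtain ⟨t', e'⟩ := par_of_detL (AX1x.v_ne Φ.toFan N) hb
            obtain ⟨k, hk⟩ := hab.exists_face
            refine hk.det_ne ?_
            rw [e, e']
            simp only [det3, Pi.smul_apply, smul_eq_mul]; ring
          obtain ⟨u, u', E, hk⟩ := AX1x.wall2 D hAXS hTOP hS hN hab.symm hb h
            (fun ⟨y, p, q, r⟩ => hm ⟨y, p, r, q⟩)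
          refine ⟨u, u', E, fun k f => ?_⟩
          rw [Finset.insert_comm]
          exact hk k f.swap12
        · exact AX1x.wall2 D hAXS hTOP hS hN hab ha (by rw [det3_swap23, h, neg_zero]) hm
      · obtain ⟨u, hu⟩ := AX1x.wall1 D hAXS hN h
        exact ⟨u, u, Relation.EqvGen.refl u, fun k f => Or.inl (hu k f)⟩
    intro k l hk hl
    obtain ⟨u, u', E, hr⟩ := key hk.adj12
    have : Φ.FinRel {a, b, k} {a, b, l} := by
      rcases hr k hk with r1 | r1 <;> rcases hr l hl with r2 | r2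
      · exact (hEQV K V Φ D.lam u u (Relation.EqvGen.refl u) _ hk _ hl r1 r2).1
      · exact (hEQV K V Φ D.lam u u' E _ hk _ hl r1 r2).1
      · exact (hEQV K V Φ D.lam u' u (Relation.EqvGen.symm _ _ E) _ hk _ hl r1 r2).1
      · exact (hEQV K V Φ D.lam u' u' (Relation.EqvGen.refl u') _ hk _ hl r1 r2).1
    exact this l (by simp) a b k rfl
  · have main : ∀ n : ℕ, ∀ y u, 0 < s1 y → SMax D.U y u →
        (D.fin.toFinset.filter fun x => u y' < x y').card ≤ n → Φ.Eqv D.lam u u' := by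
      intro n
      induction n with
      | zero =>
        intro y u _ m hc
        by_cases e : u = u'
        · rw [e]; exact Relation.EqvGen.refl u'
        · have : u' ∈ D.fin.toFinset.filter fun x => u y' < x y' := by
            simp [m'.1, m'.2 u m.1 e]
          exact absurd (Finset.card_pos.2 ⟨_, this⟩) (by omega)
      | succ n ih =>
        intro y u hy m hc
        by_cases e : u = u'
        · rw [e]; exact Relation.EqvGen.refl u'
        · obtain ⟨z, w, hz, mw, E, hlt⟩ :=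
            AX1x.step D hAXS hTOP hS hN h1 h2 hy hy' m m'.1 (m'.2 u m.1 e)
          refine Relation.EqvGen.trans _ _ _ (Relation.EqvGen.symm _ _ E) (ih z w hz mw ?_)
          have : (D.fin.toFinset.filter fun x => w y' < x y') ⊂
              D.fin.toFinset.filter fun x => u y' < x y' := by
            refine ⟨fun x hx => ?_, fun hsub => ?_⟩
            · simp only [Finset.mem_filter] at hx ⊢
              exact ⟨hx.1, hlt.trans hx.2⟩
            · have : w ∈ D.fin.toFinset.filter fun x => u y' < x y' := by simp [mw.1, hlt]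
              simpa using hsub this
          have := Finset.card_lt_card this
          omega
    exact main _ y u hy m le_rfl

end Pool.Agent.P.MP_33ab4b_ag.T
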