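import Pool.Agent.P.MP_33ab4b_ag.T.IfaceF
import Pool.Agent.P.MP_33ab4b_ag.T.Fb23

/-! Step AXS. -/

set_option autoImplicit false

namespace Pool.Agent.P.MP_33ab4b_ag.T

open scoped Classical

theorem p_AXS :
    S_AXS := by
  intro K _ _ _ U e y0 s hU hne he hd hs se sy
  obtain ⟨z, hz, hsz⟩ : ∃ z, det3 e y0 z ≠ 0 ∧ 0 < s z := by
    obtain ⟨z, hz⟩ := DFunLike.ne_iff.1 hd
    have hz' : det3 e y0 z ≠ 0 := hz
    have : s z ≠ 0 := fun h0 => hs (form_ext hz' (by simpa using se) (by simpa using sy)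
      (by simpa using h0))
    rcases lt_or_gt_of_ne this with h | h
    · exact ⟨-z, by rw [Fb.det_neg, neg_ne_zero]; exact hz', by rw [map_neg]; linarith⟩
    · exact ⟨z, hz', h⟩
  obtain ⟨u0, hu0, m0⟩ := Set.exists_max_image U (fun u => u y0) hU hne
  obtain ⟨uL, ⟨hL, eL⟩, mL⟩ := Set.exists_max_image {u ∈ U | u y0 = u0 y0} (fun u => u z)
    (hU.subset fun u hu => hu.1) ⟨u0, hu0, rfl⟩
  have key : ∀ u ∈ U, u y0 = uL y0 → ∃ c : K, 0 ≤ c ∧ uL = u + c • s := by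
    intro u hu h
    have h1 : u z ≤ uL z := mL u ⟨hu, h.trans eL⟩
    refine ⟨(uL z - u z) / s z, div_nonneg (by linarith) hsz.le, form_ext hz ?_ ?_ ?_⟩
    · simp [se, he uL hL u hu]
    · simp [sy, h]
    · simp only [LinearMap.add_apply, LinearMap.smul_apply, smul_eq_mul]
      field_simp
      ring
  have hle : ∀ u ∈ U, u y0 ≤ uL y0 := fun u hu => (m0 u hu).trans eL.ge
  refine ⟨uL, hL, hle, key, fun r t hr w hw => ?_⟩
  obtain ⟨d, hd0, H⟩ := Fb.ev_all hU.toFinset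
    (fun u δ => 0 < r * (uL y0 - u y0) → 0 < r * (uL y0 - u y0) + δ * (uL w - u w))
    (fun u _ => Fb.ev_pos _ _)
  refine ⟨d, hd0, fun δ h1 h2 => ⟨hL, fun u hu hneq => ?_⟩⟩
  rcases (hle u hu).eq_or_lt with h | h
  · obtain ⟨c, hc, e1⟩ := key u hu h
    have hc' : 0 < c := lt_of_le_of_ne hc fun h0 => hneq (by rw [e1, ← h0]; simp)
    rw [e1]
    simp only [LinearMap.add_apply, LinearMap.smul_apply, map_add, map_smul, smul_eq_mul, se, sy]
    have : 0 < δ * (c * s w) := by positivity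
    linarith
  · have := H δ h1 h2 u (hU.mem_toFinset.2 hu) (mul_pos hr (by linarith))
    simp only [map_add, map_smul, smul_eq_mul, he uL hL u hu]
    linarith

end Pool.Agent.P.MP_33ab4b_ag.T
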