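import Pool.Agent.P.MP_33ab4b_ag.T.IfaceA

/-! Fans: basic facts, intersection numbers, the linear program and the structure theorem. -/

set_option autoImplicit false

namespace Pool.Agent.P.MP_33ab4b_ag.T

open scoped Classical

-- deps:
def S_UNIQ : Prop :=
  ∀ (K V : Type) [Field K] [LinearOrder K] [IsStrictOrderedRing K] [Fintype V] [DecidableEq V]
    (Φ : Fan K V),
    (∀ x t t', Φ.IsRep x t → Φ.IsRep x t' → t = t') ∧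
    (∀ x t, Φ.IsRep x t → ∀ w : V3 K, ∃ δ0 : K, 0 < δ0 ∧ ∀ δ, 0 < δ → δ < δ0 →
      ∀ t', Φ.IsRep (x + δ • w) t' → ∀ a, t a ≠ 0 → t' a ≠ 0) ∧
    (∀ a b, ∀ r : K, 0 < r → Φ.v b = r • Φ.v a → a = b)

-- deps: UNIQ
def S_WALL : Prop :=
  ∀ (K V : Type) [Field K] [LinearOrder K] [IsStrictOrderedRing K] [Fintype V] [DecidableEq V]
    (Φ : Fan K V) (a b : V), Φ.adj a b →
    ∃ k l, k ≠ l ∧ Φ.face a b k ∧ Φ.face a b l ∧ det3 (Φ.v a) (Φ.v b) (Φ.v k) = 1 ∧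
      det3 (Φ.v a) (Φ.v b) (Φ.v l) = -1 ∧ ∀ c, Φ.face a b c → c = k ∨ c = l

-- deps: UNIQ WALL
def S_PATH : Prop :=
  ∀ (K V : Type) [Field K] [LinearOrder K] [IsStrictOrderedRing K] [Fintype V] [DecidableEq V]
    (Φ : Fan K V) (Q : Finset V → Prop) (s0 : Finset V) (ξ : V3 K), s0 ∈ Φ.F → Φ.InOpen s0 ξ →
    Q s0 → (∀ a b k l, Φ.face a b k → Φ.face a b l → k ≠ l →
      det3 (Φ.v a) (Φ.v b) (Φ.v k) * det3 (Φ.v a) (Φ.v b) ξ < 0 → Q {a, b, l} → Q {a, b, k}) →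
    ∀ s ∈ Φ.F, Q s

-- deps: UNIQ WALL NX
def S_LINK : Prop :=
  ∀ (K V : Type) [Field K] [LinearOrder K] [IsStrictOrderedRing K] [Fintype V] [DecidableEq V]
    (Φ : Fan K V) (a : V),
    (∀ u : Fm K, u ≠ 0 → u (Φ.v a) = 0 → ∃ b, Φ.adj a b ∧ 0 < u (Φ.v b)) ∧
    ∃ nx pv : V → V, Cyc (Φ.v a) Φ.v (Φ.nbrs a) nx pv ∧
      (∀ b, Φ.adj a b → Φ.face a b (nx b) ∧ det3 (Φ.v a) (Φ.v b) (Φ.v (nx b)) = 1) ∧
      ∀ b c, Φ.adj a b → Φ.adj a c → b ≠ c → det3 (Φ.v a) (Φ.v b) (Φ.v c) = 0 →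
        ∃ s t : K, 0 < s ∧ Φ.v c = (-s) • Φ.v b + t • Φ.v a

-- deps: WALL
def S_FRB : Prop :=
  ∀ (K V : Type) [Field K] [LinearOrder K] [IsStrictOrderedRing K] [Fintype V] [DecidableEq V]
    (Φ : HFan K V),
    (∀ a b c, Φ.face a b c → ∀ x, FinB (Φ.v a) (Φ.v b) (Φ.v c) x → Φ.FinF {a, b, c} x) ∧
    (∀ s ∈ Φ.F, Φ.FinRel s s) ∧
    (∀ s ∈ Φ.F, ∀ s' ∈ Φ.F, Φ.FinRel s s' → Φ.FinRel s' s) ∧
    (∀ s ∈ Φ.F, ∀ s' ∈ Φ.F, Φ.FinRel s s' → ∀ x, Φ.FinF s' x → Φ.FinF s x) ∧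
    (∀ s ∈ Φ.F, ∀ x y z, Φ.FinF s x → Φ.FinF s y → Φ.FinF s z → Fi (det3 x y z)) ∧
    (∀ s ∈ Φ.F, ∀ u : Fm K, ∀ r : K, (∀ i ∈ s, BO (u (Φ.v i)) r) → ∀ x, Φ.FinF s x → BO (u x) r) ∧
    (∀ a b c : V3 K, ∀ s ∈ Φ.F, (∀ i ∈ s, FinB a b c (Φ.v i)) →
      ∀ x, Φ.FinF s x → FinB a b c x) ∧
    (∀ a b c : V3 K, 1 ≤ |det3 a b c| → ∀ s ∈ Φ.F, ∀ s' ∈ Φ.F, Φ.FinF s a → Φ.FinF s b →
      Φ.FinF s c → Φ.FinF s' a → Φ.FinF s' b → Φ.FinF s' c → Φ.FinRel s s') ∧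
    (∀ a b k l, Φ.face a b k → Φ.face a b l → k ≠ l →
      (Φ.WallFin a b ↔ Φ.FinRel {a, b, k} {a, b, l})) ∧
    (∀ a b, ∀ r : K, 0 < r → Φ.v b = (-r) • Φ.v a → r = 1)

-- deps: WALL
def S_WREL : Prop :=
  ∀ (K V I : Type) [Field K] [LinearOrder K] [IsStrictOrderedRing K] [Fintype V] [DecidableEq V]
    [Fintype I] [DecidableEq I] (P : HP K V I),
    (∀ a b k l, P.face a b k → P.face a b l → k ≠ l →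
      P.v k + P.v l + P.m3 a a b • P.v a + P.m3 a b b • P.v b = 0 ∧
      (∀ x : V → K, P.mu (P.cl x) (P.D a) (P.D b) =
        x k + x l + P.m3 a a b * x a + P.m3 a b b * x b)) ∧
    (∀ a b, P.adj a b → 0 < P.mu P.H (P.D a) (P.D b)) ∧
    (∀ a, 0 < P.mu P.H P.H (P.D a)) ∧
    (∀ a b, P.adj a b → (P.WallFin a b ↔ Fi (P.m3 a a b) ∧ Fi (P.m3 a b b)))

-- deps: WALL PATH WREL
def S_PD1 : Prop :=
  ∀ (K V I : Type) [Field K] [LinearOrder K] [IsStrictOrderedRing K] [Fintype V] [DecidableEq V]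
    [Fintype I] [DecidableEq I] (P : HP K V I) (x : I → K),
    (∀ a b, P.adj a b → P.mu x (P.D a) (P.D b) = 0) → x = 0

-- deps: PATH FRB WREL
def S_FINC : Prop :=
  ∀ (K V I : Type) [Field K] [LinearOrder K] [IsStrictOrderedRing K] [Fintype V] [DecidableEq V]
    [Fintype I] [DecidableEq I] (P : HP K V I), P.FIN → Std P.c3

-- deps: UNIQ
def S_DETB : Prop :=
  ∀ (K V : Type) [Field K] [LinearOrder K] [IsStrictOrderedRing K] [Fintype V] [DecidableEq V]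
    (Φ : HFan K V) (u : Fm K) (lam : K) (a b c : V), 0 < lam → Φ.InP u lam → Φ.Tight u lam a →
    Φ.Tight u lam b → Φ.Tight u lam c → Fi (det3 (Φ.v a) (Φ.v b) (Φ.v c))

-- deps:
def S_PIVOT : Prop :=
  ∀ (K V : Type) [Field K] [LinearOrder K] [IsStrictOrderedRing K] [Fintype V] [DecidableEq V]
    (Φ : Fan K V) (x : V3 K) (u : Fm K) (lam : K) (a b c : V), Φ.Generic x →
    Φ.Good x u lam a b c →
    (∃ t : V → K, (∀ i, 0 ≤ t i) ∧ (∃ i, t i ≠ 0) ∧ ∑ i, t i • Φ.v i = 0 ∧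
      ∀ i, t i ≠ 0 → Φ.Tight u lam i) ∨
    ∃ a' b' c', Φ.Good x u lam a' b' c' ∧ ∃ k : Fm K, k (Φ.v a') = 1 ∧ k (Φ.v b') = 1 ∧
      k (Φ.v c') = 1 ∧ ∀ i, Φ.Tight u lam i → 1 ≤ k (Φ.v i)

-- deps: FRB DETB PIVOT
def S_LP1 : Prop :=
  ∀ (K V : Type) [Field K] [LinearOrder K] [IsStrictOrderedRing K] [Fintype V] [DecidableEq V]
    (Φ : HFan K V) (s : Finset V) (x : V3 K), s ∈ Φ.F → Φ.InOpen s x → Φ.Generic x →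
    ∃ (lam : K) (u : Fm K) (a b c : V) (t : V → K), 0 < lam ∧ Φ.InP u lam ∧
      Φ.Good x u lam a b c ∧ Φ.Rel lam s u ∧ (∀ i, 0 ≤ t i) ∧ (∃ i, t i ≠ 0) ∧
      ∑ i, t i • Φ.v i = 0 ∧ ∀ i, t i ≠ 0 → Φ.Tight u lam i

-- deps: GEN LP1
def S_LP : Prop :=
  ∀ (K V : Type) [Field K] [LinearOrder K] [IsStrictOrderedRing K] [Fintype V] [DecidableEq V]
    (Φ : HFan K V), Nonempty (LPD Φ.toFan)

-- deps: FRB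
def S_EQV : Prop :=
  ∀ (K V : Type) [Field K] [LinearOrder K] [IsStrictOrderedRing K] [Fintype V] [DecidableEq V]
    (Φ : HFan K V) (lam : K) (u u' : Fm K), Φ.Eqv lam u u' → ∀ s ∈ Φ.F, ∀ s' ∈ Φ.F,
    Φ.Rel lam s u → Φ.Rel lam s' u' →
    Φ.FinRel s s' ∧ ∀ x, Φ.FinF s x → BO (u x - u' x) lam

-- deps: PATH FRB
def S_CROSSP : Prop :=
  ∀ (K V : Type) [Field K] [LinearOrder K] [IsStrictOrderedRing K] [Fintype V] [DecidableEq V]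
    (Φ : HFan K V) (l : Fm K), l ≠ 0 →
    (∀ a b, (l (Φ.v a) ≠ 0 ∨ l (Φ.v b) ≠ 0) → Φ.WallFin a b) → Φ.FIN ∨ Φ.TP l

-- deps: GEN FRB EQV CROSSP
def S_STR2 : Prop :=
  ∀ (K V : Type) [Field K] [LinearOrder K] [IsStrictOrderedRing K] [Fintype V] [DecidableEq V]
    (Φ : HFan K V) (D : LPD Φ.toFan) (a b : V), D.t a ≠ 0 → D.t b ≠ 0 →
    detL (Φ.v a) (Φ.v b) ≠ 0 → Φ.FIN ∨ ∃ l, Φ.TP l

-- deps:
def S_AXS : Prop :=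
  ∀ (K : Type) [Field K] [LinearOrder K] [IsStrictOrderedRing K] (U : Set (Fm K)) (e y0 : V3 K)
    (s : Fm K), U.Finite → U.Nonempty → (∀ u ∈ U, ∀ u' ∈ U, u e = u' e) → detL e y0 ≠ 0 →
    s ≠ 0 → s e = 0 → s y0 = 0 →
    ∃ uL ∈ U, (∀ u ∈ U, u y0 ≤ uL y0) ∧ (∀ u ∈ U, u y0 = uL y0 → ∃ c : K, 0 ≤ c ∧ uL = u + c • s) ∧
      ∀ r t : K, 0 < r → ∀ w : V3 K, 0 < s w → ∃ δ0 : K, 0 < δ0 ∧ ∀ δ, 0 < δ → δ < δ0 →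
        SMax U (r • y0 + t • e + δ • w) uL

-- deps: UNIQ
def S_TOP : Prop :=
  ∀ (K V : Type) [Field K] [LinearOrder K] [IsStrictOrderedRing K] [Fintype V] [DecidableEq V]
    (Φ : Fan K V) (N S : V), Φ.v S = - Φ.v N →
    ¬ Φ.adj N S ∧ N ≠ S ∧
    (∀ y0 : V3 K, detL (Φ.v N) y0 ≠ 0 → Φ.Str (Φ.v N) y0 →
      (∃ y, Φ.InJ N y ∧ ∃ r t : K, 0 < r ∧ Φ.v y = r • y0 + t • Φ.v N) ∧
      ∃ y, Φ.adj S y ∧ ∃ r t : K, 0 < r ∧ Φ.v y = r • y0 + t • Φ.v N) ∧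
    (∀ y, Φ.adj N y → Φ.adj S y → Φ.InJ N y) ∧
    (∀ y y', Φ.adj N y → Φ.adj N y' → InH (Φ.v N) (Φ.v y) (Φ.v y') → y = y') ∧
    (∀ y0 : V3 K, detL (Φ.v N) y0 ≠ 0 → ¬ Φ.Str (Φ.v N) y0 → ∀ s : Fm K, s ≠ 0 → s (Φ.v N) = 0 →
      s y0 = 0 → ∃ s0 ∈ Φ.F, ∃ r t : K, 0 < r ∧ ∃ w w' : V3 K, 0 < s w ∧ s w' < 0 ∧
        ∀ δ : K, 0 < δ → Φ.InOpen s0 (r • y0 + t • Φ.v N + δ • w) ∧
          Φ.InOpen s0 (r • y0 + t • Φ.v N + δ • w'))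

-- deps: GEN FRB EQV AXS TOP
def S_AX1 : Prop :=
  ∀ (K V : Type) [Field K] [LinearOrder K] [IsStrictOrderedRing K] [Fintype V] [DecidableEq V]
    (Φ : HFan K V) (D : LPD Φ.toFan) (N S : V), Φ.v S = - Φ.v N → D.t N ≠ 0 →
    (∀ a b, ¬ Φ.Mer N a b → Φ.WallFin a b) ∧
    ∀ s1 : Fm K, s1 (Φ.v N) = 0 → (∀ y, Φ.InJ N y → s1 (Φ.v y) ≤ 0) →
      ∀ y y' u u', 0 < s1 y → 0 < s1 y' → SMax D.U y u → SMax D.U y' u' → Φ.Eqv D.lam u u'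

-- deps: WALL LINK FRB EQV AXS TOP SL
def S_AX2 : Prop :=
  ∀ (K V : Type) [Field K] [LinearOrder K] [IsStrictOrderedRing K] [Fintype V] [DecidableEq V]
    (Φ : HFan K V) (D : LPD Φ.toFan) (N S y1 : V) (s1 : Fm K), Φ.v S = - Φ.v N → D.t N ≠ 0 →
    D.t S ≠ 0 → (∀ a b, ¬ Φ.Mer N a b → Φ.WallFin a b) → Φ.InJ N y1 →
    (s1 = detL (Φ.v N) (Φ.v y1) ∨ s1 = - detL (Φ.v N) (Φ.v y1)) →
    (∀ y, Φ.InJ N y → s1 (Φ.v y) ≤ 0) →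
    (∀ y y' u u', 0 < s1 y → 0 < s1 y' → SMax D.U y u → SMax D.U y' u' → Φ.Eqv D.lam u u') →
    ∀ a b, (s1 (Φ.v a) ≠ 0 ∨ s1 (Φ.v b) ≠ 0) → Φ.WallFin a b

-- deps: UNIQ FRB LP STR2 AX1 AX2 CROSSP
def S_STRUCT : Prop :=
  ∀ (K V : Type) [Field K] [LinearOrder K] [IsStrictOrderedRing K] [Fintype V] [DecidableEq V]
    (Φ : HFan K V), Φ.FIN ∨ (∃ l, Φ.TP l) ∨ ∃ N S, Φ.TA N S

end Pool.Agent.P.MP_33ab4b_ag.T
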