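import Pool.Agent.P.MP_33ab4b_ag.T.IfaceP
import Pool.Agent.P.MP_33ab4b_ag.T.IfaceF

/-! Step AXU. -/

set_option autoImplicit false

namespace Pool.Agent.P.MP_33ab4b_ag.T

open scoped Classical

namespace AXUx

variable {K V : Type} [Field K] [LinearOrder K] [IsStrictOrderedRing K] [Fintype V] [DecidableEq V]
  {Φ : Fan K V}

theorem det3_lin (a b x y : V3 K) (s t : K) :
    det3 a b (s • x + t • y) = s * det3 a b x + t * det3 a b y := by
  simp only [det3, Pi.add_apply, Pi.smul_apply, smul_eq_mul]; ring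

theorem rep2 {a b : V} (h : Φ.adj a b) {s t : K} (hs : 0 ≤ s) (ht : 0 ≤ t) :
    ∃ r, Φ.IsRep (s • Φ.v a + t • Φ.v b) r ∧ r a = s ∧ ∀ c, c ≠ a → c ≠ b → r c = 0 := by
  obtain ⟨hab, f, hf, ha, hb⟩ := h
  refine ⟨Pi.single a s + Pi.single b t, ⟨?_, ⟨f, hf, ?_⟩, ?_⟩, ?_, ?_⟩
  · intro c
    simp only [Pi.add_apply, Pi.single_apply]
    split_ifs <;> linarith
  · intro c hc
    have h1 : c ≠ a := by rintro rfl; exact hc ha
    have h2 : c ≠ b := by rintro rfl; exact hc hb
    simp [Pi.single_apply, h1, h2]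
  · simp [add_smul, Finset.sum_add_distrib, Pi.single_apply, ite_smul]
  · simp [Pi.single_apply, hab]
  · intro c h1 h2
    simp [Pi.single_apply, h1, h2]

theorem half {a N S : V} (hN : Φ.adj a N) (hS : Φ.adj a S) (e : Φ.v S = - Φ.v N) {s : K}
    (hs : 0 ≤ s) (t : K) :
    ∃ r, Φ.IsRep (s • Φ.v a + t • Φ.v N) r ∧ r a = s ∧ ∀ c, c ≠ a → c ≠ N → c ≠ S → r c = 0 := by
  rcases le_total 0 t with ht | ht
  · obtain ⟨r, h1, h2, h3⟩ := rep2 hN hs ht
    exact ⟨r, h1, h2, fun c x y _ => h3 c x y⟩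
  · obtain ⟨r, h1, h2, h3⟩ := rep2 hS hs (neg_nonneg.mpr ht)
    refine ⟨r, ?_, h2, fun c x _ z => h3 c x z⟩
    rw [e] at h1
    simpa using h1

theorem plane {a N : V} (h : Φ.adj a N) {p : V3 K} (hp : det3 (Φ.v N) (Φ.v a) p = 0) :
    ∃ s t : K, p = s • Φ.v a + t • Φ.v N := by
  obtain ⟨c, hc⟩ := h.exists_face
  have hd := hc.det_ne
  have h0 : det3 (Φ.v a) (Φ.v N) p = 0 := by rw [det3_swap12, hp, neg_zero]
  have cr := cramer (Φ.v a) (Φ.v N) (Φ.v c) p
  rw [h0, zero_smul, add_zero] at cr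
  refine ⟨(det3 (Φ.v a) (Φ.v N) (Φ.v c))⁻¹ * det3 p (Φ.v N) (Φ.v c),
    (det3 (Φ.v a) (Φ.v N) (Φ.v c))⁻¹ * det3 (Φ.v a) p (Φ.v c), ?_⟩
  rw [mul_smul, mul_smul, ← smul_add, ← cr, smul_smul, inv_mul_cancel₀ hd, one_smul]

/-- A point of the open half plane has its representation on the three vertices. -/
theorem key (hU : ∀ x t t', Φ.IsRep x t → Φ.IsRep x t' → t = t') {l : Fm K} {a a' N S : V}
    (hN : Φ.adj a' N) (hS : Φ.adj a' S) (e : Φ.v S = - Φ.v N) (lN : l (Φ.v N) = 0)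
    (la' : 0 < l (Φ.v a')) (la : 0 < l (Φ.v a)) (ne : a ≠ a') {p : V3 K}
    (hp : det3 (Φ.v N) (Φ.v a') p = 0) (lp : 0 ≤ l p) {r : V → K} (hr : Φ.IsRep p r) : r a = 0 := by
  obtain ⟨s, t, rfl⟩ := plane hN hp
  have hs : 0 ≤ s := by
    simp only [map_add, map_smul, smul_eq_mul, lN, mul_zero, add_zero] at lp
    exact nonneg_of_mul_nonneg_left lp la'
  obtain ⟨r', h1, _, h3⟩ := half hN hS e hs t
  rw [hU _ _ _ hr h1]
  refine h3 a ne ?_ ?_
  · rintro rfl; exact la.ne' lN
  · rintro rfl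
    rw [e, map_neg, lN, neg_zero] at la
    exact lt_irrefl _ la

theorem v_ne {a b : V} (h : Φ.adj a b) : Φ.v b ≠ 0 := by
  obtain ⟨c, hc⟩ := h.exists_face
  intro e
  have := hc.det_ne
  rw [e] at this
  exact this (by simp [det3])

end AXUx

theorem p_AXU (hUNIQ : S_UNIQ) :
    S_AXU := by
  intro K V I _ _ _ _ _ _ _ P G
  obtain ⟨hU, -, hR⟩ := hUNIQ K V P.toFan
  refine ⟨?_, ?_⟩
  · rintro a a' N S N' S' ne la la' ⟨hN, -, e⟩ ⟨hN', -, e'⟩ aN aS aN' aS'
    have lN := (G.memX N).mp hN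
    have lN' := (G.memX N').mp hN'
    by_cases hd : det3 (P.v N') (P.v a') (P.v N) = 0
    · obtain ⟨s, t, h⟩ := AXUx.plane aN' hd
      have hs : s = 0 := by
        have := congrArg G.l h
        simp only [map_add, map_smul, smul_eq_mul, lN, lN', mul_zero, add_zero] at this
        rcases mul_eq_zero.mp this.symm with h0 | h0
        · exact h0
        · exact absurd h0 la'.ne'
      rw [hs, zero_smul, zero_add] at h
      rcases lt_trichotomy t 0 with ht | ht | ht
      · have h1 : N' = S := hR N' S (-t) (neg_pos.mpr ht) (by rw [e, h, neg_smul])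
        refine Or.inr ⟨h1, ?_⟩
        refine (hR N S' 1 one_pos ?_).symm
        rw [e', h1, e, neg_neg, one_smul]
      · exact absurd (by rw [h, ht, zero_smul]) (AXUx.v_ne aN)
      · have h1 : N' = N := hR N' N t ht h
        refine Or.inl ⟨h1, ?_⟩
        refine (hR S S' 1 one_pos ?_).symm
        rw [e', h1, e, one_smul]
    · exfalso
      obtain ⟨r, h1, h2, -⟩ := AXUx.half aN aS e (zero_le_one (α := K))
        (- det3 (P.v N') (P.v a') (P.v a) / det3 (P.v N') (P.v a') (P.v N))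
      have := AXUx.key hU aN' aS' e' lN' la' la ne
        (by rw [AXUx.det3_lin]; field_simp; ring) (by simpa [lN] using la.le) h1
      rw [h2] at this
      exact one_ne_zero this
  · rintro a a' N S ne la la' ⟨hN, -, e⟩ aN' aS' aN
    have lN := (G.memX N).mp hN
    refine ⟨?_, ?_⟩
    · intro hd
      obtain ⟨r, h1, h2, -⟩ := AXUx.rep2 aN (zero_le_one (α := K)) (le_refl (0 : K))
      have := AXUx.key hU aN' aS' e lN la' la ne
        (by rw [AXUx.det3_lin, hd]; ring) (by simpa using la.le) h1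
      rw [h2] at this
      exact one_ne_zero this
    · intro x hx ax
      have lx := (G.memX x).mp hx
      by_contra hneg
      rw [not_le] at hneg
      obtain ⟨r, h1, h2, -⟩ := AXUx.rep2 ax (abs_nonneg (det3 (P.v N) (P.v a') (P.v x)))
        (abs_nonneg (det3 (P.v N) (P.v a') (P.v a)))
      have := AXUx.key hU aN' aS' e lN la' la ne
        (by
          rw [AXUx.det3_lin]
          rcases mul_neg_iff.mp hneg with ⟨h3, h4⟩ | ⟨h3, h4⟩
          · rw [abs_of_pos h3, abs_of_neg h4]; ring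
          · rw [abs_of_neg h3, abs_of_pos h4]; ring)
        (by
          simp only [map_add, map_smul, smul_eq_mul, lx, mul_zero, add_zero]
          exact mul_nonneg (abs_nonneg _) la.le) h1
      rw [h2, abs_eq_zero] at this
      rw [this, mul_zero] at hneg
      exact lt_irrefl _ hneg

end Pool.Agent.P.MP_33ab4b_ag.T
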