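import Pool.Agent.P.MP_33ab4b_ag.T.IfaceA
import Pool.Agent.P.MP_33ab4b_ag.Jc

/-! Step BIN. -/

set_option autoImplicit false

namespace Pool.Agent.P.MP_33ab4b_ag.T

open scoped Classical

theorem p_BIN :
    S_BIN := by
  intro K _ _ _ L _ _ mu n H x k h
  have h1 := bin_sum (fun a b c => mu ((n ^ a) H) ((n ^ b) x) ((n ^ c) x)) (2 * k)
    (fun a b c e => by simpa only [rho, pow_succ', Module.End.mul_apply] using h a b c e)
    (2 * k) 0 0 (by omega)
  simpa using h1

end Pool.Agent.P.MP_33ab4b_ag.T
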