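import Pool.Agent.P.MP_33ab4b_ag.T.IfaceT

/-! Step CR. -/

set_option autoImplicit false

namespace Pool.Agent.P.MP_33ab4b_ag.T

open scoped Classical

namespace CRx

variable {K V I : Type} [Field K] [LinearOrder K] [IsStrictOrderedRing K] [Fintype V]
  [DecidableEq V] [Fintype I] [DecidableEq I] {P : HP K V I} (T : TAG P)

theorem nx_ne {j : V} (hj : j ∈ T.J) : T.nx j ≠ j := by
  intro h
  have := T.cyc.pos j hj
  rw [h, det3_self23] at this
  exact lt_irrefl _ this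

theorem pv_ne {j : V} (hj : j ∈ T.J) : T.pv j ≠ j := by
  intro h
  have h1 := (T.cyc.mem j hj).2.2.2
  rw [h] at h1
  exact nx_ne T hj h1

theorem side {j j' : V} (hj : j ∈ T.J) (h : j' = T.nx j ∨ j' = T.pv j) : j' ∈ T.J ∧ j' ≠ j := by
  rcases h with rfl | rfl
  · exact ⟨(T.cyc.mem j hj).1, nx_ne T hj⟩
  · exact ⟨(T.cyc.mem j hj).2.1, pv_ne T hj⟩

/-- An edge with an end that sees the ray `j` lies in one of the two sectors at `j`. -/
theorem sec {a b j : V} (h : P.adj a b) (ha : 0 < T.be j a) :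
    ∃ j', (j' = T.nx j ∨ j' = T.pv j) ∧ (∀ k, k ≠ j → k ≠ j' → T.be k a = 0) ∧
      ∀ k, k ≠ j → k ≠ j' → T.be k b = 0 := by
  obtain ⟨-, s, hs, h1, h2⟩ := h
  obtain ⟨i, hi, h3⟩ := T.fsec s hs
  by_cases e : j = i
  · subst e
    exact ⟨T.nx j, Or.inl rfl, h3 a h1, h3 b h2⟩
  · have e2 : j = T.nx i := by
      by_contra e2
      exact ha.ne' (h3 a h1 j e e2)
    subst e2
    exact ⟨i, Or.inr (T.cyc.mem i hi).2.2.1.symm, fun k k1 k2 => h3 a h1 k k2 k1,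
      fun k k1 k2 => h3 b h2 k k2 k1⟩

theorem inn {i j j' : V} (hi : i ∈ T.In) (h : ∀ k, k ≠ j → k ≠ j' → T.be k i = 0) :
    0 < T.be j i ∧ 0 < T.be j' i := by
  obtain ⟨l, hl, -, h1, h2⟩ := T.beI i hi
  have hne := nx_ne T hl
  have e1 : l = j ∨ l = j' := by
    by_contra e
    exact h1.ne' (h l (fun t => e (Or.inl t)) fun t => e (Or.inr t))
  have e2 : T.nx l = j ∨ T.nx l = j' := by
    by_contra e
    exact h2.ne' (h _ (fun t => e (Or.inl t)) fun t => e (Or.inr t))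
  rcases e1 with e1 | e1 <;> rcases e2 with e2 | e2
  · exact absurd (e2.trans e1.symm) hne
  · exact ⟨e1 ▸ h1, e2 ▸ h2⟩
  · exact ⟨e2 ▸ h2, e1 ▸ h1⟩
  · exact absurd (e2.trans e1.symm) hne

theorem dn_mem {y : V} (hy : y ∈ T.C) (h : T.dn y ∈ T.C) :
    T.ch (T.dn y) = T.ch y ∧ T.up (T.dn y) = y := by
  rcases (T.dnC y hy).2 with e | e
  · exact absurd (e ▸ h) T.NC.2.1
  · exact e.2

theorem be_pos {y j : V} (hy : y ∈ T.C) (h : T.ch y = j) : 0 < T.be j y := h ▸ (T.beC y hy).1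

/-- The slope decreases down the chain. -/
theorem slope_dn {y j : V} (hy : y ∈ T.C) (hj : T.ch y = j) (h : T.dn y ∈ T.C) :
    T.et (T.dn y) / T.be j (T.dn y) < T.et y / T.be j y := by
  have h1 := T.detdn y hy
  rw [hj] at h1
  rw [div_lt_div_iff₀ (be_pos T h ((dn_mem T hy h).1.trans hj)) (be_pos T hy hj)]
  linarith

theorem iter {j : V} (hj : j ∈ T.J) : ∀ y ∈ T.C, T.ch y = j →
    ∃ n : ℕ, y = T.dn^[n] j ∧ ∀ m ≤ n, T.dn^[m] j ∈ T.C ∧ T.ch (T.dn^[m] j) = j := by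
  refine T.chind _ j hj ⟨0, rfl, fun m hm => ?_⟩ ?_
  · obtain rfl : m = 0 := by omega
    exact T.JC j hj
  · rintro y hy hc ⟨n, e, h⟩ hd
    refine ⟨n + 1, by rw [Function.iterate_succ_apply', ← e], fun m hm => ?_⟩
    rcases hm.lt_or_eq with h1 | rfl
    · exact h m (by omega)
    · rw [Function.iterate_succ_apply', ← e]
      exact ⟨hd, (dn_mem T hy hd).1.trans hc⟩

theorem slope_iter {j : V} {n : ℕ} (h : ∀ m ≤ n, T.dn^[m] j ∈ T.C ∧ T.ch (T.dn^[m] j) = j)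
    {m : ℕ} : ∀ k, m < k → k ≤ n →
      T.et (T.dn^[k] j) / T.be j (T.dn^[k] j) < T.et (T.dn^[m] j) / T.be j (T.dn^[m] j) := by
  intro k hk
  induction k, hk using Nat.le_induction with
  | base =>
    intro hn
    have h1 := (h _ hn).1
    rw [Function.iterate_succ_apply'] at h1 ⊢
    exact slope_dn T (h m (by omega)).1 (h m (by omega)).2 h1
  | succ k hk ih =>
    intro hn
    have h1 := (h _ hn).1
    rw [Function.iterate_succ_apply'] at h1 ⊢
    exact (slope_dn T (h k (by omega)).1 (h k (by omega)).2 h1).trans (ih (by omega))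

/-- Two different vertices of a chain. -/
theorem two {j y y' : V} (hj : j ∈ T.J) (hy : y ∈ T.C) (hy' : y' ∈ T.C) (hc : T.ch y = j)
    (hc' : T.ch y' = j) (hne : y' ≠ y) (hle : T.et y' / T.be j y' ≤ T.et y / T.be j y) :
    T.et y' / T.be j y' < T.et y / T.be j y ∧ T.dn y ∈ T.C ∧ y' ∉ T.J ∧ T.Red j := by
  obtain ⟨n, e, h⟩ := iter T hj y hy hc
  obtain ⟨n', e', h'⟩ := iter T hj y' hy' hc'
  have hlt : n < n' := by
    rcases lt_trichotomy n n' with t | t | t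
    · exact t
    · exact absurd (by rw [e, e', t]) hne
    · have := slope_iter T h n t le_rfl
      rw [← e, ← e'] at this
      exact absurd hle (not_le.2 this)
  refine ⟨?_, ?_, fun t => ?_, fun t => ?_⟩
  · have := slope_iter T h' n' hlt le_rfl
    rwa [← e, ← e'] at this
  · have := (h' (n + 1) hlt).1
    rwa [Function.iterate_succ_apply', ← e] at this
  · have h1 := slope_iter T h' (m := 0) n' (by omega) le_rfl
    rw [← e', ← hc', (T.JC y' t).2] at h1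
    exact lt_irrefl _ h1
  · have h1 := (h' 1 (by omega)).1
    have h2 := (T.botC j hj).2.2.1
    rw [t] at h2
    exact T.NC.2.1 (h2 ▸ h1)

variable {T} (A : TAA T)

theorem f_cl {y : V} (hy : y ∈ T.C) (g : V → K) :
    A.f y (P.cl g) = g (T.up y) + g (T.dn y) - (T.cy y : K) * g y := by
  rw [P.form_cl]
  simp only [A.fD y hy, mul_sub, mul_add, mul_ite, mul_one, mul_zero, Finset.sum_sub_distrib,
    Finset.sum_add_distrib, Finset.sum_ite_eq', Finset.mem_univ, if_true]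
  ring

theorem f_B {y : V} (hy : y ∈ T.C) {b : I → K} (hb : b ∈ T.B) : A.f y b = 0 := by
  have : T.B ≤ LinearMap.ker (A.f y) := by
    refine Submodule.span_le.2 ?_
    rintro _ ⟨j, -, rfl⟩
    rw [SetLike.mem_coe, LinearMap.mem_ker, TAG.Bj, f_cl A hy]
    by_cases e : j = T.ch y
    · rw [e, ← Rat.cast_add, (T.cyb y hy).1, Rat.cast_mul, sub_self]
    · have h1 : T.be j (T.up y) = 0 := by
        rcases (T.upC y hy).2 with t | t
        · rw [t]; exact (T.beN j).1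
        · exact (T.beC _ t.1).2 j (t.2.1 ▸ e)
      have h2 : T.be j (T.dn y) = 0 := by
        rcases (T.dnC y hy).2 with t | t
        · rw [t]; exact (T.beN j).2
        · exact (T.beC _ t.1).2 j (t.2.1 ▸ e)
      simp [h1, h2, (T.beC y hy).2 j e]
  exact this hb

/-- A vertex with nonzero fibre number has an active neighbour on each side. -/
theorem active {y j j' : V} (hj : j ∈ T.J) (hs : j' = T.nx j ∨ j' = T.pv j) (hy : y ∈ T.C)
    (hc : T.ch y = j) {x : I → K} (h : A.f y x ≠ 0) :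
    ∃ k, 0 < T.be j' k ∧ P.mu x (P.D y) (P.D k) ≠ 0 := by
  have om0 : ∀ i ∈ T.J, (1 : K) / (T.om i : K) ≠ 0 := fun i hi =>
    one_div_ne_zero (T.omdef i hi ▸ (T.cyc.pos i hi).ne')
  have hq : T.q (T.Bj j') (T.Bj j) ≠ 0 := by
    rcases hs with rfl | rfl
    · rw [TAG.q, P.mu12]
      exact fun t => om0 j hj ((A.qnx j hj).symm.trans t)
    · have h1 := A.qnx _ (T.cyc.mem j hj).2.1
      rw [(T.cyc.mem j hj).2.2.2] at h1
      exact h1.symm ▸ om0 _ (T.cyc.mem j hj).2.1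
  have h1 := A.BC (T.Bj j') (Submodule.subset_span ⟨j', (side T hj hs).1, rfl⟩) y hy
  have h2 : P.mu (T.Bj j') (P.D y) x ≠ 0 := by
    rw [h1, hc, LinearMap.smul_apply, smul_eq_mul]
    exact mul_ne_zero hq h
  rw [TAG.Bj, P.mu_cl] at h2
  obtain ⟨k, -, hk⟩ := Finset.exists_ne_zero_of_sum_ne_zero h2
  refine ⟨k, lt_of_le_of_ne (T.be_nonneg j' k) fun t => ?_, ?_⟩
  · exact left_ne_zero_of_mul hk (by rw [← t, Rat.cast_zero])
  · rw [P.mu13]
    exact right_ne_zero_of_mul hk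

theorem adj_of {a k : V} {x : I → K} (h : P.mu x (P.D a) (P.D k) ≠ 0) (hne : a ≠ k) : P.adj a k := by
  by_contra t
  exact h (P.nadj hne t x)

/-- The coefficients vanish from the top down to the first vertex with nonzero fibre number. -/
theorem down {j : V} (hj : j ∈ T.J) {c : V → K} (hc : ∀ a, (a = T.N ∨ a = T.S ∨ a ∈ T.J) → c a = 0)
    (R : V → Prop) (hR : ∀ y ∈ T.C, T.ch y = j → T.dn y ∈ T.C → R (T.dn y) →
      R y ∧ A.f y (P.cl c) = 0) : ∀ y ∈ T.C, T.ch y = j → R y → c y = 0 := by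
  intro y hy h1 h2
  refine (T.chind (fun y => R y → c y = 0 ∧ c (T.up y) = 0) j hj (fun _ => ?_) ?_ y hy h1 h2).1
  · refine ⟨hc j (Or.inr (Or.inr hj)), hc _ (Or.inl ?_)⟩
    exact (T.upN j (T.JC j hj).1).2 (T.JC j hj).2.symm
  · intro y hy h1 ih hd h2
    obtain ⟨h3, h4⟩ := hR y hy h1 hd h2
    obtain ⟨h5, h6⟩ := ih h3
    rw [f_cl A hy, h5, h6] at h4
    rw [(dn_mem T hy hd).2]
    exact ⟨by simpa using h4, h5⟩

theorem main (hCR0 : S_CR0) {x x' : I → K} {c : V → K} (hz : A.z x = 0)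
    (hf : ∀ y ∈ T.C, A.f y x = A.f y x')
    (hN : ∀ a k, a ≠ T.N → ¬ P.adj T.N a → ¬ P.adj T.N k → P.mu x (P.D a) (P.D k) = 0)
    (hS : ∀ a k, a ≠ T.S → ¬ P.adj T.S a → ¬ P.adj T.S k → P.mu x' (P.D a) (P.D k) = 0)
    (hc : ∀ a, (a = T.N ∨ a = T.S ∨ a ∈ T.J) → c a = 0)
    (hx : ∀ y ∈ T.C, A.f y x = A.f y (P.cl c)) {j : V} (hj : j ∈ T.J) (h : A.XiCh x j) :
    T.q T.Phi (T.Bj j) = 0 ∧ ∃ y1 ∈ T.C, T.ch y1 = j ∧
      (∀ y ∈ T.C, T.ch y = j → c y ≠ 0 → T.be j y1 * T.et y < T.be j y * T.et y1) ∧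
      ∀ j', (j' = T.nx j ∨ j' = T.pv j) → P.adj y1 j' ∧ ¬ T.Red j' := by
  obtain ⟨y1, hy1, hmax⟩ := Finset.exists_max_image
    (T.C.filter fun y => T.ch y = j ∧ A.f y x ≠ 0) (fun y => T.et y / T.be j y) (by
      obtain ⟨y, h1, h2⟩ := h
      exact ⟨y, Finset.mem_filter.2 ⟨h1, h2⟩⟩)
  obtain ⟨a1, a2, a3⟩ := Finset.mem_filter.1 hy1
  obtain ⟨y2, b1, b2, b3, b4⟩ : ∃ y2 ∈ T.C, T.ch y2 = j ∧ A.f y2 x ≠ 0 ∧ y2 ≠ y1 := by
    by_contra t
    have h1 := A.fsum j hj x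
    rw [hz, Finset.sum_eq_single y1] at h1
    · exact mul_ne_zero (Rat.cast_ne_zero.2 (be_pos T a1 a2).ne') a3 h1
    · intro y hy hne
      rw [Finset.mem_filter] at hy
      by_contra t2
      exact t ⟨y, hy.1, hy.2, right_ne_zero_of_mul t2, hne⟩
    · intro t2
      exact absurd (Finset.mem_filter.2 ⟨a1, a2⟩) t2
  obtain ⟨c1, c2, c3, -⟩ := two T hj a1 b1 a2 b2 b4 (hmax y2 (Finset.mem_filter.2 ⟨b1, b2, b3⟩))
  have n1 : y2 ≠ T.N := fun t => T.NC.1 (t ▸ b1)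
  have n2 : ¬ P.adj T.N y2 := fun t => (T.adjN _ t).elim c3 (T.disj _ b1)
  have s1 : y1 ≠ T.S := fun t => T.NC.2.1 (t ▸ a1)
  have s2 : ¬ P.adj T.S y1 := fun t =>
    (T.adjS _ t).elim (fun u => T.NC.2.1 (u.2 ▸ c2)) (T.disj _ a1)
  have nk : ∀ k, P.mu x (P.D y2) (P.D k) ≠ 0 → P.adj T.N k ∧ P.adj y2 k := fun k hk => by
    have h1 : P.adj T.N k := by
      by_contra t
      exact hk (hN _ _ n1 n2 t)
    exact ⟨h1, adj_of hk fun t => n2 (t ▸ h1)⟩
  have key : ∀ j', (j' = T.nx j ∨ j' = T.pv j) → (P.adj y1 j' ∧ ¬ T.Red j') ∧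
      P.mu x (P.D y2) (P.D j') ≠ 0 ∧
      ∀ k, 0 < T.be j' k → P.mu x (P.D y2) (P.D k) ≠ 0 → k = j' := by
    intro j' hs
    obtain ⟨k1, d1, d2⟩ := active A hj hs a1 a2 (hf y1 a1 ▸ a3)
    have d3 : P.adj T.S k1 := by
      by_contra t
      exact d2 (hS _ _ s1 s2 t)
    have d4 : P.adj y1 k1 := adj_of d2 fun t => s2 (t ▸ d3)
    have d5 : ∀ k, 0 < T.be j' k → P.mu x (P.D y2) (P.D k) ≠ 0 → k1 = k := fun k e1 e2 =>
      (hCR0 K V I P T j hj j' (side T hj hs).1 hs).1 y1 a1 y2 b1 a2 b2 c1 k1 k d1 e1 d4 d3.symm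
        (nk k e2).2 (nk k e2).1.symm
    obtain ⟨k2, e1, e2⟩ := active A hj hs b1 b2 b3
    obtain rfl := d5 k2 e1 e2
    obtain ⟨g1, g2⟩ := T.both k1 (nk k1 e2).1 d3
    obtain rfl : j' = k1 := by
      by_contra t
      exact d1.ne' ((T.beJ k1 g1).2.2 j' t)
    exact ⟨⟨d4, fun t => t g2⟩, e2, fun k u1 u2 => (d5 k u1 u2).symm⟩
  refine ⟨A.qPhi j hj ?_, y1, a1, a2, fun y g1 g2 g3 => ?_, fun j' hs => (key j' hs).1⟩
  · have h1 := P.LR (P.mu x (P.D y2)) (detL (P.v (T.pv j)) (P.v j))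
    rw [Finset.sum_eq_single (T.nx j)] at h1
    · exact (mul_eq_zero.1 h1).resolve_right (key _ (Or.inl rfl)).2.1
    · intro k _ hk
      by_cases t : P.mu x (P.D y2) (P.D k) = 0
      · rw [t, mul_zero]
      · have z1 : ∀ j', (j' = T.nx j ∨ j' = T.pv j) → k ≠ j' → T.be j' k = 0 := fun j' hs hne => by
          by_contra u
          exact hne ((key j' hs).2.2 k (lt_of_le_of_ne (T.be_nonneg _ _) (Ne.symm u)) t)
        by_cases u : k = T.pv j
        · simp [u]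
        · obtain ⟨j', hs, -, z2⟩ := sec T (nk k t).2 (be_pos T b1 b2)
          have z3 : T.be j' k = 0 := z1 j' hs (by rcases hs with rfl | rfl; exacts [hk, u])
          rcases T.adjN k (nk k t).1 with w | w
          · obtain rfl : k = j := by
              by_contra w2
              have w3 := (T.beJ k w).1
              by_cases w4 : k = j'
              · rw [← w4, w3] at z3
                exact one_ne_zero z3
              · rw [z2 k w2 w4] at w3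
                exact zero_ne_one w3
            simp
          · exact absurd z3 (inn T w z2).2.ne'
    · intro t
      exact absurd (Finset.mem_univ _) t
  · by_contra t
    refine g3 (down A hj hc (fun y => T.et y1 / T.be j y1 ≤ T.et y / T.be j y) ?_ y g1 g2 ?_)
    · intro y g1 g2 g4 g5
      have g6 := g5.trans_lt (slope_dn T g1 g2 g4)
      refine ⟨g6.le, ?_⟩
      rw [← hx y g1]
      by_contra u
      exact absurd (hmax y (Finset.mem_filter.2 ⟨g1, g2, u⟩)) (not_le.2 g6)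
    · rw [div_le_div_iff₀ (be_pos T a1 a2) (be_pos T g1 g2)]
      linarith [not_lt.1 t]

end CRx

theorem p_CR (hCR0 : S_CR0) :
    S_CR := by
  intro K V I _ _ _ _ _ _ _ P T A x x' ψ c hz hf hN hS hψ hc hx
  have hx' : ∀ y ∈ T.C, A.f y x = A.f y (P.cl c) := fun y hy => by
    rw [hx, map_add, CRx.f_B A hy hψ, zero_add]
  have M := fun j (hj : j ∈ T.J) (h : A.XiCh x j) => CRx.main A hCR0 hz hf hN hS hc hx' hj h
  have G2 : ∀ y ∈ T.C, ¬ A.XiCh x (T.ch y) → c y = 0 := fun y hy h =>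
    CRx.down A (T.chJ y hy) hc (fun _ => True) (fun w w1 w2 _ _ => ⟨trivial, by
      rw [← hx' w w1]
      by_contra t
      exact h ⟨w, w1, w2, t⟩⟩) y hy rfl trivial
  have G2' : ∀ y ∈ T.C, c y ≠ 0 → A.XiCh x (T.ch y) := fun y hy h => by
    by_contra t
    exact h (G2 y hy t)
  choose! Y Y1 Y2 Y3 Y4 using fun j hj h => (M j hj h).2
  have chs : ∀ y ∈ T.C, ∀ j j', (∀ k, k ≠ j → k ≠ j' → T.be k y = 0) → T.ch y = j ∨ T.ch y = j' := by
    intro y hy j j' h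
    by_contra t
    exact (T.beC y hy).1.ne' (h _ (fun u => t (Or.inl u)) fun u => t (Or.inr u))
  refine ⟨fun j hj h => (M j hj h).1, G2, fun y hy y' hy' h1 h2 h3 h4 => ?_,
    T.In.filter fun i => ∃ j ∈ T.J, A.XiCh x j ∧ 0 < T.be j i ∧
      T.be j (Y j) * T.et i < T.be j i * T.et (Y j), Finset.filter_subset _ _, ?_, ?_, ?_, ?_⟩
  · obtain ⟨j', hs, -, z⟩ := CRx.sec T h4 (T.beC y hy).1
    rcases chs y' hy' _ _ z with e | e
    · exact h3 (e ▸ G2' y hy h1)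
    · exact (Y4 _ (T.chJ y hy) (G2' y hy h1) j' hs).2 (e ▸ h2)
  · intro i hi hn i' hi' hadj
    obtain ⟨-, j, hj, h1, h2, h3⟩ := Finset.mem_filter.1 hi'
    obtain ⟨j', hs, z1, z2⟩ := CRx.sec T hadj.symm h2
    obtain ⟨p1, p2⟩ := CRx.inn T hi z2
    have C := hCR0 K V I P T j hj j' (CRx.side T hj hs).1 hs
    have a := (Y4 j hj h1 j' hs).1
    refine C.2.1 _ (Y1 j hj h1) (Y2 j hj h1) a i' i hadj.symm z1 z2 (Or.inl h2) (Or.inr p2) ⟨h3, ?_⟩
    refine lt_of_le_of_ne (not_lt.1 fun t => hn (Finset.mem_filter.2 ⟨hi, j, hj, h1, p1, t⟩)) ?_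
    exact (C.2.2 _ (Y1 j hj h1) (Y2 j hj h1) a i z2 p1 p2).symm
  · intro i hi hn y hy hadj
    by_contra hcy
    have hj := T.chJ y hy
    have h1 := G2' y hy hcy
    obtain ⟨j', hs, z1, z2⟩ := CRx.sec T hadj.symm (T.beC y hy).1
    obtain ⟨p1, p2⟩ := CRx.inn T hi z2
    have C := hCR0 K V I P T _ hj j' (CRx.side T hj hs).1 hs
    have a := (Y4 _ hj h1 j' hs).1
    refine C.2.1 _ (Y1 _ hj h1) (Y2 _ hj h1) a y i hadj.symm z1 z2 (Or.inr p1) (Or.inr p2)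
      ⟨Y3 _ hj h1 y hy rfl hcy, ?_⟩
    refine lt_of_le_of_ne (not_lt.1 fun t => hn (Finset.mem_filter.2 ⟨hi, _, hj, h1, p1, t⟩)) ?_
    exact (C.2.2 _ (Y1 _ hj h1) (Y2 _ hj h1) a i z2 p1 p2).symm
  · intro i hi hadj
    obtain ⟨h0, j, hj, h1, h2, h3⟩ := Finset.mem_filter.1 hi
    obtain ⟨j', hs, z1, z2⟩ := CRx.sec T hadj.symm h2
    refine (hCR0 K V I P T j hj j' (CRx.side T hj hs).1 hs).2.1 _ (Y1 j hj h1) (Y2 j hj h1)
      (Y4 j hj h1 j' hs).1 i T.N hadj.symm z1 z2 (Or.inl h2) (Or.inl (CRx.inn T h0 z1).2) ⟨h3, ?_⟩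
    rw [(T.beN j).1, T.etN.1, zero_mul, mul_one]
    exact CRx.be_pos T (Y1 j hj h1) (Y2 j hj h1)
  · intro i hi y hy hadj
    obtain ⟨-, j, hj, h1, h2, -⟩ := Finset.mem_filter.1 hi
    obtain ⟨j', hs, -, z⟩ := CRx.sec T hadj h2
    rcases chs y hy _ _ z with e | e
    · exact Or.inl (e ▸ h1)
    · exact Or.inr (e ▸ (Y4 j hj h1 j' hs).2)

end Pool.Agent.P.MP_33ab4b_ag.T
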