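import Pool.Agent.P.MP_33ab4b_ag.T.IfaceT
import Pool.Agent.P.MP_33ab4b_ag.T.IfaceF
import Pool.Agent.P.MP_33ab4b_ag.T.CrAux

/-! Step CR0. -/

set_option autoImplicit false

namespace Pool.Agent.P.MP_33ab4b_ag.T

open scoped Classical

theorem p_CR0 (hUNIQ : S_UNIQ) :
    S_CR0 := by
  intro K V I _ _ _ _ _ _ _ P T j hj j' hj' hjj
  have hne := (T.toTA0.cr_nb hj hjj).2
  have hC : ∀ y ∈ T.C, T.ch y = j → 0 < T.be j y ∧ T.be j' y = 0 ∧
      ∀ i, i ≠ j → i ≠ j' → T.be i y = 0 := by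
    intro y hy e
    have := T.beC y hy
    rw [e] at this
    exact ⟨this.1, this.2 _ hne, fun i h _ => this.2 i h⟩
  have hN : ∀ i, i ≠ j → i ≠ j' → T.be i T.N = 0 := fun i _ _ => (T.beN i).1
  have hS : ∀ i, i ≠ j → i ≠ j' → T.be i T.S = 0 := fun i _ _ => (T.beN i).2
  have hJ : ∀ i, i ≠ j → i ≠ j' → T.be i j' = 0 := fun i _ h => (T.beJ j' hj').2.2 i h
  have hJ1 : T.be j' j' = 1 := (T.beJ j' hj').1
  have hJ2 : T.et j' = 0 := (T.beJ j' hj').2.1
  have hJ3 : T.be j j' = 0 := (T.beJ j' hj').2.2 j hne.symm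
  refine ⟨?_, ?_, ?_⟩
  · intro y1 hy1 y2 hy2 e1 e2 hlt k1 k2 q1 q2 a1 a1S a2 a2N
    obtain ⟨p1, z1, s1⟩ := hC y1 hy1 e1
    obtain ⟨p2, z2, s2⟩ := hC y2 hy2 e2
    have t1 := (T.toTA0.cr_pair a1 hne (Or.inl p1) (Or.inr q1)).2.2
    have t2 := (T.toTA0.cr_pair a2 hne (Or.inl p2) (Or.inr q2)).2.2
    rw [div_lt_div_iff₀ p2 p1] at hlt
    have n1 : k1 ≠ y2 := by rintro rfl; exact q1.ne' z2
    have n2 : k2 ≠ y1 := by rintro rfl; exact q2.ne' z1
    set D := T.be j' k2 * T.be j k1 - T.be j' k1 * T.be j k2 with hD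
    set E := T.be j' k2 * T.et k1 - T.be j' k1 * T.et k2 with hE
    set Δ := T.et y1 * T.be j y2 - T.et y2 * T.be j y1 with hΔ
    have hΔ0 : 0 < Δ := by rw [hΔ]; linarith
    have cross : 0 ≤ D * T.et y2 - T.be j y2 * E → 0 ≤ T.et y1 * D - T.be j y1 * E → k1 = k2 := by
      intro c1 c2
      have := T.toTA0.cr_crossQ hUNIQ hj hj' hne s1 t1 s2 t2 a1 a2
        (r := D * T.et y2 - T.be j y2 * E) (s := Δ * T.be j' k2)
        (r' := T.et y1 * D - T.be j y1 * E) (s' := Δ * T.be j' k1) c1 (by positivity) c2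
        (by positivity) (by rw [hΔ, hD]; ring) (by rw [z1, z2]; ring) (by rw [hΔ, hE]; ring)
      exact this.resolve_left n1
    rcases le_total 0 D with hD0 | hD0
    · by_cases hc : D * T.et y2 ≤ T.be j y2 * E
      · have := T.toTA0.cr_crossQ hUNIQ hj hj' hne hS t1 s2 t2 a1S.symm a2
          (r := T.be j y2 * E - D * T.et y2) (s := T.be j y2 * T.be j' k2)
          (r' := D) (s' := T.be j y2 * T.be j' k1) (by linarith) (by positivity) hD0
          (by positivity) (by rw [(T.beN j).2, hD]; ring) (by rw [(T.beN j').2, z2]; ring)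
          (by rw [T.etN.2, hE]; ring)
        exact this.resolve_left n1
      · push Not at hc
        refine cross (by linarith) ?_
        have : 0 ≤ T.be j y2 * (T.et y1 * D - T.be j y1 * E) := by
          have h1 := mul_nonneg hD0 hΔ0.le
          have h2 := mul_lt_mul_of_pos_left hc p1
          rw [hΔ] at h1
          nlinarith
        exact (mul_nonneg_iff_of_pos_left p2).mp this
    · by_cases hc : T.et y1 * D ≤ T.be j y1 * E
      · have := T.toTA0.cr_crossQ hUNIQ hj hj' hne hN t2 s1 t1 a2N.symm a1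
          (r := T.be j y1 * E - T.et y1 * D) (s := T.be j y1 * T.be j' k1)
          (r' := - D) (s' := T.be j y1 * T.be j' k2) (by linarith) (by positivity) (by linarith)
          (by positivity) (by rw [(T.beN j).1, hD]; ring) (by rw [(T.beN j').1, z1]; ring)
          (by rw [T.etN.1, hE]; ring)
        exact (this.resolve_left n2).symm
      · push Not at hc
        refine cross ?_ (by linarith)
        have : 0 ≤ T.be j y1 * (D * T.et y2 - T.be j y2 * E) := by
          have h1 := mul_nonneg (neg_nonneg.mpr hD0) hΔ0.le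
          have h2 := mul_lt_mul_of_pos_left hc p2
          rw [hΔ] at h1
          nlinarith
        exact (mul_nonneg_iff_of_pos_left p1).mp this
  · rintro y1 hy1 e1 ad a b hab sa sb h1 h2 ⟨fa, fb⟩
    obtain ⟨p1, z1, s1⟩ := hC y1 hy1 e1
    set Fa := T.be j a * T.et y1 - T.be j y1 * T.et a with hFa
    set Fb := T.be j y1 * T.et b - T.be j b * T.et y1 with hFb
    have ha0 : 0 < Fa := by rw [hFa]; linarith
    have hb0 : 0 < Fb := by rw [hFb]; linarith
    have n1 := T.be_nonneg j a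
    have n2 := T.be_nonneg j b
    have n3 := T.be_nonneg j' a
    have n4 := T.be_nonneg j' b
    have := T.toTA0.cr_crossQ hUNIQ hj hj' hne sa sb s1 hJ hab ad
      (r := T.be j y1 * Fb) (s := T.be j y1 * Fa) (r' := Fb * T.be j a + Fa * T.be j b)
      (s' := T.be j y1 * (Fb * T.be j' a + Fa * T.be j' b)) (by positivity) (by positivity)
      (by positivity) (by positivity) (by rw [hJ3]; ring) (by rw [z1, hJ1]; ring)
      (by rw [hJ2, hFa, hFb]; ring)
    rcases this with rfl | rfl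
    · linarith
    · rw [hJ3, hJ2] at fb
      simp at fb
  · intro y1 hy1 e1 ad a sa h1 h2 heq
    obtain ⟨p1, z1, s1⟩ := hC y1 hy1 e1
    obtain ⟨b, hb⟩ := cr_exists_adj P.toFan a
    have sb := (T.toTA0.cr_pair hb hne (Or.inr h1) (Or.inr h2)).2.1
    have := T.toTA0.cr_crossQ hUNIQ hj hj' hne sb sa s1 hJ hb ad
      (r := 0) (s := T.be j y1) (r' := T.be j a) (s' := T.be j y1 * T.be j' a) le_rfl p1 h1.le
      (by positivity) (by rw [hJ3]; ring) (by rw [z1, hJ1]; ring) (by rw [hJ2]; linarith)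
    rcases this with rfl | rfl
    · exact h2.ne' z1
    · exact h1.ne' hJ3

end Pool.Agent.P.MP_33ab4b_ag.T
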