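import Pool.Agent.P.MP_33ab4b_ag.T.IfaceF
import Pool.Agent.P.MP_33ab4b_ag.T.LpB

/-! Step CROSSP. -/

set_option autoImplicit false

namespace Pool.Agent.P.MP_33ab4b_ag.T

open scoped Classical

theorem p_CROSSP (hPATH : S_PATH) (hFRB : S_FRB) :
    S_CROSSP := by
  intro K V _ _ _ _ _ Φ l hl hw
  obtain ⟨-, f2, f3, f4, -, -, -, -, f9, -⟩ := hFRB K V Φ
  by_cases hs : Φ.StrPlane l
  · exact Or.inr ⟨hs, hw⟩
  left
  have : ∃ a b, Φ.adj a b ∧ 0 < l (Φ.v a) ∧ l (Φ.v b) < 0 := by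
    by_contra hn
    exact hs ⟨hl, fun a b h h' => hn ⟨a, b, h, h'⟩⟩
  obtain ⟨a, b, hab, ha, hb⟩ := this
  obtain ⟨c, f⟩ := hab.exists_face
  have hc := neg_abs_le (l (Φ.v c))
  have hc0 := abs_nonneg (l (Φ.v c))
  have op := lp_inOpen Φ.toFan f (r := (|l (Φ.v c)| + 1) / l (Φ.v a))
    (s := (|l (Φ.v c)| + 1 + l (Φ.v c)) / (- l (Φ.v b))) (t := 1) (div_pos (by linarith) ha)
    (div_pos (by linarith) (by linarith)) one_pos
  set ξ := ((|l (Φ.v c)| + 1) / l (Φ.v a)) • Φ.v a +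
    ((|l (Φ.v c)| + 1 + l (Φ.v c)) / (- l (Φ.v b))) • Φ.v b + (1 : K) • Φ.v c with hξ
  have l0 : l ξ = 0 := by
    rw [hξ]
    simp only [map_add, map_smul, smul_eq_mul]
    have := ha.ne'
    have := hb.ne
    field_simp
    ring
  have key := hPATH K V Φ.toFan (fun s => Φ.FinRel {a, b, c} s) _ ξ f op (f2 _ f) (by
    intro x y k m fk fm hkm hd q
    have hd' : det3 (Φ.v x) (Φ.v y) ξ ≠ 0 := fun h0 => by rw [h0, mul_zero] at hd; exact hd.false
    have hne : l (Φ.v x) ≠ 0 ∨ l (Φ.v y) ≠ 0 := by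
      by_contra hn
      push Not at hn
      exact hl (form_ext hd' (by simpa using hn.1) (by simpa using hn.2) (by simpa using l0))
    have r := (f9 x y m k fm fk hkm.symm).1 (hw x y hne)
    exact fun i hi => f4 _ f _ fm q _ (r i hi))
  intro x y k m fk fm
  exact f4 _ fk _ f (f3 _ f _ fk (key _ fk)) _ (key _ fm m (by simp)) x y k rfl

end Pool.Agent.P.MP_33ab4b_ag.T
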