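import Pool.Agent.P.MP_33ab4b_ag.T.IfaceT
import Pool.Agent.P.MP_33ab4b_ag.T.IfaceA
import Pool.Agent.P.MP_33ab4b_ag.T.IfaceF

/-! Step DEF0. -/

set_option autoImplicit false

namespace Pool.Agent.P.MP_33ab4b_ag.T

open scoped Classical

namespace DEF0x

variable {K V I : Type} [Field K] [LinearOrder K] [IsStrictOrderedRing K] [Fintype V]
  [DecidableEq V] [Fintype I] [DecidableEq I] {P : HP K V I} (T : TAG P)

theorem nx_ne {j : V} (hj : j ∈ T.J) : T.nx j ≠ j := by
  intro h
  have := T.cyc.pos j hj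
  rw [h] at this
  simp at this

/-- The value of a form killing the axis on a vertex of a sector. -/
theorem form_sec {j b : V} (hj : j ∈ T.J) (hb : ∀ i, i ≠ j → i ≠ T.nx j → T.be i b = 0)
    (u : Fm K) (hu : u (P.v T.N) = 0) :
    u (P.v b) = (T.be j b : K) * u (P.v j) + (T.be (T.nx j) b : K) * u (P.v (T.nx j)) := by
  have hn : T.nx j ∈ T.J := (T.cyc.mem j hj).1
  have e := congrArg u (T.coord b)
  rw [map_add, map_smul, map_sum] at e
  have e2 : u (P.v b) = ∑ i ∈ T.J, (T.be i b : K) * u (P.v i) := by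
    have hu' : u (P.toHFan.v T.N) = 0 := hu
    rw [hu'] at e
    simpa using e
  rw [e2]
  refine Finset.sum_eq_add_of_mem j (T.nx j) hj hn (nx_ne T hj).symm ?_
  intro i _ hi
  rw [hb i hi.1 hi.2]
  simp

/-- A set of interior vertices closed under passing to neighbours other than poles is empty. -/
theorem closed_empty (hLINK : S_LINK) (Z : Finset V) (hZ : ∀ a ∈ Z, a ∈ T.In)
    (hc : ∀ a ∈ Z, ∀ b, P.adj a b → (∀ i ∈ T.J, T.be i b = 0) ∨ b ∈ Z) : Z = ∅ := by
  by_contra hne
  obtain ⟨a0, ha0⟩ := Finset.nonempty_iff_ne_empty.mpr hne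
  obtain ⟨j, hj, hs0, hp0, hq0⟩ := T.beI a0 (hZ a0 ha0)
  have hn : T.nx j ∈ T.J := (T.cyc.mem j hj).1
  have hne' := nx_ne T hj
  obtain ⟨a, ha, hmax⟩ := Finset.exists_max_image
    (Z.filter fun a => (∀ i, i ≠ j → i ≠ T.nx j → T.be i a = 0) ∧ 0 < T.be j a ∧
      0 < T.be (T.nx j) a) (fun a => T.be j a / T.be (T.nx j) a)
    ⟨a0, Finset.mem_filter.mpr ⟨ha0, hs0, hp0, hq0⟩⟩
  obtain ⟨haZ, hs, hp, hq⟩ := Finset.mem_filter.mp ha
  obtain ⟨u, huN, huj, hun⟩ := exists_form (T.cyc.pos j hj).ne' 0 1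
    (-((T.be j a / T.be (T.nx j) a : ℚ) : K))
  have hu0 : u ≠ 0 := by
    intro h
    rw [h] at huj
    simp at huj
  have val : ∀ b, (∀ i, i ≠ j → i ≠ T.nx j → T.be i b = 0) →
      u (P.v b) = ((T.be j b - T.be (T.nx j) b * (T.be j a / T.be (T.nx j) a) : ℚ) : K) := by
    intro b hb
    have huj' : u (P.v j) = 1 := huj
    have hun' : u (P.v (T.nx j)) = -((T.be j a / T.be (T.nx j) a : ℚ) : K) := hun
    rw [form_sec T hj hb u huN, huj', hun']
    push_cast
    ring
  have hua : u (P.v a) = 0 := by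
    rw [val a hs, mul_div_cancel₀ _ hq.ne']
    simp
  obtain ⟨b, hab, hub⟩ := (hLINK K V P.toFan a).1 u hu0 hua
  have hsb : ∀ i, i ≠ j → i ≠ T.nx j → T.be i b = 0 := by
    obtain ⟨_, s, hsF, has, hbs⟩ := hab
    obtain ⟨j', _, hj'⟩ := T.fsec s hsF
    have h1 : j = j' ∨ j = T.nx j' := by
      by_contra h
      push Not at h
      exact hp.ne' (hj' a has j h.1 h.2)
    have h2 : T.nx j = j' ∨ T.nx j = T.nx j' := by
      by_contra h
      push Not at h
      exact hq.ne' (hj' a has _ h.1 h.2)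
    intro i hi1 hi2
    refine hj' b hbs i ?_ ?_
    · rcases h1 with h1 | h1
      · exact h1 ▸ hi1
      · rcases h2 with h2 | h2
        · exact h2 ▸ hi2
        · exact absurd (h2.trans h1.symm) hne'
    · rcases h1 with h1 | h1
      · exact h1 ▸ hi2
      · exact h1 ▸ hi1
  rw [val b hsb] at hub
  have hub' : 0 < T.be j b - T.be (T.nx j) b * (T.be j a / T.be (T.nx j) a) := by
    exact_mod_cast hub
  rcases hc a haZ b hab with h | h
  · rw [h j hj, h _ hn] at hub'
    simp at hub'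
  · obtain ⟨k, hk, _, hp1, hq1⟩ := T.beI b (hZ b h)
    have hk' := nx_ne T hk
    have h1 : k = j ∨ k = T.nx j := by
      by_contra h
      push Not at h
      exact hp1.ne' (hsb k h.1 h.2)
    have h2 : T.nx k = j ∨ T.nx k = T.nx j := by
      by_contra h
      push Not at h
      exact hq1.ne' (hsb _ h.1 h.2)
    have h3 : 0 < T.be j b ∧ 0 < T.be (T.nx j) b := by
      rcases h1 with h1 | h1
      · exact h1 ▸ ⟨hp1, hq1⟩
      · rcases h2 with h2 | h2
        · exact ⟨h2 ▸ hq1, h1 ▸ hp1⟩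
        · exact absurd (h2.trans h1.symm) hk'
    have := hmax b (Finset.mem_filter.mpr ⟨h, hsb, h3.1, h3.2⟩)
    rw [div_le_iff₀ h3.2] at this
    linarith

end DEF0x

theorem p_DEF0 (hZAR : S_ZAR) (hLINK : S_LINK) (hWREL : S_WREL) :
    S_DEF0 := by
  intro K V I _ _ _ _ _ _ _ P T A w hw h0
  obtain ⟨c, hc, rfl⟩ := P.mem_sp.mp hw
  have hc' : ∀ a, a ∉ T.In → c a = 0 := fun a ha => hc a (by simpa using ha)
  have hW := (hWREL K V I P).2.1
  set M : V → V → K := fun a b => P.mu P.H (P.D a) (P.D b) with hM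
  set n : V → K := fun a => ∑ j ∈ T.J, (T.be j a : K) with hn
  have be0 : ∀ j a, (0 : K) ≤ (T.be j a : K) := fun j a => by exact_mod_cast T.be_nonneg j a
  have n0 : ∀ a, 0 ≤ n a := fun a => Finset.sum_nonneg fun j _ => be0 j a
  have M0 : ∀ a b, a ≠ b → 0 ≤ M a b := by
    intro a b hab
    by_cases h : P.adj a b
    · exact (hW a b h).le
    · exact (P.nadj hab h _).ge
  have npos : ∀ a ∈ T.In, 0 < n a := by
    intro a ha
    obtain ⟨j, hj, _, hp, _⟩ := T.beI a ha
    exact Finset.sum_pos' (fun i _ => be0 i a) ⟨j, hj, by exact_mod_cast hp⟩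
  have hB : P.cl n ∈ T.B := by
    have e : P.cl n = ∑ j ∈ T.J, T.Bj j := by
      simp only [TAG.Bj, HP.cl, hn, Finset.sum_smul]
      exact Finset.sum_comm
    rw [e]
    exact sum_mem fun j hj => Submodule.subset_span ⟨j, by simpa using hj, rfl⟩
  have tot : ∀ a ∈ T.In, ∑ b ∈ T.In, M a b * n b + ∑ b ∈ T.Inᶜ, M a b * n b = 0 := by
    intro a ha
    rw [Finset.sum_add_sum_compl]
    have e : P.mu (P.cl n) (P.D a) P.H = 0 := by rw [A.BI _ hB a ha]; rfl
    rw [P.mu_cl] at e
    rw [← e]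
    refine Finset.sum_congr rfl fun b _ => ?_
    rw [hM, mul_comm, P.mu13 (P.D b)]
  have out0 : ∀ a ∈ T.In, ∀ b ∈ T.Inᶜ, 0 ≤ M a b * n b := by
    intro a ha b hb
    refine mul_nonneg (M0 a b ?_) (n0 b)
    rintro rfl
    exact (Finset.mem_compl.mp hb) ha
  have hq : ∑ a ∈ T.In, ∑ b ∈ T.In, c a * M a b * c b = 0 := by
    rw [← h0, P.form_cl]
    symm
    rw [← Finset.sum_subset (Finset.subset_univ T.In)
      (fun b _ hb => by rw [hc' b hb, zero_mul]), Finset.sum_comm]
    refine Finset.sum_congr rfl fun b _ => ?_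
    rw [P.mu23, P.form_cl, ← Finset.sum_subset (Finset.subset_univ T.In)
      (fun a _ ha => by rw [hc' a ha, zero_mul]), Finset.mul_sum]
    refine Finset.sum_congr rfl fun a _ => ?_
    rw [hM, P.mu23 P.H (P.D b)]
    ring
  obtain ⟨_, z2, z3⟩ := (hZAR K V T.In M n (fun a _ b _ => P.mu23 _ _ _)
    (fun a _ b _ hab => M0 a b hab) npos (fun a ha => by
      have := tot a ha
      have := Finset.sum_nonneg (out0 a ha)
      linarith) c).2 hq
  have hZ := DEF0x.closed_empty T hLINK (T.In.filter fun a => c a ≠ 0)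
    (fun a ha => (Finset.mem_filter.mp ha).1) (by
      intro a ha b hab
      obtain ⟨haI, hca⟩ := Finset.mem_filter.mp ha
      have hMp : 0 < M a b := hW a b hab
      by_cases hb : b ∈ T.In
      · right
        refine Finset.mem_filter.mpr ⟨hb, fun hcb => hca ?_⟩
        have := z2 a haI b hb hMp.ne'
        rw [hcb, zero_div, div_eq_zero_iff] at this
        exact this.resolve_right (npos a haI).ne'
      · left
        have e1 : ∑ b ∈ T.In, M a b * n b = 0 := by
          by_contra h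
          exact hca (z3 a haI h)
        have e2 : ∑ b ∈ T.Inᶜ, M a b * n b = 0 := by
          have := tot a haI
          linarith
        have e3 := (Finset.sum_eq_zero_iff_of_nonneg (out0 a haI)).mp e2 b
          (Finset.mem_compl.mpr hb)
        have e4 : n b = 0 := (mul_eq_zero.mp e3).resolve_left hMp.ne'
        intro i hi
        have := (Finset.sum_eq_zero_iff_of_nonneg (fun j _ => be0 j b)).mp e4 i hi
        exact_mod_cast this)
  have : c = 0 := by
    funext a
    by_contra h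
    by_cases ha : a ∈ T.In
    · have : a ∈ T.In.filter fun a => c a ≠ 0 := Finset.mem_filter.mpr ⟨ha, h⟩
      rw [hZ] at this
      simp at this
    · exact h (hc' a ha)
  rw [this, P.cl_zero]

end Pool.Agent.P.MP_33ab4b_ag.T
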