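import Pool.Agent.P.MP_33ab4b_ag.T.IfaceM
import Pool.Agent.P.MP_33ab4b_ag.T.IfaceF

/-! Step DEG. -/

set_option autoImplicit false

namespace Pool.Agent.P.MP_33ab4b_ag.T

open scoped Classical

section gen

variable {K V : Type} [Field K] [LinearOrder K] [IsStrictOrderedRing K] [Fintype V] [DecidableEq V]

/-- The sum of the rays opposite to the pair `a, b`. -/
noncomputable def degW (Φ : Fan K V) (a b : V) : V3 K := ∑ c, if Φ.face a b c then Φ.v c else 0

theorem degW_comm (Φ : Fan K V) (a b : V) : degW Φ a b = degW Φ b a := by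
  refine Finset.sum_congr rfl fun c _ => ?_
  have : Φ.face a b c ↔ Φ.face b a c := ⟨Fan.face.swap12, Fan.face.swap12⟩
  simp only [this]

theorem degW_eq (Φ : Fan K V) {a b k l : V} (hkl : k ≠ l) (hk : Φ.face a b k) (hl : Φ.face a b l)
    (h : ∀ c, Φ.face a b c → c = k ∨ c = l) : degW Φ a b = Φ.v k + Φ.v l := by
  rw [degW, ← Finset.sum_subset (Finset.subset_univ ({k, l} : Finset V)), Finset.sum_pair hkl,
    if_pos hk, if_pos hl]
  intro c _ hc
  rw [if_neg]
  intro hf
  exact hc (by simpa using h c hf)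

theorem deg_A (hWALL : S_WALL) (Φ : Fan K V) (Z : Subring K) (hv : ∀ a i, Φ.v a i ∈ Z) :
    ∃ A : V → V → K, (∀ a b, A a b ∈ Z) ∧ (∀ a b, ¬ Φ.adj a b → A a b = 0) ∧
      ∀ a b, Φ.adj a b → degW Φ a b + A a b • Φ.v a + A b a • Φ.v b = 0 := by
  have h1 : ∀ a b, ∃ α : K, α ∈ Z ∧ (¬ Φ.adj a b → α = 0) ∧
      (Φ.adj a b → ∃ β : K, degW Φ a b + α • Φ.v a + β • Φ.v b = 0) := by
    intro a b
    by_cases hab : Φ.adj a b
    · obtain ⟨k, l, hkl, hk, hl, dk, dl, hu⟩ := hWALL K V Φ a b hab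
      refine ⟨- det3 (Φ.v l) (Φ.v b) (Φ.v k), Z.neg_mem (det3_mem Z (hv l) (hv b) (hv k)),
        fun h => absurd hab h, fun _ => ⟨- det3 (Φ.v a) (Φ.v l) (Φ.v k), ?_⟩⟩
      have hc := cramer (Φ.v a) (Φ.v b) (Φ.v k) (Φ.v l)
      rw [dk, dl, one_smul] at hc
      rw [degW_eq Φ hkl hk hl hu]
      linear_combination (norm := module) hc
    · exact ⟨0, Z.zero_mem, fun _ => rfl, fun h => absurd h hab⟩
  choose A hA1 hA2 hA3 using h1
  refine ⟨A, hA1, hA2, fun a b hab => ?_⟩
  obtain ⟨β, hβ⟩ := hA3 a b hab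
  obtain ⟨β', hβ'⟩ := hA3 b a hab.symm
  obtain ⟨c, hc⟩ := hab.exists_face
  rw [degW_comm] at hβ'
  have e : (A a b - β') • Φ.v a + (β - A b a) • Φ.v b = 0 := by
    linear_combination (norm := module) hβ - hβ'
  have e2 := congrArg (detL (Φ.v c) (Φ.v a)) e
  simp only [map_add, map_smul, detL_apply, det3_self23, smul_eq_mul, mul_zero, zero_add,
    map_zero] at e2
  have e3 : β = A b a := by
    have := (mul_eq_zero.1 e2).resolve_right hc.rot.rot.det_ne
    linarith
  rw [← e3]; exact hβ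

theorem deg_T (hWALL : S_WALL) (hLINK : S_LINK) (Φ : Fan K V) (Z : Subring K)
    (hv : ∀ a i, Φ.v a i ∈ Z) (A : V → V → K) (hZ : ∀ a b, A a b ∈ Z)
    (h0 : ∀ a b, ¬ Φ.adj a b → A a b = 0)
    (hA : ∀ a b, Φ.adj a b → degW Φ a b + A a b • Φ.v a + A b a • Φ.v b = 0) (a : V) :
    ∃ τ ∈ Z, ∑ b, A a b • Φ.v b + τ • Φ.v a = 0 := by
  obtain ⟨-, nx, pv, hc, hf, -⟩ := hLINK K V Φ a
  set W : V3 K := ∑ b, A a b • Φ.v b with hW
  have hWZ : ∀ i, W i ∈ Z := by
    intro i
    rw [hW, Finset.sum_apply]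
    exact Z.sum_mem fun b _ => Z.mul_mem (hZ a b) (hv b i)
  have key : ∀ y : V3 K, det3 y (Φ.v a) W = 0 := by
    intro y
    have s1 : ∀ b ∈ Φ.nbrs a, A a b * det3 y (Φ.v a) (Φ.v b) =
        det3 y (Φ.v b) (Φ.v (nx b)) - det3 y (Φ.v (pv b)) (Φ.v b) := by
      intro b hb
      have hab := Fan.mem_nbrs.1 hb
      obtain ⟨-, hp, -, hnp⟩ := hc.mem b hb
      have f1 := hf b hab
      have f2 := hf (pv b) (Fan.mem_nbrs.1 hp)
      rw [hnp] at f2
      have hne : nx b ≠ pv b := by
        intro e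
        have := f1.2
        rw [e, det3_swap23, f2.2] at this
        norm_num at this
      obtain ⟨k, l, hkl, -, -, -, -, hu⟩ := hWALL K V Φ a b hab
      have hw : degW Φ a b = Φ.v (nx b) + Φ.v (pv b) := by
        refine degW_eq Φ hne f1.1 f2.1.swap23 fun c hc' => ?_
        have u1 := hu _ f1.1
        have u2 := hu _ f2.1.swap23
        have u3 := hu _ hc'
        rcases u1 with e1 | e1 <;> rcases u2 with e2 | e2 <;> rcases u3 with e3 | e3 <;>
          simp_all
      have hr := hA a b hab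
      rw [hw] at hr
      have e2 := congrArg (detL y (Φ.v b)) hr
      simp only [map_add, map_smul, detL_apply, det3_self23, smul_eq_mul, mul_zero, add_zero,
        map_zero] at e2
      rw [det3_swap23 y (Φ.v b) (Φ.v a), det3_swap23 y (Φ.v b) (Φ.v (pv b))]
      linear_combination -e2
    have s2 : ∑ b ∈ Φ.nbrs a, det3 y (Φ.v (pv b)) (Φ.v b) =
        ∑ b ∈ Φ.nbrs a, det3 y (Φ.v b) (Φ.v (nx b)) := by
      refine Finset.sum_nbij' pv nx (fun b hb => (hc.mem b hb).2.1) (fun b hb => (hc.mem b hb).1)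
        (fun b hb => (hc.mem b hb).2.2.2) (fun b hb => (hc.mem b hb).2.2.1) fun b hb => ?_
      rw [(hc.mem b hb).2.2.2]
    have s3 : det3 y (Φ.v a) W = ∑ b ∈ Φ.nbrs a, A a b * det3 y (Φ.v a) (Φ.v b) := by
      rw [← detL_apply, hW, map_sum,
        ← Finset.sum_subset (Finset.subset_univ (Φ.nbrs a)) fun b _ hb => by
          rw [h0 a b fun h => hb (Fan.mem_nbrs.2 h), zero_smul, map_zero]]
      simp
    rw [s3, Finset.sum_congr rfl s1, Finset.sum_sub_distrib, s2, sub_self]
  obtain ⟨b, hb⟩ := hc.ne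
  obtain ⟨-, d1⟩ := hf b (Fan.mem_nbrs.1 hb)
  have hcr := cramer (Φ.v a) (Φ.v b) (Φ.v (nx b)) W
  have k1 : det3 (Φ.v a) W (Φ.v (nx b)) = 0 := by rw [det3_rot, key]
  have k2 : det3 (Φ.v a) (Φ.v b) W = 0 := by rw [det3_swap12, key, neg_zero]
  rw [d1, k1, k2, one_smul, zero_smul, zero_smul, add_zero, add_zero] at hcr
  refine ⟨- det3 W (Φ.v b) (Φ.v (nx b)), Z.neg_mem (det3_mem Z hWZ (hv b) (hv (nx b))), ?_⟩
  linear_combination (norm := module) hcr

theorem deg_K (hWALL : S_WALL) (hLINK : S_LINK) (Φ : Fan K V) (Z : Subring K)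
    (hv : ∀ a i, Φ.v a i ∈ Z) :
    ∃ M : V → V → V → K, (∀ a b c, M a b c ∈ Z) ∧ (∀ a b c, M a b c = M b a c) ∧
      (∀ a b c, M a b c = M a c b) ∧
      (∀ a b c, a ≠ b → a ≠ c → b ≠ c → M a b c = if Φ.face a b c then 1 else 0) ∧
      (∀ a b, a ≠ b → ¬ Φ.adj a b → ∀ c, M a b c = 0) ∧ ∀ b c, ∑ a, M a b c • Φ.v a = 0 := by
  obtain ⟨A, hZ, h0, hA⟩ := deg_A hWALL Φ Z hv
  choose T hTZ hT using deg_T hWALL hLINK Φ Z hv A hZ h0 hA
  have f12 : ∀ a b c, Φ.face a b c ↔ Φ.face b a c := fun a b c =>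
    ⟨Fan.face.swap12, Fan.face.swap12⟩
  have f23 : ∀ a b c, Φ.face a b c ↔ Φ.face a c b := fun a b c =>
    ⟨Fan.face.swap23, Fan.face.swap23⟩
  refine ⟨fun a b c => if a = b then (if a = c then T a else A a c) else if a = c then A a b
    else if b = c then A b a else if Φ.face a b c then 1 else 0, ?_, ?_, ?_, ?_, ?_, ?_⟩
  · intro a b c
    dsimp only
    split_ifs <;> first | exact hTZ _ | exact hZ _ _ | exact Z.one_mem | exact Z.zero_mem
  · intro a b c
    by_cases e1 : a = b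
    · subst e1; rfl
    · by_cases e2 : a = c
      · subst e2; simp [e1, Ne.symm e1]
      · by_cases e3 : b = c
        · subst e3; simp [e1, Ne.symm e1]
        · simp [e1, Ne.symm e1, e2, e3, f12 a b c]
  · intro a b c
    by_cases e1 : a = b
    · subst e1
      by_cases e2 : a = c
      · subst e2; rfl
      · simp [e2]
    · by_cases e2 : a = c
      · subst e2; simp [e1]
      · by_cases e3 : b = c
        · subst e3; rfl
        · simp [e1, e2, e3, Ne.symm e3, f23 a b c]
  · intro a b c e1 e2 e3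
    simp [e1, e2, e3]
  · intro a b e1 hn c
    have hf : ¬ Φ.face a b c := fun h => hn h.adj12
    simp [e1, hf, h0 a b hn, h0 b a fun h => hn h.symm]
  · intro b c
    by_cases e : b = c
    · subst e
      rw [← hT b, ← Finset.add_sum_erase _ _ (Finset.mem_univ b),
        ← Finset.add_sum_erase _ (fun a => A b a • Φ.v a) (Finset.mem_univ b),
        h0 b b (Fan.not_adj_self b), zero_smul, zero_add, add_comm]
      congr 1
      · refine Finset.sum_congr rfl fun a ha => ?_
        simp [(Finset.mem_erase.1 ha).1]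
      · simp
    · have e' : ∀ a, (if a = b then (if a = c then T a else A a c) else if a = c then A a b
          else if b = c then A b a else if Φ.face a b c then 1 else 0) • Φ.v a =
          (if Φ.face b c a then Φ.v a else 0) + (if a = b then A b c • Φ.v b else 0) +
            (if a = c then A c b • Φ.v c else 0) := by
        intro a
        by_cases e1 : a = b
        · subst e1
          have : ¬ Φ.face a c a := fun h => h.ne.2.1 rfl
          simp [e, this]
        · by_cases e2 : a = c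
          · subst e2
            have : ¬ Φ.face b a a := fun h => h.ne.2.2 rfl
            simp [e1, this]
          · have : Φ.face a b c ↔ Φ.face b c a := ⟨Fan.face.rot, fun h => h.rot.rot⟩
            simp [e1, e2, e, this]
      simp only [e', Finset.sum_add_distrib, Finset.sum_ite_eq', Finset.mem_univ, if_true]
      by_cases hbc : Φ.adj b c
      · exact hA b c hbc
      · rw [h0 b c hbc, h0 c b fun h => hbc h.symm, zero_smul, zero_smul, add_zero, add_zero]
        exact Finset.sum_eq_zero fun a _ => if_neg fun h => hbc h.adj12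

end gen

theorem p_DEG (hQFAN : S_QFAN) (_hUNIQ : S_UNIQ) (hWALL : S_WALL) (hLINK : S_LINK) :
    S_DEG := by
  intro m S
  obtain ⟨Φ, hv, hF⟩ := hQFAN m S
  obtain ⟨M, hZ, h1, h2, h3, h4, h5⟩ := deg_K hWALL hLINK Φ (Int.castRingHom ℚ).range
    (fun a i => ⟨S.v a i, (hv a i).symm⟩)
  choose N hN using hZ
  have hN' : ∀ a b c, (N a b c : ℚ) = M a b c := hN
  refine ⟨N, fun a b c => ?_, fun a b c => ?_, fun a b c e1 e2 e3 => ?_, fun a b e hn c => ?_,
    fun i b c => ?_⟩
  · have := h1 a b c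
    rw [← hN', ← hN'] at this
    exact_mod_cast this
  · have := h2 a b c
    rw [← hN', ← hN'] at this
    exact_mod_cast this
  · have := h3 a b c e1 e2 e3
    rw [← hN', Fan.face, hF] at this
    split_ifs at this ⊢ <;> exact_mod_cast this
  · have := h4 a b e (fun h => by
      obtain ⟨-, s, hs, ha, hb⟩ := h
      exact hn s (hF ▸ hs) ⟨ha, hb⟩) c
    rw [← hN'] at this
    exact_mod_cast this
  · have := congrFun (h5 b c) i
    simp only [Finset.sum_apply, Pi.smul_apply, smul_eq_mul, ← hN', hv, Pi.zero_apply] at this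
    have h6 : ((∑ a, S.v a i * N a b c : ℤ) : ℚ) = 0 := by
      push_cast
      rw [← this]
      exact Finset.sum_congr rfl fun a _ => mul_comm _ _
    exact_mod_cast h6

end Pool.Agent.P.MP_33ab4b_ag.T
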