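import Pool.Agent.P.MP_33ab4b_ag.T.LpB

/-! Step DETB. -/

set_option autoImplicit false
set_option linter.unusedSectionVars false

namespace Pool.Agent.P.MP_33ab4b_ag.T

open scoped Classical

section
variable {K V : Type} [Field K] [LinearOrder K] [IsStrictOrderedRing K] [Fintype V] [DecidableEq V]

/-- Hyperintegral points of the half open parallelepiped of a tight triple are small combinations
of rays. -/
theorem detb_small (Φ : HFan K V) (u : Fm K) (lam : K) (a b c : V) (hl : 0 < lam)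
    (hP : Φ.InP u lam) (ha : Φ.Tight u lam a) (hb : Φ.Tight u lam b) (hc : Φ.Tight u lam c)
    (r s t : K) (hr : 0 ≤ r) (hs : 0 ≤ s) (ht : 0 ≤ t) (hsum : r + s + t < 3)
    (hZ : ∀ i, (r • Φ.v a + s • Φ.v b + t • Φ.v c) i ∈ Φ.hf.Z) :
    ∃ n : V → Fin 3, r • Φ.v a + s • Φ.v b + t • Φ.v c = ∑ i, ((n i : ℕ) : K) • Φ.v i := by
  obtain ⟨σ, hσ, w, w0, w1, w2⟩ := Φ.cover (r • Φ.v a + s • Φ.v b + t • Φ.v c)
  obtain ⟨p, q, o, rfl, hf⟩ := Fan.exists_face_eq hσ
  obtain ⟨hpq, hpo, hqo⟩ := hf.ne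
  have e3 : r • Φ.v a + s • Φ.v b + t • Φ.v c = w p • Φ.v p + w q • Φ.v q + w o • Φ.v o := by
    rw [w2, lp_sum3 hpq hpo hqo]
    intro i hi
    simp [w1 i hi]
  obtain ⟨us, hus, hus'⟩ := Φ.conv _ hσ
  have hle : ∀ i, us (Φ.v i) ≤ Φ.h i := fun i => by
    by_cases hi : i ∈ ({p, q, o} : Finset V)
    · exact (hus i hi).le
    · exact (hus' i hi).le
  have e1 := congrArg u e3
  have e2 := congrArg us e3
  simp only [map_add, map_smul, smul_eq_mul] at e1 e2
  rw [hus p (by simp), hus q (by simp), hus o (by simp)] at e2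
  unfold Fan.Tight at ha hb hc
  rw [ha, hb, hc] at e1
  have hw : w p + w q + w o < 3 := by
    have i1 := mul_le_mul_of_nonneg_left (hP p) (w0 p)
    have i2 := mul_le_mul_of_nonneg_left (hP q) (w0 q)
    have i3 := mul_le_mul_of_nonneg_left (hP o) (w0 o)
    have j1 := mul_le_mul_of_nonneg_left (hle a) hr
    have j2 := mul_le_mul_of_nonneg_left (hle b) hs
    have j3 := mul_le_mul_of_nonneg_left (hle c) ht
    have k : lam * (w p + w q + w o) ≤ lam * (r + s + t) := by linarith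
    exact (le_of_mul_le_mul_left k hl).trans_lt hsum
  have hx : ∀ i, (w p • Φ.v p + w q • Φ.v q + w o • Φ.v o) i ∈ Φ.hf.Z := by rwa [← e3]
  have unit : ∀ y : K, y * det3 (Φ.v p) (Φ.v q) (Φ.v o) ∈ Φ.hf.Z → y ∈ Φ.hf.Z := by
    intro y hy
    rcases hf.det with e | e <;> rw [e] at hy
    · simpa using hy
    · simpa using hy
  have mp : w p ∈ Φ.hf.Z := unit _ (by
    rw [← lp_det_comb1 _ _ _ (w p) (w q) (w o)]; exact det3_mem _ hx (Φ.vZ q) (Φ.vZ o))
  have mq : w q ∈ Φ.hf.Z := unit _ (by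
    rw [← lp_det_comb2 _ _ _ (w p) (w q) (w o)]; exact det3_mem _ (Φ.vZ p) hx (Φ.vZ o))
  have mo : w o ∈ Φ.hf.Z := unit _ (by
    rw [← lp_det_comb3 _ _ _ (w p) (w q) (w o)]; exact det3_mem _ (Φ.vZ p) (Φ.vZ q) hx)
  have three : ∀ y : K, y ∈ Φ.hf.Z → 0 ≤ y → y < 3 → ∃ n : Fin 3, y = ((n : ℕ) : K) := by
    intro y hy h0 h3
    rcases h0.eq_or_lt with h | h
    · exact ⟨0, by simp [← h]⟩
    rcases (Φ.hf.disc y hy h).eq_or_lt with h1 | h1
    · exact ⟨1, by simp [← h1]⟩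
    have h2 := Φ.hf.disc (y - 1) (Φ.hf.Z.sub_mem hy Φ.hf.Z.one_mem) (by linarith)
    rcases h2.eq_or_lt with h2 | h2
    · exact ⟨2, by
        have : y = 2 := by linarith
        simp [this]⟩
    have h4 := Φ.hf.disc (y - 1 - 1)
      (Φ.hf.Z.sub_mem (Φ.hf.Z.sub_mem hy Φ.hf.Z.one_mem) Φ.hf.Z.one_mem) (by linarith)
    linarith
  have all : ∀ i, ∃ n : Fin 3, w i = ((n : ℕ) : K) := by
    intro i
    by_cases hi : i ∈ ({p, q, o} : Finset V)
    · have := w0 p; have := w0 q; have := w0 o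
      simp only [Finset.mem_insert, Finset.mem_singleton] at hi
      rcases hi with rfl | rfl | rfl
      · exact three _ mp (w0 _) (by linarith)
      · exact three _ mq (w0 _) (by linarith)
      · exact three _ mo (w0 _) (by linarith)
    · exact ⟨0, by simp [w1 i hi]⟩
  choose n hn using all
  exact ⟨n, by rw [w2]; simp only [hn]⟩

/-- A positive multiple of a hyperintegral point lies in the lattice of a tight basis. -/
theorem detb_mult (Φ : HFan K V) (u : Fm K) (lam : K) (a b c : V) (hl : 0 < lam)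
    (hP : Φ.InP u lam) (ha : Φ.Tight u lam a) (hb : Φ.Tight u lam b) (hc : Φ.Tight u lam c)
    (hd : det3 (Φ.v a) (Φ.v b) (Φ.v c) ≠ 0) (y : V3 K) (hy : ∀ i, y i ∈ Φ.hf.Z) :
    ∃ k : ℤ, k ≠ 0 ∧ ∃ n : V3 K, (∀ i, n i ∈ Φ.hf.Z) ∧
      (k : K) • y = n 0 • Φ.v a + n 1 • Φ.v b + n 2 • Φ.v c := by
  obtain ⟨r, s, t, e⟩ : ∃ r s t : K, y = r • Φ.v a + s • Φ.v b + t • Φ.v c :=
    ⟨_, _, _, lp_coord hd y⟩
  choose fl flZ fl1 fl2 using Φ.hf.flo
  have key : ∀ k : ℕ, ∃ n : V → Fin 3,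
      (k * r - fl (k * r)) • Φ.v a + (k * s - fl (k * s)) • Φ.v b + (k * t - fl (k * t)) • Φ.v c =
        ∑ i, ((n i : ℕ) : K) • Φ.v i := by
    intro k
    refine detb_small Φ u lam a b c hl hP ha hb hc _ _ _ (sub_nonneg.mpr (fl1 _))
      (sub_nonneg.mpr (fl1 _)) (sub_nonneg.mpr (fl1 _)) ?_ ?_
    · have := fl2 (k * r); have := fl2 (k * s); have := fl2 (k * t); linarith
    · intro i
      have ei := congrFun e i
      have : ((k * r - fl (k * r)) • Φ.v a + (k * s - fl (k * s)) • Φ.v b +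
          (k * t - fl (k * t)) • Φ.v c) i =
          k * y i - (fl (k * r) * Φ.v a i + fl (k * s) * Φ.v b i + fl (k * t) * Φ.v c i) := by
        simp only [Pi.add_apply, Pi.smul_apply, smul_eq_mul] at ei ⊢
        rw [ei]; ring
      rw [this]
      exact sub_mem (mul_mem (natCast_mem _ k) (hy i)) (add_mem (add_mem
        (mul_mem (flZ _) (Φ.vZ a i)) (mul_mem (flZ _) (Φ.vZ b i))) (mul_mem (flZ _) (Φ.vZ c i)))
  choose n hn using key
  obtain ⟨k, k', hk, hkk⟩ := Finite.exists_ne_map_eq_of_infinite n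
  refine ⟨(k : ℤ) - k', by omega, ![fl (k * r) - fl (k' * r), fl (k * s) - fl (k' * s),
    fl (k * t) - fl (k' * t)], ?_, ?_⟩
  · intro i
    fin_cases i <;> exact sub_mem (flZ _) (flZ _)
  · have e2 := (hn k).trans (hkk ▸ (hn k').symm)
    funext i
    have ei := congrFun e i
    have e2i := congrFun e2 i
    simp only [Pi.add_apply, Pi.smul_apply, smul_eq_mul, Matrix.cons_val_zero, Matrix.cons_val_one,
      Matrix.cons_val] at ei e2i ⊢
    push_cast
    rw [ei]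
    linear_combination e2i

end

theorem p_DETB (hUNIQ : S_UNIQ) :
    S_DETB := by
  intro K V _ _ _ _ _ Φ u lam a b c hl hP ha hb hc
  by_cases hd : det3 (Φ.v a) (Φ.v b) (Φ.v c) = 0
  · rw [hd]; exact Fi.zero
  have hZ : ∀ j i : Fin 3, (Pi.single j (1 : K) : V3 K) i ∈ Φ.hf.Z := by
    intro j i
    by_cases h : i = j
    · subst h; simp
    · simp [Pi.single_eq_of_ne h]
  obtain ⟨k0, h0, n0, z0, e0⟩ := detb_mult Φ u lam a b c hl hP ha hb hc hd _ (hZ 0)
  obtain ⟨k1, h1, n1, z1, e1⟩ := detb_mult Φ u lam a b c hl hP ha hb hc hd _ (hZ 1)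
  obtain ⟨k2, h2, n2, z2, e2⟩ := detb_mult Φ u lam a b c hl hP ha hb hc hd _ (hZ 2)
  have e : ((k0 * k1 * k2 : ℤ) : K) = det3 n0 n1 n2 * det3 (Φ.v a) (Φ.v b) (Φ.v c) := by
    have l : det3 ((k0 : K) • (Pi.single 0 (1 : K) : V3 K)) ((k1 : K) • (Pi.single 1 (1 : K) : V3 K))
        ((k2 : K) • (Pi.single 2 (1 : K) : V3 K)) = ((k0 * k1 * k2 : ℤ) : K) := by
      simp [det3]; ring
    rw [← l, e0, e1, e2]
    simp only [det3, Pi.add_apply, Pi.smul_apply, smul_eq_mul]; ring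
  have hn : det3 n0 n1 n2 ≠ 0 := by
    intro h
    rw [h, zero_mul] at e
    exact (mul_ne_zero (mul_ne_zero h0 h1) h2) (by exact_mod_cast e)
  have h1' := Φ.hf.one_le_abs (det3_mem _ z0 z1 z2) hn
  refine ((Std.int (k0 * k1 * k2)).fi.div h1').of_eq ?_
  rw [e]; field_simp

end Pool.Agent.P.MP_33ab4b_ag.T
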