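import Pool.Agent.P.MP_33ab4b_ag.T.IfaceP

/-! Step DICH. -/

set_option autoImplicit false

namespace Pool.Agent.P.MP_33ab4b_ag.T

open scoped Classical

namespace DICHx

variable {K V I : Type} [Field K] [LinearOrder K] [IsStrictOrderedRing K] [Fintype V]
  [DecidableEq V] [Fintype I] [DecidableEq I] {P : HP K V I}

omit [LinearOrder K] [IsStrictOrderedRing K] in
theorem neg3 (e a b : V3 K) : det3 e (-a) b = - det3 e a b := by
  simp only [det3, Pi.neg_apply]; ring

theorem v_ne (G : PLG P) {x : V} (hx : x ∈ G.X) : P.v x ≠ - P.v x := by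
  intro h
  have h1 := G.w1 x hx
  have h2 := h1
  rw [h, neg3, h1] at h2
  norm_num at h2

theorem eq_of_v (G : PLG P) {x y : V} (hx : x ∈ G.X) (hy : y ∈ G.X) (h : P.v y = P.v x) :
    y = x := by
  by_contra hne
  have := G.opp x hx y hy (Ne.symm hne) (by rw [h]; simp)
  rw [h] at this
  exact v_ne G hx this

theorem sign_nx (G : PLG P) {N S : V} (hax : G.Ax N S) {y : V} (hy : y ∈ G.X) :
    0 ≤ det3 (P.v G.k0) (P.v N) (P.v y) * det3 (P.v G.k0) (P.v N) (P.v (G.nx y)) := by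
  by_contra h
  rw [not_le, mul_neg_iff] at h
  rcases h with ⟨h1, h2⟩ | ⟨h1, h2⟩
  · refine G.cyc.nob y hy S hax.2.1 ⟨?_, ?_⟩
    · rw [det3_swap23, hax.2.2, neg3]; linarith
    · rw [hax.2.2, neg3]; linarith
  · refine G.cyc.nob y hy N hax.1 ⟨?_, h2⟩
    rw [det3_swap23]; linarith

theorem on_axis (G : PLG P) {N S : V} (hax : G.Ax N S) {y : V} (hy : y ∈ G.X)
    (h : det3 (P.v G.k0) (P.v N) (P.v y) = 0) : y = N ∨ y = S := by
  by_cases h1 : y = N
  · exact Or.inl h1
  · refine Or.inr (eq_of_v G hax.2.1 hy ?_)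
    rw [G.opp N hax.1 y hy (Ne.symm h1) h, hax.2.2]

theorem ax_ne (G : PLG P) {N S : V} (hax : G.Ax N S) : N ≠ S := by
  rintro rfl
  exact v_ne G hax.1 hax.2.2

/-- The fibre class against a class supported in the plane. -/
theorem fc_cl (G : PLG P) (A : PLA G) (m : V → K) (hm : ∀ a, a ∉ G.X → m a = 0) {y : V}
    (hy : y ∈ G.X) :
    P.mu G.fc (P.cl m) (P.D y) = m (G.nx y) + m (G.pv y) - G.cx y * m y := by
  obtain ⟨hn, hp, hpn, hnp⟩ := G.cyc.mem y hy
  obtain ⟨h1, h2⟩ := G.nxne y hy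
  have h3 : G.pv y ≠ y := fun h => h1 (by rw [← h, hnp, h])
  rw [P.mu12, P.mu_cl]
  have e : ∀ x, m x * P.mu (P.D x) G.fc (P.D y) = (if x = G.nx y then m x else 0) +
      (if x = G.pv y then m x else 0) - (if x = y then G.cx x * m x else 0) := by
    intro x
    by_cases hx : x ∈ G.X
    · rw [P.mu12, A.fXX x hx y hy]
      have ha : P.adj x y ↔ (x = G.nx y ∨ x = G.pv y) :=
        Fan.adj_comm.trans (G.adjX y hy x hx)
      by_cases e1 : x = y
      · subst e1
        rw [if_pos rfl, if_neg h1.symm, if_neg h3.symm, if_pos rfl]; ring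
      · rw [if_neg e1, if_neg e1]
        by_cases e2 : x = G.nx y
        · rw [if_pos (ha.mpr (Or.inl e2)), if_pos e2, if_neg (fun h => h2 (e2.symm.trans h))]
          ring
        · by_cases e3 : x = G.pv y
          · rw [if_pos (ha.mpr (Or.inr e3)), if_neg e2, if_pos e3]; ring
          · rw [if_neg (fun h => (ha.mp h).elim e2 e3), if_neg e2, if_neg e3]; ring
    · simp [hm x hx]
  simp only [e, Finset.sum_sub_distrib, Finset.sum_add_distrib, Finset.sum_ite_eq',
    Finset.mem_univ, if_true]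

theorem maxes {r s t c : K} (h : r + s = c * t) (h1 : 0 ≤ t * r) (h2 : 0 ≤ t * s) (h0 : t ≠ 0) :
    max r 0 + max s 0 - c * max t 0 = 0 := by
  rcases lt_or_gt_of_ne h0 with ht | ht
  · have a1 : r ≤ 0 := by by_contra hh; nlinarith [mul_neg_of_neg_of_pos ht (not_le.mp hh)]
    have a2 : s ≤ 0 := by by_contra hh; nlinarith [mul_neg_of_neg_of_pos ht (not_le.mp hh)]
    rw [max_eq_right a1, max_eq_right a2, max_eq_right ht.le]; ring
  · have a1 : 0 ≤ r := by by_contra hh; nlinarith [mul_neg_of_pos_of_neg ht (not_le.mp hh)]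
    have a2 : 0 ≤ s := by by_contra hh; nlinarith [mul_neg_of_pos_of_neg ht (not_le.mp hh)]
    rw [max_eq_left a1, max_eq_left a2, max_eq_left ht.le]; linarith

theorem maxes0 (r : K) : max r 0 + max (-r) 0 = |r| := by
  rcases le_total 0 r with h | h
  · rw [max_eq_left h, max_eq_right (by linarith), abs_of_nonneg h]; ring
  · rw [max_eq_right h, max_eq_left (by linarith), abs_of_nonpos h]; ring

/-- The tent class of one side of the axis. -/
theorem tent (G : PLG P) (A : PLA G) {N S : V} (hax : G.Ax N S) (ε : K) (hε : ε ≠ 0) {y : V}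
    (hy : y ∈ G.X) :
    P.mu G.fc (P.cl (fun x => if x ∈ G.X then max (ε * det3 (P.v G.k0) (P.v N) (P.v x)) 0 else 0))
      (P.D y) = |ε| * ((if y = N then 1 else 0) + (if y = S then 1 else 0)) := by
  obtain ⟨hn, hp, hpn, hnp⟩ := G.cyc.mem y hy
  rw [fc_cl G A _ (fun a ha => if_neg ha) hy]
  simp only [if_pos hn, if_pos hp, if_pos hy]
  have hl : det3 (P.v G.k0) (P.v N) (P.v (G.nx y)) + det3 (P.v G.k0) (P.v N) (P.v (G.pv y)) =
      G.cx y * det3 (P.v G.k0) (P.v N) (P.v y) := by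
    have := congrArg (detL (P.v G.k0) (P.v N)) (G.cxv y hy)
    rw [map_add, map_smul] at this
    exact this
  have hNS := ax_ne G hax
  by_cases h0 : det3 (P.v G.k0) (P.v N) (P.v y) = 0
  · rw [h0] at hl ⊢
    have e : det3 (P.v G.k0) (P.v N) (P.v (G.pv y)) = - det3 (P.v G.k0) (P.v N) (P.v (G.nx y)) := by
      linarith
    rw [e, mul_neg, maxes0, mul_zero, max_self, mul_zero, sub_zero, abs_mul]
    rcases on_axis G hax hy h0 with rfl | rfl
    · rw [G.w1 y hy, if_pos rfl, if_neg hNS]; simp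
    · have := G.w1 y hy
      rw [hax.2.2, neg3] at this
      rw [show det3 (P.v G.k0) (P.v N) (P.v (G.nx y)) = -1 by linarith, if_neg hNS.symm,
        if_pos rfl]
      simp
  · have n1 : y ≠ N := by rintro rfl; simp at h0
    have n2 : y ≠ S := by
      rintro rfl
      apply h0
      rw [det3_swap23, hax.2.2, neg3]; simp
    rw [if_neg n1, if_neg n2, add_zero, mul_zero]
    have s1 := sign_nx G hax hy
    have s2 := sign_nx G hax hp
    rw [hnp] at s2
    refine maxes (by rw [← mul_add, hl]; ring) ?_ ?_ (mul_ne_zero hε h0)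
    · nlinarith [mul_nonneg (mul_self_nonneg ε) s1]
    · nlinarith [mul_nonneg (mul_self_nonneg ε) s2]

theorem fc_K (G : PLG P) (A : PLA G) {k : I → K} (hk : k ∈ G.Kf) : P.mu G.fc k = 0 := by
  obtain ⟨c, hc, rfl⟩ := P.mem_sp.mp hk
  refine LinearMap.ext fun z => ?_
  rw [P.mu12, P.mu_cl]
  refine Finset.sum_eq_zero fun a _ => ?_
  by_cases ha : a ∈ G.X
  · rw [hc a (by simpa using ha), zero_mul]
  · rw [P.mu12, A.fD0 a ha]; simp

theorem updown (G : PLG P) {a b : V} (ha : 0 < G.l (P.v a)) (hb : G.l (P.v b) < 0) :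
    P.mu (P.D a) (P.D b) = 0 :=
  P.mnadj a b (by rintro rfl; exact lt_asymm ha hb) (fun h => G.str a b h ⟨ha, hb⟩)

theorem notX_of_pos (G : PLG P) {a : V} (ha : 0 < G.l (P.v a)) : a ∉ G.X :=
  fun h => ha.ne' ((G.memX a).mp h)

theorem notX_of_neg (G : PLG P) {a : V} (ha : G.l (P.v a) < 0) : a ∉ G.X :=
  fun h => ha.ne ((G.memX a).mp h)

/-- Two bending upper vertices force a lower vertex next to both ends of the axis. -/
theorem lower (hLOC : S_LOC) (hAXU : S_AXU) (G : PLG P) (A : PLA G) (d : Derivation ℚ K K)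
    {N S a a' : V} (hax : G.Ax N S) (hne : a ≠ a') (ha : 0 < G.l (P.v a)) (ha' : 0 < G.l (P.v a'))
    (haN : P.adj a N) (haN' : P.adj a' N) (haS' : P.adj a' S) {α : K} (hα : α ≠ 0)
    (h : ∀ c, P.mu (dv d G.fc) (P.D a) (P.D c) =
      α * ((if c = N then 1 else 0) + (if c = S then 1 else 0))) :
    ∃ b, G.l (P.v b) < 0 ∧ P.adj b N ∧ P.adj b S := by
  obtain ⟨hD, hs⟩ := (hAXU K V I P G).2 a a' N S hne ha ha' hax haN' haS' haN
  have haX := notX_of_pos G ha
  have hf : ∀ c, P.mu G.fc (P.ep d a) (P.D c) =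
      - (α * ((if c = N then 1 else 0) + (if c = S then 1 else 0))) := by
    intro c
    have := P.d_mu_zero d (A.fD0 a haX) (P.D c)
    rw [h c] at this
    unfold HP.ep
    linarith
  obtain ⟨ε, hεd⟩ : ∃ ε, ε = det3 (P.v N) (P.v a') (P.v a) * G.l (P.v a') := ⟨_, rfl⟩
  have hε : ε ≠ 0 := by rw [hεd]; exact mul_ne_zero hD ha'.ne'
  have hs' : ∀ x ∈ G.X, P.adj a x → ε * det3 (P.v G.k0) (P.v N) (P.v x) ≤ 0 := by
    intro x hx hax'
    have h1 := hs x hx hax'
    have h2 := G.ldet (P.v N) (P.v x) ((G.memX N).mp hax.1) ((G.memX x).mp hx) (P.v a')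
    rw [det3_swap12 (P.v a') (P.v N) (P.v x), h2] at h1
    rw [hεd]
    linarith
  obtain ⟨m, hm⟩ : ∃ m : V → K, m = fun x =>
    if x ∈ G.X then max (ε * det3 (P.v G.k0) (P.v N) (P.v x)) 0 else 0 := ⟨_, rfl⟩
  have hεa : |ε| ≠ 0 := abs_ne_zero.mpr hε
  have hK : P.ep d a + (α / |ε|) • P.cl m ∈ G.Kf := by
    refine A.nd _ fun x hx => ?_
    rw [map_add, map_smul, LinearMap.add_apply, LinearMap.smul_apply, hf x, hm,
      tent G A hax ε hε hx, smul_eq_mul]
    field_simp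
    ring
  obtain ⟨c, hc, hce⟩ := P.mem_sp.mp hK
  have hg : P.ep d a = P.cl (c - (α / |ε|) • m) := by
    rw [P.cl_sub, P.cl_smul, ← hce]; simp
  have hN : P.mu G.fc (P.ep d a) (P.D N) ≠ 0 := by
    rw [hf N, if_pos rfl, if_neg (ax_ne G hax)]
    simpa using hα
  rw [A.fc_lo, P.mu_cl] at hN
  obtain ⟨b, _, hb⟩ := Finset.exists_ne_zero_of_sum_ne_zero hN
  have hbl : G.l (P.v b) < 0 := by
    by_contra hh
    apply left_ne_zero_of_mul hb
    exact max_eq_right (by linarith [not_lt.mp hh])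
  have hb2 : P.mu (P.ep d a) (P.D b) (P.D N) ≠ 0 := by
    rw [P.mu12]; exact right_ne_zero_of_mul hb
  have hbX := notX_of_neg G hbl
  have hbN : P.adj b N := by
    by_contra hh
    exact hb2 (P.nadj (fun e : b = N => hbX (by rw [e]; exact hax.1)) hh _)
  obtain ⟨Y, hY⟩ : ∃ Y : Finset V, ∀ x, x ∈ Y ↔
      (x ∈ G.X ∧ P.adj b x ∧ ε * det3 (P.v G.k0) (P.v N) (P.v x) ≤ 0) :=
    ⟨Finset.univ.filter fun x => x ∈ G.X ∧ P.adj b x ∧ ε * det3 (P.v G.k0) (P.v N) (P.v x) ≤ 0,
      fun x => by simp⟩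
  obtain ⟨x', hx', hv, _⟩ := hLOC K V I P G b (c - (α / |ε|) • m) Y hbX (fun x hx => by
      obtain ⟨h1, h2, h3⟩ := (hY x).mp hx
      refine ⟨h1, h2, ?_⟩
      rw [Pi.sub_apply, Pi.smul_apply, hc x (by simpa using h1), hm]
      simp only [if_pos h1, max_eq_right h3]
      simp) (fun e hbe he => by
      rw [← hg]
      have h1 := P.d_mu_zero d (updown G ha hbl) (P.D e)
      have h2 : P.mu (P.D a) (dv d (P.D b)) (P.D e) = 0 := by
        rw [P.mu12]
        by_cases heX : e ∈ G.X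
        · refine P.nadj (fun q : a = e => haX (by rw [q]; exact heX))
            (fun q => he ((hY e).mpr ⟨heX, hbe, ?_⟩)) _
          exact hs' e heX q
        · have hel : G.l (P.v e) < 0 := by
            rcases lt_trichotomy (G.l (P.v e)) 0 with q | q | q
            · exact q
            · exact absurd ((G.memX e).mpr q) heX
            · exact absurd ⟨q, hbl⟩ (G.str e b hbe.symm)
          rw [P.mu13, P.mu12, updown G ha hel]; rfl
      unfold HP.ep
      linarith) N ((hY N).mpr ⟨hax.1, hbN, by simp⟩) (by rw [← hg]; exact hb2)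
  obtain ⟨h1, h2, _⟩ := (hY x').mp hx'
  have : x' = S := eq_of_v G hax.2.1 h1 (by rw [hv, hax.2.2])
  exact ⟨b, hbl, hbN, this ▸ h2⟩

/-- The upper part of the derivative of the fibre class. -/
theorem side (hLOC : S_LOC) (hAXU : S_AXU) (hRADU : S_RADU) (G : PLG P) (A : PLA G)
    (d : Derivation ℚ K K) (c : V → K) (hc : ∀ a ∈ G.X, c a = 0) (hk : dv d G.fc = P.cl c) :
    (∃ r : K, P.cl (fun a => if 0 < G.l (P.v a) then c a else 0) = r • G.fc) ∨ G.Beta := by
  have hup : ∀ a, 0 < G.l (P.v a) → ∀ z,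
      P.mu (P.cl (fun a => if 0 < G.l (P.v a) then c a else 0)) (P.D a) z =
        P.mu (dv d G.fc) (P.D a) z := by
    intro a ha z
    rw [hk, P.mu_cl, P.mu_cl]
    refine Finset.sum_congr rfl fun e _ => ?_
    rcases lt_trichotomy (G.l (P.v e)) 0 with q | q | q
    · rw [P.mu12, updown G ha q]; simp
    · rw [hc e ((G.memX e).mpr q)]; simp
    · simp only [if_pos q]
  rcases hRADU K V I P G A (fun a => if 0 < G.l (P.v a) then c a else 0) (fun a ha => if_neg ha)
    (fun a b ha hb => by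
      rw [hup a ha]
      have h1 := P.d_mu_zero d (A.fD0 a (notX_of_pos G ha)) (P.D b)
      rw [P.mu23 G.fc, A.fD0 b (notX_of_pos G hb)] at h1
      simpa using h1) with h | ⟨N, S, hax, α, h1, h2, a, a', hne, ha, ha', hα, hα'⟩
  · exact Or.inl h
  · obtain ⟨b, hb, hbN, hbS⟩ := lower hLOC hAXU G A d hax hne ha ha' (h2 a ha hα).1
      (h2 a' ha' hα').1 (h2 a' ha' hα').2 hα (fun e => by rw [← hup a ha, h1 a ha e])
    exact Or.inr ⟨N, S, a, a', b, hax, hne, (h2 a ha hα).1, (h2 a ha hα).2, (h2 a' ha' hα').1,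
      (h2 a' ha' hα').2, hbN, hbS, Or.inl ⟨ha, ha', hb⟩⟩

end DICHx

theorem p_DICH (hFLIP : S_FLIP) (hLOC : S_LOC) (hAXU : S_AXU) (hRADU : S_RADU) :
    S_DICH := by
  intro K V I _ _ _ _ _ _ _ P G A d
  have hK : dv d G.fc ∈ G.Kf := by
    refine A.nd _ fun x _ => ?_
    have h := P.d_mu_zero d (DICHx.fc_K G A A.fc_mem) (P.D x)
    rw [P.mu12 (dv d G.fc)] at h
    linarith
  obtain ⟨c, hc, hk⟩ := P.mem_sp.mp hK
  have hc' : ∀ a ∈ G.X, c a = 0 := fun a ha => hc a (by simpa using ha)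
  obtain ⟨G', hl, hX, _, _, _, hA⟩ := hFLIP K V I P G
  obtain ⟨hf, A'⟩ := hA A
  rcases DICHx.side hLOC hAXU hRADU G A d c hc' hk with ⟨r, hr⟩ | h
  · rcases DICHx.side hLOC hAXU hRADU G' A' d c (by rw [hX]; exact hc') (by rw [hf]; exact hk)
      with ⟨r', hr'⟩ | h
    · refine Or.inl ⟨r + r', ?_⟩
      rw [add_smul, ← hr, ← hf, ← hr', ← P.cl_add, hf, hk]
      congr 1
      funext a
      rw [Pi.add_apply, hl, LinearMap.neg_apply]
      rcases lt_trichotomy (G.l (P.v a)) 0 with q | q | q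
      · rw [if_neg q.le.not_gt, if_pos (by linarith)]; simp
      · rw [hc' a ((G.memX a).mpr q)]; simp
      · rw [if_pos q, if_neg (by linarith)]; simp
    · obtain ⟨N, S, a, a', b, hax, hne, h1, h2, h3, h4, h5, h6, h7⟩ := h
      refine Or.inr ⟨N, S, a, a', b, ⟨hX ▸ hax.1, hX ▸ hax.2.1, hax.2.2⟩, hne, h1, h2, h3, h4, h5,
        h6, ?_⟩
      simp only [hl, LinearMap.neg_apply, neg_pos, neg_lt_zero] at h7
      exact h7.symm
  · exact Or.inr h

end Pool.Agent.P.MP_33ab4b_ag.T
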