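import Pool.Agent.P.MP_33ab4b_ag.T.IfaceP

/-! Step END. -/

set_option autoImplicit false

namespace Pool.Agent.P.MP_33ab4b_ag.T

open scoped Classical

namespace ENDx

variable {K V I : Type} [Field K] [LinearOrder K] [IsStrictOrderedRing K] [Fintype V]
  [DecidableEq V] [Fintype I] [DecidableEq I] {P : HP K V I}

theorem sum_std {ι : Type} (s : Finset ι) {f g : ι → K} (h : ∀ i ∈ s, Std (f i - g i)) :
    Std (∑ i ∈ s, f i - ∑ i ∈ s, g i) := by
  rw [← Finset.sum_sub_distrib]; exact Std.sum s h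

theorem sum_nx (G : PLG P) (f : V → K) : ∑ x ∈ G.X, f (G.nx x) = ∑ x ∈ G.X, f x :=
  Finset.sum_nbij' G.nx G.pv (fun a ha => (G.cyc.mem a ha).1) (fun a ha => (G.cyc.mem a ha).2.1)
    (fun a ha => (G.cyc.mem a ha).2.2.1) (fun a ha => (G.cyc.mem a ha).2.2.2) (fun _ _ => rfl)

theorem sum_pv (G : PLG P) (f : V → K) : ∑ x ∈ G.X, f (G.pv x) = ∑ x ∈ G.X, f x := by
  rw [← sum_nx G (fun x => f (G.pv x))]
  exact Finset.sum_congr rfl fun a ha => by rw [(G.cyc.mem a ha).2.2.1]

theorem row (P : HP K V I) {a b : V} (hab : b ≠ a) :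
    Std (∑ c, P.m3 a b c - (P.m3 a a b + P.m3 b b a)) := by
  have hb : b ∈ (Finset.univ : Finset V).erase a := by simp [hab]
  rw [← Finset.add_sum_erase _ _ (Finset.mem_univ a), ← Finset.add_sum_erase _ _ hb]
  have e1 : P.m3 a b a = P.m3 a a b := P.mu23 _ _ _
  have e2 : P.m3 a b b = P.m3 b b a := P.mu13 _ _ _
  refine (Std.sum (((Finset.univ : Finset V).erase a).erase b)
    (f := fun c => P.m3 a b c) fun c hc => ?_).of_eq (by rw [e1, e2]; ring)
  simp only [Finset.mem_erase] at hc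
  exact P.m3_std hab.symm hc.2.1.symm hc.1.symm

theorem c3_p (G : PLG P) (R : TPF G) : Std (P.c3 - P.p P.cc) := by
  set W : V3 K := R.w0 • P.v R.x0 + R.w1 • P.v (G.nx R.x0) with hW
  let u : V → K := fun x => G.w W (P.v x)
  have hT : ∀ x ∈ G.X, Std (P.m3 x x (G.nx x) + P.m3 (G.nx x) (G.nx x) x - (u x - u (G.nx x))) := by
    intro x hx
    obtain ⟨h1, h2⟩ := R.mXX x hx
    refine (h1.add h2).of_eq ?_
    have : G.w (P.v x) W = - u x := det3_swap23 _ _ _
    rw [← hW, this]; ring
  let g : V → K := fun a => if a ∈ G.X then u (G.pv a) - u (G.nx a) else 0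
  have hg : ∑ a, g a = 0 := by
    simp only [g, Finset.sum_ite_mem, Finset.univ_inter, Finset.sum_sub_distrib]
    rw [sum_pv G u, sum_nx G u, sub_self]
  have e1 : P.c3 = ∑ a, ∑ b, ∑ c, P.m3 a b c := by
    simp only [HP.c3, HP.cc, HP.m3, map_sum, LinearMap.sum_apply]
    rw [Finset.sum_comm]
    refine (Finset.sum_congr rfl fun j _ => Finset.sum_comm).trans ?_
    rw [Finset.sum_comm]
  have e2 : P.p P.cc = ∑ a, ∑ c, P.m3 a a c := by
    simp only [P.pdef, HP.cc, HP.m3, map_sum]
  have key : ∀ a, Std ((∑ b, ∑ c, P.m3 a b c - ∑ c, P.m3 a a c) - g a) := by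
    intro a
    have s1 : Std (∑ b ∈ Finset.univ.erase a, ∑ c, P.m3 a b c -
        ∑ b ∈ Finset.univ.erase a, (P.m3 a a b + P.m3 b b a)) :=
      sum_std _ fun b hb => row P (Finset.mem_erase.mp hb).1
    have s2 : Std (∑ b ∈ Finset.univ.erase a, (P.m3 a a b + P.m3 b b a) - g a) := by
      by_cases ha : a ∈ G.X
      · obtain ⟨m1, m2, m3, m4⟩ := G.cyc.mem a ha
        obtain ⟨n1, n2⟩ := G.nxne a ha
        have n3 : G.pv a ≠ a := by
          have := (G.nxne _ m2).1
          rw [m4] at this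
          exact this.symm
        have hs : ∑ b ∈ Finset.univ.erase a, ((if b = G.nx a then u a - u (G.nx a) else 0) +
            (if b = G.pv a then u (G.pv a) - u a else 0)) = g a := by
          simp only [Finset.sum_add_distrib, Finset.sum_ite_eq', Finset.mem_erase, ne_eq, n1, n3,
            not_false_eq_true, Finset.mem_univ, and_self, if_true, g, ha]
          ring
        rw [← hs]
        refine sum_std _ fun b hb => ?_
        have hba := (Finset.mem_erase.mp hb).1
        by_cases h1 : b = G.nx a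
        · subst h1
          rw [if_pos rfl, if_neg n2, add_zero]
          exact hT a ha
        by_cases h2 : b = G.pv a
        · subst h2
          rw [if_neg h1, if_pos rfl, zero_add]
          have := hT _ m2
          rw [m4] at this
          exact this.of_eq (by ring)
        rw [if_neg h1, if_neg h2, add_zero, sub_zero]
        by_cases hb' : b ∈ G.X
        · have hn : ¬ P.adj a b := fun h => ((G.adjX a ha b hb').mp h).elim h1 h2
          have z1 : P.m3 a a b = 0 := P.nadj hba.symm hn _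
          have z2 : P.m3 b b a = 0 := P.nadj hba (fun h => hn h.symm) _
          rw [z1, z2, add_zero]; exact Std.zero
        · exact (R.stdm _ _ _ (by tauto)).add (R.stdm _ _ _ (by tauto))
      · simp only [g, ha, if_false, sub_zero]
        exact Std.sum _ fun b _ => (R.stdm _ _ _ (by tauto)).add (R.stdm _ _ _ (by tauto))
    refine (s1.add s2).of_eq ?_
    rw [← Finset.add_sum_erase _ _ (Finset.mem_univ a)]
    ring
  have := sum_std Finset.univ fun a _ => key a
  rw [hg, sub_zero, Finset.sum_sub_distrib] at this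
  rw [e1, e2]
  exact this

theorem fK {G : PLG P} (A : PLA G) {k : I → K} (hk : k ∈ G.Kf) : P.mu G.fc k = 0 := by
  obtain ⟨c, hc, rfl⟩ := P.mem_sp.mp hk
  rw [HP.cl, map_sum]
  refine Finset.sum_eq_zero fun a _ => ?_
  by_cases ha : a ∈ G.X
  · rw [hc a (by simpa using ha), zero_smul, map_zero]
  · rw [map_smul, A.fD0 a ha, smul_zero]

theorem sum_lam {G : PLG P} (A : PLA G) (R : TPF G) (d : Derivation ℚ K K)
    (s : Module.End K (I → K)) (lam : V → K) (hs : ∀ x y z, rho s P.mu x y z = 0)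
    (he : ∀ a, P.ep d a = s (P.D a) + lam a • G.fc) : ∑ a, lam a = 0 := by
  have tri : ∀ a b c, Std (P.m3 a b c) → lam a * P.mu G.fc (P.D b) (P.D c) +
      lam b * P.mu G.fc (P.D a) (P.D c) + lam c * P.mu G.fc (P.D a) (P.D b) = 0 := by
    intro a b c h
    have h1 := h.der d
    have h2 := hs (P.D a) (P.D b) (P.D c)
    rw [HP.m3, P.d_mu] at h1
    change P.mu (P.ep d a) _ _ + P.mu _ (P.ep d b) _ + P.mu _ _ (P.ep d c) = 0 at h1
    rw [he, he, he] at h1
    simp only [map_add, map_smul, LinearMap.add_apply, LinearMap.smul_apply, smul_eq_mul] at h1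
    rw [P.mu12 (P.D a) G.fc, P.mu13 (P.D a) (P.D b) G.fc, P.mu23 G.fc (P.D b) (P.D a)] at h1
    unfold rho at h2
    linarith
  have one : ∀ x ∈ G.X, P.mu G.fc (P.D x) (P.D (G.nx x)) = 1 := by
    intro x hx
    have m := (G.cyc.mem x hx).1
    rw [A.fXX x hx _ m, if_neg (G.nxne x hx).1.symm, if_pos ((G.adjX x hx _ m).mpr (Or.inl rfl))]
  have off : ∀ a, a ∉ G.X → lam a = 0 := by
    intro a ha
    have := tri a R.x0 (G.nx R.x0) (R.stdm _ _ _ (Or.inl ha))
    rw [one _ R.hx0, A.fD0 a ha] at this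
    simpa using this
  have red : ∑ a, lam a = ∑ x ∈ G.X, lam x :=
    (Finset.sum_subset (Finset.subset_univ _) fun a _ ha => off a ha).symm
  have on : ∀ x ∈ G.X, lam x + lam (G.nx (G.nx x)) +
      (if G.nx (G.nx x) = G.pv x then lam (G.nx x) else 0) = 0 := by
    intro x hx
    obtain ⟨m1, -, m3, -⟩ := G.cyc.mem x hx
    have m2 := (G.cyc.mem _ m1).1
    have n1 := (G.nxne x hx).1
    obtain ⟨n2, n3⟩ := G.nxne _ m1
    rw [m3] at n3
    have := tri x (G.nx x) (G.nx (G.nx x)) (P.m3_std n1.symm n3.symm n2.symm)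
    rw [one _ hx, one _ m1, A.fXX x hx _ m2, if_neg n3.symm] at this
    by_cases h : G.nx (G.nx x) = G.pv x
    · rw [if_pos ((G.adjX x hx _ m2).mpr (Or.inr h))] at this
      rw [if_pos h]; linarith
    · rw [if_neg (fun h' => ((G.adjX x hx _ m2).mp h').elim n2 h)] at this
      rw [if_neg h]; linarith
  have two : ∑ x ∈ G.X, lam (G.nx (G.nx x)) = ∑ x ∈ G.X, lam x := by
    rw [sum_nx G (fun x => lam (G.nx x)), sum_nx G lam]
  have tot := Finset.sum_eq_zero on
  rw [Finset.sum_add_distrib, Finset.sum_add_distrib, two] at tot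
  rw [red]
  by_cases h : ∃ x ∈ G.X, G.nx (G.nx x) = G.pv x
  · obtain ⟨x, hx, h⟩ := h
    have all := G.cyc.orb (fun y => G.nx (G.nx y) = G.pv y) x hx h (fun b hb hq => by
      obtain ⟨_, _, m3, m4⟩ := G.cyc.mem b hb
      rw [hq, m3, m4])
    rw [Finset.sum_congr rfl (fun y hy => if_pos (all y hy)), sum_nx G lam] at tot
    linarith
  · push Not at h
    rw [Finset.sum_congr rfl (fun y hy => if_neg (h y hy)), Finset.sum_const_zero] at tot
    linarith

end ENDx

theorem p_END (hTPE : S_TPE) (hVERT2 : S_VERT2) (hPRAD : S_PRAD) :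
    S_END := by
  intro K V I _ _ _ _ _ _ _ P G A R hd hG
  refine P.hf.der _ fun d => ?_
  rw [(ENDx.c3_p G R).der_eq d, P.d_p]
  obtain ⟨-, hE, -⟩ := hTPE K V I P G A R hd
  obtain ⟨E, hE⟩ := hE d
  choose c hc using hE.Ea
  have hD : ∀ a, E (P.D a) ∈ G.Kf := by
    intro a
    by_cases ha : a ∈ G.X
    · refine A.nd _ fun x hx => ?_
      have := hG d a ha x hx
      rw [PLG.Gm, hc a, map_add, map_smul, ENDx.fK A A.fc_mem] at this
      simpa using this
    · exact hE.EK _ (Submodule.subset_span ⟨a, ha, rfl⟩)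
  have hK : ∀ x, E x ∈ G.Kf := by
    intro x
    obtain ⟨y, rfl⟩ := P.exists_cl x
    rw [HP.cl, map_sum]
    exact sum_mem fun a _ => by rw [map_smul]; exact Submodule.smul_mem _ _ (hD a)
  obtain ⟨s, n, e, h1, h2, -, -, h5, h6⟩ := hVERT2 K V I P G A E P.p hK hE.Ef hE.inv hE.pK
  have hcc : dv d P.cc = ∑ a, P.ep d a := dv_sum d _ _
  rw [hcc, map_sum]
  by_cases h4 : G.X.card = 4
  · have hp := hPRAD K V I P G A h4
    have hf : P.p G.fc = 0 := hp _ ⟨A.fc_mem, fun a b ha _ => by rw [A.fD0 a ha]; rfl⟩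
    refine Finset.sum_eq_zero fun a _ => ?_
    rw [hc a, e, LinearMap.add_apply, map_add, map_add, map_smul, h2, hp _ (h5 _), hf]
    simp
  · choose c' hc' using h6 h4
    have he : ∀ a, P.ep d a = s (P.D a) + (c' (P.D a) + c a) • G.fc := by
      intro a
      rw [hc a, e, LinearMap.add_apply, hc', add_smul, add_assoc]
    have h0 := ENDx.sum_lam A R d s (fun a => c' (P.D a) + c a) h1 he
    simp only [he, map_add, map_smul, h2, zero_add, smul_eq_mul]
    rw [← Finset.sum_mul, h0, zero_mul]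

end Pool.Agent.P.MP_33ab4b_ag.T
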