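import Pool.Agent.P.MP_33ab4b_ag.T.IfaceF

/-! Step EQV. -/

set_option autoImplicit false

namespace Pool.Agent.P.MP_33ab4b_ag.T

open scoped Classical

theorem p_EQV (hFRB : S_FRB) :
    S_EQV := by
  intro K V _ _ _ _ _ Φ lam
  obtain ⟨-, -, f3, f4, -, f6, -, f8, -⟩ := hFRB K V Φ
  have B : ∀ u : Fm K, ∀ s ∈ Φ.F, ∀ s' ∈ Φ.F, Φ.Rel lam s u → Φ.Rel lam s' u → Φ.FinRel s s' := by
    intro u s hs s' hs' h h'
    obtain ⟨a, b, c, hd, ta, tb, tc⟩ := h.1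
    exact f8 _ _ _ (Φ.hf.one_le_abs (det3_mem _ (Φ.vZ a) (Φ.vZ b) (Φ.vZ c)) hd) s hs s' hs'
      (h.2.1 a ta) (h.2.1 b tb) (h.2.1 c tc) (h'.2.1 a ta) (h'.2.1 b tb) (h'.2.1 c tc)
  have T : ∀ s ∈ Φ.F, ∀ t ∈ Φ.F, ∀ s', Φ.FinRel s t → Φ.FinRel t s' → Φ.FinRel s s' :=
    fun s hs t ht s' h h' i hi => f4 s hs t ht h _ (h' i hi)
  have main : ∀ u u' : Fm K, Φ.Eqv lam u u' → u = u' ∨ ((∃ s ∈ Φ.F, Φ.Rel lam s u) ∧
      (∃ s ∈ Φ.F, Φ.Rel lam s u') ∧ ∀ s ∈ Φ.F, ∀ s' ∈ Φ.F, Φ.Rel lam s u → Φ.Rel lam s' u' →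
        Φ.FinRel s s' ∧ ∀ x, Φ.FinF s x → BO (u x - u' x) lam) := by
    intro u u' h
    induction h with
    | rel u u' h =>
      obtain ⟨t, ht, h, h'⟩ := h
      refine Or.inr ⟨⟨t, ht, h⟩, ⟨t, ht, h'⟩, fun s hs s' hs' r r' =>
        ⟨T s hs t ht s' (B u s hs t ht r h) (B u' t ht s' hs' h' r'), fun x hx => ?_⟩⟩
      refine f6 t ht (u - u') lam (fun i hi => ?_) x (f4 t ht s hs (B u t ht s hs h r) x hx)
      exact ((h'.2.2 i hi).sub (h.2.2 i hi)).of_eq (by rw [LinearMap.sub_apply]; ring)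
    | refl u => exact Or.inl rfl
    | symm u u' _ ih =>
      rcases ih with e | ⟨h1, h2, h3⟩
      · exact Or.inl e.symm
      · refine Or.inr ⟨h2, h1, fun s hs s' hs' r r' => ?_⟩
        obtain ⟨a, b⟩ := h3 s' hs' s hs r' r
        exact ⟨f3 s' hs' s hs a, fun x hx => (b x (f4 s' hs' s hs a x hx)).neg.of_eq (by ring)⟩
    | trans u w u' _ _ ih ih' =>
      rcases ih with e | ⟨h1, h2, h3⟩
      · rw [e]
        exact ih'
      rcases ih' with e | ⟨k1, k2, k3⟩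
      · rw [← e]
        exact Or.inr ⟨h1, h2, h3⟩
      refine Or.inr ⟨h1, k2, fun s hs s' hs' r r' => ?_⟩
      obtain ⟨t, ht, rt⟩ := h2
      obtain ⟨a, b⟩ := h3 s hs t ht r rt
      obtain ⟨a', b'⟩ := k3 t ht s' hs' rt r'
      exact ⟨T s hs t ht s' a a', fun x hx =>
        ((b x hx).add (b' x (f4 t ht s hs (f3 s hs t ht a) x hx))).of_eq (by ring)⟩
  intro u u' h s hs s' hs' r r'
  rcases main u u' h with e | ⟨-, -, h3⟩
  · subst e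
    exact ⟨B u s hs s' hs' r r', fun x _ => (BO.zero lam).of_eq (sub_self _)⟩
  · exact h3 s hs s' hs' r r'

end Pool.Agent.P.MP_33ab4b_ag.T
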