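import Pool.Agent.P.MP_33ab4b_ag.T.IfaceF

/-! Step FINC. -/

set_option autoImplicit false

namespace Pool.Agent.P.MP_33ab4b_ag.T

open scoped Classical

theorem p_FINC (hPATH : S_PATH) (hFRB : S_FRB) (hWREL : S_WREL) :
    S_FINC := by
  intro K V I _ _ _ _ _ _ _ P hF
  obtain ⟨-, f2, -, f4, -, f6, -, -, f9, -⟩ := hFRB K V P.toHFan
  obtain ⟨-, -, -, w4⟩ := hWREL K V I P
  have rel : ∀ s0 ∈ P.F, ∀ s ∈ P.F, P.FinRel s0 s := by
    intro s0 hs0
    refine hPATH K V P.toFan (fun s => P.FinRel s0 s) s0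
      (∑ a, (if a ∈ s0 then (1 : K) else 0) • P.v a) hs0
      ⟨fun a => if a ∈ s0 then 1 else 0, fun a ha => by simp [ha], fun a ha => by simp [ha], rfl⟩
      (f2 s0 hs0) ?_
    intro a b k l hk hl hkl _ hQ i hi
    exact f4 s0 hs0 _ hl hQ _ ((f9 a b l k hl hk hkl.symm).1 (hF a b) i hi)
  have aab : ∀ a b, a ≠ b → Fi (P.m3 a a b) := by
    intro a b hab
    by_cases h : P.adj a b
    · exact ((w4 a b h).1 (hF a b)).1
    · exact Fi.zero.of_eq (P.nadj hab h _)
  have aaa : ∀ a, Fi (P.m3 a a a) := by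
    intro a
    obtain ⟨s, hs, ha⟩ := P.used a
    obtain ⟨b, c, e, hf⟩ := Fan.exists_face_of_mem hs ha
    obtain ⟨u, ua, ub, uc⟩ := exists_form hf.det_ne (1 : K) 0 0
    have hu : ∀ x, Fi (u (P.v x)) := by
      intro x
      obtain ⟨s', hs', hx⟩ := P.used x
      refine bo_one_iff.1 (f6 s hs u 1 ?_ _ (rel s hs s' hs' x hx))
      intro i hi
      rw [e] at hi
      simp only [Finset.mem_insert, Finset.mem_singleton] at hi
      rcases hi with rfl | rfl | rfl
      · rw [ua]; exact BO.refl 1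
      · rw [ub]; exact BO.zero 1
      · rw [uc]; exact BO.zero 1
    have h := P.LR (P.mu (P.D a) (P.D a)) u
    rw [← Finset.add_sum_erase _ _ (Finset.mem_univ a), ua, one_mul] at h
    refine (Fi.neg (Fi.sum (Finset.univ.erase a)
      (f := fun x => u (P.v x) * P.mu (P.D a) (P.D a) (P.D x)) fun x hx => ?_)).of_eq
      (eq_neg_of_add_eq_zero_left h)
    exact (hu x).mul (aab a x (Finset.ne_of_mem_erase hx).symm)
  have all : ∀ a b c, Fi (P.m3 a b c) := by
    intro a b c
    by_cases h1 : a = b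
    · subst h1
      by_cases h2 : a = c
      · subst h2; exact aaa a
      · exact aab a c h2
    · by_cases h2 : a = c
      · subst h2
        exact (aab a b h1).of_eq (P.mu23 _ _ _)
      · by_cases h3 : b = c
        · subst h3
          exact (aab b a (Ne.symm h1)).of_eq (P.mu13 _ _ _)
        · exact (P.m3_std h1 h2 h3).fi
  have e : P.c3 = ∑ c, ∑ b, ∑ a, P.m3 a b c := by
    simp only [HP.c3, HP.cc, HP.m3, map_sum, LinearMap.sum_apply]
  rw [e]
  exact Std.sum _ fun c _ => Std.sum _ fun b _ => Std.sum _ fun a _ =>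
    P.hf.std_of_fi (P.m3_mem a b c) (all a b c)

end Pool.Agent.P.MP_33ab4b_ag.T
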