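import Pool.Agent.P.MP_33ab4b_ag.T.IfaceT
import Pool.Agent.P.MP_33ab4b_ag.T.IfaceA

/-! Step FM. -/

set_option autoImplicit false

namespace Pool.Agent.P.MP_33ab4b_ag.T

open scoped Classical

namespace FMx

variable {K V I : Type} [Field K] [LinearOrder K] [IsStrictOrderedRing K] [Fintype V]
  [DecidableEq V] [Fintype I] [DecidableEq I] {P : HP K V I} {T : TAG P}

/-- The coordinate map of the decomposition into `B` and the free vertices. -/
theorem exists_co (A : TAA T) : ∃ co : (I → K) →ₗ[K] (V → K),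
    (∀ x a, (a = T.S ∨ a ∈ T.J) → co x a = 0) ∧ (∀ x, x - P.cl (co x) ∈ T.B) ∧
    ∀ x (c : V → K), (∀ a, (a = T.S ∨ a ∈ T.J) → c a = 0) → x - P.cl c ∈ T.B → co x = c := by
  choose b hb c hc hx using A.span
  have h1 : ∀ x, x - P.cl (c x) ∈ T.B := fun x => by
    have : x - P.cl (c x) = b x := by
      rw [sub_eq_iff_eq_add]; exact hx x
    rw [this]; exact hb x
  have h2 : ∀ x (c' : V → K), (∀ a, (a = T.S ∨ a ∈ T.J) → c' a = 0) → x - P.cl c' ∈ T.B →
      c x = c' := by
    intro x c' hc' hm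
    have := A.indep (c x - c') (fun a ha => by simp [hc x a ha, hc' a ha]) (by
      have e : P.cl (c x - c') = (x - P.cl c') - (x - P.cl (c x)) := by
        rw [P.cl_sub]; abel
      rw [e]; exact T.B.sub_mem hm (h1 x))
    exact sub_eq_zero.mp this
  refine ⟨⟨⟨c, fun x y => ?_⟩, fun r x => ?_⟩, hc, h1, h2⟩
  · refine h2 _ _ (fun a ha => by simp [hc x a ha, hc y a ha]) ?_
    have e : x + y - P.cl (c x + c y) = (x - P.cl (c x)) + (y - P.cl (c y)) := by
      rw [P.cl_add]; abel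
    rw [e]; exact T.B.add_mem (h1 x) (h1 y)
  · refine h2 _ _ (fun a ha => by simp [hc x a ha]) ?_
    have e : r • x - P.cl ((RingHom.id K) r • c x) = r • (x - P.cl (c x)) := by
      rw [RingHom.id_apply, P.cl_smul, smul_sub]
    rw [e]; exact T.B.smul_mem r (h1 x)

/-- Restriction of coefficients to a set of vertices. -/
noncomputable def res (Q : V → Prop) : (V → K) →ₗ[K] (V → K) where
  toFun c := fun a => if Q a then c a else 0
  map_add' x y := by funext a; by_cases h : Q a <;> simp [h]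
  map_smul' r x := by funext a; by_cases h : Q a <;> simp [h]

theorem mu_cl_zero (P : HP K V I) {c : V → K} {i : V}
    (h : ∀ k, c k ≠ 0 → k ≠ i ∧ ¬ P.adj i k) (z : I → K) : P.mu (P.cl c) (P.D i) z = 0 := by
  rw [P.mu_cl]
  refine Finset.sum_eq_zero fun k _ => ?_
  by_cases hk : c k = 0
  · simp [hk]
  · obtain ⟨h1, h2⟩ := h k hk
    rw [P.mnadj k i h1 (fun e => h2 e.symm)]
    simp

theorem not_mer {a i : V} (hi : i ∈ T.In) : ¬ (a ∈ T.C ∧ (i = T.up a ∨ i = T.dn a)) := by
  rintro ⟨ha, h | h⟩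
  · rcases (T.upC a ha).2 with e | e
    · exact T.NC.2.2.1 (by rw [← e, ← h]; exact hi)
    · exact T.disj _ e.1 (by rw [← h]; exact hi)
  · rcases (T.dnC a ha).2 with e | e
    · exact T.NC.2.2.2 (by rw [← e, ← h]; exact hi)
    · exact T.disj _ e.1 (by rw [← h]; exact hi)

theorem std_ai {a i : V} (hi : i ∈ T.In) : Std (P.m3 a a i) ∧ Std (P.m3 i i a) := by
  have hC : i ∉ T.C := fun h => T.disj i h hi
  by_cases e : a = i
  · subst e; exact ⟨T.stdT a hi, T.stdT a hi⟩
  by_cases h : P.adj a i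
  · refine ⟨T.stdw a i h ?_, T.stdw i a h.symm ?_⟩
    · rintro (h1 | h1)
      · exact not_mer hi h1
      · exact hC h1.1
    · rintro (h1 | h1)
      · exact hC h1.1
      · exact not_mer hi h1
  · constructor
    · rw [HP.m3, P.nadj e h]; exact Std.zero
    · rw [HP.m3, P.mu23, P.nadj e h]; exact Std.zero

theorem std_m3 {a b i : V} (hi : i ∈ T.In) : Std (P.m3 a b i) := by
  by_cases h1 : a = b
  · subst h1; exact (std_ai hi).1
  by_cases h2 : a = i
  · subst h2
    have := (std_ai (a := b) hi).2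
    rw [HP.m3] at this ⊢
    rwa [P.mu23]
  by_cases h3 : b = i
  · subst h3
    have := (std_ai (a := a) hi).2
    rw [HP.m3] at this ⊢
    rwa [P.mu13]
  exact P.m3_std h1 h2 h3

theorem BW (A : TAA T) {b w : I → K} (hb : b ∈ T.B) (hw : w ∈ T.W0) (z : I → K) :
    P.mu b w z = 0 := by
  obtain ⟨c, hc, rfl⟩ := P.mem_sp.mp hw
  rw [P.mu12, P.mu_cl]
  refine Finset.sum_eq_zero fun k _ => ?_
  by_cases hk : k ∈ T.In
  · rw [P.mu12, A.BI b hb k hk]; simp
  · simp [hc k (by simpa using hk)]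

end FMx

open FMx in
theorem p_FM (hVERT : S_VERT) (hDEF0 : S_DEF0) (hRAD0 : S_RAD0) :
    S_FM := by
  intro K V I _ _ _ _ _ _ _ P T A d ψ c I2 hst hP hψ hc hN hI2 h12 h1C
  obtain ⟨co, co0, coB, cou⟩ := exists_co A
  set Q : V → Prop := fun a => a ∈ T.In ∧ a ∉ I2 with hQ
  let pr : (I → K) →ₗ[K] (I → K) := P.clL ∘ₗ res Q ∘ₗ co
  have hpr : ∀ x, pr x = P.cl (fun a => if Q a then co x a else 0) := fun x =>
    congrArg P.cl (funext fun a => by by_cases h : Q a <;> simp [res, h])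
  let m : Module.End K (I → K) :=
    ∑ a, (LinearMap.proj a ∘ₗ co).smulRight (pr (P.ep d a))
  have hm : ∀ x, m x = ∑ a, co x a • pr (P.ep d a) := fun x => by
    simp [m, LinearMap.sum_apply]
  let W : Submodule K (I → K) := P.sp {a | Q a}
  have hWle : ∀ w ∈ W, w ∈ T.W0 := fun w hw => by
    obtain ⟨e, he, rfl⟩ := P.mem_sp.mp hw
    exact P.mem_sp.mpr ⟨e, fun a ha => he a (fun h => ha (by simpa using h.1)), rfl⟩
  have hprW : ∀ x, pr x ∈ W := fun x =>
    P.mem_sp.mpr ⟨_, fun a ha => if_neg ha, hpr x⟩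
  have hmW : ∀ x, m x ∈ W := fun x => by
    rw [hm]; exact sum_mem fun a _ => W.smul_mem _ (hprW _)
  have hIn0 : ∀ a, (a = T.S ∨ a ∈ T.J) → a ∉ T.In := by
    rintro a (rfl | h)
    · exact T.NC.2.2.2
    · exact T.disj a (T.JC a h).1
  have hmB : ∀ b ∈ T.B, m b = 0 := fun b hb => by
    have : co b = 0 := cou b 0 (fun _ _ => rfl) (by simpa using hb)
    simp [hm, this]
  have hmD : ∀ a, ¬ (a = T.S ∨ a ∈ T.J) → m (P.D a) = pr (P.ep d a) := fun a ha => by
    have : co (P.D a) = Pi.single a 1 := cou _ _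
      (fun k hk => Pi.single_eq_of_ne (by rintro rfl; exact ha hk) _)
      (by rw [P.cl_single, sub_self]; exact T.B.zero_mem)
    rw [hm, this, Finset.sum_eq_single a]
    · simp
    · intro k _ hk; simp [Pi.single_eq_of_ne hk]
    · simp
  have hcoN : co (P.ep d T.N) = c := cou _ _ (fun a ha => hc a (by tauto))
    (by rw [hN, add_sub_cancel_right]; exact hψ)
  have hcoP : ∀ x ∈ T.Pm, ∀ k, k ∉ T.In → co x k = 0 := by
    intro x hx k hk
    obtain ⟨b, hb, w, hw, rfl⟩ := Submodule.mem_sup.mp hx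
    obtain ⟨e, he, rfl⟩ := P.mem_sp.mp hw
    rw [cou _ e (fun a ha => he a (by simpa using hIn0 a ha))
      (by rw [add_sub_cancel_right]; exact hb)]
    exact he k (by simpa using hk)
  have hsplit : ∀ x, x = (x - P.cl (co x)) + pr x +
      P.cl (fun a => if Q a then 0 else co x a) := fun x => by
    have e : co x = (fun a => if Q a then co x a else 0) + fun a => if Q a then 0 else co x a := by
      funext a; by_cases h : Q a <;> simp [h]
    rw [hpr, add_assoc, ← P.cl_add, ← e]; abel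
  have hK2 : ∀ a, a ≠ T.S → ∀ i, Q i → ∀ z,
      P.mu (P.ep d a) (P.D i) z = P.mu (pr (P.ep d a)) (P.D i) z := by
    intro a ha i hi z
    have hz : P.mu (P.cl (fun k => if Q k then 0 else co (P.ep d a) k)) (P.D i) z = 0 := by
      refine mu_cl_zero P (fun k hk => ?_) z
      have hQk : ¬ Q k := fun h => hk (if_pos h)
      rw [if_neg hQk] at hk
      refine ⟨by rintro rfl; exact hQk hi, fun hadj => ?_⟩
      by_cases hkI : k ∈ T.In
      · exact h12 i hi.1 hi.2 k (by by_contra h; exact hQk ⟨hkI, h⟩) hadj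
      · rcases T.part a with rfl | rfl | h | h
        · rw [hcoN] at hk
          rcases T.part k with e | e | e | e
          · exact hk (hc k (Or.inl e))
          · exact hk (hc k (Or.inr (Or.inl e)))
          · exact hk (h1C i hi.1 hi.2 k e hadj)
          · exact hkI e
        · exact ha rfl
        · exact hk (hcoP _ (hP a h) k hkI)
        · exact hk (hcoP _ (Submodule.mem_sup_right (hst.2.2.1 d a h)) k hkI)
    have hb : P.mu (P.ep d a - P.cl (co (P.ep d a))) (P.D i) z = 0 := by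
      rw [A.BI _ (coB _) i hi.1]; rfl
    conv_lhs => rw [hsplit (P.ep d a)]
    simp only [map_add, LinearMap.add_apply, hz, hb, zero_add, add_zero]
  have hK1 : ∀ i, Q i → pr (P.ep d i) = P.ep d i := by
    intro i hi
    obtain ⟨e, he, hx⟩ := P.mem_sp.mp (hst.2.2.1 d i hi.1)
    have hco : co (P.ep d i) = e := cou _ e (fun a ha => he a (by simpa using hIn0 a ha))
      (by rw [hx, sub_self]; exact T.B.zero_mem)
    have hsp := hsplit (P.ep d i)
    rw [hco, ← hx, sub_self, zero_add] at hsp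
    have h2 : ∀ k, Q k → ∀ z, P.mu (P.cl (fun a => if Q a then 0 else e a)) (P.D k) z = 0 := by
      intro k hk z
      refine mu_cl_zero P (fun l hl => ?_) z
      have hQl : ¬ Q l := fun h => hl (if_pos h)
      rw [if_neg hQl] at hl
      have hlI : l ∈ T.In := by by_contra h; exact hl (he l (by simpa using h))
      exact ⟨by rintro rfl; exact hQl hk,
        h12 k hk.1 hk.2 l (by by_contra h; exact hQl ⟨hlI, h⟩)⟩
    have h0 : P.cl (fun a => if Q a then 0 else e a) = 0 := by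
      refine hRAD0 K V I P T A _ (P.mem_sp.mpr ⟨_, fun a ha => by simp [he a ha], rfl⟩) ?_
      intro k hk k' hk'
      by_cases hQk : Q k
      · exact h2 k hQk _
      by_cases hQk' : Q k'
      · rw [P.mu23]; exact h2 k' hQk' _
      have hk2 : k ∈ I2 := by by_contra h; exact hQk ⟨hk, h⟩
      have hk2' : k' ∈ I2 := by by_contra h; exact hQk' ⟨hk', h⟩
      have e1 : P.mu (pr (P.ep d i)) (P.D k) (P.D k') = 0 := by
        rw [hpr]
        refine mu_cl_zero P (fun l hl => ?_) _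
        have hQl : Q l := by by_contra h; exact hl (if_neg h)
        exact ⟨by rintro rfl; exact hQk hQl, fun h => h12 l hQl.1 hQl.2 k hk2 h.symm⟩
      have e2 : P.mu (P.ep d i) (P.D k) (P.D k') = 0 := by
        have := P.d_mu_zero d (P.mnadj i k (by rintro rfl; exact hQk hi)
          (h12 i hi.1 hi.2 k hk2)) (P.D k')
        rw [P.mu12 (P.D i), P.nadj (by rintro rfl; exact hQk' hi) (h12 i hi.1 hi.2 k' hk2'),
          add_zero] at this
        exact this
      rw [hsp] at e2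
      simpa only [map_add, LinearMap.add_apply, e1, zero_add] using e2
    rw [h0, add_zero] at hsp
    exact hsp.symm
  have hD : ∀ a b i, ¬ (a = T.S ∨ a ∈ T.J) → ¬ (b = T.S ∨ b ∈ T.J) → Q i →
      rho m P.mu (P.D a) (P.D b) (P.D i) = 0 := by
    intro a b i ha hb hi
    have h0 := (std_m3 (a := a) (b := b) hi.1).der d
    rw [HP.m3, P.d_mu] at h0
    rw [rho, hmD a ha, hmD b hb, hmD i (fun h => hIn0 i h hi.1), hK1 i hi, P.mu23 (pr _),
      ← hK2 a (fun h => ha (Or.inl h)) i hi, P.mu12 (P.D a) (pr _), P.mu23 (pr _),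
      ← hK2 b (fun h => hb (Or.inl h)) i hi, P.mu23 (P.ep d a), P.mu23 (P.ep d b),
      P.mu12 (P.ep d b)]
    exact h0
  let R : Tri K (I → K) := P.mu ∘ₗ m + P.mu.compl₂ m + P.mu.compr₂ (LinearMap.lcomp K K m)
  have hR : ∀ x y z, R x y z = rho m P.mu x y z := fun x y z => rfl
  have hRsym : ∀ x y z, R x y z = R y x z := fun x y z => by
    rw [hR, hR, rho, rho, P.mu12 (m x), P.mu12 x (m y), P.mu12 x y]; ring
  have hRB : ∀ b ∈ T.B, ∀ y i, Q i → R b y (P.D i) = 0 := by
    intro b hb y i hi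
    rw [hR, rho, hmB b hb, BW A hb (hWle _ (hmW y)), P.mu23 b, BW A hb (hWle _ (hmW _))]
    simp
  have hext : ∀ l : (I → K) →ₗ[K] K, (∀ b ∈ T.B, l b = 0) →
      (∀ a, ¬ (a = T.S ∨ a ∈ T.J) → l (P.D a) = 0) → ∀ x, l x = 0 := by
    intro l h1 h2 x
    obtain ⟨b, hb, e, he, rfl⟩ := A.span x
    rw [map_add, h1 b hb, P.form_cl, zero_add]
    refine Finset.sum_eq_zero fun a _ => ?_
    by_cases ha : a = T.S ∨ a ∈ T.J
    · simp [he a ha]
    · simp [h2 a ha]
  have hRi : ∀ x y i, Q i → R x y (P.D i) = 0 := by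
    intro x y i hi
    refine hext ((R.flip y).flip (P.D i)) (fun b hb => hRB b hb y i hi) (fun a ha => ?_) x
    exact hext ((R (P.D a)).flip (P.D i))
      (fun b hb => (hRsym _ _ _).trans (hRB b hb _ i hi)) (fun b hb => hD a b i ha hb hi) y
  have hRW : ∀ x y, ∀ w ∈ W, rho m P.mu x y w = 0 := by
    intro x y w hw
    obtain ⟨e, he, rfl⟩ := P.mem_sp.mp hw
    rw [← hR, P.form_cl]
    refine Finset.sum_eq_zero fun a _ => ?_
    by_cases ha : Q a
    · simp [hRi x y a ha]
    · simp [he a ha]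
  have hV := (hVERT K (I → K) P.mu m W P.H P.sym hmW hRW
    (fun w hw h => hDEF0 K V I P T A w (hWle w hw) h)).1
  have hN0 : ¬ (T.N = T.S ∨ T.N ∈ T.J) := by
    rintro (h | h)
    · exact T.NS h
    · exact T.NC.1 (T.JC _ h).1
  have hom : m (P.D T.N) = P.cl (fun a => if a ∈ T.In ∧ a ∉ I2 then c a else 0) := by
    rw [hmD _ hN0, hpr, hcoN]
  rw [← hom]
  constructor
  · have := hV (P.D T.N) (P.D T.N) (P.D T.N)
    rw [rho, P.mu12 (P.D T.N) (m _), P.mu13 (P.D T.N) (P.D T.N) (m _)] at this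
    linarith
  · intro y hy hyJ
    have hne : T.N ≠ y := by rintro h; exact T.NC.1 (h ▸ hy)
    have hna : ¬ P.adj T.N y := fun h => (T.adjN y h).elim hyJ (T.disj y hy)
    have := hV (P.D T.N) (P.D y) (P.D y)
    rw [rho, P.mu12 (P.D T.N) (m _), P.mu13 (P.D T.N) (P.D y) (m _), P.mu23 (m (P.D y)) (P.D y),
      P.nadj hne hna] at this
    simpa using this

end Pool.Agent.P.MP_33ab4b_ag.T
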