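import Pool.Agent.P.MP_33ab4b_ag.T.IfaceF

/-! Step FRB. -/

set_option autoImplicit false

namespace Pool.Agent.P.MP_33ab4b_ag.T

open scoped Classical

namespace FRBx

section field

variable {K : Type} [Field K] [LinearOrder K] [IsStrictOrderedRing K]

theorem form_bo {a b c x : V3 K} (hd : 1 ≤ |det3 a b c|) (hx : FinB a b c x) (u : Fm K) (r : K)
    (ha : BO (u a) r) (hb : BO (u b) r) (hc : BO (u c) r) : BO (u x) r := by
  have h : BO (det3 a b c * u x) r := by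
    rw [form_cramer]
    exact ((ha.fi_mul hx.1).add (hb.fi_mul hx.2.1)).add (hc.fi_mul hx.2.2)
  refine h.mono ?_
  rw [abs_mul]
  exact le_mul_of_one_le_left (abs_nonneg _) hd

theorem form_fi {a b c x : V3 K} (hd : 1 ≤ |det3 a b c|) (hx : FinB a b c x) (u : Fm K)
    (ha : Fi (u a)) (hb : Fi (u b)) (hc : Fi (u c)) : Fi (u x) :=
  bo_one_iff.mp (form_bo hd hx u 1 (bo_one_iff.mpr ha) (bo_one_iff.mpr hb) (bo_one_iff.mpr hc))

theorem finB_of {a b c x : V3 K} (h1 : Fi (det3 b c x)) (h2 : Fi (det3 c a x))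
    (h3 : Fi (det3 a b x)) : FinB a b c x :=
  ⟨h1.of_eq (det3_rot x b c).symm, h2.of_eq (det3_rot c a x), h3⟩

theorem FinB.f1 {a b c x : V3 K} (h : FinB a b c x) : Fi (det3 b c x) :=
  h.1.of_eq (det3_rot x b c)

theorem FinB.f2 {a b c x : V3 K} (h : FinB a b c x) : Fi (det3 c a x) :=
  h.2.1.of_eq (det3_rot c a x).symm

theorem pair_fi {a b c x p q : V3 K} (h : FinB a b c x) (hp : p = a ∨ p = b ∨ p = c)
    (hq : q = a ∨ q = b ∨ q = c) : Fi (det3 p q x) := by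
  have h1 := FinB.f1 h
  have h2 := FinB.f2 h
  have h3 := h.2.2
  rcases hp with rfl | rfl | rfl <;> rcases hq with rfl | rfl | rfl
  · exact Fi.zero.of_eq (det3_self12 _ _)
  · exact h3
  · exact h2.neg.of_eq (det3_swap12 _ _ _)
  · exact h3.neg.of_eq (det3_swap12 _ _ _)
  · exact Fi.zero.of_eq (det3_self12 _ _)
  · exact h1
  · exact h2
  · exact h1.neg.of_eq (det3_swap12 _ _ _)
  · exact Fi.zero.of_eq (det3_self12 _ _)

end field

variable {K V : Type} [Field K] [LinearOrder K] [IsStrictOrderedRing K] [Fintype V] [DecidableEq V]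
  {Φ : Fan K V}

theorem abs_det {a b c : V} (h : Φ.face a b c) : |det3 (Φ.v a) (Φ.v b) (Φ.v c)| = 1 := by
  rcases h.det with e | e <;> rw [e] <;> simp

theorem mem3 {a b c p : V} (h : p ∈ ({a, b, c} : Finset V)) :
    Φ.v p = Φ.v a ∨ Φ.v p = Φ.v b ∨ Φ.v p = Φ.v c := by
  simp only [Finset.mem_insert, Finset.mem_singleton] at h
  rcases h with rfl | rfl | rfl
  · exact Or.inl rfl
  · exact Or.inr (Or.inl rfl)
  · exact Or.inr (Or.inr rfl)

theorem i1 {a b c : V} {x : V3 K} (hx : FinB (Φ.v a) (Φ.v b) (Φ.v c) x) :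
    Φ.FinF {a, b, c} x := by
  intro a' b' c' e
  have ha : a' ∈ ({a, b, c} : Finset V) := by rw [e]; simp
  have hb : b' ∈ ({a, b, c} : Finset V) := by rw [e]; simp
  have hc : c' ∈ ({a, b, c} : Finset V) := by rw [e]; simp
  exact finB_of (pair_fi hx (mem3 hb) (mem3 hc)) (pair_fi hx (mem3 hc) (mem3 ha))
    (pair_fi hx (mem3 ha) (mem3 hb))

theorem i2 {s : Finset V} (hs : s ∈ Φ.F) : Φ.FinRel s s := by
  obtain ⟨a, b, c, rfl, h⟩ := Fan.exists_face_eq hs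
  have hd : Fi (det3 (Φ.v a) (Φ.v b) (Φ.v c)) :=
    Fi.one.of_abs_le (by rw [abs_det h]; simp)
  intro i hi
  refine i1 ?_
  simp only [Finset.mem_insert, Finset.mem_singleton] at hi
  rcases hi with rfl | rfl | rfl
  · exact ⟨hd, Fi.zero.of_eq (det3_self12 _ _), Fi.zero.of_eq (det3_self13 _ _)⟩
  · exact ⟨Fi.zero.of_eq (det3_self12 _ _), hd, Fi.zero.of_eq (det3_self23 _ _)⟩
  · exact ⟨Fi.zero.of_eq (det3_self13 _ _), Fi.zero.of_eq (det3_self23 _ _), hd⟩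

theorem i6 {s : Finset V} (hs : s ∈ Φ.F) (u : Fm K) (r : K) (hu : ∀ i ∈ s, BO (u (Φ.v i)) r)
    {x : V3 K} (hx : Φ.FinF s x) : BO (u x) r := by
  obtain ⟨a, b, c, rfl, h⟩ := Fan.exists_face_eq hs
  exact form_bo (abs_det h).ge (hx a b c rfl) u r (hu a (by simp)) (hu b (by simp))
    (hu c (by simp))

theorem i6' {s : Finset V} (hs : s ∈ Φ.F) (u : Fm K) (hu : ∀ i ∈ s, Fi (u (Φ.v i)))
    {x : V3 K} (hx : Φ.FinF s x) : Fi (u x) :=
  bo_one_iff.mp (i6 hs u 1 (fun i hi => bo_one_iff.mpr (hu i hi)) hx)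

theorem i7 {a b c : V3 K} {s : Finset V} (hs : s ∈ Φ.F) (h : ∀ i ∈ s, FinB a b c (Φ.v i))
    {x : V3 K} (hx : Φ.FinF s x) : FinB a b c x :=
  finB_of (i6' hs (detL b c) (fun i hi => FinB.f1 (h i hi)) hx)
    (i6' hs (detL c a) (fun i hi => FinB.f2 (h i hi)) hx)
    (i6' hs (detL a b) (fun i hi => (h i hi).2.2) hx)

theorem i4 {s s' : Finset V} (hs' : s' ∈ Φ.F) (h : Φ.FinRel s s') {x : V3 K}
    (hx : Φ.FinF s' x) : Φ.FinF s x :=
  fun a b c e => i7 hs' (fun i hi => h i hi a b c e) hx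

theorem i5 {s : Finset V} (hs : s ∈ Φ.F) {x y z : V3 K} (hx : Φ.FinF s x) (hy : Φ.FinF s y)
    (hz : Φ.FinF s z) : Fi (det3 x y z) := by
  refine i6' hs (detL x y) (fun i hi => ?_) hz
  have h1 : Fi (detL (Φ.v i) x y) := by
    refine i6' hs (detL (Φ.v i) x) (fun j hj => ?_) hy
    obtain ⟨a, b, c, rfl, _⟩ := Fan.exists_face_eq hs
    exact (pair_fi (hx a b c rfl) (mem3 hj) (mem3 hi)).of_eq (det3_rot _ _ _)
  exact h1.of_eq (det3_rot _ _ _)

theorem i3 {s s' : Finset V} (hs : s ∈ Φ.F) (h : Φ.FinRel s s') : Φ.FinRel s' s := by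
  intro i hi a b c e
  have ha := h a (by rw [e]; simp)
  have hb := h b (by rw [e]; simp)
  have hc := h c (by rw [e]; simp)
  have h0 := i2 hs i hi
  exact ⟨i5 hs h0 hb hc, i5 hs ha h0 hc, i5 hs ha hb h0⟩

theorem i8 {a b c : V3 K} (hd : 1 ≤ |det3 a b c|) {s s' : Finset V} (hs' : s' ∈ Φ.F)
    (ha : Φ.FinF s a) (hb : Φ.FinF s b) (hc : Φ.FinF s c) (ha' : Φ.FinF s' a) (hb' : Φ.FinF s' b)
    (hc' : Φ.FinF s' c) : Φ.FinRel s s' := by
  intro i hi p q r e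
  have h0 := i2 hs' i hi
  have hx : FinB a b c (Φ.v i) := ⟨i5 hs' h0 hb' hc', i5 hs' ha' h0 hc', i5 hs' ha' hb' h0⟩
  exact finB_of
    (form_fi hd hx (detL _ _) (FinB.f1 (ha p q r e)) (FinB.f1 (hb p q r e)) (FinB.f1 (hc p q r e)))
    (form_fi hd hx (detL _ _) (FinB.f2 (ha p q r e)) (FinB.f2 (hb p q r e)) (FinB.f2 (hc p q r e)))
    (form_fi hd hx (detL _ _) (ha p q r e).2.2 (hb p q r e).2.2 (hc p q r e).2.2)

theorem i9 (hWALL : S_WALL) {a b k l : V} (hk : Φ.face a b k) (hl : Φ.face a b l) (hkl : k ≠ l) :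
    Φ.WallFin a b ↔ Φ.FinRel {a, b, k} {a, b, l} := by
  constructor
  · intro h i hi
    simp only [Finset.mem_insert, Finset.mem_singleton] at hi
    rcases hi with e | e | e
    · exact i2 hk i (by simp [e])
    · exact i2 hk i (by simp [e])
    · rw [e]; exact i1 (h k l hk hl)
  · intro h k' l' hk' hl'
    obtain ⟨k0, l0, _, _, _, _, _, hc⟩ := hWALL K V Φ a b hk.adj12
    have key : ∀ c, Φ.face a b c → c = k ∨ c = l := by
      intro c hc'
      rcases hc c hc' with e | e <;> rcases hc k hk with e1 | e1 <;> rcases hc l hl with e2 | e2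
      all_goals first
        | exact Or.inl (e.trans e1.symm)
        | exact Or.inr (e.trans e2.symm)
        | exact absurd (e1.trans e2.symm) hkl
    rcases key k' hk' with e1 | e1 <;> rcases key l' hl' with e2 | e2 <;> rw [e1, e2]
    · exact i2 hk k (by simp) a b k rfl
    · exact h l (by simp) a b k rfl
    · exact i3 hk h k (by simp) a b l rfl
    · exact i2 hl l (by simp) a b l rfl

theorem det_smul (r : K) (x y z : V3 K) : det3 (r • x) y z = r * det3 x y z := by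
  simp only [det3, Pi.smul_apply, smul_eq_mul]; ring

theorem i10 (Ψ : HFan K V) {a b : V} {r : K} (hr : 0 < r) (h : Ψ.v b = (-r) • Ψ.v a) : r = 1 := by
  obtain ⟨s, hs, ha⟩ := Ψ.used a
  obtain ⟨p, q, _, hf⟩ := Fan.exists_face_of_mem hs ha
  obtain ⟨s', hs', hb⟩ := Ψ.used b
  obtain ⟨p', q', _, hf'⟩ := Fan.exists_face_of_mem hs' hb
  have e1 : |det3 (Ψ.v b) (Ψ.v p) (Ψ.v q)| = r := by
    rw [h, det_smul, abs_mul, abs_det hf, abs_neg, abs_of_pos hr, mul_one]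
  have h1 : 1 ≤ r := by
    rw [← e1]
    refine Ψ.hf.one_le_abs (det3_mem _ (Ψ.vZ _) (Ψ.vZ _) (Ψ.vZ _)) ?_
    intro e
    rw [e, abs_zero] at e1
    exact hr.ne e1
  have e2 : r * |det3 (Ψ.v a) (Ψ.v p') (Ψ.v q')| = 1 := by
    have := abs_det hf'
    rwa [h, det_smul, abs_mul, abs_neg, abs_of_pos hr] at this
  have h2 : 1 ≤ |det3 (Ψ.v a) (Ψ.v p') (Ψ.v q')| := by
    refine Ψ.hf.one_le_abs (det3_mem _ (Ψ.vZ _) (Ψ.vZ _) (Ψ.vZ _)) ?_
    intro e
    rw [e] at e2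
    simp at e2
  nlinarith

end FRBx

theorem p_FRB (hWALL : S_WALL) :
    S_FRB := by
  intro K V _ _ _ _ _ Φ
  exact ⟨fun _ _ _ _ _ hx => FRBx.i1 hx, fun _ hs => FRBx.i2 hs,
    fun _ hs _ _ h => FRBx.i3 hs h, fun _ _ _ hs' h _ hx => FRBx.i4 hs' h hx,
    fun _ hs _ _ _ hx hy hz => FRBx.i5 hs hx hy hz, fun _ hs u r hu _ hx => FRBx.i6 hs u r hu hx,
    fun _ _ _ _ hs h _ hx => FRBx.i7 hs h hx,
    fun _ _ _ hd _ _ _ hs' ha hb hc ha' hb' hc' => FRBx.i8 hd hs' ha hb hc ha' hb' hc',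
    fun _ _ _ _ hk hl hkl => FRBx.i9 hWALL hk hl hkl, fun _ _ _ hr h => FRBx.i10 Φ hr h⟩

end Pool.Agent.P.MP_33ab4b_ag.T
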