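import Pool.Agent.P.MP_33ab4b_ag.T.IfaceP
import Pool.Agent.P.MP_33ab4b_ag.T.IfaceA
import Pool.Agent.P.MP_33ab4b_ag.T.Fb23

/-! Step G34. -/

set_option autoImplicit false

namespace Pool.Agent.P.MP_33ab4b_ag.T

open scoped Classical

theorem p_G34 (hSTD : S_STD) :
    S_G34 := by
  intro K V I _ _ _ _ _ _ _ P G A hf hc h4
  have mem := G.cyc.mem
  have skew : ∀ d : Derivation ℚ K K, ∀ x ∈ G.X, ∀ y ∈ G.X, G.Gm d x y = - G.Gm d y x := by
    intro d x hx y hy
    have h1 := P.d_mu d G.fc (P.D x) (P.D y)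
    have h2 : Std (P.mu G.fc (P.D x) (P.D y)) := by
      rw [A.fXX x hx y hy]
      split_ifs
      exacts [(hc x hx).neg, Std.one, Std.zero]
    rw [h2.der d, hf d, map_zero, LinearMap.zero_apply, LinearMap.zero_apply, zero_add,
      P.mu23 G.fc (P.D x)] at h1
    unfold PLG.Gm HP.ep
    linarith
  have diag : ∀ d : Derivation ℚ K K, ∀ x ∈ G.X, G.Gm d x x = 0 := fun d x hx => by
    have := skew d x hx x hx
    linarith
  have out : ∀ d : Derivation ℚ K K, ∀ x y, y ∉ G.X → G.Gm d x y = 0 := fun d x y hy => by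
    unfold PLG.Gm
    rw [P.mu23, A.fD0 y hy, LinearMap.zero_apply]
  have rel : ∀ d : Derivation ℚ K K, ∀ x z, ∑ y ∈ G.X, G.Gm d x y * G.w (P.v z) (P.v y) = 0 := by
    intro d x z
    have := P.LR (P.mu G.fc (P.ep d x)) (detL (P.v G.k0) (P.v z))
    rw [← this, ← Finset.sum_subset (Finset.subset_univ G.X)
      (fun y _ hy => by
        have := out d x y hy
        unfold PLG.Gm at this
        rw [this, mul_zero])]
    exact Finset.sum_congr rfl fun y _ => by rw [mul_comm]; rfl
  have wself : ∀ x : V3 K, G.w x x = 0 := fun x => Fb.det_self23 _ _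
  have wswap : ∀ x y : V3 K, G.w y x = - G.w x y := fun x y => Fb.det_swap' _ _ _
  have w1 : ∀ x ∈ G.X, G.w (P.v x) (P.v (G.nx x)) = 1 := G.w1
  have w1' : ∀ x ∈ G.X, G.w (P.v (G.pv x)) (P.v x) = 1 := fun x hx => by
    have := w1 _ (mem x hx).2.1
    rwa [(mem x hx).2.2.2] at this
  have pvne : ∀ x ∈ G.X, G.pv x ≠ x := fun x hx h => by
    have := w1' x hx
    rw [h, wself] at this
    exact zero_ne_one this
  have wc : ∀ x ∈ G.X, ∀ z, G.w z (P.v (G.nx x)) + G.w z (P.v (G.pv x)) =
      G.cx x * G.w z (P.v x) := fun x hx z => by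
    unfold PLG.w
    rw [← Fb.det_add, G.cxv x hx, Fb.det_smul]
  have sub3 : ∀ x ∈ G.X, ({x, G.nx x, G.pv x} : Finset V) ⊆ G.X := fun x hx y hy => by
    simp only [Finset.mem_insert, Finset.mem_singleton] at hy
    rcases hy with rfl | rfl | rfl
    exacts [hx, (mem x hx).1, (mem x hx).2.1]
  have c3 : ∀ x ∈ G.X, ({x, G.nx x, G.pv x} : Finset V).card = 3 := fun x hx =>
    Finset.card_eq_three.2 ⟨_, _, _, (G.nxne x hx).1.symm, (pvne x hx).symm, (G.nxne x hx).2, rfl⟩
  by_cases h3 : ∃ x ∈ G.X, G.nx (G.nx x) = G.pv x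
  · obtain ⟨x0, hx0, e0⟩ := h3
    have hX0 : G.X = {x0, G.nx x0, G.pv x0} := by
      refine Finset.Subset.antisymm (fun y hy => ?_) (sub3 x0 hx0)
      refine G.cyc.orb (fun y => y ∈ ({x0, G.nx x0, G.pv x0} : Finset V)) x0 hx0 (by simp) ?_ y hy
      intro b _ hb
      simp only [Finset.mem_insert, Finset.mem_singleton] at hb ⊢
      rcases hb with rfl | rfl | rfl
      · simp
      · simp [e0]
      · simp [(mem x0 hx0).2.2.2]
    intro d x hx y hy
    have hX : G.X = {x, G.nx x, G.pv x} :=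
      (Finset.eq_of_subset_of_card_le (sub3 x hx) (by rw [c3 x hx, hX0, c3 x0 hx0])).symm
    have e : G.nx (G.nx x) = G.pv x := by
      have m := (mem _ (mem x hx).1).1
      rw [hX] at m
      simp only [Finset.mem_insert, Finset.mem_singleton] at m
      rcases m with m | m | m
      · exact absurd (m.trans (mem x hx).2.2.1.symm) (G.nxne _ (mem x hx).1).2
      · exact absurd m (G.nxne _ (mem x hx).1).1
      · exact m
    have w2 := w1 _ (mem x hx).1
    rw [e] at w2
    have r := fun z => rel d x z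
    simp only [hX] at r
    have n1 := (G.nxne x hx).1.symm
    have n2 := (pvne x hx).symm
    have n3 := (G.nxne x hx).2
    have r1 := r (G.nx x)
    have r2 := r (G.pv x)
    rw [Finset.sum_insert (by simp [n1, n2]), Finset.sum_pair n3, diag d x hx, wself] at r1 r2
    rw [w2] at r1
    rw [wswap (P.v (G.nx x)), w2] at r2
    rw [hX] at hy
    simp only [Finset.mem_insert, Finset.mem_singleton] at hy
    rcases hy with rfl | rfl | rfl
    · exact diag d _ hx
    · linarith
    · linarith
  push Not at h3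
  have n4 : ∀ x ∈ G.X, G.nx (G.nx x) ∉ ({x, G.nx x, G.pv x} : Finset V) := fun x hx m => by
    simp only [Finset.mem_insert, Finset.mem_singleton] at m
    rcases m with m | m | m
    · exact absurd (m.trans (mem x hx).2.2.1.symm) (G.nxne _ (mem x hx).1).2
    · exact absurd m (G.nxne _ (mem x hx).1).1
    · exact h3 x hx m
  have hX : ∀ x ∈ G.X, G.X = insert (G.nx (G.nx x)) {x, G.nx x, G.pv x} := fun x hx => by
    refine (Finset.eq_of_subset_of_card_le ?_ ?_).symm
    · exact Finset.insert_subset (mem _ (mem x hx).1).1 (sub3 x hx)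
    · rw [Finset.card_insert_of_notMem (n4 x hx), c3 x hx]; exact h4
  have e4 : ∀ x ∈ G.X, G.nx (G.nx (G.nx x)) = G.pv x := fun x hx => by
    have m1 := (mem x hx).1
    have m := (mem x hx).2.1
    rw [hX _ m1, (mem x hx).2.2.1] at m
    simp only [Finset.mem_insert, Finset.mem_singleton] at m
    rcases m with m | m | m | m
    · exact m.symm
    · exact absurd m.symm (G.nxne x hx).2
    · exact absurd m.symm (h3 x hx)
    · exact absurd m (pvne x hx)
  have rel4 : ∀ d : Derivation ℚ K K, ∀ x ∈ G.X, ∀ z,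
      G.Gm d x (G.nx (G.nx x)) * G.w (P.v z) (P.v (G.nx (G.nx x))) +
      G.Gm d x (G.nx x) * G.w (P.v z) (P.v (G.nx x)) +
      G.Gm d x (G.pv x) * G.w (P.v z) (P.v (G.pv x)) = 0 := fun d x hx z => by
    have r := rel d x z
    rw [hX x hx, Finset.sum_insert (n4 x hx),
      Finset.sum_insert (by simp [(G.nxne x hx).1.symm, (pvne x hx).symm]),
      Finset.sum_pair (G.nxne x hx).2, diag d x hx] at r
    linarith
  have flat : ∀ x ∈ G.X, G.cx x = 0 → ∀ d : Derivation ℚ K K, ∀ y ∈ G.X, G.Gm d x y = 0 := by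
    intro x hx c0
    have m1 := (mem x hx).1
    have nad : ¬ P.adj x (G.nx (G.nx x)) := fun h => by
      have := n4 x hx
      rcases (G.adjX x hx _ (mem _ m1).1).1 h with h | h <;> simp [h] at this
    have a1 : P.adj x (G.nx x) := (G.adjX x hx _ m1).2 (Or.inl rfl)
    have a2 : P.adj x (G.pv x) := (G.adjX x hx _ (mem x hx).2.1).2 (Or.inr rfl)
    have xn : x ≠ G.nx (G.nx x) := fun h => n4 x hx (by rw [← h]; simp)
    have F : ∀ d : Derivation ℚ K K,
        P.mu G.fc (P.ep d x) = G.Gm d x (G.nx x) • P.mu G.fc (P.D x) := by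
      intro d
      have r1 := rel4 d x hx (G.nx x)
      have r2 := rel4 d x hx x
      have k1 := wc x hx (P.v (G.nx x))
      have k2 := wc x hx (P.v x)
      rw [c0, zero_mul] at k1 k2
      rw [wself, zero_add] at k1
      rw [w1 _ m1, wself, k1] at r1
      have g0 : G.Gm d x (G.nx (G.nx x)) = 0 := by linarith
      rw [w1 x hx] at k2
      rw [g0, w1 x hx, show G.w (P.v x) (P.v (G.pv x)) = -1 by linarith] at r2
      refine P.form_ext fun a => ?_
      change G.Gm d x a = G.Gm d x (G.nx x) * P.mu G.fc (P.D x) (P.D a)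
      by_cases ha : a ∈ G.X
      · rw [A.fXX x hx a ha]
        rw [hX x hx] at ha
        simp only [Finset.mem_insert, Finset.mem_singleton] at ha
        rcases ha with rfl | rfl | rfl | rfl
        · rw [if_neg xn, if_neg nad, g0, mul_zero]
        · rw [if_pos rfl, c0, diag d _ hx, neg_zero, mul_zero]
        · rw [if_neg a1.1, if_pos a1, mul_one]
        · rw [if_neg a2.1, if_pos a2]; linarith
      · rw [out d x a ha, P.mu23, A.fD0 a ha, LinearMap.zero_apply, mul_zero]
    have sZ : ∀ i j : I, (Pi.single i (1 : K) : I → K) j ∈ P.hf.Z := fun i j => by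
      rw [Pi.single_apply]; split_ifs
      exacts [one_mem _, zero_mem _]
    have sS : ∀ i j : I, Std ((Pi.single i (1 : K) : I → K) j) := fun i j => by
      rw [Pi.single_apply]; split_ifs
      exacts [Std.one, Std.zero]
    have fZ : ∀ i, G.fc i ∈ P.hf.Z := fun i => by
      simp only [PLG.fc, HP.cl, Finset.sum_apply, Pi.smul_apply, smul_eq_mul]
      refine sum_mem fun a _ => mul_mem ?_ (P.DZ a i)
      rcases le_total (G.l (P.v a)) 0 with h | h
      · rw [max_eq_right h]; exact zero_mem _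
      · rw [max_eq_left h]; exact G.lZ a
    let z : I → K := fun i => P.mu G.fc (P.D x) (Pi.single i 1)
    have dz : ∀ d : Derivation ℚ K K, dv d z = G.Gm d x (G.nx x) • z := fun d => by
      funext i
      have h1 := P.d_mu d G.fc (P.D x) (Pi.single i 1)
      rw [hf d, dv_std d (sS i), map_zero, map_zero, LinearMap.zero_apply, LinearMap.zero_apply,
        zero_add, add_zero] at h1
      have h2 := LinearMap.congr_fun (F d) (Pi.single i 1)
      exact h1.trans h2
    let lam : (I → K) →ₗ[K] K := ∑ i, P.D (G.nx x) i • LinearMap.proj i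
    have lz : lam z = 1 := by
      have h1 := A.fXX x hx _ m1
      rw [if_neg a1.1, if_pos a1] at h1
      rw [← h1]
      conv_rhs => rw [pi_eq_sum_univ' (P.D (G.nx x))]
      simp [lam, z, map_sum, LinearMap.sum_apply]
    have zs := hSTD K P.hf I z 1 lam one_ne_zero
      (fun i => by rw [Rat.cast_one, one_mul]; exact P.mu_mem fZ (P.DZ x) (sZ i))
      (fun i => by
        simp only [lam, LinearMap.sum_apply, LinearMap.smul_apply, LinearMap.proj_apply,
          smul_eq_mul]
        exact sum_mem fun j _ => mul_mem (P.DZ _ j) (sZ i j))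
      (by rw [lz]; exact Std.one) (by rw [lz]; exact one_ne_zero) (fun d => ⟨_, dz d⟩)
    intro d y _
    have h1 := congrArg lam (dz d)
    rw [dv_std d zs, map_zero, map_smul, lz, smul_eq_mul, mul_one] at h1
    have h2 := LinearMap.congr_fun (F d) (P.D y)
    rw [← h1, zero_smul] at h2
    exact h2
  have copp : ∀ x ∈ G.X, G.cx (G.pv x) = - G.cx (G.nx x) ∧ G.cx x * G.cx (G.nx x) = 0 := by
    intro x hx
    have m1 := (mem x hx).1
    have m2 := (mem _ m1).1
    have mp := (mem x hx).2.1
    have pp : G.pv (G.pv x) = G.nx (G.nx x) := by rw [← e4 x hx, (mem _ m2).2.2.1]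
    have k1 := wc _ m1 (P.v x)
    have k2 := wc _ mp (P.v x)
    rw [(mem x hx).2.2.1, wself, w1 x hx] at k1
    rw [(mem x hx).2.2.2, wself, pp, wswap (P.v (G.pv x)), w1' x hx] at k2
    have k3 := wc x hx (P.v (G.nx (G.nx x)))
    have k4 := w1 _ m2
    rw [e4 x hx] at k4
    rw [k4, wswap (P.v (G.nx x)), w1 _ m1, wswap (P.v x)] at k3
    refine ⟨by linarith, ?_⟩
    rw [← mul_one (G.cx (G.nx x)), ← k1]
    linarith
  intro d x hx y hy
  obtain ⟨o1, o2⟩ := copp x hx
  rcases mul_eq_zero.1 o2 with c0 | c1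
  · exact flat x hx c0 d y hy
  have m1 := (mem x hx).1
  have mp := (mem x hx).2.1
  have g1 : G.Gm d x (G.nx x) = 0 := by rw [skew d x hx _ m1, flat _ m1 c1 d x hx, neg_zero]
  have g2 : G.Gm d x (G.pv x) = 0 := by
    rw [skew d x hx _ mp, flat _ mp (by rw [o1, c1, neg_zero]) d x hx, neg_zero]
  have r := rel4 d x hx (G.nx x)
  rw [g1, g2, w1 _ m1] at r
  rw [hX x hx] at hy
  simp only [Finset.mem_insert, Finset.mem_singleton] at hy
  rcases hy with rfl | rfl | rfl | rfl
  · linarith
  · exact diag d _ hx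
  · exact g1
  · exact g2

end Pool.Agent.P.MP_33ab4b_ag.T
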