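import Pool.Agent.P.MP_33ab4b_ag.T.IfaceP
import Pool.Agent.P.MP_33ab4b_ag.T.IfaceA

/-! Step G5A. -/

set_option autoImplicit false

namespace Pool.Agent.P.MP_33ab4b_ag.T

open scoped Classical

namespace G5Ax

variable {K V I : Type} [Field K] [LinearOrder K] [IsStrictOrderedRing K] [Fintype V]
  [DecidableEq V] [Fintype I] [DecidableEq I] {P : HP K V I} {G : PLG P}

/-- Two different plane vertices have at most one common neighbour in the plane. -/
theorem common (h5 : 5 ≤ G.X.card) {x y : V} (hx : x ∈ G.X) (hy : y ∈ G.X) (hxy : x ≠ y) :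
    ∃ m ∈ G.X, ∀ a ∈ G.X, P.adj x a → P.adj a y → a = m := by
  have m := G.cyc.mem
  by_cases c : P.adj (G.nx x) y
  · refine ⟨G.nx x, (m x hx).1, fun a ha h1 h2 => ?_⟩
    rcases (G.adjX x hx a ha).1 h1 with rfl | rfl
    · rfl
    · exfalso
      have e1 : y = G.nx (G.nx x) := ((G.adjX _ (m x hx).1 y hy).1 c).resolve_right
        fun e => hxy (by rw [e, (m x hx).2.2.1])
      have e2 : y = G.pv (G.pv x) := ((G.adjX _ ha y hy).1 h2).resolve_left
        fun e => hxy (by rw [e, (m x hx).2.2.2])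
      have four : G.nx (G.nx (G.nx (G.nx x))) = x := by
        rw [← e1, e2, (m _ ha).2.2.2, (m x hx).2.2.2]
      have hsub : G.X ⊆ {x, G.nx x, G.nx (G.nx x), G.nx (G.nx (G.nx x))} := by
        intro b hb
        refine G.cyc.orb
          (fun b => b ∈ ({x, G.nx x, G.nx (G.nx x), G.nx (G.nx (G.nx x))} : Finset V))
          x hx (by simp) ?_ b hb
        intro c _ hc
        simp only [Finset.mem_insert, Finset.mem_singleton] at hc ⊢
        rcases hc with rfl | rfl | rfl | rfl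
        · simp
        · simp
        · simp
        · exact Or.inl four
      have := (Finset.card_le_card hsub).trans Finset.card_le_four
      omega
  · refine ⟨G.pv x, (m x hx).2.1, fun a ha h1 h2 => ?_⟩
    rcases (G.adjX x hx a ha).1 h1 with rfl | rfl
    · exact absurd h2 c
    · rfl

/-- The fibre class kills `Kf`. -/
theorem fK (A : PLA G) {k : I → K} (hk : k ∈ G.Kf) (z : I → K) : P.mu G.fc k z = 0 := by
  obtain ⟨c, hc, rfl⟩ := P.mem_sp.1 hk
  rw [P.mu12, P.mu_cl]
  refine Finset.sum_eq_zero fun a _ => ?_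
  by_cases ha : a ∈ G.X
  · rw [hc a (by simpa using ha), zero_mul]
  · rw [P.mu12, A.fD0 a ha, LinearMap.zero_apply, mul_zero]

variable (R : TPF G)

/-- The shear. -/
def sh : V3 K := R.w0 • P.v R.x0 + R.w1 • P.v (G.nx R.x0)

theorem coordX {a : V} (ha : a ∈ G.X) :
    P.v a = (R.s0 a : K) • P.v R.x0 + (R.s1 a : K) • P.v (G.nx R.x0) := by
  have h : R.lq a = 0 := by
    have := R.lqv a
    rw [(G.memX a).1 ha] at this
    exact_mod_cast this.symm
  have := R.coord a
  simpa [h] using this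

theorem w0 {m : V} (hm : m ∈ G.X) : detL (P.v G.k0) (P.v m) (P.v R.x0) = - R.s1 m := by
  have h := G.w1 _ R.hx0
  rw [detL_apply, det3_swap23, ← detL_apply, coordX R hm, map_add, map_smul, map_smul]
  simp [h]

theorem w1 {m : V} (hm : m ∈ G.X) : detL (P.v G.k0) (P.v m) (P.v (G.nx R.x0)) = R.s0 m := by
  have h := G.w1 _ R.hx0
  rw [det3_swap23] at h
  have h' : det3 (P.v G.k0) (P.v (G.nx R.x0)) (P.v R.x0) = -1 := by linarith
  rw [detL_apply, det3_swap23, ← detL_apply, coordX R hm, map_add, map_smul, map_smul]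
  simp [h']

theorem wk {m : V} (hm : m ∈ G.X) : Std (detL (P.v G.k0) (P.v m) (P.v (G.ku R.x0))) := by
  have h : R.lq G.k0 = 1 := by
    have := R.lqv G.k0
    rw [G.k01] at this
    exact_mod_cast this.symm
  have e := congrArg (detL (P.v G.k0) (P.v m)) (R.coord G.k0)
  have z : max (-1 : ℚ) 0 = 0 := by norm_num
  simp only [map_add, map_smul, smul_eq_mul, w0 R hm, w1 R hm, h, z, Rat.cast_zero, zero_mul,
    add_zero, Rat.cast_one, one_mul] at e
  rw [detL_apply, det3_self13] at e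
  exact (((Std.rat (R.s0 G.k0)).mul (Std.rat (R.s1 m))).sub
    ((Std.rat (R.s1 G.k0)).mul (Std.rat (R.s0 m)))).of_eq (by linarith)

theorem wa {m : V} (hm : m ∈ G.X) (a : V) :
    Std (detL (P.v G.k0) (P.v m) (P.v a) - max (- G.l (P.v a)) 0 * G.w (P.v m) (sh R)) := by
  have e := congrArg (detL (P.v G.k0) (P.v m)) (R.coord a)
  rw [map_add, map_add, map_add, map_smul, map_smul, map_smul, map_smul, w0 R hm, w1 R hm] at e
  refine ((((Std.rat (R.s0 a)).mul (Std.rat (R.s1 m)).neg).add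
    ((Std.rat (R.s1 a)).mul (Std.rat (R.s0 m)))).add ((Std.rat (R.lq a)).mul (wk R hm))).of_eq ?_
  rw [e, R.lqv]
  simp [sh, PLG.w]

/-- The estimate for two vertices that are not adjacent. -/
theorem far (A : PLA G) (h5 : 5 ≤ G.X.card) {d : Derivation ℚ K K} {r : K} (S : R.Split d r)
    {x y : V} (hx : x ∈ G.X) (hy : y ∈ G.X) (hxy : x ≠ y) (hn : ¬ P.adj x y) :
    ∃ m ∈ G.X, BO (G.w (P.v m) (sh R) * G.Gm d x y) r := by
  obtain ⟨m, hm, hc⟩ := common h5 hx hy hxy
  refine ⟨m, hm, ?_⟩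
  have h0 := P.mnadj x y hxy hn
  set γ := P.mu (P.ep d x - S.s (P.D x)) (P.D y) with hγ
  have g1 : ∀ z, γ z = - P.mu (P.ep d y - S.s (P.D y)) (P.D x) z := by
    intro z
    have e1 := P.d_mu_zero d h0 z
    have e2 := S.sinv (P.D x) (P.D y) z
    rw [rho, h0, LinearMap.zero_apply, add_zero] at e2
    rw [hγ, P.mu12 _ (P.D x) z]
    simp only [map_sub, LinearMap.sub_apply, HP.ep]
    linarith
  have g2 : ∀ a ∈ G.X, a ≠ m → γ (P.D a) = 0 := by
    intro a ha ham
    by_cases c1 : a = y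
    · rw [g1, c1, P.nadj hxy hn, neg_zero]
    by_cases c2 : P.adj a y
    · have c3 : ¬ P.adj x a := fun c => ham (hc a ha c c2)
      rw [g1, P.nadj (a := x) (b := a) (fun e => hn (e ▸ c2)) c3, neg_zero]
    · exact P.nadj (Ne.symm c1) (fun c => c2 c.symm) _
  have g3 : ∀ a, a ∉ G.X → BO (γ (P.D a)) r := by
    intro a ha
    have e : P.ep d x - S.s (P.D x) = P.cl (S.E' x) + S.lam x • G.fc := by
      rw [S.eq x]; abel
    have e2 : P.mu G.fc (P.D y) (P.D a) = 0 := by rw [P.mu23, A.fD0 a ha, LinearMap.zero_apply]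
    rw [hγ, e, map_add, map_smul]
    simp only [LinearMap.add_apply, LinearMap.smul_apply, e2, smul_zero, add_zero, P.mu_cl]
    exact BO.sum _ fun b _ => (S.small x b).mul_fi (R.stdm b y a (Or.inr (Or.inr ha))).fi
  have g4 : G.Gm d x y = ∑ a, max (- G.l (P.v a)) 0 * γ (P.D a) := by
    rw [← P.form_cl, ← A.fc_lo, hγ, P.mu13, P.mu23, map_sub, LinearMap.sub_apply,
      fK A (S.sK _), sub_zero]
    rfl
  have g5 := P.LR γ (detL (P.v G.k0) (P.v m))
  have g6 : G.w (P.v m) (sh R) * G.Gm d x y = - ∑ a, (detL (P.v G.k0) (P.v m) (P.v a)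
      - max (- G.l (P.v a)) 0 * G.w (P.v m) (sh R)) * γ (P.D a) := by
    simp only [sub_mul, Finset.sum_sub_distrib, g5, g4, Finset.mul_sum, zero_sub, neg_neg]
    exact Finset.sum_congr rfl fun a _ => by ring
  rw [g6]
  refine (BO.sum _ fun a _ => ?_).neg
  by_cases ha : a ∈ G.X
  · by_cases ham : a = m
    · rw [ham, (G.memX m).1 hm]
      simpa using BO.zero r
    · rw [g2 a ha ham, mul_zero]
      exact BO.zero r
  · exact (g3 a ha).fi_mul (wa R hm a).fi

/-- An entry of a matrix. -/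
def ent (K : Type) [Field K] {V : Type} (z : V × V) : (V × V → K) →ₗ[K] K := LinearMap.proj z

omit [LinearOrder K] [IsStrictOrderedRing K] [Fintype V] [DecidableEq V] in
theorem ent_apply (z : V × V) (M : V × V → K) : ent K z M = M z := rfl

/-- The linear conditions on a matrix. -/
noncomputable def cnd : (V × V) ⊕ (V × Bool) ⊕ V × V → (V × V → K) →ₗ[K] K
  | Sum.inl z => if z.1 ∈ G.X ∧ z.2 ∈ G.X then ent K z + ent K z.swap else 0
  | Sum.inr (Sum.inl z) => if z.1 ∈ G.X then
      ∑ y ∈ G.X, ((if z.2 then R.s0 y else R.s1 y : ℚ) : K) • ent K (z.1, y) else 0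
  | Sum.inr (Sum.inr z) =>
      if z.1 ∈ G.X ∧ z.2 ∈ G.X ∧ z.1 ≠ z.2 ∧ ¬ P.adj z.1 z.2 then ent K z else 0

theorem cnd_std (i : (V × V) ⊕ (V × Bool) ⊕ V × V) (a : V × V) :
    Std (cnd R i (Pi.single a 1)) := by
  have s : ∀ z : V × V, Std ((Pi.single a 1 : V × V → K) z) := fun z => by
    rw [Pi.single_apply]
    split_ifs
    exacts [Std.one, Std.zero]
  rcases i with z | z | z <;> simp only [cnd]
  · split_ifs
    exacts [(s _).add (s _), Std.zero]
  · by_cases c : z.1 ∈ G.X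
    · rw [if_pos c, LinearMap.sum_apply]
      exact Std.sum _ fun y _ => (Std.rat _).mul (s _)
    · rw [if_neg c]
      exact Std.zero
  · split_ifs
    exacts [s _, Std.zero]

include R in
/-- A skew matrix that kills the relations is bounded by its entries at non adjacent pairs. -/
theorem bound (hLINB : S_LINB) (hTRI : S_TRI) (h5 : 5 ≤ G.X.card) (M : V → V → K) (r : K)
    (h1 : ∀ x ∈ G.X, ∀ y ∈ G.X, M x y = - M y x) (h2 : ∀ x ∈ G.X, ∑ y ∈ G.X, M x y • P.v y = 0)
    (h3 : ∀ x ∈ G.X, ∀ y ∈ G.X, x ≠ y → ¬ P.adj x y → BO (M x y) r) :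
    ∀ x ∈ G.X, ∀ y ∈ G.X, BO (M x y) r := by
  have n0 := (G.cyc.mem _ R.hx0).1
  have w := G.w1 _ R.hx0
  have w' : det3 (P.v G.k0) (P.v (G.nx R.x0)) (P.v R.x0) = -1 := by rw [det3_swap23, w]
  have dec : ∀ N : V → K, ∑ y ∈ G.X, N y • P.v y = (∑ y ∈ G.X, (R.s0 y : K) * N y) • P.v R.x0
      + (∑ y ∈ G.X, (R.s1 y : K) * N y) • P.v (G.nx R.x0) := by
    intro N
    rw [Finset.sum_smul, Finset.sum_smul, ← Finset.sum_add_distrib]
    refine Finset.sum_congr rfl fun y hy => ?_
    rw [coordX R hy, smul_add, smul_smul, smul_smul, mul_comm (N y), mul_comm (N y)]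
  obtain ⟨M1, k1, k2⟩ := hLINB K _ _ (cnd R) (cnd_std R) (fun z => M z.1 z.2) r (by
    rintro (z | ⟨x, b⟩ | z) <;> simp only [cnd]
    · split_ifs with c
      · refine (BO.zero r).of_eq ?_
        have := h1 _ c.1 _ c.2
        simp only [LinearMap.add_apply, ent_apply, Prod.fst_swap, Prod.snd_swap]
        linarith
      · exact BO.zero r
    · by_cases c : x ∈ G.X
      · refine (BO.zero r).of_eq ?_
        have e := h2 x c
        rw [dec] at e
        have e0 := congrArg (detL (P.v G.k0) (P.v (G.nx R.x0))) e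
        have e1 := congrArg (detL (P.v G.k0) (P.v R.x0)) e
        simp only [map_add, map_smul, detL_apply, det3_self23, w, w', smul_eq_mul, mul_zero,
          add_zero, zero_add, map_zero, mul_one, mul_neg, neg_eq_zero] at e0 e1
        rw [if_pos c, LinearMap.sum_apply]
        cases b
        exacts [e1, e0]
      · rw [if_neg c]
        exact BO.zero r
    · split_ifs with c
      exacts [h3 _ c.1 _ c.2.1 c.2.2.1 c.2.2.2, BO.zero r])
  have z := hTRI K V I P G (fun x y => M1 (x, y)) h5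
    (fun x hx y hy => by
      have := k1 (Sum.inl (x, y))
      simp only [cnd, hx, hy, and_self, if_true, LinearMap.add_apply, ent_apply,
        Prod.swap] at this
      linarith)
    (fun x hx => by
      have e0 := k1 (Sum.inr (Sum.inl (x, true)))
      have e1 := k1 (Sum.inr (Sum.inl (x, false)))
      simp only [cnd, hx, if_true, LinearMap.sum_apply, LinearMap.smul_apply,
        ent_apply, smul_eq_mul, Bool.false_eq_true, if_false] at e0 e1
      rw [dec, e0, e1, zero_smul, zero_smul, add_zero])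
    (fun x hx y hy a b => by
      have := k1 (Sum.inr (Sum.inr (x, y)))
      simp only [cnd] at this
      rwa [if_pos ⟨hx, hy, a, b⟩] at this)
  intro x hx y hy
  have := k2 (x, y)
  rwa [z x hx y hy, sub_zero] at this

end G5Ax

theorem p_G5A (hLINB : S_LINB) (hTPE : S_TPE) (hSPLIT : S_SPLIT) (hTRI : S_TRI) :
    S_G5A := by
  intro K V I _ _ _ _ _ _ _ P G A R hf h5 hinf d
  obtain ⟨hsk, hrel⟩ := (hTPE K V I P G A R hf).2.2.2.2 d
  obtain ⟨z, hz, hmax⟩ := Finset.exists_max_image (G.X ×ˢ G.X) (fun z => |G.Gm d z.1 z.2|)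
    (G.cyc.ne.product G.cyc.ne)
  obtain ⟨m, hm, hmin⟩ := Finset.exists_min_image G.X (fun m => |G.w (P.v m) (G5Ax.sh R)|) G.cyc.ne
  have le : ∀ x ∈ G.X, ∀ y ∈ G.X, |G.Gm d x y| ≤ |G.Gm d z.1 z.2| := fun x hx y hy =>
    hmax (x, y) (Finset.mk_mem_product hx hy)
  obtain ⟨S⟩ := hSPLIT K V I P G A R hf h5 d (G.Gm d z.1 z.2)
    fun x hx y hy => BO.of_abs_le (le x hx y hy)
  have inf : ¬ Fi (G.w (P.v m) (G5Ax.sh R)) := fun c =>
    hinf m hm (((R.mXX m hm).2.fi.sub c).of_eq (by simp [G5Ax.sh]))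
  have key := G5Ax.bound R hLINB hTRI h5 (fun x y => G.w (P.v m) (G5Ax.sh R) * G.Gm d x y)
    (G.Gm d z.1 z.2) (fun x hx y hy => by rw [hsk x hx y hy, mul_neg])
    (fun x hx => by simp only [← smul_smul, ← Finset.smul_sum, hrel x hx, smul_zero])
    (fun x hx y hy a b => by
      obtain ⟨m', hm', h⟩ := G5Ax.far R A h5 S hx hy a b
      refine h.mono ?_
      rw [abs_mul, abs_mul]
      exact mul_le_mul_of_nonneg_right (hmin m' hm') (abs_nonneg _))
    z.1 (Finset.mem_product.1 hz).1 z.2 (Finset.mem_product.1 hz).2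
  intro x hx y hy
  have := le x hx y hy
  rw [BO.eq_zero_of_inf inf key, abs_zero] at this
  exact abs_nonpos_iff.1 this

end Pool.Agent.P.MP_33ab4b_ag.T
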