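import Pool.Agent.P.MP_33ab4b_ag.T.IfaceP
import Pool.Agent.P.MP_33ab4b_ag.T.IfaceA

/-! Step INJB. -/

set_option autoImplicit false

namespace Pool.Agent.P.MP_33ab4b_ag.T

open scoped Classical

namespace INJBx

section lin

variable {K ι : Type} [Field K] [Fintype ι] [DecidableEq ι]

theorem lin1 (F : (ι → K) → K) (ha : ∀ a b, F (a + b) = F a + F b)
    (hs : ∀ (c : K) a, F (c • a) = c * F a) (h : ∀ i, F (Pi.single i 1) = 0) (y : ι → K) :
    F y = 0 := by
  let L : (ι → K) →ₗ[K] K := { toFun := F, map_add' := ha, map_smul' := hs }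
  have h1 : L = 0 := (Pi.basisFun K ι).ext fun i => by
    rw [Pi.basisFun_apply]
    exact h i
  exact LinearMap.congr_fun h1 y

theorem lin2 (F : (ι → K) → (ι → K) → K) (ha : ∀ a b y, F (a + b) y = F a y + F b y)
    (hs : ∀ (c : K) a y, F (c • a) y = c * F a y) (hc : ∀ a b, F a b = F b a)
    (h : ∀ i j, F (Pi.single i 1) (Pi.single j 1) = 0) (y y' : ι → K) : F y y' = 0 := by
  refine lin1 (fun a => F a y') (fun a b => ha a b y') (fun c a => hs c a y') (fun i => ?_) y
  rw [hc]
  exact lin1 (fun a => F a (Pi.single i 1)) (fun a b => ha a b _) (fun c a => hs c a _)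
    (fun j => h j i) y'

theorem lin3 (F : (ι → K) → (ι → K) → (ι → K) → K)
    (ha : ∀ a b y z, F (a + b) y z = F a y z + F b y z)
    (hs : ∀ (c : K) a y z, F (c • a) y z = c * F a y z) (h12 : ∀ a b c, F a b c = F b a c)
    (h23 : ∀ a b c, F a b c = F a c b)
    (h : ∀ i j k, F (Pi.single i 1) (Pi.single j 1) (Pi.single k 1) = 0) (y y' y'' : ι → K) :
    F y y' y'' = 0 := by
  refine lin1 (fun a => F a y' y'') (fun a b => ha a b _ _) (fun c a => hs c a _ _) (fun i => ?_) y
  rw [h12, h23]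
  exact lin2 (fun a b => F a b (Pi.single i 1)) (fun a b y => ha a b y _) (fun c a y => hs c a y _)
    (fun a b => h12 a b _) (fun j k => h j k i) y' y''

end lin

section ext

variable {K V : Type} [Field K] [DecidableEq V]

/-- Extension by zero. -/
def ex (X0 : Finset V) : (X0 → K) →ₗ[K] (V → K) where
  toFun y v := if h : v ∈ X0 then y ⟨v, h⟩ else 0
  map_add' a b := by
    funext v
    by_cases h : v ∈ X0 <;> simp [h]
  map_smul' c a := by
    funext v
    by_cases h : v ∈ X0 <;> simp [h]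

theorem ex_in {X0 : Finset V} (y : X0 → K) (x : X0) : ex X0 y x = y x := by
  simp [ex, x.2]

theorem ex_out {X0 : Finset V} (y : X0 → K) {v : V} (h : v ∉ X0) : ex X0 y v = 0 := by
  simp [ex, h]

theorem ex_single {X0 : Finset V} (x : X0) :
    ex X0 (Pi.single x (1 : K)) = Pi.single (x : V) 1 := by
  funext v
  by_cases h : v ∈ X0
  · have := ex_in (Pi.single x (1 : K)) ⟨v, h⟩
    rw [show ex X0 (Pi.single x (1 : K)) v = _ from this]
    simp [Pi.single_apply, Subtype.ext_iff]
  · rw [ex_out _ h, Pi.single_eq_of_ne]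
    rintro rfl
    exact h x.2

/-- The endomorphism with the given matrix. -/
def gam (X0 : Finset V) (Γ : V → V → K) : (X0 → K) →ₗ[K] (X0 → K) where
  toFun y b := ∑ x : X0, y x * Γ x b
  map_add' a b := by
    funext v
    simp [add_mul, Finset.sum_add_distrib]
  map_smul' c a := by
    funext v
    simp [Finset.mul_sum, mul_assoc]

/-- The linear form with the given coefficients. -/
def lf (X0 : Finset V) (l : V → K) : (X0 → K) →ₗ[K] K where
  toFun y := ∑ x : X0, y x * l x
  map_add' a b := by simp [add_mul, Finset.sum_add_distrib]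
  map_smul' c a := by simp [Finset.mul_sum, mul_assoc]

theorem lf_single {X0 : Finset V} (l : V → K) (x : X0) : lf X0 l (Pi.single x 1) = l x := by
  simp [lf, Pi.single_apply]

theorem ex_gam {X0 : Finset V} {Γ : V → V → K} (h : ∀ x b, b ∉ X0 → Γ x b = 0) (x : X0) :
    ex X0 (gam X0 Γ (Pi.single x 1)) = Γ x := by
  funext v
  by_cases hv : v ∈ X0
  · have := ex_in (gam X0 Γ (Pi.single x 1)) ⟨v, hv⟩
    rw [show ex X0 (gam X0 Γ (Pi.single x 1)) v = _ from this]
    simp [gam, Pi.single_apply]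
  · rw [ex_out _ hv, h x v hv]

end ext

variable {K V I : Type} [Field K] [LinearOrder K] [IsStrictOrderedRing K] [Fintype V]
  [DecidableEq V] [Fintype I] [DecidableEq I] {P : HP K V I} {G : PLG P} (R : TPF G)

theorem sfm_add (a : V) (y z : V → K) : sfm R a (y + z) = sfm R a y + sfm R a z := by
  simp only [sfm, Pi.add_apply]; ring

theorem sfm_smul (a : V) (c : K) (y : V → K) : sfm R a (c • y) = c * sfm R a y := by
  simp only [sfm, Pi.smul_apply, smul_eq_mul]; ring

theorem bnd_add (a : V) (y z : V → K) : bnd G a (y + z) = bnd G a y + bnd G a z := by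
  simp only [bnd, Pi.add_apply]; ring

theorem bnd_smul (a : V) (c : K) (y : V → K) : bnd G a (c • y) = c * bnd G a y := by
  simp only [bnd, Pi.smul_apply, smul_eq_mul]; ring

theorem qB_comm (y z : V → K) : qB R y z = qB R z y := by
  unfold qB
  congr 1 <;> exact Finset.sum_congr rfl fun _ _ => by ring

theorem qB_add (y z w : V → K) : qB R (y + z) w = qB R y w + qB R z w := by
  simp only [qB, sfm_add, bnd_add, Pi.add_apply, mul_add, add_mul, Finset.sum_add_distrib]
  ring

theorem qB_smul (c : K) (y w : V → K) : qB R (c • y) w = c * qB R y w := by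
  simp only [qB, sfm_smul, bnd_smul, Pi.smul_apply, smul_eq_mul, mul_sub, Finset.mul_sum]
  congr 1 <;> exact Finset.sum_congr rfl fun _ _ => by ring

theorem pB_12 (y z w : V → K) : pB R y z w = pB R z y w := by
  unfold pB
  congr 1 <;> exact Finset.sum_congr rfl fun _ _ => by ring

theorem pB_23 (y z w : V → K) : pB R y z w = pB R y w z := by
  unfold pB
  congr 1 <;> exact Finset.sum_congr rfl fun _ _ => by ring

theorem pB_add (y z w u : V → K) : pB R (y + z) w u = pB R y w u + pB R z w u := by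
  simp only [pB, sfm_add, bnd_add, Pi.add_apply, mul_add, add_mul, Finset.sum_add_distrib]
  ring

theorem pB_smul (c : K) (y w u : V → K) : pB R (c • y) w u = c * pB R y w u := by
  unfold pB
  rw [mul_add, Finset.mul_sum, Finset.mul_sum]
  simp only [sfm_smul, bnd_smul, Pi.smul_apply, smul_eq_mul]
  congr 1 <;> exact Finset.sum_congr rfl fun _ _ => by ring

theorem coord {a : V} (ha : a ∈ G.X) :
    P.v a = (R.s0 a : K) • P.v R.x0 + (R.s1 a : K) • P.v (G.nx R.x0) := by
  have h1 : (R.lq a : K) = 0 := by rw [← R.lqv]; exact (G.memX a).1 ha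
  have h2 : R.lq a = 0 := by exact_mod_cast h1
  have h3 := R.coord a
  rw [h2] at h3
  simpa using h3

theorem det_coord {a b : V} (ha : a ∈ G.X) (hb : b ∈ G.X) :
    det3 (P.v G.k0) (P.v a) (P.v b) = (R.s0 a : K) * R.s1 b - (R.s1 a : K) * R.s0 b := by
  have h := G.w1 _ R.hx0
  have h1 : det3 (P.v G.k0) (P.v a) (P.v b) = ((R.s0 a : K) * R.s1 b - (R.s1 a : K) * R.s0 b) *
      det3 (P.v G.k0) (P.v R.x0) (P.v (G.nx R.x0)) := by
    rw [coord R ha, coord R hb]
    simp only [det3, Pi.add_apply, Pi.smul_apply, smul_eq_mul]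
    ring
  rw [h1, h, mul_one]

theorem s1_x0 : R.s1 R.x0 = 0 := by
  have h := G.w1 _ R.hx0
  have h1 : det3 (P.v G.k0) (P.v R.x0) (P.v R.x0) = (R.s1 R.x0 : K) *
      det3 (P.v G.k0) (P.v R.x0) (P.v (G.nx R.x0)) := by
    have h2 := coord R R.hx0
    generalize P.v R.x0 = u at h2 ⊢
    conv_lhs => rw [show det3 (P.v G.k0) u u = det3 (P.v G.k0) u
      ((R.s0 R.x0 : K) • u + (R.s1 R.x0 : K) • P.v (G.nx R.x0)) by rw [← h2]]
    simp only [det3, Pi.add_apply, Pi.smul_apply, smul_eq_mul]
    ring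
  rw [h, det3_self23, mul_one] at h1
  exact_mod_cast h1.symm

theorem not_both {a : V} (ha : a ∈ G.X) (h1 : R.s1 a = 0) (h2 : R.s1 (G.nx a) = 0) : False := by
  have h := G.w1 a ha
  rw [det_coord R ha (G.cyc.mem a ha).1, h1, h2] at h
  simp at h

theorem mem_oppo {a : V} : a ∈ oppo R ↔ a ∈ G.X ∧ R.s1 a = 0 ∧ a ≠ R.x0 := by
  simp [oppo]

theorem mem_gen {a : V} : a ∈ gen R ↔ a ∈ G.X ∧ R.s1 a ≠ 0 ∧ R.s1 (G.nx a) ≠ 0 := by
  simp [gen]

theorem oppo_v {a : V} (h : a ∈ oppo R) : P.v a = - P.v R.x0 := by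
  obtain ⟨h1, h2, h3⟩ := (mem_oppo R).1 h
  refine G.opp _ R.hx0 a h1 h3.symm ?_
  rw [det_coord R R.hx0 h1, h2, s1_x0]
  simp

theorem oppo_le : (oppo R).card ≤ 1 := by
  refine Finset.card_le_one.2 fun a ha b hb => ?_
  by_contra hne
  have h1 := oppo_v R ha
  have h2 := oppo_v R hb
  have ha' := ((mem_oppo R).1 ha).1
  have h3 := G.opp a ha' b ((mem_oppo R).1 hb).1 hne (by rw [h1, h2, det3_self23])
  have h4 : P.v a = 0 := by
    funext i
    have e1 := congrFun h1 i
    have e2 := congrFun h2 i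
    have e3 := congrFun h3 i
    simp only [Pi.neg_apply, Pi.zero_apply] at e1 e2 e3 ⊢
    linarith
  have h5 := G.w1 a ha'
  rw [h4] at h5
  simp [det3] at h5

theorem card_gen : (gen R).card + 2 * ((oppo R).card + 1) = G.X.card := by
  have hZ : (G.X.filter fun a => R.s1 a = 0).card = (oppo R).card + 1 := by
    have : (G.X.filter fun a => R.s1 a = 0) = insert R.x0 (oppo R) := by
      ext a
      rw [Finset.mem_filter, Finset.mem_insert, mem_oppo]
      constructor
      · rintro ⟨h1, h2⟩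
        by_cases h : a = R.x0
        · exact Or.inl h
        · exact Or.inr ⟨h1, h2, h⟩
      · rintro (rfl | h)
        · exact ⟨R.hx0, s1_x0 R⟩
        · exact ⟨h.1, h.2.1⟩
    rw [this, Finset.card_insert_of_notMem fun h => ((mem_oppo R).1 h).2.2 rfl]
  have hW : (G.X.filter fun a => R.s1 (G.nx a) = 0).card
      = (G.X.filter fun a => R.s1 a = 0).card := by
    refine Finset.card_nbij' G.nx G.pv ?_ ?_ ?_ ?_
    · intro a ha
      rw [Finset.mem_coe, Finset.mem_filter] at ha ⊢
      exact ⟨(G.cyc.mem a ha.1).1, ha.2⟩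
    · intro a ha
      rw [Finset.mem_coe, Finset.mem_filter] at ha ⊢
      refine ⟨(G.cyc.mem a ha.1).2.1, ?_⟩
      rw [(G.cyc.mem a ha.1).2.2.2]
      exact ha.2
    · intro a ha
      rw [Finset.mem_coe, Finset.mem_filter] at ha
      exact (G.cyc.mem a ha.1).2.2.1
    · intro a ha
      rw [Finset.mem_coe, Finset.mem_filter] at ha
      exact (G.cyc.mem a ha.1).2.2.2
  have hd : Disjoint (G.X.filter fun a => R.s1 a = 0) (G.X.filter fun a => R.s1 (G.nx a) = 0) := by
    refine Finset.disjoint_left.2 fun a h1 h2 => ?_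
    rw [Finset.mem_filter] at h1 h2
    exact not_both R h1.1 h1.2 h2.2
  have hd2 : Disjoint (gen R)
      ((G.X.filter fun a => R.s1 a = 0) ∪ (G.X.filter fun a => R.s1 (G.nx a) = 0)) := by
    refine Finset.disjoint_left.2 fun a h1 h2 => ?_
    rw [mem_gen] at h1
    rw [Finset.mem_union, Finset.mem_filter, Finset.mem_filter] at h2
    rcases h2 with h2 | h2
    · exact h1.2.1 h2.2
    · exact h1.2.2 h2.2
  have hu : gen R ∪ ((G.X.filter fun a => R.s1 a = 0) ∪ (G.X.filter fun a => R.s1 (G.nx a) = 0))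
      = G.X := by
    ext a
    rw [Finset.mem_union, Finset.mem_union, Finset.mem_filter, Finset.mem_filter, mem_gen]
    tauto
  have h := congrArg Finset.card hu
  rw [Finset.card_union_of_disjoint hd2, Finset.card_union_of_disjoint hd, hW, hZ] at h
  omega

theorem walk (y : V → K) (h0 : y R.x0 = 0) (h1 : y (G.nx R.x0) = 0)
    (hg : ∀ a ∈ gen R, sfm R a y = 0) (ho : ∀ h ∈ oppo R, y h = 0 ∧ bnd G h y = 0) :
    ∀ a ∈ G.X, y a = 0 := by
  have key := G.cyc.orb (fun b => y b = 0 ∧ y (G.nx b) = 0) R.x0 R.hx0 ⟨h0, h1⟩ (by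
    rintro b hb ⟨e1, e2⟩
    refine ⟨e2, ?_⟩
    obtain ⟨ha, -, hp, -⟩ := G.cyc.mem b hb
    by_cases c1 : R.s1 (G.nx b) = 0
    · by_cases c : G.nx b = R.x0
      · rw [c]; exact h1
      · have := (ho _ ((mem_oppo R).2 ⟨ha, c1, c⟩)).2
        rw [bnd, hp, e1, e2] at this
        simpa using this
    · by_cases c2 : R.s1 (G.nx (G.nx b)) = 0
      · by_cases c : G.nx (G.nx b) = R.x0
        · rw [c]; exact h0
        · exact (ho _ ((mem_oppo R).2 ⟨(G.cyc.mem _ ha).1, c2, c⟩)).1
      · have := hg _ ((mem_gen R).2 ⟨ha, c1, c2⟩)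
        rw [sfm, e2] at this
        have c3 : (R.s1 (G.nx b) : K) ≠ 0 := by exact_mod_cast c1
        simpa [c3] using this)
  exact fun a ha => (key a ha).1

/-- The wall coordinates. -/
def sG (X0 : Finset V) : (X0 → K) →ₗ[K] (gen R → K) where
  toFun y a := sfm R a (ex X0 y)
  map_add' a b := by
    funext v
    simp [sfm_add]
  map_smul' c a := by
    funext v
    simp [sfm_smul]

/-- The coordinates with an opposite vertex. -/
def sO (X0 : Finset V) (h : V) : (X0 → K) →ₗ[K] (K × K × (gen R → K)) where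
  toFun y := (ex X0 y h, bnd G h (ex X0 y), sG R X0 y)
  map_add' a b := by simp [bnd_add]
  map_smul' c a := by simp [bnd_smul]

theorem kap_ne (a : gen R) : (1 / ((R.s1 a : K) * (R.s1 (G.nx a) : K))) ≠ 0 := by
  obtain ⟨-, h1, h2⟩ := (mem_gen R).1 a.2
  have c1 : (R.s1 a : K) ≠ 0 := by exact_mod_cast h1
  have c2 : (R.s1 (G.nx a) : K) ≠ 0 := by exact_mod_cast h2
  exact one_div_ne_zero (mul_ne_zero c1 c2)

end INJBx

open INJBx in
theorem p_INJB (hINJ1 : S_INJ1) (hINJ2 : S_INJ2) :
    S_INJB := by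
  intro K V I _ _ _ _ _ _ _ P G R X0 Γ l θ h5 hX hΓ hq hp
  have hx0 : R.x0 ∉ X0 := fun h => ((hX _).1 h).2.1 rfl
  have hx1 : G.nx R.x0 ∉ X0 := fun h => ((hX _).1 h).2.2 rfl
  have hc0 : X0.card + 2 = G.X.card := by
    have e : G.X = insert R.x0 (insert (G.nx R.x0) X0) := by
      ext a
      rw [Finset.mem_insert, Finset.mem_insert, hX]
      constructor
      · intro h
        by_cases c1 : a = R.x0
        · exact Or.inl c1
        · by_cases c2 : a = G.nx R.x0
          · exact Or.inr (Or.inl c2)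
          · exact Or.inr (Or.inr ⟨h, c1, c2⟩)
      · rintro (rfl | rfl | h)
        · exact R.hx0
        · exact (G.cyc.mem _ R.hx0).1
        · exact h.1
    have n1 : R.x0 ∉ insert (G.nx R.x0) X0 := by
      rw [Finset.mem_insert, not_or]
      exact ⟨(G.nxne _ R.hx0).1.symm, hx0⟩
    have := congrArg Finset.card e
    rw [Finset.card_insert_of_notMem n1, Finset.card_insert_of_notMem hx1] at this
    omega
  have hcg := card_gen R
  have hinj : ∀ y : X0 → K, sG R X0 y = 0 →
      (∀ h ∈ oppo R, ex X0 y h = 0 ∧ bnd G h (ex X0 y) = 0) → y = 0 := by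
    intro y h1 h2
    funext x
    have := walk R (ex X0 y) (ex_out y hx0) (ex_out y hx1)
      (fun a ha => congrFun h1 ⟨a, ha⟩) h2 x ((hX _).1 x.2).1
    rwa [ex_in] at this
  have hQ : ∀ y y' : X0 → K, qB R (ex X0 (gam X0 Γ y)) (ex X0 y') +
      qB R (ex X0 y) (ex X0 (gam X0 Γ y')) = 0 := by
    refine lin2 _ (fun a b y => ?_) (fun c a y => ?_) (fun a b => ?_) (fun i j => ?_)
    · simp only [map_add, qB_add]; ring
    · simp only [map_smul, qB_smul]; ring
    · rw [qB_comm R (ex X0 (gam X0 Γ a)), qB_comm R (ex X0 a), add_comm]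
    · rw [ex_gam hΓ, ex_gam hΓ, ex_single, ex_single]
      exact hq i i.2 j j.2
  have hP : ∀ y y' y'' : X0 → K, pB R (ex X0 (gam X0 Γ y)) (ex X0 y') (ex X0 y'') +
      pB R (ex X0 y) (ex X0 (gam X0 Γ y')) (ex X0 y'') +
      pB R (ex X0 y) (ex X0 y') (ex X0 (gam X0 Γ y'')) +
      (lf X0 l y * qB R (ex X0 y') (ex X0 y'') + lf X0 l y' * qB R (ex X0 y) (ex X0 y'') +
        lf X0 l y'' * qB R (ex X0 y) (ex X0 y')) -
      θ * pB R (ex X0 y) (ex X0 y') (ex X0 y'') = 0 := by
    refine lin3 _ (fun a b y z => ?_) (fun c a y z => ?_) (fun a b c => ?_) (fun a b c => ?_)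
      (fun i j k => ?_)
    · simp only [map_add, qB_add, pB_add]; ring
    · simp only [map_smul, qB_smul, pB_smul, smul_eq_mul]; ring
    · rw [pB_12 R (ex X0 (gam X0 Γ a)), pB_12 R (ex X0 a) (ex X0 (gam X0 Γ b)),
        pB_12 R (ex X0 a) (ex X0 b) (ex X0 (gam X0 Γ c)), pB_12 R (ex X0 a) (ex X0 b) (ex X0 c),
        qB_comm R (ex X0 a) (ex X0 b)]
      ring
    · rw [pB_23 R (ex X0 (gam X0 Γ a)), pB_23 R (ex X0 a) (ex X0 (gam X0 Γ b)),
        pB_23 R (ex X0 a) (ex X0 b) (ex X0 (gam X0 Γ c)), pB_23 R (ex X0 a) (ex X0 b) (ex X0 c),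
        qB_comm R (ex X0 b) (ex X0 c)]
      ring
    · rw [ex_gam hΓ, ex_gam hΓ, ex_gam hΓ, ex_single, ex_single, ex_single, lf_single, lf_single,
        lf_single]
      exact hp i i.2 j j.2 k k.2
  have main : gam X0 Γ = 0 := by
    rcases Nat.le_one_iff_eq_zero_or_eq_one.1 (oppo_le R) with ho | ho
    · have ho' : oppo R = ∅ := Finset.card_eq_zero.1 ho
      have hi : Function.Injective (sG R X0) :=
        (injective_iff_map_eq_zero _).2 fun y hy => hinj y hy (by simp [ho'])
      have hd : Module.finrank K (X0 → K) = Module.finrank K (gen R → K) := by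
        rw [Module.finrank_fintype_fun_eq_card, Module.finrank_fintype_fun_eq_card,
          Fintype.card_coe, Fintype.card_coe]
        omega
      refine hINJ1 K (gen R) (X0 → K) ((sG R X0).linearEquivOfInjective hi hd)
        (fun a => 1 / ((R.s1 a : K) * (R.s1 (G.nx a) : K)))
        (fun y y' => qB R (ex X0 y) (ex X0 y'))
        (fun y y' y'' => pB R (ex X0 y) (ex X0 y') (ex X0 y'')) (gam X0 Γ) (lf X0 l) θ
        (by rw [Fintype.card_coe]; omega) (kap_ne R) (fun y y' => ?_) (fun y y' y'' => ?_) hQ hP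
      · rw [qB, ho', Finset.sum_empty, zero_sub, ← Finset.sum_coe_sort]
        rfl
      · rw [pB, ho', Finset.sum_empty, zero_add, ← Finset.sum_coe_sort]
        rfl
    · obtain ⟨h, ho'⟩ := Finset.card_eq_one.1 ho
      have hi : Function.Injective (sO R X0 h) :=
        (injective_iff_map_eq_zero _).2 fun y hy => hinj y (congrArg (fun z => z.2.2) hy) (by
          intro k hk
          rw [ho', Finset.mem_singleton] at hk
          subst hk
          exact ⟨congrArg (fun z => z.1) hy, congrArg (fun z => z.2.1) hy⟩)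
      have hd : Module.finrank K (X0 → K) = Module.finrank K (K × K × (gen R → K)) := by
        rw [Module.finrank_prod, Module.finrank_prod, Module.finrank_self,
          Module.finrank_fintype_fun_eq_card, Module.finrank_fintype_fun_eq_card,
          Fintype.card_coe, Fintype.card_coe]
        omega
      have : Nonempty (gen R) := by
        obtain ⟨a, ha⟩ := Finset.card_pos.1 (show 0 < (gen R).card by omega)
        exact ⟨⟨a, ha⟩⟩
      refine hINJ2 K (gen R) (X0 → K) ((sO R X0 h).linearEquivOfInjective hi hd)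
        (fun a => 1 / ((R.s1 a : K) * (R.s1 (G.nx a) : K))) (G.cx h)
        (fun y y' => qB R (ex X0 y) (ex X0 y'))
        (fun y y' y'' => pB R (ex X0 y) (ex X0 y') (ex X0 y'')) (gam X0 Γ) (lf X0 l) θ
        (kap_ne R) (fun y y' => ?_) (fun y y' y'' => ?_) hQ hP
      · rw [qB, ho', Finset.sum_singleton, ← Finset.sum_coe_sort]
        rfl
      · rw [pB, ho', Finset.sum_singleton, ← Finset.sum_coe_sort]
        rfl
  intro x hx
  have := ex_gam hΓ ⟨x, hx⟩
  rw [main] at this
  rw [← show ex X0 ((0 : (X0 → K) →ₗ[K] (X0 → K)) (Pi.single ⟨x, hx⟩ 1)) = Γ x from this]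
  simp

end Pool.Agent.P.MP_33ab4b_ag.T
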