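import Pool.Agent.P.MP_33ab4b_ag.T.IfaceP
import Pool.Agent.P.MP_33ab4b_ag.T.IfaceA
import Pool.Agent.P.MP_33ab4b_ag.T.TINJB

/-! Step G5B. -/

set_option autoImplicit false

namespace Pool.Agent.P.MP_33ab4b_ag.T

open scoped Classical

namespace G5Bx

open INJBx

theorem linb (hL : S_LINB) {K : Type} [Field K] [LinearOrder K] [IsStrictOrderedRing K]
    {ι κ : Type} [Fintype ι] [Fintype κ] [DecidableEq κ] (φ : ι → (κ → K) → K)
    (ha : ∀ i a b, φ i (a + b) = φ i a + φ i b) (hs : ∀ i (c : K) a, φ i (c • a) = c * φ i a)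
    (hstd : ∀ i u, (∀ a, Std (u a)) → Std (φ i u)) (x : κ → K) (r : K) (hx : ∀ i, BO (φ i x) r) :
    ∃ x1 : κ → K, (∀ i, φ i x1 = 0) ∧ ∀ a, BO (x a - x1 a) r := by
  refine hL K ι κ (fun i => { toFun := φ i, map_add' := ha i, map_smul' := hs i })
    (fun i a => hstd i _ fun b => ?_) x r hx
  rw [Pi.single_apply]
  split_ifs
  · exact Std.one
  · exact Std.zero

theorem lin_exp {K ι : Type} [Field K] [Fintype ι] [DecidableEq ι] (F : (ι → K) → K)
    (ha : ∀ a b, F (a + b) = F a + F b) (hs : ∀ (c : K) a, F (c • a) = c * F a) (y : ι → K) :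
    F y = ∑ b, y b * F (Pi.single b 1) := by
  let L : (ι → K) →ₗ[K] K := { toFun := F, map_add' := ha, map_smul' := hs }
  change L y = ∑ b, y b * L (Pi.single b 1)
  conv_lhs => rw [pi_eq_sum_univ' y]
  simp only [map_sum, map_smul, smul_eq_mul]

variable {K V I : Type} [Field K] [LinearOrder K] [IsStrictOrderedRing K] [Fintype V]
  [DecidableEq V] [Fintype I] [DecidableEq I] {P : HP K V I} {G : PLG P} (R : TPF G)

theorem single_std (x a : V) : Std ((Pi.single x 1 : V → K) a) := by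
  rw [Pi.single_apply]
  split_ifs
  · exact Std.one
  · exact Std.zero

theorem sfm_std (a : V) {y : V → K} (hy : ∀ b, Std (y b)) : Std (sfm R a y) :=
  ((Std.rat _).mul (hy _)).sub ((Std.rat _).mul (hy _))

theorem bnd_std {a : V} (ha : a ∈ oppo R) {y : V → K} (hy : ∀ b, Std (y b)) : Std (bnd G a y) :=
  ((hy _).add (hy _)).sub ((R.stdc a ((mem_oppo R).1 ha).1).mul (hy _))

theorem kap_std (a : V) : Std (1 / ((R.s1 a : K) * (R.s1 (G.nx a) : K))) :=
  Std.one.div ((Std.rat _).mul (Std.rat _))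

theorem qB_std {y z : V → K} (hy : ∀ b, Std (y b)) (hz : ∀ b, Std (z b)) : Std (qB R y z) := by
  refine (Std.sum _ fun h hh => ?_).sub (Std.sum _ fun a _ => ?_)
  · exact (((hy _).mul (bnd_std R hh hz)).add ((bnd_std R hh hy).mul (hz _))).add
      (((R.stdc h ((mem_oppo R).1 hh).1).mul (hy _)).mul (hz _))
  · exact ((kap_std R a).mul (sfm_std R a hy)).mul (sfm_std R a hz)

theorem pB_std {y z w : V → K} (hy : ∀ b, Std (y b)) (hz : ∀ b, Std (z b)) (hw : ∀ b, Std (w b)) :
    Std (pB R y z w) := by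
  refine (Std.sum _ fun h hh => ?_).add (Std.sum _ fun a _ => ?_)
  · exact (((((hy _).mul (hz _)).mul (bnd_std R hh hw)).add
      (((hy _).mul (bnd_std R hh hz)).mul (hw _))).add
      (((bnd_std R hh hy).mul (hz _)).mul (hw _))).add
      ((((R.stdc h ((mem_oppo R).1 hh).1).mul (hy _)).mul (hz _)).mul (hw _))
  · exact (((kap_std R a).mul (sfm_std R a hy)).mul (sfm_std R a hz)).mul (sfm_std R a hw)

theorem pB_13 (y z w : V → K) : pB R y z w = pB R w z y := by
  rw [pB_12, pB_23, pB_12]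

/-- The rows of the unknown matrix. -/
def row (u : (V × V) ⊕ V ⊕ Unit → K) (x : V) : V → K := fun b => u (Sum.inl (x, b))

/-- The linear system of the block. -/
noncomputable def sys (X0 : Finset V) :
    (V × V) ⊕ (V × V) ⊕ (V × V × V) → ((V × V) ⊕ V ⊕ Unit → K) → K
  | Sum.inl a, u => if a.2 ∈ X0 then 0 else row u a.1 a.2
  | Sum.inr (Sum.inl a), u => if a.1 ∈ X0 ∧ a.2 ∈ X0 then
      qB R (row u a.1) (Pi.single a.2 1) + qB R (row u a.2) (Pi.single a.1 1) else 0
  | Sum.inr (Sum.inr a), u => if a.1 ∈ X0 ∧ a.2.1 ∈ X0 ∧ a.2.2 ∈ X0 then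
      pB R (row u a.1) (Pi.single a.2.1 1) (Pi.single a.2.2 1) +
      pB R (row u a.2.1) (Pi.single a.1 1) (Pi.single a.2.2 1) +
      pB R (row u a.2.2) (Pi.single a.2.1 1) (Pi.single a.1 1) +
      (u (Sum.inr (Sum.inl a.1)) * qB R (Pi.single a.2.1 1) (Pi.single a.2.2 1) +
        u (Sum.inr (Sum.inl a.2.1)) * qB R (Pi.single a.1 1) (Pi.single a.2.2 1) +
        u (Sum.inr (Sum.inl a.2.2)) * qB R (Pi.single a.1 1) (Pi.single a.2.1 1)) -
      u (Sum.inr (Sum.inr ())) * pB R (Pi.single a.1 1) (Pi.single a.2.1 1) (Pi.single a.2.2 1)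
      else 0

omit [LinearOrder K] [IsStrictOrderedRing K] [Fintype V] [DecidableEq V] in
theorem row_add (u u' : (V × V) ⊕ V ⊕ Unit → K) (x : V) : row (u + u') x = row u x + row u' x := rfl

omit [LinearOrder K] [IsStrictOrderedRing K] [Fintype V] [DecidableEq V] in
theorem row_smul (c : K) (u : (V × V) ⊕ V ⊕ Unit → K) (x : V) : row (c • u) x = c • row u x := rfl

/-- Approximate solutions of the system have a small matrix. -/
theorem approx (hL : S_LINB) (hI : S_INJB) (X0 : Finset V) (h5 : 5 ≤ G.X.card)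
    (hX : ∀ a, a ∈ X0 ↔ a ∈ G.X ∧ a ≠ R.x0 ∧ a ≠ G.nx R.x0) (u : (V × V) ⊕ V ⊕ Unit → K) (r : K)
    (hu : ∀ i, BO (sys R X0 i u) r) : ∀ x ∈ X0, ∀ b, BO (row u x b) r := by
  obtain ⟨u1, h1, h2⟩ := linb hL (sys R X0) (by
      rintro (a | a | a) v w
      · simp only [sys, row_add, Pi.add_apply]
        split_ifs <;> ring
      · simp only [sys, row_add, qB_add]
        split_ifs <;> ring
      · simp only [sys, row_add, pB_add, Pi.add_apply]
        split_ifs <;> ring) (by
      rintro (a | a | a) c v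
      · simp only [sys, row_smul, Pi.smul_apply, smul_eq_mul]
        split_ifs <;> ring
      · simp only [sys, row_smul, qB_smul]
        split_ifs <;> ring
      · simp only [sys, row_smul, pB_smul, Pi.smul_apply, smul_eq_mul]
        split_ifs <;> ring) (by
      have s := single_std (K := K) (V := V)
      rintro (a | a | a) v hv
      · simp only [sys]
        split_ifs
        · exact Std.zero
        · exact hv _
      · simp only [sys]
        split_ifs
        · exact (qB_std R (fun _ => hv _) (s _)).add (qB_std R (fun _ => hv _) (s _))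
        · exact Std.zero
      · simp only [sys]
        split_ifs
        · exact ((((pB_std R (fun _ => hv _) (s _) (s _)).add
            (pB_std R (fun _ => hv _) (s _) (s _))).add (pB_std R (fun _ => hv _) (s _) (s _))).add
            ((((hv _).mul (qB_std R (s _) (s _))).add ((hv _).mul (qB_std R (s _) (s _)))).add
              ((hv _).mul (qB_std R (s _) (s _))))).sub ((hv _).mul (pB_std R (s _) (s _) (s _)))
        · exact Std.zero) u r hu
  have h3 := hI K V I P G R X0 (row u1) (fun x => u1 (Sum.inr (Sum.inl x)))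
    (u1 (Sum.inr (Sum.inr ()))) h5 hX
    (fun x b hb => by simpa only [sys, if_neg hb] using h1 (Sum.inl (x, b)))
    (fun x hx y hy => by
      have := h1 (Sum.inr (Sum.inl (x, y)))
      simp only [sys, hx, hy, and_self, if_true] at this
      rw [qB_comm R (Pi.single x 1)]
      exact this)
    (fun x hx y hy z hz => by
      have := h1 (Sum.inr (Sum.inr (x, y, z)))
      simp only [sys, hx, hy, hz, and_self, if_true] at this
      rw [pB_12 R (Pi.single x 1) (row u1 y), pB_13 R (Pi.single x 1) (Pi.single y 1) (row u1 z)]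
      exact this)
  intro x hx b
  have h4 : u1 (Sum.inl (x, b)) = 0 := congrFun (h3 x hx) b
  have h5 := h2 (Sum.inl (x, b))
  rw [h4, sub_zero] at h5
  exact h5

end G5Bx

open INJBx G5Bx in
theorem p_G5B (hLINB : S_LINB) (hTPE : S_TPE) (hSPLIT : S_SPLIT) (hPF : S_PF) (hINJB : S_INJB) :
    S_G5B := by
  intro K V I _ _ _ _ _ _ _ P G A R hf h5 hw1 hw0 d
  obtain ⟨-, -, -, -, hT⟩ := hTPE K V I P G A R hf
  obtain ⟨hskew, hrel⟩ := hT d
  obtain ⟨hq, hp⟩ := hPF K V I P G A R h5 (P.hf.std_of_fi R.wZ.2 hw1)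
  obtain ⟨r, hr⟩ : ∃ r, r = ∑ x ∈ G.X, ∑ y ∈ G.X, |G.Gm d x y| := ⟨_, rfl⟩
  have hle : ∀ x ∈ G.X, ∀ y ∈ G.X, |G.Gm d x y| ≤ r := by
    intro x hx y hy
    rw [hr]
    exact (Finset.single_le_sum (f := fun y => |G.Gm d x y|) (fun _ _ => abs_nonneg _) hy).trans
      (Finset.single_le_sum (f := fun x => ∑ y ∈ G.X, |G.Gm d x y|)
        (fun _ _ => Finset.sum_nonneg fun _ _ => abs_nonneg _) hx)
  obtain ⟨S⟩ := hSPLIT K V I P G A R hf h5 d r
    fun x hx y hy => BO.of_abs_le ((hle x hx y hy).trans (le_abs_self r))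
  obtain ⟨X0, hX⟩ : ∃ X0 : Finset V, ∀ a, a ∈ X0 ↔ a ∈ G.X ∧ a ≠ R.x0 ∧ a ≠ G.nx R.x0 :=
    ⟨G.X.filter fun a => a ≠ R.x0 ∧ a ≠ G.nx R.x0, fun a => Finset.mem_filter⟩
  obtain ⟨Γ, hΓ⟩ : ∃ Γ : V → V → K, ∀ x b, Γ x b = if b ∈ X0 then S.E' x b else 0 :=
    ⟨_, fun _ _ => rfl⟩
  have hout : ∀ x b, b ∉ X0 → b ∈ G.X → S.E' x b = 0 := by
    intro x b hb hb'
    refine S.supp x b ?_
    by_contra hc
    exact hb ((hX b).2 ⟨hb', fun h => hc (Or.inl h), fun h => hc (Or.inr (Or.inl h))⟩)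
  have hfK : ∀ k ∈ G.Kf, P.mu G.fc k = 0 := by
    have : G.Kf ≤ LinearMap.ker (P.mu G.fc) := Submodule.span_le.2 (by
      rintro _ ⟨a, ha, rfl⟩
      exact A.fD0 a ha)
    exact fun k hk => this hk
  have hG : ∀ x y, G.Gm d x y = ∑ b, Γ x b * P.mu G.fc (P.D b) (P.D y) := by
    intro x y
    rw [PLG.Gm, S.eq x, map_add, map_add, map_smul, hfK _ (S.sK _), hfK _ A.fc_mem, smul_zero,
      zero_add, add_zero, P.mu12, P.mu_cl]
    refine Finset.sum_congr rfl fun b _ => ?_
    rw [hΓ, P.mu12]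
    split_ifs with hb
    · rfl
    · by_cases hb' : b ∈ G.X
      · rw [hout x b hb hb']
      · rw [A.fD0 b hb']
        simp
  have hGq : ∀ x, ∀ y ∈ X0, G.Gm d x y = qB R (Γ x) (Pi.single y 1) := by
    intro x y hy
    rw [hG, lin_exp (fun a => qB R a (Pi.single y 1)) (fun a b => qB_add R a b _)
      (fun c a => qB_smul R c a _)]
    refine Finset.sum_congr rfl fun b _ => ?_
    by_cases hb : b ∈ X0
    · rw [hq b ((hX b).1 hb).1 y ((hX y).1 hy).1 ((hX b).1 hb).2.1 ((hX y).1 hy).2.1]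
    · rw [hΓ, if_neg hb, zero_mul, zero_mul]
  have hE : ∀ x, ∀ y ∈ X0, ∀ z ∈ X0, BO (P.mu (P.cl (S.E' x)) (P.D y) (P.D z) -
      pB R (R.w0 • Γ x) (Pi.single y 1) (Pi.single z 1)) r := by
    intro x y hy z hz
    rw [P.mu_cl, pB_smul, lin_exp (fun a => pB R a (Pi.single y 1) (Pi.single z 1))
      (fun a b => pB_add R a b _ _) (fun c a => pB_smul R c a _ _), Finset.mul_sum,
      ← Finset.sum_sub_distrib]
    refine BO.sum _ fun b _ => ?_
    by_cases hb : b ∈ X0
    · refine ((S.small x b).mul_fi (hp b ((hX b).1 hb).1 y ((hX y).1 hy).1 z ((hX z).1 hz).1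
        ((hX b).1 hb).2.1 ((hX y).1 hy).2.1 ((hX z).1 hz).2.1).fi).of_eq ?_
      rw [hΓ, if_pos hb, HP.m3]
      ring
    · rw [hΓ, if_neg hb, zero_mul, mul_zero, sub_zero]
      by_cases hb' : b ∈ G.X
      · rw [hout x b hb hb', zero_mul]
        exact BO.zero r
      · exact (S.small x b).mul_fi (R.stdm b y z (Or.inl hb')).fi
  have happ := approx R hLINB hINJB X0 h5 hX
    (Sum.elim (fun a => R.w0 * Γ a.1 a.2) (Sum.elim S.lam fun _ => d R.w0)) r (by
      have hrow : ∀ x, row (Sum.elim (fun a : V × V => R.w0 * Γ a.1 a.2)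
          (Sum.elim S.lam fun _ => d R.w0)) x = R.w0 • Γ x := fun _ => rfl
      rintro (⟨x, b⟩ | ⟨x, y⟩ | ⟨x, y, z⟩)
      · simp only [sys, hrow]
        split_ifs with hb
        · exact BO.zero r
        · rw [Pi.smul_apply, hΓ, if_neg hb, smul_zero]
          exact BO.zero r
      · simp only [sys, hrow]
        split_ifs with hb
        · rw [qB_smul, qB_smul, ← hGq x y hb.2, ← hGq y x hb.1,
            hskew x ((hX x).1 hb.1).1 y ((hX y).1 hb.2).1]
          exact (BO.zero r).of_eq (by ring)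
        · exact BO.zero r
      · simp only [sys, hrow, Sum.elim_inr, Sum.elim_inl]
        split_ifs with hb
        · obtain ⟨hx, hy, hz⟩ := hb
          obtain ⟨x1, x2, -⟩ := (hX x).1 hx
          obtain ⟨y1, y2, -⟩ := (hX y).1 hy
          obtain ⟨z1, z2, -⟩ := (hX z).1 hz
          have e1 := (hp x x1 y y1 z z1 x2 y2 z2).der_eq d
          rw [Derivation.leibniz, (pB_std R (single_std x) (single_std y) (single_std z)).der d,
            HP.m3, P.d_mu] at e1
          have e2 := S.sinv (P.D x) (P.D y) (P.D z)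
          have ex := S.eq x
          have ey := S.eq y
          have ez := S.eq z
          rw [HP.ep] at ex ey ez
          rw [ex, ey, ez] at e1
          rw [rho] at e2
          simp only [map_add, map_smul, LinearMap.add_apply, LinearMap.smul_apply,
            smul_eq_mul] at e1
          rw [P.mu12 (P.D x) G.fc, P.mu13 (P.D x) (P.D y) G.fc, P.mu23 G.fc (P.D y) (P.D x),
            hq y y1 z z1 y2 z2, hq x x1 z z1 x2 z2, hq x x1 y y1 x2 y2,
            P.mu12 (P.D x) (P.cl (S.E' y)), P.mu13 (P.D x) (P.D y) (P.cl (S.E' z))] at e1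
          refine (((hE x y hy z hz).add (hE y x hx z hz)).add (hE z y hy x hx)).neg.of_eq ?_
          linear_combination e1 - e2
        · exact BO.zero r)
  have hA : ∀ x ∈ X0, ∀ y ∈ G.X, BO (R.w0 * G.Gm d x y) r := by
    intro x hx y hy
    rw [hG, Finset.mul_sum]
    refine BO.sum _ fun b _ => ?_
    by_cases hb : b ∈ G.X
    · refine ((happ x hx b).mul_fi (a := P.mu G.fc (P.D b) (P.D y)) ?_).of_eq
        (by rw [← mul_assoc]; rfl)
      rw [A.fXX b hb y hy]
      split_ifs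
      · exact (R.stdc b hb).neg.fi
      · exact Fi.one
      · exact Fi.zero
    · rw [A.fD0 b hb]
      exact (BO.zero r).of_eq (by simp)
  have hdiag : ∀ x ∈ G.X, G.Gm d x x = 0 := fun x hx => by
    have := hskew x hx x hx
    linarith
  have hx1 : G.nx R.x0 ∈ G.X := (G.cyc.mem _ R.hx0).1
  have hB : ∀ x ∈ G.X, ∀ y ∈ X0, BO (R.w0 * G.Gm d x y) r := fun x hx y hy =>
    (hA y hy x hx).neg.of_eq (by rw [hskew x hx y ((hX y).1 hy).1]; ring)
  have hC : BO (R.w0 * G.Gm d R.x0 (G.nx R.x0)) r := by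
    have e := congrArg (detL (P.v G.k0) (P.v R.x0)) (hrel R.x0 R.hx0)
    rw [map_sum, map_zero, ← Finset.add_sum_erase _ _ hx1] at e
    simp only [map_smul, detL_apply, smul_eq_mul] at e
    rw [G.w1 _ R.hx0, mul_one] at e
    have e' : R.w0 * G.Gm d R.x0 (G.nx R.x0) = - ∑ y ∈ G.X.erase (G.nx R.x0),
        R.w0 * G.Gm d R.x0 y * det3 (P.v G.k0) (P.v R.x0) (P.v y) := by
      rw [eq_neg_of_add_eq_zero_left e, mul_neg, Finset.mul_sum]
      simp only [mul_assoc]
    refine (BO.sum _ fun y hy => ?_).neg.of_eq e'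
    obtain ⟨h1, h2⟩ := Finset.mem_erase.1 hy
    by_cases h3 : y = R.x0
    · rw [h3, hdiag _ R.hx0]
      exact (BO.zero r).of_eq (by ring)
    · refine (hB _ R.hx0 y ((hX y).2 ⟨h2, h3, h1⟩)).mul_fi ?_
      rw [det_coord R R.hx0 h2]
      exact (((Std.rat _).mul (Std.rat _)).sub ((Std.rat _).mul (Std.rat _))).fi
  have hall : ∀ x ∈ G.X, ∀ y ∈ G.X, BO (R.w0 * G.Gm d x y) r := by
    intro x hx y hy
    by_cases h1 : x ∈ X0
    · exact hA x h1 y hy
    by_cases h2 : y ∈ X0
    · exact hB x hx y h2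
    have c1 : x = R.x0 ∨ x = G.nx R.x0 := by
      by_contra hc
      exact h1 ((hX x).2 ⟨hx, fun h => hc (Or.inl h), fun h => hc (Or.inr h)⟩)
    have c2 : y = R.x0 ∨ y = G.nx R.x0 := by
      by_contra hc
      exact h2 ((hX y).2 ⟨hy, fun h => hc (Or.inl h), fun h => hc (Or.inr h)⟩)
    rcases c1 with rfl | rfl <;> rcases c2 with rfl | rfl
    · rw [hdiag _ hx, mul_zero]; exact BO.zero r
    · exact hC
    · exact hC.neg.of_eq (by rw [hskew _ hx _ hy]; ring)
    · rw [hdiag _ hx, mul_zero]; exact BO.zero r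
  have hr0 : r = 0 := by
    refine BO.eq_zero_of_inf hw0 ?_
    have : R.w0 * r = ∑ x ∈ G.X, ∑ y ∈ G.X, R.w0 * |G.Gm d x y| := by
      rw [hr, Finset.mul_sum]
      exact Finset.sum_congr rfl fun _ _ => Finset.mul_sum _ _ _
    refine (BO.sum _ fun x hx => BO.sum _ fun y hy => (hall x hx y hy).mono ?_).of_eq this
    rw [abs_mul, abs_mul, abs_abs]
  intro x hx y hy
  have := hle x hx y hy
  rw [hr0] at this
  exact abs_nonpos_iff.1 this

end Pool.Agent.P.MP_33ab4b_ag.T
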