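import Pool.Agent.P.MP_33ab4b_ag.T.IfaceA
import Pool.Agent.P.MP_33ab4b_ag.T.Zar

/-! Step GEN. -/

set_option autoImplicit false

namespace Pool.Agent.P.MP_33ab4b_ag.T

open scoped Classical

theorem p_GEN :
    S_GEN := by
  intro K _ _ _ E _ _ A B hA hB h0 y0 hy
  have := hA.to_subtype
  have := hB.to_subtype
  obtain ⟨y, h1, h2⟩ := gen0 (fun a : A => a.1) (fun b : B => b.1) (fun a => h0 a a.2)
    (fun b => hy b b.2)
  exact ⟨y, fun a ha => h1 ⟨a, ha⟩, fun b hb => h2 ⟨b, hb⟩⟩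

end Pool.Agent.P.MP_33ab4b_ag.T
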