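import Pool.Agent.P.MP_33ab4b_ag.T.IfaceA

/-! Step INJ1. -/

set_option autoImplicit false

namespace Pool.Agent.P.MP_33ab4b_ag.T

open scoped Classical

theorem p_INJ1 :
    S_INJ1 := by
  intro K _ _ _ ι Y _ _ _ _ σ κ q P Γ l θ hc hκ hq hP hs he
  set e : ι → Y := fun i => σ.symm (Pi.single i 1) with hedef
  have hσ : ∀ i, σ (e i) = Pi.single i 1 := fun i => by simp [hedef]
  have skew : ∀ i j, κ i * σ (Γ (e j)) i + κ j * σ (Γ (e i)) j = 0 := by
    intro i j
    have h := hs (e j) (e i)
    rw [hq, hq, hσ, hσ] at h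
    simp only [Pi.single_apply, mul_ite, mul_one, mul_zero, ite_mul, zero_mul,
      Finset.sum_ite_eq', Finset.mem_univ, if_true] at h
    linarith
  have off : ∀ i j, i ≠ j → σ (Γ (e j)) i = l (e j) := by
    intro i j hij
    have h := he (e j) (e i) (e i)
    simp only [hq, hP, hσ] at h
    simp only [Pi.single_apply, mul_ite, mul_one, mul_zero, ite_mul, zero_mul,
      Finset.sum_ite_eq', Finset.mem_univ, if_true, hij, hij.symm, if_false] at h
    have h2 : κ i * (σ (Γ (e j)) i - l (e j)) = 0 := by
      linarith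
    rcases mul_eq_zero.mp h2 with h3 | h3
    · exact absurd h3 (hκ i)
    · linarith
  have lz : ∀ j, l (e j) = 0 := by
    intro j
    obtain ⟨a, b, ha, hb, hab⟩ : ∃ a b : ι, a ≠ j ∧ b ≠ j ∧ a ≠ b := by
      have h1 : 1 < (Finset.univ.erase j).card := by
        rw [Finset.card_erase_of_mem (Finset.mem_univ j), Finset.card_univ]; omega
      obtain ⟨a, ha, b, hb, hab⟩ := Finset.one_lt_card.mp h1
      exact ⟨a, b, (Finset.mem_erase.mp ha).1, (Finset.mem_erase.mp hb).1, hab⟩
    have h1 := skew a j
    have h2 := skew b j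
    have h3 := skew a b
    rw [off a j ha, off j a ha.symm] at h1
    rw [off b j hb, off j b hb.symm] at h2
    rw [off a b hab, off b a hab.symm] at h3
    have h4 : 2 * (κ a * κ b) * l (e j) = 0 := by
      linear_combination κ b * h1 + κ a * h2 - κ j * h3
    rcases mul_eq_zero.mp h4 with h5 | h5
    · exact absurd h5 (mul_ne_zero two_ne_zero (mul_ne_zero (hκ a) (hκ b)))
    · exact h5
  have ez : ∀ j, Γ (e j) = 0 := by
    intro j
    apply σ.injective
    rw [map_zero]
    funext i
    by_cases hij : i = j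
    · subst hij
      have h := skew i i
      have h2 : 2 * κ i * σ (Γ (e i)) i = 0 := by linarith
      rcases mul_eq_zero.mp h2 with h5 | h5
      · exact absurd h5 (mul_ne_zero two_ne_zero (hκ i))
      · exact h5
    · rw [off i j hij, lz j]; rfl
  ext y
  have hy : y = ∑ j, σ y j • e j := by
    apply σ.injective
    rw [map_sum]
    funext i
    simp [hσ, Finset.sum_apply, Pi.single_apply]
  rw [hy, map_sum]
  simp [ez]

end Pool.Agent.P.MP_33ab4b_ag.T
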