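import Pool.Agent.P.MP_33ab4b_ag.T.IfaceA

/-! Step INJ2. -/

set_option autoImplicit false

namespace Pool.Agent.P.MP_33ab4b_ag.T

open scoped Classical

theorem p_INJ2 :
    S_INJ2 := by
  intro K _ _ _ ι Y _ _ _ _ _ σ κ c q P Γ l θ hκ hq hP hs he
  obtain ⟨e, hE⟩ : ∃ e : Y, σ e = (1, 0, 0) := ⟨σ.symm (1, 0, 0), σ.apply_symm_apply _⟩
  obtain ⟨f, hF⟩ : ∃ f : Y, σ f = (0, 1, 0) := ⟨σ.symm (0, 1, 0), σ.apply_symm_apply _⟩
  obtain ⟨g, hG⟩ : ∃ g : ι → Y, ∀ i, σ (g i) = (0, 0, Pi.single i 1) :=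
    ⟨fun i => σ.symm (0, 0, Pi.single i 1), fun i => σ.apply_symm_apply _⟩
  have h1 := hs f f
  have h2 := hs e f
  have h3 := hs e e
  have h4 := fun i => hs e (g i)
  have h5 := fun i => hs f (g i)
  have h6 := fun i => hs (g i) (g i)
  have k1 := he e f f
  have k2 := he e e f
  have k3 := fun i => he e f (g i)
  have k4 := fun i => he e e (g i)
  have k5 := fun i => he f (g i) (g i)
  have k6 := fun i => he e (g i) (g i)
  have k7 := fun i => he (g i) (g i) (g i)
  have k8 := fun i j => he (g i) (g i) (g j)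
  simp only [hq, hP, hE, hF, hG, Pi.zero_apply, Pi.single_apply, mul_zero, zero_mul, mul_one,
    one_mul, add_zero, zero_add, sub_zero, zero_sub, Finset.sum_const_zero, mul_ite, ite_mul,
    Finset.sum_ite_eq', Finset.mem_univ, if_true, neg_zero]
    at h1 h2 h3 h4 h5 h6 k1 k2 k3 k4 k5 k6 k7 k8
  have a1 : (σ (Γ f)).1 = 0 := by linarith
  have lf : l f = 0 := by linarith
  have v0 : ∀ i, (σ (Γ f)).2.2 i = 0 := fun i => by
    have := k5 i
    rw [lf] at this
    exact (mul_eq_zero.1 (by linarith : κ i * (σ (Γ f)).2.2 i = 0)).resolve_left (hκ i)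
  have al : ∀ i, (σ (Γ (g i))).1 = 0 := fun i => by
    have := h5 i
    rw [v0 i] at this
    linarith
  have lg : ∀ i, l (g i) = 0 := fun i => by
    have := k3 i
    rw [al i] at this
    linarith
  have be : ∀ i, (σ (Γ (g i))).2.1 = 0 := fun i => by
    have := k4 i
    rw [al i, lg i] at this
    linarith
  have u0 : ∀ i, (σ (Γ e)).2.2 i = 0 := fun i => by
    have := h4 i
    rw [al i, be i] at this
    exact (mul_eq_zero.1 (by linarith : κ i * (σ (Γ e)).2.2 i = 0)).resolve_left (hκ i)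
  have mii : ∀ i, (σ (Γ (g i))).2.2 i = 0 := fun i => by
    have := h6 i
    exact (mul_eq_zero.1 (by linarith : κ i * (σ (Γ (g i))).2.2 i = 0)).resolve_left (hκ i)
  obtain ⟨i0⟩ := ‹Nonempty ι›
  have le : l e = 0 := by
    have := k6 i0
    rw [u0 i0] at this
    exact (mul_eq_zero.1 (by linarith : κ i0 * l e = 0)).resolve_left (hκ i0)
  have th : θ = 0 := by
    have := k7 i0
    rw [mii i0, lg i0] at this
    exact (mul_eq_zero.1 (by linarith : κ i0 * θ = 0)).resolve_left (hκ i0)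
  have a0 : (σ (Γ e)).1 = 0 := by
    rw [a1, le, lf, th] at k2
    rw [a1] at h2
    linarith
  have b0 : (σ (Γ e)).2.1 = 0 := by
    rw [a0] at h3
    linarith
  have b1 : (σ (Γ f)).2.1 = 0 := by
    rw [a0, a1] at h2
    linarith
  have mij : ∀ i j, (σ (Γ (g j))).2.2 i = 0 := fun i j => by
    by_cases hij : i = j
    · subst hij; exact mii i
    · have := k8 i j
      have hji : ¬ j = i := fun h => hij h.symm
      simp only [hij, hji, if_false, lg, zero_mul, add_zero, zero_add, sub_zero, neg_zero,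
        mul_zero] at this
      exact (mul_eq_zero.1 (by linarith : κ i * (σ (Γ (g j))).2.2 i = 0)).resolve_left (hκ i)
  have Ge : Γ e = 0 := σ.injective (by
    rw [map_zero]; exact Prod.ext a0 (Prod.ext b0 (funext u0)))
  have Gf : Γ f = 0 := σ.injective (by
    rw [map_zero]; exact Prod.ext a1 (Prod.ext b1 (funext v0)))
  have Gg : ∀ j, Γ (g j) = 0 := fun j => σ.injective (by
    rw [map_zero]; exact Prod.ext (al j) (Prod.ext (be j) (funext fun i => mij i j)))
  ext y
  have hy : y = (σ y).1 • e + (σ y).2.1 • f + ∑ j, (σ y).2.2 j • g j := by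
    apply σ.injective
    simp only [map_add, map_smul, map_sum, hE, hF, hG]
    refine Prod.ext ?_ (Prod.ext ?_ ?_)
    · simp [Prod.fst_sum]
    · simp [Prod.fst_sum, Prod.snd_sum]
    · funext i
      simp [Prod.snd_sum, Finset.sum_apply, Pi.single_apply]
  rw [hy]
  simp [Ge, Gf, Gg]

end Pool.Agent.P.MP_33ab4b_ag.T
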