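import Pool.Agent.P.MP_33ab4b_ag.T.IfaceA
import Pool.Agent.P.MP_33ab4b_ag.T.Lb

/-! Step LINB. -/

set_option autoImplicit false

namespace Pool.Agent.P.MP_33ab4b_ag.T

open scoped Classical

theorem p_LINB :
    S_LINB := by
  intro K _ _ _ ι κ _ _ _ φ hs x r h
  exact Lb.linb_pi φ hs x h

end Pool.Agent.P.MP_33ab4b_ag.T
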