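import Pool.Agent.P.MP_33ab4b_ag.T.IfaceF
import Pool.Agent.P.MP_33ab4b_ag.T.Fb23
import Pool.Agent.P.MP_33ab4b_ag.T.IfaceA

/-! Step LINK. -/

set_option autoImplicit false

namespace Pool.Agent.P.MP_33ab4b_ag.T

open scoped Classical

theorem p_LINK (hUNIQ : S_UNIQ) (hWALL : S_WALL) (hNX : S_NX) :
    S_LINK := by
  intro K V _ _ _ _ _ Φ a
  have _ := hUNIQ
  have _ := hWALL
  have h1 : ∀ u : Fm K, u ≠ 0 → u (Φ.v a) = 0 → ∃ b, Φ.adj a b ∧ 0 < u (Φ.v b) := by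
    intro u hu ha
    obtain ⟨w, hw⟩ : ∃ w, 0 < u w := by
      obtain ⟨w, hw⟩ := DFunLike.ne_iff.1 hu
      rcases lt_or_gt_of_ne (show u w ≠ 0 from hw) with h | h
      · exact ⟨-w, by rw [map_neg]; linarith⟩
      · exact ⟨w, h⟩
    obtain ⟨s, hs, has⟩ := Φ.used a
    have R := Fb.c3_rep Φ hs has has has zero_le_one le_rfl le_rfl
    obtain ⟨d, hd, H⟩ := Fb.near Φ R w
    obtain ⟨t', R'⟩ := Fb.ex_rep Φ
      (((1 : K) • Φ.v a + (0 : K) • Φ.v a + (0 : K) • Φ.v a) + (d / 2) • w)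
    have H' := H (d / 2) (by linarith) (by linarith) t' R' a (by simp [Fb.c3_apply])
    obtain ⟨p', ⟨s', hs', q'⟩, r'⟩ := R'
    have ma : a ∈ s' := by by_contra hn; exact H' (q' a hn)
    have e := congrArg u r'
    rw [Fb.form_sum] at e
    simp only [map_add, map_smul, ha, smul_eq_mul, mul_zero, zero_add] at e
    have hpos : 0 < ∑ i, t' i * u (Φ.v i) := by rw [← e]; positivity
    by_contra hn
    push Not at hn
    refine absurd hpos (not_lt.2 (Finset.sum_nonpos fun i _ => ?_))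
    by_cases hi : i ∈ s'
    · by_cases hia : a = i
      · subst hia; rw [ha, mul_zero]
      · exact mul_nonpos_of_nonneg_of_nonpos (p' i) (hn i ⟨hia, s', hs', ma, hi⟩)
    · rw [q' i hi, zero_mul]
  have h2 : ∀ b c, Φ.adj a b → Φ.adj a c → b ≠ c → det3 (Φ.v a) (Φ.v b) (Φ.v c) = 0 →
      ∃ s t : K, 0 < s ∧ Φ.v c = (-s) • Φ.v b + t • Φ.v a := by
    intro b c hb hc hbc h0
    obtain ⟨k, f⟩ := Fb.adj_face Φ hb
    obtain ⟨l, g⟩ := Fb.adj_face Φ hc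
    have e := Fb.cramer' (Φ.v a) (Φ.v b) (Φ.v k) (Φ.v c) (Fb.face_det_ne Φ f)
    rw [h0, zero_div, zero_smul, add_zero] at e
    set α := det3 (Φ.v b) (Φ.v k) (Φ.v c) / det3 (Φ.v a) (Φ.v b) (Φ.v k)
    set β := det3 (Φ.v k) (Φ.v a) (Φ.v c) / det3 (Φ.v a) (Φ.v b) (Φ.v k)
    by_cases hβ : β < 0
    · exact ⟨-β, α, by linarith, by rw [e, neg_neg, add_comm]⟩
    exfalso
    have R := Fb.c3_rep Φ g (a := a) (b := c) (c := c) (by simp) (by simp) (by simp)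
      (abs_nonneg α) zero_le_one le_rfl
    have R' := Fb.c3_rep Φ f (a := a) (b := b) (c := b) (by simp) (by simp) (by simp)
      (r := |α| + α) (by linarith [neg_abs_le α]) (not_lt.1 hβ) le_rfl
    have E : |α| • Φ.v a + (1 : K) • Φ.v c + (0 : K) • Φ.v c =
        (|α| + α) • Φ.v a + β • Φ.v b + (0 : K) • Φ.v b := by
      rw [one_smul, zero_smul, e]; module
    rw [E] at R
    have := congrFun (Fb.uniq Φ R R') c
    simp [Fb.c3_apply, hc.1.symm, hbc.symm] at this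
  refine ⟨h1, ?_⟩
  obtain ⟨nx, pv, C⟩ := hNX K V (Φ.v a) Φ.v (Φ.nbrs a) (Fb.v_ne Φ a)
    (fun b hb t ht => by
      obtain ⟨k, f⟩ := Fb.adj_face Φ (Φ.mem_nbrs.1 hb)
      apply Fb.face_det_ne Φ f
      rw [ht]; simp only [det3, Pi.smul_apply, smul_eq_mul]; ring)
    (fun b hb c hc => h2 b c (Φ.mem_nbrs.1 hb) (Φ.mem_nbrs.1 hc))
    (fun u hu ha => by
      obtain ⟨b, hb, h⟩ := h1 u hu ha
      exact ⟨b, Φ.mem_nbrs.2 hb, h⟩)
  refine ⟨nx, pv, C, fun b hb => ?_, h2⟩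
  obtain ⟨k, l, -, fk, -, dk, -, -⟩ := Fb.wall Φ hb
  have mb := Φ.mem_nbrs.2 hb
  have hk : Φ.adj a k := Fb.face_adj Φ (Fb.face_swap' Φ fk)
  have mk := Φ.mem_nbrs.2 hk
  have mn := (C.mem b mb).1
  have hn := Φ.mem_nbrs.1 mn
  have hp := C.pos b mb
  suffices k = nx b by rw [← this]; exact ⟨fk, dk⟩
  by_contra hne
  have h3 : det3 (Φ.v a) (Φ.v k) (Φ.v (nx b)) ≤ 0 := by
    by_contra h
    exact C.nob b mb k mk ⟨by rw [dk]; exact one_pos, not_le.1 h⟩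
  rcases h3.eq_or_lt with h4 | h4
  · obtain ⟨s, t, hs, e⟩ := h2 k (nx b) hk hn hne h4
    rw [e, Fb.det_add, Fb.det_smul, Fb.det_smul, dk, Fb.det_self13] at hp
    linarith
  · have e := Fb.cramer' (Φ.v a) (Φ.v b) (Φ.v k) (Φ.v (nx b)) (Fb.face_det_ne Φ fk)
    rw [dk, div_one, div_one, div_one, Fb.det_swap (Φ.v a) (Φ.v k)] at e
    set α := det3 (Φ.v b) (Φ.v k) (Φ.v (nx b))
    obtain ⟨m, g⟩ := Fb.adj_face Φ hn
    have R := Fb.c3_rep Φ g (a := a) (b := nx b) (c := nx b) (by simp) (by simp) (by simp)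
      (abs_nonneg α) zero_le_one le_rfl
    have R' := Fb.c3_rep Φ fk (a := a) (b := b) (c := k) (by simp) (by simp) (by simp)
      (r := |α| + α) (s := - det3 (Φ.v a) (Φ.v k) (Φ.v (nx b))) (by linarith [neg_abs_le α])
      (by linarith) hp.le
    have E : |α| • Φ.v a + (1 : K) • Φ.v (nx b) + (0 : K) • Φ.v (nx b) =
        (|α| + α) • Φ.v a + (- det3 (Φ.v a) (Φ.v k) (Φ.v (nx b))) • Φ.v b +
          det3 (Φ.v a) (Φ.v b) (Φ.v (nx b)) • Φ.v k := by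
      rw [one_smul, zero_smul, add_zero, add_smul, add_assoc, add_assoc, ← add_assoc (α • _), ← e]
    rw [E] at R
    have := congrFun (Fb.uniq Φ R R') k
    obtain ⟨-, hak, hbk⟩ := Fb.face_ne Φ fk
    simp [Fb.c3_apply, hak.symm, hbk.symm, hne] at this
    exact hp.ne this

end Pool.Agent.P.MP_33ab4b_ag.T
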