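import Pool.Agent.P.MP_33ab4b_ag.T.IfaceP
import Pool.Agent.P.MP_33ab4b_ag.T.IfaceF
import Pool.Agent.P.MP_33ab4b_ag.T.CycL

/-! Step LOC. -/

set_option autoImplicit false
set_option linter.unusedSectionVars false

namespace Pool.Agent.P.MP_33ab4b_ag.T

open scoped Classical

namespace LOCx

variable {K : Type} [Field K] [LinearOrder K] [IsStrictOrderedRing K]

/-- The walk along a cyclic family on which the gradient only jumps at the members of `Y`. -/
theorem walk {V : Type} {e : V3 K} {v : V → V3 K} {A : Finset V} {nx pv : V → V}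
    (C : Cyc e v A nx pv) (G : V → V3 K → K) (g : V → K) (Y : Finset V)
    (hG : ∀ c ∈ A, G c (v (nx c)) = g (nx c))
    (hJ : ∀ c ∈ A, nx c ∉ Y → G (nx c) = G c)
    (hY : ∀ y ∈ Y, y ∈ A ∧ g y = 0) {x : V} (hx : x ∈ Y) {γ : K} (hγ : γ ≠ 0)
    (hGx : ∀ z, G x z = γ * det3 e (v x) z) :
    (∀ y ∈ Y, ¬ 0 < det3 e (v x) (v y)) ∧
      ((∀ c ∈ A, G c = G x) ∨ ∃ x' ∈ Y, x' ≠ x ∧ det3 e (v x) (v x') = 0) := by
  have hxA := (hY x hx).1
  have hz : ∀ c ∈ A, G c = G x → nx c ∈ Y → det3 e (v x) (v (nx c)) = 0 := by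
    intro c hc h1 h2
    have h3 := hG c hc
    rw [h1, hGx, (hY _ h2).2] at h3
    exact (mul_eq_zero.1 h3).resolve_left hγ
  constructor
  · intro y hy hxy
    have hyA := (hY y hy).1
    have key := C.orb (fun c => G c = G x ∧ 0 < det3 e (v c) (v y) ∧ 0 ≤ det3 e (v x) (v c)) x hxA
      ⟨rfl, hxy, by simp⟩ (by
        rintro c hc ⟨h1, h2, h3⟩
        have hp := C.pos c hc
        have h4 : 0 ≤ det3 e (v (nx c)) (v y) := by
          have := C.nob c hc y hyA
          rw [det3_swap23]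
          by_contra hn
          exact this ⟨h2, by linarith⟩
        have h5 : 0 < det3 e (v x) (v (nx c)) := by
          have hpl := plucker e (v x) (v (nx c)) (v c) (v y)
          rw [det3_swap23 e (v c) (v (nx c))] at hpl
          have h6 : 0 < det3 e (v x) (v (nx c)) * det3 e (v c) (v y) := by
            have := mul_nonneg h3 h4
            have := mul_pos hxy hp
            linarith
          exact (pos_iff_pos_of_mul_pos h6).2 h2
        have h7 : nx c ∉ Y := fun h => h5.ne' (hz c hc h1 h)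
        refine ⟨(hJ c hc h7).trans h1, ?_, h5.le⟩
        refine h4.lt_of_ne fun h => h7 ?_
        have := C.eq_of_par' (C.nx_mem hc) hyA h.symm hp h2
        rwa [this]) y hyA
    simp at key
  · by_contra hn
    push Not at hn
    obtain ⟨⟨c0, hc0, h0⟩, h1⟩ := hn
    refine h0 (C.orb (fun c => G c = G x) x hxA rfl ?_ c0 hc0)
    intro c hc h2
    by_cases h3 : nx c ∈ Y
    · by_cases h4 : nx c = x
      · rw [h4]
      · exact absurd (hz c hc h2 h3) (h1 _ h3 h4)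
    · exact (hJ c hc h3).trans h2

/-- The planar statement. -/
theorem core {V : Type} {e : V3 K} {v : V → V3 K} {A : Finset V} {nx pv : V → V}
    (C : Cyc e v A nx pv) (G : V → V3 K → K) (g β : V → K) (Y : Finset V)
    (hG : ∀ c ∈ A, ∀ z, G c z = g (nx c) * det3 e (v c) z - g c * det3 e (v (nx c)) z)
    (h1 : ∀ c ∈ A, det3 e (v c) (v (nx c)) = 1)
    (hβ : ∀ c ∈ A, ∀ z, G c z = G (pv c) z + β c * det3 e (v c) z)
    (h0 : ∀ c ∈ A, c ∉ Y → β c = 0) (hY : ∀ y ∈ Y, y ∈ A ∧ g y = 0) {x : V} (hx : x ∈ Y)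
    (hb : β x ≠ 0) :
    (∃ x' ∈ Y, x' ≠ x ∧ det3 e (v x) (v x') = 0) ∧
      ((∀ y ∈ Y, ¬ 0 < det3 e (v x) (v y)) ∨ ∀ y ∈ Y, ¬ det3 e (v x) (v y) < 0) := by
  have hd : ∀ x y, det3 (-e) x y = - det3 e x y := fun x y => by
    simp only [det3, Pi.neg_apply]; ring
  have hxA := (hY x hx).1
  have hg0 := (hY x hx).2
  have hne : G x ≠ G (pv x) := fun h => by
    have h2 := hβ x hxA (v (nx x))
    rw [h, h1 x hxA] at h2
    exact hb (by linarith)
  have hJ : ∀ c ∈ A, c ∉ Y → G c = G (pv c) := fun c hc h => by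
    funext z
    rw [hβ c hc z, h0 c hc h]; ring
  have e1 : ∀ z, G x z = g (nx x) * det3 e (v x) z := fun z => by
    rw [hG x hxA, hg0]; ring
  have e2 : ∀ z, G (pv x) z = g (pv x) * det3 (-e) (v x) z := fun z => by
    rw [hG _ (C.pv_mem hxA), C.nx_pv hxA, hg0, hd]; ring
  by_cases hγ : g (nx x) = 0
  · have hγ' : g (pv x) ≠ 0 := fun h => hne (by
      funext z
      rw [e1, e2, hγ, h]; ring)
    obtain ⟨k1, k2⟩ := walk C.rev (fun c => G (pv c)) g Y (fun c hc => by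
        have h2 := h1 _ (C.pv_mem hc)
        rw [C.nx_pv hc] at h2
        rw [hG _ (C.pv_mem hc), C.nx_pv hc, det3_swap23 e (v (pv c)) (v c), h2]
        simp) (fun c hc h => (hJ _ (C.pv_mem hc) h).symm) hY hx hγ' e2
    refine ⟨?_, Or.inr fun y hy h => k1 y hy (by rw [hd]; linarith)⟩
    rcases k2 with k2 | ⟨x', hx', k3, k4⟩
    · have := k2 (nx x) (C.nx_mem hxA)
      rw [C.pv_nx hxA] at this
      exact absurd this hne
    · exact ⟨x', hx', k3, by rw [hd] at k4; linarith⟩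
  · obtain ⟨k1, k2⟩ := walk C G g Y (fun c hc => by
        rw [hG c hc, h1 c hc]
        simp) (fun c hc h => by
        have := hJ _ (C.nx_mem hc) h
        rwa [C.pv_nx hc] at this) hY hx hγ e1
    refine ⟨?_, Or.inl k1⟩
    rcases k2 with k2 | k2
    · exact absurd (k2 (pv x) (C.pv_mem hxA)).symm hne
    · exact k2

end LOCx

theorem p_LOC (hLINK : S_LINK) (hWREL : S_WREL) :
    S_LOC := by
  intro K V I _ _ _ _ _ _ _ P G b g Y hb hY h0 x hx hbx
  obtain ⟨-, nx, pv, C, hf, -⟩ := hLINK K V P.toFan b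
  have hW := (hWREL K V I P).1
  have hl : G.l (P.v b) ≠ 0 := fun h => hb ((G.memX b).2 h)
  obtain ⟨g', hg'⟩ : ∃ g' : V → K, g' = fun a => g a - g b / G.l (P.v b) * G.l (P.v a) := ⟨_, rfl⟩
  have hcl : P.cl g' = P.cl g := by
    have h1 : g' = g - (g b / G.l (P.v b)) • fun a => G.l (P.v a) := by
      rw [hg']; funext a; simp
    rw [h1, P.cl_sub, P.cl_smul, P.cl_form]; simp
  have hgb : g' b = 0 := by rw [hg']; field_simp; ring
  have hY' : ∀ y ∈ Y, y ∈ P.nbrs b ∧ g' y = 0 := fun y hy => by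
    obtain ⟨h1, h2, h3⟩ := hY y hy
    refine ⟨Fan.mem_nbrs.2 h2, ?_⟩
    rw [hg']
    simp [h3, (G.memX y).1 h1]
  have h1 : ∀ c ∈ P.nbrs b, det3 (P.v b) (P.v c) (P.v (nx c)) = 1 :=
    fun c hc => (hf c (Fan.mem_nbrs.1 hc)).2
  have hcore : ∀ x ∈ Y, P.mu (P.cl g) (P.D b) (P.D x) ≠ 0 →
      (∃ x' ∈ Y, x' ≠ x ∧ det3 (P.v b) (P.v x) (P.v x') = 0) ∧
      ((∀ y ∈ Y, ¬ 0 < det3 (P.v b) (P.v x) (P.v y)) ∨
        ∀ y ∈ Y, ¬ det3 (P.v b) (P.v x) (P.v y) < 0) := by
    intro x hx hbx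
    refine LOCx.core C (fun c z => g' (nx c) * det3 (P.v b) (P.v c) z
      - g' c * det3 (P.v b) (P.v (nx c)) z) g' (fun c => P.mu (P.cl g) (P.D b) (P.D c)) Y
      (fun _ _ _ => rfl) h1 ?_ (fun c hc h => h0 c (Fan.mem_nbrs.1 hc) h) hY' hx hbx
    intro c hc z
    have f1 := (hf c (Fan.mem_nbrs.1 hc)).1
    have f2 := (hf _ (Fan.mem_nbrs.1 (C.pv_mem hc))).1
    rw [C.nx_pv hc] at f2
    obtain ⟨r1, r2⟩ := hW b c (nx c) (pv c) f1 f2.swap23 (C.nx_ne_pv hc)
    have r3 := r2 g'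
    rw [hcl, hgb] at r3
    have r4 : det3 (P.v b) (P.v (nx c)) z + det3 (P.v b) (P.v (pv c)) z
        + P.m3 b c c * det3 (P.v b) (P.v c) z = 0 := by
      have := congrArg (detL z (P.v b)) r1
      simp only [map_add, map_smul, detL_apply, map_zero, smul_eq_mul, det3_self23] at this
      rw [← det3_rot z, ← det3_rot z, ← det3_rot z] at this
      linarith
    have r6 := h1 _ (C.pv_mem hc)
    rw [C.nx_pv hc] at r6
    simp only [C.nx_pv hc]
    rw [r3]
    linear_combination (- g' c) * r4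
  have hopp : ∀ x ∈ Y, ∀ x' ∈ Y, x' ≠ x → det3 (P.v b) (P.v x) (P.v x') = 0 →
      P.v x' = - P.v x := by
    intro x hx x' hx' hne h
    have k1 := (hY x hx).1
    have k2 := (hY x' hx').1
    rw [G.ldet _ _ ((G.memX x).1 k1) ((G.memX x').1 k2)] at h
    exact G.opp x k1 x' k2 hne.symm ((mul_eq_zero.1 h).resolve_left hl)
  obtain ⟨⟨x', hx', k1, k2⟩, k3⟩ := hcore x hx hbx
  refine ⟨x', hx', hopp x hx x' hx' k1 k2, fun y hy hyx hyx' => ?_⟩
  by_contra hby
  obtain ⟨⟨y', hy', k4, k5⟩, -⟩ := hcore y hy hby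
  have k6 := hopp y hy y' hy' k4 k5
  have k7 : det3 (P.v b) (P.v x) (P.v y') = - det3 (P.v b) (P.v x) (P.v y) := by
    rw [k6]; simp only [det3, Pi.neg_apply]; ring
  have k8 : det3 (P.v b) (P.v x) (P.v y) ≠ 0 := fun h =>
    hyx' (C.opp_unique (hY' x hx).1 (hY' y hy).1 (hY' x' hx').1 (Ne.symm hyx) k1.symm h k2)
  rcases k3 with k3 | k3
  · have a1 := k3 y hy
    have a2 := k3 y' hy'
    rw [k7] at a2
    exact k8 (by linarith [not_lt.1 a1, not_lt.1 a2])
  · have a1 := k3 y hy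
    have a2 := k3 y' hy'
    rw [k7] at a2
    exact k8 (by linarith [not_lt.1 a1, not_lt.1 a2])

end Pool.Agent.P.MP_33ab4b_ag.T
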