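import Pool.Agent.P.MP_33ab4b_ag.T.IfaceF
import Pool.Agent.P.MP_33ab4b_ag.T.Basic
import Pool.Agent.P.MP_33ab4b_ag.T.LpB

/-! Step LP1. -/

set_option autoImplicit false
set_option linter.unusedSectionVars false

namespace Pool.Agent.P.MP_33ab4b_ag.T

open scoped Classical

namespace LP1x

variable {K V : Type} [Field K] [LinearOrder K] [IsStrictOrderedRing K] [Fintype V] [DecidableEq V]

/-- A state of the parametric program. -/
def St (Φ : HFan K V) (s : Finset V) (x : V3 K) (lam : K) (u : Fm K) : Prop :=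
  0 < lam ∧ Φ.InP u lam ∧ (∃ a b c, Φ.Good x u lam a b c) ∧ Φ.Rel lam s u

/-- The critical value of a quadruple. -/
def crit (Φ : HFan K V) (q : V × V × V × V) : K :=
  (det3 (Φ.v q.2.2.2) (Φ.v q.2.1) (Φ.v q.2.2.1) * Φ.h q.1 +
      det3 (Φ.v q.1) (Φ.v q.2.2.2) (Φ.v q.2.2.1) * Φ.h q.2.1 +
      det3 (Φ.v q.1) (Φ.v q.2.1) (Φ.v q.2.2.2) * Φ.h q.2.2.1 -
      det3 (Φ.v q.1) (Φ.v q.2.1) (Φ.v q.2.2.1) * Φ.h q.2.2.2) /
    (det3 (Φ.v q.2.2.2) (Φ.v q.2.1) (Φ.v q.2.2.1) + det3 (Φ.v q.1) (Φ.v q.2.2.2) (Φ.v q.2.2.1) +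
      det3 (Φ.v q.1) (Φ.v q.2.1) (Φ.v q.2.2.2) - det3 (Φ.v q.1) (Φ.v q.2.1) (Φ.v q.2.2.1))

theorem crit_eq (Φ : HFan K V) {a b c j : V} {u k : Fm K} {lam : K}
    (hD : det3 (Φ.v a) (Φ.v b) (Φ.v c) ≠ 0) (ha : Φ.Tight u lam a) (hb : Φ.Tight u lam b)
    (hc : Φ.Tight u lam c) (hj : Φ.Tight u lam j) (ka : k (Φ.v a) = 1) (kb : k (Φ.v b) = 1)
    (kc : k (Φ.v c) = 1) (kj : k (Φ.v j) ≠ 1) : lam = crit Φ (a, b, c, j) := by
  have e1 := form_cramer u (Φ.v a) (Φ.v b) (Φ.v c) (Φ.v j)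
  have e2 := form_cramer k (Φ.v a) (Φ.v b) (Φ.v c) (Φ.v j)
  unfold Fan.Tight at ha hb hc hj
  rw [ha, hb, hc, hj] at e1
  rw [ka, kb, kc] at e2
  have hne : det3 (Φ.v j) (Φ.v b) (Φ.v c) + det3 (Φ.v a) (Φ.v j) (Φ.v c) +
      det3 (Φ.v a) (Φ.v b) (Φ.v j) - det3 (Φ.v a) (Φ.v b) (Φ.v c) ≠ 0 := by
    intro h
    apply kj
    apply mul_left_cancel₀ hD
    linear_combination e2 + h
  unfold crit
  rw [eq_div_iff hne]
  linear_combination e1

theorem exists_neg (Φ : HFan K V) (k : Fm K) {a : V} (ka : k (Φ.v a) = 1) :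
    ∃ j, k (Φ.v j) < 1 := by
  by_contra h
  push Not at h
  obtain ⟨s, _, t, h0, _, h2⟩ := Φ.cover (- Φ.v a)
  have e := congrArg k h2
  rw [map_neg, ka, lp_form_sum Φ.toFan] at e
  have : 0 ≤ ∑ i, t i * k (Φ.v i) :=
    Finset.sum_nonneg fun i _ => mul_nonneg (h0 i) (zero_le_one.trans (h i))
  linarith

theorem one_le_det (Φ : HFan K V) {a b c : V} (hD : det3 (Φ.v a) (Φ.v b) (Φ.v c) ≠ 0) :
    1 ≤ |det3 (Φ.v a) (Φ.v b) (Φ.v c)| :=
  Φ.hf.one_le_abs (det3_mem _ (Φ.vZ a) (Φ.vZ b) (Φ.vZ c)) hD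

theorem init (hFRB : S_FRB) (Φ : HFan K V) (s : Finset V) (x : V3 K) (hs : s ∈ Φ.F)
    (hx : Φ.InOpen s x) : ∃ lam u, St Φ s x lam u := by
  obtain ⟨a, b, c, rfl, hf⟩ := Fan.exists_face_eq hs
  obtain ⟨u0, h1, h2⟩ := Φ.conv _ hs
  obtain ⟨k, ka, kb, kc⟩ := exists_form hf.det_ne (1 : K) 1 1
  have hk : ∀ i ∈ ({a, b, c} : Finset V), k (Φ.v i) = 1 := by
    intro i hi
    simp only [Finset.mem_insert, Finset.mem_singleton] at hi
    rcases hi with rfl | rfl | rfl <;> assumption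
  -- a small positive parameter
  have hsm : ∃ lam : K, 0 < lam ∧ ∀ i, i ∉ ({a, b, c} : Finset V) →
      lam * (1 - k (Φ.v i)) < Φ.h i - u0 (Φ.v i) := by
    let g : V → K := fun i => if i ∈ ({a, b, c} : Finset V) then 1 else
      (Φ.h i - u0 (Φ.v i)) / (|1 - k (Φ.v i)| + 1)
    have gpos : ∀ i, 0 < g i := by
      intro i
      by_cases hi : i ∈ ({a, b, c} : Finset V)
      · simp only [g, if_pos hi]; exact one_pos
      · simp only [g, if_neg hi]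
        exact div_pos (sub_pos.mpr (h2 i hi)) (by positivity)
    obtain ⟨m, _, hm⟩ := Finset.exists_min_image Finset.univ g ⟨a, Finset.mem_univ a⟩
    refine ⟨g m, gpos m, fun i hi => ?_⟩
    have h3 := hm i (Finset.mem_univ i)
    have h4 : g i = (Φ.h i - u0 (Φ.v i)) / (|1 - k (Φ.v i)| + 1) := by simp only [g, if_neg hi]
    rw [h4, le_div_iff₀ (by positivity)] at h3
    have h5 := le_abs_self (1 - k (Φ.v i))
    have h6 := gpos m
    nlinarith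
  obtain ⟨lam, hl, hlt⟩ := hsm
  have ht : ∀ i ∈ ({a, b, c} : Finset V), Φ.Tight (u0 - lam • k) lam i := by
    intro i hi
    simp [Fan.Tight, h1 i hi, hk i hi]
  have hnt : ∀ i, i ∉ ({a, b, c} : Finset V) → (u0 - lam • k) (Φ.v i) < Φ.h i - lam := by
    intro i hi
    have := hlt i hi
    simp only [LinearMap.sub_apply, LinearMap.smul_apply, smul_eq_mul]
    linarith
  obtain ⟨r, s', t, hr, hs', ht', e⟩ := lp_of_inOpen Φ.toFan hf hx
  refine ⟨lam, u0 - lam • k, hl, fun i => ?_, ⟨a, b, c, hf.det_ne, ht a (by simp), ht b (by simp),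
    ht c (by simp), r, s', t, hr.le, hs'.le, ht'.le, e⟩,
    ⟨a, b, c, hf.det_ne, ht a (by simp), ht b (by simp), ht c (by simp)⟩, fun i hi => ?_,
    fun i hi => ?_⟩
  · by_cases hi : i ∈ ({a, b, c} : Finset V)
    · exact (ht i hi).le
    · exact (hnt i hi).le
  · by_cases hi' : i ∈ ({a, b, c} : Finset V)
    · exact (hFRB K V Φ).2.1 _ hs i hi'
    · exact absurd hi (hnt i hi').ne
  · have := ht i hi
    unfold Fan.Tight at this
    rw [this]
    exact (BO.refl lam).of_eq (by ring)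

theorem step (hFRB : S_FRB) (hDETB : S_DETB) (Φ : HFan K V) (s : Finset V) (x : V3 K)
    (hs : s ∈ Φ.F) {lam : K} {u k : Fm K} {a b c : V} (hS : St Φ s x lam u)
    (hG : Φ.Good x u lam a b c) (ka : k (Φ.v a) = 1) (kb : k (Φ.v b) = 1) (kc : k (Φ.v c) = 1)
    (kT : ∀ i, Φ.Tight u lam i → 1 ≤ k (Φ.v i)) :
    ∃ q, lam < crit Φ q ∧ ∃ u', St Φ s x (crit Φ q) u' := by
  obtain ⟨hl, hP, _, _, hfin, hbo⟩ := hS
  obtain ⟨hD, ta, tb, tc, hcone⟩ := hG
  obtain ⟨j0, hj0⟩ := exists_neg Φ k ka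
  obtain ⟨j, hj, hmin⟩ := Finset.exists_min_image (Finset.univ.filter fun i => k (Φ.v i) < 1)
    (fun i => (Φ.h i - lam - u (Φ.v i)) / (1 - k (Φ.v i))) ⟨j0, by simpa using hj0⟩
  have hj' : k (Φ.v j) < 1 := by simpa using hj
  set δ := (Φ.h j - lam - u (Φ.v j)) / (1 - k (Φ.v j)) with hδ
  have hδpos : 0 < δ := by
    refine div_pos ?_ (sub_pos.mpr hj')
    rcases (hP j).eq_or_lt with h | h
    · exact absurd (kT j h) (not_le.mpr hj')
    · exact sub_pos.mpr h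
  have ev : ∀ y, (u - δ • k) y = u y - δ * k y := fun y => by simp
  have hP' : Φ.InP (u - δ • k) (lam + δ) := by
    intro i
    rw [ev]
    by_cases hi : k (Φ.v i) < 1
    · have h1 := hmin i (by simpa using hi)
      rw [le_div_iff₀ (sub_pos.mpr hi)] at h1
      linarith
    · push Not at hi
      have h1 := hP i
      nlinarith
  have tt : ∀ i, Φ.Tight u lam i → k (Φ.v i) = 1 → Φ.Tight (u - δ • k) (lam + δ) i := by
    intro i hi hk
    unfold Fan.Tight at hi ⊢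
    rw [ev, hi, hk]; ring
  have tj : Φ.Tight (u - δ • k) (lam + δ) j := by
    unfold Fan.Tight
    have : δ * (1 - k (Φ.v j)) = Φ.h j - lam - u (Φ.v j) := by
      rw [hδ]; exact div_mul_cancel₀ _ (sub_pos.mpr hj').ne'
    rw [ev]; linear_combination this
  have ta' := tt a ta ka
  have tb' := tt b tb kb
  have tc' := tt c tc kc
  have hcr := crit_eq Φ hD ta' tb' tc' tj ka kb kc hj'.ne
  have hl' : 0 < lam + δ := by linarith
  have h1 := one_le_det Φ hD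
  refine ⟨(a, b, c, j), by rw [← hcr]; linarith, u - δ • k, ?_⟩
  rw [← hcr]
  refine ⟨hl', hP', ⟨a, b, c, hD, ta', tb', tc', hcone⟩, ⟨a, b, c, hD, ta', tb', tc'⟩,
    fun i hi => ?_, fun i hi => ?_⟩
  · rw [lp_coord hD (Φ.v i)]
    exact lp_finF_comb Φ.toFan (hfin a ta) (hfin b tb) (hfin c tc)
      ((hDETB K V Φ _ _ i b c hl' hP' hi tb' tc').div h1)
      ((hDETB K V Φ _ _ a i c hl' hP' ta' hi tc').div h1)
      ((hDETB K V Φ _ _ a b i hl' hP' ta' tb' hi).div h1)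
  · have fi : Φ.FinF s (Φ.v i) := (hFRB K V Φ).2.1 _ hs i hi
    have fd := (hFRB K V Φ).2.2.2.2.1 s hs
    have fk : Fi (k (Φ.v i)) := by
      have e := form_cramer k (Φ.v a) (Φ.v b) (Φ.v c) (Φ.v i)
      rw [ka, kb, kc] at e
      refine ((((fd _ _ _ fi (hfin b tb) (hfin c tc)).add (fd _ _ _ (hfin a ta) fi (hfin c tc))).add
        (fd _ _ _ (hfin a ta) (hfin b tb) fi)).div h1).of_eq ?_
      rw [eq_div_iff hD]
      linear_combination e
    have b1 : BO lam (lam + δ) := BO.of_abs_le (by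
      rw [abs_of_pos hl, abs_of_pos hl']; linarith)
    have b2 : BO δ (lam + δ) := BO.of_abs_le (by
      rw [abs_of_pos hδpos, abs_of_pos hl']; linarith)
    refine (((hbo i hi).trans b1).add (b2.mul_fi fk)).of_eq ?_
    rw [ev]; ring

end LP1x

theorem p_LP1 (hFRB : S_FRB) (hDETB : S_DETB) (hPIVOT : S_PIVOT) :
    S_LP1 := by
  intro K V _ _ _ _ _ Φ s x hs hx hgen
  by_contra hno
  have next : ∀ lam u, LP1x.St Φ s x lam u →
      ∃ q, lam < LP1x.crit Φ q ∧ ∃ u', LP1x.St Φ s x (LP1x.crit Φ q) u' := by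
    intro lam u hS
    obtain ⟨a, b, c, hG⟩ := hS.2.2.1
    rcases hPIVOT K V Φ.toFan x u lam a b c hgen hG with ⟨t, h0, h1, h2, h3⟩ |
      ⟨a', b', c', hG', k, ka, kb, kc, kT⟩
    · exact absurd ⟨lam, u, a, b, c, t, hS.1, hS.2.1, hG, hS.2.2.2, h0, h1, h2, h3⟩ hno
    · exact LP1x.step hFRB hDETB Φ s x hs hS hG' ka kb kc kT
  obtain ⟨lam0, u0, h0⟩ := LP1x.init hFRB Φ s x hs hx
  obtain ⟨q0, _, h1⟩ := next lam0 u0 h0
  obtain ⟨q, hq, hmax⟩ := Finset.exists_max_image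
    (Finset.univ.filter fun q : V × V × V × V => ∃ u', LP1x.St Φ s x (LP1x.crit Φ q) u')
    (LP1x.crit Φ) ⟨q0, by simpa using h1⟩
  obtain ⟨u, hu⟩ : ∃ u', LP1x.St Φ s x (LP1x.crit Φ q) u' := by simpa using hq
  obtain ⟨q', hlt, h2⟩ := next _ u hu
  exact absurd (hmax q' (by simpa using h2)) (not_le.mpr hlt)

end Pool.Agent.P.MP_33ab4b_ag.T
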