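import Pool.Agent.P.MP_33ab4b_ag.T.IfaceT
import Pool.Agent.P.MP_33ab4b_ag.T.IfaceF

/-! Step MW. -/

set_option autoImplicit false
set_option linter.unusedSectionVars false

namespace Pool.Agent.P.MP_33ab4b_ag.T

open scoped Classical

namespace MWx

variable {K V I : Type} [Field K] [LinearOrder K] [IsStrictOrderedRing K] [Fintype V]
  [DecidableEq V] [Fintype I] [DecidableEq I] {P : HP K V I}

/-- A sum whose terms outside a finite set are standard. -/
theorem sum_off (g : V → K) (s : Finset V) (h : ∀ a, a ∉ s → Std (g a)) :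
    Std (∑ a, g a - ∑ a ∈ s, g a) := by
  rw [← Finset.sum_sdiff (Finset.subset_univ s), add_sub_cancel_right]
  exact Std.sum _ fun a ha => h a (Finset.mem_sdiff.mp ha).2

theorem wall (c : V → ℚ) {a b : V} (hab : a ≠ b) :
    Std (P.mu (P.cl fun x => (c x : K)) (P.D a) (P.D b) -
      ((c a : K) * P.m3 a a b + (c b : K) * P.m3 b b a)) := by
  have h := sum_off (fun x => (c x : K) * P.m3 x a b) {a, b} (fun x hx => by
    simp only [Finset.mem_insert, Finset.mem_singleton, not_or] at hx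
    exact (Std.rat _).mul (P.m3_std hx.1 hx.2 hab))
  rw [Finset.sum_pair hab] at h
  refine h.of_eq ?_
  rw [P.mu_cl]
  have e : P.m3 b a b = P.m3 b b a := P.mu23 _ _ _
  simp only [HP.m3] at e ⊢
  rw [e]

variable (T : TAG P)

theorem Bj_mem {j : V} (hj : j ∈ T.J) : T.Bj j ∈ T.B :=
  Submodule.subset_span ⟨j, hj, rfl⟩

theorem up_ne_dn {y : V} (hy : y ∈ T.C) : T.up y ≠ T.dn y := by
  intro h
  have h1 := T.detup y hy
  have h2 := T.detdn y hy
  rw [← h] at h2
  linarith

theorem cl_et : (P.cl fun a => (T.et a : K)) = - T.Phi := by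
  have e : (fun a => (T.et a : K)) = (fun a => if a = T.N ∨ a = T.S then 0 else (T.et a : K)) +
      Pi.single T.N 1 - Pi.single T.S 1 := by
    funext a
    by_cases h1 : a = T.N
    · subst h1; simp [T.etN.1, T.NS]
    · by_cases h2 : a = T.S
      · subst h2; simp [T.etN.2, T.NS.symm]
      · simp [h1, h2]
  rw [e, P.cl_sub, P.cl_add, P.cl_single, P.cl_single]
  simp only [TAG.Phi, TAG.eta]
  abel

variable {T} (A : TAA T)
include A

theorem f_up {y : V} (hy : y ∈ T.C) : A.f y (P.D (T.up y)) = 1 := by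
  rw [A.fD y hy, if_pos rfl, if_neg (up_ne_dn T hy), if_neg (T.upC y hy).1.1.symm]; ring

theorem f_dn {y : V} (hy : y ∈ T.C) : A.f y (P.D (T.dn y)) = 1 := by
  rw [A.fD y hy, if_neg (up_ne_dn T hy).symm, if_pos rfl, if_neg (T.dnC y hy).1.1.symm]; ring

theorem f_self {y : V} (hy : y ∈ T.C) : A.f y (P.D y) = - (T.cy y : K) := by
  rw [A.fD y hy, if_neg (T.upC y hy).1.1, if_neg (T.dnC y hy).1.1, if_pos rfl]; ring

/-- The two linear equations on a meridian wall. -/
theorem eqs {y u : V} (hy : y ∈ T.C) (hu : y ≠ u) (hf : A.f y (P.D u) = 1) :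
    Std (T.q (T.Bj (T.ch y)) (T.Bj (T.ch y)) -
      ((T.be (T.ch y) y : K) * P.m3 y y u + (T.be (T.ch y) u : K) * P.m3 u u y)) ∧
    Std (- T.q T.Phi (T.Bj (T.ch y)) - ((T.et y : K) * P.m3 y y u + (T.et u : K) * P.m3 u u y)) := by
  constructor
  · have h := wall (P := P) (T.be (T.ch y)) hu
    have e := A.BC _ (Bj_mem T (T.chJ y hy)) y hy
    refine h.of_eq ?_
    have e2 : (P.cl fun x => (T.be (T.ch y) x : K)) = T.Bj (T.ch y) := rfl
    rw [e2, e, LinearMap.smul_apply, hf, smul_eq_mul, mul_one]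
  · have h := wall (P := P) T.et hu
    have e := A.BC _ A.PhiB y hy
    refine h.of_eq ?_
    rw [cl_et T, map_neg, LinearMap.neg_apply, LinearMap.neg_apply, e, LinearMap.smul_apply, hf,
      smul_eq_mul, mul_one]

theorem self_eq {y : V} (hy : y ∈ T.C) :
    Std ((T.be (T.ch y) y : K) * P.m3 y y y + (T.be (T.ch y) (T.up y) : K) * P.m3 y y (T.up y) +
      (T.be (T.ch y) (T.dn y) : K) * P.m3 y y (T.dn y) +
      (T.cy y : K) * T.q (T.Bj (T.ch y)) (T.Bj (T.ch y))) := by
  have h := sum_off (fun x => (T.be (T.ch y) x : K) * P.m3 y y x) {y, T.up y, T.dn y}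
    (fun x hx => by
      simp only [Finset.mem_insert, Finset.mem_singleton, not_or] at hx
      refine (Std.rat _).mul ?_
      by_cases ha : P.adj y x
      · refine T.stdw y x ha ?_
        rintro (⟨_, h | h⟩ | ⟨hx', h | h⟩)
        · exact hx.2.1 h
        · exact hx.2.2 h
        · rcases (T.upC x hx').2 with g | g
          · exact T.NC.1 (by rw [← g, ← h]; exact hy)
          · exact hx.2.2 (by rw [h]; exact g.2.2.symm)
        · rcases (T.dnC x hx').2 with g | g
          · exact T.NC.2.1 (by rw [← g, ← h]; exact hy)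
          · exact hx.2.1 (by rw [h]; exact g.2.2.symm)
      · exact Std.zero.of_eq (P.nadj (fun e => hx.1 e.symm) ha _))
  have n1 : y ≠ T.up y := (T.upC y hy).1.1
  have n2 : y ≠ T.dn y := (T.dnC y hy).1.1
  have n3 := up_ne_dn T hy
  rw [Finset.sum_insert (by simp [n1, n2]), Finset.sum_pair n3] at h
  have e := A.BC _ (Bj_mem T (T.chJ y hy)) y hy
  have e1 : P.mu (T.Bj (T.ch y)) (P.D y) (P.D y) =
      - ((T.cy y : K) * T.q (T.Bj (T.ch y)) (T.Bj (T.ch y))) := by
    rw [e, LinearMap.smul_apply, f_self A hy, smul_eq_mul]; ring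
  have e2 : P.mu (T.Bj (T.ch y)) (P.D y) (P.D y) =
      ∑ x, (T.be (T.ch y) x : K) * P.m3 y y x := by
    rw [TAG.Bj, P.mu_cl]
    exact Finset.sum_congr rfl fun x _ => by rw [HP.m3, P.mu13]
  refine h.neg.of_eq ?_
  rw [← e2, e1]; ring

/-- The square of `b + cl c` against a pole. -/
theorem pole {X : V} (hX : X = T.N ∨ X = T.S) (c : V → ℚ) (cN : c T.N = 0) (cS : c T.S = 0)
    (hc : ∀ a ∈ T.C, (X = T.up a ∨ X = T.dn a) → c a = 0) {b : I → K} (hb : b ∈ T.B) :
    Std (P.mu (b + P.cl fun x => (c x : K)) (b + P.cl fun x => (c x : K)) (P.D X) - T.q b b) := by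
  have XC : X ∉ T.C := by
    rcases hX with h | h <;> rw [h]
    · exact T.NC.1
    · exact T.NC.2.1
  have cX : c X = 0 := by
    rcases hX with h | h <;> rw [h]
    · exact cN
    · exact cS
  have h1 : P.mu b b (P.D X) = T.q b b := by
    rw [A.BB b hb b hb, LinearMap.smul_apply, smul_eq_mul]
    rcases hX with h | h <;> rw [h]
    · rw [A.zN.1, mul_one]
    · rw [A.zN.2, mul_one]
  have h2 : P.mu (P.cl fun x => (c x : K)) b (P.D X) = 0 := by
    rw [P.mu_cl]
    refine Finset.sum_eq_zero fun a _ => ?_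
    rw [P.mu12]
    rcases T.part a with h | h | h | h
    · rw [h, cN]; simp
    · rw [h, cS]; simp
    · by_cases g : X = T.up a ∨ X = T.dn a
      · rw [hc a h g]; simp
      · rw [not_or] at g
        rw [A.BC b hb a h, LinearMap.smul_apply, A.fD a h, if_neg g.1, if_neg g.2,
          if_neg (fun e : X = a => XC (e ▸ h))]
        simp
    · rw [A.BI b hb a h]; simp
  have h3 : Std (P.mu (P.cl fun x => (c x : K)) (P.cl fun x => (c x : K)) (P.D X)) := by
    rw [P.mu_cl]
    refine Std.sum _ fun a _ => ?_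
    rw [P.mu12, P.mu_cl]
    by_cases ca : c a = 0
    · rw [ca]; exact Std.zero.of_eq (by simp)
    refine (Std.rat _).mul (Std.sum _ fun a' _ => ?_)
    by_cases ca' : c a' = 0
    · rw [ca']; exact Std.zero.of_eq (by simp)
    refine (Std.rat _).mul ?_
    have aX : a ≠ X := fun e => ca (e ▸ cX)
    have aX' : a' ≠ X := fun e => ca' (e ▸ cX)
    by_cases e : a' = a
    · rw [e]
      by_cases ha : P.adj a X
      · refine T.stdw a X ha ?_
        rintro (⟨g1, g2⟩ | ⟨g1, _⟩)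
        · exact ca (hc a g1 g2)
        · exact XC g1
      · exact Std.zero.of_eq (P.nadj aX ha _)
    · exact P.m3_std e aX' aX
  refine h3.of_eq ?_
  simp only [map_add, LinearMap.add_apply]
  rw [h1, h2, P.mu12 b, h2]; ring

theorem eta_eq : T.eta = P.cl fun a => (((if a = T.N ∨ a = T.S then 0 else T.et a : ℚ)) : K) := by
  unfold TAG.eta
  congr 1
  funext a
  split_ifs <;> simp

theorem cubeN : P.m3 T.N T.N T.N = P.mu (T.Phi + T.eta) (T.Phi + T.eta) (P.D T.N) := by
  have e : T.Phi + T.eta = P.D T.S - P.D T.N := by simp only [TAG.Phi]; abel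
  have z : ∀ x, P.mu x (P.D T.N) (P.D T.S) = 0 := P.nadj T.NS T.nadj
  rw [e]
  simp only [map_sub, LinearMap.sub_apply, HP.m3]
  rw [P.mu23 (P.D T.S) (P.D T.S), z, P.mu23 (P.D T.N) (P.D T.S), z, P.mu13 (P.D T.S), z]; ring

theorem cubeS : P.m3 T.S T.S T.S = P.mu (T.Phi + T.eta) (T.Phi + T.eta) (P.D T.S) := by
  have e : T.Phi + T.eta = P.D T.S - P.D T.N := by simp only [TAG.Phi]; abel
  have z : ∀ x, P.mu x (P.D T.N) (P.D T.S) = 0 := P.nadj T.NS T.nadj
  rw [e]
  simp only [map_sub, LinearMap.sub_apply, HP.m3]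
  rw [z, z, P.mu12 (P.D T.N) (P.D T.S), z]; ring

theorem poleN : Std (P.m3 T.N T.N T.N - T.q T.Phi T.Phi) := by
  rw [cubeN A, eta_eq A]
  refine pole A (Or.inl rfl) _ (by simp) (by simp) (fun a ha h => ?_) A.PhiB
  rcases h with h | h
  · have e := (T.upN a ha).mp h.symm
    have := (T.beJ _ (T.chJ a ha)).2.1
    rw [← e] at this
    simp [this]
  · rcases (T.dnC a ha).2 with g | g
    · exact absurd (h.trans g) T.NS
    · exact absurd (h ▸ g.1) T.NC.1

theorem poleS : Std (P.m3 T.S T.S T.S - T.q (T.Phi + ∑ j ∈ T.J, (T.et (T.bot j) : K) • T.Bj j)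
    (T.Phi + ∑ j ∈ T.J, (T.et (T.bot j) : K) • T.Bj j)) := by
  have e : T.Phi + T.eta = (T.Phi + ∑ j ∈ T.J, (T.et (T.bot j) : K) • T.Bj j) +
      P.cl fun a => ((((if a = T.N ∨ a = T.S then 0 else T.et a) -
        ∑ j ∈ T.J, T.et (T.bot j) * T.be j a : ℚ)) : K) := by
    have e1 : ∑ j ∈ T.J, (T.et (T.bot j) : K) • T.Bj j =
        P.cl fun a => ((∑ j ∈ T.J, T.et (T.bot j) * T.be j a : ℚ) : K) := by
      simp only [TAG.Bj, HP.cl, Finset.smul_sum, smul_smul]
      rw [Finset.sum_comm]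
      refine Finset.sum_congr rfl fun a _ => ?_
      push_cast
      rw [Finset.sum_smul]
    rw [e1, eta_eq A, add_assoc, ← P.cl_add]
    congr 2
    funext a
    simp only [Pi.add_apply]
    push_cast
    ring
  rw [cubeS A, e]
  refine pole A (Or.inr rfl) _ ?_ ?_ (fun a ha h => ?_)
    (T.B.add_mem A.PhiB (T.B.sum_mem fun j hj => T.B.smul_mem _ (Bj_mem T hj)))
  · simp [(T.beN _).1]
  · simp [(T.beN _).2]
  · rcases h with h | h
    · rcases (T.upC a ha).2 with g | g
      · exact absurd (h.trans g).symm T.NS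
      · exact absurd (h ▸ g.1) T.NC.2.1
    · have e2 := T.dnS a ha h.symm
      have aN : a ≠ T.N := fun g => T.NC.1 (g ▸ ha)
      have aS : a ≠ T.S := fun g => T.NC.2.1 (g ▸ ha)
      have b1 := (T.botC _ (T.chJ a ha)).2.2.2
      rw [← e2] at b1
      rw [if_neg (by simp [aN, aS]), Finset.sum_eq_single (T.ch a)
        (fun j _ hj => by rw [(T.beC a ha).2 j hj, mul_zero])
        (fun hj => absurd (T.chJ a ha) hj), ← e2, b1]
      ring

end MWx

theorem p_MW (hWREL : S_WREL) :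
    S_MW := by
  intro K V I _ _ _ _ _ _ _ P T A
  refine ⟨fun y hy => ?_, MWx.poleN A, MWx.poleS A⟩
  obtain ⟨u1, u2⟩ := MWx.eqs A hy (T.upC y hy).1.1 (MWx.f_up A hy)
  obtain ⟨d1, d2⟩ := MWx.eqs A hy (T.dnC y hy).1.1 (MWx.f_dn A hy)
  have eu : (T.be (T.ch y) y : K) * T.et (T.up y) - T.be (T.ch y) (T.up y) * T.et y = 1 := by
    exact_mod_cast congrArg (fun q : ℚ => (q : K)) (T.detup y hy)
  have ed : (T.be (T.ch y) (T.dn y) : K) * T.et y - T.be (T.ch y) y * T.et (T.dn y) = 1 := by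
    exact_mod_cast congrArg (fun q : ℚ => (q : K)) (T.detdn y hy)
  refine ⟨?_, ?_, ?_, ?_, MWx.self_eq A hy⟩
  · refine (((Std.rat (T.et y)).mul u1).sub ((Std.rat (T.be (T.ch y) y)).mul u2)).of_eq ?_
    linear_combination (- P.m3 (T.up y) (T.up y) y) * eu
  · refine (((Std.rat (T.be (T.ch y) (T.up y))).mul u2).sub
      ((Std.rat (T.et (T.up y))).mul u1)).of_eq ?_
    linear_combination (- P.m3 y y (T.up y)) * eu
  · refine (((Std.rat (T.be (T.ch y) y)).mul d2).sub ((Std.rat (T.et y)).mul d1)).of_eq ?_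
    linear_combination (- P.m3 (T.dn y) (T.dn y) y) * ed
  · refine (((Std.rat (T.et (T.dn y))).mul d1).sub
      ((Std.rat (T.be (T.ch y) (T.dn y))).mul d2)).of_eq ?_
    linear_combination (- P.m3 y y (T.dn y)) * ed

end Pool.Agent.P.MP_33ab4b_ag.T
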