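import Pool.Agent.P.MP_33ab4b_ag.T.IfaceM

/-! Step Main. -/

set_option autoImplicit false

namespace Pool.Agent.P.MP_33ab4b_ag.T

open scoped Classical

theorem main_mem {m : ℕ} (S : SPFan m) (z : S.Coh) :
    z ∈ S.H2 ↔ ∃ y : Fin m → ℤ, z = ∑ a, y a • S.x a := by
  constructor
  · intro hz
    refine AddSubgroup.closure_induction (p := fun z _ => ∃ y : Fin m → ℤ, z = ∑ a, y a • S.x a)
      ?_ ⟨0, by simp⟩ ?_ ?_ hz
    · rintro _ ⟨a, rfl⟩
      exact ⟨Pi.single a 1, by simp [Pi.single_apply]⟩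
    · rintro _ _ - - ⟨y, rfl⟩ ⟨y', rfl⟩
      exact ⟨y + y', by simp [add_smul, Finset.sum_add_distrib]⟩
    · rintro _ - ⟨y, rfl⟩
      exact ⟨-y, by simp⟩
  · rintro ⟨y, rfl⟩
    exact AddSubgroup.sum_mem _ fun a _ =>
      AddSubgroup.zsmul_mem _ (AddSubgroup.subset_closure (Set.mem_range_self a)) _

theorem main_tf (hRG3 : S_RG3) {m : ℕ} (S : SPFan m) (z : S.Coh) (hz : z ∈ S.H2) (n : ℤ)
    (hn : n ≠ 0) (h : n • z = 0) : z = 0 := by
  obtain ⟨y, rfl⟩ := (main_mem S z).1 hz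
  rw [Finset.smul_sum] at h
  simp only [← mul_smul] at h
  obtain ⟨u, hu⟩ := (hRG3 m S _).1 h
  obtain ⟨s, hs, -⟩ := S.cover 0
  obtain ⟨a, b, c, -, -, -, rfl⟩ := Finset.card_eq_three.1 (S.card3 s hs)
  set A : Matrix (Fin 3) (Fin 3) ℤ := Matrix.of ![S.v a, S.v b, S.v c] with hA
  have hdet : IsUnit A.det := by
    rcases S.unimod a b c hs with e | e <;> rw [← hA] at e <;> rw [e] <;> simp
  let w : Fin 3 → ℤ := A⁻¹.mulVec ![y a, y b, y c]
  have e1 : A.mulVec u = n • ![y a, y b, y c] := by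
    funext i
    fin_cases i <;> simp [hA, Matrix.mulVec, hu, dotProduct_comm]
  have e2 : u = n • w := by
    have := congrArg (A⁻¹.mulVec) e1
    rwa [Matrix.mulVec_mulVec, Matrix.nonsing_inv_mul _ hdet, Matrix.one_mulVec,
      Matrix.mulVec_smul] at this
  refine (hRG3 m S y).2 ⟨w, fun j => mul_left_cancel₀ hn ?_⟩
  rw [hu j, e2, smul_dotProduct, smul_eq_mul]

theorem main_tri {R : Type} [CommRing R] {b : ℕ} (δ : R →+ ℤ) (e : Fin b → R)
    (x y z : Fin b → ℤ) :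
    tri (fun i j k => δ (e i * e j * e k)) x y z =
      δ ((∑ i, x i • e i) * (∑ i, y i • e i) * ∑ i, z i • e i) := by
  simp only [tri, Finset.sum_mul, Finset.mul_sum, map_sum]
  rw [Finset.sum_comm]
  conv_rhs => rw [Finset.sum_comm]
  refine Finset.sum_congr rfl fun j _ => ?_
  rw [Finset.sum_comm]
  refine Finset.sum_congr rfl fun k _ => Finset.sum_congr rfl fun i _ => ?_
  have : x i • e i * y j • e j * z k • e k = (x i * y j * z k) • (e i * e j * e k) := by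
    simp only [zsmul_eq_mul]; push_cast; ring
  rw [this, map_zsmul, smul_eq_mul]; ring

/-- What a toric structure gives on the fixed ring. -/
theorem main_data (hDEG : S_DEG) (hRG1 : S_RG1) (hRG2 : S_RG2) (hRG3 : S_RG3) {R : Type}
    [CommRing R] (L : AddSubgroup R) (p : R) {b : ℕ} (B : Module.Basis (Fin b) ℤ L) {m : ℕ}
    (S : SPFan m) (φ : S.Coh ≃+* R) (hL : S.H2.map φ.toAddMonoidHom = L) (hp : φ S.p1 = p) :
    ∃ (δ : R →+ ℤ) (π : R), δ π = 1 ∧ (∃ x ∈ L, ∃ y ∈ L, ∃ z ∈ L, π = x * y * z) ∧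
      (∀ x ∈ L, ∀ y ∈ L, ∀ z ∈ L, ∃ k : ℤ, x * y * z = k • π) ∧
      (∀ x ∈ L, ∃ k : ℤ, p * x = k • π) ∧
      ∃ Z : ZPres S b (fun i j k => δ ((B i : R) * B j * B k)) (fun i => δ (p * B i)),
        ∀ n, S.IsC1Cube n → n = tri (fun i j k => δ ((B i : R) * B j * B k))
          (∑ a, Z.D a) (∑ a, Z.D a) (∑ a, Z.D a) := by
  obtain ⟨M, h1, h2, h3, h4, h5⟩ := hDEG m S
  obtain ⟨deg, hdeg⟩ := hRG1 m S M h1 h2 h3 h4 h5
  have hmem : ∀ z, z ∈ L ↔ ∃ y : Fin m → ℤ, z = ∑ a, y a • φ (S.x a) := by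
    intro z
    rw [← hL, AddSubgroup.mem_map]
    constructor
    · rintro ⟨w, hw, rfl⟩
      obtain ⟨y, rfl⟩ := (main_mem S w).1 hw
      exact ⟨y, by simp [map_sum]⟩
    · rintro ⟨y, rfl⟩
      exact ⟨_, (main_mem S _).2 ⟨y, rfl⟩, by simp [map_sum]⟩
  have hx : ∀ a, φ (S.x a) ∈ L := fun a => (hmem _).2 ⟨Pi.single a 1, by simp [Pi.single_apply]⟩
  let δ : R →+ ℤ := deg.comp φ.symm.toAddMonoidHom
  have hδ : ∀ a b c, δ (φ (S.x a) * φ (S.x b) * φ (S.x c)) = M a b c := by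
    intro a b c
    rw [← map_mul, ← map_mul, ← hdeg]
    simp [δ]
  have hface : ∀ s ∈ S.F, ∃ a b c, φ (∏ i ∈ s, S.x i) = φ (S.x a) * φ (S.x b) * φ (S.x c) ∧
      M a b c = 1 := by
    intro s hs
    obtain ⟨a, b, c, e1, e2, e3, rfl⟩ := Finset.card_eq_three.1 (S.card3 s hs)
    refine ⟨a, b, c, ?_, by rw [h3 a b c e1 e2 e3, if_pos hs]⟩
    rw [Finset.prod_insert (by simp [e1, e2]), Finset.prod_pair e3, map_mul, map_mul, mul_assoc]
  obtain ⟨s0, hs0, -⟩ := S.cover 0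
  obtain ⟨a0, b0, c0, hπ, hM0⟩ := hface s0 hs0
  have htr : ∀ x ∈ L, ∀ y ∈ L, ∀ z ∈ L, x * y * z ∈
      AddSubgroup.zmultiples (φ (∏ i ∈ s0, S.x i)) := by
    intro x hx y hy z hz
    obtain ⟨x, rfl⟩ := (hmem _).1 hx
    obtain ⟨y, rfl⟩ := (hmem _).1 hy
    obtain ⟨z, rfl⟩ := (hmem _).1 hz
    simp only [Finset.sum_mul, Finset.mul_sum]
    refine AddSubgroup.sum_mem _ fun k _ => AddSubgroup.sum_mem _ fun j _ =>
      AddSubgroup.sum_mem _ fun i _ => ?_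
    obtain ⟨n, hn⟩ := hRG2 m S s0 hs0 i j k
    have : x i • φ (S.x i) * y j • φ (S.x j) * z k • φ (S.x k) =
        (x i * y j * z k) • φ (S.x i * S.x j * S.x k) := by
      simp only [zsmul_eq_mul, map_mul]; push_cast; ring
    rw [this, hn, map_zsmul]
    exact AddSubgroup.zsmul_mem _ (AddSubgroup.zsmul_mem _ (AddSubgroup.mem_zmultiples _) _) _
  have hpx : ∀ z, p * z = ∑ a, φ (S.x a) * φ (S.x a) * z := by
    intro z
    rw [← hp, SPFan.p1, map_sum, Finset.sum_mul]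
    exact Finset.sum_congr rfl fun a _ => by rw [map_pow, pow_two]
  let D : Fin m → Fin b → ℤ := fun a => B.equivFun ⟨φ (S.x a), hx a⟩
  have hE : ∀ l : L, ∑ i, B.equivFun l i • (B i : R) = l := by
    intro l
    have := congrArg Subtype.val (B.sum_equivFun l)
    rw [← this, AddSubgroup.val_finsetSum]
    rfl
  have hEl : ∀ y : Fin m → ℤ, ∑ i, (∑ a, y a • D a) i • (B i : R) = ∑ a, y a • φ (S.x a) := by
    intro y
    have : ∑ a, y a • D a = B.equivFun (∑ a, y a • ⟨φ (S.x a), hx a⟩) := by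
      simp only [map_sum, map_smul, D]
    rw [this, hE]
    simp
  have hED : ∀ a, ∑ i, D a i • (B i : R) = φ (S.x a) := fun a => hE _
  have hinj : ∀ x : Fin b → ℤ, ∑ i, x i • (B i : R) = 0 → x = 0 := by
    intro x h
    have : B.equivFun.symm x = 0 := by
      apply Subtype.ext
      rw [Module.Basis.equivFun_symm_apply]
      simpa using h
    exact (map_eq_zero_iff _ B.equivFun.symm.injective).1 this
  refine ⟨δ, φ (∏ i ∈ s0, S.x i), by rw [hπ, hδ, hM0], ⟨_, hx a0, _, hx b0, _, hx c0, hπ⟩,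
    fun x hx y hy z hz => ?_, fun x hx' => ?_, ⟨D, ?_, ?_, ?_, ?_, ?_⟩, ?_⟩
  · obtain ⟨k, hk⟩ := AddSubgroup.mem_zmultiples_iff.1 (htr x hx y hy z hz)
    exact ⟨k, hk.symm⟩
  · have : p * x ∈ AddSubgroup.zmultiples (φ (∏ i ∈ s0, S.x i)) := by
      rw [hpx]
      exact AddSubgroup.sum_mem _ fun a _ => htr _ (hx a) _ (hx a) _ hx'
    obtain ⟨k, hk⟩ := AddSubgroup.mem_zmultiples_iff.1 this
    exact ⟨k, hk.symm⟩
  · intro x
    obtain ⟨y, hy⟩ := (hmem _).1 (B.equivFun.symm x).2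
    refine ⟨y, sub_eq_zero.1 (hinj _ ?_)⟩
    simp only [Pi.sub_apply, sub_smul, Finset.sum_sub_distrib]
    rw [hEl, ← hy, Module.Basis.equivFun_symm_apply]
    simp
  · intro y
    rw [← hRG3 m S y, ← map_eq_zero_iff φ φ.injective, map_sum]
    simp only [map_zsmul]
    rw [← hEl]
    exact ⟨fun h => by rw [h]; simp, hinj _⟩
  · intro a c e e1 e2 e3
    rw [main_tri, hED, hED, hED, hδ, h3 a c e e1 e2 e3]
  · intro a c e1 hn x
    obtain ⟨y, hy⟩ := (hmem (∑ i, x i • (B i : R))).1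
      (AddSubgroup.sum_mem _ fun i _ => AddSubgroup.zsmul_mem _ (B i).2 _)
    rw [main_tri, hED, hED, hy, Finset.mul_sum, map_sum]
    refine Finset.sum_eq_zero fun k _ => ?_
    rw [mul_smul_comm, map_zsmul, hδ, h4 a c e1 hn, smul_zero]
  · intro x
    simp only [main_tri, hED]
    rw [← map_sum, ← hpx, Finset.mul_sum, map_sum, dotProduct]
    refine Finset.sum_congr rfl fun i _ => ?_
    rw [mul_smul_comm, map_zsmul, smul_eq_mul, mul_comm]
  · rintro n ⟨s, hs, hn⟩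
    obtain ⟨a, b', c, e1, e2⟩ := hface s hs
    have hc : ∑ i, (∑ a, D a) i • (B i : R) = φ S.c1 := by
      have := hEl 1
      simp only [Pi.one_apply, one_smul] at this
      rw [this, SPFan.c1, map_sum]
    rw [main_tri, hc, ← map_mul, ← map_mul, ← pow_three', hn, map_zsmul, map_zsmul, e1, hδ, e2,
      smul_eq_mul, mul_one]

theorem p_Main (hCORE : S_CORE) (hDEG : S_DEG) (hRG1 : S_RG1) (hRG2 : S_RG2) (hRG3 : S_RG3) :
    S_Main := by
  intro R _ L p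
  rcases Set.eq_empty_or_nonempty {n : ℤ | ∃ (m : ℕ) (S : SPFan m) (φ : S.Coh ≃+* R),
      S.H2.map φ.toAddMonoidHom = L ∧ φ S.p1 = p ∧ S.IsC1Cube n} with
    he | ⟨_, m0, S0, φ0, hL0, hp0, -⟩
  · rw [he]; exact Set.finite_empty
  have hfin : Module.Finite ℤ L := by
    rw [Module.Finite.iff_addGroup_fg, AddGroup.fg_iff_addSubgroup_fg, ← hL0, SPFan.H2,
      AddMonoidHom.map_closure, AddSubgroup.fg_iff]
    exact ⟨_, rfl, (Set.finite_range _).image _⟩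
  have htf : Module.IsTorsionFree ℤ L := by
    refine Module.IsTorsionFree.of_smul_eq_zero fun n z h => ?_
    by_cases hn : n = 0
    · exact Or.inl hn
    · right
      obtain ⟨z, hz⟩ := z
      have hz' := hz
      rw [← hL0] at hz'
      obtain ⟨w, hw, rfl⟩ := hz'
      have h' : n • w = 0 := by
        apply φ0.injective
        have := congrArg Subtype.val h
        simpa using this
      apply Subtype.ext
      simp [main_tf hRG3 S0 w hw n hn h']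
  let B := Module.finBasis ℤ L
  obtain ⟨δ0, π0, d0, ⟨x0, hx0, y0, hy0, z0, hz0, e0⟩, t0, q0, -⟩ :=
    main_data hDEG hRG1 hRG2 hRG3 L p B S0 φ0 hL0 hp0
  have s12 : ∀ (δ : R →+ ℤ) i j k, δ ((B i : R) * B j * B k) = δ ((B j : R) * B i * B k) := by
    intro δ i j k; congr 1; ring
  have s23 : ∀ (δ : R →+ ℤ) i j k, δ ((B i : R) * B j * B k) = δ ((B i : R) * B k * B j) := by
    intro δ i j k; congr 1; ring
  refine ((hCORE _ (fun i j k => δ0 ((B i : R) * B j * B k)) (fun i => δ0 (p * B i)) (s12 δ0)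
    (s23 δ0)).union (hCORE _ (fun i j k => (-δ0) ((B i : R) * B j * B k))
      (fun i => (-δ0) (p * B i)) (s12 (-δ0)) (s23 (-δ0)))).subset ?_
  rintro n ⟨m, S, φ, hL, hp, hn⟩
  obtain ⟨δ', π', d1', ⟨x1, hx1, y1, hy1, z1, hz1, e1⟩, t1', -, Z', hZ'⟩ :=
    main_data hDEG hRG1 hRG2 hRG3 L p B S φ hL hp
  obtain ⟨k, hk⟩ := t0 x1 hx1 y1 hy1 z1 hz1
  rw [← e1] at hk
  have hk1 : k * δ' π0 = 1 := by rw [← d1', hk, map_zsmul, smul_eq_mul]
  have key : ∀ δ1 : R →+ ℤ, δ1 π0 = δ' π0 →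
      ((fun i j k => δ' ((B i : R) * B j * B k)) = fun i j k => δ1 ((B i : R) * B j * B k)) ∧
      (fun i => δ' (p * B i)) = fun i => δ1 (p * B i) := by
    intro δ1 h
    constructor
    · funext i j l
      obtain ⟨r, hr⟩ := t0 _ (B i).2 _ (B j).2 _ (B l).2
      rw [hr, map_zsmul, map_zsmul, h]
    · funext i
      obtain ⟨r, hr⟩ := q0 _ (B i).2
      rw [hr, map_zsmul, map_zsmul, h]
  have hn' := hZ' n hn
  rcases Int.eq_one_or_neg_one_of_mul_eq_one' hk1 with ⟨-, h⟩ | ⟨-, h⟩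
  · obtain ⟨k1, k2⟩ := key δ0 (by rw [h, d0])
    left
    rw [Set.mem_ofPred_eq, ← k1, ← k2]
    exact ⟨m, S, Z', hn'⟩
  · obtain ⟨k1, k2⟩ := key (-δ0) (by rw [h, AddMonoidHom.neg_apply, d0])
    right
    rw [Set.mem_ofPred_eq, ← k1, ← k2]
    exact ⟨m, S, Z', hn'⟩

end Pool.Agent.P.MP_33ab4b_ag.T
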