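import Pool.Agent.P.MP_33ab4b_ag.T.IfaceA
import Pool.Agent.P.MP_33ab4b_ag.Jc

/-! Step NIL2. -/

set_option autoImplicit false

namespace Pool.Agent.P.MP_33ab4b_ag.T

open scoped Classical

theorem p_NIL2 (hBIN : S_BIN) :
    S_NIL2 := by
  intro K _ _ _ L _ _ mu n W H f hs hn hW hf hfW hr hd
  exact nil2 hs H f (W : Set L) n hn hW hf (fun w hw y => by rw [hfW w hw]; rfl) hr hd

end Pool.Agent.P.MP_33ab4b_ag.T
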