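import Pool.Agent.P.MP_33ab4b_ag.T.IfaceA
import Pool.Agent.P.MP_33ab4b_ag.T.CycL

/-! Step NX. -/

set_option autoImplicit false

namespace Pool.Agent.P.MP_33ab4b_ag.T

open scoped Classical

theorem p_NX :
    S_NX := by
  intro K _ _ _ V e v A he hout hpar hcomp
  have hd : ∀ a ∈ A, detL e (v a) ≠ 0 := fun a ha => detL_ne_zero he (hout a ha)
  have h1 : ∀ a, ∃ b, a ∈ A → b ∈ A ∧ 0 < det3 e (v a) (v b) ∧
      ∀ b' ∈ A, 0 < det3 e (v a) (v b') → 0 ≤ det3 e (v b) (v b') := fun a => by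
    by_cases ha : a ∈ A
    · obtain ⟨b, hb⟩ := cyc_min e v (v a) A (hcomp _ (hd a ha) (by simp))
      exact ⟨b, fun _ => hb⟩
    · exact ⟨a, fun h => absurd h ha⟩
  have h2 : ∀ a, ∃ b, a ∈ A → b ∈ A ∧ 0 < det3 e (v b) (v a) ∧
      ∀ b' ∈ A, 0 < det3 e (v b') (v a) → 0 ≤ det3 e (v b') (v b) := fun a => by
    by_cases ha : a ∈ A
    · obtain ⟨c, hc, hc0⟩ := hcomp (- detL e (v a)) (neg_ne_zero.2 (hd a ha)) (by simp)
      obtain ⟨b, hb⟩ := cyc_max e v (- v a) A ⟨c, hc, by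
        rw [det3_neg2, det3_swap23]; simpa using hc0⟩
      simp only [det3_neg2] at hb
      exact ⟨b, fun _ => hb⟩
    · exact ⟨a, fun h => absurd h ha⟩
  choose nx hnx using h1
  choose pv hpv using h2
  have par : ∀ a ∈ A, ∀ b ∈ A, det3 e (v a) (v b) = 0 → ∀ y, 0 < det3 e (v a) y →
      0 < det3 e (v b) y → a = b := by
    intro a ha b hb h y h1 h2
    by_contra hab
    obtain ⟨s, t, hs, hv⟩ := hpar a ha b hb hab h
    rw [hv, det3_comb2] at h2
    nlinarith [mul_pos hs h1]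
  have nob : ∀ a ∈ A, ∀ b ∈ A,
      ¬ (0 < det3 e (v a) (v b) ∧ 0 < det3 e (v b) (v (nx a))) := by
    rintro a ha b hb ⟨h1, h2⟩
    have := (hnx a ha).2.2 b hb h1
    rw [det3_swap23] at this
    linarith
  have hne : A.Nonempty := by
    obtain ⟨x, hx⟩ : ∃ x : V3 K, detL e x ≠ 0 := by
      by_contra hc
      push Not at hc
      have h1 := LinearMap.congr_fun (hc (Pi.single 1 1)) (Pi.single 2 1)
      have h2 := LinearMap.congr_fun (hc (Pi.single 2 1)) (Pi.single 0 1)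
      have h3 := LinearMap.congr_fun (hc (Pi.single 0 1)) (Pi.single 1 1)
      simp [det3] at h1 h2 h3
      apply he
      funext i
      fin_cases i <;> simp [h1, h2, h3]
    obtain ⟨a, ha, -⟩ := hcomp _ hx (by simp)
    exact ⟨a, ha⟩
  refine ⟨nx, pv, fun a ha => ⟨(hnx a ha).1, (hpv a ha).1, ?_, ?_⟩, hne, ?_,
    fun a ha => (hnx a ha).2.1, nob, fun x hx => ?_, hpar⟩
  · obtain ⟨hb, hab, hmin⟩ := hnx a ha
    obtain ⟨hc, hcb, hmax⟩ := hpv _ hb
    have h1 := hmax a ha hab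
    rcases h1.lt_or_eq with h1 | h1
    · exact absurd ⟨h1, hcb⟩ (nob a ha _ hc)
    · exact (par a ha _ hc h1.symm _ hab hcb).symm
  · obtain ⟨hc, hca, hmax⟩ := hpv a ha
    obtain ⟨hb, hcb, hmin⟩ := hnx _ hc
    have h1 := hmin a ha hca
    rcases h1.lt_or_eq with h1 | h1
    · have := hmax _ hb h1
      rw [det3_swap23] at this
      linarith
    · refine par _ hb a ha h1.symm (- v (pv a)) ?_ ?_
      · rw [det3_swap23, det3_neg2, det3_swap23, neg_neg]; exact hcb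
      · rw [det3_swap23, det3_neg2, det3_swap23, neg_neg]; exact hca
  · intro Q a ha h0 hs b hb
    obtain ⟨s, hs', h1, h2⟩ := cyc_cover e v (A.filter Q) nx ⟨a, Finset.mem_filter.2 ⟨ha, h0⟩⟩
      (fun c hc => by
        obtain ⟨h1, h2⟩ := Finset.mem_filter.1 hc
        exact Finset.mem_filter.2 ⟨(hnx c h1).1, hs c h1 h2⟩)
      (fun c hc => (hnx c (Finset.mem_filter.1 hc).1).2.1) (v b) (hd b hb)
    obtain ⟨hs1, hs2⟩ := Finset.mem_filter.1 hs'
    rcases h1.lt_or_eq with h1 | h1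
    · exact absurd ⟨h1, h2⟩ (nob s hs1 b hb)
    · rw [← par s hs1 b hb h1.symm _ (hnx s hs1).2.1 h2]; exact hs2
  · exact cyc_cover e v A nx hne (fun c hc => (hnx c hc).1) (fun c hc => (hnx c hc).2.1) x
      (detL_ne_zero he hx)

end Pool.Agent.P.MP_33ab4b_ag.T
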