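import Pool.Agent.P.MP_33ab4b_ag.T.IfaceF
import Pool.Agent.P.MP_33ab4b_ag.T.Fb23

/-! Step PATH. -/

set_option autoImplicit false

namespace Pool.Agent.P.MP_33ab4b_ag.T

open scoped Classical

theorem p_PATH (hUNIQ : S_UNIQ) (hWALL : S_WALL) :
    S_PATH := by
  intro K V _ _ _ _ _ Φ Q s0 ξ h0 hξ q0 step
  have _ := hUNIQ
  have _ := hWALL
  exact Fb.path Φ Q s0 ξ h0 hξ q0 step

end Pool.Agent.P.MP_33ab4b_ag.T
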