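import Pool.Agent.P.MP_33ab4b_ag.T.IfaceF

/-! Step PD1. -/

set_option autoImplicit false

namespace Pool.Agent.P.MP_33ab4b_ag.T

open scoped Classical

theorem p_PD1 (hWALL : S_WALL) (hPATH : S_PATH) (hWREL : S_WREL) :
    S_PD1 := by
  intro K V I _ _ _ _ _ _ _ P x hx
  have _h := hWALL
  obtain ⟨c, rfl⟩ := P.exists_cl x
  obtain ⟨s, hs, -⟩ := P.cover 0
  obtain ⟨a0, b0, c0, rfl, hf⟩ := Fan.exists_face_eq hs
  obtain ⟨u, ua, ub, uc⟩ := exists_form hf.det_ne (c a0) (c b0) (c c0)
  have e : P.cl c = P.cl (fun i => c i - u (P.v i)) := by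
    have := P.cl_sub c (fun i => u (P.v i))
    rw [P.cl_form, sub_zero] at this
    exact this.symm
  have hop : P.InOpen {a0, b0, c0} (∑ i, (if i ∈ ({a0, b0, c0} : Finset V) then (1 : K) else 0) • P.v i) :=
    ⟨fun i => if i ∈ ({a0, b0, c0} : Finset V) then 1 else 0, fun a ha => by simp only [if_pos ha]; exact one_pos,
      fun a ha => by simp only [if_neg ha], rfl⟩
  have key := hPATH K V P.toFan (fun s => ∀ i ∈ s, c i - u (P.v i) = 0) _ _ hs hop ?_ ?_
  · rw [e]
    have : (fun i => c i - u (P.v i)) = 0 := by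
      funext i
      obtain ⟨s, hs, hi⟩ := P.used i
      exact key s hs i hi
    rw [this, P.cl_zero]
  · intro i hi
    simp only [Finset.mem_insert, Finset.mem_singleton] at hi
    rcases hi with rfl | rfl | rfl
    · rw [ua, sub_self]
    · rw [ub, sub_self]
    · rw [uc, sub_self]
  · intro a b k l hk hl hkl _ hQ i hi
    have h1 := ((hWREL K V I P).1 a b k l hk hl hkl).2 (fun i => c i - u (P.v i))
    rw [← e, hx a b hk.adj12] at h1
    have ha := hQ a (by simp)
    have hb := hQ b (by simp)
    have hl' := hQ l (by simp)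
    simp only [Finset.mem_insert, Finset.mem_singleton] at hi
    rcases hi with rfl | rfl | rfl
    · exact ha
    · exact hb
    · simp only [ha, hb, hl', mul_zero, add_zero] at h1
      exact h1.symm

end Pool.Agent.P.MP_33ab4b_ag.T
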