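import Pool.Agent.P.MP_33ab4b_ag.T.IfaceP
import Pool.Agent.P.MP_33ab4b_ag.T.IfaceF

/-! Step PF. -/

set_option autoImplicit false

namespace Pool.Agent.P.MP_33ab4b_ag.T

open scoped Classical

namespace PFx

variable {K V I : Type} [Field K] [LinearOrder K] [IsStrictOrderedRing K] [Fintype V]
  [DecidableEq V] [Fintype I] [DecidableEq I] {P : HP K V I} {G : PLG P}

theorem det_pl (k a b : V3 K) (s t s' t' : K) :
    det3 k (s • a + t • b) (s' • a + t' • b) = (s * t' - t * s') * det3 k a b := by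
  simp only [det3, Pi.add_apply, Pi.smul_apply, smul_eq_mul]; ring

theorem nx_mem {x : V} (hx : x ∈ G.X) : G.nx x ∈ G.X := (G.cyc.mem x hx).1
theorem pv_mem {x : V} (hx : x ∈ G.X) : G.pv x ∈ G.X := (G.cyc.mem x hx).2.1
theorem pv_nx {x : V} (hx : x ∈ G.X) : G.pv (G.nx x) = x := (G.cyc.mem x hx).2.2.1
theorem nx_pv {x : V} (hx : x ∈ G.X) : G.nx (G.pv x) = x := (G.cyc.mem x hx).2.2.2
theorem nx_ne {x : V} (hx : x ∈ G.X) : G.nx x ≠ x := (G.nxne x hx).1
theorem nx_ne_pv {x : V} (hx : x ∈ G.X) : G.nx x ≠ G.pv x := (G.nxne x hx).2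
theorem pv_ne {x : V} (hx : x ∈ G.X) : G.pv x ≠ x := by
  intro h
  have := nx_pv hx
  rw [h] at this
  exact nx_ne hx this

variable (R : TPF G)

theorem lq0 {a : V} (ha : a ∈ G.X) : R.lq a = 0 := by
  have h := R.lqv a
  rw [(G.memX a).mp ha] at h
  exact_mod_cast h.symm

theorem coordX {a : V} (ha : a ∈ G.X) :
    P.v a = (R.s0 a : K) • P.v R.x0 + (R.s1 a : K) • P.v (G.nx R.x0) := by
  have h := R.coord a
  rw [lq0 R ha] at h
  simpa using h

theorem w_eq (s t : K) {b : V} (hb : b ∈ G.X) :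
    G.w (s • P.v R.x0 + t • P.v (G.nx R.x0)) (P.v b) = s * R.s1 b - t * R.s0 b := by
  rw [PLG.w, coordX R hb, det_pl, G.w1 _ R.hx0, mul_one]

theorem w_eq' (s t : K) {b : V} (hb : b ∈ G.X) :
    G.w (P.v b) (s • P.v R.x0 + t • P.v (G.nx R.x0)) = t * R.s0 b - s * R.s1 b := by
  rw [PLG.w, coordX R hb, det_pl, G.w1 _ R.hx0, mul_one]; ring

theorem wnx {a : V} (ha : a ∈ G.X) :
    (R.s0 a : K) * R.s1 (G.nx a) - R.s1 a * R.s0 (G.nx a) = 1 := by
  have h := w_eq R (R.s0 a : K) (R.s1 a : K) (nx_mem ha)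
  rw [← coordX R ha, PLG.w, G.w1 a ha] at h
  exact h.symm

theorem forms : ∃ u0 u1 : Fm K,
    (∀ a, u0 (P.v a) = R.s0 a + max (- G.l (P.v a)) 0 * R.w0) ∧
    (∀ a, u1 (P.v a) = R.s1 a + max (- G.l (P.v a)) 0 * R.w1) ∧ u0 (P.v R.x0) = 1 := by
  have hd := (G.kuf _ R.hx0).1.det_ne
  obtain ⟨u0, a0, b0, c0⟩ := exists_form hd 1 0 0
  obtain ⟨u1, a1, b1, c1⟩ := exists_form hd 0 1 0
  refine ⟨u0, u1, fun a => ?_, fun a => ?_, a0⟩
  · conv_lhs => rw [R.coord a]
    rw [R.lqv a]
    simp [a0, b0, c0]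
  · conv_lhs => rw [R.coord a]
    rw [R.lqv a]
    simp [a1, b1, c1]

theorem cx_s {a : V} (ha : a ∈ G.X) :
    (R.s0 (G.nx a) : K) + R.s0 (G.pv a) = G.cx a * R.s0 a ∧
    (R.s1 (G.nx a) : K) + R.s1 (G.pv a) = G.cx a * R.s1 a := by
  obtain ⟨u0, u1, h0, h1, -⟩ := forms R
  have e0 := congrArg u0 (G.cxv a ha)
  have e1 := congrArg u1 (G.cxv a ha)
  simp only [map_add, map_smul, smul_eq_mul, h0, h1, (G.memX _).mp ha, (G.memX _).mp (nx_mem ha),
    (G.memX _).mp (pv_mem ha), neg_zero, max_self, zero_mul, add_zero] at e0 e1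
  exact ⟨e0, e1⟩

theorem opp_s {h : V} (hh : h ∈ G.X) (h0 : h ≠ R.x0) (h1 : R.s1 h = 0) :
    (R.s0 h : K) = -1 ∧ (R.s1 (G.nx h) : K) = -1 ∧ (R.s1 (G.pv h) : K) = 1 := by
  obtain ⟨u0, u1, a0, -, e0⟩ := forms R
  have hw := w_eq R 1 0 hh
  rw [h1] at hw
  simp only [one_smul, zero_smul, add_zero, PLG.w, Rat.cast_zero, mul_zero, zero_mul,
    sub_zero] at hw
  have hv := congrArg u0 (G.opp _ R.hx0 _ hh h0.symm hw)
  rw [map_neg, e0, a0, (G.memX _).mp hh] at hv
  simp only [neg_zero, max_self, zero_mul, add_zero] at hv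
  have k1 := wnx R hh
  have k2 := (cx_s R hh).2
  rw [h1] at k1 k2
  rw [hv] at k1
  simp only [Rat.cast_zero, zero_mul, mul_zero, sub_zero] at k1 k2
  exact ⟨hv, by linarith, by linarith⟩

theorem not_both {a : V} (ha : a ∈ G.X) (h0 : R.s1 a = 0) : R.s1 (G.nx a) ≠ 0 := by
  intro h1
  have k := wnx R ha
  rw [h0, h1] at k
  simp at k

theorem sfm_single (a x : V) : sfm R a (Pi.single x 1) =
    (if a = x then (R.s1 (G.nx a) : K) else 0) - (if G.nx a = x then (R.s1 a : K) else 0) := by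
  simp only [sfm, Pi.single_apply, mul_ite, mul_one, mul_zero]

theorem bnd_single (a x : V) : bnd G a (Pi.single x (1 : K)) =
    (if G.pv a = x then 1 else 0) + (if G.nx a = x then 1 else 0) -
      (if a = x then G.cx a else 0) := by
  simp only [bnd, Pi.single_apply, mul_ite, mul_one, mul_zero]

theorem mem_gen {a : V} : a ∈ gen R ↔ a ∈ G.X ∧ R.s1 a ≠ 0 ∧ R.s1 (G.nx a) ≠ 0 := by
  simp [gen]

theorem mem_oppo {a : V} : a ∈ oppo R ↔ a ∈ G.X ∧ R.s1 a = 0 ∧ a ≠ R.x0 := by
  simp [oppo]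

theorem gen_sum {x : V} (hx : x ∈ G.X) (g : V → K) :
    ∑ a ∈ gen R, (1 / ((R.s1 a : K) * (R.s1 (G.nx a) : K))) * sfm R a (Pi.single x 1) * g a =
      (if x ∈ gen R then g x / R.s1 x else 0) -
        (if G.pv x ∈ gen R then g (G.pv x) / R.s1 x else 0) := by
  rw [← Finset.sum_ite_eq' (gen R) x (fun a => g a / (R.s1 x : K)),
    ← Finset.sum_ite_eq' (gen R) (G.pv x) (fun a => g a / (R.s1 x : K)), ← Finset.sum_sub_distrib]
  refine Finset.sum_congr rfl fun a ha => ?_
  obtain ⟨haX, h1, h2⟩ := (mem_gen R).mp ha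
  have h1' : (R.s1 a : K) ≠ 0 := by exact_mod_cast h1
  have h2' : (R.s1 (G.nx a) : K) ≠ 0 := by exact_mod_cast h2
  rw [sfm_single]
  by_cases e1 : a = x
  · subst e1
    rw [if_pos rfl, if_pos rfl, if_neg (nx_ne haX), if_neg (pv_ne haX).symm]
    field_simp
    ring
  · rw [if_neg e1, if_neg e1]
    by_cases e2 : G.nx a = x
    · subst e2
      rw [if_pos rfl, if_pos (pv_nx haX).symm]
      field_simp
      ring
    · have e3 : a ≠ G.pv x := by
        rintro rfl
        exact e2 (nx_pv hx)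
      rw [if_neg e2, if_neg e3]
      ring

theorem oppo_sum (x : V) (g : V → K) :
    ∑ h ∈ oppo R, (Pi.single x (1 : K) : V → K) h * g h = if x ∈ oppo R then g x else 0 := by
  rw [← Finset.sum_ite_eq' (oppo R) x g]
  refine Finset.sum_congr rfl fun a _ => ?_
  simp only [Pi.single_apply, ite_mul, one_mul, zero_mul]

theorem qB_eq {x : V} (hx : x ∈ G.X) (y : V) :
    qB R (Pi.single x 1) (Pi.single y 1) =
      ((if x ∈ oppo R then bnd G x (Pi.single y 1) + G.cx x * (Pi.single y (1 : K) : V → K) x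
        else 0) + (if y ∈ oppo R then bnd G y (Pi.single x 1) else 0)) -
      ((if x ∈ gen R then sfm R x (Pi.single y 1) / R.s1 x else 0) -
        (if G.pv x ∈ gen R then sfm R (G.pv x) (Pi.single y 1) / R.s1 x else 0)) := by
  rw [qB, gen_sum R hx (fun a => sfm R a (Pi.single y 1)),
    ← oppo_sum R x (fun h => bnd G h (Pi.single y 1) + G.cx h * (Pi.single y (1 : K) : V → K) h),
    ← oppo_sum R y (fun h => bnd G h (Pi.single x 1)), ← Finset.sum_add_distrib]
  congr 1
  exact Finset.sum_congr rfl fun a _ => by ring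

theorem pB_eq {x : V} (hx : x ∈ G.X) (z : V → K) :
    pB R (Pi.single x 1) (Pi.single x 1) z =
      (if x ∈ oppo R then bnd G x z - G.cx x * z x else 0) +
      ((if x ∈ gen R then R.s1 (G.nx x) * sfm R x z / R.s1 x else 0) +
        (if G.pv x ∈ gen R then R.s1 (G.pv x) * sfm R (G.pv x) z / R.s1 x else 0)) := by
  have e1 := gen_sum R hx (fun a => sfm R a (Pi.single x 1) * sfm R a z)
  have e2 := oppo_sum R x (fun h => (Pi.single x (1 : K) : V → K) h * bnd G h z +
    2 * bnd G h (Pi.single x 1) * z h + G.cx h * (Pi.single x (1 : K) : V → K) h * z h)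
  have e3 : pB R (Pi.single x 1) (Pi.single x 1) z =
      ∑ h ∈ oppo R, (Pi.single x (1 : K) : V → K) h *
        ((Pi.single x (1 : K) : V → K) h * bnd G h z +
        2 * bnd G h (Pi.single x 1) * z h + G.cx h * (Pi.single x (1 : K) : V → K) h * z h) +
      ∑ a ∈ gen R, (1 / ((R.s1 a : K) * (R.s1 (G.nx a) : K))) * sfm R a (Pi.single x 1) *
        (sfm R a (Pi.single x 1) * sfm R a z) := by
    rw [pB]
    congr 1
    · exact Finset.sum_congr rfl fun a _ => by ring
    · exact Finset.sum_congr rfl fun a _ => by ring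
  rw [e3, e1, e2]
  simp only [sfm_single, bnd_single, Pi.single_eq_same, if_true, nx_pv hx, if_neg (nx_ne hx),
    if_neg (pv_ne hx)]
  split_ifs <;> ring

theorem pB12 (y y' y'' : V → K) : pB R y y' y'' = pB R y' y y'' := by
  rw [pB, pB]
  congr 1
  · exact Finset.sum_congr rfl fun a _ => by ring
  · exact Finset.sum_congr rfl fun a _ => by ring

theorem pB23 (y y' y'' : V → K) : pB R y y' y'' = pB R y y'' y' := by
  rw [pB, pB]
  congr 1
  · exact Finset.sum_congr rfl fun a _ => by ring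
  · exact Finset.sum_congr rfl fun a _ => by ring

theorem pB_distinct {x y z : V} (h1 : x ≠ y) (h2 : x ≠ z) (h3 : y ≠ z) :
    pB R (Pi.single x 1) (Pi.single y 1) (Pi.single z 1) = 0 := by
  rw [pB, Finset.sum_eq_zero, Finset.sum_eq_zero, add_zero]
  · intro a _
    simp only [sfm_single]
    split_ifs <;> first | (exfalso; simp_all; done) | simp
  · intro a _
    simp only [Pi.single_apply]
    split_ifs <;> first | (exfalso; simp_all; done) | simp

theorem part1 (A : PLA G) {x y : V} (hx : x ∈ G.X) (hy : y ∈ G.X) (hx0 : x ≠ R.x0)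
    (hy0 : y ≠ R.x0) :
    P.mu G.fc (P.D x) (P.D y) = qB R (Pi.single x 1) (Pi.single y 1) := by
  rw [A.fXX x hx y hy, qB_eq R hx]
  simp only [sfm_single, bnd_single, mem_gen, mem_oppo, nx_pv hx, hx, hy, pv_mem hx, hx0, hy0,
    true_and, ne_eq, not_false_eq_true, and_true, Pi.single_apply]
  by_cases e : x = y
  · subst e
    simp only [if_true, if_neg (nx_ne hx), if_neg (pv_ne hx)]
    by_cases h0 : R.s1 x = 0
    · simp [h0]
    · have h0' : (R.s1 x : K) ≠ 0 := by exact_mod_cast h0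
      have hc := (cx_s R hx).2
      have hc' : G.cx x = ((R.s1 (G.nx x) : K) + R.s1 (G.pv x)) / R.s1 x := by
        rw [hc]; field_simp
      rw [hc']
      by_cases h1 : R.s1 (G.nx x) = 0 <;> by_cases h2 : R.s1 (G.pv x) = 0 <;>
        simp [h0, h1, h2] <;> ring
  · have e' : y ≠ x := fun h => e h.symm
    simp only [if_neg e, if_neg e', G.adjX x hx y hy]
    by_cases a1 : y = G.nx x
    · subst a1
      have b1 : G.pv x ≠ G.nx x := (nx_ne_pv hx).symm
      have b2 : G.nx (G.nx x) ≠ x := by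
        intro h
        have := nx_ne_pv (nx_mem hx)
        rw [h, pv_nx hx] at this
        exact this rfl
      by_cases h0 : R.s1 x = 0
      · simp [h0, not_both R hx h0, b1]
      · have h0' : (R.s1 x : K) ≠ 0 := by exact_mod_cast h0
        by_cases h1 : R.s1 (G.nx x) = 0 <;> simp [h0, h0', h1, b1, b2, pv_nx hx]
    · have a1' : G.nx x ≠ y := fun h => a1 h.symm
      by_cases a2 : y = G.pv x
      · subst a2
        have b2 : G.pv (G.pv x) ≠ x := by
          intro h
          have := nx_ne_pv (pv_mem hx)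
          rw [h, nx_pv hx] at this
          exact this rfl
        by_cases h1 : R.s1 (G.pv x) = 0
        · have h0 := not_both R (pv_mem hx) h1
          rw [nx_pv hx] at h0
          simp [h0, h1, a1', b2, nx_pv hx]
        · by_cases h0 : R.s1 x = 0
          · simp [h0, h1, a1']
          · have h0' : (R.s1 x : K) ≠ 0 := by exact_mod_cast h0
            simp [h0, h0', h1, a1']
      · have a2' : G.pv x ≠ y := fun h => a2 h.symm
        have b1 : G.pv y ≠ x := by
          rintro rfl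
          exact a1 (nx_pv hy).symm
        have b2 : G.nx y ≠ x := by
          rintro rfl
          exact a2 (pv_nx hy).symm
        simp [a1, a2, a1', a2', b1, b2]

theorem m_nx (hw : Std R.w1) {x : V} (hx : x ∈ G.X) :
    Std (P.m3 x x (G.nx x) + R.w0 * R.s1 (G.nx x)) := by
  have h := (R.mXX x hx).1
  rw [w_eq R _ _ (nx_mem hx)] at h
  exact (h.add (hw.mul (Std.rat (R.s0 (G.nx x))))).of_eq (by ring)

theorem m_pv (hw : Std R.w1) {x : V} (hx : x ∈ G.X) :
    Std (P.m3 x x (G.pv x) - R.w0 * R.s1 (G.pv x)) := by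
  have h := (R.mXX _ (pv_mem hx)).2
  rw [w_eq' R _ _ (pv_mem hx), nx_pv hx] at h
  exact (h.sub (hw.mul (Std.rat (R.s0 (G.pv x))))).of_eq (by ring)

theorem m_far {x z : V} (hx : x ∈ G.X) (hz : z ∈ G.X) (h0 : x ≠ z) (h1 : z ≠ G.nx x)
    (h2 : z ≠ G.pv x) : P.m3 x x z = 0 :=
  P.nadj h0 (fun h => ((G.adjX x hx z hz).mp h).elim h1 h2) _

include R in
theorem sum_loc {x : V} (hx : x ∈ G.X) (s : V → ℚ) :
    Std (∑ a, (s a : K) * P.m3 x x a - ((s x : K) * P.m3 x x x +
      (s (G.nx x) : K) * P.m3 x x (G.nx x) + (s (G.pv x) : K) * P.m3 x x (G.pv x))) := by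
  have e : ∀ b, (s b : K) * P.m3 x x b =
      ∑ a, if a = b then (s a : K) * P.m3 x x a else 0 := fun b => by simp
  rw [e x, e (G.nx x), e (G.pv x), ← Finset.sum_add_distrib, ← Finset.sum_add_distrib,
    ← Finset.sum_sub_distrib]
  refine Std.sum _ fun a _ => ?_
  by_cases a0 : a = x
  · subst a0
    rw [if_pos rfl, if_neg (nx_ne hx).symm, if_neg (pv_ne hx).symm]
    exact Std.zero.of_eq (by ring)
  by_cases a1 : a = G.nx x
  · subst a1
    rw [if_neg a0, if_pos rfl, if_neg (nx_ne_pv hx)]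
    exact Std.zero.of_eq (by ring)
  by_cases a2 : a = G.pv x
  · subst a2
    rw [if_neg a0, if_neg a1, if_pos rfl]
    exact Std.zero.of_eq (by ring)
  rw [if_neg a0, if_neg a1, if_neg a2]
  by_cases ha : a ∈ G.X
  · rw [m_far hx ha (fun h => a0 h.symm) a1 a2]
    exact Std.zero.of_eq (by ring)
  · exact ((Std.rat (s a)).mul (R.stdm x x a (Or.inr (Or.inr ha)))).of_eq (by ring)

theorem sum_lr (A : PLA G) {x : V} (hx : x ∈ G.X) :
    ∑ a, (R.s0 a : K) * P.m3 x x a = R.w0 * G.cx x ∧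
    ∑ a, (R.s1 a : K) * P.m3 x x a = R.w1 * G.cx x := by
  obtain ⟨u0, u1, h0, h1, -⟩ := forms R
  have f := A.fXX x hx x hx
  rw [if_pos rfl, P.mu13, A.fc_lo, P.form_cl] at f
  have e0 := P.LR (P.mu (P.D x) (P.D x)) u0
  have e1 := P.LR (P.mu (P.D x) (P.D x)) u1
  simp only [h0, h1, add_mul, Finset.sum_add_distrib] at e0 e1
  have k : ∀ w : K, ∑ a, max (- G.l (P.v a)) 0 * w * P.mu (P.D x) (P.D x) (P.D a) =
      - (w * G.cx x) := fun w => by
    rw [← mul_neg, ← f, Finset.mul_sum]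
    exact Finset.sum_congr rfl fun a _ => by ring
  rw [k] at e0 e1
  exact ⟨by simpa [HP.m3, add_neg_eq_zero] using e0, by simpa [HP.m3, add_neg_eq_zero] using e1⟩

theorem part2a (A : PLA G) (hw : Std R.w1) {x z : V} (hx : x ∈ G.X) (hz : z ∈ G.X)
    (hx0 : x ≠ R.x0) :
    Std (P.m3 x x z - R.w0 * pB R (Pi.single x 1) (Pi.single x 1) (Pi.single z 1)) := by
  rw [pB_eq R hx]
  simp only [sfm_single, bnd_single, mem_gen, mem_oppo, nx_pv hx, hx, pv_mem hx, hx0,
    true_and, ne_eq, not_false_eq_true, and_true, Pi.single_apply]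
  have mn := m_nx R hw hx
  have mp := m_pv R hw hx
  by_cases e : x = z
  · subst e
    simp only [if_true, if_neg (nx_ne hx), if_neg (pv_ne hx)]
    by_cases h0 : R.s1 x = 0
    · obtain ⟨o1, o2, o3⟩ := opp_s R hx hx0 h0
      have k := sum_loc R hx R.s0
      have c := (cx_s R hx).1
      rw [(sum_lr R A hx).1, o1] at k
      rw [o1] at c
      rw [o2] at mn
      rw [o3] at mp
      refine ((k.add ((Std.rat (R.s0 (G.nx x))).mul mn)).add
        ((Std.rat (R.s0 (G.pv x))).mul mp)).of_eq ?_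
      simp only [h0, if_true, not_true_eq_false, false_and, and_false, if_false]
      linear_combination (R.w0) * c
    · have h0' : (R.s1 x : K) ≠ 0 := by exact_mod_cast h0
      have k := sum_loc R hx R.s1
      rw [(sum_lr R A hx).2] at k
      refine (((((hw.mul (R.stdc x hx)).sub k).sub ((Std.rat (R.s1 (G.nx x))).mul mn)).sub
        ((Std.rat (R.s1 (G.pv x))).mul mp)).div (Std.rat (R.s1 x))).of_eq ?_
      by_cases h1 : R.s1 (G.nx x) = 0 <;> by_cases h2 : R.s1 (G.pv x) = 0 <;>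
        simp [h0, h1, h2] <;> field_simp <;> ring
  · simp only [if_neg e]
    by_cases a1 : z = G.nx x
    · subst a1
      have b1 : G.pv x ≠ G.nx x := (nx_ne_pv hx).symm
      refine mn.of_eq ?_
      by_cases h0 : R.s1 x = 0
      · rw [(opp_s R hx hx0 h0).2.1]
        simp [h0, b1, sub_eq_add_neg]
      · have h0' : (R.s1 x : K) ≠ 0 := by exact_mod_cast h0
        by_cases h1 : R.s1 (G.nx x) = 0
        · simp [h0, h1, b1]
        · simp [h0, h1, b1]
          field_simp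
          ring
    · have a1' : G.nx x ≠ z := fun h => a1 h.symm
      by_cases a2 : z = G.pv x
      · subst a2
        refine mp.of_eq ?_
        by_cases h0 : R.s1 x = 0
        · rw [(opp_s R hx hx0 h0).2.2]
          simp [h0, a1']
        · have h0' : (R.s1 x : K) ≠ 0 := by exact_mod_cast h0
          by_cases h1 : R.s1 (G.pv x) = 0
          · simp [h0, h1, a1']
          · simp [h0, h0', h1, a1']
      · have a2' : G.pv x ≠ z := fun h => a2 h.symm
        rw [m_far hx hz e a1 a2]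
        exact Std.zero.of_eq (by simp [a1', a2'])

end PFx

theorem p_PF (hWREL : S_WREL) :
    S_PF := by
  intro K V I _ _ _ _ _ _ _ P G A R _ hw
  refine ⟨fun x hx y hy hx0 hy0 => PFx.part1 R A hx hy hx0 hy0,
    fun x hx y hy z hz hx0 hy0 hz0 => ?_⟩
  by_cases e1 : x = y
  · subst e1
    exact PFx.part2a R A hw hx hz hx0
  by_cases e2 : x = z
  · subst e2
    rw [PFx.pB23, HP.m3, P.mu23]
    exact PFx.part2a R A hw hx hy hx0
  by_cases e3 : y = z
  · subst e3
    rw [PFx.pB12, PFx.pB23, HP.m3, P.mu13]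
    exact PFx.part2a R A hw hy hx hy0
  rw [PFx.pB_distinct R e1 e2 e3, mul_zero, sub_zero]
  exact P.m3_std e1 e2 e3

end Pool.Agent.P.MP_33ab4b_ag.T
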