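import Pool.Agent.P.MP_33ab4b_ag.T.LpB

/-! Step PIVOT. -/

set_option autoImplicit false
set_option linter.unusedSectionVars false

namespace Pool.Agent.P.MP_33ab4b_ag.T

open scoped Classical

section
variable {K V : Type} [Field K] [LinearOrder K] [IsStrictOrderedRing K] [Fintype V] [DecidableEq V]

/-- The sum of the coordinates of `x` in a basis. -/
noncomputable def pivVal (Φ : Fan K V) (x : V3 K) (a b c : V) : K :=
  (det3 x (Φ.v b) (Φ.v c) + det3 (Φ.v a) x (Φ.v c) + det3 (Φ.v a) (Φ.v b) x) /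
    det3 (Φ.v a) (Φ.v b) (Φ.v c)

theorem pivVal_eq (Φ : Fan K V) {x : V3 K} {a b c : V} (hd : det3 (Φ.v a) (Φ.v b) (Φ.v c) ≠ 0)
    {r s t : K} (e : x = r • Φ.v a + s • Φ.v b + t • Φ.v c) : pivVal Φ x a b c = r + s + t := by
  rw [pivVal, e, lp_det_comb1, lp_det_comb2, lp_det_comb3]
  field_simp

/-- One simplex pivot, when the first coordinate gives the smallest ratio. -/
theorem piv_step (Φ : Fan K V) {x : V3 K} {u : Fm K} {lam : K} {a b c i : V}
    (hd : det3 (Φ.v a) (Φ.v b) (Φ.v c) ≠ 0) (hb : Φ.Tight u lam b) (hc : Φ.Tight u lam c)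
    (hi : Φ.Tight u lam i) {r s t α β γ : K} (hr : 0 < r)
    (e : x = r • Φ.v a + s • Φ.v b + t • Φ.v c) (ei : Φ.v i = α • Φ.v a + β • Φ.v b + γ • Φ.v c)
    (hα : 0 < α) (h1 : r * β ≤ s * α) (h2 : r * γ ≤ t * α) (hsum : α + β + γ < 1) :
    Φ.Good x u lam i b c ∧ r + s + t < pivVal Φ x i b c := by
  have hd' : det3 (Φ.v i) (Φ.v b) (Φ.v c) ≠ 0 := by
    rw [ei, lp_det_comb1]; exact mul_ne_zero hα.ne' hd
  have e' : x = (r / α) • Φ.v i + (s - r / α * β) • Φ.v b + (t - r / α * γ) • Φ.v c := by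
    rw [e, ei]
    funext j
    simp only [Pi.add_apply, Pi.smul_apply, smul_eq_mul]
    field_simp
    ring
  have hθ : 0 < r / α := div_pos hr hα
  refine ⟨⟨hd', hi, hb, hc, _, _, _, hθ.le, ?_, ?_, e'⟩, ?_⟩
  · rw [sub_nonneg, div_mul_eq_mul_div, div_le_iff₀ hα]; exact h1
  · rw [sub_nonneg, div_mul_eq_mul_div, div_le_iff₀ hα]; exact h2
  · rw [pivVal_eq Φ hd' e']
    have h3 : r / α * α = r := by field_simp
    have h4 := mul_lt_mul_of_pos_left hsum hθ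
    nlinarith

end

theorem p_PIVOT :
    S_PIVOT := by
  intro K V _ _ _ _ _ Φ x u lam a0 b0 c0 hg h0
  obtain ⟨⟨a, b, c⟩, hG, hmax⟩ := Set.exists_max_image
    {p : V × V × V | Φ.Good x u lam p.1 p.2.1 p.2.2} (fun p => pivVal Φ x p.1 p.2.1 p.2.2)
    (Set.toFinite _) ⟨(a0, b0, c0), h0⟩
  have hmax' : ∀ a' b' c', Φ.Good x u lam a' b' c' → pivVal Φ x a' b' c' ≤ pivVal Φ x a b c :=
    fun a' b' c' h => hmax (a', b', c') h
  have hG' : Φ.Good x u lam a b c := hG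
  obtain ⟨hd, ha, hb, hc, r, s, t, hr, hs, ht, e⟩ := hG'
  obtain ⟨k, ka, kb, kc⟩ := exists_form hd 1 1 1
  by_cases hk : ∀ i, Φ.Tight u lam i → 1 ≤ k (Φ.v i)
  · exact Or.inr ⟨a, b, c, hG, k, ka, kb, kc, hk⟩
  left
  push Not at hk
  obtain ⟨i, hi, hki⟩ := hk
  obtain ⟨α, β, γ, ei⟩ : ∃ α β γ : K, Φ.v i = α • Φ.v a + β • Φ.v b + γ • Φ.v c :=
    ⟨_, _, _, lp_coord hd _⟩
  have hsum : α + β + γ < 1 := by
    rw [ei] at hki
    simpa [ka, kb, kc] using hki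
  have hd2 : det3 (Φ.v b) (Φ.v c) (Φ.v a) ≠ 0 := by rwa [det3_rot]
  have hd3 : det3 (Φ.v c) (Φ.v a) (Φ.v b) ≠ 0 := by rwa [← det3_rot]
  have e2 : x = s • Φ.v b + t • Φ.v c + r • Φ.v a := by rw [e]; abel
  have e3 : x = t • Φ.v c + r • Φ.v a + s • Φ.v b := by rw [e]; abel
  have ei2 : Φ.v i = β • Φ.v b + γ • Φ.v c + α • Φ.v a := by rw [ei]; abel
  have ei3 : Φ.v i = γ • Φ.v c + α • Φ.v a + β • Φ.v b := by rw [ei]; abel
  have gen : ∀ {a b c : V} {r s t : K}, det3 (Φ.v a) (Φ.v b) (Φ.v c) ≠ 0 →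
      x = r • Φ.v a + s • Φ.v b + t • Φ.v c → 0 ≤ t → 0 < t := by
    intro a b c r s t hd e ht
    refine lt_of_le_of_ne ht ?_
    rintro rfl
    refine hg a b (fun h => hd (by simpa using LinearMap.congr_fun h (Φ.v c))) ?_
    rw [e, lp_det_comb3, zero_mul]
  have ht' : 0 < t := gen hd e ht
  have hr' : 0 < r := gen hd2 e2 hr
  have hs' : 0 < s := gen hd3 e3 hs
  have hv : pivVal Φ x a b c = r + s + t := pivVal_eq Φ hd e
  have n1 : ¬ (0 < α ∧ r * β ≤ s * α ∧ r * γ ≤ t * α) := fun h => by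
    obtain ⟨g, l⟩ := piv_step Φ hd hb hc hi hr' e ei h.1 h.2.1 h.2.2 hsum
    have := hmax' _ _ _ g
    linarith
  have n2 : ¬ (0 < β ∧ s * γ ≤ t * β ∧ s * α ≤ r * β) := fun h => by
    obtain ⟨g, l⟩ := piv_step Φ hd2 hc ha hi hs' e2 ei2 h.1 h.2.1 h.2.2 (by linarith)
    have := hmax' _ _ _ g
    linarith
  have n3 : ¬ (0 < γ ∧ t * α ≤ r * γ ∧ t * β ≤ s * γ) := fun h => by
    obtain ⟨g, l⟩ := piv_step Φ hd3 ha hb hi ht' e3 ei3 h.1 h.2.1 h.2.2 (by linarith)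
    have := hmax' _ _ _ g
    linarith
  have key : α ≤ 0 ∧ β ≤ 0 ∧ γ ≤ 0 := by
    obtain ⟨A, rfl⟩ : ∃ A, α = r * A := ⟨α / r, by field_simp⟩
    obtain ⟨B, rfl⟩ : ∃ B, β = s * B := ⟨β / s, by field_simp⟩
    obtain ⟨C, rfl⟩ : ∃ C, γ = t * C := ⟨γ / t, by field_simp⟩
    have c1 : ∀ {p q X Y : K}, 0 < p → 0 < q → X ≤ Y → p * (q * X) ≤ q * (p * Y) := by
      intro p q X Y hp hq h
      have := mul_le_mul_of_nonneg_left h (mul_pos hp hq).le
      linarith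
    have m1 : ¬ (0 < A ∧ B ≤ A ∧ C ≤ A) := fun h =>
      n1 ⟨mul_pos hr' h.1, c1 hr' hs' h.2.1, c1 hr' ht' h.2.2⟩
    have m2 : ¬ (0 < B ∧ C ≤ B ∧ A ≤ B) := fun h =>
      n2 ⟨mul_pos hs' h.1, c1 hs' ht' h.2.1, c1 hs' hr' h.2.2⟩
    have m3 : ¬ (0 < C ∧ A ≤ C ∧ B ≤ C) := fun h =>
      n3 ⟨mul_pos ht' h.1, c1 ht' hr' h.2.1, c1 ht' hs' h.2.2⟩
    have z : A ≤ 0 ∧ B ≤ 0 ∧ C ≤ 0 := by
      by_contra hn
      rcases le_total A B with h1 | h1 <;> rcases le_total B C with h2 | h2 <;>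
        rcases le_total A C with h3 | h3 <;>
        first
        | exact m1 ⟨by by_contra h; exact hn ⟨by linarith, by linarith, by linarith⟩,
            by linarith, by linarith⟩
        | exact m2 ⟨by by_contra h; exact hn ⟨by linarith, by linarith, by linarith⟩,
            by linarith, by linarith⟩
        | exact m3 ⟨by by_contra h; exact hn ⟨by linarith, by linarith, by linarith⟩,
            by linarith, by linarith⟩
    exact ⟨mul_nonpos_of_nonneg_of_nonpos hr z.1, mul_nonpos_of_nonneg_of_nonpos hs z.2.1,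
      mul_nonpos_of_nonneg_of_nonpos ht z.2.2⟩
  have pos : ∀ (p j : V) (y : K), 0 ≤ y → 0 ≤ (if j = p then y else 0) := by
    intro p j y hy; split_ifs <;> simp [hy]
  refine ⟨fun j => (if j = i then 1 else 0) + (if j = a then -α else 0) +
    (if j = b then -β else 0) + (if j = c then -γ else 0), ?_, ⟨i, ?_⟩, ?_, ?_⟩
  · intro j
    have := pos i j 1 zero_le_one; have := pos a j _ (neg_nonneg.mpr key.1)
    have := pos b j _ (neg_nonneg.mpr key.2.1); have := pos c j _ (neg_nonneg.mpr key.2.2)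
    positivity
  · have := pos a i _ (neg_nonneg.mpr key.1)
    have := pos b i _ (neg_nonneg.mpr key.2.1); have := pos c i _ (neg_nonneg.mpr key.2.2)
    simp only [if_true]
    positivity
  · simp only [add_smul, ite_smul, zero_smul, Finset.sum_add_distrib, Finset.sum_ite_eq',
      Finset.mem_univ, if_true, one_smul, neg_smul]
    rw [ei]; abel
  · intro j hj
    by_cases h1 : j = i
    · rwa [h1]
    by_cases h2 : j = a
    · rwa [h2]
    by_cases h3 : j = b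
    · rwa [h3]
    by_cases h4 : j = c
    · rwa [h4]
    simp [h1, h2, h3, h4] at hj

end Pool.Agent.P.MP_33ab4b_ag.T
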