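import Pool.Agent.P.MP_33ab4b_ag.T.IfaceP
import Pool.Agent.P.MP_33ab4b_ag.T.IfaceF
import Pool.Agent.P.MP_33ab4b_ag.T.IfaceA

/-! Step PL1. -/

set_option autoImplicit false

namespace Pool.Agent.P.MP_33ab4b_ag.T

open scoped Classical

namespace PL1x

section field

variable {K : Type} [Field K] [LinearOrder K] [IsStrictOrderedRing K]

theorem ldet (l : Fm K) {x y : V3 K} (hx : l x = 0) (hy : l y = 0) (e k : V3 K) :
    det3 k x y * l e = l k * det3 e x y := by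
  have := form_cramer l e x y k
  rw [hx, hy] at this
  linear_combination - this

theorem par (l : Fm K) {x y e : V3 K} (hx : l x = 0) (hy : l y = 0) (he : l e ≠ 0)
    (h : det3 e x y = 0) (h0 : x ≠ 0) : ∃ r : K, y = r • x := by
  have hk : ∀ k, det3 k x y = 0 := fun k => by
    have := ldet l hx hy e k
    rw [h, mul_zero] at this
    exact (mul_eq_zero.mp this).resolve_right he
  have h0' := hk ![1, 0, 0]
  have h1' := hk ![0, 1, 0]
  have h2' := hk ![0, 0, 1]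
  simp [det3] at h0' h1' h2'
  have cr : ∀ i j : Fin 3, x i * y j = x j * y i := by
    intro i j
    fin_cases i <;> fin_cases j <;> simp <;> linarith
  obtain ⟨i, hi⟩ : ∃ i, x i ≠ 0 := by
    by_contra hc
    push Not at hc
    exact h0 (funext hc)
  refine ⟨y i / x i, funext fun j => ?_⟩
  have := cr i j
  simp only [Pi.smul_apply, smul_eq_mul]
  field_simp
  linear_combination this

theorem exists_pos {u : Fm K} (hu : u ≠ 0) : ∃ y, 0 < u y := by
  obtain ⟨y, hy⟩ : ∃ y, u y ≠ 0 := by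
    by_contra hc
    push Not at hc
    exact hu (LinearMap.ext hc)
  rcases lt_or_gt_of_ne hy with h | h
  · exact ⟨-y, by simpa using h⟩
  · exact ⟨y, h⟩

end field

variable {K V : Type} [Field K] [LinearOrder K] [IsStrictOrderedRing K] [Fintype V] [DecidableEq V]
  {Φ : Fan K V}

theorem v_ne (a : V) : Φ.v a ≠ 0 := by
  obtain ⟨s, hs, ha⟩ := Φ.used a
  obtain ⟨b, c, _, h⟩ := Fan.exists_face_of_mem hs ha
  intro e
  apply h.det_ne
  rw [e]
  simp [det3]

theorem rep_form {x : V3 K} {t : V → K} (h : Φ.IsRep x t) (u : Fm K) :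
    u x = ∑ a, t a * u (Φ.v a) := by
  rw [h.2.2]
  simp [map_sum]

theorem rep_pos {x : V3 K} {t : V → K} (h : Φ.IsRep x t) {u : Fm K} (hu : 0 < u x) :
    ∃ a, t a ≠ 0 ∧ 0 < u (Φ.v a) := by
  by_contra hc
  push Not at hc
  rw [rep_form h] at hu
  refine absurd hu (not_lt.mpr (Finset.sum_nonpos fun a _ => ?_))
  rcases eq_or_ne (t a) 0 with e | e
  · simp [e]
  · exact mul_nonpos_of_nonneg_of_nonpos (h.1 a) (hc a e)

theorem supp_aux {l : Fm K} (hl : ∀ a b, Φ.adj a b → ¬ (0 < l (Φ.v a) ∧ l (Φ.v b) < 0))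
    {x : V3 K} {t : V → K} (h : Φ.IsRep x t) (hx : l x = 0) {a : V} (ha : t a ≠ 0) :
    ¬ 0 < l (Φ.v a) := by
  intro hp
  obtain ⟨s, hs, hs0⟩ := h.2.1
  have has : a ∈ s := by_contra fun hc => ha (hs0 a hc)
  have hnn : ∀ b ∈ (Finset.univ : Finset V), 0 ≤ t b * l (Φ.v b) := by
    intro b _
    by_cases hb : b ∈ s
    · refine mul_nonneg (h.1 b) (not_lt.mp fun hn => ?_)
      have hab : a ≠ b := by
        rintro rfl
        exact lt_asymm hp hn
      exact hl a b ⟨hab, s, hs, has, hb⟩ ⟨hp, hn⟩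
    · simp [hs0 b hb]
  have h1 := Finset.single_le_sum hnn (Finset.mem_univ a)
  rw [← rep_form h l, hx] at h1
  exact absurd (mul_pos (lt_of_le_of_ne (h.1 a) ha.symm) hp) (not_lt.mpr h1)

/-- Points of a straight plane are supported on the vertices of the plane. -/
theorem supp {l : Fm K} (hl : Φ.StrPlane l) {x : V3 K} {t : V → K} (h : Φ.IsRep x t)
    (hx : l x = 0) {a : V} (ha : t a ≠ 0) : l (Φ.v a) = 0 := by
  have h1 := supp_aux hl.2 h hx ha
  have h2 := supp_aux (l := -l) (fun a b hab hc => hl.2 b a hab.symm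
    ⟨by simpa using hc.2, by simpa using hc.1⟩) h (by simpa using hx) ha
  simp only [LinearMap.neg_apply, Left.neg_pos_iff, not_lt] at h1 h2
  exact le_antisymm h1 h2

theorem rep_single (y : V) : Φ.IsRep (Φ.v y) (Pi.single y 1) := by
  obtain ⟨s, hs, hy⟩ := Φ.used y
  refine ⟨fun a => ?_, ⟨s, hs, fun a ha => ?_⟩, ?_⟩
  · by_cases e : a = y <;> simp [e]
  · have : a ≠ y := by
      rintro rfl
      exact ha hy
    simp [this]
  · simp [Pi.single_apply, ite_smul]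

theorem eq_of_comb (hU : ∀ x t t', Φ.IsRep x t → Φ.IsRep x t' → t = t') {a b y : V}
    (hab : Φ.adj a b) {α β : K} (hα : 0 ≤ α) (hβ : 0 < β)
    (h : Φ.v y = α • Φ.v a + β • Φ.v b) : y = b := by
  obtain ⟨hne, s, hs, ha, hb⟩ := hab
  have h1 : Φ.IsRep (Φ.v y) (Pi.single a α + Pi.single b β) := by
    refine ⟨fun c => ?_, ⟨s, hs, fun c hc => ?_⟩, ?_⟩
    · simp only [Pi.add_apply, Pi.single_apply]
      split_ifs <;> positivity
    · have h1 : c ≠ a := by
        rintro rfl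
        exact hc ha
      have h2 : c ≠ b := by
        rintro rfl
        exact hc hb
      simp [h1, h2]
    · rw [h]
      simp [add_smul, Finset.sum_add_distrib, Pi.single_apply, ite_smul]
  have h2 := congrFun (hU _ _ _ h1 (rep_single y)) b
  by_contra hc
  simp [hne.symm, Ne.symm hc] at h2
  exact hβ.ne' h2

theorem not_all {l : Fm K} (hl : l ≠ 0) {a b c : V} (h : Φ.face a b c) (ha : l (Φ.v a) = 0)
    (hb : l (Φ.v b) = 0) : l (Φ.v c) ≠ 0 := fun hc =>
  hl (form_ext (u' := 0) h.det_ne (by simpa using ha) (by simpa using hb) (by simpa using hc))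

/-- The vertices of the plane. -/
noncomputable def X (Φ : Fan K V) (l : Fm K) : Finset V :=
  Finset.univ.filter (fun a => l (Φ.v a) = 0)

theorem memX {l : Fm K} {a : V} : a ∈ X Φ l ↔ l (Φ.v a) = 0 := by simp [X]

theorem opp0 (hU : ∀ a b, ∀ r : K, 0 < r → Φ.v b = r • Φ.v a → a = b) {l : Fm K} {e : V3 K}
    (he : l e ≠ 0) {a b : V} (ha : a ∈ X Φ l) (hb : b ∈ X Φ l) (hab : a ≠ b)
    (h : det3 e (Φ.v a) (Φ.v b) = 0) : ∃ s : K, 0 < s ∧ Φ.v b = (-s) • Φ.v a := by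
  obtain ⟨r, hr⟩ := par l (memX.mp ha) (memX.mp hb) he h (v_ne a)
  rcases lt_trichotomy r 0 with h1 | h1 | h1
  · exact ⟨-r, by linarith, by simpa using hr⟩
  · exact absurd (by simpa [h1] using hr) (v_ne (Φ := Φ) b)
  · exact absurd (hU a b r h1 hr) hab

theorem exists_cyc (hUNIQ : S_UNIQ) (hNX : S_NX) {l : Fm K} (hl : Φ.StrPlane l) {e : V3 K}
    (he : l e ≠ 0) : ∃ nx pv : V → V, Cyc e Φ.v (X Φ l) nx pv := by
  refine hNX K V e Φ.v (X Φ l) ?_ ?_ ?_ ?_
  · rintro rfl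
    simp at he
  · intro a ha t ht
    have h1 := memX.mp ha
    rw [ht, map_smul, smul_eq_mul] at h1
    have h2 : t = 0 := (mul_eq_zero.mp h1).resolve_right he
    exact v_ne a (by simpa [h2] using ht)
  · intro a ha b hb hab h
    obtain ⟨s, hs, h'⟩ := opp0 (hUNIQ K V Φ).2.2 he ha hb hab h
    exact ⟨s, 0, hs, by simpa using h'⟩
  · intro u hu hue
    obtain ⟨y, hy⟩ := exists_pos hu
    obtain ⟨t, ht⟩ := Fan.exists_rep (Φ := Φ) (y - (l y / l e) • e)
    have h1 : l (y - (l y / l e) • e) = 0 := by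
      rw [map_sub, map_smul, smul_eq_mul]
      field_simp
      ring
    obtain ⟨a, ha, hp⟩ := rep_pos ht (u := u) (by simpa [hue] using hy)
    exact ⟨a, memX.mpr (supp hl ht h1 ha), hp⟩

theorem sum3 {s : Finset V} {a b c : V} (e : s = {a, b, c}) (h : Φ.face a b c) {t : V → K}
    (ht : ∀ i, i ∉ s → t i = 0) :
    ∑ i, t i • Φ.v i = t a • Φ.v a + t b • Φ.v b + t c • Φ.v c := by
  obtain ⟨h1, h2, h3⟩ := h.ne
  rw [← Finset.sum_subset (Finset.subset_univ s) (fun i _ hi => by simp [ht i hi]), e,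
    Finset.sum_insert (by simp [h1, h2]), Finset.sum_insert (by simp [h3]), Finset.sum_singleton,
    add_assoc]

theorem adj_aux (hU : ∀ x t t', Φ.IsRep x t → Φ.IsRep x t' → t = t') {l : Fm K} {e : V3 K}
    {nx pv : V → V} (hc : Cyc e Φ.v (X Φ l) nx pv) {x b : V} (hx : x ∈ X Φ l)
    (hxb : Φ.adj x b) {δ p q : K} (hδ : 0 < δ) (hq : 0 ≤ q) (hb : q ≠ 0 → b ∈ X Φ l)
    (h : Φ.v x + δ • Φ.v (nx x) = p • Φ.v x + q • Φ.v b) : Φ.adj x (nx x) := by
  have h0 := hc.pos x hx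
  have h1 := congrArg (detL e (Φ.v x)) h
  simp only [map_add, map_smul, detL_apply, det3_self23, smul_eq_mul] at h1
  have h2 := congrArg (detL e (Φ.v (nx x))) h
  simp only [map_add, map_smul, detL_apply, det3_self23, smul_eq_mul] at h2
  rw [det3_swap23 e (Φ.v x), det3_swap23 e (Φ.v b)] at h2
  have hq0 : q ≠ 0 := by
    rintro rfl
    have := mul_pos hδ h0
    linarith
  have hq1 : 0 < q := lt_of_le_of_ne hq hq0.symm
  have h3 : 0 < det3 e (Φ.v x) (Φ.v b) := by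
    have : 0 < q * det3 e (Φ.v x) (Φ.v b) := by
      have := mul_pos hδ h0
      linarith
    exact (mul_pos_iff_of_pos_left hq1).mp this
  rcases le_or_gt 1 p with hp | hp
  · have h4 : Φ.v (nx x) = ((p - 1) / δ) • Φ.v x + (q / δ) • Φ.v b := by
      have h5 : δ • Φ.v (nx x) = (p - 1) • Φ.v x + q • Φ.v b := by
        rw [sub_smul, one_smul, sub_add_eq_add_sub, ← h]
        abel
      rw [div_eq_inv_mul, div_eq_inv_mul, mul_smul, mul_smul, ← smul_add, ← h5, smul_smul,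
        inv_mul_cancel₀ hδ.ne', one_smul]
    rw [eq_of_comb hU hxb (div_nonneg (by linarith) hδ.le) (div_pos hq1 hδ) h4]
    exact hxb
  · refine absurd ⟨h3, ?_⟩ (hc.nob x hx b (hb hq0))
    have : 0 < q * det3 e (Φ.v b) (Φ.v (nx x)) := by
      have := mul_pos (sub_pos.mpr hp) h0
      linarith
    exact (mul_pos_iff_of_pos_left hq1).mp this

/-- Consecutive vertices of the plane are adjacent. -/
theorem adj_nx (hUNIQ : S_UNIQ) {l : Fm K} (hl : Φ.StrPlane l) {e : V3 K} {nx pv : V → V}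
    (hc : Cyc e Φ.v (X Φ l) nx pv) {x : V} (hx : x ∈ X Φ l) : Φ.adj x (nx x) := by
  obtain ⟨hU, hN, _⟩ := hUNIQ K V Φ
  obtain ⟨δ0, h0, hδ⟩ := hN _ _ (rep_single x) (Φ.v (nx x))
  obtain ⟨t, ht⟩ := Fan.exists_rep (Φ := Φ) (Φ.v x + (δ0 / 2) • Φ.v (nx x))
  have htx := hδ (δ0 / 2) (by linarith) (by linarith) t ht x (by simp)
  have hl0 : l (Φ.v x + (δ0 / 2) • Φ.v (nx x)) = 0 := by
    simp [memX.mp hx, memX.mp (hc.mem x hx).1]
  have hsup : ∀ a, t a ≠ 0 → a ∈ X Φ l := fun a ha => memX.mpr (supp hl ht hl0 ha)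
  obtain ⟨s, hs, hs0⟩ := ht.2.1
  have hxs : x ∈ s := by_contra fun h => htx (hs0 x h)
  obtain ⟨b, c, es, hf⟩ := Fan.exists_face_of_mem hs hxs
  have h3 := ht.2.2
  rw [sum3 es hf hs0] at h3
  by_cases hb : t b = 0
  · refine adj_aux hU hc hx hf.adj13 (δ := δ0 / 2) (p := t x) (by linarith) (ht.1 c) (hsup c) ?_
    rw [h3, hb]
    simp
  · have hc0 : t c = 0 := by_contra fun h =>
      not_all hl.1 hf (memX.mp hx) (memX.mp (hsup b hb)) (memX.mp (hsup c h))
    refine adj_aux hU hc hx hf.adj12 (δ := δ0 / 2) (p := t x) (by linarith) (ht.1 b) (hsup b) ?_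
    rw [h3, hc0]
    simp

theorem eq_nx (hU : ∀ x t t', Φ.IsRep x t → Φ.IsRep x t' → t = t') {l : Fm K} {e : V3 K}
    (he : l e ≠ 0) {nx pv : V → V} (hc : Cyc e Φ.v (X Φ l) nx pv) {x y : V} (hx : x ∈ X Φ l)
    (hy : y ∈ X Φ l) (hxy : Φ.adj x y) (h : 0 < det3 e (Φ.v x) (Φ.v y)) : nx x = y := by
  have h0 := hc.pos x hx
  have h1 : 0 ≤ det3 e (Φ.v (nx x)) (Φ.v y) := by
    rw [det3_swap23]
    have := hc.nob x hx y hy
    push Not at this
    linarith [this h]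
  have h2 : det3 (Φ.v (nx x)) (Φ.v x) (Φ.v y) = 0 := by
    have := ldet l (memX.mp hx) (memX.mp hy) e (Φ.v (nx x))
    rw [memX.mp (hc.mem x hx).1, zero_mul] at this
    exact (mul_eq_zero.mp this).resolve_right he
  have h3 := cramer e (Φ.v x) (Φ.v y) (Φ.v (nx x))
  rw [h2, zero_smul, zero_add] at h3
  refine eq_of_comb hU hxy (div_nonneg h1 h.le) (div_pos h0 h) ?_
  rw [div_eq_inv_mul, div_eq_inv_mul, mul_smul, mul_smul, ← smul_add, ← h3, smul_smul,
    inv_mul_cancel₀ h.ne', one_smul]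

theorem adj_iff (hUNIQ : S_UNIQ) {l : Fm K} (hl : Φ.StrPlane l) {e : V3 K} (he : l e ≠ 0)
    {nx pv : V → V} (hc : Cyc e Φ.v (X Φ l) nx pv) {x y : V} (hx : x ∈ X Φ l)
    (hy : y ∈ X Φ l) : Φ.adj x y ↔ (y = nx x ∨ y = pv x) := by
  have hU := (hUNIQ K V Φ).1
  constructor
  · intro h
    obtain ⟨k, hk⟩ := h.exists_face
    have h1 : det3 e (Φ.v x) (Φ.v y) ≠ 0 := by
      intro h0
      have := ldet l (memX.mp hx) (memX.mp hy) e (Φ.v k)
      rw [h0, mul_zero] at this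
      exact hk.rot.rot.det_ne ((mul_eq_zero.mp this).resolve_right he)
    rcases lt_or_gt_of_ne h1 with h2 | h2
    · right
      have := eq_nx hU he hc hy hx h.symm (by rw [det3_swap23]; linarith)
      rw [← this, (hc.mem y hy).2.2.1]
    · exact Or.inl (eq_nx hU he hc hx hy h h2).symm
  · rintro (rfl | rfl)
    · exact adj_nx hUNIQ hl hc hx
    · have := adj_nx hUNIQ hl hc hy
      rw [(hc.mem x hx).2.2.2] at this
      exact this.symm

omit [Fintype V] [DecidableEq V] in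
theorem nxne {e : V3 K} {v : V → V3 K} {A : Finset V} {nx pv : V → V} (hc : Cyc e v A nx pv)
    {x : V} (hx : x ∈ A) : nx x ≠ x ∧ nx x ≠ pv x ∧ pv x ≠ x := by
  have h0 := hc.pos x hx
  have h1 := hc.pos _ (hc.mem x hx).2.1
  rw [(hc.mem x hx).2.2.2] at h1
  refine ⟨fun h => ?_, fun h => ?_, fun h => ?_⟩
  · rw [h] at h0
    simp at h0
  · rw [h, det3_swap23] at h0
    linarith
  · rw [h] at h1
    simp at h1

/-- Normalisation of the equation of the plane. -/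
theorem normal (hUNIQ : S_UNIQ) (hWALL : S_WALL) (hNX : S_NX) {l : Fm K} (hl : Φ.StrPlane l) :
    ∃ c : K, 0 < c ∧ ∃ x y k, c • l = detL (Φ.v x) (Φ.v y) ∧
      det3 (Φ.v x) (Φ.v y) (Φ.v k) = 1 := by
  obtain ⟨e, he⟩ := exists_pos hl.1
  obtain ⟨nx, pv, hc⟩ := exists_cyc hUNIQ hNX hl he.ne'
  obtain ⟨x, hx⟩ := hc.ne
  obtain ⟨k, _, _, _, _, hk, _⟩ := hWALL K V Φ x (nx x) (adj_nx hUNIQ hl hc hx)
  refine ⟨det3 e (Φ.v x) (Φ.v (nx x)) / l e, div_pos (hc.pos x hx) he, x, nx x, k, ?_, hk⟩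
  refine LinearMap.ext fun z => ?_
  have := ldet l (memX.mp hx) (memX.mp (hc.mem x hx).1) e z
  rw [LinearMap.smul_apply, smul_eq_mul, detL_apply, det3_rot z]
  field_simp
  linear_combination - this

end PL1x

open PL1x in
theorem p_PL1 (hUNIQ : S_UNIQ) (hWALL : S_WALL) (hNX : S_NX) (hFRB : S_FRB) :
    S_PL1 := by
  intro K V I _ _ _ _ _ _ _ P l0 hl0
  obtain ⟨c, hc0, x0, y0, k0, hl, hk0⟩ := normal hUNIQ hWALL hNX hl0
  obtain ⟨l, el⟩ : ∃ l, l = c • l0 := ⟨_, rfl⟩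
  have hstr : P.StrPlane l := by
    refine ⟨by rw [el]; exact smul_ne_zero hc0.ne' hl0.1, fun a b hab h => hl0.2 a b hab ?_⟩
    rw [el] at h
    simp only [LinearMap.smul_apply, smul_eq_mul] at h
    exact ⟨(mul_pos_iff_of_pos_left hc0).mp h.1, neg_of_mul_neg_right h.2 hc0.le⟩
  have hk1 : l (P.v k0) = 1 := by rw [el, hl, detL_apply, hk0]
  have hk2 : l (P.v k0) ≠ 0 := by rw [hk1]; exact one_ne_zero
  have hlZ : ∀ a, l (P.v a) ∈ P.hf.Z := fun a => by
    rw [el, hl, detL_apply]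
    exact det3_mem _ (P.vZ _) (P.vZ _) (P.vZ _)
  obtain ⟨nx, pv, hc⟩ := exists_cyc hUNIQ hNX hstr hk2
  have hld : ∀ x y : V3 K, l x = 0 → l y = 0 → ∀ k : V3 K,
      det3 k x y = l k * det3 (P.v k0) x y := fun x y hx hy k => by
    have := ldet l hx hy (P.v k0) k
    rwa [hk1, mul_one] at this
  have key : ∀ x, ∃ ku kl, x ∈ X P.toFan l → det3 (P.v k0) (P.v x) (P.v (nx x)) = 1 ∧
      (P.face x (nx x) ku ∧ l (P.v ku) = 1) ∧ P.face x (nx x) kl ∧ l (P.v kl) = -1 := by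
    intro x
    by_cases hx : x ∈ X P.toFan l
    · obtain ⟨k, k', _, f1, f2, d1, d2, _⟩ :=
        hWALL K V P.toFan x (nx x) (adj_nx hUNIQ hstr hc hx)
      have hn := memX.mp (hc.mem x hx).1
      rw [det3_rot, hld _ _ (memX.mp hx) hn] at d1 d2
      have h0 := hc.pos x hx
      have h1 := P.hf.disc _ (det3_mem _ (P.vZ _) (P.vZ _) (P.vZ _)) h0
      have h2 : 0 < l (P.v k) := (mul_pos_iff_of_pos_right h0).mp (by rw [d1]; exact one_pos)
      have h3 := P.hf.disc _ (hlZ k) h2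
      have h4 : det3 (P.v k0) (P.v x) (P.v (nx x)) = 1 := by nlinarith
      rw [h4, mul_one] at d1 d2
      exact ⟨k, k', fun _ => ⟨h4, ⟨f1, d1⟩, f2, d2⟩⟩
    · exact ⟨x, x, fun h => absurd h hx⟩
  choose ku kl hk using key
  have key2 : ∀ x, ∃ r : K, x ∈ X P.toFan l → P.v (nx x) + P.v (pv x) = r • P.v x := by
    intro x
    by_cases hx : x ∈ X P.toFan l
    · have h1 := (hk x hx).1
      have h2 := (hk _ (hc.mem x hx).2.1).1
      rw [(hc.mem x hx).2.2.2, det3_swap23] at h2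
      obtain ⟨r, hr⟩ := par l (x := P.v x) (y := P.v (nx x) + P.v (pv x)) (memX.mp hx)
        (by rw [map_add, memX.mp (hc.mem x hx).1, memX.mp (hc.mem x hx).2.1, add_zero]) hk2
        (by rw [← detL_apply, map_add, detL_apply, detL_apply]; linarith) (v_ne x)
      exact ⟨r, fun _ => hr⟩
    · exact ⟨0, fun h => absurd h hx⟩
  choose cx hcx using key2
  refine ⟨⟨l, X P.toFan l, nx, pv, ku, kl, k0, cx, fun a => memX, hlZ, hstr.2, hk1, hc, ?_,
    fun x hx => (hk x hx).1, ?_, fun x hx y hy => adj_iff hUNIQ hstr hk2 hc hx hy,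
    fun x hx => ⟨(nxne hc hx).1, (nxne hc hx).2.1⟩, fun x hx => (hk x hx).2.1,
    fun x hx => (hk x hx).2.2, hcx, hld⟩, c, hc0, el⟩
  · obtain ⟨x, hx⟩ := hc.ne
    obtain ⟨h1, h2, h3⟩ := nxne hc hx
    exact Finset.two_lt_card.mpr ⟨nx x, (hc.mem x hx).1, x, hx, pv x, (hc.mem x hx).2.1, h1, h2,
      h3.symm⟩
  · intro x hx y hy hxy h
    obtain ⟨s, hs, h'⟩ := opp0 (hUNIQ K V P.toFan).2.2 hk2 hx hy hxy h
    have := (hFRB K V P.toHFan).2.2.2.2.2.2.2.2.2 x y s hs h'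
    rw [h', this]
    simp

end Pool.Agent.P.MP_33ab4b_ag.T
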