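import Pool.Agent.P.MP_33ab4b_ag.T.IfaceP
import Pool.Agent.P.MP_33ab4b_ag.T.IfaceA
import Pool.Agent.P.MP_33ab4b_ag.T.IfaceF

/-! Step PL2. -/

set_option autoImplicit false

namespace Pool.Agent.P.MP_33ab4b_ag.T

open scoped Classical

namespace PL2x

variable {K V I : Type} [Field K] [LinearOrder K] [IsStrictOrderedRing K] [Fintype V]
  [DecidableEq V] [Fintype I] [DecidableEq I]

theorem cl_lo (P : HP K V I) (l : Fm K) :
    P.cl (fun a => max (l (P.v a)) 0) = P.cl (fun a => max (- l (P.v a)) 0) := by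
  have e : (fun a => max (l (P.v a)) 0) =
      (fun a => max (- l (P.v a)) 0) + fun a => l (P.v a) := by
    funext a
    simp only [Pi.add_apply]
    rcases le_total 0 (l (P.v a)) with h | h
    · rw [max_eq_left h, max_eq_right (neg_nonpos.mpr h)]; ring
    · rw [max_eq_right h, max_eq_left (neg_nonneg.mpr h)]; ring
  rw [e, P.cl_add, P.cl_form, add_zero]

theorem neg_side (P : HP K V I) (l : Fm K)
    (str : ∀ a b, P.adj a b → ¬ (0 < l (P.v a) ∧ l (P.v b) < 0)) {a : V} (ha : l (P.v a) < 0) :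
    P.mu (P.cl (fun a => max (l (P.v a)) 0)) (P.D a) = 0 := by
  refine LinearMap.ext fun z => ?_
  rw [P.mu_cl]
  refine Finset.sum_eq_zero fun b _ => ?_
  rcases le_or_gt (l (P.v b)) 0 with h | h
  · rw [max_eq_right h, zero_mul]
  · have hne : b ≠ a := by rintro rfl; exact absurd ha (not_lt.mpr h.le)
    rw [P.mnadj b a hne (fun hadj => str b a hadj ⟨h, ha⟩)]
    simp

theorem str_neg (P : HP K V I) (l : Fm K)
    (str : ∀ a b, P.adj a b → ¬ (0 < l (P.v a) ∧ l (P.v b) < 0)) :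
    ∀ a b, P.adj a b → ¬ (0 < (-l) (P.v a) ∧ (-l) (P.v b) < 0) := by
  intro a b h hh
  simp only [LinearMap.neg_apply, neg_pos, neg_lt_zero] at hh
  exact str b a h.symm ⟨hh.2, hh.1⟩

theorem pos_side (P : HP K V I) (l : Fm K)
    (str : ∀ a b, P.adj a b → ¬ (0 < l (P.v a) ∧ l (P.v b) < 0)) {a : V} (ha : 0 < l (P.v a)) :
    P.mu (P.cl (fun a => max (l (P.v a)) 0)) (P.D a) = 0 := by
  rw [cl_lo]
  have := neg_side P (-l) (str_neg P l str) (a := a) (by simpa using ha)
  simpa using this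

/-- One side of the plane: the form is negative semidefinite with the expected radical. -/
theorem side (hZAR : S_ZAR) (hPATH : S_PATH) (hWREL : S_WREL) (P : HP K V I) (l : Fm K)
    (str : ∀ a b, P.adj a b → ¬ (0 < l (P.v a) ∧ l (P.v b) < 0))
    {a0 b0 k0 : V} (hf : P.face a0 b0 k0) (ha0 : l (P.v a0) = 0) (hb0 : l (P.v b0) = 0)
    (hk0 : 0 < l (P.v k0)) (c : V → K) (hc : ∀ a, ¬ 0 < l (P.v a) → c a = 0) :
    P.mu P.H (P.cl c) (P.cl c) ≤ 0 ∧
      (P.mu P.H (P.cl c) (P.cl c) = 0 →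
        ∃ r : K, P.cl c = r • P.cl (fun a => max (l (P.v a)) 0)) := by
  have hW := (hWREL K V I P).2.1
  set A : Finset V := Finset.univ.filter (fun a => 0 < l (P.v a)) with hA
  have mA : ∀ a, a ∈ A ↔ 0 < l (P.v a) := fun a => by simp [hA]
  have red : ∀ (x f : V → K), (∀ a, ¬ 0 < l (P.v a) → x a = 0) →
      ∑ a, x a * f a = ∑ a ∈ A, x a * f a := fun x f hx =>
    (Finset.sum_subset (Finset.subset_univ _) fun a _ ha => by
      rw [hx a (fun h => ha ((mA a).mpr h)), zero_mul]).symm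
  have Z := hZAR K V A (fun a b => P.mu P.H (P.D a) (P.D b)) (fun a => l (P.v a))
    (fun a _ b _ => P.mu23 _ _ _)
    (fun a _ b _ hab => by
      by_cases h : P.adj a b
      · exact (hW a b h).le
      · exact (P.nadj hab h _).ge)
    (fun a ha => (mA a).mp ha)
    (fun a ha => by
      have h1 := pos_side P l str ((mA a).mp ha)
      have h2 : P.mu P.H (P.D a) (P.cl (fun a => max (l (P.v a)) 0)) = 0 := by
        rw [P.mu13, h1]; rfl
      rw [P.form_cl, red _ _ (fun b hb => max_eq_right (not_lt.mp hb))] at h2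
      refine le_of_eq (Eq.trans (Finset.sum_congr rfl fun b hb => ?_) h2)
      rw [max_eq_left ((mA b).mp hb).le, mul_comm]) c
  have e : P.mu P.H (P.cl c) (P.cl c) =
      ∑ a ∈ A, ∑ b ∈ A, c a * P.mu P.H (P.D a) (P.D b) * c b := by
    rw [P.mu12, P.mu_cl, red _ _ hc]
    refine Finset.sum_congr rfl fun a _ => ?_
    rw [P.mu12, P.form_cl, red _ _ hc, Finset.mul_sum]
    exact Finset.sum_congr rfl fun b _ => by ring
  rw [e]
  refine ⟨Z.1, fun h0 => ?_⟩
  have R := (Z.2 h0).2.1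
  have R' : ∀ a b, P.adj a b → 0 < l (P.v a) → 0 < l (P.v b) →
      c a / l (P.v a) = c b / l (P.v b) := fun a b h ha hb =>
    R a ((mA a).mpr ha) b ((mA b).mpr hb) (hW a b h).ne'
  obtain ⟨n1, n2, n3⟩ := hf.ne
  have key := hPATH K V P.toFan
    (fun s => ∀ a ∈ s, 0 < l (P.v a) → c a / l (P.v a) = c k0 / l (P.v k0)) {a0, b0, k0}
    (P.v a0 + P.v b0 + P.v k0) hf
    ⟨fun a => if a ∈ ({a0, b0, k0} : Finset V) then 1 else 0,
      fun a ha => by simp only [if_pos ha]; exact one_pos,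
      fun a ha => by simp only [if_neg ha], by
        simp only [ite_smul, one_smul, zero_smul]
        rw [Finset.sum_ite_mem, Finset.univ_inter,
          Finset.sum_insert (by simp [n1, n2]), Finset.sum_pair n3, add_assoc]⟩
    (by
      intro a ha h
      simp only [Finset.mem_insert, Finset.mem_singleton] at ha
      rcases ha with rfl | rfl | rfl
      · exact absurd h (by rw [ha0]; exact lt_irrefl _)
      · exact absurd h (by rw [hb0]; exact lt_irrefl _)
      · rfl)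
    (by
      intro a b k m fk _ _ hd Q x hx h
      simp only [Finset.mem_insert, Finset.mem_singleton] at hx
      rcases hx with rfl | rfl | rfl
      · exact Q _ (by simp) h
      · exact Q _ (by simp) h
      · by_cases h1 : 0 < l (P.v a)
        · rw [← R' a x fk.adj13 h1 h]; exact Q _ (by simp) h1
        by_cases h2 : 0 < l (P.v b)
        · rw [← R' b x fk.adj23 h2 h]; exact Q _ (by simp) h2
        exfalso
        have z1 : l (P.v a) = 0 := le_antisymm (not_lt.mp h1)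
          (not_lt.mp fun hh => str x a fk.adj13.symm ⟨h, hh⟩)
        have z2 : l (P.v b) = 0 := le_antisymm (not_lt.mp h2)
          (not_lt.mp fun hh => str x b fk.adj23.symm ⟨h, hh⟩)
        have fc := form_cramer l (P.v a) (P.v b) (P.v x) (P.v a0 + P.v b0 + P.v k0)
        rw [z1, z2, map_add, map_add, ha0, hb0] at fc
        have p1 := mul_neg_of_neg_of_pos hd h
        have p2 := mul_nonneg (mul_self_nonneg (det3 (P.v a) (P.v b) (P.v x))) hk0.le
        have p3 : det3 (P.v a) (P.v b) (P.v x) * det3 (P.v a) (P.v b) (P.v x) * l (P.v k0) =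
            det3 (P.v a) (P.v b) (P.v x) * det3 (P.v a) (P.v b) (P.v a0 + P.v b0 + P.v k0) *
              l (P.v x) := by
          linear_combination det3 (P.v a) (P.v b) (P.v x) * fc
        linarith)
  refine ⟨c k0 / l (P.v k0), ?_⟩
  rw [← P.cl_smul]
  congr 1
  funext a
  simp only [Pi.smul_apply, smul_eq_mul]
  by_cases h : 0 < l (P.v a)
  · obtain ⟨s, hs, ha⟩ := P.used a
    rw [← key s hs a ha h, max_eq_left h.le, div_mul_cancel₀ _ h.ne']
  · rw [hc a h, max_eq_right (not_lt.mp h), mul_zero]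

variable {P : HP K V I} (G : PLG P)

theorem fD0 (a : V) (ha : a ∉ G.X) : P.mu G.fc (P.D a) = 0 := by
  rcases lt_or_gt_of_ne (fun h => ha ((G.memX a).mpr h)) with h | h
  · exact neg_side P G.l G.str h
  · exact pos_side P G.l G.str h

theorem f_nx (hWREL : S_WREL) (x : V) (hx : x ∈ G.X) :
    P.mu G.fc (P.D x) (P.D (G.nx x)) = 1 := by
  obtain ⟨f1, l1⟩ := G.kuf x hx
  obtain ⟨f2, l2⟩ := G.klf x hx
  have hne : G.ku x ≠ G.kl x := fun h => by
    rw [h, l2] at l1; norm_num at l1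
  have := ((hWREL K V I P).1 _ _ _ _ f1 f2 hne).2 (fun a => max (G.l (P.v a)) 0)
  rw [PLG.fc, this, l1, l2, (G.memX x).mp hx, (G.memX _).mp (G.cyc.mem x hx).1]
  norm_num

theorem f_off (hWREL : S_WREL) (x : V) (hx : x ∈ G.X) (y : V) (hy : y ∈ G.X) (h : x ≠ y) :
    P.mu G.fc (P.D x) (P.D y) = if P.adj x y then 1 else 0 := by
  split_ifs with ha
  · rcases (G.adjX x hx y hy).mp ha with rfl | rfl
    · exact f_nx G hWREL x hx
    · have := f_nx G hWREL _ hy
      rwa [(G.cyc.mem x hx).2.2.2, P.mu23] at this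
  · exact P.nadj h ha _

theorem pv_ne (x : V) (hx : x ∈ G.X) : G.pv x ≠ x := fun h => by
  have := (G.cyc.mem x hx).2.2.2
  rw [h] at this
  exact (G.nxne x hx).1 this

/-- A sum against the row of `x`. -/
theorem row {M : Type} [AddCommGroup M] [Module K M] (hWREL : S_WREL) (x : V) (hx : x ∈ G.X)
    (w : V → M) : ∑ a, P.mu G.fc (P.D x) (P.D a) • w a =
      P.mu G.fc (P.D x) (P.D x) • w x + w (G.nx x) + w (G.pv x) := by
  obtain ⟨m1, m2, _, _⟩ := G.cyc.mem x hx
  obtain ⟨n1, n2⟩ := G.nxne x hx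
  have n3 := pv_ne G x hx
  rw [← Finset.sum_subset (Finset.subset_univ {x, G.nx x, G.pv x}),
    Finset.sum_insert (by simp [n1.symm, n3.symm]), Finset.sum_pair n2,
    f_off G hWREL x hx _ m1 n1.symm, f_off G hWREL x hx _ m2 n3.symm,
    if_pos ((G.adjX x hx _ m1).mpr (Or.inl rfl)), if_pos ((G.adjX x hx _ m2).mpr (Or.inr rfl)),
    one_smul, one_smul, add_assoc]
  intro a _ ha
  simp only [Finset.mem_insert, Finset.mem_singleton, not_or] at ha
  by_cases hX : a ∈ G.X
  · rw [f_off G hWREL x hx a hX (Ne.symm ha.1),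
      if_neg (fun h => ((G.adjX x hx a hX).mp h).elim ha.2.1 ha.2.2), zero_smul]
  · rw [P.mu23, fD0 G a hX]; simp

theorem f_self (hWREL : S_WREL) (x : V) (hx : x ∈ G.X) :
    P.mu G.fc (P.D x) (P.D x) = - G.cx x := by
  have h := P.LRv (P.mu G.fc (P.D x))
  rw [row G hWREL x hx, add_assoc, G.cxv x hx, ← add_smul] at h
  rcases smul_eq_zero.mp h with h | h
  · linarith
  · have := G.w1 x hx
    rw [h] at this
    simp [det3] at this

theorem nd (hWREL : S_WREL) (y : I → K) (h : ∀ x ∈ G.X, P.mu G.fc y (P.D x) = 0) :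
    y ∈ G.Kf := by
  obtain ⟨c, rfl⟩ := P.exists_cl y
  have rel : ∀ x ∈ G.X, c (G.nx x) + c (G.pv x) = G.cx x * c x := fun x hx => by
    have h1 := h x hx
    rw [P.mu23, P.form_cl] at h1
    have h2 := row G hWREL x hx c
    simp only [smul_eq_mul] at h2
    rw [f_self G hWREL x hx, Finset.sum_congr rfl fun a _ => mul_comm _ (c a), h1] at h2
    linarith
  obtain ⟨x0, hx0⟩ := G.cyc.ne
  obtain ⟨u, -, u1, u2⟩ := exists_form (a := P.v G.k0) (b := P.v x0) (c := P.v (G.nx x0))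
    (by rw [G.w1 x0 hx0]; exact one_ne_zero) 0 (c x0) (c (G.nx x0))
  have key := G.cyc.orb (fun a => u (P.v a) = c a ∧ u (P.v (G.nx a)) = c (G.nx a)) x0 hx0
    ⟨u1, u2⟩ (fun b hb Q => by
      obtain ⟨m1, _, m3, _⟩ := G.cyc.mem b hb
      refine ⟨Q.2, ?_⟩
      have e1 := congrArg u (G.cxv _ m1)
      have e2 := rel _ m1
      rw [map_add, map_smul, smul_eq_mul, m3, Q.1, Q.2] at e1
      rw [m3] at e2
      linarith)
  refine P.mem_sp.mpr ⟨c - fun a => u (P.v a), fun a ha => ?_, ?_⟩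
  · have : a ∈ G.X := by simpa using ha
    simp [(key a this).1]
  · rw [P.cl_sub, P.cl_form, sub_zero]

theorem def0 (hZAR : S_ZAR) (hPATH : S_PATH) (hWREL : S_WREL) (k : I → K) (hk : k ∈ G.Kf)
    (h : P.mu P.H k k = 0) : ∃ c : K, k = c • G.fc := by
  obtain ⟨c, hc, rfl⟩ := P.mem_sp.mp hk
  obtain ⟨x0, hx0⟩ := G.cyc.ne
  have z0 := (G.memX _).mp hx0
  have z1 := (G.memX _).mp (G.cyc.mem x0 hx0).1
  set cu : V → K := fun a => if 0 < G.l (P.v a) then c a else 0 with hcu
  set cd : V → K := fun a => if G.l (P.v a) < 0 then c a else 0 with hcd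
  have e : c = cu + cd := by
    funext a
    simp only [hcu, hcd, Pi.add_apply]
    rcases lt_trichotomy (G.l (P.v a)) 0 with h | h | h
    · rw [if_neg (not_lt.mpr h.le), if_pos h, zero_add]
    · rw [hc a (by simpa using (G.memX a).mpr h)]; simp
    · rw [if_pos h, if_neg (not_lt.mpr h.le), add_zero]
  have U := side hZAR hPATH hWREL P G.l G.str (G.kuf x0 hx0).1 z0 z1
    (by rw [(G.kuf x0 hx0).2]; exact one_pos) cu (fun a ha => if_neg ha)
  have L := side hZAR hPATH hWREL P (-G.l) (str_neg P G.l G.str) (G.klf x0 hx0).1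
    (by simp [z0]) (by simp [z1]) (by simp [(G.klf x0 hx0).2]) cd
    (fun a ha => if_neg (by simpa using ha))
  have cross : P.mu P.H (P.cl cu) (P.cl cd) = 0 := by
    rw [P.mu12, P.mu_cl]
    refine Finset.sum_eq_zero fun a _ => ?_
    rw [P.mu12, P.form_cl, Finset.mul_sum]
    refine Finset.sum_eq_zero fun b _ => ?_
    by_cases ha : 0 < G.l (P.v a)
    · by_cases hb : G.l (P.v b) < 0
      · rw [P.nadj (by rintro rfl; exact absurd ha (not_lt.mpr hb.le))
          (fun hh => G.str a b hh ⟨ha, hb⟩)]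
        simp
      · simp [hcd, hb]
    · simp [hcu, ha]
  rw [e, P.cl_add] at h ⊢
  simp only [map_add, LinearMap.add_apply] at h
  rw [P.mu23 P.H (P.cl cd) (P.cl cu), cross] at h
  obtain ⟨r, hr⟩ := U.2 (by linarith [U.1, L.1])
  obtain ⟨r', hr'⟩ := L.2 (by linarith [U.1, L.1])
  refine ⟨r + r', ?_⟩
  rw [hr, hr', add_smul, PLG.fc, cl_lo P G.l]
  simp

theorem ind (x0 : V) (hx0 : x0 ∈ G.X) (c : V → K)
    (hc : ∀ a, (a ∉ G.X ∨ a = x0 ∨ a = G.nx x0) → c a = 0) (h : P.cl c ∈ G.Kf) : c = 0 := by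
  obtain ⟨c', hc', e⟩ := P.mem_sp.mp h
  have e2 : P.cl (c - c') = 0 := by rw [P.cl_sub, e, sub_self]
  obtain ⟨u, hu⟩ := (P.ker _).mp e2
  have m1 := (G.cyc.mem x0 hx0).1
  have hX : ∀ a ∈ G.X, u (P.v a) = c a := fun a ha => by
    rw [← hu a, Pi.sub_apply, hc' a (by simpa using ha), sub_zero]
  funext a
  by_cases ha : a ∈ G.X
  · have fc := form_cramer u (P.v G.k0) (P.v x0) (P.v (G.nx x0)) (P.v a)
    rw [G.w1 x0 hx0, hX a ha, hX x0 hx0, hX _ m1, hc x0 (by simp), hc (G.nx x0) (by simp),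
      G.ldet _ _ ((G.memX _).mp hx0) ((G.memX _).mp m1) (P.v a), (G.memX a).mp ha] at fc
    simpa using fc
  · exact hc a (Or.inl ha)

end PL2x

theorem p_PL2 (hZAR : S_ZAR) (hPATH : S_PATH) (hWREL : S_WREL) :
    S_PL2 := by
  intro K V I _ _ _ _ _ _ _ P G
  refine ⟨PL2x.cl_lo P G.l, ?_, PL2x.fD0 G, ?_, PL2x.nd G hWREL,
    PL2x.def0 G hZAR hPATH hWREL, PL2x.ind G⟩
  · refine P.mem_sp.mpr ⟨_, fun a ha => ?_, rfl⟩
    have : a ∈ G.X := by simpa using ha
    simp [(G.memX a).mp this]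
  · intro x hx y hy
    by_cases h : x = y
    · subst h; rw [if_pos rfl]; exact PL2x.f_self G hWREL x hx
    · rw [if_neg h]; exact PL2x.f_off G hWREL x hx y hy h

end Pool.Agent.P.MP_33ab4b_ag.T
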