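import Pool.Agent.P.MP_33ab4b_ag.T.IfaceP

/-! Step PRAD. -/

set_option autoImplicit false

namespace Pool.Agent.P.MP_33ab4b_ag.T

open scoped Classical

namespace PRADx

variable {K V I : Type} [Field K] [LinearOrder K] [IsStrictOrderedRing K] [Fintype V]
  [DecidableEq V] [Fintype I] [DecidableEq I] {P : HP K V I}

theorem nxm (G : PLG P) {x : V} (hx : x ∈ G.X) : G.nx x ∈ G.X := (G.cyc.mem x hx).1
theorem pvm (G : PLG P) {x : V} (hx : x ∈ G.X) : G.pv x ∈ G.X := (G.cyc.mem x hx).2.1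
theorem pvnx (G : PLG P) {x : V} (hx : x ∈ G.X) : G.pv (G.nx x) = x := (G.cyc.mem x hx).2.2.1
theorem nxpv (G : PLG P) {x : V} (hx : x ∈ G.X) : G.nx (G.pv x) = x := (G.cyc.mem x hx).2.2.2

theorem nxinj (G : PLG P) {x y : V} (hx : x ∈ G.X) (hy : y ∈ G.X) (h : G.nx x = G.nx y) :
    x = y := by
  rw [← pvnx G hx, h, pvnx G hy]

/-- The cycle of length four. -/
theorem cyc4 (G : PLG P) (h4 : G.X.card = 4) {x : V} (hx : x ∈ G.X) :
    G.X = {x, G.nx x, G.nx (G.nx x), G.pv x} ∧ G.nx (G.nx (G.nx x)) = G.pv x ∧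
      x ≠ G.nx x ∧ x ≠ G.nx (G.nx x) ∧ x ≠ G.pv x ∧ G.nx x ≠ G.nx (G.nx x) ∧
      G.nx x ≠ G.pv x ∧ G.nx (G.nx x) ≠ G.pv x := by
  have h1 := nxm G hx
  have h2 := nxm G h1
  have h3 := nxm G h2
  have hp := pvm G hx
  have n01 : x ≠ G.nx x := (G.nxne x hx).1.symm
  have n02 : x ≠ G.nx (G.nx x) := by
    intro h
    apply (G.nxne _ h1).2
    rw [pvnx G hx]; exact h.symm
  have n0p : x ≠ G.pv x := by
    intro h
    apply n01
    conv_rhs => rw [h]
    exact (nxpv G hx).symm
  have n12 : G.nx x ≠ G.nx (G.nx x) := (G.nxne _ h1).1.symm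
  have n1p : G.nx x ≠ G.pv x := (G.nxne x hx).2
  have n2p : G.nx (G.nx x) ≠ G.pv x := by
    intro h
    have h30 : G.nx (G.nx (G.nx x)) = x := by rw [h, nxpv G hx]
    have hsub : G.X ⊆ ({x, G.nx x, G.nx (G.nx x)} : Finset V) := by
      intro b hb
      refine G.cyc.orb (fun b => b ∈ ({x, G.nx x, G.nx (G.nx x)} : Finset V)) x hx (by simp) ?_ b hb
      intro b _ hb
      simp only [Finset.mem_insert, Finset.mem_singleton] at hb ⊢
      rcases hb with rfl | rfl | rfl
      · exact Or.inr (Or.inl rfl)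
      · exact Or.inr (Or.inr rfl)
      · exact Or.inl h30
    have := Finset.card_le_card hsub
    have h' : ({x, G.nx x, G.nx (G.nx x)} : Finset V).card ≤ 3 := Finset.card_le_three
    omega
  have hc : ({x, G.nx x, G.nx (G.nx x), G.pv x} : Finset V).card = 4 := by
    rw [Finset.card_insert_of_notMem (by simp [n01, n02, n0p]),
      Finset.card_insert_of_notMem (by simp [n12, n1p]), Finset.card_pair n2p]
  have hX : G.X = {x, G.nx x, G.nx (G.nx x), G.pv x} := by
    symm
    apply Finset.eq_of_subset_of_card_le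
    · intro b hb
      simp only [Finset.mem_insert, Finset.mem_singleton] at hb
      rcases hb with rfl | rfl | rfl | rfl <;> assumption
    · omega
  refine ⟨hX, ?_, n01, n02, n0p, n12, n1p, n2p⟩
  have h3' := h3
  rw [hX] at h3'
  simp only [Finset.mem_insert, Finset.mem_singleton] at h3'
  rcases h3' with h | h | h | h
  · exfalso
    apply n2p
    rw [← pvnx G h2, h]
  · exact absurd (nxinj G h2 hx h).symm n02
  · exact absurd (nxinj G h2 h1 h).symm n12
  · exact h

theorem sum4 (G : PLG P) (h4 : G.X.card = 4) {x : V} (hx : x ∈ G.X) {M : Type} [AddCommMonoid M]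
    (f : V → M) (h0 : ∀ a, a ∉ G.X → f a = 0) :
    ∑ a, f a = f x + f (G.nx x) + f (G.nx (G.nx x)) + f (G.pv x) := by
  obtain ⟨hX, -, n01, n02, n0p, n12, n1p, n2p⟩ := cyc4 G h4 hx
  rw [← Finset.sum_subset (Finset.subset_univ G.X) (fun a _ ha => h0 a ha)]
  conv_lhs => rw [hX]
  rw [Finset.sum_insert (by simp [n01, n02, n0p]), Finset.sum_insert (by simp [n12, n1p]),
    Finset.sum_pair n2p]
  abel

/-- Opposite self-intersection numbers cancel. -/
theorem cx_opp (G : PLG P) (h4 : G.X.card = 4) {x : V} (hx : x ∈ G.X) :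
    G.cx x + G.cx (G.nx (G.nx x)) = 0 := by
  obtain ⟨-, h3, -⟩ := cyc4 G h4 hx
  have h1 := nxm G hx
  have h2 := nxm G h1
  have e0 := G.cxv x hx
  have e2 := G.cxv _ h2
  rw [h3, pvnx G h1, add_comm, e0] at e2
  have e := congrArg (detL (P.v G.k0) (P.v (G.nx x))) e2
  simp only [map_smul, detL_apply, smul_eq_mul] at e
  rw [G.w1 _ h1, det3_swap23, G.w1 x hx] at e
  linarith

theorem p_fc (G : PLG P) (A : PLA G) (h4 : G.X.card = 4) : P.p G.fc = 0 := by
  obtain ⟨x, hx⟩ := G.cyc.ne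
  obtain ⟨-, h3, -⟩ := cyc4 G h4 hx
  have h1 := nxm G hx
  have h2 := nxm G h1
  have hp := pvm G hx
  have e : ∀ y ∈ G.X, P.mu (P.D y) (P.D y) G.fc = - G.cx y := by
    intro y hy
    rw [P.mu13, A.fXX y hy y hy, if_pos rfl]
  rw [P.pdef, sum4 G h4 hx _ (fun a ha => by rw [P.mu13, A.fD0 a ha]; rfl), e _ hx, e _ h1,
    e _ h2, e _ hp]
  have a1 := cx_opp G h4 hx
  have a2 := cx_opp G h4 h1
  rw [h3] at a2
  linarith

/-- Upper classes vanish on lower vertices. -/
theorem low0 (G : PLG P) (c : V → K) (hc : ∀ a, ¬ 0 < G.l (P.v a) → c a = 0) (a : V)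
    (ha : G.l (P.v a) < 0) (y : I → K) : P.mu (P.cl c) (P.D a) y = 0 := by
  rw [P.mu_cl]
  refine Finset.sum_eq_zero fun e _ => ?_
  by_cases he : 0 < G.l (P.v e)
  · have hne : e ≠ a := by rintro rfl; linarith
    have : ¬ P.adj e a := fun h => G.str e a h ⟨he, ha⟩
    rw [P.mnadj e a hne this]; simp
  · rw [hc e he, zero_mul]

/-- The middle vertices of the four cycle. -/
theorem mid (G : PLG P) (h4 : G.X.card = 4) (k : I → K) {x : V} (hx : x ∈ G.X)
    (hop : P.v (G.nx x) = - P.v (G.pv x))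
    (h0 : ∀ a, a ∉ G.X → P.mu k (P.D x) (P.D a) = 0) :
    P.mu k (P.D x) (P.D x) = 0 ∧
      P.mu k (P.D x) (P.D (G.nx x)) = P.mu k (P.D x) (P.D (G.pv x)) := by
  obtain ⟨-, h3, n01, n02, n0p, n12, n1p, n2p⟩ := cyc4 G h4 hx
  have h1 := nxm G hx
  have h2 := nxm G h1
  have hna : ¬ P.adj x (G.nx (G.nx x)) := by
    rw [G.adjX x hx _ h2]
    rintro (h | h)
    · exact n12 h.symm
    · exact n2p h
  have e := P.LRv (P.mu k (P.D x))
  rw [sum4 G h4 hx _ (fun a ha => by rw [h0 a ha, zero_smul]), P.nadj n02 hna, zero_smul,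
    add_zero] at e
  have hpv : P.v (G.pv x) = - P.v (G.nx x) := by rw [hop, neg_neg]
  rw [hpv] at e
  have w := G.w1 x hx
  have e1 := congrArg (detL (P.v G.k0) (P.v (G.nx x))) e
  have e2 := congrArg (detL (P.v G.k0) (P.v x)) e
  simp only [map_add, map_smul, map_neg, detL_apply, smul_eq_mul, map_zero, det3_self23] at e1 e2
  rw [det3_swap23, w] at e1
  rw [w] at e2
  constructor <;> linarith

theorem up (hRADU : S_RADU) (G : PLG P) (A : PLA G) (h4 : G.X.card = 4) (c : V → K)
    (hc : ∀ a, ¬ 0 < G.l (P.v a) → c a = 0)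
    (hr : ∀ a b, 0 < G.l (P.v a) → 0 < G.l (P.v b) → P.mu (P.cl c) (P.D a) (P.D b) = 0) :
    P.p (P.cl c) = 0 := by
  rcases hRADU K V I P G A c hc hr with ⟨r, hr'⟩ | ⟨N, S, ⟨hN, hS, hax⟩, α, hα, -, -⟩
  · rw [hr', map_smul, p_fc G A h4, smul_zero]
  obtain ⟨hX, h3, n01, n02, n0p, n12, n1p, n2p⟩ := cyc4 G h4 hN
  have h1 := nxm G hN
  have h2 := nxm G h1
  have hp := pvm G hN
  have w := G.w1 N hN
  have wp := G.w1 _ hp
  rw [nxpv G hN] at wp
  have hSe : S = G.nx (G.nx N) := by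
    have hS' := hS
    rw [hX] at hS'
    simp only [Finset.mem_insert, Finset.mem_singleton] at hS'
    rcases hS' with h | h | h | h
    · exfalso
      rw [h] at hax
      have h0 : P.v N = 0 := by
        funext i
        have := congrFun hax i
        simp only [Pi.neg_apply] at this
        simp only [Pi.zero_apply]
        linarith
      rw [h0] at w
      simp [det3] at w
    · exfalso
      rw [← h, hax] at w
      have := (detL (P.v G.k0) (P.v N)).map_neg (P.v N)
      simp only [detL_apply, det3_self23, neg_zero] at this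
      rw [this] at w
      exact zero_ne_one w
    · exact h
    · exfalso
      rw [← h, hax, det3_swap23] at wp
      have := (detL (P.v G.k0) (P.v N)).map_neg (P.v N)
      simp only [detL_apply, det3_self23, neg_zero] at this
      rw [this] at wp
      simp at wp
  subst hSe
  set k := P.cl c with hk
  -- values at vertices off the plane
  have off : ∀ a, a ∉ G.X → ∀ y, P.mu k (P.D y) (P.D a) =
      (if 0 < G.l (P.v a) then α a else 0) *
        ((if y = N then 1 else 0) + (if y = G.nx (G.nx N) then 1 else 0)) := by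
    intro a ha y
    rw [P.mu23]
    by_cases hu : 0 < G.l (P.v a)
    · rw [if_pos hu, hα a hu y]
    · rw [if_neg hu, zero_mul]
      have : G.l (P.v a) ≠ 0 := fun h => ha ((G.memX a).mpr h)
      exact low0 G c hc a (lt_of_le_of_ne (not_lt.mp hu) this) _
  have m1 := mid G h4 k h1 (by rw [pvnx G hN]; exact hax) (fun a ha => by
    rw [off a ha, if_neg n01.symm, if_neg n12]; ring)
  have hpp : G.pv (G.pv N) = G.nx (G.nx N) := by rw [← h3, pvnx G h2]
  have m3 := mid G h4 k hp (by rw [nxpv G hN, hpp, hax, neg_neg]) (fun a ha => by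
    rw [off a ha, if_neg n0p.symm, if_neg n2p.symm]; ring)
  rw [pvnx G hN] at m1
  rw [nxpv G hN, hpp] at m3
  have hna : ¬ P.adj N (G.nx (G.nx N)) := by
    rw [G.adjX N hN _ h2]
    rintro (h | h)
    · exact n12 h.symm
    · exact n2p h
  have e := P.LRv (P.mu k (P.D N) - P.mu k (P.D (G.nx (G.nx N))))
  rw [sum4 G h4 hN _ (fun a ha => by
    rw [LinearMap.sub_apply, off a ha, off a ha, if_pos rfl, if_neg n02, if_neg n02.symm,
      if_pos rfl]
    simp)] at e
  simp only [LinearMap.sub_apply] at e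
  rw [P.mu23 k (P.D N) (P.D (G.nx N)), P.mu23 k (P.D (G.nx (G.nx N))) (P.D (G.nx N)), m1.2,
    P.mu23 k (P.D N) (P.D (G.pv N)), P.mu23 k (P.D (G.nx (G.nx N))) (P.D (G.pv N)), m3.2,
    P.nadj n02 hna, P.nadj n02.symm (fun h => hna h.symm), hax] at e
  have e1 := congrArg (detL (P.v G.k0) (P.v (G.pv N))) e
  simp only [sub_self, zero_smul, add_zero, map_add, map_smul, map_neg, detL_apply, smul_eq_mul,
    map_zero, wp] at e1
  rw [P.pdef, sum4 G h4 hN _ (fun a ha => by
    have hn : a ≠ N := by rintro rfl; exact ha hN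
    have hs : a ≠ G.nx (G.nx N) := by rintro rfl; exact ha h2
    rw [P.mu13, off a ha, if_neg hn, if_neg hs]; ring),
    P.mu13 _ _ k, P.mu13 _ _ k, P.mu13 _ _ k, P.mu13 _ _ k, m1.1, m3.1]
  linarith

end PRADx

theorem p_PRAD (hFLIP : S_FLIP) (hRADU : S_RADU) :
    S_PRAD := by
  intro K V I _ _ _ _ _ _ _ P G A h4 k hk
  obtain ⟨hkf, hr⟩ := hk
  obtain ⟨c, hc, rfl⟩ := P.mem_sp.mp hkf
  obtain ⟨G', hl, hX, -, -, -, hA⟩ := hFLIP K V I P G
  have A' := (hA A).2
  set cp : V → K := fun a => if 0 < G.l (P.v a) then c a else 0 with hcp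
  set cm : V → K := fun a => if 0 < G'.l (P.v a) then c a else 0 with hcm
  have hl' : ∀ a, G'.l (P.v a) = - G.l (P.v a) := fun a => by rw [hl]; rfl
  have hsum : c = cp + cm := by
    funext a
    simp only [hcp, hcm, Pi.add_apply, hl']
    rcases lt_trichotomy (G.l (P.v a)) 0 with h | h | h
    · rw [if_neg (by linarith), if_pos (by linarith), zero_add]
    · rw [hc a (by simpa using (G.memX a).mpr h)]; simp
    · rw [if_pos h, if_neg (by linarith), add_zero]
  have sp : ∀ a, ¬ 0 < G.l (P.v a) → cp a = 0 := fun a h => if_neg h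
  have sm : ∀ a, ¬ 0 < G'.l (P.v a) → cm a = 0 := fun a h => if_neg h
  have hcl : P.cl c = P.cl cp + P.cl cm := by rw [← P.cl_add, ← hsum]
  have nX : ∀ a, G.l (P.v a) ≠ 0 → a ∉ G.X := fun a h ha => h ((G.memX a).mp ha)
  have p1 : P.p (P.cl cp) = 0 := by
    refine PRADx.up hRADU G A h4 cp sp fun a b ha hb => ?_
    have := hr a b (nX a ha.ne') (nX b hb.ne')
    rw [hcl, map_add, LinearMap.add_apply, LinearMap.add_apply,
      PRADx.low0 G' cm sm a (by rw [hl']; linarith), add_zero] at this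
    exact this
  have p2 : P.p (P.cl cm) = 0 := by
    refine PRADx.up hRADU G' A' (by rw [hX, h4]) cm sm fun a b ha hb => ?_
    rw [hl'] at ha hb
    have := hr a b (nX a (by linarith)) (nX b (by linarith))
    rw [hcl, map_add, LinearMap.add_apply, LinearMap.add_apply,
      PRADx.low0 G cp sp a (by linarith), zero_add] at this
    exact this
  rw [hcl, map_add, p1, p2, add_zero]

end Pool.Agent.P.MP_33ab4b_ag.T
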