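import Pool.Agent.P.MP_33ab4b_ag.T.IfaceM

/-! The rational fan of an integral fan. -/

set_option autoImplicit false

namespace Pool.Agent.P.MP_33ab4b_ag.T

open scoped Classical

theorem qfan_det {K : Type} [Field K] (a b c : Fin 3 → ℤ) :
    det3 (fun i => (a i : K)) (fun i => (b i : K)) (fun i => (c i : K)) =
      ((Matrix.det (Matrix.of ![a, b, c]) : ℤ) : K) := by
  rw [Matrix.det_fin_three]
  simp only [det3, Matrix.of_apply, Matrix.cons_val_zero, Matrix.cons_val_one, Matrix.cons_val]
  push_cast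
  ring

theorem qfan_sum3 {V M : Type} [Fintype V] [DecidableEq V] [AddCommMonoid M] (f : V → M)
    (a b c : V) (hab : a ≠ b) (hac : a ≠ c) (hbc : b ≠ c)
    (h : ∀ i, i ∉ ({a, b, c} : Finset V) → f i = 0) : ∑ i, f i = f a + f b + f c := by
  rw [← Finset.sum_subset (Finset.subset_univ ({a, b, c} : Finset V)) (fun i _ hi => h i hi),
    Finset.sum_insert (by simp [hab, hac]), Finset.sum_pair hbc, add_assoc]

theorem p_QFAN : S_QFAN := by
  intro m S
  obtain ⟨h, hh⟩ := S.proj
  refine ⟨⟨fun a i => (S.v a i : ℚ), S.F, fun a => (h a : ℚ), S.card3, ?_, ?_, S.used, ?_⟩,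
    fun _ _ => rfl, rfl⟩
  · intro a b c hf
    rw [qfan_det]
    rcases S.unimod a b c hf with h1 | h1 <;> rw [h1] <;> simp
  · intro x
    obtain ⟨s, hs, t, ht0, hts, hx⟩ := S.cover (fun i => (x i : ℝ))
    obtain ⟨a, b, c, hab, hac, hbc, rfl⟩ := Finset.card_eq_three.1 (S.card3 s hs)
    have hD : ∃ D : ℤ, D * Matrix.det (Matrix.of ![S.v a, S.v b, S.v c]) = 1 := by
      rcases S.unimod a b c hs with h1 | h1
      · exact ⟨1, by rw [h1]; norm_num⟩
      · exact ⟨-1, by rw [h1]; norm_num⟩
    obtain ⟨D, hD⟩ := hD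
    have hD' : (D : ℝ) * det3 (fun i => (S.v a i : ℝ)) (fun i => (S.v b i : ℝ))
        (fun i => (S.v c i : ℝ)) = 1 := by
      rw [qfan_det]; exact_mod_cast hD
    have hx3 : ∀ i, (x i : ℝ) = t a * S.v a i + t b * S.v b i + t c * S.v c i := by
      intro i
      rw [hx i, qfan_sum3 _ a b c hab hac hbc (fun j hj => by rw [hts j hj, zero_mul])]
    have hq : ∀ j, ∃ q : ℚ, (q : ℝ) = t j := by
      intro j
      by_cases hj : j ∈ ({a, b, c} : Finset (Fin m))
      · simp only [Finset.mem_insert, Finset.mem_singleton] at hj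
        simp only [det3] at hD'
        rcases hj with rfl | rfl | rfl
        · refine ⟨D * det3 x (fun i => (S.v b i : ℚ)) (fun i => (S.v c i : ℚ)), ?_⟩
          simp only [det3]; push_cast
          rw [hx3 0, hx3 1, hx3 2]
          linear_combination (t j) * hD'
        · refine ⟨D * det3 (fun i => (S.v a i : ℚ)) x (fun i => (S.v c i : ℚ)), ?_⟩
          simp only [det3]; push_cast
          rw [hx3 0, hx3 1, hx3 2]
          linear_combination (t j) * hD'
        · refine ⟨D * det3 (fun i => (S.v a i : ℚ)) (fun i => (S.v b i : ℚ)) x, ?_⟩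
          simp only [det3]; push_cast
          rw [hx3 0, hx3 1, hx3 2]
          linear_combination (t j) * hD'
      · exact ⟨0, by rw [hts j hj]; simp⟩
    choose q hq using hq
    refine ⟨_, hs, q, fun j => ?_, fun j hj => ?_, ?_⟩
    · have := ht0 j
      rw [← hq j] at this
      exact_mod_cast this
    · have := hts j hj
      rw [← hq j] at this
      exact_mod_cast this
    · funext i
      have := hx i
      simp only [← hq] at this
      simp only [Finset.sum_apply, Pi.smul_apply, smul_eq_mul]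
      exact_mod_cast this
  · intro s hs
    obtain ⟨u, hu1, hu2⟩ := hh s hs
    let U : Fm ℚ := (u 0 : ℚ) • LinearMap.proj 0 + (u 1 : ℚ) • LinearMap.proj 1 +
      (u 2 : ℚ) • LinearMap.proj 2
    have hU : ∀ a, U (fun i => (S.v a i : ℚ)) = ((u ⬝ᵥ S.v a : ℤ) : ℚ) := by
      intro a
      simp [U, dotProduct, Fin.sum_univ_three]
    refine ⟨U, fun a ha => ?_, fun a ha => ?_⟩
    · rw [hU, hu1 a ha]
    · rw [hU]; exact_mod_cast hu2 a ha

end Pool.Agent.P.MP_33ab4b_ag.T
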