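import Pool.Agent.P.MP_33ab4b_ag.T.IfaceP
import Pool.Agent.P.MP_33ab4b_ag.T.IfaceF

/-! Step R4. -/

set_option autoImplicit false

namespace Pool.Agent.P.MP_33ab4b_ag.T

open scoped Classical

namespace R4x

section cyc
variable {K : Type} [Field K] [LinearOrder K] [IsStrictOrderedRing K]

theorem cyc4 {V : Type} [DecidableEq V] {e : V3 K} {v : V → V3 K} {A : Finset V} {nx pv : V → V}
    (C : Cyc e v A nx pv) (h4 : A.card = 4) {j : V} (hj : j ∈ A) :
    j ≠ nx j ∧ j ≠ nx (nx j) ∧ j ≠ pv j ∧ nx j ≠ nx (nx j) ∧ nx j ≠ pv j ∧ nx (nx j) ≠ pv j ∧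
      nx (nx (nx j)) = pv j ∧ A = {j, nx j, nx (nx j), pv j} := by
  have h1 := (C.mem j hj).1
  have h2 := (C.mem _ h1).1
  have h3 := (C.mem _ h2).1
  have hp := (C.mem j hj).2.1
  have inj : ∀ a ∈ A, ∀ b ∈ A, nx a = nx b → a = b := by
    intro a ha b hb hab
    rw [← (C.mem a ha).2.2.1, hab, (C.mem b hb).2.2.1]
  have small : ∀ B : Finset V, j ∈ B → (∀ b ∈ B, nx b ∈ B) → 4 ≤ B.card := by
    intro B hB hn
    rw [← h4]
    exact Finset.card_le_card fun b hb => C.orb (fun b => b ∈ B) j hj hB (fun b _ hb => hn b hb) b hb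
  have n1 : j ≠ nx j := by
    intro h
    have := small {j} (by simp) (by simpa using h.symm)
    simp at this
  have n2 : j ≠ nx (nx j) := by
    intro h
    have := small {j, nx j} (by simp) (by simp [← h])
    have := Finset.card_le_two (a := j) (b := nx j)
    omega
  have n3 : j ≠ nx (nx (nx j)) := by
    intro h
    have := small {j, nx j, nx (nx j)} (by simp) (by simp [← h])
    have := Finset.card_le_three (a := j) (b := nx j) (c := nx (nx j))
    omega
  have n12 : nx j ≠ nx (nx j) := fun h => n1 (inj _ hj _ h1 h)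
  have n13 : nx j ≠ nx (nx (nx j)) := fun h => n2 (inj _ hj _ h2 h)
  have n23 : nx (nx j) ≠ nx (nx (nx j)) := fun h => n12 (inj _ h1 _ h2 h)
  have hA : ({j, nx j, nx (nx j), nx (nx (nx j))} : Finset V) = A := by
    apply Finset.eq_of_subset_of_card_le
    · intro x hx
      simp only [Finset.mem_insert, Finset.mem_singleton] at hx
      rcases hx with rfl | rfl | rfl | rfl <;> assumption
    · rw [h4, Finset.card_insert_of_notMem (by simp [n1, n2, n3]),
        Finset.card_insert_of_notMem (by simp [n12, n13]), Finset.card_pair n23]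
  have hnp : nx (pv j) = j := (C.mem j hj).2.2.2
  have e3 : nx (nx (nx j)) = pv j := by
    have := hp
    rw [← hA] at this
    simp only [Finset.mem_insert, Finset.mem_singleton] at this
    rcases this with h | h | h | h
    · exact absurd (hnp.symm.trans (congrArg nx h)) n1
    · exact absurd (hnp.symm.trans (congrArg nx h)) n2
    · exact absurd (hnp.symm.trans (congrArg nx h)) n3
    · exact h.symm
  rw [e3] at n3 n13 n23 hA
  exact ⟨n1, n2, n3, n12, n13, n23, e3, hA.symm⟩

theorem finB_neg {a b c x : V3 K} (h : FinB a b c x) : FinB a b c (-x) := by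
  refine ⟨h.1.neg.of_eq ?_, h.2.1.neg.of_eq ?_, h.2.2.neg.of_eq ?_⟩ <;>
  · simp only [det3, Pi.neg_apply]
    ring

end cyc

variable {K V : Type} [Field K] [LinearOrder K] [IsStrictOrderedRing K] [Fintype V] [DecidableEq V]

theorem form_coord {Φ : HFan K V} (T : TA0 Φ) (u : Fm K) (hu : u (Φ.v T.N) = 0) (a : V) :
    u (Φ.v a) = ∑ i ∈ T.J, (T.be i a : K) * u (Φ.v i) := by
  rw [T.coord a, map_add, map_sum, map_smul, hu]
  simp

theorem wall (hFRB : S_FRB) {Φ : HFan K V} (T : TA0 Φ) {y A B : V} (hy : y ∈ T.J)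
    (hA : T.sec y A) (hB : T.sec (T.pv y) B) (hAB : Φ.v B = - Φ.v A)
    (hd : det3 (Φ.v T.N) (Φ.v y) (Φ.v A) ≠ 0) {a b : V} (hab : 0 < T.be y a ∨ 0 < T.be y b) :
    Φ.WallFin a b := by
  have key : ∀ k, Φ.face a b k → Φ.FinF {a, b, k} (Φ.v T.N) ∧ Φ.FinF {a, b, k} (Φ.v y) ∧
      Φ.FinF {a, b, k} (Φ.v A) := by
    intro k hk
    obtain ⟨i, hi, hs⟩ := T.fsec _ hk
    have hf := T.sfin _ hk i hi hs
    have hyi : y = i ∨ y = T.nx i := by
      by_contra hc
      push Not at hc
      rcases hab with h | h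
      · exact h.ne' (hs a (by simp) y hc.1 hc.2)
      · exact h.ne' (hs b (by simp) y hc.1 hc.2)
    refine ⟨hf _ fun i' _ _ => (T.beN i').1, hf _ fun i' h1 h2 => (T.beJ y hy).2.2 i' ?_, ?_⟩
    · rcases hyi with h | h
      · rw [h]
        exact h1
      · rw [h]
        exact h2
    · rcases hyi with h | h
      · subst h
        exact hf _ hA
      · have hi' : i = T.pv y := by rw [h, (T.cyc.mem i hi).2.2.1]
        subst hi'
        intro a' b' c' hs'
        have := finB_neg (hf _ hB a' b' c' hs')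
        rwa [hAB, neg_neg] at this
  intro k l hk hl
  have h1 := key k hk
  have h2 := key l hl
  have hZ : det3 (Φ.v T.N) (Φ.v y) (Φ.v A) ∈ Φ.hf.Z := det3_mem _ (Φ.vZ _) (Φ.vZ _) (Φ.vZ _)
  have := (hFRB K V Φ).2.2.2.2.2.2.2.1 _ _ _ (Φ.hf.one_le_abs hZ hd) _ hk _ hl h1.1 h1.2.1 h1.2.2
    h2.1 h2.2.1 h2.2.2
  exact this l (by simp) a b k rfl

end R4x

open R4x in
theorem p_R4 (hUNIQ : S_UNIQ) (hFRB : S_FRB) (hPL1 : S_PL1) (hPL2 : S_PL2) (hDICH : S_DICH) :
    S_R4 := by
  intro K V I _ _ _ _ _ _ _ P T h4 j hj hdet hd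
  obtain ⟨n1, n2, n3, n12, n13, n23, e3, hJ⟩ := cyc4 T.cyc h4 hj
  have hn := (T.cyc.mem j hj).1
  have ho := (T.cyc.mem _ hn).1
  have hp := (T.cyc.mem j hj).2.1
  have hnp : T.nx (T.pv j) = j := (T.cyc.mem j hj).2.2.2
  have hpo : T.pv (T.nx (T.nx j)) = T.nx j := (T.cyc.mem _ hn).2.2.1
  have pj := T.cyc.pos j hj
  have pn := T.cyc.pos _ hn
  have po := T.cyc.pos _ ho
  have pp := T.cyc.pos _ hp
  rw [e3] at po
  rw [hnp] at pp
  generalize hpd : T.pv j = p at *
  generalize hod : T.nx (T.nx j) = o at *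
  generalize hnd : T.nx j = n at *
  have hsum : ∀ u : Fm K, u (P.v T.N) = 0 → ∀ a, u (P.v a) = T.be j a * u (P.v j) +
      T.be n a * u (P.v n) + T.be o a * u (P.v o) + T.be p a * u (P.v p) := by
    intro u hu a
    rw [form_coord T.toTA0 u hu a, hJ, Finset.sum_insert (by simp [n1, n2, n3]),
      Finset.sum_insert (by simp [n12, n13]), Finset.sum_pair n23]
    ring
  have hmem : ∀ i ∈ T.J, i = j ∨ i = n ∨ i = o ∨ i = p := by
    intro i hi
    rw [hJ] at hi
    simpa using hi
  have hface : ∀ s ∈ P.F, ((∀ a ∈ s, T.be o a = 0) ∨ ∀ a ∈ s, T.be j a = 0) ∧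
      ((∀ a ∈ s, T.be p a = 0) ∨ ∀ a ∈ s, T.be n a = 0) := by
    intro s hs
    obtain ⟨i, hi, h⟩ := T.fsec s hs
    rcases hmem i hi with rfl | rfl | rfl | rfl
    · rw [hnd] at h
      exact ⟨Or.inl fun a ha => h a ha _ n2.symm n12.symm, Or.inl fun a ha => h a ha _ n3.symm n13.symm⟩
    · rw [hod] at h
      exact ⟨Or.inr fun a ha => h a ha _ n1 n2, Or.inl fun a ha => h a ha _ n13.symm n23.symm⟩
    · rw [e3] at h
      exact ⟨Or.inr fun a ha => h a ha _ n2 n3, Or.inr fun a ha => h a ha _ n12 n13⟩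
    · rw [hnp] at h
      exact ⟨Or.inl fun a ha => h a ha _ n23 n2.symm, Or.inr fun a ha => h a ha _ n13 n1.symm⟩
  have hvert : ∀ a, (T.be o a = 0 ∨ T.be j a = 0) ∧ (T.be p a = 0 ∨ T.be n a = 0) := by
    intro a
    obtain ⟨s, hs, ha⟩ := P.used a
    exact ⟨(hface s hs).1.imp (fun h => h a ha) (fun h => h a ha),
      (hface s hs).2.imp (fun h => h a ha) (fun h => h a ha)⟩
  have hbe : ∀ i a, (0 : K) ≤ T.be i a := fun i a => by exact_mod_cast T.be_nonneg i a
  set l : Fm K := - detL (P.v T.N) (P.v n) with hl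
  have lN : l (P.v T.N) = 0 := by simp [hl, detL_apply, det3_self13]
  have ln : l (P.v n) = 0 := by simp [hl, detL_apply, det3_self23]
  have lp : l (P.v p) = 0 := by
    rw [hl, LinearMap.neg_apply, detL_apply, det3_swap23, neg_neg]
    exact hdet
  have lj : 0 < l (P.v j) := by
    rw [hl, LinearMap.neg_apply, detL_apply, det3_swap23, neg_neg]
    exact pj
  have lo : l (P.v o) < 0 := by
    rw [hl, LinearMap.neg_apply, detL_apply]
    exact neg_neg_of_pos pn
  have la : ∀ a, l (P.v a) = T.be j a * l (P.v j) + T.be o a * l (P.v o) := by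
    intro a
    rw [hsum l lN a, ln, lp]
    ring
  have hstr : P.StrPlane l := by
    refine ⟨fun h => by rw [h] at lj; simp at lj, fun a b hab hc => ?_⟩
    obtain ⟨-, s, hs, ha, hb⟩ := hab
    rcases (hface s hs).1 with h | h
    · have := la b
      rw [h b hb] at this
      have h2 := mul_nonneg (hbe j b) lj.le
      simp only [Rat.cast_zero, zero_mul, add_zero] at this
      linarith [hc.2]
    · have := la a
      rw [h a ha] at this
      have h2 := mul_nonneg (hbe o a) (neg_nonneg.2 lo.le)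
      simp only [Rat.cast_zero, zero_mul, zero_add] at this
      linarith [hc.1]
  obtain ⟨G, c, hc, hG⟩ := hPL1 K V I P l hstr
  have hGl : ∀ x, G.l x = c * l x := fun x => by rw [hG, LinearMap.smul_apply, smul_eq_mul]
  have hκ : 0 < c * l (P.v j) := mul_pos hc lj
  have hfc : G.fc = (c * l (P.v j)) • T.Bj j := by
    unfold PLG.fc TAG.Bj
    rw [← P.cl_smul]
    congr 1
    funext a
    rw [hGl, la a, Pi.smul_apply, smul_eq_mul]
    rcases (hvert a).1 with h | h
    · rw [h, max_eq_left (by have := mul_nonneg hκ.le (hbe j a); push_cast; nlinarith)]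
      push_cast
      ring
    · rw [h, max_eq_right (by
        have := mul_nonneg hc.le (mul_nonneg (hbe o a) (neg_nonneg.2 lo.le)); push_cast; nlinarith)]
      simp
  have hBeta : G.Beta := by
    obtain ⟨d, hd⟩ := hd
    refine (hDICH K V I P G (hPL2 K V I P G) d).resolve_left fun ⟨c', h⟩ => hd ?_
    rw [hfc, dv_smul] at h
    refine ⟨c' - d (c * l (P.v j)) / (c * l (P.v j)), ?_⟩
    apply smul_right_injective _ hκ.ne'
    simp only
    rw [eq_sub_of_add_eq h, smul_smul, smul_smul, ← sub_smul]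
    congr 1
    field_simp
  refine ⟨G, ?_, hBeta⟩
  obtain ⟨N', S', a1, a2, b1, ⟨hN', hS', hv⟩, hne, h1N, h1S, h2N, h2S, -, -, hsign⟩ := hBeta
  have huq := (hUNIQ K V P.toFan).2.2
  have hpole : ¬ (P.adj T.N a1 ∧ P.adj T.S a1 ∧ P.adj T.N a2 ∧ P.adj T.S a2) := by
    rintro ⟨q1, q2, q3, q4⟩
    have m1 := hmem _ (T.both a1 q1 q2).1
    have m2 := hmem _ (T.both a2 q3 q4).1
    have gj : 0 < G.l (P.v j) := by rw [hGl]; exact hκ
    have go : G.l (P.v o) < 0 := by rw [hGl]; exact mul_neg_of_pos_of_neg hc lo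
    have gn : G.l (P.v n) = 0 := by rw [hGl, ln, mul_zero]
    have gp : G.l (P.v p) = 0 := by rw [hGl, lp, mul_zero]
    apply hne
    rcases hsign with ⟨s1, s2, -⟩ | ⟨s1, s2, -⟩
    · have t1 : a1 = j := by
        rcases m1 with h | h | h | h
        · exact h
        all_goals (rw [h] at s1; linarith)
      have t2 : a2 = j := by
        rcases m2 with h | h | h | h
        · exact h
        all_goals (rw [h] at s2; linarith)
      rw [t1, t2]
    · have t1 : a1 = o := by
        rcases m1 with h | h | h | h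
        · rw [h] at s1; linarith
        · rw [h] at s1; linarith
        · exact h
        · rw [h] at s1; linarith
      have t2 : a2 = o := by
        rcases m2 with h | h | h | h
        · rw [h] at s2; linarith
        · rw [h] at s2; linarith
        · exact h
        · rw [h] at s2; linarith
      rw [t1, t2]
  have hax := T.axis
  have c1 : N' ≠ T.N := by
    intro h
    have : T.S = S' := huq _ _ 1 one_pos (by rw [one_smul, hv, h]; exact hax.symm)
    rw [h] at h1N h2N
    rw [← this] at h1S h2S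
    exact hpole ⟨h1N.symm, h1S.symm, h2N.symm, h2S.symm⟩
  have c2 : N' ≠ T.S := by
    intro h
    have : T.N = S' := huq _ _ 1 one_pos (by
      rw [one_smul, hv, h]
      exact neg_eq_iff_eq_neg.2 hax)
    rw [h] at h1N h2N
    rw [← this] at h1S h2S
    exact hpole ⟨h1S.symm, h1N.symm, h2S.symm, h2N.symm⟩
  have c3 : S' ≠ T.N := by
    intro h
    refine c2 (huq _ _ 1 one_pos ?_)
    rw [one_smul]
    refine hax.trans ?_
    rw [← h]
    exact neg_eq_iff_eq_neg.2 hv
  have c4 : S' ≠ T.S := by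
    intro h
    refine c1 (huq _ _ 1 one_pos ?_)
    rw [one_smul]
    apply neg_injective
    rw [← hv, h]
    exact hax.symm
  have hX : ∀ a ∈ G.X, a ≠ T.N → a ≠ T.S → T.be j a = 0 ∧ T.be o a = 0 ∧
      ((0 < T.be n a ∧ T.be p a = 0) ∨ (0 < T.be p a ∧ T.be n a = 0)) := by
    intro a ha hN hS
    have h0 : l (P.v a) = 0 := by
      have := (G.memX a).1 ha
      rw [hGl] at this
      exact (mul_eq_zero.1 this).resolve_left hc.ne'
    rw [la a] at h0
    have hjo : T.be j a = 0 ∧ T.be o a = 0 := by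
      rcases (hvert a).1 with h | h
      · rw [h] at h0
        simp only [Rat.cast_zero, zero_mul, add_zero] at h0
        exact ⟨by exact_mod_cast (mul_eq_zero.1 h0).resolve_right lj.ne', h⟩
      · rw [h] at h0
        simp only [Rat.cast_zero, zero_mul, zero_add] at h0
        exact ⟨h, by exact_mod_cast (mul_eq_zero.1 h0).resolve_right lo.ne⟩
    refine ⟨hjo.1, hjo.2, ?_⟩
    obtain ⟨i, hi, hpos⟩ := T.bepos a hN hS
    rcases hmem i hi with rfl | rfl | rfl | rfl
    · exact absurd hjo.1 hpos.ne'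
    · exact Or.inl ⟨hpos, (hvert a).2.resolve_right hpos.ne'⟩
    · exact absurd hjo.2 hpos.ne'
    · exact Or.inr ⟨hpos, (hvert a).2.resolve_left hpos.ne'⟩
  have dj : ∀ a, T.be o a = 0 → det3 (P.v T.N) (P.v j) (P.v a) =
      T.be n a * det3 (P.v T.N) (P.v j) (P.v n) - T.be p a * det3 (P.v T.N) (P.v p) (P.v j) := by
    intro a h
    have := hsum (detL (P.v T.N) (P.v j)) (det3_self13 _ _) a
    simp only [detL_apply] at this
    rw [this, h, det3_self23, det3_swap23 (P.v T.N) (P.v p) (P.v j)]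
    push_cast
    ring
  have main : ∀ A B, T.be j A = 0 → T.be o A = 0 → 0 < T.be n A → T.be p A = 0 → T.be j B = 0 →
      T.be o B = 0 → 0 < T.be p B → T.be n B = 0 → P.v B = - P.v A → G.Wf := by
    intro A B aj ao an ap bj bo bp bn hAB
    have out : ∀ i a, i ≠ j → i ≠ n → i ≠ o → i ≠ p → T.be i a = 0 := by
      intro i a i1 i2 i3 i4
      refine T.be_out i (fun hi => ?_) a
      rcases hmem i hi with h | h | h | h <;> contradiction
    have sA : ∀ i, i ≠ n → T.be i A = 0 := by
      intro i hi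
      by_cases i1 : i = j
      · rw [i1]; exact aj
      by_cases i3 : i = o
      · rw [i3]; exact ao
      by_cases i4 : i = p
      · rw [i4]; exact ap
      exact out i A i1 hi i3 i4
    have sB : ∀ i, i ≠ p → T.be i B = 0 := by
      intro i hi
      by_cases i1 : i = j
      · rw [i1]; exact bj
      by_cases i3 : i = o
      · rw [i3]; exact bo
      by_cases i2 : i = n
      · rw [i2]; exact bn
      exact out i B i1 i2 i3 hi
    have wj : ∀ a b, (0 < T.be j a ∨ 0 < T.be j b) → P.WallFin a b := by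
      intro a b hab
      refine wall hFRB T.toTA0 hj (A := A) (B := B) (fun i _ h2 => sA i (hnd ▸ h2))
        (fun i h1 _ => sB i (hpd ▸ h1)) hAB ?_ hab
      have := dj A ao
      rw [ap] at this
      have h2 : (0 : K) < T.be n A := by exact_mod_cast an
      have h3 := mul_pos h2 pj
      simp only [Rat.cast_zero, zero_mul, sub_zero] at this
      exact (this ▸ h3).ne'
    have wo : ∀ a b, (0 < T.be o a ∨ 0 < T.be o b) → P.WallFin a b := by
      intro a b hab
      refine wall hFRB T.toTA0 ho (A := B) (B := A) (fun i _ h2 => sB i (e3 ▸ h2))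
        (fun i h1 _ => sA i (hpo ▸ h1)) (by rw [hAB, neg_neg]) ?_ hab
      have := hsum (detL (P.v T.N) (P.v o)) (det3_self13 _ _) B
      simp only [detL_apply] at this
      rw [bj, bo, bn] at this
      have h2 : (0 : K) < T.be p B := by exact_mod_cast bp
      have h3 := mul_pos h2 po
      simp only [Rat.cast_zero, zero_mul, zero_add, add_zero] at this
      exact (this ▸ h3).ne'
    have off : ∀ a, a ∉ G.X → 0 < T.be j a ∨ 0 < T.be o a := by
      intro a ha
      by_contra hcon
      push Not at hcon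
      apply ha
      rw [G.memX, hGl, la a, le_antisymm hcon.1 (T.be_nonneg j a), le_antisymm hcon.2 (T.be_nonneg o a)]
      simp
    intro a b hab
    rcases hab with h | h
    · exact (off a h).elim (fun h => wj a b (Or.inl h)) fun h => wo a b (Or.inl h)
    · exact (off b h).elim (fun h => wj a b (Or.inr h)) fun h => wo a b (Or.inr h)
  obtain ⟨x1, x2, x3⟩ := hX N' hN' c1 c2
  obtain ⟨y1, y2, y3⟩ := hX S' hS' c3 c4
  have dN := dj N' x2
  have dS := dj S' y2
  have dNS : det3 (P.v T.N) (P.v j) (P.v S') = - det3 (P.v T.N) (P.v j) (P.v N') := by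
    rw [hv]
    exact map_neg (detL (P.v T.N) (P.v j)) _
  rcases x3 with ⟨x3, x4⟩ | ⟨x3, x4⟩ <;> rcases y3 with ⟨y3, y4⟩ | ⟨y3, y4⟩
  · exfalso
    rw [x4] at dN
    rw [y4] at dS
    have h2 : (0 : K) < T.be n N' := by exact_mod_cast x3
    have h3 : (0 : K) < T.be n S' := by exact_mod_cast y3
    have h4 := mul_pos h2 pj
    have h5 := mul_pos h3 pj
    simp only [Rat.cast_zero, zero_mul, sub_zero] at dN dS
    linarith
  · exact main N' S' x1 x2 x3 x4 y1 y2 y3 y4 hv
  · exact main S' N' y1 y2 y3 y4 x1 x2 x3 x4 (by rw [hv, neg_neg])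
  · exfalso
    rw [x4] at dN
    rw [y4] at dS
    have h2 : (0 : K) < T.be p N' := by exact_mod_cast x3
    have h3 : (0 : K) < T.be p S' := by exact_mod_cast y3
    have h4 := mul_pos h2 pp
    have h5 := mul_pos h3 pp
    simp only [Rat.cast_zero, zero_mul, zero_sub] at dN dS
    linarith

end Pool.Agent.P.MP_33ab4b_ag.T
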