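import Pool.Agent.P.MP_33ab4b_ag.T.IfaceT
import Pool.Agent.P.MP_33ab4b_ag.T.IfaceA

/-! Step RAD0. -/

set_option autoImplicit false

namespace Pool.Agent.P.MP_33ab4b_ag.T

open scoped Classical

namespace RAD0x

variable {K V I : Type} [Field K] [LinearOrder K] [IsStrictOrderedRing K] [Fintype V]
  [DecidableEq V] [Fintype I] [DecidableEq I] {P : HP K V I} (T : TAG P)

theorem phi_eq (x : V3 K) (a : V) : det3 (P.v T.N) x (P.v a) =
    ∑ i ∈ T.J, (T.be i a : K) * det3 (P.v T.N) x (P.v i) := by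
  have h := congrArg (detL (P.v T.N) x) (T.coord a)
  rw [map_add, map_sum] at h
  simp only [map_smul, smul_eq_mul] at h
  simpa using h

theorem be0 (i a : V) : (0 : K) ≤ (T.be i a : K) := by exact_mod_cast T.be_nonneg i a

theorem nx_ne {j : V} (hj : j ∈ T.J) : T.nx j ≠ j := by
  intro h
  have := T.cyc.pos j hj
  rw [h] at this
  simp at this

theorem inner {k a : V} (hs : ∀ i, i ≠ k → i ≠ T.nx k → T.be i a = 0) (ha : a ∈ T.In) :
    0 < T.be k a ∧ 0 < T.be (T.nx k) a := by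
  obtain ⟨m, hm, -, h1, h2⟩ := T.beI a ha
  have e1 : m = k ∨ m = T.nx k := by
    by_contra h
    push Not at h
    exact h1.ne' (hs m h.1 h.2)
  have e2 : T.nx m = k ∨ T.nx m = T.nx k := by
    by_contra h
    push Not at h
    exact h2.ne' (hs _ h.1 h.2)
  have hne := nx_ne T hm
  rcases e1 with e1 | e1 <;> rcases e2 with e2 | e2
  · exact absurd (e2.trans e1.symm) hne
  · exact ⟨e1 ▸ h1, e2 ▸ h2⟩
  · exact ⟨e2 ▸ h2, e1 ▸ h1⟩
  · exact absurd (e2.trans e1.symm) hne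

theorem sign {y : V} (hy : y ∈ T.C) {s : Finset V} (hs : s ∈ P.F) (hys : y ∈ s) :
    ∃ σ : K, σ * σ = 1 ∧ ∀ a ∈ s, 0 ≤ σ * det3 (P.v T.N) (P.v (T.ch y)) (P.v a) ∧
      (a ∈ T.In → 0 < σ * det3 (P.v T.N) (P.v (T.ch y)) (P.v a)) := by
  obtain ⟨k, hk, hsec⟩ := T.fsec s hs
  have hpos := T.cyc.pos k hk
  have hnx := (T.cyc.mem k hk).1
  have e : T.ch y = k ∨ T.ch y = T.nx k := by
    by_contra h
    push Not at h
    exact (T.beC y hy).1.ne' (hsec y hys _ h.1 h.2)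
  rcases e with e | e
  · refine ⟨1, by simp, fun a ha => ?_⟩
    rw [one_mul, e, phi_eq T]
    have h0 : ∀ i ∈ T.J, 0 ≤ (T.be i a : K) * det3 (P.v T.N) (P.v k) (P.v i) := by
      intro i _
      by_cases h1 : i = k
      · rw [h1]; simp
      by_cases h2 : i = T.nx k
      · rw [h2]; exact mul_nonneg (be0 T _ _) hpos.le
      · rw [hsec a ha i h1 h2]; simp
    refine ⟨Finset.sum_nonneg h0, fun hi => Finset.sum_pos' h0 ⟨T.nx k, hnx, mul_pos ?_ hpos⟩⟩
    exact_mod_cast (inner T (hsec a ha) hi).2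
  · refine ⟨-1, by simp, fun a ha => ?_⟩
    rw [e, phi_eq T, Finset.mul_sum]
    have hk' : ∀ r : K, -1 * (r * det3 (P.v T.N) (P.v (T.nx k)) (P.v k))
        = r * det3 (P.v T.N) (P.v k) (P.v (T.nx k)) := fun r => by
      rw [det3_swap23 (P.v T.N) (P.v k)]; ring
    have h0 : ∀ i ∈ T.J, 0 ≤ -1 * ((T.be i a : K) * det3 (P.v T.N) (P.v (T.nx k)) (P.v i)) := by
      intro i _
      by_cases h1 : i = k
      · rw [h1, hk']; exact mul_nonneg (be0 T _ _) hpos.le
      by_cases h2 : i = T.nx k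
      · rw [h2]; simp
      · rw [hsec a ha i h1 h2]; simp
    refine ⟨Finset.sum_nonneg h0, fun hi => Finset.sum_pos' h0 ⟨k, hk, ?_⟩⟩
    rw [hk']
    refine mul_pos ?_ hpos
    exact_mod_cast (inner T (hsec a ha) hi).1

theorem phi_self {y : V} (hy : y ∈ T.C) : det3 (P.v T.N) (P.v (T.ch y)) (P.v y) = 0 := by
  rw [phi_eq T]
  refine Finset.sum_eq_zero fun i _ => ?_
  by_cases h : i = T.ch y
  · rw [h]; simp
  · rw [(T.beC y hy).2 i h]; simp

theorem chain (hZAR : S_ZAR) {y : V} (hy : y ∈ T.C) (c : V → K) (hc : ∀ a, a ∉ T.In → c a = 0) :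
    P.mu (P.D y) (P.cl c) (P.cl c) ≤ 0 ∧ (P.mu (P.D y) (P.cl c) (P.cl c) = 0 →
      ∀ i ∈ T.In, P.mu (P.D y) (P.D i) (P.cl c) = 0) := by
  obtain ⟨φ, hφ⟩ : ∃ φ : V → K, φ = fun a => det3 (P.v T.N) (P.v (T.ch y)) (P.v a) := ⟨_, rfl⟩
  obtain ⟨A, hA⟩ : ∃ A : Finset V, ∀ a, a ∈ A ↔ P.adj y a ∧ φ a ≠ 0 :=
    ⟨Finset.univ.filter fun a => P.adj y a ∧ φ a ≠ 0, fun a => by simp⟩
  have hIn : ∀ i ∈ T.In, P.adj y i → i ∈ A := by
    intro i hi h
    refine (hA i).2 ⟨h, ?_⟩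
    obtain ⟨-, s, hs, h1, h2⟩ := h
    obtain ⟨σ, -, hσ⟩ := sign T hy hs h1
    intro h0
    have := (hσ i h2).2 hi
    rw [hφ] at h0
    dsimp only at h0
    rw [h0] at this
    simp at this
  have hna : ∀ (x : I → K) (b : V), b ≠ y → ¬ P.adj y b → P.mu (P.D y) x (P.D b) = 0 :=
    fun x b h1 h2 => by rw [P.mu12]; exact P.nadj h1.symm h2 x
  have hL : ∀ x : I → K, ∑ b ∈ A, c b * P.mu (P.D y) x (P.D b) = P.mu (P.D y) x (P.cl c) := by
    intro x
    rw [P.form_cl]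
    refine Finset.sum_subset (Finset.subset_univ _) fun b _ hb => ?_
    by_cases hi : b ∈ T.In
    · rw [hna x b (fun h => T.disj y hy (h ▸ hi)) fun h => hb (hIn b hi h), mul_zero]
    · rw [hc b hi, zero_mul]
  have hrow : ∀ a, ∑ b ∈ A, P.m3 y a b * c b = P.mu (P.D y) (P.D a) (P.cl c) := fun a => by
    rw [← hL]
    exact Finset.sum_congr rfl fun b _ => mul_comm _ _
  have hQ : ∑ a ∈ A, ∑ b ∈ A, c a * P.m3 y a b * c b = P.mu (P.D y) (P.cl c) (P.cl c) := by
    rw [← hL]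
    refine Finset.sum_congr rfl fun a _ => ?_
    rw [P.mu23, ← hrow, Finset.mul_sum]
    exact Finset.sum_congr rfl fun b _ => mul_assoc _ _ _
  have hn : ∀ a ∈ A, ∑ b ∈ A, P.m3 y a b * |φ b| ≤ 0 := by
    intro a ha
    have h0 : ∑ b ∈ A, φ b * P.m3 y a b = 0 := by
      rw [← P.LR (P.mu (P.D y) (P.D a)) (detL (P.v T.N) (P.v (T.ch y)))]
      refine (Finset.sum_congr rfl fun b _ => by rw [hφ]; rfl).trans
        (Finset.sum_subset (Finset.subset_univ _) fun b _ hb => ?_)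
      by_cases h1 : b = y
      · rw [h1, detL_apply, phi_self T hy, zero_mul]
      by_cases h2 : P.adj y b
      · have : φ b = 0 := by
          by_contra h3
          exact hb ((hA b).2 ⟨h2, h3⟩)
        rw [hφ] at this
        dsimp only at this
        rw [detL_apply, this, zero_mul]
      · rw [hna _ b h1 h2, mul_zero]
    have h1 : φ a * ∑ b ∈ A, P.m3 y a b * |φ b| = |φ a| * ∑ b ∈ A, φ b * P.m3 y a b := by
      rw [Finset.mul_sum, Finset.mul_sum]
      refine Finset.sum_congr rfl fun b hb => ?_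
      by_cases hab : a = b
      · rw [← hab]; ring
      by_cases hf : P.face y a b
      · obtain ⟨σ, hσ, h2⟩ := sign T hy hf (by simp)
        have ea := (h2 a (by simp)).1
        have eb := (h2 b (by simp)).1
        have ea' : 0 ≤ σ * φ a := by rw [hφ]; exact ea
        have eb' : 0 ≤ σ * φ b := by rw [hφ]; exact eb
        have s1 : |σ| = 1 := by
          rcases mul_self_eq_one_iff.1 hσ with h | h <;> rw [h] <;> simp
        have aa : |φ a| = σ * φ a := by rw [← abs_of_nonneg ea', abs_mul, s1, one_mul]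
        have ab : |φ b| = σ * φ b := by rw [← abs_of_nonneg eb', abs_mul, s1, one_mul]
        rw [aa, ab]; ring
      · rw [P.m3_not_face ((hA a).1 ha).1.1 ((hA b).1 hb).1.1 hab hf]; ring
    rw [h0, mul_zero] at h1
    exact ((mul_eq_zero.1 h1).resolve_left ((hA a).1 ha).2).le
  obtain ⟨z1, z2⟩ := hZAR K V A (P.m3 y) (fun a => |φ a|) (fun a _ b _ => P.mu23 _ _ _)
    (fun a ha b hb hab => by
      by_cases hf : P.face y a b
      · rw [P.m3_face hf]; exact zero_le_one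
      · rw [P.m3_not_face ((hA a).1 ha).1.1 ((hA b).1 hb).1.1 hab hf])
    (fun a ha => abs_pos.2 ((hA a).1 ha).2) hn c
  rw [hQ] at z1 z2
  refine ⟨z1, fun h0 i hi => ?_⟩
  by_cases h : P.adj y i
  · rw [← hrow]; exact (z2 h0).1 i (hIn i hi h)
  · rw [P.mu23]; exact hna _ i (fun e => T.disj y hy (e ▸ hi)) h

end RAD0x

theorem p_RAD0 (hZAR : S_ZAR) (hDEF0 : S_DEF0) :
    S_RAD0 := by
  intro K V I _ _ _ _ _ _ _ P T A w hw h
  obtain ⟨c, hc, rfl⟩ := P.mem_sp.1 hw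
  have hc' : ∀ a, a ∉ T.In → c a = 0 := fun a ha => hc a (by simpa using ha)
  have hsum : ∀ l : (I → K) →ₗ[K] K, (∀ i ∈ T.In, l (P.D i) = 0) → l (P.cl c) = 0 := by
    intro l hl
    rw [P.form_cl]
    refine Finset.sum_eq_zero fun a _ => ?_
    by_cases ha : a ∈ T.In
    · rw [hl a ha, mul_zero]
    · rw [hc' a ha, zero_mul]
  have h1 : ∀ i ∈ T.In, P.mu (P.D i) (P.cl c) (P.cl c) = 0 := fun i hi => by
    rw [P.mu12]
    exact hsum _ fun i' hi' => h i hi i' hi'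
  have h2 : ∀ y ∈ T.C, P.mu (P.D y) (P.cl c) (P.cl c) = 0 := by
    intro y hy
    have hB : T.Bj (T.ch y) ∈ T.B := Submodule.subset_span ⟨_, T.chJ y hy, rfl⟩
    have e : P.mu (T.Bj (T.ch y)) (P.cl c) (P.cl c) = 0 :=
      hsum _ fun i hi => by rw [P.mu23, A.BI _ hB i hi]; rfl
    rw [TAG.Bj, P.mu_cl] at e
    have h3 : ∀ a ∈ (Finset.univ : Finset V),
        (T.be (T.ch y) a : K) * P.mu (P.D a) (P.cl c) (P.cl c) ≤ 0 := by
      intro a _
      rcases T.part a with ha | ha | ha | ha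
      · rw [ha, (T.beN _).1]; simp
      · rw [ha, (T.beN _).2]; simp
      · exact mul_nonpos_of_nonneg_of_nonpos (RAD0x.be0 T _ _) (RAD0x.chain T hZAR ha c hc').1
      · rw [h1 a ha, mul_zero]
    have h4 := (Finset.sum_eq_zero_iff_of_nonpos h3).1 e y (Finset.mem_univ _)
    refine (mul_eq_zero.1 h4).resolve_left ?_
    exact_mod_cast (T.beC y hy).1.ne'
  have hN : P.v T.N ≠ 0 := by
    intro h0
    obtain ⟨j, hj⟩ := T.cyc.ne
    have := T.cyc.pos j hj
    rw [h0] at this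
    simp [det3] at this
  have h5 : ∀ i ∈ T.In, ∀ a, P.mu (P.cl c) (P.D i) (P.D a) = 0 := by
    intro i hi
    have hiN : i ≠ T.N := fun e => T.NC.2.2.1 (e ▸ hi)
    have hiS : i ≠ T.S := fun e => T.NC.2.2.2 (e ▸ hi)
    have k1 : ∀ a, a ≠ T.N → a ≠ T.S → P.mu (P.cl c) (P.D i) (P.D a) = 0 := by
      intro a a1 a2
      rcases T.part a with ha | ha | ha | ha
      · exact absurd ha a1
      · exact absurd ha a2
      · rw [P.mu13]; exact (RAD0x.chain T hZAR ha c hc').2 (h2 a ha) i hi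
      · exact h i hi a ha
    have k2 := P.LRv (P.mu (P.cl c) (P.D i))
    rw [Finset.sum_eq_add T.N T.S T.NS (fun a _ ha => by rw [k1 a ha.1 ha.2, zero_smul])
      (by simp) (by simp), T.axis, smul_neg, ← sub_eq_add_neg, ← sub_smul, smul_eq_zero] at k2
    have k3 := sub_eq_zero.1 (k2.resolve_right hN)
    have k4 : P.mu (P.cl c) (P.D i) (P.D T.N) = 0 := by
      by_cases b1 : P.adj T.N i
      · rw [k3]
        refine P.nadj hiS (fun b2 => ?_) _
        exact T.disj i (T.JC i (T.both i b1 b2.symm).1).1 hi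
      · exact P.nadj hiN (fun b2 => b1 b2.symm) _
    intro a
    by_cases a1 : a = T.N
    · rw [a1, k4]
    by_cases a2 : a = T.S
    · rw [a2, ← k3, k4]
    · exact k1 a a1 a2
  refine hDEF0 K V I P T A _ hw (hsum _ fun i hi => ?_)
  rw [HP.H, P.mu_cl]
  refine Finset.sum_eq_zero fun a _ => ?_
  rw [P.mu12, P.mu23, h5 i hi a, mul_zero]

end Pool.Agent.P.MP_33ab4b_ag.T
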