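import Pool.Agent.P.MP_33ab4b_ag.T.IfaceP

/-! Step RADU. -/

set_option autoImplicit false

namespace Pool.Agent.P.MP_33ab4b_ag.T

open scoped Classical

namespace RADUx

variable {K V I : Type} [Field K] [LinearOrder K] [IsStrictOrderedRing K] [Fintype V]
  [DecidableEq V] [Fintype I] [DecidableEq I]

theorem v_ne {P : HP K V I} {a x : V} (h : P.adj a x) : P.v x ≠ 0 := by
  obtain ⟨c, hc⟩ := h.exists_face
  intro h0
  have := hc.det_ne
  apply this
  rw [h0]
  simp [det3]

theorem bend (hLOC : S_LOC) (P : HP K V I) (G : PLG P) (k : V → K)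
    (hk : ∀ a, ¬ 0 < G.l (P.v a) → k a = 0)
    (hm : ∀ a b, 0 < G.l (P.v a) → 0 < G.l (P.v b) → P.mu (P.cl k) (P.D a) (P.D b) = 0)
    (a : V) (ha : 0 < G.l (P.v a)) (x : V) (hx : P.mu (P.cl k) (P.D a) (P.D x) ≠ 0) :
    ∃ N S, G.Ax N S ∧ N ≠ S ∧ P.adj a N ∧ P.adj a S ∧ P.mu (P.cl k) (P.D a) (P.D N) ≠ 0 ∧
      ∀ c, P.mu (P.cl k) (P.D a) (P.D c) = P.mu (P.cl k) (P.D a) (P.D N) *
        ((if c = N then 1 else 0) + (if c = S then 1 else 0)) := by
  set Y : Finset V := G.X.filter (fun y => P.adj a y) with hY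
  have hout : ∀ c, c ∉ Y → P.mu (P.cl k) (P.D a) (P.D c) = 0 := by
    intro c hc
    by_cases hu : 0 < G.l (P.v c)
    · exact hm a c ha hu
    · have hac : a ≠ c := by rintro rfl; exact hu ha
      by_cases hadj : P.adj a c
      · have h1 : ¬ G.l (P.v c) < 0 := fun h => G.str a c hadj ⟨ha, h⟩
        have h2 : G.l (P.v c) = 0 := le_antisymm (not_lt.1 hu) (not_lt.1 h1)
        exact absurd (Finset.mem_filter.2 ⟨(G.memX c).2 h2, hadj⟩) hc
      · exact P.nadj hac hadj _
  have haX : a ∉ G.X := fun h => by rw [(G.memX a).1 h] at ha; exact lt_irrefl _ ha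
  have hxY : x ∈ Y := by
    by_contra h
    exact hx (hout x h)
  obtain ⟨x', hx'Y, hv, hz⟩ := hLOC K V I P G a k Y haX
    (fun y hy => ⟨(Finset.mem_filter.1 hy).1, (Finset.mem_filter.1 hy).2,
      hk y (by rw [(G.memX y).1 (Finset.mem_filter.1 hy).1]; exact lt_irrefl _)⟩)
    (fun c _ hc => hout c hc) x hxY hx
  have hax : P.adj a x := (Finset.mem_filter.1 hxY).2
  have hax' : P.adj a x' := (Finset.mem_filter.1 hx'Y).2
  have hv0 : P.v x ≠ 0 := v_ne hax
  have hne : x ≠ x' := by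
    rintro rfl
    apply hv0
    have h2 : (2 : K) • P.v x = 0 := by
      rw [two_smul]
      nth_rewrite 1 [hv]
      exact neg_add_cancel _
    exact (smul_eq_zero.1 h2).resolve_left two_ne_zero
  have hz' : ∀ c, c ≠ x → c ≠ x' → P.mu (P.cl k) (P.D a) (P.D c) = 0 := by
    intro c h1 h2
    by_cases hc : c ∈ Y
    · exact hz c hc h1 h2
    · exact hout c hc
  have hrel := P.LRv (P.mu (P.cl k) (P.D a))
  rw [Fintype.sum_eq_add x x' hne (fun c hc => by rw [hz' c hc.1 hc.2, zero_smul]), hv] at hrel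
  have heq : P.mu (P.cl k) (P.D a) (P.D x') = P.mu (P.cl k) (P.D a) (P.D x) := by
    have h3 : (P.mu (P.cl k) (P.D a) (P.D x) - P.mu (P.cl k) (P.D a) (P.D x')) • P.v x = 0 := by
      rw [sub_smul, ← hrel, smul_neg, sub_eq_add_neg]
    exact (sub_eq_zero.1 ((smul_eq_zero.1 h3).resolve_right hv0)).symm
  refine ⟨x, x', ⟨(Finset.mem_filter.1 hxY).1, (Finset.mem_filter.1 hx'Y).1, hv⟩, hne, hax, hax',
    hx, fun c => ?_⟩
  by_cases h1 : c = x
  · subst h1
    rw [if_pos rfl, if_neg hne]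
    ring
  · by_cases h2 : c = x'
    · subst h2
      rw [if_neg h1, if_pos rfl, heq]
      ring
    · rw [if_neg h1, if_neg h2, hz' c h1 h2]
      ring

end RADUx

theorem p_RADU (hLOC : S_LOC) (hAXU : S_AXU) :
    S_RADU := by
  intro K V I _ _ _ _ _ _ _ P G A k hk hm
  by_cases hb : ∃ a, 0 < G.l (P.v a) ∧ ∃ x, P.mu (P.cl k) (P.D a) (P.D x) ≠ 0
  · right
    obtain ⟨a0, ha0, x0, hx0⟩ := hb
    obtain ⟨N, S, hAx, hNS, haN, haS, hN0, hf0⟩ := RADUx.bend hLOC P G k hk hm a0 ha0 x0 hx0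
    have key : ∀ a, 0 < G.l (P.v a) → ∀ x, P.mu (P.cl k) (P.D a) (P.D x) ≠ 0 →
        P.adj a N ∧ P.adj a S ∧ ∀ c, P.mu (P.cl k) (P.D a) (P.D c) =
          P.mu (P.cl k) (P.D a) (P.D N) * ((if c = N then 1 else 0) + (if c = S then 1 else 0)) := by
      intro a ha x hx
      by_cases h : a0 = a
      · subst h
        exact ⟨haN, haS, hf0⟩
      · obtain ⟨N', S', hAx', _, haN', haS', _, hf⟩ := RADUx.bend hLOC P G k hk hm a ha x hx
        rcases (hAXU K V I P G).1 a0 a N S N' S' h ha0 ha hAx hAx' haN haS haN' haS' with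
          ⟨e1, e2⟩ | ⟨e1, e2⟩
        · rw [e1] at haN' hf
          rw [e2] at haS' hf
          exact ⟨haN', haS', hf⟩
        · rw [e1] at haN' hf
          rw [e2] at haS' hf
          refine ⟨haS', haN', fun c => ?_⟩
          have h1 := hf N
          rw [if_neg hNS, if_pos rfl] at h1
          rw [hf c, h1]
          ring
    refine ⟨N, S, hAx, fun a => P.mu (P.cl k) (P.D a) (P.D N), ?_, ?_, ?_⟩
    · intro a ha c
      by_cases h : ∃ x, P.mu (P.cl k) (P.D a) (P.D x) ≠ 0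
      · obtain ⟨x, hx⟩ := h
        exact (key a ha x hx).2.2 c
      · push Not at h
        show _ = P.mu (P.cl k) (P.D a) (P.D N) * _
        rw [h c, h N, zero_mul]
    · intro a ha h
      exact ⟨(key a ha N h).1, (key a ha N h).2.1⟩
    · by_contra hno
      have hz : ∀ a, a ≠ a0 → max (G.l (P.v a)) 0 * P.mu (P.D a) (P.cl k) (P.D N) = 0 := by
        intro a hne
        by_cases ha : 0 < G.l (P.v a)
        · by_cases h : P.mu (P.cl k) (P.D a) (P.D N) = 0
          · rw [P.mu12, h, mul_zero]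
          · exact absurd ⟨a0, a, hne.symm, ha0, ha, hN0, h⟩ hno
        · rw [max_eq_right (not_lt.1 ha), zero_mul]
      have h1 : P.mu G.fc (P.cl k) (P.D N) = G.l (P.v a0) * P.mu (P.cl k) (P.D a0) (P.D N) := by
        unfold PLG.fc
        rw [P.mu_cl, Fintype.sum_eq_single a0 hz, max_eq_left ha0.le, P.mu12]
      have h2 : P.mu G.fc (P.cl k) (P.D N) = 0 := by
        rw [P.mu12, P.mu_cl]
        refine Finset.sum_eq_zero fun b _ => ?_
        by_cases hb : 0 < G.l (P.v b)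
        · have hbX : b ∉ G.X := fun h => by rw [(G.memX b).1 h] at hb; exact lt_irrefl _ hb
          rw [P.mu12, A.fD0 b hbX]
          simp
        · rw [hk b hb, zero_mul]
      rw [h2] at h1
      exact mul_ne_zero ha0.ne' hN0 h1.symm
  · left
    push Not at hb
    refine A.def0 _ ?_ ?_
    · refine P.mem_sp.2 ⟨k, fun a ha => hk a ?_, rfl⟩
      have haX : a ∈ G.X := by
        by_contra h
        exact ha h
      rw [(G.memX a).1 haX]
      exact lt_irrefl _
    · rw [P.mu13, P.mu_cl]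
      refine Finset.sum_eq_zero fun b _ => ?_
      by_cases hb' : 0 < G.l (P.v b)
      · have h0 : P.mu (P.cl k) (P.D b) = 0 := P.form_ext fun c => by rw [hb b hb' c]; rfl
        rw [P.mu12, h0]
        simp
      · rw [hk b hb', zero_mul]

end Pool.Agent.P.MP_33ab4b_ag.T
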