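import Pool.Agent.P.MP_33ab4b_ag.T.IfaceM

/-! Step RANK. -/

set_option autoImplicit false

namespace Pool.Agent.P.MP_33ab4b_ag.T

open scoped Classical

theorem p_RANK (hQFAN : S_QFAN) :
    S_RANK := by
  intro m S b mu p Z
  have h2 : ∀ x : Fin m → ℚ, (∀ i, ∑ a, x a * (Z.D a i : ℚ) = 0) ↔
      ∃ u : Fin 3 → ℚ, ∀ a, x a = ∑ i, u i * (S.v a i : ℚ) := by
    intro x
    constructor
    · intro h
      obtain ⟨N, hN⟩ := IsLocalization.exist_integer_multiples_of_finite (nonZeroDivisors ℤ) x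
      choose y hy using hN
      have hy' : ∀ a, (y a : ℚ) = ((N : ℤ) : ℚ) * x a := fun a => by simpa using hy a
      have hN0 : ((N : ℤ) : ℚ) ≠ 0 := by exact_mod_cast nonZeroDivisors.coe_ne_zero N
      obtain ⟨u, hu⟩ := (Z.ker y).1 (by
        funext i
        have : ((∑ a, y a * Z.D a i : ℤ) : ℚ) = 0 := by
          push_cast
          simp_rw [hy', mul_assoc]
          rw [← Finset.mul_sum, h i, mul_zero]
        simpa [Finset.sum_apply] using (Int.cast_eq_zero.1 this))
      refine ⟨fun i => (u i : ℚ) / ((N : ℤ) : ℚ), fun a => ?_⟩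
      have e := hy' a
      rw [hu a, dotProduct] at e
      push_cast at e
      simp_rw [div_mul_eq_mul_div]
      rw [← Finset.sum_div, e, mul_div_cancel_left₀ _ hN0]
    · rintro ⟨u, hu⟩ j
      have h0 : ∀ i, ∑ a, (S.v a i : ℚ) * (Z.D a j : ℚ) = 0 := fun i => by
        have := congrFun ((Z.ker fun a => S.v a i).2 ⟨Pi.single i 1, fun a => by simp⟩) j
        simp only [Finset.sum_apply, Pi.smul_apply, smul_eq_mul, Pi.zero_apply] at this
        exact_mod_cast this
      simp_rw [hu, Finset.sum_mul, mul_assoc]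
      rw [Finset.sum_comm]
      exact Finset.sum_eq_zero fun i _ => by rw [← Finset.mul_sum, h0 i, mul_zero]
  refine ⟨?_, h2⟩
  obtain ⟨Φ, hv, -⟩ := hQFAN m S
  let Dq : (Fin m → ℚ) →ₗ[ℚ] (Fin b → ℚ) := Matrix.vecMulLinear (Matrix.of fun a i => (Z.D a i : ℚ))
  let Vq : (Fin 3 → ℚ) →ₗ[ℚ] (Fin m → ℚ) := Matrix.vecMulLinear (Matrix.of fun i a => (S.v a i : ℚ))
  have hD : ∀ x i, Dq x i = ∑ a, x a * (Z.D a i : ℚ) := fun x i => rfl
  have hV : ∀ u a, Vq u a = ∑ i, u i * (S.v a i : ℚ) := fun u a => rfl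
  have hk : LinearMap.ker Dq = LinearMap.range Vq := by
    ext x
    rw [LinearMap.mem_ker, LinearMap.mem_range, funext_iff]
    exact (h2 x).trans (exists_congr fun u => by rw [eq_comm (a := Vq u), funext_iff]; rfl)
  have hr : LinearMap.range Dq = ⊤ := by
    rw [eq_top_iff, ← (Pi.basisFun ℚ (Fin b)).span_eq, Submodule.span_le]
    rintro _ ⟨i, rfl⟩
    obtain ⟨y, hy⟩ := Z.onto (Pi.single i 1)
    refine ⟨fun a => (y a : ℚ), funext fun j => ?_⟩
    have := congrFun hy j
    simp only [Finset.sum_apply, Pi.smul_apply, smul_eq_mul] at this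
    rw [hD, Pi.basisFun_apply]
    have e : ((Pi.single i 1 : Fin b → ℚ) j) = (((Pi.single i 1 : Fin b → ℤ) j : ℤ) : ℚ) := by
      by_cases h : j = i <;> simp [h]
    rw [e, this]
    push_cast
    rfl
  have hi : Function.Injective Vq := by
    rw [injective_iff_map_eq_zero]
    intro u hu
    funext i
    obtain ⟨s, -, t, -, -, ht⟩ := Φ.cover (Pi.single i 1)
    have e : u i = ∑ j, u j * (Pi.single i 1 : Fin 3 → ℚ) j := by simp [Pi.single_apply]
    rw [e, ht]
    simp only [Finset.sum_apply, Pi.smul_apply, smul_eq_mul, Finset.mul_sum, hv, Pi.zero_apply]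
    rw [Finset.sum_comm]
    refine Finset.sum_eq_zero fun a _ => ?_
    have := congrFun hu a
    rw [hV, Pi.zero_apply] at this
    simp_rw [mul_left_comm _ (t a)]
    rw [← Finset.mul_sum, this, mul_zero]
  have := LinearMap.finrank_range_add_finrank_ker Dq
  rw [hr, hk, LinearMap.finrank_range_of_inj hi, finrank_top] at this
  simpa using this.symm

end Pool.Agent.P.MP_33ab4b_ag.T
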