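import Pool.Agent.P.MP_33ab4b_ag.T.IfaceM

/-! The degree map on the cohomology ring. -/

set_option autoImplicit false

namespace Pool.Agent.P.MP_33ab4b_ag.T

open scoped Classical
open MvPolynomial

/-- The exponent vector of the monomial `X a * X b * X c`. -/
noncomputable def rg1e {m : ℕ} (a b c : Fin m) : Fin m →₀ ℕ :=
  Finsupp.single a 1 + Finsupp.single b 1 + Finsupp.single c 1

theorem rg1e_perm {m : ℕ} (M : Fin m → Fin m → Fin m → ℤ) (h1 : ∀ a b c, M a b c = M b a c)
    (h2 : ∀ a b c, M a b c = M a c b) (a b c a' b' c' : Fin m) (h : rg1e a b c = rg1e a' b' c') :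
    M a b c = M a' b' c' := by
  have two : ∀ b c b' c' : Fin m, Finsupp.single b 1 + Finsupp.single c 1 =
      Finsupp.single b' (1 : ℕ) + Finsupp.single c' 1 → (b = b' ∧ c = c') ∨ (b = c' ∧ c = b') := by
    intro b c b' c' h
    have hb := DFunLike.congr_fun h b
    by_cases hbb : b' = b
    · subst hbb
      exact Or.inl ⟨rfl, Finsupp.single_left_injective one_ne_zero (add_left_cancel h)⟩
    · by_cases hcb : c' = b
      · subst hcb
        rw [add_comm (Finsupp.single b' 1)] at h
        exact Or.inr ⟨rfl, Finsupp.single_left_injective one_ne_zero (add_left_cancel h)⟩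
      · simp [Finsupp.single_apply, hbb, hcb] at hb
  have ha := DFunLike.congr_fun h a
  unfold rg1e at h
  by_cases e1 : a' = a
  · subst e1
    rw [add_assoc, add_assoc] at h
    rcases two _ _ _ _ (add_left_cancel h) with ⟨rfl, rfl⟩ | ⟨rfl, rfl⟩
    · rfl
    · exact h2 _ _ _
  · by_cases e2 : b' = a
    · subst e2
      rw [add_comm (Finsupp.single a' 1), add_assoc, add_assoc] at h
      rcases two _ _ _ _ (add_left_cancel h) with ⟨rfl, rfl⟩ | ⟨rfl, rfl⟩
      · exact h1 _ _ _
      · rw [h2, h1]
    · by_cases e3 : c' = a
      · subst e3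
        rw [add_comm _ (Finsupp.single c' 1), add_assoc] at h
        rcases two _ _ _ _ (add_left_cancel h) with ⟨rfl, rfl⟩ | ⟨rfl, rfl⟩
        · rw [h1, h2]
        · rw [h2, h1, h2]
      · simp [rg1e, Finsupp.single_apply, e1, e2, e3] at ha

/-- The value of the degree on a monomial. -/
noncomputable def rg1g {m : ℕ} (M : Fin m → Fin m → Fin m → ℤ) (n : Fin m →₀ ℕ) : ℤ :=
  if h : ∃ t : Fin m × Fin m × Fin m, n = rg1e t.1 t.2.1 t.2.2 then
    M h.choose.1 h.choose.2.1 h.choose.2.2 else 0

theorem rg1g_e {m : ℕ} (M : Fin m → Fin m → Fin m → ℤ) (h1 : ∀ a b c, M a b c = M b a c)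
    (h2 : ∀ a b c, M a b c = M a c b) (a b c : Fin m) : rg1g M (rg1e a b c) = M a b c := by
  have h : ∃ t : Fin m × Fin m × Fin m, rg1e a b c = rg1e t.1 t.2.1 t.2.2 := ⟨(a, b, c), rfl⟩
  rw [rg1g, dif_pos h]
  exact (rg1e_perm M h1 h2 _ _ _ _ _ _ h.choose_spec).symm

theorem rg1g_ne {m : ℕ} (M : Fin m → Fin m → Fin m → ℤ) (n : Fin m →₀ ℕ) (h : rg1g M n ≠ 0) :
    ∃ a b c, n = rg1e a b c := by
  by_contra hc
  apply h
  rw [rg1g, dif_neg]
  rintro ⟨t, ht⟩
  exact hc ⟨_, _, _, ht⟩

/-- The degree on polynomials. -/
noncomputable def rg1d {m : ℕ} (M : Fin m → Fin m → Fin m → ℤ) :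
    MvPolynomial (Fin m) ℤ →ₗ[ℤ] ℤ :=
  (MvPolynomial.basisMonomials (Fin m) ℤ).constr ℤ (rg1g M)

theorem rg1d_mon {m : ℕ} (M : Fin m → Fin m → Fin m → ℤ) (n : Fin m →₀ ℕ) (c : ℤ) :
    rg1d M (monomial n c) = c * rg1g M n := by
  have : (monomial n c : MvPolynomial (Fin m) ℤ) = c • basisMonomials (Fin m) ℤ n := by
    simp [smul_monomial]
  rw [this, map_smul, rg1d, Module.Basis.constr_basis, smul_eq_mul]

theorem p_RG1 : S_RG1 := by
  intro m S M h1 h2 hf hn hl
  have key : ∀ P ∈ S.ideal, ∀ Q, rg1d M (Q * P) = 0 := by
    intro P hP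
    refine Submodule.span_induction (p := fun P _ => ∀ Q, rg1d M (Q * P) = 0) ?_ ?_ ?_ ?_ hP
    · rintro P (⟨t, ht, rfl⟩ | ⟨i, rfl⟩) Q
      · induction Q using MvPolynomial.induction_on' with
        | add P Q hP hQ => rw [add_mul, map_add, hP, hQ, add_zero]
        | monomial n c =>
          have e : (∏ a ∈ t, X a : MvPolynomial (Fin m) ℤ) =
              monomial (∑ a ∈ t, Finsupp.single a 1) 1 := by
            rw [monomial_sum_one]; rfl
          rw [e, monomial_mul, rg1d_mon]
          by_contra hne
          obtain ⟨a, b, c', he⟩ := rg1g_ne M _ (right_ne_zero_of_mul hne)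
          rw [he, rg1g_e M h1 h2] at hne
          have hM := right_ne_zero_of_mul hne
          have hsub : ∀ j ∈ t, j = a ∨ j = b ∨ j = c' := by
            intro j hj
            have := DFunLike.congr_fun he j
            by_contra hc
            push Not at hc
            have h3 : (∑ a ∈ t, Finsupp.single a (1 : ℕ)) j = 1 := by
              rw [Finsupp.finsetSum_apply, Finset.sum_eq_single j]
              · simp
              · intro b _ hb; simp [hb]
              · intro h; exact absurd hj h
            rw [Finsupp.add_apply, h3] at this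
            simp [rg1e, hc.1.symm, hc.2.1.symm, hc.2.2.symm] at this
          have pair : ∀ x y, M x x y ≠ 0 → (∀ j ∈ t, j = x ∨ j = y) → False := by
            intro x y hxy hs
            by_cases e : x = y
            · obtain ⟨s, hs', hx⟩ := S.used x
              exact ht s hs' fun j hj => by rcases hs j hj with rfl | rfl <;> simp [e ▸ hx, hx]
            · apply hxy
              rw [h2]
              refine hn x y e (fun s hs' hh => ht s hs' fun j hj => ?_) x
              rcases hs j hj with rfl | rfl
              · exact hh.1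
              · exact hh.2
          by_cases e1 : a = b
          · subst e1
            exact pair a c' hM fun j hj => by have := hsub j hj; tauto
          by_cases e2 : a = c'
          · subst e2
            exact pair a b (by rwa [h2]) fun j hj => by have := hsub j hj; tauto
          by_cases e3 : b = c'
          · subst e3
            exact pair b a (by rwa [h2, h1]) fun j hj => by have := hsub j hj; tauto
          rw [hf a b c' e1 e2 e3] at hM
          have hF : ({a, b, c'} : Finset (Fin m)) ∈ S.F := by
            by_contra h; exact hM (if_neg h)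
          exact ht _ hF fun j hj => by simpa using hsub j hj
      · induction Q using MvPolynomial.induction_on' with
        | add P Q hP hQ => rw [add_mul, map_add, hP, hQ, add_zero]
        | monomial n c =>
          have e : ∀ a, rg1d M (monomial n c * (C (S.v a i) * X a)) =
              c * (S.v a i * rg1g M (n + Finsupp.single a 1)) := by
            intro a
            rw [C_mul_X_eq_monomial, monomial_mul, rg1d_mon, mul_assoc]
          rw [Finset.mul_sum, map_sum]
          simp only [e]
          rw [← Finset.mul_sum]
          by_cases hx : ∃ b c', n = Finsupp.single b 1 + Finsupp.single c' 1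
          · obtain ⟨b, c', rfl⟩ := hx
            have e2 : ∀ a, rg1g M (Finsupp.single b 1 + Finsupp.single c' 1 +
                Finsupp.single a 1) = M a b c' := by
              intro a
              have := rg1g_e M h1 h2 b c' a
              rw [rg1e] at this
              rw [this, h2, h1]
            simp only [e2]
            rw [hl, mul_zero]
          · rw [Finset.sum_eq_zero, mul_zero]
            intro a _
            by_contra hne
            obtain ⟨x, y, z, he⟩ := rg1g_ne M _ (right_ne_zero_of_mul hne)
            apply hx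
            have ha := DFunLike.congr_fun he a
            unfold rg1e at he
            by_cases e1 : z = a
            · subst e1; exact ⟨x, y, add_right_cancel he⟩
            by_cases e2 : y = a
            · subst e2
              rw [add_right_comm] at he
              exact ⟨x, z, add_right_cancel he⟩
            by_cases e3 : x = a
            · subst e3
              rw [add_assoc, add_comm (Finsupp.single x 1)] at he
              exact ⟨y, z, add_right_cancel he⟩
            simp [rg1e, e1, e2, e3] at ha
    · intro Q; simp
    · intro P P' _ _ hP hP' Q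
      rw [mul_add, map_add, hP, hP', add_zero]
    · intro Q' P _ hP Q
      rw [smul_eq_mul, ← mul_assoc, hP]
  let π : MvPolynomial (Fin m) ℤ →+ S.Coh := (Ideal.Quotient.mk S.ideal).toAddMonoidHom
  have hπ : Function.Surjective π := Ideal.Quotient.mk_surjective
  have hk : π.ker ≤ (rg1d M).toAddMonoidHom.ker := by
    intro P hP
    have := key P (Ideal.Quotient.eq_zero_iff_mem.1 hP) 1
    rw [one_mul] at this
    exact this
  refine ⟨π.liftOfSurjective hπ ⟨_, hk⟩, fun a b c => ?_⟩
  have e : S.x a * S.x b * S.x c = π (monomial (rg1e a b c) 1) := by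
    have e0 : (X a * X b * X c : MvPolynomial (Fin m) ℤ) = monomial (rg1e a b c) 1 := by
      simp [X, monomial_mul, rg1e]
    simp only [SPFan.x, ← map_mul]
    rw [e0]; rfl
  rw [e, AddMonoidHom.liftOfRightInverse_comp_apply]
  change rg1d M _ = _
  rw [rg1d_mon, one_mul, rg1g_e M h1 h2]

end Pool.Agent.P.MP_33ab4b_ag.T
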