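import Pool.Agent.P.MP_33ab4b_ag.T.IfaceM
import Pool.Agent.P.MP_33ab4b_ag.T.IfaceF

/-! Step RG2. -/

set_option autoImplicit false

namespace Pool.Agent.P.MP_33ab4b_ag.T

open scoped Classical

namespace RG2x

variable {m : ℕ} (S : SPFan m)

/-- The integral determinant. -/
def dz (a b c : Fin 3 → ℤ) : ℤ :=
  a 0 * (b 1 * c 2 - b 2 * c 1) - a 1 * (b 0 * c 2 - b 2 * c 0) + a 2 * (b 0 * c 1 - b 1 * c 0)

theorem rel (i : Fin 3) : ∑ c, (S.v c i : S.Coh) * S.x c = 0 := by
  have h : Ideal.Quotient.mk S.ideal (∑ a, MvPolynomial.C (S.v a i) * MvPolynomial.X a) = 0 :=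
    Ideal.Quotient.eq_zero_iff_mem.2 (Ideal.subset_span (Or.inr ⟨i, rfl⟩))
  rw [map_sum] at h
  rw [← h]
  refine Finset.sum_congr rfl fun c _ => ?_
  rw [map_mul, eq_intCast MvPolynomial.C, map_intCast]
  rfl

theorem reld (p q : Fin 3 → ℤ) : ∑ c, (dz p q (S.v c) : S.Coh) * S.x c = 0 := by
  have e : ∑ c, (dz p q (S.v c) : S.Coh) * S.x c =
      ((p 1 * q 2 - p 2 * q 1 : ℤ) : S.Coh) * ∑ c, (S.v c 0 : S.Coh) * S.x c +
      ((p 2 * q 0 - p 0 * q 2 : ℤ) : S.Coh) * ∑ c, (S.v c 1 : S.Coh) * S.x c +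
      ((p 0 * q 1 - p 1 * q 0 : ℤ) : S.Coh) * ∑ c, (S.v c 2 : S.Coh) * S.x c := by
    simp only [Finset.mul_sum, ← Finset.sum_add_distrib]
    refine Finset.sum_congr rfl fun c _ => ?_
    simp only [dz]
    push_cast
    ring
  rw [e, rel, rel, rel]; simp

theorem sr (t : Finset (Fin m)) (h : ∀ s ∈ S.F, ¬ t ⊆ s) : ∏ a ∈ t, S.x a = 0 := by
  have h : Ideal.Quotient.mk S.ideal (∏ a ∈ t, MvPolynomial.X a) = 0 :=
    Ideal.Quotient.eq_zero_iff_mem.2 (Ideal.subset_span (Or.inl ⟨t, h, rfl⟩))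
  rw [map_prod] at h
  exact h

theorem prod3 {a b c : Fin m} (h1 : a ≠ b) (h2 : a ≠ c) (h3 : b ≠ c) :
    ∏ i ∈ ({a, b, c} : Finset (Fin m)), S.x i = S.x a * S.x b * S.x c := by
  rw [Finset.prod_insert (by simp [h1, h2]), Finset.prod_pair h3, mul_assoc]

theorem nf {a b c : Fin m} (h1 : a ≠ b) (h2 : a ≠ c) (h3 : b ≠ c)
    (h : ({a, b, c} : Finset (Fin m)) ∉ S.F) : S.x a * S.x b * S.x c = 0 := by
  rw [← prod3 S h1 h2 h3]
  refine sr S _ fun s hs hsub => h ?_
  rwa [Finset.eq_of_subset_of_card_le hsub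
    (by rw [S.card3 s hs, Finset.card_eq_three.2 ⟨a, b, c, h1, h2, h3, rfl⟩])]

variable (Φ : Fan ℚ (Fin m)) (hv : ∀ a i, Φ.v a i = (S.v a i : ℚ)) (hF : Φ.F = S.F)

include hv in
theorem dz_cast (a b c : Fin m) :
    ((dz (S.v a) (S.v b) (S.v c) : ℤ) : ℚ) = det3 (Φ.v a) (Φ.v b) (Φ.v c) := by
  simp only [dz, det3, hv]; push_cast; ring

include hv hF in
theorem wall (hW : S_WALL) {a b k l : Fin m} (hk : Φ.face a b k) (hl : Φ.face a b l) :
    S.x a * S.x b * S.x k = S.x a * S.x b * S.x l := by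
  obtain ⟨k', l', hne, fk, fl, dk, dl, hall⟩ := hW ℚ (Fin m) Φ a b hk.adj12
  have key : S.x a * S.x b * S.x k' = S.x a * S.x b * S.x l' := by
    have h := congrArg (fun y => S.x a * S.x b * y) (reld S (S.v a) (S.v b))
    simp only [Finset.mul_sum, mul_zero] at h
    rw [Finset.sum_eq_add_of_mem k' l' (Finset.mem_univ _) (Finset.mem_univ _) hne] at h
    · have e1 : dz (S.v a) (S.v b) (S.v k') = 1 := by
        have := dz_cast S Φ hv a b k'
        rw [dk] at this; exact_mod_cast this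
      have e2 : dz (S.v a) (S.v b) (S.v l') = -1 := by
        have := dz_cast S Φ hv a b l'
        rw [dl] at this; exact_mod_cast this
      rw [e1, e2] at h
      push_cast at h
      linear_combination h
    · intro c _ hc
      by_cases ha : c = a
      · have : dz (S.v a) (S.v b) (S.v c) = 0 := by rw [ha, dz]; ring
        rw [this]; simp
      by_cases hb : c = b
      · have : dz (S.v a) (S.v b) (S.v c) = 0 := by rw [hb, dz]; ring
        rw [this]; simp
      have hn : ({a, b, c} : Finset (Fin m)) ∉ S.F := fun h => by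
        rcases hall c (by rw [Fan.face, hF]; exact h) with e | e
        · exact hc.1 e
        · exact hc.2 e
      have := nf S hk.ne.1 (Ne.symm ha) (Ne.symm hb) hn
      linear_combination (dz (S.v a) (S.v b) (S.v c) : S.Coh) * this
  rcases hall k hk with rfl | rfl <;> rcases hall l hl with rfl | rfl
  · rfl
  · exact key
  · exact key.symm
  · rfl

include hv hF in
theorem faces (hW : S_WALL) (hP : S_PATH) {s0 : Finset (Fin m)} (h0 : s0 ∈ S.F) :
    ∀ s ∈ S.F, ∏ i ∈ s, S.x i = ∏ i ∈ s0, S.x i := by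
  rw [← hF] at h0 ⊢
  refine hP ℚ (Fin m) Φ (fun s => ∏ i ∈ s, S.x i = ∏ i ∈ s0, S.x i) s0
    (∑ a, (if a ∈ s0 then (1 : ℚ) else 0) • Φ.v a) h0
    ⟨fun a => if a ∈ s0 then 1 else 0, fun a ha => by simp [ha], fun a ha => by simp [ha], rfl⟩
    rfl fun a b k l hk hl _ _ hq => ?_
  rw [← hq, prod3 S hk.ne.1 hk.ne.2.1 hk.ne.2.2, prod3 S hl.ne.1 hl.ne.2.1 hl.ne.2.2]
  exact wall S Φ hv hF hW hk hl

include hv in
/-- A vertex of a face is an integral combination of the vertices outside the face. -/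
theorem elim {a b c : Fin m} (h : Φ.face a b c) :
    ∃ u : Fin m → ℤ, u a = 0 ∧ u b = 0 ∧ S.x a = ∑ d, (u d : S.Coh) * S.x d := by
  have hd : dz (S.v b) (S.v c) (S.v a) * dz (S.v b) (S.v c) (S.v a) = 1 := by
    have e := dz_cast S Φ hv b c a
    have : ((dz (S.v b) (S.v c) (S.v a) * dz (S.v b) (S.v c) (S.v a) : ℤ) : ℚ) = 1 := by
      push_cast
      rw [e]
      rcases h.rot.det with e | e <;> rw [e] <;> norm_num
    exact_mod_cast this
  refine ⟨fun d => (if d = a then 1 else 0) -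
    dz (S.v b) (S.v c) (S.v a) * dz (S.v b) (S.v c) (S.v d), by simp [hd], ?_, ?_⟩
  · have : dz (S.v b) (S.v c) (S.v b) = 0 := by rw [dz]; ring
    simp [this, h.ne.1.symm]
  · have := reld S (S.v b) (S.v c)
    simp only [Int.cast_sub, Int.cast_mul, sub_mul, Finset.sum_sub_distrib, mul_assoc,
      ← Finset.mul_sum, this, mul_zero, sub_zero]
    simp

end RG2x

open RG2x in
theorem p_RG2 (hQFAN : S_QFAN) (hWALL : S_WALL) (hPATH : S_PATH) :
    S_RG2 := by
  intro m S s hs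
  obtain ⟨Φ, hv, hF⟩ := hQFAN m S
  set G : AddSubgroup S.Coh := AddSubgroup.zmultiples (∏ i ∈ s, S.x i) with hG
  have hmul : ∀ (n : ℤ) (y : S.Coh), y ∈ G → (n : S.Coh) * y ∈ G := fun n y hy => by
    rw [← zsmul_eq_mul]; exact G.zsmul_mem hy n
  have h3 : ∀ a b c, a ≠ b → a ≠ c → b ≠ c → S.x a * S.x b * S.x c ∈ G := fun a b c h1 h2 h3 => by
    by_cases h : ({a, b, c} : Finset (Fin m)) ∈ S.F
    · rw [← prod3 S h1 h2 h3, faces S Φ hv hF hWALL hPATH hs _ h]
      exact AddSubgroup.mem_zmultiples _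
    · rw [nf S h1 h2 h3 h]; exact G.zero_mem
  have h2 : ∀ a b, a ≠ b → S.x a * S.x a * S.x b ∈ G := fun a b hab => by
    by_cases h : Φ.adj a b
    · obtain ⟨c, hc⟩ := h.exists_face
      obtain ⟨u, ua, ub, hu⟩ := elim S Φ hv hc
      have e : S.x a * S.x a * S.x b = ∑ d, (u d : S.Coh) * (S.x a * S.x b * S.x d) := by
        nth_rewrite 1 [hu]
        rw [Finset.sum_mul, Finset.sum_mul]
        exact Finset.sum_congr rfl fun d _ => by ring
      rw [e]
      refine sum_mem fun d _ => ?_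
      by_cases ha : d = a
      · rw [ha, ua]; simp
      by_cases hb : d = b
      · rw [hb, ub]; simp
      exact hmul _ _ (h3 a b d hab (Ne.symm ha) (Ne.symm hb))
    · have := sr S {a, b} fun t ht hsub => h ⟨hab, t, by rw [hF]; exact ht,
        hsub (by simp), hsub (by simp)⟩
      rw [Finset.prod_pair hab] at this
      rw [mul_assoc, this, mul_zero]; exact G.zero_mem
  have h1 : ∀ a, S.x a * S.x a * S.x a ∈ G := fun a => by
    obtain ⟨t, ht, hat⟩ := Φ.used a
    obtain ⟨b, c, -, hc⟩ := Fan.exists_face_of_mem ht hat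
    obtain ⟨u, ua, -, hu⟩ := elim S Φ hv hc
    have e : S.x a * S.x a * S.x a = ∑ d, (u d : S.Coh) * (S.x a * S.x a * S.x d) := by
      nth_rewrite 1 [hu]
      rw [Finset.sum_mul, Finset.sum_mul]
      exact Finset.sum_congr rfl fun d _ => by ring
    rw [e]
    refine sum_mem fun d _ => ?_
    by_cases ha : d = a
    · rw [ha, ua]; simp
    exact hmul _ _ (h2 a d (Ne.symm ha))
  intro a b c
  have : S.x a * S.x b * S.x c ∈ G := by
    by_cases hab : a = b
    · subst hab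
      by_cases hac : a = c
      · subst hac; exact h1 a
      · exact h2 a c hac
    by_cases hac : a = c
    · subst hac
      rw [mul_right_comm]; exact h2 a b hab
    by_cases hbc : b = c
    · subst hbc
      rw [show S.x a * S.x b * S.x b = S.x b * S.x b * S.x a by ring]
      exact h2 b a (Ne.symm hab)
    exact h3 a b c hab hac hbc
  obtain ⟨n, hn⟩ := AddSubgroup.mem_zmultiples_iff.1 this
  exact ⟨n, hn.symm⟩

end Pool.Agent.P.MP_33ab4b_ag.T
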