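import Pool.Agent.P.MP_33ab4b_ag.T.IfaceM

/-! The linear relations between the divisor classes in the cohomology ring. -/

set_option autoImplicit false

namespace Pool.Agent.P.MP_33ab4b_ag.T

open scoped Classical
open MvPolynomial

theorem rg3_two {m : ℕ} (S : SPFan m) (t : Finset (Fin m)) (ht : ∀ s ∈ S.F, ¬ t ⊆ s) :
    ∃ b c, b ≠ c ∧ b ∈ t ∧ c ∈ t := by
  obtain ⟨s0, hs0, -⟩ := S.cover 0
  have h1 : t.Nonempty := by
    rw [Finset.nonempty_iff_ne_empty]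
    rintro rfl
    exact ht s0 hs0 (Finset.empty_subset _)
  obtain ⟨b, hb⟩ := h1
  obtain ⟨s, hs, hbs⟩ := S.used b
  obtain ⟨c, hc, hcs⟩ := Finset.not_subset.1 (ht s hs)
  exact ⟨b, c, fun h => hcs (h ▸ hbs), hb, hc⟩

theorem rg3_lin {m : ℕ} (S : SPFan m) (i : Fin 3) : ∑ a, S.v a i • S.x a = 0 := by
  have h : (∑ a, C (S.v a i) * X a : MvPolynomial (Fin m) ℤ) ∈ S.ideal :=
    Ideal.subset_span (Or.inr ⟨i, rfl⟩)
  have h2 := Ideal.Quotient.eq_zero_iff_mem.2 h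
  rw [map_sum] at h2
  rw [← h2]
  refine Finset.sum_congr rfl fun a _ => ?_
  rw [map_mul, zsmul_eq_mul, SPFan.x]
  simp

theorem rg3_lin' {m : ℕ} (S : SPFan m) (u : Fin 3 → ℤ) : ∑ a, (u ⬝ᵥ S.v a) • S.x a = 0 := by
  simp only [dotProduct, Finset.sum_smul, mul_smul]
  rw [Finset.sum_comm]
  refine Finset.sum_eq_zero fun i _ => ?_
  rw [← Finset.smul_sum, rg3_lin, smul_zero]

theorem rg3_mem {m : ℕ} (S : SPFan m) (P : MvPolynomial (Fin m) ℤ) (hP : P ∈ S.ideal) :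
    constantCoeff P = 0 ∧ ∃ u : Fin 3 → ℤ, ∀ a, constantCoeff (pderiv a P) = u ⬝ᵥ S.v a := by
  refine Submodule.span_induction (p := fun P _ => constantCoeff P = 0 ∧
    ∃ u : Fin 3 → ℤ, ∀ a, constantCoeff (pderiv a P) = u ⬝ᵥ S.v a) ?_ ?_ ?_ ?_ hP
  · rintro P (⟨t, ht, rfl⟩ | ⟨i, rfl⟩)
    · obtain ⟨b, c, hbc, hb, hc⟩ := rg3_two S t ht
      have hc' : c ∈ t.erase b := Finset.mem_erase.2 ⟨hbc.symm, hc⟩
      rw [← Finset.mul_prod_erase _ _ hb, ← Finset.mul_prod_erase _ _ hc']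
      refine ⟨by simp, 0, fun a => ?_⟩
      simp [Derivation.leibniz]
    · refine ⟨by simp, Pi.single i 1, fun a => ?_⟩
      simp [Derivation.leibniz, pderiv_X, Pi.single_apply, apply_ite]
  · exact ⟨by simp, 0, fun a => by simp⟩
  · rintro P Q - - ⟨hP0, u, hu⟩ ⟨hQ0, w, hw⟩
    exact ⟨by simp [hP0, hQ0], u + w, fun a => by simp [hu, hw]⟩
  · rintro Q P - ⟨hP0, u, hu⟩
    refine ⟨by simp [hP0], constantCoeff Q • u, fun a => ?_⟩
    rw [smul_dotProduct]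
    simp [Derivation.leibniz, hP0, hu]

theorem p_RG3 : S_RG3 := by
  intro m S y
  constructor
  · intro h
    have h1 : (∑ a, C (y a) * X a : MvPolynomial (Fin m) ℤ) ∈ S.ideal := by
      rw [← Ideal.Quotient.eq_zero_iff_mem, map_sum, ← h]
      refine Finset.sum_congr rfl fun a _ => ?_
      rw [map_mul, zsmul_eq_mul, SPFan.x]
      simp
    obtain ⟨-, u, hu⟩ := rg3_mem S _ h1
    refine ⟨u, fun a => ?_⟩
    rw [← hu a]
    simp [Derivation.leibniz, pderiv_X, Pi.single_apply, apply_ite]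
  · rintro ⟨u, hu⟩
    simp only [hu]
    exact rg3_lin' S u

end Pool.Agent.P.MP_33ab4b_ag.T
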