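import Pool.Agent.P.MP_33ab4b_ag.T.IfaceT
import Pool.Agent.P.MP_33ab4b_ag.T.IfaceA
import Pool.Agent.P.MP_33ab4b_ag.T.IfaceF

/-! Step RHO1. -/

set_option autoImplicit false
set_option linter.unusedSectionVars false

namespace Pool.Agent.P.MP_33ab4b_ag.T

open scoped Classical

namespace RHO1x

variable {K V I : Type} [Field K] [LinearOrder K] [IsStrictOrderedRing K] [Fintype V]
  [DecidableEq V] [Fintype I] [DecidableEq I] {P : HP K V I}

/-- The intersection numbers in the case of three half planes. -/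
structure Dat (T : TAG P) where
  b : I → K
  t : K
  k0 : ℚ
  dl : ℚ
  g : V → ℚ
  k0ne : k0 ≠ 0
  gne : ∀ j ∈ T.J, g j ≠ 0
  bne : b ≠ 0
  bB : b ∈ T.B
  Bsp : ∀ x ∈ T.B, ∃ r : K, x = r • b
  phi : T.Phi = t • b
  F1 : ∀ y ∈ T.C, Std (P.m3 (T.up y) (T.up y) y + t * ((g (T.ch y) : K) * T.be (T.ch y) y))
  F2 : ∀ y ∈ T.C, Std (P.m3 y y (T.up y) - t * ((g (T.ch y) : K) * T.be (T.ch y) (T.up y)))
  F3 : ∀ y ∈ T.C, Std (P.m3 (T.dn y) (T.dn y) y - t * ((g (T.ch y) : K) * T.be (T.ch y) y))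
  F4 : ∀ y ∈ T.C, Std (P.m3 y y (T.dn y) + t * ((g (T.ch y) : K) * T.be (T.ch y) (T.dn y)))
  F5 : ∀ y ∈ T.C, Std (P.m3 y y y - t * ((g (T.ch y) : K) *
    ((T.be (T.ch y) (T.dn y) : K) ^ 2 - (T.be (T.ch y) (T.up y) : K) ^ 2) / T.be (T.ch y) y))
  FN : Std (P.m3 T.N T.N T.N - t ^ 2 * k0)
  FS : Std (P.m3 T.S T.S T.S - t ^ 2 * k0 - t * (2 * dl * k0))

theorem three (T : TAG P) (h3 : T.J.card = 3) {j : V} (hj : j ∈ T.J) :
    T.nx j ≠ j ∧ T.pv j ≠ j ∧ T.nx j ≠ T.pv j ∧ T.J = {j, T.nx j, T.pv j} ∧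
      T.nx (T.nx j) = T.pv j := by
  have key : ∀ j ∈ T.J, T.nx j ≠ j ∧ T.pv j ≠ j ∧ T.nx j ≠ T.pv j := by
    intro j hj
    obtain ⟨h1, h2, h3, h4⟩ := T.cyc.mem j hj
    have p1 := T.cyc.pos j hj
    have p2 := T.cyc.pos _ h2
    rw [h4] at p2
    refine ⟨fun e => ?_, fun e => ?_, fun e => ?_⟩
    · rw [e] at p1; simp at p1
    · rw [e] at p2; simp at p2
    · rw [e, det3_swap23] at p1; linarith
  obtain ⟨h1, h2, h4, h5⟩ := T.cyc.mem j hj
  obtain ⟨a1, a2, a3⟩ := key j hj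
  have hJ : T.J = {j, T.nx j, T.pv j} := by
    symm
    apply Finset.eq_of_subset_of_card_le
    · intro x hx
      simp only [Finset.mem_insert, Finset.mem_singleton] at hx
      rcases hx with rfl | rfl | rfl <;> assumption
    · rw [h3, Finset.card_eq_three.mpr ⟨_, _, _, a1.symm, a2.symm, a3, rfl⟩]
  refine ⟨a1, a2, a3, hJ, ?_⟩
  obtain ⟨b1, b2, b3⟩ := key _ h1
  have := (T.cyc.mem _ h1).1
  rw [hJ] at this
  simp only [Finset.mem_insert, Finset.mem_singleton] at this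
  rcases this with e | e | e
  · rw [h4] at b3; exact absurd e b3
  · exact absurd e b1
  · exact e

theorem om_pos (T : TAG P) {j : V} (hj : j ∈ T.J) : 0 < T.om j := by
  have := T.cyc.pos j hj
  rw [T.omdef j hj] at this
  exact_mod_cast this

theorem tent (T : TAG P) (A : TAA T) (h3 : T.J.card = 3) {j : V} (hj : j ∈ T.J) :
    (T.om j : K) • T.Bj (T.nx j) = (T.om (T.pv j) : K) • T.Bj (T.pv j) := by
  obtain ⟨a1, a2, a3, hJ, _⟩ := three T h3 hj
  obtain ⟨_, h2, _, h5⟩ := T.cyc.mem j hj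
  have := A.Brel (detL (P.v T.N) (P.v j)) (by simp)
  have e2 := T.omdef _ h2
  rw [h5] at e2
  rw [hJ, Finset.sum_insert (by simp [a1.symm, a2.symm]), Finset.sum_pair a3] at this
  simp only [detL_apply, det3_self23, zero_smul, zero_add] at this
  rw [T.omdef j hj, det3_swap23, e2, neg_smul] at this
  exact eq_of_sub_eq_zero (by rw [sub_eq_add_neg]; exact this)

theorem exists_dat (hMW : S_MW) (T : TAG P) (A : TAA T) (h3 : T.J.card = 3) :
    Nonempty (Dat T) := by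
  obtain ⟨j0, hj0⟩ := T.cyc.ne
  set b : I → K := ((T.om (T.nx j0) : K))⁻¹ • T.Bj j0 with hb
  have hne : ∀ j ∈ T.J, (T.om j : K) ≠ 0 := fun j hj => by
    exact_mod_cast (om_pos T hj).ne'
  have hB : ∀ k ∈ T.J, T.Bj k = (T.om (T.nx k) : K) • b := by
    refine T.cyc.orb _ j0 hj0 ?_ ?_
    · rw [hb, smul_smul, mul_inv_cancel₀ (hne _ (T.cyc.mem _ hj0).1), one_smul]
    · intro k hk ih
      obtain ⟨h1, h2, h4, h5⟩ := T.cyc.mem k hk
      have e := tent T A h3 h2
      obtain ⟨_, _, _, _, e1⟩ := three T h3 hk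
      have e2 : T.pv (T.pv k) = T.nx k := by rw [← e1, (T.cyc.mem _ h1).2.2.1]
      rw [h5, e2, ih, smul_smul, mul_comm, ← smul_smul] at e
      rw [e1]
      exact (smul_right_injective _ (hne _ h1) e).symm
  have hq : ∀ (r s : K) (x y : I → K), T.q (r • x) (s • y) = r * s * T.q x y := by
    intro r s x y; simp [TAG.q]; ring
  obtain ⟨h1, h2, h4, h5⟩ := T.cyc.mem j0 hj0
  have h11 := (T.cyc.mem _ h1).1
  set k0 : ℚ := 1 / (T.om j0 * T.om (T.nx j0) * T.om (T.nx (T.nx j0))) with hk0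
  have hk : T.q b b = k0 := by
    have := A.qnx j0 hj0
    rw [hB _ hj0, hB _ h1, hq] at this
    have a := hne _ hj0; have a' := hne _ h1; have a'' := hne _ h11
    rw [hk0]; push_cast; field_simp at this ⊢; linear_combination this
  have k0ne : k0 ≠ 0 := by
    have a := om_pos T hj0; have a' := om_pos T h1; have a'' := om_pos T h11
    rw [hk0]; positivity
  have Bsp : ∀ x ∈ T.B, ∃ r : K, x = r • b := by
    intro x hx
    have : T.B ≤ Submodule.span K {b} := by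
      refine Submodule.span_le.mpr ?_
      rintro _ ⟨k, hk, rfl⟩
      rw [hB k hk]
      exact Submodule.smul_mem _ _ (Submodule.mem_span_singleton_self b)
    obtain ⟨r, hr⟩ := Submodule.mem_span_singleton.mp (this hx)
    exact ⟨r, hr.symm⟩
  obtain ⟨t, ht⟩ := Bsp _ A.PhiB
  obtain ⟨M1, M2, M3⟩ := hMW K V I P T A
  have q1 : ∀ y ∈ T.C, T.q T.Phi (T.Bj (T.ch y)) = t * ((T.om (T.nx (T.ch y)) * k0 : ℚ) : K) := by
    intro y hy; rw [ht, hB _ (T.chJ y hy), hq, hk]; push_cast; ring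
  have q2 : ∀ y ∈ T.C, Std (T.q (T.Bj (T.ch y)) (T.Bj (T.ch y))) := by
    intro y hy; rw [hB _ (T.chJ y hy), hq, hk]
    exact ((Std.rat _).mul (Std.rat _)).mul (Std.rat _)
  have G2 : ∀ y ∈ T.C, Std (P.m3 y y (T.up y) -
      t * (((T.om (T.nx (T.ch y)) * k0 : ℚ) : K) * T.be (T.ch y) (T.up y))) := fun y hy =>
    ((M1 y hy).2.1.add ((Std.rat (T.et (T.up y))).mul (q2 y hy))).of_eq (by rw [q1 y hy]; ring)
  have G4 : ∀ y ∈ T.C, Std (P.m3 y y (T.dn y) +
      t * (((T.om (T.nx (T.ch y)) * k0 : ℚ) : K) * T.be (T.ch y) (T.dn y))) := fun y hy =>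
    ((M1 y hy).2.2.2.1.sub ((Std.rat (T.et (T.dn y))).mul (q2 y hy))).of_eq (by rw [q1 y hy]; ring)
  set dl : ℚ := ∑ j ∈ T.J, T.et (T.bot j) * T.om (T.nx j) with hdl
  have hsum : T.Phi + ∑ j ∈ T.J, (T.et (T.bot j) : K) • T.Bj j = (t + dl) • b := by
    rw [ht, add_smul, hdl]
    push_cast
    rw [Finset.sum_smul]
    congr 1
    exact Finset.sum_congr rfl fun j hj => by rw [hB j hj, smul_smul]
  refine ⟨⟨b, t, k0, dl, fun j => T.om (T.nx j) * k0, k0ne, fun j hj => ?_, ?_, ?_, Bsp, ht,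
    fun y hy => ?_, G2, fun y hy => ?_, G4, fun y hy => ?_, ?_, ?_⟩⟩
  · exact mul_ne_zero (om_pos T (T.cyc.mem _ hj).1).ne' k0ne
  · intro e
    rw [e] at hk
    apply k0ne
    have : ((k0 : ℚ) : K) = 0 := by rw [← hk]; simp [TAG.q]
    exact_mod_cast this
  · exact Submodule.smul_mem _ _ (Submodule.subset_span ⟨j0, hj0, rfl⟩)
  · exact ((M1 y hy).1.sub ((Std.rat (T.et y)).mul (q2 y hy))).of_eq (by rw [q1 y hy]; ring)
  · exact ((M1 y hy).2.2.1.add ((Std.rat (T.et y)).mul (q2 y hy))).of_eq (by rw [q1 y hy]; ring)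
  · have n0 : (T.be (T.ch y) y : K) ≠ 0 := by exact_mod_cast (T.beC y hy).1.ne'
    refine (((((M1 y hy).2.2.2.2.sub ((Std.rat (T.cy y)).mul (q2 y hy))).sub
      ((Std.rat (T.be (T.ch y) (T.up y))).mul (G2 y hy))).sub
      ((Std.rat (T.be (T.ch y) (T.dn y))).mul (G4 y hy))).div
      (Std.rat (T.be (T.ch y) y))).of_eq ?_
    field_simp
    ring
  · exact M2.of_eq (by rw [ht, hq, hk]; ring)
  · rw [hsum, hq, hk] at M3
    exact (M3.add (((Std.rat dl).mul (Std.rat dl)).mul (Std.rat k0))).of_eq (by ring)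

theorem m3_nadj {a c : V} (h : a ≠ c) (h' : ¬ P.adj a c) : P.m3 a a c = 0 := P.nadj h h' _

theorem lin2 {T : TAG P} (D : Dat T) {a c : V} (h : a ≠ c) :
    ∃ α : K, Std α ∧ Std (P.m3 a a c - D.t * α) := by
  by_cases h1 : P.adj a c
  swap
  · exact ⟨0, Std.zero, by rw [m3_nadj h h1]; simpa using Std.zero⟩
  by_cases h2 : (a ∈ T.C ∧ (c = T.up a ∨ c = T.dn a)) ∨ (c ∈ T.C ∧ (a = T.up c ∨ a = T.dn c))
  swap
  · exact ⟨0, Std.zero, by simpa using T.stdw a c h1 h2⟩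
  rcases h2 with ⟨h3, rfl | rfl⟩ | ⟨h3, rfl | rfl⟩
  · exact ⟨_, (Std.rat _).mul (Std.rat _), D.F2 a h3⟩
  · exact ⟨_, ((Std.rat _).mul (Std.rat _)).neg, (D.F4 a h3).of_eq (by rw [mul_neg, sub_neg_eq_add])⟩
  · exact ⟨_, ((Std.rat _).mul (Std.rat _)).neg, (D.F1 c h3).of_eq (by rw [mul_neg, sub_neg_eq_add])⟩
  · exact ⟨_, (Std.rat _).mul (Std.rat _), D.F3 c h3⟩

theorem std_sq (q : ℚ) : Std ((q : K) ^ 2) := ⟨q ^ 2, by simp⟩

theorem lin3 {T : TAG P} (D : Dat T) (a : V) :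
    ∃ α β : K, Std α ∧ Std β ∧ Std (P.m3 a a a - D.t ^ 2 * α - D.t * β) := by
  rcases T.part a with rfl | rfl | h | h
  · exact ⟨_, 0, Std.rat _, Std.zero, D.FN.of_eq (by ring)⟩
  · exact ⟨_, _, Std.rat _, ⟨2 * D.dl * D.k0, by push_cast; rfl⟩, D.FS⟩
  · exact ⟨0, _, Std.zero, ((Std.rat _).mul ((std_sq _).sub (std_sq _))).div (Std.rat _),
      (D.F5 a h).of_eq (by rw [mul_zero, sub_zero])⟩
  · exact ⟨0, 0, Std.zero, Std.zero, (T.stdT a h).of_eq (by ring)⟩

theorem fin_of_fi (hWREL : S_WREL) {T : TAG P} (D : Dat T) (ht : Fi D.t) : P.FIN := by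
  have key : ∀ a c, a ≠ c → Fi (P.m3 a a c) := fun a c h => by
    obtain ⟨α, h1, h2⟩ := lin2 D h
    exact (h2.fi.add (ht.mul h1.fi)).of_eq (by ring)
  intro a b
  by_cases h : P.adj a b
  · refine ((hWREL K V I P).2.2.2 a b h).mpr ⟨key a b h.1, ?_⟩
    exact (key b a h.1.symm).of_eq (P.mu13 _ _ _)
  · intro k l hk _
    exact absurd hk.adj12 h

theorem bo_m3 {T : TAG P} (D : Dat T) (ht : ¬ Fi D.t) (a c : V) : BO (P.m3 a a c) (D.t ^ 2) := by
  have h1 : 1 ≤ |D.t| := by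
    by_contra h
    exact ht ⟨1, by push_cast; exact (not_le.mp h).le⟩
  have b1 : BO (1 : K) (D.t ^ 2) := BO.of_abs_le (by
    rw [abs_pow, abs_one]; nlinarith)
  have bt : BO D.t (D.t ^ 2) := BO.of_abs_le (by rw [abs_pow]; nlinarith)
  have bs : ∀ x : K, Std x → BO x (D.t ^ 2) := fun x hx => (b1.fi_mul hx.fi).of_eq (by ring)
  by_cases h : a = c
  · subst h
    obtain ⟨α, β, h1, h2, h3⟩ := lin3 D a
    exact (((bs _ h3).add ((BO.refl _).mul_fi h1.fi)).add (bt.mul_fi h2.fi)).of_eq (by ring)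
  · obtain ⟨α, h1, h2⟩ := lin2 D h
    exact ((bs _ h2).add (bt.mul_fi h1.fi)).of_eq (by ring)

/-! ### Chains -/

theorem SC (T : TAG P) : T.N ∉ T.J ∧ T.S ∉ T.J :=
  ⟨fun h => T.NC.1 (T.JC _ h).1, fun h => T.NC.2.1 (T.JC _ h).1⟩

theorem up_of (T : TAG P) {u : V} (hu : u ∈ T.C) (hJ : u ∉ T.J) :
    T.up u ∈ T.C ∧ T.ch (T.up u) = T.ch u ∧ T.dn (T.up u) = u ∧ u ≠ T.up u ∧
      (T.be (T.ch u) u : K) ≠ 0 ∧ (T.be (T.ch u) (T.up u) : K) ≠ 0 ∧ T.up (T.up u) ≠ u := by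
  obtain ⟨h1, h2⟩ := T.upC u hu
  rcases h2 with h2 | ⟨h2, h3, h4⟩
  · exact absurd (((T.upN u hu).mp h2) ▸ T.chJ u hu) hJ
  refine ⟨h2, h3, h4, h1.1, by exact_mod_cast (T.beC u hu).1.ne', ?_, fun e => ?_⟩
  · have := (T.beC _ h2).1.ne'
    rw [h3] at this
    exact_mod_cast this
  · have e1 := T.detup u hu
    have e2 := T.detup _ h2
    rw [e, h3] at e2
    linarith

theorem dn_of (T : TAG P) {y : V} (hy : y ∈ T.C) (h : T.dn y ≠ T.S) :
    T.dn y ∈ T.C ∧ T.dn y ∉ T.J ∧ T.up (T.dn y) = y ∧ T.ch (T.dn y) = T.ch y := by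
  rcases (T.dnC y hy).2 with h2 | ⟨h2, h3, h4⟩
  · exact absurd h2 h
  refine ⟨h2, fun hJ => ?_, h4, h3⟩
  have := (T.upN _ h2).mpr (T.JC _ hJ).2.symm
  rw [h4] at this
  exact T.NC.1 (this ▸ hy)

def ind (a c : V) : K := if a = c then 1 else 0

theorem ind_self (a : V) : ind a a = (1 : K) := if_pos rfl
theorem ind_ne {a c : V} (h : a ≠ c) : ind a c = (0 : K) := if_neg h
theorem ind_std (a c : V) : Std (ind a c : K) := by
  unfold ind; split_ifs; exacts [Std.one, Std.zero]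

def sv (T : TAG P) (u a : V) : K :=
  (T.be (T.ch u) u : K) * ind a (T.up u) - (T.be (T.ch u) (T.up u) : K) * ind a u

def kap {T : TAG P} (D : Dat T) (u : V) : K :=
  (D.g (T.ch u) : K) / ((T.be (T.ch u) u : K) * T.be (T.ch u) (T.up u))

def Uv (T : TAG P) : Finset V := T.C.filter (fun a => a ∉ T.J)

def Gv {T : TAG P} (D : Dat T) (a a' a'' : V) : K :=
  ∑ u ∈ Uv T, kap D u * sv T u a * sv T u a' * sv T u a''

def lv {T : TAG P} (D : Dat T) (a : V) : K :=
  ∑ j ∈ T.J, (D.g j : K) * ind a (T.bot j) + (2 * D.dl * D.k0 / 3 : K) * ind a T.S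

def m1v {T : TAG P} (D : Dat T) (a a' a'' : V) : K :=
  Gv D a a' a'' + (ind a T.S * ind a' T.S * lv D a'' + ind a T.S * lv D a' * ind a'' T.S +
    lv D a * ind a' T.S * ind a'' T.S)

def m2v {T : TAG P} (D : Dat T) (a a' a'' : V) : K :=
  (D.k0 : K) * (ind a T.N * ind a' T.N * ind a'' T.N + ind a T.S * ind a' T.S * ind a'' T.S)

theorem sv_std (T : TAG P) (u a : V) : Std (sv T u a) :=
  ((Std.rat _).mul (ind_std _ _)).sub ((Std.rat _).mul (ind_std _ _))

theorem kap_std {T : TAG P} (D : Dat T) (u : V) : Std (kap D u) :=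
  (Std.rat _).div ((Std.rat _).mul (Std.rat _))

theorem lv_std {T : TAG P} (D : Dat T) (a : V) : Std (lv D a) :=
  (Std.sum _ fun _ _ => (Std.rat _).mul (ind_std _ _)).add
    (Std.mul ⟨2 * D.dl * D.k0 / 3, by push_cast; rfl⟩ (ind_std _ _))

theorem m1v_std {T : TAG P} (D : Dat T) (a a' a'' : V) : Std (m1v D a a' a'') :=
  (Std.sum _ fun _ _ => (((kap_std D _).mul (sv_std T _ _)).mul (sv_std T _ _)).mul
    (sv_std T _ _)).add (((((ind_std _ _).mul (ind_std _ _)).mul (lv_std D _)).add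
    (((ind_std _ _).mul (lv_std D _)).mul (ind_std _ _))).add
    (((lv_std D _).mul (ind_std _ _)).mul (ind_std _ _)))

theorem m2v_std {T : TAG P} (D : Dat T) (a a' a'' : V) : Std (m2v D a a' a'') :=
  (Std.rat _).mul ((((ind_std _ _).mul (ind_std _ _)).mul (ind_std _ _)).add
    (((ind_std _ _).mul (ind_std _ _)).mul (ind_std _ _)))

theorem sv_zero (T : TAG P) {u a : V} (h : a ≠ T.up u) (h' : a ≠ u) : sv T u a = 0 := by
  simp [sv, ind_ne h, ind_ne h']

theorem sv_out (T : TAG P) {u a : V} (hu : u ∈ Uv T) (h : a ∉ T.C) : sv T u a = 0 := by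
  obtain ⟨h1, h2⟩ := Finset.mem_filter.mp hu
  exact sv_zero T (fun e => h (e ▸ (up_of T h1 h2).1)) (fun e => h (e ▸ h1))

theorem Gv_out {T : TAG P} (D : Dat T) {a : V} (h : a ∉ T.C) (a' a'' : V) : Gv D a a' a'' = 0 :=
  Finset.sum_eq_zero fun u hu => by simp [sv_out T hu h]

theorem Gv_dist {T : TAG P} (D : Dat T) {a a' a'' : V} (h1 : a ≠ a') (h2 : a ≠ a'')
    (h3 : a' ≠ a'') : Gv D a a' a'' = 0 := by
  refine Finset.sum_eq_zero fun u _ => ?_
  have : (a ≠ T.up u ∧ a ≠ u) ∨ (a' ≠ T.up u ∧ a' ≠ u) ∨ (a'' ≠ T.up u ∧ a'' ≠ u) := by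
    by_contra hc
    simp only [not_or, not_and_or, not_not] at hc
    obtain ⟨c1 | c1, c2 | c2, c3 | c3⟩ := hc <;> simp_all
  rcases this with h | h | h <;> simp [sv_zero T h.1 h.2]

theorem Gv_two {T : TAG P} (D : Dat T) {a c : V} (h : a ≠ c) : Gv D a a c =
    (if a ∈ Uv T ∧ c = T.up a then (D.g (T.ch a) : K) * T.be (T.ch a) (T.up a) else 0) -
      if c ∈ Uv T ∧ a = T.up c then (D.g (T.ch c) : K) * T.be (T.ch c) c else 0 := by
  have : ∀ u ∈ Uv T, kap D u * sv T u a * sv T u a * sv T u c =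
      (if a = u then (if c = T.up u then (D.g (T.ch u) : K) * T.be (T.ch u) (T.up u) else 0)
        else 0) - if c = u then (if a = T.up u then (D.g (T.ch u) : K) * T.be (T.ch u) u else 0)
        else 0 := by
    intro u hu
    obtain ⟨h1, h2⟩ := Finset.mem_filter.mp hu
    obtain ⟨_, _, _, b4, b5, b6, _⟩ := up_of T h1 h2
    by_cases e1 : a = u
    · subst e1
      by_cases e2 : c = T.up a
      · subst e2
        simp only [sv, kap, ind_self, ind_ne b4, ind_ne b4.symm, if_true, if_neg b4.symm]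
        field_simp
        ring
      · simp [sv_zero T e2 h.symm, e2, h.symm]
    · by_cases e2 : a = T.up u
      · subst e2
        by_cases e3 : c = u
        · subst e3
          simp only [sv, kap, ind_self, ind_ne b4, ind_ne b4.symm, if_true, if_neg b4.symm]
          field_simp
          ring
        · simp [sv_zero T h.symm e3, e1, e3]
      · simp [sv_zero T e2 e1, e1, e2]
  rw [Gv, Finset.sum_congr rfl this, Finset.sum_sub_distrib, Finset.sum_ite_eq, Finset.sum_ite_eq]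
  simp only [ite_and]

theorem Gv_three {T : TAG P} (D : Dat T) {y : V} (hy : y ∈ T.C) (hJ : y ∉ T.J) : Gv D y y y =
    (D.g (T.ch y) : K) * ((T.be (T.ch y) (T.dn y) : K) ^ 2 - (T.be (T.ch y) (T.up y) : K) ^ 2) /
      T.be (T.ch y) y := by
  have : ∀ u ∈ Uv T, kap D u * sv T u y * sv T u y * sv T u y =
      (if T.dn y = u then (D.g (T.ch y) : K) * (T.be (T.ch y) u : K) ^ 2 / T.be (T.ch y) y else 0)
        - if y = u then (D.g (T.ch y) : K) * (T.be (T.ch y) (T.up y) : K) ^ 2 / T.be (T.ch y) y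
        else 0 := by
    intro u hu
    obtain ⟨h1, h2⟩ := Finset.mem_filter.mp hu
    obtain ⟨_, b2, b3, b4, b5, b6, _⟩ := up_of T h1 h2
    by_cases e1 : y = u
    · subst e1
      simp only [sv, kap, ind_self, ind_ne b4, if_true, if_neg (T.dnC y hy).1.1.symm]
      field_simp
      ring
    · by_cases e2 : y = T.up u
      · subst e2
        simp only [sv, kap, ind_self, ind_ne b4.symm, b2, b3, if_true, if_neg b4.symm]
        field_simp
        ring
      · have : T.dn y ≠ u := by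
          rintro rfl
          exact e2 (dn_of T hy (fun e => T.NC.2.1 (e ▸ h1))).2.2.1.symm
        simp [sv_zero T e2 e1, e1, this]
  rw [Gv, Finset.sum_congr rfl this, Finset.sum_sub_distrib, Finset.sum_ite_eq, Finset.sum_ite_eq,
    if_pos (show y ∈ Uv T from Finset.mem_filter.mpr ⟨hy, hJ⟩)]
  by_cases h : T.dn y = T.S
  · rw [if_neg (show T.dn y ∉ Uv T from fun e => T.NC.2.1 (h ▸ (Finset.mem_filter.mp e).1)), h,
      (T.beN _).2]
    push_cast
    ring
  · obtain ⟨c1, c2, _⟩ := dn_of T hy h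
    rw [if_pos (show T.dn y ∈ Uv T from Finset.mem_filter.mpr ⟨c1, c2⟩)]
    ring

theorem lv_eq {T : TAG P} (D : Dat T) {c : V} (h : c ≠ T.S) :
    lv D c = if c ∈ T.C ∧ T.S = T.dn c then (D.g (T.ch c) : K) else 0 := by
  rw [lv, ind_ne h, mul_zero, add_zero]
  split_ifs with h1
  · rw [Finset.sum_eq_single (T.ch c)]
    · rw [← T.dnS c h1.1 h1.2.symm, ind_self, mul_one]
    · intro j hj e
      rw [ind_ne, mul_zero]
      rintro rfl
      exact e (T.botC j hj).2.1.symm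
    · intro e; exact absurd (T.chJ c h1.1) e
  · refine Finset.sum_eq_zero fun j hj => ?_
    rw [ind_ne, mul_zero]
    rintro rfl
    exact h1 ⟨(T.botC j hj).1, (T.botC j hj).2.2.1.symm⟩

theorem lv_S {T : TAG P} (D : Dat T) : lv D T.S = 2 * D.dl * D.k0 / 3 := by
  rw [lv, ind_self, mul_one, Finset.sum_eq_zero, zero_add]
  intro j hj
  rw [ind_ne, mul_zero]
  exact fun e => T.NC.2.1 (e ▸ (T.botC j hj).1)

def Rv {T : TAG P} (D : Dat T) (a a' a'' : V) : K :=
  P.m3 a a' a'' - D.t ^ 2 * m2v D a a' a'' - D.t * m1v D a a' a''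

theorem Rv12 {T : TAG P} (D : Dat T) (a a' a'' : V) : Rv D a a' a'' = Rv D a' a a'' := by
  have : Gv D a a' a'' = Gv D a' a a'' := Finset.sum_congr rfl fun _ _ => by ring
  simp only [Rv, m1v, m2v, HP.m3, this, P.mu12 (P.D a)]
  ring

theorem Rv23 {T : TAG P} (D : Dat T) (a a' a'' : V) : Rv D a a' a'' = Rv D a a'' a' := by
  have : Gv D a a' a'' = Gv D a a'' a' := Finset.sum_congr rfl fun _ _ => by ring
  simp only [Rv, m1v, m2v, HP.m3, this, P.mu23 (P.D a) (P.D a')]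
  ring

theorem Rv_two {T : TAG P} (D : Dat T) {a c : V} (h : a ≠ c) (ha : a ∉ T.J) (hc : c ∉ T.J) :
    Std (Rv D a a c) := by
  have z : ∀ x : V, (ind a x * ind c x : K) = 0 := fun x => by
    by_cases e : a = x
    · rw [ind_ne (fun e' => h (e.trans e'.symm)), mul_zero]
    · rw [ind_ne e, zero_mul]
  have e2 : m2v D a a c = 0 := by
    rw [m2v, mul_assoc, z, mul_assoc, z]; simp
  have e1 : m1v D a a c = Gv D a a c + ind a T.S * lv D c := by
    have : (ind a T.S * ind a T.S : K) = ind a T.S := by unfold ind; split_ifs <;> simp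
    rw [m1v, this]
    linear_combination (2 * lv D a) * z T.S
  rw [Rv, e2, e1, Gv_two D h, mul_zero, sub_zero]
  by_cases c1 : a ∈ Uv T ∧ c = T.up a
  · obtain ⟨h1, rfl⟩ := c1
    have h2 := (Finset.mem_filter.mp h1).1
    rw [if_pos ⟨h1, rfl⟩, if_neg (fun e => (up_of T h2 ha).2.2.2.2.2.2 e.2.symm),
      ind_ne (show a ≠ T.S from fun e => T.NC.2.1 (e ▸ h2))]
    exact (D.F2 a h2).of_eq (by ring)
  rw [if_neg c1]
  by_cases c2 : c ∈ Uv T ∧ a = T.up c
  · obtain ⟨h1, rfl⟩ := c2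
    have h2 := (Finset.mem_filter.mp h1).1
    rw [if_pos ⟨h1, rfl⟩,
      ind_ne (show T.up c ≠ T.S from fun e => T.NC.2.1 (e ▸ (up_of T h2 hc).1))]
    exact (D.F1 c h2).of_eq (by ring)
  rw [if_neg c2]
  by_cases c3 : a = T.S ∧ c ∈ T.C ∧ T.S = T.dn c
  · obtain ⟨rfl, h1, h2⟩ := c3
    rw [ind_self, lv_eq D h.symm, if_pos ⟨h1, h2⟩]
    have := D.F3 c h1
    have e := (T.botC _ (T.chJ c h1)).2.2.2
    rw [← T.dnS c h1 h2.symm] at e
    rw [← h2, e] at this
    exact this.of_eq (by push_cast; ring)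
  have e3 : ind a T.S * lv D c = 0 := by
    by_cases e : a = T.S
    · rw [lv_eq D (fun e' => h (e.trans e'.symm)), if_neg (fun e' => c3 ⟨e, e'⟩), mul_zero]
    · rw [ind_ne e, zero_mul]
  rw [e3]
  simp only [sub_self, add_zero, mul_zero, sub_zero]
  by_cases h1 : P.adj a c
  swap
  · rw [m3_nadj h h1]; exact Std.zero
  by_cases h2 : (a ∈ T.C ∧ (c = T.up a ∨ c = T.dn a)) ∨ (c ∈ T.C ∧ (a = T.up c ∨ a = T.dn c))
  swap
  · exact T.stdw a c h1 h2
  rcases h2 with ⟨h3, e | e⟩ | ⟨h3, e | e⟩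
  · exact absurd ⟨Finset.mem_filter.mpr ⟨h3, ha⟩, e⟩ c1
  · by_cases e' : T.dn a = T.S
    · have := D.F4 a h3
      rw [e', (T.beN _).2] at this
      rw [e, e']
      simpa using this
    · obtain ⟨d1, d2, d3, _⟩ := dn_of T h3 e'
      exact absurd ⟨Finset.mem_filter.mpr ⟨e ▸ d1, hc⟩, by rw [e, d3]⟩ c2
  · exact absurd ⟨Finset.mem_filter.mpr ⟨h3, hc⟩, e⟩ c2
  · by_cases e' : T.dn c = T.S
    · exact absurd ⟨e.trans e', h3, e'.symm⟩ c3
    · obtain ⟨d1, d2, d3, _⟩ := dn_of T h3 e'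
      exact absurd ⟨Finset.mem_filter.mpr ⟨e ▸ d1, ha⟩, by rw [e, d3]⟩ c1

theorem Rv_three {T : TAG P} (D : Dat T) {a : V} (ha : a ∉ T.J) : Std (Rv D a a a) := by
  rcases T.part a with rfl | rfl | h | h
  · simp only [Rv, m1v, m2v, Gv_out D T.NC.1, ind_self, ind_ne T.NS]
    exact D.FN.of_eq (by ring)
  · simp only [Rv, m1v, m2v, Gv_out D T.NC.2.1, ind_self, ind_ne T.NS.symm, lv_S]
    exact D.FS.of_eq (by ring)
  · simp only [Rv, m1v, m2v, Gv_three D h ha, ind_ne (show a ≠ T.N from fun e => T.NC.1 (e ▸ h)),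
      ind_ne (show a ≠ T.S from fun e => T.NC.2.1 (e ▸ h))]
    exact (D.F5 a h).of_eq (by ring)
  · simp only [Rv, m1v, m2v, Gv_out D (fun e => T.disj a e h),
      ind_ne (show a ≠ T.N from fun e => T.NC.2.2.1 (e ▸ h)),
      ind_ne (show a ≠ T.S from fun e => T.NC.2.2.2 (e ▸ h))]
    exact (T.stdT a h).of_eq (by ring)

theorem Rv_std {T : TAG P} (D : Dat T) {a a' a'' : V} (h : a ∉ T.J) (h' : a' ∉ T.J)
    (h'' : a'' ∉ T.J) : Std (Rv D a a' a'') := by
  by_cases e1 : a = a'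
  · subst e1
    by_cases e2 : a = a''
    · subst e2; exact Rv_three D h
    · exact Rv_two D e2 h h''
  by_cases e2 : a = a''
  · subst e2; rw [Rv23]; exact Rv_two D e1 h h'
  by_cases e3 : a' = a''
  · subst e3; rw [Rv12, Rv23]; exact Rv_two D (Ne.symm e1) h' h
  have z : ∀ x y : V, x ≠ y → ∀ w : V, (ind x w * ind y w : K) = 0 := fun x y hxy w => by
    by_cases e : x = w
    · rw [ind_ne (fun e' => hxy (e.trans e'.symm)), mul_zero]
    · rw [ind_ne e, zero_mul]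
  refine (P.m3_std e1 e2 e3).of_eq ?_
  simp only [Rv, m1v, m2v, Gv_dist D e1 e2 e3, z a a' e1]
  linear_combination (-(D.t * lv D a')) * z a a'' e2 T.S - D.t * lv D a * z a' a'' e3 T.S

/-! ### The basis -/

abbrev AJ (T : TAG P) : Type := {a : V // a ∉ T.J}

noncomputable def cPhi (T : TAG P) (a : V) : K :=
  ind a T.S - ind a T.N - if a = T.N ∨ a = T.S then 0 else (T.et a : K)

theorem cl_ind (a : V) : P.cl (fun x => ind x a) = P.D a := by
  simp [HP.cl, ind, ite_smul]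

theorem phi_cl (T : TAG P) : T.Phi = P.cl (cPhi T) := by
  rw [TAG.Phi, TAG.eta, ← cl_ind T.S, ← cl_ind T.N, ← P.cl_sub, ← P.cl_sub]
  rfl

theorem cPhi_J (T : TAG P) {a : V} (ha : a ∈ T.J) : cPhi T a = 0 := by
  have h1 : a ≠ T.N := fun e => (SC T).1 (e ▸ ha)
  have h2 : a ≠ T.S := fun e => (SC T).2 (e ▸ ha)
  simp [cPhi, ind_ne h1, ind_ne h2, (T.beJ a ha).2.1]

theorem cPhi_S (T : TAG P) : cPhi T T.S = 1 := by simp [cPhi, ind_self, ind_ne T.NS.symm]
theorem cPhi_N (T : TAG P) : cPhi T T.N = -1 := by simp [cPhi, ind_self, ind_ne T.NS]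
theorem cPhi_C (T : TAG P) {a : V} (ha : a ∈ T.C) : cPhi T a = - T.et a := by
  have h1 : a ≠ T.N := fun e => T.NC.1 (e ▸ ha)
  have h2 : a ≠ T.S := fun e => T.NC.2.1 (e ▸ ha)
  simp [cPhi, ind_ne h1, ind_ne h2, h1, h2]

theorem cl_sub_sum (T : TAG P) (c : V → K) (hc : ∀ a ∈ T.J, c a = 0) :
    P.cl c = ∑ a : AJ T, c a.1 • P.D a.1 := by
  rw [HP.cl, ← Finset.sum_subtype (Finset.univ.filter (fun a => a ∉ T.J)) (by simp)
    (fun a => c a • P.D a)]
  refine (Finset.sum_subset (Finset.subset_univ _) fun a _ ha => ?_).symm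
  rw [hc a (by simpa using ha), zero_smul]

theorem exists_basis {T : TAG P} (A : TAA T) (D : Dat T) (ht : D.t ≠ 0) :
    ∃ bs : Module.Basis (AJ T) K (I → K), ∀ a, bs a = P.D a.1 := by
  have li : LinearIndependent K (fun a : AJ T => P.D a.1) := by
    rw [Fintype.linearIndependent_iff]
    intro g hg
    set c : V → K := fun a => if h : a ∉ T.J then g ⟨a, h⟩ else 0 with hc
    have hcJ : ∀ a ∈ T.J, c a = 0 := fun a ha => dif_neg (not_not.mpr ha)
    have hcg : ∀ a : AJ T, c a.1 = g a := fun a => dif_pos a.2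
    have h0 : P.cl c = 0 := by
      rw [cl_sub_sum T c hcJ, ← hg]
      exact Finset.sum_congr rfl fun a _ => by rw [hcg]
    have h1 : P.cl (c - c T.S • cPhi T) = - (c T.S * D.t) • D.b := by
      rw [P.cl_sub, P.cl_smul, h0, ← phi_cl, D.phi, smul_smul, zero_sub, neg_smul]
    have h2 : c - c T.S • cPhi T = 0 := by
      refine A.indep _ ?_ (h1 ▸ Submodule.smul_mem _ _ D.bB)
      rintro a (rfl | ha)
      · simp [cPhi_S]
      · simp [hcJ a ha, cPhi_J T ha]
    rw [h2, P.cl_zero, eq_comm, smul_eq_zero, or_iff_left D.bne, neg_eq_zero, mul_eq_zero,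
      or_iff_left ht] at h1
    rw [h1, zero_smul, sub_zero] at h2
    intro a
    rw [← hcg, h2]; rfl
  have hcl : ∀ c : V → K, (∀ a ∈ T.J, c a = 0) →
      P.cl c ∈ Submodule.span K (Set.range fun a : AJ T => P.D a.1) := fun c hc => by
    rw [cl_sub_sum T c hc]
    exact sum_mem fun a _ => Submodule.smul_mem _ _ (Submodule.subset_span ⟨a, rfl⟩)
  refine ⟨Module.Basis.mk li ?_, fun a => Module.Basis.mk_apply _ _ _⟩
  intro x _
  obtain ⟨b, hb, c, hc, rfl⟩ := A.span x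
  refine add_mem ?_ (hcl c fun a ha => hc a (Or.inr ha))
  obtain ⟨r, rfl⟩ := D.Bsp b hb
  have : D.b = D.t⁻¹ • P.cl (cPhi T) := by
    rw [← phi_cl, D.phi, smul_smul, inv_mul_cancel₀ ht, one_smul]
  rw [this]
  exact Submodule.smul_mem _ _ (Submodule.smul_mem _ _ (hcl _ fun a ha => cPhi_J T ha))

/-- Coordinates, extended by zero. -/
noncomputable def co {T : TAG P} (bs : Module.Basis (AJ T) K (I → K)) (a : V) : (I → K) →ₗ[K] K :=
  if h : a ∉ T.J then bs.coord ⟨a, h⟩ else 0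

theorem co_repr {T : TAG P} (bs : Module.Basis (AJ T) K (I → K)) (a : AJ T) (x : I → K) :
    co bs a.1 x = bs.repr x a := by
  rw [co, dif_pos a.2]; rfl

theorem co_J {T : TAG P} (bs : Module.Basis (AJ T) K (I → K)) {a : V} (ha : a ∈ T.J) (x : I → K) :
    co bs a x = 0 := by
  rw [co, dif_neg (not_not.mpr ha)]; rfl

theorem repr_b {T : TAG P} (bs : Module.Basis (AJ T) K (I → K)) (a c : AJ T) :
    bs.repr (bs c) a = ind c.1 a.1 := by
  rw [bs.repr_self, Finsupp.single_apply, ind]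
  simp only [Subtype.ext_iff]

theorem co_b {T : TAG P} (bs : Module.Basis (AJ T) K (I → K)) (a : V) (c : AJ T) :
    co bs a (bs c) = ind c.1 a := by
  by_cases h : a ∈ T.J
  · rw [co_J bs h, ind_ne (show c.1 ≠ a from fun e => c.2 (e ▸ h))]
  · exact (co_repr bs ⟨a, h⟩ _).trans (repr_b bs _ _)

theorem co_cl {T : TAG P} (bs : Module.Basis (AJ T) K (I → K)) (hb : ∀ a, bs a = P.D a.1)
    (c : V → K) (hc : ∀ a ∈ T.J, c a = 0) (a : V) : co bs a (P.cl c) = c a := by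
  by_cases h : a ∈ T.J
  · rw [co_J bs h, hc a h]
  rw [cl_sub_sum T c hc, map_sum, Finset.sum_eq_single ⟨a, h⟩]
  · rw [map_smul, ← hb, co_b, ind_self]; simp
  · intro x _ hx
    rw [map_smul, ← hb, co_b, ind_ne (fun e => hx (Subtype.ext e)), smul_zero]
  · simp

def tp {L : Type} [AddCommGroup L] [Module K L] (f g h : L →ₗ[K] K) : Tri K L :=
  f.smulRight (g.smulRight h)

theorem tp_apply {L : Type} [AddCommGroup L] [Module K L] (f g h : L →ₗ[K] K) (x y w : L) :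
    tp f g h x y w = f x * g y * h w := by
  simp [tp, mul_assoc]

def rhoT {L : Type} [AddCommGroup L] [Module K L] (E : L →ₗ[K] L) (mu : Tri K L) : Tri K L :=
  mu ∘ₗ E + mu.compl₂ E + mu.compr₂ (LinearMap.lcomp K K E)

theorem rhoT_apply {L : Type} [AddCommGroup L] [Module K L] (E : L →ₗ[K] L) (mu : Tri K L)
    (x y w : L) : rhoT E mu x y w = rho E mu x y w := by
  simp [rhoT, rho]

theorem lam_zero (hRHOA : S_RHOA) (hDEF0 : S_DEF0) (hRAD0 : S_RAD0) {T : TAG P} (A : TAA T)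
    (D : Dat T) (ht : ¬ Fi D.t) (d : Derivation ℚ K K) : d D.t = 0 := by
  have t0 : D.t ≠ 0 := fun e => ht (e ▸ Fi.zero)
  obtain ⟨bs, hb⟩ := exists_basis A D t0
  let N : AJ T := ⟨T.N, (SC T).1⟩
  let S : AJ T := ⟨T.S, (SC T).2⟩
  let U : Finset (AJ T) := Finset.univ.filter (fun a => a.1 ∈ T.C)
  let W : Finset (AJ T) := Finset.univ.filter (fun a => a.1 ∈ T.In)
  have mU : ∀ a, a ∈ U ↔ a.1 ∈ T.C := fun a => by simp [U]
  have mW : ∀ a, a ∈ W ↔ a.1 ∈ T.In := fun a => by simp [W]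
  let s : AJ T → (I → K) →ₗ[K] K := fun u =>
    (T.be (T.ch u) u : K) • co bs (T.up u) - (T.be (T.ch u) (T.up u) : K) • co bs u
  have hs : ∀ u a, s u (bs a) = sv T u.1 a.1 := fun u a => by simp [s, sv, co_b]
  let l : (I → K) →ₗ[K] K :=
    ∑ j ∈ T.J, (D.g j : K) • co bs (T.bot j) + (2 * D.dl * D.k0 / 3 : K) • co bs T.S
  have hl : ∀ a, l (bs a) = lv D a.1 := fun a => by simp [l, lv, co_b, LinearMap.sum_apply]
  let M2 : Tri K (I → K) := (D.k0 : K) • (tp (bs.coord N) (bs.coord N) (bs.coord N) +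
    tp (bs.coord S) (bs.coord S) (bs.coord S))
  let M1 : Tri K (I → K) := ∑ u ∈ U, kap D u.1 • tp (s u) (s u) (s u) +
    (tp (bs.coord S) (bs.coord S) l + tp (bs.coord S) l (bs.coord S) +
      tp l (bs.coord S) (bs.coord S))
  have h2 : ∀ x y w, M2 x y w = (D.k0 : K) * (bs.repr x N * bs.repr y N * bs.repr w N +
      bs.repr x S * bs.repr y S * bs.repr w S) := fun x y w => by
    simp only [M2, LinearMap.smul_apply, LinearMap.add_apply, tp_apply, smul_eq_mul,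
      Module.Basis.coord_apply]
  have h1 : ∀ x y w, M1 x y w = ∑ u ∈ U, kap D u.1 * s u x * s u y * s u w +
      (bs.repr x S * bs.repr y S * l w + bs.repr x S * l y * bs.repr w S +
        l x * bs.repr y S * bs.repr w S) := fun x y w => by
    simp only [M1, LinearMap.smul_apply, LinearMap.add_apply, LinearMap.sum_apply, tp_apply,
      smul_eq_mul, Module.Basis.coord_apply, mul_assoc]
  have v2 : ∀ a a' a'', M2 (bs a) (bs a') (bs a'') = m2v D a.1 a'.1 a''.1 := fun a a' a'' => by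
    rw [h2]; simp only [repr_b]; rfl
  have v1 : ∀ a a' a'', M1 (bs a) (bs a') (bs a'') = m1v D a.1 a'.1 a''.1 := fun a a' a'' => by
    rw [h1]; simp only [repr_b, hs, hl, m1v, Gv]
    congr 1
    refine Finset.sum_bij (fun u _ => u.1) (fun u hu => Finset.mem_filter.mpr ⟨(mU u).mp hu, u.2⟩)
      (fun _ _ _ _ e => Subtype.ext e) (fun u hu => ?_) (fun _ _ => rfl)
    exact ⟨⟨u, (Finset.mem_filter.mp hu).2⟩, (mU _).mpr (Finset.mem_filter.mp hu).1, rfl⟩
  have vm : ∀ a a' a'', P.mu (bs a) (bs a') (bs a'') = P.m3 a.1 a'.1 a''.1 := fun a a' a'' => by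
    rw [hb, hb, hb]; rfl
  let E : Module.End K (I → K) := bs.constr K (fun a => P.ep d a.1)
  have hE : ∀ a, E (bs a) = dv d (bs a) := fun a => by rw [bs.constr_basis, hb]; rfl
  have hrho : rhoT E P.mu = (d D.t / D.t) • ((2 * D.t ^ 2) • M2 + D.t • M1) := by
    refine bs.ext fun a => bs.ext fun a' => bs.ext fun a'' => ?_
    rw [rhoT_apply, rho, hE, hE, hE, ← P.d_mu, vm]
    simp only [LinearMap.smul_apply, LinearMap.add_apply, smul_eq_mul, v1, v2]
    have e := (Rv_std D a.2 a'.2 a''.2).der d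
    rw [Rv, map_sub, map_sub, Derivation.leibniz, Derivation.leibniz, (m2v_std D _ _ _).der,
      (m1v_std D _ _ _).der, Derivation.leibniz_pow] at e
    simp only [smul_eq_mul, nsmul_eq_mul] at e
    field_simp
    push_cast at e
    linear_combination e
  have hW : Submodule.span K (bs '' (W : Set (AJ T))) = T.W0 := by
    rw [TAG.W0, HP.sp]
    congr 1
    ext x
    constructor
    · rintro ⟨a, ha, rfl⟩
      exact ⟨a.1, (mW a).mp ha, (hb a).symm⟩
    · rintro ⟨a, ha, rfl⟩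
      exact ⟨⟨a, fun e => T.disj a (T.JC a e).1 ha⟩, (mW _).mpr ha, hb _⟩
  have cP : ∀ a, co bs a T.Phi = cPhi T a := fun a => by
    rw [phi_cl]; exact co_cl bs hb _ (fun a ha => cPhi_J T ha) a
  have pD : ∀ a, P.p (P.D a) = P.m3 a a a + ∑ c ∈ Finset.univ.erase a, P.m3 c c a := fun a => by
    rw [P.pdef, ← Finset.add_sum_erase _ _ (Finset.mem_univ a)]; rfl
  have pN : Std (P.p (bs N) - D.t ^ 2 * D.k0) := by
    rw [hb, pD]
    refine (D.FN.add (Std.sum (Finset.univ.erase T.N) (f := fun c => P.m3 c c T.N)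
      fun c hc => ?_)).of_eq (by ring)
    have h := Finset.ne_of_mem_erase hc
    by_cases h1 : P.adj c T.N
    swap
    · rw [m3_nadj h h1]; exact Std.zero
    by_cases h2 : c ∈ T.C ∧ T.N = T.up c
    · have := D.F2 c h2.1
      rw [← h2.2, (T.beN _).1] at this
      simpa using this
    refine T.stdw c T.N h1 ?_
    rintro (⟨h3, e | e⟩ | ⟨h3, _⟩)
    · exact h2 ⟨h3, e⟩
    · rcases (T.dnC c h3).2 with e' | e'
      · exact T.NS (e.trans e')
      · exact T.NC.1 (e ▸ e'.1)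
    · exact T.NC.1 h3
  have pI : ∀ i ∈ W, Std (P.p (bs i)) := by
    intro i hi
    have hi' := (mW i).mp hi
    rw [hb, pD]
    refine (T.stdT _ hi').add (Std.sum _ fun c hc => ?_)
    have h := Finset.ne_of_mem_erase hc
    by_cases h1 : P.adj c i
    swap
    · rw [m3_nadj h h1]; exact Std.zero
    refine T.stdw c i h1 ?_
    rintro (⟨h3, e | e⟩ | ⟨h3, _⟩)
    · rcases (T.upC c h3).2 with e' | e'
      · exact T.NC.2.2.1 ((e.trans e') ▸ hi')
      · exact T.disj _ e'.1 (e ▸ hi')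
    · rcases (T.dnC c h3).2 with e' | e'
      · exact T.NC.2.2.2 ((e.trans e') ▸ hi')
      · exact T.disj _ e'.1 (e ▸ hi')
    · exact T.disj _ h3 hi'
  have key := hRHOA K (AJ T) (I → K) bs N S U W D.t (d D.t / D.t) D.k0 (fun u => kap D u.1) s l P.p
    P.mu (P.mu + (- D.t ^ 2) • M2 + (- D.t) • M1) (fun x y w => M1 x y w) (fun x y w => M2 x y w) E T.Phi
    P.H (fun e => T.NS (congrArg Subtype.val e)) (fun e => T.NC.1 ((mU _).mp e))
    (fun e => T.NC.2.1 ((mU _).mp e)) (fun e => T.NC.2.2.1 ((mW _).mp e))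
    (fun e => T.NC.2.2.2 ((mW _).mp e)) (fun a ha e => T.disj _ ((mU _).mp ha) ((mW _).mp e))
    (fun a => by
      rcases T.part a.1 with h | h | h | h
      exacts [Or.inl (Subtype.ext h), Or.inr (Or.inl (Subtype.ext h)),
        Or.inr (Or.inr (Or.inl ((mU _).mpr h))), Or.inr (Or.inr (Or.inr ((mW _).mpr h)))])
    ht (Std.rat _) (by exact_mod_cast D.k0ne)
    (fun u hu => ⟨kap_std D _, by
      obtain ⟨_, _, _, _, b5, b6, _⟩ := up_of T ((mU _).mp hu) u.2
      exact div_ne_zero (by exact_mod_cast D.gne _ (T.chJ _ ((mU _).mp hu))) (mul_ne_zero b5 b6)⟩)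
    (fun u _ a => by rw [hs]; exact sv_std T _ _)
    (fun u hu a ha => by
      rw [hs]
      exact sv_out T (Finset.mem_filter.mpr ⟨(mU _).mp hu, u.2⟩) (fun e => ha ((mU _).mpr e)))
    (fun x hx hx' => by
      have q : ∀ y ∈ T.C, co bs y x = 0 := fun y hy => by
        refine T.chind (fun y => co bs y x = 0) _ (T.chJ y hy) (co_J bs (T.chJ y hy) x) ?_ y hy rfl
        intro z hz _ ih hz'
        obtain ⟨d1, d2, d3, d4⟩ := dn_of T hz (fun e => T.NC.2.1 (e ▸ hz'))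
        have e := hx' ⟨_, d2⟩ ((mU _).mpr d1)
        have b6 := (up_of T d1 d2).2.2.2.2.2.1
        simp only [s, LinearMap.sub_apply, LinearMap.smul_apply, smul_eq_mul, d3, ih] at e
        rw [d3] at b6
        simpa [b6] using e
      refine bs.repr.map_eq_zero_iff.mp (Finsupp.ext fun a => ?_)
      by_cases ha : a ∈ U
      · exact (co_repr bs a x).symm.trans (q _ ((mU _).mp ha))
      · exact hx a ha)
    (fun a => by rw [hl]; exact lv_std D _)
    (by rw [hl, lv_eq D T.NS, if_neg (fun e => T.NC.1 e.1)])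
    (fun i hi => by
      rw [hl, lv_eq D (fun e => T.NC.2.2.2 (e ▸ (mW _).mp hi)),
        if_neg (fun e => T.disj _ e.1 ((mW _).mp hi))])
    P.sym
    (fun a a' a'' => by
      simp only [LinearMap.add_apply, LinearMap.smul_apply, smul_eq_mul, v1, v2, vm]
      exact (Rv_std D a.2 a'.2 a''.2).of_eq (by rw [Rv]; ring))
    h2 h1
    (fun x y w => by simp only [LinearMap.add_apply, LinearMap.smul_apply, smul_eq_mul]; ring)
    (fun x y w => by
      rw [← rhoT_apply, hrho]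
      simp only [LinearMap.add_apply, LinearMap.smul_apply, smul_eq_mul])
    (by rw [← co_repr, cP]; exact cPhi_N T) (by rw [← co_repr, cP]; exact cPhi_S T)
    (fun u hu => by
      have h := (mU _).mp hu
      have e := T.detup _ h
      have e' : ((T.be (T.ch u) u : K)) * T.et (T.up u) - T.be (T.ch u) (T.up u) * T.et u = 1 := by
        exact_mod_cast e
      simp only [s, LinearMap.sub_apply, LinearMap.smul_apply, smul_eq_mul, cP, cPhi_C T h,
        cPhi_C T (up_of T h u.2).1]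
      intro e0
      linarith)
    (fun i hi y => by rw [hb, P.mu23, A.BI _ A.PhiB _ ((mW _).mp hi)]; rfl)
    (fun w hw h => by
      rw [hW] at hw
      refine hRAD0 K V I P T A w hw fun i hi i' hi' => ?_
      have := h ⟨i, fun e => T.disj i (T.JC i e).1 hi⟩ ((mW _).mpr hi)
        ⟨i', fun e => T.disj i' (T.JC i' e).1 hi'⟩ ((mW _).mpr hi')
      rwa [hb, hb] at this)
    (fun w hw h => hDEF0 K V I P T A w (hW ▸ hw) h)
    pN
    (fun a => by rw [hb, P.pdef]; exact BO.sum _ fun c _ => bo_m3 D ht c a)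
    pI
    (by
      rw [hE, ← P.d_p, pN.der_eq d, Derivation.leibniz, (Std.rat _).der, Derivation.leibniz_pow]
      simp only [smul_eq_mul, nsmul_eq_mul]
      field_simp
      push_cast
      ring)
    (fun i hi => by rw [hE, ← P.d_p]; exact (pI i hi).der d)
  exact (div_eq_zero_iff.mp key).resolve_right t0

end RHO1x

theorem p_RHO1 (hRHOA : S_RHOA) (hDEF0 : S_DEF0) (hRAD0 : S_RAD0) (hMW : S_MW) (hWREL : S_WREL) :
    S_RHO1 := by
  intro K V I _ _ _ _ _ _ _ P T A h3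
  obtain ⟨D⟩ := RHO1x.exists_dat hMW T A h3
  refine RHO1x.fin_of_fi hWREL D ?_
  by_contra ht
  exact ht (P.hf.der _ (RHO1x.lam_zero hRHOA hDEF0 hRAD0 A D ht)).fi

end Pool.Agent.P.MP_33ab4b_ag.T
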