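import Pool.Agent.P.MP_33ab4b_ag.T.IfaceA
import Pool.Agent.P.MP_33ab4b_ag.Rho

/-! Step RHOA. -/

set_option autoImplicit false

namespace Pool.Agent.P.MP_33ab4b_ag.T

open scoped Classical

open Finset

theorem rhoa_basis {K : Type} [Field K] [LinearOrder K] [IsStrictOrderedRing K] {A L : Type}
    [Fintype A] [DecidableEq A] [AddCommGroup L] [Module K L] (b : Module.Basis A K L)
    (U : Finset A) (s : A → L →ₗ[K] K) (h1 : ∀ u ∈ U, ∀ a, Std (s u (b a)))
    (h2 : ∀ u ∈ U, ∀ a, a ∉ U → s u (b a) = 0)
    (h3 : ∀ x : L, (∀ a, a ∉ U → b.repr x a = 0) → (∀ u ∈ U, s u x = 0) → x = 0) :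
    ∃ (b' : Module.Basis A K L) (g : A → A → ℚ), (∀ c, b' c = ∑ a, (g a c : K) • b a) ∧
      (∀ x a, b'.repr x a = if a ∈ U then s a x else b.repr x a) ∧ ∀ c, c ∉ U → b' c = b c := by
  haveI : FiniteDimensional K L := Module.Finite.of_basis b
  set σ : L →ₗ[K] (A → K) := LinearMap.pi fun a => if a ∈ U then s a else b.coord a with hσ
  have hs : ∀ x a, σ x a = if a ∈ U then s a x else b.repr x a := fun x a => by
    simp only [hσ, LinearMap.pi_apply]
    split_ifs <;> rfl
  have inj : Function.Injective σ := by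
    rw [injective_iff_map_eq_zero]
    intro x hx
    refine h3 x (fun a ha => ?_) fun u hu => ?_
    · have := hs x a
      rw [hx, if_neg ha] at this
      exact this.symm
    · have := hs x u
      rw [hx, if_pos hu] at this
      exact this.symm
  have dim : Module.finrank K L = Module.finrank K (A → K) := by
    rw [Module.finrank_eq_card_basis b, Module.finrank_fintype_fun_eq_card]
  set e := σ.linearEquivOfInjective inj dim with he
  have hr : ∀ x a, (Module.Basis.ofEquivFun e).repr x a = σ x a := fun x a => rfl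
  have hq : ∀ a c, ∃ q : ℚ, σ (b c) a = q := fun a c => by
    rw [hs]
    split_ifs with ha
    · exact h1 a ha c
    · by_cases hac : c = a
      · exact ⟨1, by simp [hac]⟩
      · exact ⟨0, by simp [hac]⟩
  choose M hM using hq
  obtain ⟨g, hg⟩ := rho_ginv (Matrix.of M)
  have key : ∀ x : L, x = ∑ a, (∑ i, (g a i : K) * σ x i) • b a := by
    intro x
    refine inj (funext fun j => ?_)
    have e0 : ∀ i, σ x i = ∑ w, (M i w : K) * b.repr x w := fun i => by
      conv_lhs => rw [← b.sum_repr x]
      simp only [map_sum, map_smul, Finset.sum_apply, Pi.smul_apply, smul_eq_mul, hM]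
      exact sum_congr rfl fun _ _ => mul_comm _ _
    have e1 : ∀ w, (M j w : K) = ∑ i, (∑ v, (M j v : K) * g v i) * M i w := fun w => by
      have := congrFun (congrFun hg j) w
      simp only [Matrix.mul_apply, Matrix.of_apply] at this
      exact_mod_cast this.symm
    simp only [map_sum, map_smul, Finset.sum_apply, Pi.smul_apply, smul_eq_mul, hM]
    calc σ x j = ∑ w, (∑ i, (∑ v, (M j v : K) * g v i) * M i w) * b.repr x w := by
          rw [e0]; exact sum_congr rfl fun w _ => by rw [← e1 w]
      _ = ∑ i, (∑ v, (M j v : K) * g v i) * σ x i := by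
          simp only [e0, sum_mul, mul_sum]
          rw [sum_comm]
          refine sum_congr rfl fun i _ => ?_
          rw [sum_comm]
          rw [sum_comm]
          exact sum_congr rfl fun _ _ => sum_congr rfl fun _ _ => by ring
      _ = _ := by
          simp only [sum_mul]
          rw [sum_comm]
          exact sum_congr rfl fun _ _ => sum_congr rfl fun _ _ => by ring
  have hb : ∀ c i, σ (Module.Basis.ofEquivFun e c) i = if c = i then 1 else 0 := fun c i => by
    rw [← hr, Module.Basis.repr_self, Finsupp.single_apply]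
  refine ⟨Module.Basis.ofEquivFun e, g, fun c => ?_, fun x a => by rw [hr, hs], fun c hc => ?_⟩
  · rw [key (Module.Basis.ofEquivFun e c)]
    simp only [hb, mul_ite, mul_one, mul_zero, sum_ite_eq, mem_univ, if_true]
  · refine inj (funext fun i => ?_)
    rw [hb, hs]
    by_cases hi : i ∈ U
    · rw [if_pos hi, h2 i hi c hc, if_neg (by rintro rfl; exact hc hi)]
    · rw [if_neg hi, Module.Basis.repr_self, Finsupp.single_apply]

theorem rhoa_std {K : Type} [Field K] [LinearOrder K] [IsStrictOrderedRing K] {A L : Type}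
    [Fintype A] [AddCommGroup L] [Module K L] (b : A → L) (g : A → ℚ) (φ : L →ₗ[K] K)
    (h : ∀ a, Std (φ (b a))) : Std (φ (∑ a, (g a : K) • b a)) := by
  choose q hq using h
  exact ⟨∑ a, g a * q a, by simp [hq]⟩

theorem rhoa_ite {K : Type} [Field K] {P Q R : Prop} [Decidable P] [Decidable Q] [Decidable R]
    (h : ¬ (P ∧ Q ∧ R)) :
    ((if P then 1 else 0) * (if Q then 1 else 0) * (if R then 1 else 0) : K) = 0 := by
  by_cases h1 : P <;> by_cases h2 : Q <;> by_cases h3 : R <;> simp_all

theorem p_RHOA (hLINB : S_LINB) (hVERT : S_VERT) :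
    S_RHOA := by
  intro K _ _ _ A L _ _ _ _ b N S U W t lam κ0 κ s l p mu mu0 m1 m2 E η H NS NU SU NW SW UW part
    hinf hk0 hk0' hk hs1 hs2 hs3 hl lN lW sym hm0 hm2 hm1 hmu hE eN eS eU e0 rad dfn p2 p1 p0 pE1 pE2
  obtain ⟨b', g, hb, hr, hc⟩ := rhoa_basis b U s hs1 hs2 hs3
  obtain ⟨kq, rfl⟩ := hk0
  have hκ : ∀ u, ∃ q : ℚ, u ∈ U → κ u = q := fun u => by
    by_cases hu : u ∈ U
    · exact (hk u hu).1.imp fun q hq _ => hq
    · exact ⟨0, fun h => absurd h hu⟩
  choose κq hκ using hκ
  have hlq : ∀ a, Std (l (b' a)) := fun a => by rw [hb]; exact rhoa_std _ _ l hl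
  choose lq hlq using hlq
  have hq0 : ∀ a c e, Std (mu0 (b' a) (b' c) (b' e)) := by
    have a1 : ∀ a c e, Std (mu0 (b a) (b c) (b' e)) := fun a c e => by
      rw [hb]; exact rhoa_std _ _ (mu0 (b a) (b c)) (hm0 a c)
    have a2 : ∀ a c e, Std (mu0 (b a) (b' c) (b' e)) := fun a c e => by
      rw [hb c]; exact rhoa_std _ _ ((mu0 (b a)).flip (b' e)) fun x => a1 a x e
    intro a c e
    rw [hb a]
    exact rhoa_std _ _ ((mu0.flip (b' c)).flip (b' e)) fun x => a2 x c e
  choose q0 hq0 using hq0
  have hp0 : ∀ i, ∃ q : ℚ, i ∈ W → p (b i) = q := fun i => by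
    by_cases hi : i ∈ W
    · exact (p0 i hi).imp fun q hq _ => hq
    · exact ⟨0, fun h => absurd h hi⟩
  choose pq hpq using hp0
  have WU : ∀ i ∈ W, i ∉ U := fun i hi hu => UW i hu hi
  have r1 : ∀ a x, x ∉ U → b.repr (b' a) x = if a = x then 1 else 0 := fun a x hx => by
    have := hr (b' a) x
    rw [if_neg hx, Module.Basis.repr_self, Finsupp.single_apply] at this
    exact this.symm
  have r2 : ∀ a, ∀ u ∈ U, s u (b' a) = if a = u then 1 else 0 := fun a u hu => by
    have := hr (b' a) u
    rw [if_pos hu, Module.Basis.repr_self, Finsupp.single_apply] at this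
    exact this.symm
  set q1 : A → A → A → ℚ := fun a c e => (if a = c ∧ c = e ∧ a ∈ U then κq a else 0)
    + ((if a = S ∧ c = S then lq e else 0) + (if a = S ∧ e = S then lq c else 0)
    + (if c = S ∧ e = S then lq a else 0)) with hq1
  have v1 : ∀ a c e, m1 (b' a) (b' c) (b' e) = q1 a c e := by
    intro a c e
    rw [hm1, hq1]
    push_cast
    congr 1
    · by_cases h : a = c ∧ c = e ∧ a ∈ U
      · obtain ⟨rfl, rfl, h⟩ := h
        rw [sum_eq_single a (fun u hu hne => by rw [r2 a u hu, if_neg hne.symm]; ring)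
          (fun h1 => absurd h h1), r2 a a h, hκ a h]
        simp [h]
      · rw [if_neg h]
        refine (sum_eq_zero fun u hu => ?_).trans (by simp)
        rw [r2 a u hu, r2 c u hu, r2 e u hu]
        by_cases h1 : a = u
        · by_cases h2 : c = u
          · by_cases h3 : e = u
            · exact absurd ⟨h1.trans h2.symm, h2.trans h3.symm, h1 ▸ hu⟩ h
            · simp [h3]
          · simp [h2]
        · simp [h1]
    · simp only [r1 _ S SU, hlq]
      by_cases h1 : a = S <;> by_cases h2 : c = S <;> by_cases h3 : e = S <;> simp [h1, h2, h3]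
  have v2 : ∀ a c e, m2 (b' a) (b' c) (b' e)
      = if a = c ∧ c = e ∧ (a = N ∨ a = S) then (kq : K) else 0 := by
    intro a c e
    rw [hm2]
    simp only [r1 _ S SU, r1 _ N NU]
    by_cases h : a = c ∧ c = e ∧ (a = N ∨ a = S)
    · rw [if_pos h]
      obtain ⟨rfl, rfl, rfl | rfl⟩ := h
      · simp [NS]
      · simp [NS.symm]
    · rw [if_neg h]
      have a1 : ¬ (a = N ∧ c = N ∧ e = N) := by rintro ⟨rfl, rfl, rfl⟩; simp at h
      have a2 : ¬ (a = S ∧ c = S ∧ e = S) := by rintro ⟨rfl, rfl, rfl⟩; simp at h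
      have a3 : ((if a = N then 1 else 0) * (if c = N then 1 else 0) * (if e = N then 1 else 0) : K)
          = 0 := by
        exact rhoa_ite a1
      have a4 : ((if a = S then 1 else 0) * (if c = S then 1 else 0) * (if e = S then 1 else 0) : K)
          = 0 := by
        exact rhoa_ite a2
      rw [a3, a4]; ring
  have lz : ∀ a, lq a ≠ 0 → a ∉ W ∧ a ≠ N := fun a ha => by
    have h1 : l (b' a) ≠ 0 := by rw [hlq]; exact_mod_cast ha
    refine ⟨fun hw => h1 ?_, fun hn => h1 ?_⟩
    · rw [hc a (WU a hw)]; exact lW a hw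
    · rw [hn, hc N NU]; exact lN
  have sp : ∀ w, (∀ a, ¬ a ∈ W → b'.repr w a = 0) → w ∈ Submodule.span K (b '' (W : Set A)) := by
    intro w hw
    rw [← b'.sum_repr w]
    refine Submodule.sum_mem _ fun a _ => ?_
    by_cases ha : a ∈ W
    · rw [hc a (WU a ha)]
      exact Submodule.smul_mem _ _ (Submodule.subset_span ⟨a, ha, rfl⟩)
    · rw [hw a ha, zero_smul]; exact Submodule.zero_mem _
  have R : R1 mu b' (fun a => a ∈ W) N S t kq q0 q1 H η :=
    { sym := sym, ns := NS, nI := NW, sI := SW
      inf := fun n => lt_of_not_ge fun h => hinf ⟨n, h⟩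
      k0 := fun h => hk0' (by simp [h])
      val := fun a c e => by rw [hmu, v1, v2, hq0]; ring
      supp := fun a c e h => by
        by_cases h1 : a = c ∧ c = e ∧ a ∈ U
        · obtain ⟨rfl, rfl, h1⟩ := h1
          have := UW a h1
          have h2 : a ≠ N := fun h3 => NU (h3 ▸ h1)
          tauto
        · simp only [hq1, if_neg h1, zero_add] at h
          have SN := NS.symm
          by_cases h2 : a = S <;> by_cases h3 : c = S <;> by_cases h4 : e = S
          · subst h2 h3 h4; tauto
          · have := lz e (by simpa [h2, h3, h4] using h)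
            subst h2 h3; tauto
          · have := lz c (by simpa [h2, h3, h4] using h)
            subst h2 h4; tauto
          · simp [h3, h4] at h
          · have := lz a (by simpa [h2, h3, h4] using h)
            subst h3 h4; tauto
          · simp [h2, h4] at h
          · simp [h2, h3] at h
          · simp [h2, h3] at h
      fer := fun u h1 h2 h3 => by
        have hu : u ∈ U := by have := part u; tauto
        have h4 : (κq u : K) ≠ 0 := by rw [← hκ u hu]; exact (hk u hu).2
        simpa [hq1, hu, h3] using h4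
      eta0 := fun y i hi => by rw [hc i (WU i hi)]; exact e0 i hi y
      eta1 := fun a ha => by
        rw [hr]
        split_ifs with hu
        · exact eU a hu
        · rcases part a with rfl | rfl | h | h
          · rw [eN]; simp
          · rw [eS]; simp
          · exact absurd h hu
          · exact absurd h ha
      rad := fun w hw h => rad w (sp w hw) fun i hi j hj => by
        have := h i j hi hj
        rwa [hc i (WU i hi), hc j (WU j hj)] at this
      dfn := fun w hw h => dfn w (sp w hw) h }
  refine R.lam_zero E lam p pq (fun a c e => ?_) (fun i hi => ?_) (fun a => ?_) ?_ ?_ fun i hi => ?_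
  · have := hE (b' a) (b' c) (b' e)
    rw [v1, v2] at this
    exact this.trans (by ring)
  · rw [hc i (WU i hi)]; exact hpq i hi
  · rw [hb, map_sum]
    refine Ob_sum _ fun x _ => ?_
    rw [map_smul, smul_eq_mul]
    obtain ⟨n, hn⟩ := p1 x
    exact (Ob_rat _).mull ⟨n, by rwa [pow_two, abs_mul] at hn⟩
  · obtain ⟨q, hq⟩ := p2
    rw [hc N NU, ← pow_two, hq]
    exact (Ob_rat q).mono R.t1
  · rw [hc N NU, pE1]; ring
  · rw [hc i (WU i hi)]; exact pE2 i hi

end Pool.Agent.P.MP_33ab4b_ag.T
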