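import Pool.Agent.P.MP_33ab4b_ag.T.IfaceA
import Pool.Agent.P.MP_33ab4b_ag.T.CycL

/-! Step SL. -/

set_option autoImplicit false

namespace Pool.Agent.P.MP_33ab4b_ag.T

open scoped Classical

section sl

variable {K : Type} [Field K] [LinearOrder K] [IsStrictOrderedRing K] {V : Type}

/-- slope of the ray `i` seen from `a`. -/
def slS (e : V3 K) (v : V → V3 K) (nx : V → V) (a i : V) : K :=
  det3 e (v i) (v (nx a)) / (det3 e (v a) (v (nx a)) * det3 e (v a) (v i))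

theorem slS_sub (e : V3 K) (v : V → V3 K) (nx : V → V) (a i j : V)
    (h0 : det3 e (v a) (v (nx a)) ≠ 0) (hi : det3 e (v a) (v i) ≠ 0)
    (hj : det3 e (v a) (v j) ≠ 0) :
    slS e v nx a i - slS e v nx a j =
      det3 e (v i) (v j) / (det3 e (v a) (v i) * det3 e (v a) (v j)) := by
  have h := plucker e (v a) (v i) (v j) (v (nx a))
  unfold slS
  field_simp
  linarith

variable {e : V3 K} {v : V → V3 K} {A : Finset V} {nx pv : V → V}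

theorem slS_step (hf : HF K) (C : Cyc e v A nx pv)
    (hZ : ∀ a ∈ A, ∀ b ∈ A, det3 e (v a) (v b) ∈ hf.Z)
    (hF : ∀ a ∈ A, Fi (det3 e (v a) (v (nx a)))) {a i : V} (ha : a ∈ A) (hi : i ∈ A)
    (h1 : det3 e (v a) (v i) ≠ 0) (h2 : det3 e (v a) (v (nx i)) ≠ 0) :
    Fi (slS e v nx a i - slS e v nx a (nx i)) := by
  rw [slS_sub e v nx a i (nx i) (C.pos a ha).ne' h1 h2]
  exact (hF i hi).div (hf.one_le_abs (hf.Z.mul_mem (hZ a ha i hi) (hZ a ha _ (C.nx_mem hi)))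
    (mul_ne_zero h1 h2))

theorem cA_eq (C : Cyc e v A nx pv) {a b : V} (ha : a ∈ A) (hb : b ∈ A) (s : K)
    (hs : s * s = 1) (h : ∀ y, det3 e (v b) y = s * det3 e (v a) y) :
    cA e v nx pv b = slS e v nx a (nx b) - slS e v nx a (pv b) := by
  have h1 := (C.pos b hb).ne'
  have h2 := (C.pos_pv hb).ne'
  have hs0 : s ≠ 0 := fun h0 => by simp [h0] at hs
  rw [det3_swap23, h] at h2
  rw [h] at h1
  have h1' : det3 e (v a) (v (nx b)) ≠ 0 := fun h0 => h1 (by rw [h0, mul_zero])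
  have h2' : det3 e (v a) (v (pv b)) ≠ 0 := fun h0 => h2 (by rw [h0, mul_zero, neg_zero])
  rw [slS_sub e v nx a _ _ (C.pos a ha).ne' h1' h2', cA, det3_swap23 e (v b) (v (pv b)), h, h,
    det3_swap23 e (v (pv b)) (v (nx b))]
  field_simp
  rw [pow_two, hs, mul_one]

theorem sl_one (hf : HF K) (C : Cyc e v A nx pv)
    (hZ : ∀ a ∈ A, ∀ b ∈ A, det3 e (v a) (v b) ∈ hf.Z)
    (hF : ∀ a ∈ A, Fi (det3 e (v a) (v (nx a)))) {a : V} (ha : a ∈ A)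
    (h : ∀ b ∈ A, b ≠ a → det3 e (v a) (v b) ≠ 0) : Fi (cA e v nx pv a) := by
  rw [cA_eq C ha ha 1 (by simp) (by simp)]
  refine (C.arc (fun c => c ≠ a ∧ Fi (slS e v nx a (nx a) - slS e v nx a c)) (C.nx_mem ha)
    (C.pv_mem ha) ⟨C.nx_ne ha, by simpa using Fi.zero⟩ ?_).2
  rintro c hc hne ⟨h1, h2⟩
  have h3 : nx c ≠ a := fun h0 => hne (by rw [← h0, C.pv_nx hc])
  refine ⟨h3, (h2.add (slS_step hf C hZ hF ha hc (h c hc h1) (h _ (C.nx_mem hc) h3))).of_eq ?_⟩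
  ring

theorem sl_half (hf : HF K) (C : Cyc e v A nx pv)
    (hZ : ∀ a ∈ A, ∀ b ∈ A, det3 e (v a) (v b) ∈ hf.Z)
    (hF : ∀ a ∈ A, Fi (det3 e (v a) (v (nx a)))) {a0 a b : V} (ha0 : a0 ∈ A) (ha : a ∈ A)
    (hb : b ∈ A) (h : ∀ y, det3 e (v b) y = - det3 e (v a) y)
    (h0 : ∀ y, det3 e (v a) y ≠ 0 → det3 e (v a0) y ≠ 0) :
    Fi (slS e v nx a0 (nx a) - slS e v nx a0 (pv b)) := by
  refine (C.arc (fun c => 0 < det3 e (v a) (v c) ∧ Fi (slS e v nx a0 (nx a) - slS e v nx a0 c))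
    (C.nx_mem ha) (C.pv_mem hb) ⟨C.pos a ha, by simpa using Fi.zero⟩ ?_).2
  rintro c hc hne ⟨h1, h2⟩
  have h3 : nx c ≠ b := fun h0 => hne (by rw [← h0, C.pv_nx hc])
  have h4 : 0 < det3 e (v c) (v b) := by rw [det3_swap23, h, neg_neg]; exact h1
  have h5 : det3 e (v b) (v (nx c)) ≤ 0 := not_lt.1 fun h' => C.nob c hc b hb ⟨h4, h'⟩
  have h6 : 0 < det3 e (v a) (v (nx c)) := by
    rcases h5.lt_or_eq with h5 | h5
    · rw [h] at h5; linarith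
    · exact absurd (C.eq_of_par' hb (C.nx_mem hc) h5 h4 (C.pos c hc)).symm h3
  refine ⟨h6, (h2.add (slS_step hf C hZ hF ha0 hc (h0 _ h1.ne') (h0 _ h6.ne'))).of_eq ?_⟩
  ring

theorem sl_two (hf : HF K) (C : Cyc e v A nx pv)
    (hZ : ∀ a ∈ A, ∀ b ∈ A, det3 e (v a) (v b) ∈ hf.Z)
    (hF : ∀ a ∈ A, Fi (det3 e (v a) (v (nx a)))) {a b : V} (ha : a ∈ A) (hb : b ∈ A) {t : K}
    (ht : v b = - v a + t • e) : Fi (cA e v nx pv a + cA e v nx pv b) := by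
  have h : ∀ y, det3 e (v b) y = - det3 e (v a) y := fun y => by rw [ht, det3_opp2]
  rw [cA_eq C ha ha 1 (by simp) (by simp), cA_eq C ha hb (-1) (by simp) (by simpa using h)]
  have h1 := sl_half hf C hZ hF ha ha hb h fun _ h => h
  have h2 := sl_half hf C hZ hF ha hb ha (fun y => by rw [h, neg_neg])
    fun y hy => by rw [h] at hy; exact neg_ne_zero.1 hy
  exact (h1.add h2).of_eq (by ring)

end sl

theorem p_SL :
    S_SL := by
  intro K _ _ _ hf V e v A nx pv C hZ hF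
  refine ⟨fun a ha h => sl_one hf C hZ hF ha h,
    fun a ha b hb ⟨t, ht⟩ => sl_two hf C hZ hF ha hb ht, fun hopp => ?_⟩
  have h1 : ∀ a, ∃ b, a ∈ A → b ∈ A ∧ ((b = a ∧ ∀ c ∈ A, c ≠ a → det3 e (v a) (v c) ≠ 0) ∨
      (a ≠ b ∧ det3 e (v a) (v b) = 0)) := fun a => by
    by_cases h : ∃ c ∈ A, c ≠ a ∧ det3 e (v a) (v c) = 0
    · obtain ⟨c, hc, h1, h2⟩ := h
      exact ⟨c, fun _ => ⟨hc, Or.inr ⟨h1.symm, h2⟩⟩⟩
    · push Not at h
      exact ⟨a, fun ha => ⟨ha, Or.inl ⟨rfl, h⟩⟩⟩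
  choose op hop using h1
  have hinv : ∀ a ∈ A, op (op a) = a := by
    intro a ha
    obtain ⟨hb, ⟨h1, -⟩ | ⟨h1, h2⟩⟩ := hop a ha
    · rw [h1, h1]
    · have h3 : det3 e (v (op a)) (v a) = 0 := by rw [det3_swap23, h2, neg_zero]
      obtain ⟨hc, ⟨-, h4⟩ | ⟨h4, h5⟩⟩ := hop _ hb
      · exact absurd h3 (h4 a ha h1)
      · exact C.opp_unique hb hc ha h4 h1.symm h5 h3
  have hsum : ∑ a ∈ A, cA e v nx pv (op a) = ∑ a ∈ A, cA e v nx pv a :=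
    Finset.sum_nbij' op op (fun a h => (hop a h).1) (fun a h => (hop a h).1) hinv hinv
      fun _ _ => rfl
  have h2 : Fi (∑ a ∈ A, (cA e v nx pv a + cA e v nx pv (op a))) := by
    refine Fi.sum _ fun a ha => ?_
    obtain ⟨hb, ⟨h1, h3⟩ | ⟨h1, h2⟩⟩ := hop a ha
    · rw [h1]; exact (sl_one hf C hZ hF ha h3).add (sl_one hf C hZ hF ha h3)
    · obtain ⟨t, ht⟩ := hopp a ha _ hb h1 h2
      exact sl_two hf C hZ hF ha hb ht
  rw [Finset.sum_add_distrib, hsum] at h2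
  refine h2.of_abs_le ?_
  rw [← two_mul, abs_mul, abs_two]
  linarith [abs_nonneg (∑ a ∈ A, cA e v nx pv a)]

end Pool.Agent.P.MP_33ab4b_ag.T
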