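import Pool.Agent.P.MP_33ab4b_ag.T.IfaceP
import Pool.Agent.P.MP_33ab4b_ag.T.IfaceA

/-! Step SPLIT. -/

set_option autoImplicit false
set_option linter.unusedSectionVars false

namespace Pool.Agent.P.MP_33ab4b_ag.T

open scoped Classical

namespace SPLITx

variable {K V I : Type} [Field K] [LinearOrder K] [IsStrictOrderedRing K] [Fintype V]
  [DecidableEq V] [Fintype I] [DecidableEq I]

/-- a form on matrices that reads one row -/
def rowF (a : V) (c : V → K) : (V × V → K) →ₗ[K] K := ∑ e, c e • LinearMap.proj (a, e)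

/-- a form on matrices that reads one column -/
def colF (b : V) (c : V → K) : (V × V → K) →ₗ[K] K := ∑ e, c e • LinearMap.proj (e, b)

theorem rowF_apply (a : V) (c : V → K) (m : V × V → K) : rowF a c m = ∑ e, m (a, e) * c e := by
  simp [rowF, LinearMap.sum_apply, mul_comm]

theorem colF_apply (b : V) (c : V → K) (m : V × V → K) : colF b c m = ∑ e, c e * m (e, b) := by
  simp [colF, LinearMap.sum_apply]

theorem std_single {κ : Type} [DecidableEq κ] (k j : κ) : Std ((Pi.single k 1 : κ → K) j) := by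
  rw [Pi.single_apply]
  split_ifs
  exacts [Std.one, Std.zero]

theorem rowF_std (a : V) {c : V → K} (h : ∀ e, Std (c e)) (k : V × V) :
    Std (rowF a c (Pi.single k 1)) := by
  rw [rowF_apply]
  exact Std.sum _ fun e _ => (std_single _ _).mul (h e)

theorem colF_std (b : V) {c : V → K} (h : ∀ e, Std (c e)) (k : V × V) :
    Std (colF b c (Pi.single k 1)) := by
  rw [colF_apply]
  exact Std.sum _ fun e _ => (h e).mul (std_single _ _)

variable {P : HP K V I} {G : PLG P}

theorem mu_cl2 (x z : I → K) (c : V → K) : P.mu x (P.cl c) z = ∑ a, c a * P.mu x (P.D a) z := by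
  simp [HP.cl, map_sum, LinearMap.sum_apply]

theorem rho_cl (U : (I → K) →ₗ[K] (I → K)) (c1 c2 c3 : V → K)
    (h : ∀ a b e, c1 a ≠ 0 → c2 b ≠ 0 → c3 e ≠ 0 → rho U P.mu (P.D a) (P.D b) (P.D e) = 0) :
    rho U P.mu (P.cl c1) (P.cl c2) (P.cl c3) = 0 := by
  have e1 : ∀ y z, rho U P.mu (P.cl c1) y z = ∑ a, c1 a * rho U P.mu (P.D a) y z := by
    intro y z
    simp [rho, HP.cl, map_sum, LinearMap.sum_apply, mul_add, Finset.sum_add_distrib]
  have e2 : ∀ x z, rho U P.mu x (P.cl c2) z = ∑ a, c2 a * rho U P.mu x (P.D a) z := by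
    intro x z
    simp [rho, HP.cl, map_sum, LinearMap.sum_apply, mul_add, Finset.sum_add_distrib]
  have e3 : ∀ x y, rho U P.mu x y (P.cl c3) = ∑ a, c3 a * rho U P.mu x y (P.D a) := by
    intro x y
    simp [rho, HP.cl, map_sum, mul_add, Finset.sum_add_distrib]
  rw [e1]
  refine Finset.sum_eq_zero fun a _ => ?_
  by_cases ha : c1 a = 0
  · rw [ha, zero_mul]
  rw [e2]
  refine mul_eq_zero_of_right _ (Finset.sum_eq_zero fun b _ => ?_)
  by_cases hb : c2 b = 0
  · rw [hb, zero_mul]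
  rw [e3]
  refine mul_eq_zero_of_right _ (Finset.sum_eq_zero fun e _ => ?_)
  by_cases he : c3 e = 0
  · rw [he, zero_mul]
  rw [h a b e ha hb he, mul_zero]

theorem lo_cast (R : TPF G) (a : V) :
    ((max (- R.lq a) 0 : ℚ) : K) = max (- G.l (P.v a)) 0 := by
  rw [R.lqv]
  push_cast
  rfl

theorem x1_mem (R : TPF G) : G.nx R.x0 ∈ G.X := (G.cyc.mem _ R.hx0).1

theorem lo_out (R : TPF G) {a : V} (h : R.Out a) : max (- G.l (P.v a)) 0 = 0 := by
  rcases h with rfl | rfl | rfl
  · rw [(G.memX _).mp R.hx0]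
    simp
  · rw [(G.memX _).mp (x1_mem R)]
    simp
  · rw [(G.kuf _ R.hx0).2]
    simp

theorem out_one (A : PLA G) (R : TPF G) (o : V) (u : Fm K) (q : V → ℚ) (t : K)
    (h1 : ∀ a, R.Out a → u (P.v a) = (Pi.single o 1 : V → K) a)
    (h2 : ∀ a, u (P.v a) = q a + max (- G.l (P.v a)) 0 * t) :
    (∀ a, R.Out a → (Pi.single o 1 - fun a => (q a : K) : V → K) a = 0) ∧
      P.D o = P.cl (Pi.single o 1 - fun a => (q a : K)) + (-t) • G.fc := by
  constructor
  · intro a ha
    have := h2 a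
    rw [lo_out R ha, h1 a ha] at this
    simp only [Pi.sub_apply]
    rw [this]
    ring
  · have h3 := P.cl_form u
    have h4 : (fun a => u (P.v a)) = (fun a => (q a : K)) + t • fun a => max (- G.l (P.v a)) 0 := by
      funext a
      simp only [Pi.add_apply, Pi.smul_apply, smul_eq_mul]
      rw [h2, mul_comm]
    rw [h4, P.cl_add, P.cl_smul, ← A.fc_lo] at h3
    rw [P.cl_sub, P.cl_single, eq_neg_of_add_eq_zero_left h3, neg_smul]
    abel

theorem ku_dec (A : PLA G) (R : TPF G) :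
    (∀ a, R.Out a → (Pi.single (G.ku R.x0) 1 - fun a => (R.lq a : K) : V → K) a = 0) ∧
      P.D (G.ku R.x0) = P.cl (Pi.single (G.ku R.x0) 1 - fun a => (R.lq a : K)) := by
  have hf := (G.kuf _ R.hx0).1.ne
  have := out_one A R (G.ku R.x0) G.l R.lq 0 (by
    rintro a (rfl | rfl | rfl)
    · rw [(G.memX _).mp R.hx0, Pi.single_eq_of_ne hf.2.1]
    · rw [(G.memX _).mp (x1_mem R), Pi.single_eq_of_ne hf.2.2]
    · rw [(G.kuf _ R.hx0).2, Pi.single_eq_same]) (fun a => by rw [R.lqv]; ring)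
  simpa using this

theorem dec (A : PLA G) (R : TPF G) (a : V) : ∃ (c : V → K) (t : K), (∀ b, Std (c b)) ∧
    (∀ b, R.Out b → c b = 0) ∧ P.D a = P.cl c + t • G.fc := by
  have hf := (G.kuf _ R.hx0).1
  by_cases ha : R.Out a
  · rcases ha with rfl | rfl | rfl
    · obtain ⟨u, u0, u1, u2⟩ := exists_form hf.det_ne 1 0 0
      obtain ⟨h1, h2⟩ := out_one A R R.x0 u R.s0 R.w0 (by
        rintro a (rfl | rfl | rfl)
        · rw [u0, Pi.single_eq_same]
        · rw [u1, Pi.single_eq_of_ne hf.ne.1.symm]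
        · rw [u2, Pi.single_eq_of_ne hf.ne.2.1.symm]) (fun a => by
        rw [← lo_cast R, R.coord a]
        simp [u0, u1, u2])
      exact ⟨_, _, fun b => (std_single _ _).sub (Std.rat _), h1, h2⟩
    · obtain ⟨u, u0, u1, u2⟩ := exists_form hf.det_ne 0 1 0
      obtain ⟨h1, h2⟩ := out_one A R (G.nx R.x0) u R.s1 R.w1 (by
        rintro a (rfl | rfl | rfl)
        · rw [u0, Pi.single_eq_of_ne hf.ne.1]
        · rw [u1, Pi.single_eq_same]
        · rw [u2, Pi.single_eq_of_ne hf.ne.2.2.symm]) (fun a => by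
        rw [← lo_cast R, R.coord a]
        simp [u0, u1, u2])
      exact ⟨_, _, fun b => (std_single _ _).sub (Std.rat _), h1, h2⟩
    · obtain ⟨h1, h2⟩ := ku_dec A R
      exact ⟨_, 0, fun b => (std_single _ _).sub (Std.rat _), h1,
        by rw [zero_smul, add_zero]; exact h2⟩
  · exact ⟨Pi.single a 1, 0, std_single a,
      fun b hb => Pi.single_eq_of_ne (by rintro rfl; exact ha hb) _, by simp [P.cl_single]⟩

theorem exists_co (R : TPF G)
    (hi : ∀ c : V → K, (∀ a, R.Out a → c a = 0) → P.cl c = 0 → c = 0)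
    (hs : ∀ x, ∃ c : V → K, (∀ a, R.Out a → c a = 0) ∧ x = P.cl c) :
    ∃ co : (I → K) →ₗ[K] (V → K), (∀ x a, R.Out a → co x a = 0) ∧ (∀ x, P.cl (co x) = x) ∧
      ∀ c : V → K, (∀ a, R.Out a → c a = 0) → co (P.cl c) = c := by
  choose co h1 h2 using hs
  have un : ∀ c : V → K, (∀ a, R.Out a → c a = 0) → co (P.cl c) = c := by
    intro c hc
    refine sub_eq_zero.mp (hi _ (fun a ha => ?_) ?_)
    · rw [Pi.sub_apply, h1 _ a ha, hc a ha, sub_zero]
    · rw [P.cl_sub, ← h2, sub_self]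
  refine ⟨⟨⟨co, fun x y => ?_⟩, fun r x => ?_⟩, h1, fun x => (h2 x).symm, un⟩
  · rw [← un (co x + co y) (fun a ha => by rw [Pi.add_apply, h1 _ a ha, h1 _ a ha, add_zero]),
      P.cl_add, ← h2, ← h2]
  · simp only [RingHom.id_apply]
    rw [← un (r • co x) (fun a ha => by rw [Pi.smul_apply, h1 _ a ha, smul_zero]),
      P.cl_smul, ← h2]

theorem co_Kf (A : PLA G) (R : TPF G) (co : (I → K) →ₗ[K] (V → K))
    (un : ∀ c : V → K, (∀ a, R.Out a → c a = 0) → co (P.cl c) = c) {k : I → K} (hk : k ∈ G.Kf)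
    {b : V} (hb : b ∈ G.X) : co k b = 0 := by
  obtain ⟨c, hc, rfl⟩ := P.mem_sp.mp hk
  rw [HP.cl, map_sum, Finset.sum_apply]
  refine Finset.sum_eq_zero fun a _ => ?_
  rw [map_smul, Pi.smul_apply, smul_eq_mul]
  by_cases ha : a ∈ G.X
  · rw [hc a (by simpa using ha), zero_mul]
  have hab : b ≠ a := by
    rintro rfl
    exact ha hb
  refine mul_eq_zero_of_right _ ?_
  by_cases ho : R.Out a
  · rcases ho with rfl | rfl | rfl
    · exact absurd R.hx0 ha
    · exact absurd (x1_mem R) ha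
    · obtain ⟨h1, h2⟩ := ku_dec A R
      rw [h2, un _ h1, Pi.sub_apply, Pi.single_eq_of_ne hab, ← R.lqv, (G.memX _).mp hb, sub_zero]
  · rw [← P.cl_single, un _ fun b hb => Pi.single_eq_of_ne (by rintro rfl; exact ho hb) _,
      Pi.single_eq_of_ne hab]

theorem f_std (A : PLA G) (R : TPF G) (e y : V) : Std (P.mu G.fc (P.D e) (P.D y)) := by
  rw [A.fc_lo, P.mu_cl]
  refine Std.sum _ fun a _ => ?_
  by_cases ha : a ∈ G.X
  · rw [(G.memX _).mp ha]
    simpa using Std.zero
  · rw [← lo_cast R]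
    exact (Std.rat _).mul (R.stdm a e y (Or.inl ha))

/-- the forms to which the linear lemma is applied -/
noncomputable def frm (R : TPF G) :
    (V × V) ⊕ V ⊕ (V × V × V) ⊕ (V × V) → (V × V → K) →ₗ[K] K
  | Sum.inl (a, b) => if R.Out b ∨ (a ∉ G.X ∧ b ∈ G.X) then LinearMap.proj (a, b) else 0
  | Sum.inr (Sum.inl b) => colF b fun a => max (- G.l (P.v a)) 0
  | Sum.inr (Sum.inr (Sum.inl (a, b, c))) =>
    if c ∈ G.X then 0 else rowF a (fun e => P.m3 e b c) + rowF b (fun e => P.m3 a e c)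
      + rowF c (fun e => if e ∈ G.X then 0 else P.m3 a b e)
  | Sum.inr (Sum.inr (Sum.inr (x, y))) =>
    if x ∈ G.X ∧ ¬ R.Out x ∧ y ∈ G.X then rowF x (fun e => P.mu G.fc (P.D e) (P.D y)) else 0

theorem frm_std (A : PLA G) (R : TPF G) (i : (V × V) ⊕ V ⊕ (V × V × V) ⊕ (V × V)) (k : V × V) :
    Std (frm R i (Pi.single k 1)) := by
  rcases i with ⟨a, b⟩ | b | ⟨a, b, c⟩ | ⟨x, y⟩ <;> simp only [frm]
  · split_ifs
    · exact std_single _ _
    · exact Std.zero
  · exact colF_std _ (fun a => lo_cast R a ▸ Std.rat _) _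
  · split_ifs with h
    · exact Std.zero
    · refine ((rowF_std _ (fun e => R.stdm _ _ _ (Or.inr (Or.inr h))) _).add
        (rowF_std _ (fun e => R.stdm _ _ _ (Or.inr (Or.inr h))) _)).add (rowF_std _ (fun e => ?_) _)
      split_ifs with h'
      · exact Std.zero
      · exact R.stdm _ _ _ (Or.inr (Or.inr h'))
  · split_ifs
    · exact rowF_std _ (fun e => f_std A R e y) _
    · exact Std.zero

theorem frm3 (R : TPF G) (m : V × V → K) (a b c : V) (hc : c ∉ G.X)
    (h : ∀ e ∈ G.X, m (c, e) = 0) : frm R (Sum.inr (Sum.inr (Sum.inl (a, b, c)))) m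
      = P.mu (P.cl fun e => m (a, e)) (P.D b) (P.D c)
        + P.mu (P.D a) (P.cl fun e => m (b, e)) (P.D c)
        + P.mu (P.D a) (P.D b) (P.cl fun e => m (c, e)) := by
  simp only [frm, if_neg hc, LinearMap.add_apply, rowF_apply]
  rw [P.mu_cl, mu_cl2, P.form_cl]
  congr 1
  refine Finset.sum_congr rfl fun e _ => ?_
  split_ifs with he
  · rw [h e he, zero_mul, zero_mul]
  · rfl

end SPLITx

open SPLITx in
theorem p_SPLIT (hLINB : S_LINB) (hTPE : S_TPE) (hVERT2 : S_VERT2) :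
    S_SPLIT := by
  intro K V I _ _ _ _ _ _ _ P G A R hf h5 d r hr
  obtain ⟨-, hE, hi, hs, -⟩ := hTPE K V I P G A R hf
  obtain ⟨E, hE⟩ := hE d
  obtain ⟨co, co1, co2, un⟩ := exists_co R hi hs
  have hD : ∀ a, a ∉ G.X → P.D a ∈ G.Kf := fun a ha => Submodule.subset_span ⟨a, ha, rfl⟩
  have hlo : ∀ a, R.Out a → (fun a => max (- G.l (P.v a)) 0) a = 0 := fun a ha => lo_out R ha
  have hrow : ∀ a, P.cl (fun e => co (E (P.D a)) e) = E (P.D a) := fun a => co2 _
  obtain ⟨m, hm, hsm⟩ := hLINB K _ _ (frm R) (frm_std A R) (fun k => co (E (P.D k.1)) k.2) r (by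
    rintro (⟨a, b⟩ | b | ⟨a, b, c⟩ | ⟨x, y⟩)
    · simp only [frm]
      split_ifs with h
      · refine (BO.zero r).of_eq ?_
        rcases h with h | h
        · exact co1 _ _ h
        · exact co_Kf A R co un (hE.EK _ (hD a h.1)) h.2
      · exact BO.zero r
    · refine (BO.zero r).of_eq ?_
      have : co (E G.fc) b = 0 := by rw [hE.Ef, map_zero, Pi.zero_apply]
      rw [A.fc_lo, HP.cl, map_sum, map_sum, Finset.sum_apply] at this
      simpa [frm, colF_apply] using this
    · by_cases hc : c ∈ G.X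
      · simp only [frm, if_pos hc]
        exact BO.zero r
      · rw [frm3 R _ a b c hc (fun e he => co_Kf A R co un (hE.EK _ (hD c hc)) he), hrow, hrow,
          hrow]
        exact (BO.zero r).of_eq (hE.inv _ _ _ (hD c hc))
    · simp only [frm]
      split_ifs with h
      · refine (hr x h.1 y h.2.2).of_eq ?_
        rw [rowF_apply, ← mu_cl2, hrow, hE.Eb x h.2.1]
        rfl
      · exact BO.zero r)
  have m0 : ∀ a b, R.Out b ∨ (a ∉ G.X ∧ b ∈ G.X) → m (a, b) = 0 := by
    intro a b h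
    have := hm (Sum.inl (a, b))
    simpa only [frm, if_pos h, LinearMap.proj_apply] using this
  obtain ⟨U, hU⟩ : ∃ U : Module.End K (I → K), ∀ c : V → K, (∀ a, R.Out a → c a = 0) →
      U (P.cl c) = ∑ a, c a • P.cl fun e => m (a, e) := by
    refine ⟨∑ a, ((LinearMap.proj a).comp co).smulRight (P.cl fun e => m (a, e)), fun c hc => ?_⟩
    simp [LinearMap.sum_apply, un c hc]
  have hUD : ∀ a, ¬ R.Out a → U (P.D a) = P.cl fun e => m (a, e) := by
    intro a ha
    rw [← P.cl_single, hU _ fun b hb => Pi.single_eq_of_ne (by rintro rfl; exact ha hb) _]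
    simp [Pi.single_apply, ite_smul]
  have hsum : ∀ (c : V → K) (n : V × V → K), ∑ a, c a • P.cl (fun e => n (a, e))
      = P.cl fun e => ∑ a, c a * n (a, e) := by
    intro c n
    simp only [HP.cl, Finset.smul_sum, Finset.sum_smul, smul_smul]
    exact Finset.sum_comm
  have Uf : U G.fc = 0 := by
    rw [A.fc_lo, hU _ hlo, hsum]
    have : (fun e => ∑ a, max (- G.l (P.v a)) 0 * m (a, e)) = 0 := by
      funext e
      have := hm (Sum.inr (Sum.inl e))
      simpa only [frm, colF_apply, Pi.zero_apply] using this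
    rw [this, P.cl_zero]
  have UK : ∀ x, U x ∈ G.Kf := by
    intro x
    rw [← co2 x, hU _ (co1 x)]
    refine Submodule.sum_mem _ fun a _ => ?_
    by_cases ho : R.Out a
    · rw [co1 x a ho, zero_smul]
      exact Submodule.zero_mem _
    refine Submodule.smul_mem _ _ ?_
    by_cases ha : a ∈ G.X
    · refine A.nd _ fun y hy => ?_
      have := hm (Sum.inr (Sum.inr (Sum.inr (a, y))))
      simp only [frm, if_pos (And.intro ha (And.intro ho hy)), rowF_apply] at this
      rw [mu_cl2, this]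
    · exact P.mem_sp.mpr ⟨_, fun b hb => m0 a b (Or.inr ⟨ha, by simpa using hb⟩), rfl⟩
  have Ur : ∀ x y, ∀ k ∈ G.Kf, rho U P.mu x y k = 0 := by
    intro x y k hk
    rw [← co2 x, ← co2 y, ← co2 k]
    refine rho_cl U _ _ _ fun a b c ha hb hc => ?_
    have hcX : c ∉ G.X := fun h => hc (co_Kf A R co un hk h)
    have := hm (Sum.inr (Sum.inr (Sum.inl (a, b, c))))
    rw [frm3 R m a b c hcX fun e he => m0 c e (Or.inr ⟨hcX, he⟩)] at this
    rw [rho, hUD a fun h => ha (co1 _ _ h), hUD b fun h => hb (co1 _ _ h),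
      hUD c fun h => hc (co1 _ _ h), this]
  obtain ⟨s, n, hsn, s1, -, s2, -, -, hn⟩ := hVERT2 K V I P G A U 0 UK Uf Ur (fun _ _ => rfl)
  choose ln hln using hn (by omega)
  choose le hle using hE.Ea
  choose c t c1 c2 c3 using dec A R
  refine ⟨⟨s, fun a => le a + ln (P.D a),
    fun a e => ∑ a', c a a' * (co (E (P.D a')) e - m (a', e)), s1, s2, fun a => ?_,
    fun a b hb => ?_,
    fun a b => BO.sum _ fun a' _ => (hsm (a', b)).fi_mul (c1 a a').fi⟩⟩
  · have e1 : E (P.D a) = ∑ a', c a a' • E (P.D a') := by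
      conv_lhs => rw [c3 a, map_add, map_smul, hE.Ef, smul_zero, add_zero, HP.cl, map_sum]
      simp only [map_smul]
    have e2 : U (P.D a) = ∑ a', c a a' • P.cl fun e => m (a', e) := by
      conv_lhs => rw [c3 a, map_add, map_smul, Uf, smul_zero, add_zero, hU _ (c2 a)]
    have e3 : P.cl (fun e => ∑ a', c a a' * (co (E (P.D a')) e - m (a', e)))
        = E (P.D a) - U (P.D a) := by
      rw [← hsum (c a) fun k => co (E (P.D k.1)) k.2 - m k, e1, e2, ← Finset.sum_sub_distrib]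
      refine Finset.sum_congr rfl fun a' _ => ?_
      rw [← smul_sub, ← hrow a', ← P.cl_sub]
      rfl
    rw [e3, hle a, hsn, LinearMap.add_apply, hln, add_smul]
    abel
  · exact Finset.sum_eq_zero fun a' _ => by rw [co1 _ _ hb, m0 a' b (Or.inl hb), sub_zero, mul_zero]

end Pool.Agent.P.MP_33ab4b_ag.T
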