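import Pool.Agent.P.MP_33ab4b_ag.T.IfaceT

/-! Step ST1. -/

set_option autoImplicit false

namespace Pool.Agent.P.MP_33ab4b_ag.T

open scoped Classical

namespace ST1x

theorem rel {K V M : Type} [Field K] [AddCommGroup M] [Module K M] [Module.Finite K M]
    (S : Finset V) (u : V → M) (h : Module.finrank K M < S.card) :
    ∃ s : V → K, (∀ a, a ∉ S → s a = 0) ∧ ∑ i ∈ S, s i • u i = 0 ∧ ∃ i ∈ S, s i ≠ 0 := by
  have hn : ¬ LinearIndependent K (fun i : S => u i) := fun hl => by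
    have := hl.fintype_card_le_finrank
    rw [Fintype.card_coe] at this
    omega
  obtain ⟨g, hg, i, hi⟩ := Fintype.not_linearIndependent_iff.1 hn
  refine ⟨fun a => if h : a ∈ S then g ⟨a, h⟩ else 0, fun a ha => dif_neg ha, ?_, i, i.2, ?_⟩
  · rw [← Finset.sum_coe_sort S, ← hg]
    exact Finset.sum_congr rfl fun a _ => by simp only [dif_pos a.2]
  · simpa only [dif_pos i.2] using hi

variable {K V I : Type} [Field K] [LinearOrder K] [IsStrictOrderedRing K] [Fintype V]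
  [DecidableEq V] [Fintype I] [DecidableEq I] {P : HP K V I} {T : TAG P}

theorem Bj_mem {j : V} (hj : j ∈ T.J) : T.Bj j ∈ T.B :=
  Submodule.subset_span ⟨j, hj, rfl⟩

theorem q_comm (x y : I → K) : T.q x y = T.q y x := P.mu12 _ _ _

theorem qnx_ne (A : TAA T) {j : V} (hj : j ∈ T.J) : T.q (T.Bj j) (T.Bj (T.nx j)) ≠ 0 := by
  rw [A.qnx j hj, ← T.omdef j hj]
  exact one_div_ne_zero (T.cyc.pos j hj).ne'

theorem mu0 (A : TAA T) {y : V} (hy : y ∈ T.C) {b b' : I → K} (hb : b ∈ T.B) (hb' : b' ∈ T.B) :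
    P.mu b b' (P.D y) = 0 := by
  have h1 : y ≠ T.N := fun h => T.NC.1 (h ▸ hy)
  have h2 : y ≠ T.S := fun h => T.NC.2.1 (h ▸ hy)
  rw [A.BB b hb b' hb', LinearMap.smul_apply, A.z0 y h1 h2, smul_zero]

theorem f0 (A : TAA T) {y : V} (hy : y ∈ T.C) {b : I → K} (hb : b ∈ T.B) : A.f y b = 0 := by
  have hj := T.chJ y hy
  have hn := Bj_mem (T.cyc.mem _ hj).1
  have h := mu0 A hy hn hb
  rw [P.mu23, A.BC _ hn y hy, LinearMap.smul_apply, smul_eq_mul, q_comm] at h
  exact (mul_eq_zero.1 h).resolve_left (qnx_ne A hj)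

theorem key (A : TAA T) (d : Derivation ℚ K K) {y : V} (hy : y ∈ T.C) {b b' : I → K}
    (hb : b ∈ T.B) (hb' : b' ∈ T.B) :
    T.q b' (T.Bj (T.ch y)) * A.f y (dv d b) + T.q b (T.Bj (T.ch y)) * A.f y (dv d b')
      + T.q b b' * A.z (P.ep d y) = 0 := by
  have h := P.d_mu d b b' (P.D y)
  rw [mu0 A hy hb hb', map_zero, P.mu13 (dv d b), P.mu12 (P.D y), A.BC _ hb' y hy,
    P.mu23 b (dv d b'), A.BC _ hb y hy, A.BB b hb b' hb'] at h
  simpa only [LinearMap.smul_apply, smul_eq_mul, HP.ep] using h.symm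

theorem comb_mem (S : Finset V) (hS : S ⊆ T.J) (s : V → K) : ∑ i ∈ S, s i • T.Bj i ∈ T.B :=
  sum_mem fun _ hi => Submodule.smul_mem _ _ (Bj_mem (hS hi))

theorem q_comb (S : Finset V) (s : V → K) (x : I → K) :
    T.q (∑ i ∈ S, s i • T.Bj i) x = ∑ i ∈ S, s i * T.q (T.Bj i) x := by
  simp only [TAG.q, map_sum, map_smul, LinearMap.sum_apply, LinearMap.smul_apply, smul_eq_mul]

theorem f_comb (A : TAA T) (d : Derivation ℚ K K) {y : V} (hy : y ∈ T.C) (S : Finset V)
    (hS : S ⊆ T.J) (s : V → K) :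
    A.f y (dv d (∑ i ∈ S, s i • T.Bj i)) = ∑ i ∈ S, s i * A.f y (dv d (T.Bj i)) := by
  rw [dv_sum, map_sum]
  refine Finset.sum_congr rfl fun i hi => ?_
  rw [dv_smul, map_add, map_smul, map_smul, f0 A hy (Bj_mem (hS hi)), smul_zero, add_zero,
    smul_eq_mul]

theorem comb_ne (A : TAA T) {j : V} (hj : j ∈ T.J) (s : V → K)
    (hs : ∀ a, a ∉ (T.J.erase j).erase (T.nx j) → s a = 0)
    (h : ∑ i ∈ (T.J.erase j).erase (T.nx j), s i • T.Bj i = 0) :
    ∀ i ∈ (T.J.erase j).erase (T.nx j), s i = 0 := by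
  have hsub : (T.J.erase j).erase (T.nx j) ⊆ T.J :=
    (Finset.erase_subset _ _).trans (Finset.erase_subset _ _)
  intro i hi
  refine A.Bind j hj s (hs _ (by simp)) (hs _ (by simp)) ?_ i (hsub hi)
  rw [← h]
  exact (Finset.sum_subset hsub fun a _ ha => by rw [hs a ha, zero_smul]).symm

theorem card_ge (j : V) : T.J.card ≤ ((T.J.erase j).erase (T.nx j)).card + 2 := by
  have h1 := Finset.pred_card_le_card_erase (s := T.J) (a := j)
  have h2 := Finset.pred_card_le_card_erase (s := T.J.erase j) (a := T.nx j)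
  omega

theorem kill (A : TAA T) (d : Derivation ℚ K K) {y : V} (hy : y ∈ T.C)
    (hz : A.z (P.ep d y) ≠ 0) {b : I → K} (hb : b ∈ T.B) (h1 : T.q b (T.Bj (T.ch y)) = 0)
    (h2 : A.f y (dv d b) = 0) : b = 0 := by
  refine A.nd b hb fun j hj => ?_
  have h := key A d hy hb (Bj_mem hj)
  rw [h1, h2, mul_zero, zero_mul, add_zero, zero_add] at h
  exact (mul_eq_zero.1 h).resolve_right hz

end ST1x

open ST1x in
theorem p_ST1 :
    S_ST1 := by
  intro K V I _ _ _ _ _ _ _ P T A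
  refine ⟨fun h5 d y hy => ?_, fun h4 => ?_⟩
  · by_contra hz
    have hj := T.chJ y hy
    have hsub : (T.J.erase (T.ch y)).erase (T.nx (T.ch y)) ⊆ T.J :=
      (Finset.erase_subset _ _).trans (Finset.erase_subset _ _)
    have hc := card_ge (T := T) (T.ch y)
    obtain ⟨s, hs0, hs, i, hi, hne⟩ := rel (K := K) (M := K × K)
      ((T.J.erase (T.ch y)).erase (T.nx (T.ch y)))
      (fun i => (T.q (T.Bj i) (T.Bj (T.ch y)), A.f y (dv d (T.Bj i))))
      (by rw [Module.finrank_prod, Module.finrank_self]; omega)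
    have e1 := congrArg Prod.fst hs
    have e2 := congrArg Prod.snd hs
    simp only [Prod.fst_sum, Prod.snd_sum, Prod.smul_mk, smul_eq_mul, Prod.fst_zero,
      Prod.snd_zero] at e1 e2
    refine hne (comb_ne A hj s hs0 (kill A d hy hz (comb_mem _ hsub s) ?_ ?_) i hi)
    · rw [q_comb, e1]
    · rw [f_comb A d hy _ hsub, e2]
  · by_cases hH : A.H1
    · exact Or.inl hH
    right
    unfold TAA.H1 at hH
    push Not at hH
    obtain ⟨d, y, hy, hz⟩ := hH
    have hj := T.chJ y hy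
    have hsub : (T.J.erase (T.ch y)).erase (T.nx (T.ch y)) ⊆ T.J :=
      (Finset.erase_subset _ _).trans (Finset.erase_subset _ _)
    have hc := card_ge (T := T) (T.ch y)
    have hq : T.q (T.Bj (T.ch y)) (T.Bj (T.ch y)) = 0 := by
      by_contra hq
      obtain ⟨s, hs0, hs, i, hi, hne⟩ := rel (K := K) (M := K)
        ((T.J.erase (T.ch y)).erase (T.nx (T.ch y)))
        (fun i => T.q (T.Bj i) (T.Bj (T.ch y)))
        (by rw [Module.finrank_self]; omega)
      have e1 : T.q (∑ i ∈ (T.J.erase (T.ch y)).erase (T.nx (T.ch y)), s i • T.Bj i)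
          (T.Bj (T.ch y)) = 0 := by
        rw [q_comb]; simpa only [smul_eq_mul] using hs
      refine hne (comb_ne A hj s hs0 (kill A d hy hz (comb_mem _ hsub s) e1 ?_) i hi)
      have h := key A d hy (comb_mem _ hsub s) (Bj_mem hj)
      rw [e1, zero_mul, zero_mul, add_zero, add_zero] at h
      exact (mul_eq_zero.1 h).resolve_left hq
    refine ⟨T.ch y, hj, ?_, d, ?_⟩
    · have h := A.qself _ hj
      rw [hq, eq_comm, neg_eq_zero, cA, div_eq_zero_iff] at h
      refine h.resolve_right (mul_ne_zero ?_ (T.cyc.pos _ hj).ne')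
      have h2 := T.cyc.pos _ (T.cyc.mem _ hj).2.1
      rw [(T.cyc.mem _ hj).2.2.2] at h2
      exact h2.ne'
    · rintro ⟨c, hcd⟩
      have h := key A d hy (Bj_mem hj) (Bj_mem (T.cyc.mem _ hj).1)
      rw [hcd, map_smul, f0 A hy (Bj_mem hj), smul_zero, mul_zero, hq, zero_mul, add_zero,
        zero_add] at h
      exact hz ((mul_eq_zero.1 h).resolve_left (qnx_ne A hj))

end Pool.Agent.P.MP_33ab4b_ag.T
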