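import Pool.Agent.P.MP_33ab4b_ag.T.IfaceT
import Pool.Agent.P.MP_33ab4b_ag.T.IfaceA
import Pool.Agent.P.MP_33ab4b_ag.T.Basic

/-! Step ST2. -/

set_option autoImplicit false

namespace Pool.Agent.P.MP_33ab4b_ag.T

open scoped Classical

namespace ST2x

variable {K V I : Type} [Field K] [LinearOrder K] [IsStrictOrderedRing K] [Fintype V]
  [DecidableEq V] [Fintype I] [DecidableEq I] {P : HP K V I} {T : TAG P}

theorem Bj_mem {j : V} (hj : j ∈ T.J) : T.Bj j ∈ T.B :=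
  Submodule.subset_span ⟨j, hj, rfl⟩

theorem q_comm (x y : I → K) : T.q x y = T.q y x := P.mu12 x y _

theorem nx_mem {j : V} (hj : j ∈ T.J) : T.nx j ∈ T.J := (T.cyc.mem j hj).1

theorem om_ne {j : V} (hj : j ∈ T.J) : (T.om j : K) ≠ 0 := by
  have h := T.cyc.pos j hj
  rw [T.omdef j hj] at h
  exact h.ne'

theorem q_ne (A : TAA T) {j : V} (hj : j ∈ T.J) : T.q (T.Bj (T.nx j)) (T.Bj j) ≠ 0 := by
  rw [q_comm, A.qnx j hj]
  exact one_div_ne_zero (om_ne hj)

theorem z_cl (A : TAA T) (c : V → K) : A.z (P.cl c) = c T.N + c T.S := by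
  rw [P.form_cl]
  rw [Finset.sum_eq_add T.N T.S T.NS]
  · rw [A.zN.1, A.zN.2]; ring
  · intro a _ h
    rw [A.z0 a h.1 h.2, mul_zero]
  · intro h; exact absurd (Finset.mem_univ _) h
  · intro h; exact absurd (Finset.mem_univ _) h

theorem z_B (A : TAA T) {b : I → K} (hb : b ∈ T.B) : A.z b = 0 := by
  induction hb using Submodule.span_induction with
  | mem x hx =>
    obtain ⟨j, _, rfl⟩ := hx
    rw [TAG.Bj, z_cl, (T.beN j).1, (T.beN j).2]; simp
  | zero => simp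
  | add x y _ _ hx hy => rw [map_add, hx, hy, add_zero]
  | smul r x _ hx => rw [map_smul, hx, smul_zero]

theorem z_C (A : TAA T) {y : V} (hy : y ∈ T.C) : A.z (P.D y) = 0 :=
  A.z0 y (by rintro rfl; exact T.NC.1 hy) (by rintro rfl; exact T.NC.2.1 hy)

theorem mBB (A : TAA T) {b b' : I → K} (hb : b ∈ T.B) (hb' : b' ∈ T.B) (x : I → K) :
    P.mu b b' x = T.q b b' * A.z x := by
  rw [A.BB b hb b' hb']; simp

theorem mBC (A : TAA T) {b : I → K} (hb : b ∈ T.B) {y : V} (hy : y ∈ T.C) (x : I → K) :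
    P.mu b (P.D y) x = T.q b (T.Bj (T.ch y)) * A.f y x := by
  rw [A.BC b hb y hy]; simp

theorem z_dv (A : TAA T) (d : Derivation ℚ K K) {b : I → K} (hb : b ∈ T.B) :
    A.z (dv d b) = 0 := by
  by_contra hne
  have key : ∀ c ∈ T.B, 2 * (T.q b c * A.z (dv d b)) + T.q b b * A.z (dv d c) = 0 := by
    intro c hc
    have h := P.d_mu d b b c
    rw [mBB A hb hb c, z_B A hc, mul_zero, map_zero, P.mu13 (dv d b) b c, P.mu12 c b,
      P.mu23 b (dv d b) c, mBB A hb hc, mBB A hb hb] at h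
    linarith
  have h1 : T.q b b = 0 := by
    have h := key b hb
    have h2 : T.q b b * A.z (dv d b) = 0 := by linarith
    exact (mul_eq_zero.mp h2).resolve_right hne
  have h3 : b = 0 := by
    refine A.nd b hb fun j hj => ?_
    have h := key _ (Bj_mem hj)
    rw [h1, zero_mul, add_zero] at h
    have h2 : T.q b (T.Bj j) * A.z (dv d b) = 0 := by linarith
    exact (mul_eq_zero.mp h2).resolve_right hne
  apply hne
  have : dv d b = 0 := by rw [h3]; exact dv_std d fun _ => Std.zero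
  rw [this, map_zero]

theorem f_dv (A : TAA T) (hH : A.H1) (d : Derivation ℚ K K) {y : V} (hy : y ∈ T.C) {b : I → K}
    (hb : b ∈ T.B) : A.f y (dv d b) = 0 := by
  have key : ∀ b ∈ T.B, ∀ c ∈ T.B, T.q c (T.Bj (T.ch y)) * A.f y (dv d b)
      + T.q b (T.Bj (T.ch y)) * A.f y (dv d c) = 0 := by
    intro b hb c hc
    have h := P.d_mu d b c (P.D y)
    have h0 : A.z (dv d (P.D y)) = 0 := hH d y hy
    rw [mBB A hb hc, z_C A hy, mul_zero, map_zero, mBB A hb hc, h0, mul_zero, add_zero,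
      P.mu13 (dv d b) c, P.mu12 (P.D y) c, P.mu23 b (dv d c), mBC A hc hy, mBC A hb hy] at h
    exact h.symm
  have hj := T.chJ y hy
  have h0 := q_ne A hj
  have hb0 := Bj_mem (nx_mem hj)
  have h1 : A.f y (dv d (T.Bj (T.nx (T.ch y)))) = 0 := by
    have h := key _ hb0 _ hb0
    have h2 : T.q (T.Bj (T.nx (T.ch y))) (T.Bj (T.ch y)) * A.f y (dv d (T.Bj (T.nx (T.ch y)))) = 0 := by
      linarith
    exact (mul_eq_zero.mp h2).resolve_left h0
  have h := key b hb _ hb0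
  rw [h1, mul_zero, add_zero] at h
  exact (mul_eq_zero.mp h).resolve_left h0

theorem mBW (A : TAA T) {b : I → K} (hb : b ∈ T.B) {w : I → K} (hw : w ∈ T.W0) :
    P.mu b w = 0 := by
  induction hw using Submodule.span_induction with
  | mem x hx =>
    obtain ⟨i, hi, rfl⟩ := hx
    exact A.BI b hb i hi
  | zero => simp
  | add x y _ _ hx hy => rw [map_add, hx, hy, add_zero]
  | smul r x _ hx => rw [map_smul, hx, smul_zero]

theorem dv_B (A : TAA T) (hH : A.H1)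
    (hR : ∀ w ∈ T.W0, (∀ i ∈ T.In, ∀ i' ∈ T.In, P.mu w (P.D i) (P.D i') = 0) → w = 0)
    (d : Derivation ℚ K K) {b : I → K} (hb : b ∈ T.B) : dv d b ∈ T.B := by
  have hP := A.radW _ (z_dv A d hb) fun y hy => f_dv A hH d hy hb
  obtain ⟨b', hb', w, hw, e⟩ := Submodule.mem_sup.mp hP
  have hw0 : w = 0 := by
    refine hR w hw fun i hi i' hi' => ?_
    have h := P.d_mu_zero d (A.BI b hb i hi) (P.D i')
    rw [P.mu23 b, A.BI b hb i' hi', ← e, map_add, LinearMap.add_apply, LinearMap.add_apply,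
      A.BI b' hb' i hi] at h
    simpa using h
  rw [← e, hw0, add_zero]; exact hb'

theorem J_ne (T : TAG P) : ∃ j, j ∈ T.J := T.cyc.ne

theorem single_std (i k : I) : Std ((Pi.single i 1 : I → K) k) := by
  by_cases hk : k = i
  · subst hk; simpa using Std.one
  · rw [Pi.single_eq_of_ne hk]; exact Std.zero

theorem single_mem (i k : I) : (Pi.single i 1 : I → K) k ∈ P.hf.Z := by
  by_cases hk : k = i
  · subst hk; simp
  · rw [Pi.single_eq_of_ne hk]; exact P.hf.Z.zero_mem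

theorem z_std (hSTD : S_STD) (A : TAA T)
    (hB : ∀ d : Derivation ℚ K K, ∀ b ∈ T.B, dv d b ∈ T.B) (i : I) :
    Std (A.z (Pi.single i 1)) := by
  obtain ⟨j, hj⟩ := J_ne T
  have h0 := q_ne A hj
  have hb := Bj_mem (nx_mem hj)
  have hc := Bj_mem hj
  let lam : (I → K) →ₗ[K] K := ∑ k, P.D T.N k • LinearMap.proj k
  have hlam : ∀ x, lam x = ∑ k, P.D T.N k * x k := by
    intro x; simp [lam, LinearMap.sum_apply]
  have h1 : lam (fun k => A.z (Pi.single k 1)) = 1 := by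
    rw [hlam]
    refine Eq.trans ?_ A.zN.1
    conv_rhs => rw [pi_eq_sum_univ' (P.D T.N)]
    simp [map_sum]
  refine hSTD K P.hf I (fun k => A.z (Pi.single k 1)) 1 lam one_ne_zero (fun k => ?_) (fun k => ?_)
    (by rw [h1]; exact Std.one) (by rw [h1]; exact one_ne_zero) (fun d => ?_) i
  · obtain ⟨y, hy, e⟩ := P.onto k
    have e' : A.z (Pi.single k 1) = y T.N + y T.S := by
      rw [e]; exact z_cl A y
    rw [e', Rat.cast_one, one_mul]
    exact P.hf.Z.add_mem (hy _) (hy _)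
  · rw [hlam]
    exact sum_mem fun l _ => P.hf.Z.mul_mem (P.DZ _ _) (single_mem k l)
  · obtain ⟨b, eb⟩ : ∃ b, b = T.Bj (T.nx j) := ⟨_, rfl⟩
    obtain ⟨c, ec⟩ : ∃ c, c = T.Bj j := ⟨_, rfl⟩
    rw [← eb] at hb h0
    rw [← ec] at hc h0
    refine ⟨(T.q (dv d b) c + T.q b (dv d c) - d (T.q b c)) / T.q b c, ?_⟩
    funext k
    have h := P.d_mu d b c (Pi.single k 1)
    rw [dv_std d (single_std k), map_zero, add_zero, mBB A hb hc, mBB A (hB d b hb) hc,
      mBB A hb (hB d c hc), Derivation.leibniz] at h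
    simp only [smul_eq_mul] at h
    simp only [dv, Pi.smul_apply, smul_eq_mul]
    field_simp
    linarith

theorem ep_W0 (A : TAA T) (hB : ∀ d : Derivation ℚ K K, ∀ b ∈ T.B, dv d b ∈ T.B)
    (d : Derivation ℚ K K) {i : V} (hi : i ∈ T.In) : P.ep d i ∈ T.W0 := by
  have key : ∀ b ∈ T.B, ∀ x, P.mu b (P.ep d i) x = 0 := by
    intro b hb x
    have h := P.d_mu_zero d (A.BI b hb i hi) x
    rw [A.BI _ (hB d b hb) i hi] at h
    simpa [HP.ep] using h
  obtain ⟨j, hj⟩ := J_ne T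
  have hz : A.z (P.ep d i) = 0 := by
    have h := key _ (Bj_mem (nx_mem hj)) (T.Bj j)
    rw [P.mu23, mBB A (Bj_mem (nx_mem hj)) (Bj_mem hj)] at h
    exact (mul_eq_zero.mp h).resolve_left (q_ne A hj)
  have hf : ∀ y ∈ T.C, A.f y (P.ep d i) = 0 := by
    intro y hy
    have hj' := T.chJ y hy
    have h := key _ (Bj_mem (nx_mem hj')) (P.D y)
    rw [P.mu23, mBC A (Bj_mem (nx_mem hj')) hy] at h
    exact (mul_eq_zero.mp h).resolve_left (q_ne A hj')
  obtain ⟨b', hb', w, hw, e⟩ := Submodule.mem_sup.mp (A.radW _ hz hf)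
  have hb0 : b' = 0 := by
    refine A.nd b' hb' fun k hk => ?_
    have h := key _ (Bj_mem hk) (P.D T.N)
    rw [← e, map_add, LinearMap.add_apply, mBW A (Bj_mem hk) hw] at h
    rw [q_comm]
    simpa [TAG.q] using h
  rw [← e, hb0, zero_add]; exact hw

theorem cy_ne {j : V} (hj : j ∈ T.J) (hr : T.Red j) : (T.cy j : K) ≠ 0 := by
  obtain ⟨hC, hch⟩ := T.JC j hj
  have hup : T.up j = T.N := (T.upN j hC).mpr hch.symm
  have hdn : T.dn j ∈ T.C ∧ T.ch (T.dn j) = T.ch j := by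
    rcases (T.dnC j hC).2 with h | h
    · have := T.dnS j hC h
      rw [hch] at this
      exact absurd this.symm hr
    · exact ⟨h.1, h.2.1⟩
  have h1 := (T.cyb j hC).1
  have h2 := (T.beC _ hdn.1).1
  rw [hdn.2] at h2
  rw [hup, (T.beN _).1, zero_add] at h1
  have h3 : T.cy j ≠ 0 := by
    intro h; rw [h, zero_mul] at h1; exact h2.ne' h1
  exact_mod_cast h3

theorem f_self (A : TAA T) {y : V} (hy : y ∈ T.C) : A.f y (P.D y) = - (T.cy y : K) := by
  rw [A.fD y hy, if_neg (T.upC y hy).1.1, if_neg (T.dnC y hy).1.1, if_pos rfl]; ring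

theorem dv_Bj (A : TAA T) (hB : ∀ d : Derivation ℚ K K, ∀ b ∈ T.B, dv d b ∈ T.B)
    {j : V} (hj : j ∈ T.J) (hr : T.Red j) (d : Derivation ℚ K K) :
    ∃ s : K, dv d (T.Bj j) = s • T.Bj j := by
  obtain ⟨hC, hch⟩ := T.JC j hj
  have hc := Bj_mem hj
  have hdc := hB d _ hc
  have key : ∀ b ∈ T.B, T.q b (T.Bj j) = 0 → T.q b (dv d (T.Bj j)) = 0 := by
    intro b hb h0
    have e1 : P.mu b (P.D j) = 0 := by rw [A.BC b hb j hC, hch, h0, zero_smul]
    have h1 := P.d_mu_zero d e1 (P.D j)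
    rw [P.mu23 b, e1, mBC A (hB d b hb) hC, hch, f_self A hC] at h1
    have h2 : T.q (dv d b) (T.Bj j) = 0 := by
      have h3 : T.q (dv d b) (T.Bj j) * (T.cy j : K) = 0 := by
        simp only [LinearMap.zero_apply] at h1
        linarith
      exact (mul_eq_zero.mp h3).resolve_right (cy_ne hj hr)
    have e2 : P.mu b (T.Bj j) = 0 := by rw [A.BB b hb _ hc, h0, zero_smul]
    have h4 := P.d_mu_zero d e2 (P.D T.N)
    have h5 : T.q (dv d b) (T.Bj j) + T.q b (dv d (T.Bj j)) = 0 := h4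
    linarith
  have h0 := q_ne A hj
  have hb0 := Bj_mem (nx_mem hj)
  obtain ⟨b0, eb⟩ : ∃ b, b = T.Bj (T.nx j) := ⟨_, rfl⟩
  rw [← eb] at h0 hb0
  obtain ⟨c, ec⟩ : ∃ c, c = T.Bj j := ⟨_, rfl⟩
  rw [← ec] at h0 hc hdc key ⊢
  refine ⟨T.q b0 (dv d c) / T.q b0 c, sub_eq_zero.mp ?_⟩
  refine A.nd _ (T.B.sub_mem hdc (T.B.smul_mem _ hc)) fun k hk => ?_
  have hk' := Bj_mem hk
  obtain ⟨b, e⟩ : ∃ b, b = T.Bj k := ⟨_, rfl⟩
  rw [← e] at hk' ⊢
  have lin1 : ∀ (r : K) (x : I → K), T.q (b - r • b0) x = T.q b x - r * T.q b0 x := by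
    intro r x; simp [TAG.q]
  have lin2 : ∀ r : K, T.q (dv d c - r • c) b = T.q b (dv d c) - r * T.q b c := by
    intro r; rw [q_comm]; simp [TAG.q]
  have h := key (b - (T.q b c / T.q b0 c) • b0) (T.B.sub_mem hk' (T.B.smul_mem _ hb0))
    (by rw [lin1]; field_simp; ring)
  rw [lin1] at h
  rw [lin2]
  have e3 : T.q b0 (dv d c) / T.q b0 c * T.q b c = T.q b c / T.q b0 c * T.q b0 (dv d c) := by ring
  rw [e3]; exact h

theorem Bj_std (hSTD : S_STD) (A : TAA T)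
    (hB : ∀ d : Derivation ℚ K K, ∀ b ∈ T.B, dv d b ∈ T.B) {j : V} (hj : j ∈ T.J) (hr : T.Red j)
    (i : I) : Std (T.Bj j i) := by
  have hn := nx_mem hj
  obtain ⟨hC, hch⟩ := T.JC _ hn
  have hup : T.up (T.nx j) = T.N := (T.upN _ hC).mpr hch.symm
  have hdn : T.N ≠ T.dn (T.nx j) := by
    intro h
    rcases (T.dnC _ hC).2 with h' | h'
    · exact T.NS (h.trans h')
    · exact T.NC.1 (h ▸ h'.1)
  have hne : T.N ≠ T.nx j := fun h => T.NC.1 (h ▸ hC)
  have h1 : P.mu (P.D (T.nx j)) (P.D T.N) (T.Bj j) = 1 / (T.om j : K) := by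
    rw [P.mu13, P.mu23, mBC A (Bj_mem hj) hC, hch, A.qnx j hj, A.fD _ hC, if_pos hup.symm,
      if_neg hdn, if_neg hne]
    ring
  refine hSTD K P.hf I (T.Bj j) (∏ a, ((T.be j a).den : ℚ)) (P.mu (P.D (T.nx j)) (P.D T.N))
    (Finset.prod_ne_zero_iff.mpr fun a _ => by exact_mod_cast (T.be j a).den_nz) (fun k => ?_)
    (fun k => P.mu_mem (P.DZ _) (P.DZ _) (single_mem k))
    (by rw [h1]; exact Std.one.div (Std.rat _)) (by rw [h1]; exact one_div_ne_zero (om_ne hj))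
    (dv_Bj A hB hj hr) i
  rw [TAG.Bj, HP.cl, Finset.sum_apply, Finset.mul_sum]
  refine sum_mem fun a _ => ?_
  rw [Pi.smul_apply, smul_eq_mul, ← mul_assoc]
  refine P.hf.Z.mul_mem ?_ (P.DZ a k)
  have e : (∏ b, ((T.be j b).den : ℚ)) * T.be j a
      = (((∏ b ∈ Finset.univ.erase a, ((T.be j b).den : ℤ)) * (T.be j a).num : ℤ) : ℚ) := by
    rw [← Finset.mul_prod_erase _ _ (Finset.mem_univ a)]
    push_cast
    rw [← Rat.mul_den_eq_num (T.be j a)]
    ring
  rw [← Rat.cast_mul, e, Rat.cast_intCast]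
  exact intCast_mem _ _

end ST2x

theorem p_ST2 (hSTD : S_STD) (hRAD0 : S_RAD0) :
    S_ST2 := by
  intro K V I _ _ _ _ _ _ _ P T A hH
  have hB : ∀ d : Derivation ℚ K K, ∀ b ∈ T.B, dv d b ∈ T.B := fun d b hb =>
    ST2x.dv_B A hH (hRAD0 K V I P T A) d hb
  exact ⟨ST2x.z_std hSTD A hB, hB, fun d i hi => ST2x.ep_W0 A hB d hi,
    fun j hj hr => ST2x.Bj_std hSTD A hB hj hr⟩

end Pool.Agent.P.MP_33ab4b_ag.T
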