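import Pool.Agent.P.MP_33ab4b_ag.T.IfaceT
import Pool.Agent.P.MP_33ab4b_ag.T.IfaceA
import Pool.Agent.P.MP_33ab4b_ag.T.IfaceF
import Pool.Agent.P.MP_33ab4b_ag.T.Basic

/-! Step ST3. -/

set_option autoImplicit false

namespace Pool.Agent.P.MP_33ab4b_ag.T

open scoped Classical

namespace ST3x

variable {K V I : Type} [Field K] [LinearOrder K] [IsStrictOrderedRing K] [Fintype V]
  [DecidableEq V] [Fintype I] [DecidableEq I] {P : HP K V I} {T : TAG P}

theorem Bj_mem {j : V} (hj : j ∈ T.J) : T.Bj j ∈ T.B :=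
  Submodule.subset_span ⟨j, hj, rfl⟩

/-- Every linear form on `B` is represented by `q`. -/
theorem riesz (A : TAA T) (l : (I → K) →ₗ[K] K) :
    ∃ b ∈ T.B, ∀ x ∈ T.B, T.q b x = l x := by
  let φ : T.B →ₗ[K] Module.Dual K T.B :=
    LinearMap.mk₂ K (fun x y : T.B => T.q x y)
      (fun x x' y => by simp [TAG.q])
      (fun c x y => by simp [TAG.q])
      (fun x y y' => by simp [TAG.q])
      (fun c x y => by simp [TAG.q])
  have hφ : ∀ x y : T.B, φ x y = T.q x y := fun _ _ => rfl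
  have hinj : Function.Injective φ := by
    rw [injective_iff_map_eq_zero]
    intro x hx
    apply Subtype.ext
    refine A.nd x x.2 fun j hj => ?_
    have := hφ x ⟨T.Bj j, Bj_mem hj⟩
    rw [hx] at this
    simpa using this.symm
  have hsurj : Function.Surjective φ :=
    (LinearMap.injective_iff_surjective_of_finrank_eq_finrank
      (Subspace.dual_finrank_eq (K := K) (V := T.B)).symm).mp hinj
  obtain ⟨b, hb⟩ := hsurj (l.comp T.B.subtype)
  refine ⟨b, b.2, fun x hx => ?_⟩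
  have := hφ b ⟨x, hx⟩
  rw [hb] at this
  simpa using this.symm

theorem q_std (A : TAA T) (hz : ∀ i, Std (A.z (Pi.single i 1))) {x y : I → K} (hx : x ∈ T.B)
    (hy : y ∈ T.B) (sx : ∀ i, Std (x i)) (sy : ∀ i, Std (y i)) : Std (T.q x y) := by
  have hne : ∃ i, A.z (Pi.single i 1) ≠ 0 := by
    by_contra h
    push Not at h
    have e : A.z (P.D T.N) = 0 := by
      conv_lhs => rw [pi_eq_sum_univ' (P.D T.N)]
      simp [map_sum, h]
    rw [A.zN.1] at e
    exact one_ne_zero e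
  obtain ⟨i, hi⟩ := hne
  have e : P.mu x y (Pi.single i 1) = T.q x y * A.z (Pi.single i 1) := by
    rw [A.BB x hx y hy]; simp
  have hs : Std (P.mu x y (Pi.single i 1)) := by
    refine P.mu_std sx sy fun k => ?_
    by_cases hk : k = i
    · subst hk; simpa using Std.one
    · rw [Pi.single_eq_of_ne hk]; exact Std.zero
  exact (hs.div (hz i)).of_eq (by rw [e]; field_simp)

theorem q_sum {n : ℕ} (s : Fin n → K) (b : Fin n → I → K) (y : I → K) :
    T.q (∑ k, s k • b k) y = ∑ k, T.q (b k) y * s k := by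
  simp [TAG.q, map_sum, LinearMap.sum_apply, mul_comm]

end ST3x

theorem p_ST3 (hSTDSUB : S_STDSUB) (hWREL : S_WREL) :
    S_ST3 := by
  intro K V I _ _ _ _ _ _ _ P T A hS
  obtain ⟨hz, hB, _, hR⟩ := hS
  obtain ⟨n, b, hb, sb, hsp⟩ := hSTDSUB K P.hf I T.B hB
  obtain ⟨bH, hH, hq⟩ := ST3x.riesz A (P.mu P.H P.H)
  have hpos : ∀ j ∈ T.J, 0 < T.q bH (T.Bj j) := by
    intro j hj
    rw [hq _ (ST3x.Bj_mem hj), TAG.Bj, P.form_cl]
    have hw := (hWREL K V I P).2.2.1
    refine Finset.sum_pos' (fun a _ => mul_nonneg ?_ (hw a).le) ⟨j, Finset.mem_univ _, ?_⟩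
    · exact_mod_cast T.be_nonneg j a
    · rw [(T.beJ j hj).1]
      simpa using hw j
  have hstd : ∀ j : {j // j ∈ T.J ∧ T.Red j}, ∀ k, Std (T.q (b k) (T.Bj j)) := fun j k =>
    ST3x.q_std A hz (hb k) (ST3x.Bj_mem j.2.1) (sb k) (hR j j.2.1 j.2.2)
  choose c hc using hstd
  obtain ⟨s, hs⟩ := hsp bH hH
  obtain ⟨r, hr⟩ := P.hf.ineq {j // j ∈ T.J ∧ T.Red j} (Fin n) c ⟨s, fun j => by
    have := hpos j j.2.1
    rw [hs, ST3x.q_sum] at this
    simpa [hc] using this⟩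
  refine ⟨∑ k, (r k : K) • b k, sum_mem fun k _ => Submodule.smul_mem _ _ (hb k), fun i => ?_,
    fun j hj hr' => ?_⟩
  · rw [Finset.sum_apply]
    exact Std.sum _ fun k _ => (Std.rat (r k)).mul (sb k i)
  · have e : T.q (∑ k, (r k : K) • b k) (T.Bj j) = ((∑ k, c ⟨j, hj, hr'⟩ k * r k : ℚ) : K) := by
      rw [ST3x.q_sum]
      push_cast
      exact Finset.sum_congr rfl fun k _ => by rw [hc ⟨j, hj, hr'⟩ k]
    rw [e]
    exact ⟨Std.rat _, by exact_mod_cast hr ⟨j, hj, hr'⟩⟩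

end Pool.Agent.P.MP_33ab4b_ag.T
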