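import Pool.Agent.P.MP_33ab4b_ag.T.IfaceT
import Pool.Agent.P.MP_33ab4b_ag.T.IfaceA

/-! Step ST4. -/

set_option autoImplicit false

namespace Pool.Agent.P.MP_33ab4b_ag.T

open scoped Classical

namespace ST4x

variable {K V I : Type} [Field K] [LinearOrder K] [IsStrictOrderedRing K] [Fintype V]
  [DecidableEq V] [Fintype I] [DecidableEq I]

omit [DecidableEq I] in
theorem den (hf : HF K) {x : I → K} (hx : ∀ i, Std (x i)) :
    ∃ c : K, Std c ∧ c ≠ 0 ∧ ∀ i, (c • x) i ∈ hf.Z := by
  choose q hq using hx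
  refine ⟨((∏ i, (q i).den : ℕ) : K), Std.nat _, ?_, fun i => ?_⟩
  · exact Nat.cast_ne_zero.2 (Finset.prod_ne_zero_iff.2 fun i _ => (q i).den_nz)
  · rw [Pi.smul_apply, smul_eq_mul, hq i, ← Finset.mul_prod_erase _ _ (Finset.mem_univ i),
      Nat.cast_mul, mul_comm ((q i).den : K), mul_assoc]
    refine mul_mem (natCast_mem _ _) ?_
    have h : ((q i).den : K) * (q i : K) = ((q i).num : K) := by
      have h0 : ((q i).den : K) ≠ 0 := Nat.cast_ne_zero.2 (q i).den_nz
      rw [Rat.cast_def]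
      field_simp
    rw [h]
    exact intCast_mem _ _

variable {P : HP K V I} {T : TAG P}

theorem simple (A : TAA T) {y : V} (hy : y ∈ T.C) (h : ¬ T.Red (T.ch y)) (w : I → K) :
    A.f y w = A.z w := by
  have hj := T.chJ y hy
  have hb : T.bot (T.ch y) = T.ch y := not_not.1 h
  have hall : ∀ a ∈ T.C, T.ch a = T.ch y → a = T.ch y := by
    refine T.chind (fun a => a = T.ch y) _ hj rfl ?_
    intro a _ _ ha hd
    have := (T.botC _ hj).2.2.1
    rw [hb, ← ha] at this
    rw [this] at hd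
    exact absurd hd T.NC.2.1
  have hs := A.fsum _ hj w
  rw [Finset.sum_eq_single y] at hs
  · have e : T.be (T.ch y) y = 1 := by
      have h1 := (T.beJ _ hj).1
      have h2 := hall y hy rfl
      rw [← h2] at h1 ⊢
      exact h1
    rw [e] at hs
    simpa using hs
  · intro a ha hne
    rw [Finset.mem_filter] at ha
    exact absurd ((hall a ha.1 ha.2).trans (hall y hy rfl).symm) hne
  · intro hn
    exact (hn (Finset.mem_filter.2 ⟨hy, rfl⟩)).elim

theorem zC (A : TAA T) {y : V} (hy : y ∈ T.C) : A.z (P.D y) = 0 :=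
  A.z0 y (fun e => T.NC.1 (e ▸ hy)) (fun e => T.NC.2.1 (e ▸ hy))

theorem poles (A : TAA T) {w : I → K} (hw : A.z w = 0) :
    ∃ c : V → K, c T.N = 0 ∧ c T.S = 0 ∧ w = P.cl c := by
  obtain ⟨c, rfl⟩ := P.exists_cl w
  have hz : c T.N + c T.S = 0 := by
    rw [P.form_cl, Finset.sum_eq_add_of_mem T.N T.S (Finset.mem_univ _) (Finset.mem_univ _) T.NS,
      A.zN.1, A.zN.2] at hw
    · simpa using hw
    · intro a _ ha
      rw [A.z0 a ha.1 ha.2, mul_zero]
  obtain ⟨s, hs, hN⟩ := P.used T.N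
  obtain ⟨a, b, -, hf⟩ := Fan.exists_face_of_mem hs hN
  obtain ⟨u, hu, -, -⟩ := exists_form hf.det_ne (c T.N) 0 0
  refine ⟨c - fun a => u (P.v a), ?_, ?_, ?_⟩
  · simp [hu]
  · have := T.axis
    simp only [Pi.sub_apply]
    rw [this, map_neg, hu]
    linarith
  · rw [P.cl_sub, P.cl_form, sub_zero]

theorem muC (A : TAA T) {b : I → K} (hb : b ∈ T.B) {c : V → K} (hN : c T.N = 0) (hS : c T.S = 0)
    (x : I → K) : P.mu b (P.cl c) x = ∑ a ∈ T.C, c a * P.mu b (P.D a) x := by
  rw [P.mu12, P.mu_cl]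
  symm
  refine (Finset.sum_subset (Finset.subset_univ _) fun a _ ha => ?_).trans
    (Finset.sum_congr rfl fun a _ => by rw [P.mu12])
  rcases T.part a with rfl | rfl | h | h
  · rw [hN, zero_mul]
  · rw [hS, zero_mul]
  · exact absurd h ha
  · rw [A.BI b hb a h]; simp

theorem neg (hZ : S_ZAR) (A : TAA T) {b : I → K} (hb : b ∈ T.B)
    (hpos : ∀ j ∈ T.J, T.Red j → 0 < T.q b (T.Bj j)) {w : I → K} (hw : A.z w = 0) :
    P.mu b w w ≤ 0 := by
  obtain ⟨c, hN, hS, rfl⟩ := poles A hw
  have key := (hZ K V T.C (fun a a' => P.mu b (P.D a) (P.D a')) (fun a => (T.be (T.ch a) a : K))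
    (fun a _ a' _ => P.mu23 _ _ _) ?_ (fun a ha => by exact_mod_cast (T.beC a ha).1) ?_ c).1
  · refine le_trans (le_of_eq ?_) key
    rw [muC A hb hN hS]
    refine Finset.sum_congr rfl fun a _ => ?_
    rw [P.mu23, muC A hb hN hS, Finset.mul_sum]
    refine Finset.sum_congr rfl fun a' _ => ?_
    rw [P.mu23 b (P.D a')]
    ring
  · intro a ha a' ha' hne
    rw [A.BC b hb a ha, LinearMap.smul_apply, smul_eq_mul]
    by_cases h : T.Red (T.ch a)
    · refine mul_nonneg (hpos _ (T.chJ a ha) h).le ?_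
      rw [A.fD a ha, if_neg hne.symm]
      split_ifs <;> norm_num
    · rw [simple A ha h, zC A ha', mul_zero]
  · intro a ha
    refine le_of_eq ?_
    rw [← Finset.sum_fiberwise_of_maps_to T.chJ]
    refine Finset.sum_eq_zero fun j hj => ?_
    have hs := A.fsum j hj (P.D a)
    rw [zC A ha] at hs
    rw [← mul_zero (T.q b (T.Bj j)), ← hs, Finset.mul_sum]
    refine Finset.sum_congr rfl fun a' ha' => ?_
    rw [Finset.mem_filter] at ha'
    rw [P.mu23, A.BC b hb a' ha'.1, LinearMap.smul_apply, smul_eq_mul, ha'.2]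
    ring

end ST4x

open ST4x in
theorem p_ST4 (hZAR : S_ZAR) (hST3 : S_ST3) :
    S_ST4 := by
  intro K V I _ _ _ _ _ _ _ P T A hst d y hy
  obtain ⟨b, hb, hbs, hq⟩ := hST3 K V I P T A hst
  have hpos : ∀ j ∈ T.J, T.Red j → 0 < T.q b (T.Bj j) := fun j hj h => (hq j hj h).2
  have hzs := hst.1
  have hexp : ∀ (l : (I → K) →ₗ[K] K) (x : I → K), l x = ∑ i, x i * l (Pi.single i 1) :=
    fun l x => by
      conv_lhs => rw [pi_eq_sum_univ' x]
      simp [map_sum]
  obtain ⟨i0, hi0⟩ : ∃ i0, A.z (Pi.single i0 1) ≠ 0 := by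
    by_contra h
    push Not at h
    have := hexp A.z (P.D T.N)
    rw [A.zN.1] at this
    simp [h] at this
  set e : I → I → K := fun i => A.z (Pi.single i0 1) • (Pi.single i 1 : I → K)
    - A.z (Pi.single i 1) • (Pi.single i0 1 : I → K) with he
  have hes : ∀ i k, Std (e i k) := by
    intro i k
    have h1 : ∀ i, Std ((Pi.single i 1 : I → K) k) := fun i => by
      rw [Pi.single_apply]
      split_ifs
      · exact Std.one
      · exact Std.zero
    exact ((hzs i0).mul (h1 i)).sub ((hzs i).mul (h1 i0))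
  have hez : ∀ i, A.z (e i) = 0 := by
    intro i
    simp only [he, map_sub, map_smul, smul_eq_mul]
    ring
  have hspan : ∀ l : (I → K) →ₗ[K] K, (∀ i, l (e i) = 0) → ∀ w, A.z w = 0 → l w = 0 := by
    intro l hl w hw
    have h1 : ∀ i, A.z (Pi.single i0 1) * l (Pi.single i 1)
        = A.z (Pi.single i 1) * l (Pi.single i0 1) := by
      intro i
      have := hl i
      simp only [he, map_sub, map_smul, smul_eq_mul] at this
      linarith
    refine (mul_eq_zero.1 ?_).resolve_left hi0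
    rw [hexp l w, Finset.mul_sum]
    rw [hexp A.z w] at hw
    rw [← zero_mul (l (Pi.single i0 1)), ← hw, Finset.sum_mul]
    refine Finset.sum_congr rfl fun i _ => ?_
    rw [mul_left_comm, h1 i]
    ring
  have hyy : Std (P.mu b (P.D y) (P.D y)) := by
    rw [A.BC b hb y hy, LinearMap.smul_apply, smul_eq_mul]
    by_cases h : T.Red (T.ch y)
    · refine (hq _ (T.chJ y hy) h).1.mul ?_
      rw [A.fD y hy]
      refine (Std.add ?_ ?_).sub ?_ <;> split_ifs
      exacts [Std.one, Std.zero, Std.one, Std.zero, Std.rat _, Std.zero]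
    · rw [simple A hy h, zC A hy, mul_zero]
      exact Std.zero
  have hstd : ∀ i, Std (P.mu b (P.D y) (e i)) := by
    intro i
    have hee : Std (P.mu b (e i) (e i)) := P.mu_std hbs (hes i) (hes i)
    have h1 := neg hZAR A hb hpos (w := P.D y + e i) (by rw [map_add, zC A hy, hez, add_zero])
    have h2 := neg hZAR A hb hpos (w := P.D y - e i) (by rw [map_sub, zC A hy, hez, sub_zero])
    simp only [map_add, map_sub, LinearMap.add_apply, LinearMap.sub_apply] at h1 h2
    rw [P.mu23 b (e i) (P.D y)] at h1 h2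
    have hfi : Fi (P.mu b (P.D y) (e i)) :=
      Fi.of_le_of_le ((hyy.add hee).div (Std.nat 2)).fi ((hyy.add hee).div (Std.nat 2)).neg.fi
        (by push_cast; linarith) (by push_cast; linarith)
    obtain ⟨c1, s1, n1, z1⟩ := den P.hf hbs
    obtain ⟨c2, s2, n2, z2⟩ := den P.hf (hes i)
    refine P.hf.std_of_fi_mul (s1.mul s2) (mul_ne_zero n1 n2) ?_ hfi
    have := P.mu_mem z1 (P.DZ y) z2
    simp only [map_smul, LinearMap.smul_apply, smul_eq_mul] at this
    rw [mul_comm c1, mul_assoc]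
    exact this
  have hker : ∀ w, A.z w = 0 → P.mu b (P.ep d y) w = 0 := by
    refine hspan _ fun i => ?_
    have := P.d_mu d b (P.D y) (e i)
    rw [(hstd i).der d, dv_std d hbs, dv_std d (hes i)] at this
    simpa [HP.ep] using this.symm
  have hz : A.z (P.ep d y) = 0 := by
    have := d_form d A.z hzs (P.D y)
    rw [zC A hy, map_zero] at this
    exact this.symm
  refine A.radW _ hz fun a ha => ?_
  by_cases h : T.Red (T.ch a)
  · have := hker _ (zC A ha)
    rw [P.mu23, A.BC b hb a ha, LinearMap.smul_apply, smul_eq_mul] at this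
    exact (mul_eq_zero.1 this).resolve_left (hpos _ (T.chJ a ha) h).ne'
  · rw [simple A ha h, hz]

end Pool.Agent.P.MP_33ab4b_ag.T
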