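import Pool.Agent.P.MP_33ab4b_ag.T.IfaceT
import Pool.Agent.P.MP_33ab4b_ag.T.IfaceA

/-! Step ST7. -/

set_option autoImplicit false

namespace Pool.Agent.P.MP_33ab4b_ag.T

open scoped Classical

namespace ST7x

variable {K V I : Type} [Field K] [LinearOrder K] [IsStrictOrderedRing K] [Fintype V]
  [DecidableEq V] [Fintype I] [DecidableEq I] {P : HP K V I} {T : TAG P}

theorem Bj_mem {j : V} (hj : j ∈ T.J) : T.Bj j ∈ T.B :=
  Submodule.subset_span ⟨j, by simpa using hj, rfl⟩

/-- A form that kills all tent classes kills `B`. -/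
theorem killB (l : (I → K) →ₗ[K] K) (h : ∀ j ∈ T.J, l (T.Bj j) = 0) : ∀ b ∈ T.B, l b = 0 := by
  intro b hb
  have hle : T.B ≤ LinearMap.ker l := by
    refine Submodule.span_le.mpr ?_
    rintro _ ⟨j, hj, rfl⟩
    exact h j (by simpa using hj)
  exact hle hb

theorem zB (A : TAA T) : ∀ b ∈ T.B, A.z b = 0 := by
  refine killB A.z fun j _ => ?_
  rw [TAG.Bj, P.form_cl]
  refine Finset.sum_eq_zero fun a _ => ?_
  by_cases hN : a = T.N
  · rw [hN, (T.beN j).1]; simp
  by_cases hS : a = T.S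
  · rw [hS, (T.beN j).2]; simp
  rw [A.z0 a hN hS, mul_zero]

theorem up_ne {y : V} (hy : y ∈ T.C) : y ≠ T.up y := (T.upC y hy).1.1
theorem dn_ne {y : V} (hy : y ∈ T.C) : y ≠ T.dn y := (T.dnC y hy).1.1

theorem fB (A : TAA T) {y : V} (hy : y ∈ T.C) : ∀ b ∈ T.B, A.f y b = 0 := by
  refine killB (A.f y) fun j _ => ?_
  rw [TAG.Bj, P.form_cl]
  have e : ∀ a, (T.be j a : K) * A.f y (P.D a) =
      (if a = T.up y then (T.be j a : K) else 0) + (if a = T.dn y then (T.be j a : K) else 0) -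
        (if a = y then (T.be j a : K) * (T.cy y : K) else 0) := by
    intro a
    rw [A.fD y hy a]
    split_ifs <;> ring
  simp only [e, Finset.sum_sub_distrib, Finset.sum_add_distrib, Finset.sum_ite_eq',
    Finset.mem_univ, if_true]
  by_cases hj : j = T.ch y
  · have h := (T.cyb y hy).1
    rw [← hj] at h
    have h' : ((T.be j (T.up y) + T.be j (T.dn y) : ℚ) : K) = ((T.cy y * T.be j y : ℚ) : K) := by
      rw [h]
    push_cast at h'
    linear_combination h'
  · have h1 : T.be j (T.up y) = 0 := by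
      rcases (T.upC y hy).2 with h | ⟨h, h', _⟩
      · rw [h]; exact (T.beN j).1
      · exact (T.beC _ h).2 j (by rw [h']; exact hj)
    have h2 : T.be j (T.dn y) = 0 := by
      rcases (T.dnC y hy).2 with h | ⟨h, h', _⟩
      · rw [h]; exact (T.beN j).2
      · exact (T.beC _ h).2 j (by rw [h']; exact hj)
    rw [h1, h2, (T.beC y hy).2 j hj]
    simp

theorem fI (A : TAA T) {y : V} (hy : y ∈ T.C) {i : V} (hi : i ∈ T.In) : A.f y (P.D i) = 0 := by
  have h1 : i ≠ T.up y := by
    rintro rfl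
    rcases (T.upC y hy).2 with h | ⟨h, _⟩
    · exact T.NC.2.2.1 (h ▸ hi)
    · exact T.disj _ h hi
  have h2 : i ≠ T.dn y := by
    rintro rfl
    rcases (T.dnC y hy).2 with h | ⟨h, _⟩
    · exact T.NC.2.2.2 (h ▸ hi)
    · exact T.disj _ h hi
  have h3 : i ≠ y := by
    rintro rfl
    exact T.disj _ hy hi
  rw [A.fD y hy i, if_neg h1, if_neg h2, if_neg h3]
  simp

theorem fPm (A : TAA T) {y : V} (hy : y ∈ T.C) : ∀ x ∈ T.Pm, A.f y x = 0 := by
  intro x hx
  have hle : T.Pm ≤ LinearMap.ker (A.f y) := by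
    refine sup_le (fun b hb => fB A hy b hb) ?_
    refine Submodule.span_le.mpr ?_
    rintro _ ⟨i, hi, rfl⟩
    exact fI A hy (by simpa using hi)
  exact hle hx

/-- The fibre class of a chain vertex at the north pole. -/
theorem fN (A : TAA T) {y : V} (hy : y ∈ T.C) (hJ : y ∉ T.J) : A.f y (P.D T.N) = 0 := by
  have h1 : T.N ≠ T.up y := by
    intro h
    have := (T.upN y hy).mp h.symm
    exact hJ (this ▸ T.chJ y hy)
  have h2 : T.N ≠ T.dn y := by
    intro h
    rcases (T.dnC y hy).2 with h' | ⟨h', _⟩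
    · exact T.NS (h.trans h')
    · exact T.NC.1 (h ▸ h')
  have h3 : T.N ≠ y := by
    rintro h
    exact T.NC.1 (h ▸ hy)
  rw [A.fD y hy T.N, if_neg h1, if_neg h2, if_neg h3]
  simp

/-- A class with no coefficient on the poles and on the top vertices is killed by `b D_N`. -/
theorem mu_cl_N (A : TAA T) {b : I → K} (hb : b ∈ T.B) (c : V → K)
    (hc : ∀ a, (a = T.N ∨ a = T.S ∨ a ∈ T.J) → c a = 0) : P.mu b (P.cl c) (P.D T.N) = 0 := by
  rw [P.mu12, P.mu_cl]
  refine Finset.sum_eq_zero fun a _ => ?_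
  rcases T.part a with h | h | h | h
  · rw [hc a (Or.inl h), zero_mul]
  · rw [hc a (Or.inr (Or.inl h)), zero_mul]
  · by_cases hJ : a ∈ T.J
    · rw [hc a (Or.inr (Or.inr hJ)), zero_mul]
    · rw [P.mu12, A.BC b hb a h, LinearMap.smul_apply, fN A h hJ]
      simp
  · rw [P.mu12, A.BI b hb a h]
    simp

theorem eta_coef (a : V) (h : a = T.N ∨ a = T.S ∨ a ∈ T.J) :
    (if a = T.N ∨ a = T.S then (0 : K) else (T.et a : K)) = 0 := by
  split_ifs with h'
  · rfl
  · rcases h with h | h | h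
    · exact absurd (Or.inl h) h'
    · exact absurd (Or.inr h) h'
    · rw [(T.beJ a h).2.1]; simp

theorem DN_eq : P.D T.N = P.D T.S - T.Phi - T.eta := by
  rw [TAG.Phi]; abel

theorem muNN (x : I → K) :
    P.mu x (P.D T.N) (P.D T.N) = - P.mu x (P.D T.N) T.Phi - P.mu x (P.D T.N) T.eta := by
  have h := congrArg (P.mu x (P.D T.N)) (DN_eq (T := T))
  rw [map_sub, map_sub, P.nadj T.NS T.nadj] at h
  rw [h]; ring

theorem muBNN (A : TAA T) {b : I → K} (hb : b ∈ T.B) :
    P.mu b (P.D T.N) (P.D T.N) = - T.q b T.Phi := by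
  have h : P.mu b (P.D T.N) T.eta = 0 := by
    rw [P.mu23, TAG.eta]
    exact mu_cl_N A hb _ eta_coef
  rw [muNN, h, TAG.q, P.mu23 b T.Phi]
  ring

theorem q_comm (x y : I → K) : T.q x y = T.q y x := P.mu12 _ _ _

/-- The cube of the north pole. -/
theorem TN_std (A : TAA T) : Std (P.m3 T.N T.N T.N - T.q T.Phi T.Phi) := by
  have h1 : P.mu (P.D T.N) (P.D T.N) T.Phi = - T.q T.Phi T.Phi := by
    rw [P.mu13]; exact muBNN A A.PhiB
  have h0 : P.mu T.eta (P.D T.N) T.Phi = 0 := by
    rw [P.mu13, P.mu23, TAG.eta]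
    exact mu_cl_N A A.PhiB _ eta_coef
  have h2 : P.mu (P.D T.N) (P.D T.N) T.eta = - P.mu T.eta (P.D T.N) T.eta := by
    rw [P.mu13, muNN, h0]; ring
  have h3 : P.m3 T.N T.N T.N - T.q T.Phi T.Phi = P.mu T.eta T.eta (P.D T.N) := by
    rw [HP.m3, muNN, h1, h2, P.mu23 T.eta T.eta]; ring
  rw [h3]
  have hs : ∀ a, Std (if a = T.N ∨ a = T.S then (0 : K) else (T.et a : K)) := by
    intro a
    split_ifs
    · exact Std.zero
    · exact Std.rat _
  conv => arg 1; arg 1; arg 1; arg 2; rw [TAG.eta]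
  rw [P.mu_cl]
  refine Std.sum _ fun a _ => ?_
  by_cases ha : a = T.N ∨ a = T.S ∨ a ∈ T.J
  · rw [eta_coef a ha, zero_mul]; exact Std.zero
  refine (hs a).mul ?_
  rw [P.mu12, TAG.eta, P.mu_cl]
  refine Std.sum _ fun b _ => ?_
  by_cases hb : b = T.N ∨ b = T.S ∨ b ∈ T.J
  · rw [eta_coef b hb, zero_mul]; exact Std.zero
  refine (hs b).mul ?_
  have haN : a ≠ T.N := fun h => ha (Or.inl h)
  have hbN : b ≠ T.N := fun h => hb (Or.inl h)
  by_cases hab : b = a
  · subst hab
    by_cases hadj : P.adj T.N b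
    · rcases T.adjN b hadj with h | h
      · exact absurd (Or.inr (Or.inr h)) hb
      · refine T.stdw b T.N hadj.symm ?_
        rintro (⟨h', _⟩ | ⟨h', _⟩)
        · exact T.disj _ h' h
        · exact T.NC.1 h'
    · rw [P.nadj hbN (fun h => hadj h.symm)]; exact Std.zero
  · exact P.m3_std hab hbN haN

/-- The derivative of a pole against a far vertex. -/
theorem far (d : Derivation ℚ K K) (n a k : V) (ha : a ≠ n) (hna : ¬ P.adj n a)
    (hnk : ¬ P.adj n k) : P.mu (P.ep d n) (P.D a) (P.D k) = 0 := by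
  by_cases hk : k = n
  · rw [hk]; exact P.nadj ha (fun h => hna h.symm) _
  · have h := P.d_mu_zero d (P.mnadj n a ha.symm hna) (P.D k)
    have h' : P.mu (P.D n) (dv d (P.D a)) (P.D k) = 0 := by
      rw [P.mu12]; exact P.nadj (fun e => hk e.symm) hnk _
    rw [h', add_zero] at h
    exact h

/-- The derivative of `q` on `B`. -/
theorem d_q (A : TAA T) (d : Derivation ℚ K K) (hz : A.z (P.ep d T.N) = 0) {b b' : I → K}
    (hb : b ∈ T.B) (hb' : b' ∈ T.B) :
    d (T.q b b') = T.q (dv d b) b' + T.q b (dv d b') := by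
  have h : P.mu b b' (dv d (P.D T.N)) = 0 := by
    rw [A.BB b hb b' hb', LinearMap.smul_apply]
    change T.q b b' • A.z (P.ep d T.N) = 0
    rw [hz]; simp
  rw [TAG.q, P.d_mu, h, add_zero]
  rfl

/-- Only the part on the first group of interior vertices is seen. -/
theorem split (c : V → K) (I2 : Finset V) (y : V)
    (h : ∀ a, ¬ (a ∈ T.In ∧ a ∉ I2) → c a * P.mu (P.D a) (P.D y) (P.D y) = 0) :
    P.mu (P.cl c) (P.D y) (P.D y) =
      P.mu (P.cl (fun a => if a ∈ T.In ∧ a ∉ I2 then c a else 0)) (P.D y) (P.D y) := by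
  rw [P.mu_cl, P.mu_cl]
  refine Finset.sum_congr rfl fun a _ => ?_
  split_ifs with ha
  · rfl
  · rw [h a ha, zero_mul]

end ST7x

open ST7x in
theorem p_ST7 (hSTDSUB : S_STDSUB) (hST4 : S_ST4) (hCR : S_CR) (hFM : S_FM) :
    S_ST7 := by
  intro K V I _ _ _ _ _ _ _ P T A hSt d
  have hzN : A.z (P.ep d T.N) = 0 := by
    have h := d_form d A.z hSt.1 (P.D T.N)
    rw [A.zN.1] at h
    rw [HP.ep, ← h]; simp
  obtain ⟨ψ, hψ, c, hc0, he⟩ := A.span (P.ep d T.N)
  have hcN : c T.N = 0 := by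
    have h := congrArg A.z he
    rw [hzN, map_add, zB A ψ hψ, P.form_cl, zero_add,
      Finset.sum_eq_single T.N, A.zN.1, mul_one] at h
    · exact h.symm
    · intro a _ ha
      by_cases hS : a = T.S
      · rw [hc0 a (Or.inl hS), zero_mul]
      · rw [A.z0 a ha hS, mul_zero]
    · intro h'; exact absurd (Finset.mem_univ _) h'
  have hc : ∀ a, (a = T.N ∨ a = T.S ∨ a ∈ T.J) → c a = 0 := by
    rintro a (h | h)
    · rw [h]; exact hcN
    · exact hc0 a h
  have hdB := hSt.2.1 d
  have hdPhi : dv d T.Phi ∈ T.B := hdB _ A.PhiB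
  -- the derivative of Phi
  have hkey : ∀ b ∈ T.B, T.q b (dv d T.Phi) = -2 * T.q b ψ := by
    intro b hb
    have h1 := congrArg d (muBNN A hb)
    have h2 : P.mu b (P.ep d T.N) (P.D T.N) = T.q b ψ := by
      rw [he, map_add, LinearMap.add_apply, mu_cl_N A hb c hc, add_zero]; rfl
    rw [P.d_mu, map_neg, d_q A d hzN hb A.PhiB, muBNN A (hdB b hb),
      P.mu23 b (P.D T.N) (dv d (P.D T.N))] at h1
    change _ + P.mu b (P.ep d T.N) (P.D T.N) + P.mu b (P.ep d T.N) (P.D T.N) = _ at h1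
    rw [h2] at h1
    linear_combination h1
  have h4 := hST4 K V I P T A hSt d
  have hf : ∀ y ∈ T.C, A.f y (P.ep d T.N) = A.f y (P.ep d T.S) := by
    intro y hy
    have hs : ∀ a, Std (if a = T.N ∨ a = T.S then (0 : K) else (T.et a : K)) := by
      intro a
      split_ifs
      · exact Std.zero
      · exact Std.rat _
    have h1 : dv d T.eta ∈ T.Pm := by
      rw [TAG.eta, P.dv_cl_std d hs]
      refine sum_mem fun a _ => ?_
      rcases T.part a with h | h | h | h
      · rw [if_pos (Or.inl h), zero_smul]; exact zero_mem _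
      · rw [if_pos (Or.inr h), zero_smul]; exact zero_mem _
      · exact Submodule.smul_mem _ _ (h4 a h)
      · exact Submodule.smul_mem _ _ (Submodule.mem_sup_right (hSt.2.2.1 d a h))
    have h2 : P.ep d T.N = P.ep d T.S - dv d T.Phi - dv d T.eta := by
      rw [HP.ep, HP.ep, ← dv_sub, ← dv_sub, ← DN_eq]
    rw [h2, map_sub, map_sub, fB A hy _ hdPhi, fPm A hy _ h1]
    simp
  obtain ⟨c1, c2, c3, I2, hI2, c4, c5, c6, c7⟩ := hCR K V I P T A (P.ep d T.N) (P.ep d T.S) ψ c
    hzN hf (fun a k => far d T.N a k) (fun a k => far d T.S a k) hψ hc he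
  obtain ⟨m1, m2⟩ := hFM K V I P T A d ψ c I2 hSt h4 hψ hc he hI2 c4 c5
  constructor
  · have h1 := (TN_std A).der_eq d
    have h2 : P.mu (P.ep d T.N) (P.D T.N) (P.D T.N) = - T.q ψ T.Phi := by
      rw [he, map_add, LinearMap.add_apply, LinearMap.add_apply, muBNN A hψ,
        split (T := T) c I2 T.N, m1, add_zero]
      intro a ha
      by_cases hJ : a = T.N ∨ a = T.S ∨ a ∈ T.J
      · rw [hc a hJ, zero_mul]
      have haN : a ≠ T.N := fun h => hJ (Or.inl h)
      have hna : ¬ P.adj T.N a := by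
        intro h
        rcases T.adjN a h with h' | h'
        · exact hJ (Or.inr (Or.inr h'))
        · exact c6 a (by by_contra h''; exact ha ⟨h', h''⟩) h
      rw [P.mu13, P.nadj haN.symm hna, mul_zero]
    have h3 : d (T.q T.Phi T.Phi) = -4 * T.q T.Phi ψ := by
      rw [d_q A d hzN A.PhiB A.PhiB, q_comm (dv d T.Phi), hkey _ A.PhiB]; ring
    rw [HP.m3, P.d_mu, P.mu12 (P.D T.N) (dv d (P.D T.N)),
      P.mu13 (P.D T.N) (P.D T.N) (dv d (P.D T.N))] at h1
    change P.mu (P.ep d T.N) _ _ + P.mu (P.ep d T.N) _ _ + P.mu (P.ep d T.N) _ _ = _ at h1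
    rw [h2, h3, q_comm ψ] at h1
    have h5 : T.q T.Phi ψ = 0 := by linear_combination h1
    rw [h3, h5, mul_zero]
  · intro j hj hR
    by_cases hX : A.XiCh (P.ep d T.N) j
    · rw [c1 j hj hX, map_zero]
    obtain ⟨hy, hch, -, -⟩ := T.botC j hj
    set y := T.bot j with hydef
    have hyj : y ≠ j := hR
    have hyJ : y ∉ T.J := fun h => hyj ((T.JC y h).2.symm.trans hch)
    have hyN : y ≠ T.N := fun h => T.NC.1 (h ▸ hy)
    have hNy : ¬ P.adj T.N y := by
      intro h
      rcases T.adjN y h with h' | h'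
      · exact hyJ h'
      · exact T.disj y hy h'
    have hX' : ¬ A.XiCh (P.ep d T.N) (T.ch y) := by rw [hch]; exact hX
    have hR' : T.Red (T.ch y) := by rw [hch]; exact hR
    have h1 := far d T.N y y hyN hNy hNy
    have h2 : P.mu ψ (P.D y) (P.D y) = - (T.cy y : K) * T.q ψ (T.Bj j) := by
      rw [A.BC ψ hψ y hy, LinearMap.smul_apply, A.fD y hy y, if_neg (up_ne hy), if_neg (dn_ne hy),
        if_pos rfl, hch, smul_eq_mul]
      ring
    rw [he, map_add, LinearMap.add_apply, LinearMap.add_apply, h2, split (T := T) c I2 y,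
      m2 y hy hyJ, add_zero] at h1
    · have hcy : (T.cy y : K) ≠ 0 := by
        have hb := (T.cyb y hy).1
        have hu : 0 < T.be (T.ch y) (T.up y) := by
          rcases (T.upC y hy).2 with h | ⟨h, h', _⟩
          · exact absurd (((T.upN y hy).mp h).trans hch) hyj
          · rw [← h']; exact (T.beC _ h).1
        have hd := T.be_nonneg (T.ch y) (T.dn y)
        have : T.cy y ≠ 0 := by
          intro h0
          rw [h0, zero_mul] at hb
          linarith
        exact_mod_cast this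
      have h3 : T.q ψ (T.Bj j) = 0 := by
        rcases mul_eq_zero.mp h1 with h | h
        · exact absurd (neg_eq_zero.mp h) hcy
        · exact h
      have h5 : T.q T.Phi (dv d (T.Bj j)) = 0 := by
        rw [dv_std d (hSt.2.2.2 j hj hR), TAG.q]; simp
      rw [d_q A d hzN A.PhiB (Bj_mem hj), h5, q_comm (dv d T.Phi), hkey _ (Bj_mem hj),
        q_comm (T.Bj j), h3]
      simp
    · intro a ha
      by_cases hca : c a = 0
      · rw [hca, zero_mul]
      have hay : a ≠ y := by
        rintro rfl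
        exact hca (c2 _ hy hX')
      have hna : ¬ P.adj a y := by
        rcases T.part a with h | h | h | h
        · exact absurd (hc a (Or.inl h)) hca
        · exact absurd (hc a (Or.inr (Or.inl h))) hca
        · exact c3 a h y hy hca hR' hX'
        · intro hadj
          rcases c7 a (by by_contra h''; exact ha ⟨h, h''⟩) y hy hadj with h' | h'
          · exact hX' h'
          · exact h' hR'
      rw [P.mu13, P.nadj hay.symm (fun h => hna h.symm), mul_zero]

end Pool.Agent.P.MP_33ab4b_ag.T
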