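import Pool.Agent.P.MP_33ab4b_ag.T.IfaceT
import Pool.Agent.P.MP_33ab4b_ag.T.IfaceA

/-! Step ST8. -/

set_option autoImplicit false
set_option linter.unusedSectionVars false

namespace Pool.Agent.P.MP_33ab4b_ag.T

open scoped Classical

namespace ST8x

section field
variable {K : Type} [Field K] [LinearOrder K] [IsStrictOrderedRing K]

/-- A finite rational combination of hyperintegers is standard. -/
theorem std_sum (hf : HF K) {ι : Type} (s : Finset ι) (z : ι → K) (c : ι → ℚ)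
    (hz : ∀ i ∈ s, z i ∈ hf.Z) (h : Fi (∑ i ∈ s, z i * c i)) : Std (∑ i ∈ s, z i * c i) := by
  have k : ∃ n : ℕ, n ≠ 0 ∧ (n : K) * ∑ i ∈ s, z i * c i ∈ hf.Z := by
    refine Finset.sum_induction _ (fun x => ∃ n : ℕ, n ≠ 0 ∧ (n : K) * x ∈ hf.Z) ?_
      ⟨1, one_ne_zero, by simp⟩ fun i hi => ⟨(c i).den, (c i).den_nz, ?_⟩
    · rintro x y ⟨n, a, b⟩ ⟨m, a', b'⟩
      refine ⟨n * m, mul_ne_zero a a', ?_⟩
      have e : ((n * m : ℕ) : K) * (x + y) = m * (n * x) + n * (m * y) := by push_cast; ring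
      rw [e]
      exact add_mem (mul_mem (natCast_mem _ m) b) (mul_mem (natCast_mem _ n) b')
    · have e : ((c i).den : K) * (z i * c i) = z i * ((c i).num : K) := by
        rw [Rat.cast_def]
        have : ((c i).den : K) ≠ 0 := Nat.cast_ne_zero.mpr (c i).den_nz
        field_simp
      rw [e]
      exact mul_mem (hz i hi) (intCast_mem _ _)
  obtain ⟨n, a, b⟩ := k
  exact hf.std_of_fi_mul (Std.nat n) (Nat.cast_ne_zero.mpr a) b h

theorem d_rat (d : Derivation ℚ K K) (c : ℚ) (x : K) : d ((c : K) * x) = c * d x := by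
  rw [Derivation.leibniz, (Std.rat c).der d]; simp

end field

variable {K V I : Type} [Field K] [LinearOrder K] [IsStrictOrderedRing K] [Fintype V]
  [DecidableEq V] [Fintype I] [DecidableEq I] {P : HP K V I}

/-- The derivative of the cube, if the cubes of the vertices are constant. -/
theorem d_c3 (d : Derivation ℚ K K) (h : ∀ a, d (P.m3 a a a) = 0) :
    d P.c3 = 3 * ∑ a, ∑ b, d (P.m3 a a b) := by
  have e : P.c3 = ∑ a, ∑ b, ∑ c, P.m3 a b c := by
    simp only [HP.c3, HP.cc, HP.m3, map_sum, LinearMap.sum_apply]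
    rw [Finset.sum_comm]
    refine (Finset.sum_congr rfl fun b _ => Finset.sum_comm).trans ?_
    rw [Finset.sum_comm]
  have k : ∀ a b c, d (P.m3 a b c) = (if b = a then d (P.m3 a a c) else 0) +
      (if c = a then d (P.m3 a a b) else 0) + if c = b then d (P.m3 b b a) else 0 := by
    intro a b c
    by_cases h1 : b = a
    · subst h1
      by_cases h2 : c = b
      · subst h2; simp [h]
      · simp [h2]
    by_cases h2 : c = a
    · subst h2
      have : P.m3 c b c = P.m3 c c b := P.mu23 _ _ _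
      simp [h1, Ne.symm h1, this]
    by_cases h3 : c = b
    · subst h3
      have : P.m3 a c c = P.m3 c c a := P.mu13 _ _ _
      simp [h1, this]
    · simp [h1, h2, h3, (P.m3_std (Ne.symm h1) (Ne.symm h2) (Ne.symm h3)).der d]
  rw [e]
  simp only [map_sum]
  rw [Finset.sum_congr rfl fun a _ => Finset.sum_congr rfl fun b _ =>
    Finset.sum_congr rfl fun c _ => k a b c]
  simp only [Finset.sum_add_distrib, Finset.sum_ite_eq', Finset.mem_univ, if_true]
  have e1 : ∀ a, ∑ b, ∑ c, (if b = a then d (P.m3 a a c) else 0) = ∑ c, d (P.m3 a a c) := fun a => by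
    rw [Finset.sum_comm]; simp
  simp only [e1]
  rw [Finset.sum_comm (f := fun a b => d (P.m3 b b a))]
  ring

variable {T : TAG P}

theorem Bj_mem {j : V} (hj : j ∈ T.J) : T.Bj j ∈ T.B := Submodule.subset_span ⟨j, hj, rfl⟩

theorem q_std (A : TAA T) (s : A.Stab) {i j : V} (hi : i ∈ T.J) (hj : j ∈ T.J) (ri : T.Red i)
    (rj : T.Red j) : Std (T.q (T.Bj i) (T.Bj j)) := by
  obtain ⟨k, hk⟩ : ∃ k, A.z (Pi.single k 1) ≠ 0 := by
    by_contra! c
    have := A.zN.1
    rw [pi_eq_sum_univ' (P.D T.N)] at this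
    simp [map_sum, c] at this
  have h := P.mu_std (s.2.2.2 i hi ri) (s.2.2.2 j hj rj) (z := Pi.single k 1) fun x => by
    rw [Pi.single_apply]
    split_ifs
    exacts [Std.one, Std.zero]
  rw [A.BB _ (Bj_mem hi) _ (Bj_mem hj), LinearMap.smul_apply, smul_eq_mul] at h
  exact (h.div (s.1 k)).of_eq (by field_simp)

theorem simple {j : V} (hj : j ∈ T.J) (h : ¬T.Red j) :
    j ∈ T.C ∧ T.ch j = j ∧ T.up j = T.N ∧ T.dn j = T.S := by
  have a := T.JC j hj
  have e : T.bot j = j := not_not.mp h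
  exact ⟨a.1, a.2, (T.upN j a.1).mpr a.2.symm, by rw [← e]; exact (T.botC j hj).2.2.1⟩

theorem eq_ch {y : V} (hy : y ∈ T.C) (h : ¬T.Red (T.ch y)) : T.ch y = y := by
  have hj := T.chJ y hy
  refine T.chind (fun x => T.ch y = x) _ hj rfl (fun x _ _ e c => ?_) y hy rfl
  rw [← e, (simple hj h).2.2.2] at c
  exact absurd c T.NC.2.1

theorem sum_std (hSL : S_SL) (A : TAA T) : Std (∑ j ∈ T.J, T.q (T.Bj j) (T.Bj j)) := by
  have h := (hSL K P.hf V (P.v T.N) P.v T.J T.nx T.pv T.cyc (fun a _ b _ => P.det_mem _ _ _)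
    fun a ha => by rw [T.omdef a ha]; exact (Std.rat _).fi).2.2 T.opp
  have e : ∑ j ∈ T.J, cA (P.v T.N) P.v T.nx T.pv j = ∑ j ∈ T.J,
      det3 (P.v T.N) (P.v (T.pv j)) (P.v (T.nx j)) * ((T.om (T.pv j) * T.om j)⁻¹ : ℚ) :=
    Finset.sum_congr rfl fun j hj => by
      have a := T.omdef _ (T.cyc.mem j hj).2.1
      rw [(T.cyc.mem j hj).2.2.2] at a
      rw [cA, a, T.omdef j hj, div_eq_mul_inv]
      push_cast
      rfl
  rw [e] at h
  refine (std_sum P.hf _ _ _ (fun j _ => P.det_mem _ _ _) h).neg.of_eq ?_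
  rw [← e, ← Finset.sum_neg_distrib]
  exact Finset.sum_congr rfl A.qself

theorem d_sq (A : TAA T) (s : A.Stab) (d : Derivation ℚ K K) (h : d (T.q T.Phi T.Phi) = 0)
    (h' : ∀ j ∈ T.J, T.Red j → d (T.q T.Phi (T.Bj j)) = 0) :
    d (T.q (T.Phi + ∑ j ∈ T.J, (T.et (T.bot j) : K) • T.Bj j)
      (T.Phi + ∑ j ∈ T.J, (T.et (T.bot j) : K) • T.Bj j)) = 0 := by
  have z : ∀ j ∈ T.J, ¬T.Red j → T.et (T.bot j) = 0 := fun j hj c => by
    rw [not_not.mp c]; exact (T.beJ j hj).2.1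
  have a : ∀ j ∈ T.J, d ((T.et (T.bot j) : K) * P.mu T.Phi (T.Bj j) (P.D T.N)) = 0 := fun j hj => by
    rw [d_rat]
    by_cases c : T.Red j
    · exact mul_eq_zero_of_right _ (h' j hj c)
    · simp [z j hj c]
  simp only [TAG.q, map_add, map_sum, map_smul, LinearMap.add_apply, LinearMap.sum_apply,
    LinearMap.smul_apply, smul_eq_mul, mul_add, Finset.mul_sum] at h ⊢
  rw [h, Finset.sum_eq_zero fun j hj => by rw [P.mu12]; exact a j hj, zero_add, zero_add]
  refine Finset.sum_eq_zero fun j hj => ?_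
  rw [a j hj, zero_add]
  refine Finset.sum_eq_zero fun i hi => ?_
  rw [d_rat, d_rat]
  by_cases c : T.Red j
  · by_cases c' : T.Red i
    · rw [show d (P.mu (T.Bj i) (T.Bj j) (P.D T.N)) = 0 from (q_std A s hi hj c' c).der d]; simp
    · simp [z i hi c']
  · simp [z j hj c]

end ST8x

open ST8x in
theorem p_ST8 (hSL : S_SL) (hMW : S_MW) (hST7 : S_ST7) :
    S_ST8 := by
  intro K V I _ _ _ _ _ _ _ P T A s
  refine P.hf.der _ fun d => ?_
  obtain ⟨w, wN, wS⟩ := hMW K V I P T A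
  obtain ⟨p0, p1⟩ := hST7 K V I P T A s d
  have dQ : ∀ j ∈ T.J, T.Red j → d (T.q (T.Bj j) (T.Bj j)) = 0 := fun j hj c =>
    (q_std A s hj hj c c).der d
  have red : ∀ y ∈ T.C, T.Red (T.ch y) → d (P.m3 (T.up y) (T.up y) y) = 0 ∧
      d (P.m3 y y (T.up y)) = 0 ∧ d (P.m3 (T.dn y) (T.dn y) y) = 0 ∧ d (P.m3 y y (T.dn y)) = 0 ∧
      d (P.m3 y y y) = 0 := fun y hy c => by
    obtain ⟨a1, a2, a3, a4, a5⟩ := w y hy
    have b1 := a1.der d
    have b2 := a2.der d
    have b3 := a3.der d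
    have b4 := a4.der d
    have b5 := a5.der d
    have c1 := p1 _ (T.chJ y hy) c
    have c2 := dQ _ (T.chJ y hy) c
    simp only [map_add, map_sub, d_rat, c1, c2, mul_zero, add_zero, sub_zero] at b1 b2 b3 b4 b5
    rw [b2, b4, mul_zero, mul_zero, add_zero, add_zero] at b5
    exact ⟨b1, b2, b3, b4, (mul_eq_zero.mp b5).resolve_left
      (Rat.cast_ne_zero.mpr (T.beC y hy).1.ne')⟩
  have sim : ∀ j ∈ T.J, ¬T.Red j → d (P.m3 T.N T.N j) = - d (T.q T.Phi (T.Bj j)) ∧
      d (P.m3 j j T.N) = d (T.q (T.Bj j) (T.Bj j)) ∧ d (P.m3 T.S T.S j) = d (T.q T.Phi (T.Bj j)) ∧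
      d (P.m3 j j T.S) = d (T.q (T.Bj j) (T.Bj j)) ∧ d (P.m3 j j j) = 0 := fun j hj c => by
    obtain ⟨e0, e1, e2, e3⟩ := simple hj c
    obtain ⟨a1, a2, a3, a4, a5⟩ := w j e0
    have cy := (T.cyb j e0).1
    obtain ⟨f1, f2, -⟩ := T.beJ j hj
    rw [e1, e2, e3, (T.beN j).1, (T.beN j).2, f1, mul_one, add_zero] at cy
    have b1 := a1.der d
    have b2 := a2.der d
    have b3 := a3.der d
    have b4 := a4.der d
    have b5 := a5.der d
    simp only [map_add, map_sub, d_rat, e1, e2, e3, f1, f2, (T.beN j).1, (T.beN j).2, T.etN.1,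
      T.etN.2, ← cy] at b1 b2 b3 b4 b5
    push_cast at b1 b2 b3 b4 b5
    exact ⟨by linarith, by linarith, by linarith, by linarith, by linarith⟩
  have hT : ∀ a, d (P.m3 a a a) = 0 := fun a => by
    rcases T.part a with rfl | rfl | h | h
    · exact (wN.der_eq d).trans p0
    · exact (wS.der_eq d).trans (d_sq A s d p0 p1)
    · by_cases c : T.Red (T.ch a)
      · exact (red a h c).2.2.2.2
      · have e := eq_ch h c
        exact (sim a (e ▸ T.chJ a h) (e ▸ c)).2.2.2.2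
    · exact (T.stdT a h).der d
  set Js := T.J.filter (fun j => ¬T.Red j) with hJ
  have mJ : ∀ {j}, j ∈ Js ↔ j ∈ T.J ∧ ¬T.Red j := Finset.mem_filter
  have nN : T.N ∉ Js := fun h => T.NC.1 (T.JC _ (mJ.mp h).1).1
  have nS : T.S ∉ Js := fun h => T.NC.2.1 (T.JC _ (mJ.mp h).1).1
  have h0 : ∀ a b, ¬(b ∈ Js ∧ (a = T.N ∨ a = T.S)) → ¬(a ∈ Js ∧ (b = T.N ∨ b = T.S)) →
      d (P.m3 a a b) = 0 := fun a b h1 h2 => by
    have k : ∀ y ∈ T.C, ∀ x, x = T.up y ∨ x = T.dn y → ¬(y ∈ Js ∧ (x = T.N ∨ x = T.S)) →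
        T.Red (T.ch y) := fun y hy x hx h => by
      by_contra c
      have e := eq_ch hy c
      have hj : y ∈ T.J := e ▸ T.chJ y hy
      obtain ⟨-, -, e2, e3⟩ := simple hj (e ▸ c)
      exact h ⟨mJ.mpr ⟨hj, e ▸ c⟩, by rwa [e2, e3] at hx⟩
    by_cases e : a = b
    · rw [← e]; exact hT a
    by_cases ad : P.adj a b
    swap
    · rw [HP.m3, P.nadj e ad, map_zero]
    by_cases m : (a ∈ T.C ∧ (b = T.up a ∨ b = T.dn a)) ∨ (b ∈ T.C ∧ (a = T.up b ∨ a = T.dn b))
    swap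
    · exact (T.stdw a b ad m).der d
    rcases m with ⟨ha, m⟩ | ⟨hb, m⟩
    · have := red a ha (k a ha b m h2)
      rcases m with rfl | rfl
      exacts [this.2.1, this.2.2.2.1]
    · have := red b hb (k b hb a m h1)
      rcases m with rfl | rfl
      exacts [this.1, this.2.2.1]
  have g : ∀ a b, d (P.m3 a a b) =
      (if a = T.N then if b ∈ Js then - d (T.q T.Phi (T.Bj b)) else 0 else 0) +
      (if a = T.S then if b ∈ Js then d (T.q T.Phi (T.Bj b)) else 0 else 0) +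
      (if b = T.N then if a ∈ Js then d (T.q (T.Bj a) (T.Bj a)) else 0 else 0) +
      (if b = T.S then if a ∈ Js then d (T.q (T.Bj a) (T.Bj a)) else 0 else 0) := fun a b => by
    have ns := T.NS
    by_cases h1 : b ∈ Js ∧ (a = T.N ∨ a = T.S)
    · have := sim b (mJ.mp h1.1).1 (mJ.mp h1.1).2
      obtain ⟨hb, rfl | rfl⟩ := h1
      · simp [hb, nN, ns, this.1]
      · simp [hb, nS, ns.symm, this.2.2.1]
    by_cases h2 : a ∈ Js ∧ (b = T.N ∨ b = T.S)
    · have := sim a (mJ.mp h2.1).1 (mJ.mp h2.1).2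
      obtain ⟨ha, rfl | rfl⟩ := h2
      · simp [ha, nN, ns, this.2.1]
      · simp [ha, nS, ns.symm, this.2.2.2.1]
    have t1 : ∀ (x y : Prop) [Decidable x] [Decidable y] (r : K), ¬(y ∧ x) →
        (if x then if y then r else 0 else 0) = 0 := fun x y _ _ r h => by
      split_ifs with u v
      exacts [absurd ⟨v, u⟩ h, rfl, rfl]
    rw [h0 a b h1 h2, t1 _ _ _ fun h => h1 ⟨h.1, .inl h.2⟩, t1 _ _ _ fun h => h1 ⟨h.1, .inr h.2⟩,
      t1 _ _ _ fun h => h2 ⟨h.1, .inl h.2⟩, t1 _ _ _ fun h => h2 ⟨h.1, .inr h.2⟩]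
    simp only [add_zero]
  have q0 : ∑ j ∈ Js, d (T.q (T.Bj j) (T.Bj j)) = 0 := by
    rw [← (sum_std hSL A).der d, map_sum, hJ, Finset.sum_filter]
    refine Finset.sum_congr rfl fun j hj => ?_
    split_ifs with c
    exacts [(dQ j hj c).symm, rfl]
  rw [d_c3 d hT, Finset.sum_congr rfl fun a _ => Finset.sum_congr rfl fun b _ => g a b]
  simp only [Finset.sum_add_distrib, Finset.sum_ite_eq', Finset.mem_univ, if_true]
  rw [Finset.sum_comm, Finset.sum_comm (f := fun a b => if a = T.S then _ else _)]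
  simp only [Finset.sum_ite_eq', Finset.mem_univ, if_true, Finset.sum_ite_mem, Finset.univ_inter,
    Finset.sum_neg_distrib, q0]
  ring

end Pool.Agent.P.MP_33ab4b_ag.T
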