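import Pool.Agent.P.MP_33ab4b_ag.T.IfaceA
import Pool.Agent.P.MP_33ab4b_ag.T.Lb

/-! Step STDSUB. -/

set_option autoImplicit false

namespace Pool.Agent.P.MP_33ab4b_ag.T

open scoped Classical

theorem p_STDSUB :
    S_STDSUB := by
  intro K _ _ _ hf I _ _ B hd
  have e := Lb.stdsub hf B hd
  obtain ⟨t, ht, e'⟩ := (Submodule.fg_span_iff_fg_span_finset_subset _).1
    (e ▸ IsNoetherian.noetherian B)
  refine ⟨t.card, fun k => t.equivFin.symm k, fun k => (ht (t.equivFin.symm k).2).1,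
    fun k => (ht (t.equivFin.symm k).2).2, fun x hx => ?_⟩
  rw [e, e'] at hx
  obtain ⟨c, -, hc⟩ := Submodule.mem_span_finset.1 hx
  refine ⟨fun k => c (t.equivFin.symm k), ?_⟩
  rw [← hc, ← Finset.sum_coe_sort t, ← t.equivFin.symm.sum_comp]

end Pool.Agent.P.MP_33ab4b_ag.T
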