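import Pool.Agent.P.MP_33ab4b_ag.T.IfaceF
import Pool.Agent.P.MP_33ab4b_ag.T.IfaceA

/-! Step STR2. -/

set_option autoImplicit false

namespace Pool.Agent.P.MP_33ab4b_ag.T

open scoped Classical

namespace STR2x

variable {K V : Type} [Field K] [LinearOrder K] [IsStrictOrderedRing K] [Fintype V] [DecidableEq V]

theorem pt (Φ : Fan K V) (s : Finset V) {p : V} (hp : p ∈ s) (f : Fm K) (hf : 0 < f (Φ.v p)) :
    ∃ y, Φ.InOpen s y ∧ 0 < f y := by
  let t0 : V → K := fun c => if c ∈ s then 1 else 0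
  let y0 : V3 K := ∑ c, t0 c • Φ.v c
  let T : K := |f y0| / f (Φ.v p) + 1
  have hT : 0 < T := by positivity
  refine ⟨y0 + T • Φ.v p, ⟨fun c => t0 c + if c = p then T else 0, fun c hc => ?_,
    fun c hc => ?_, ?_⟩, ?_⟩
  · simp only [t0, if_pos hc]
    split_ifs <;> linarith
  · have : c ≠ p := fun e => hc (e ▸ hp)
    simp [t0, hc, this]
  · simp [y0, add_smul, Finset.sum_add_distrib, ite_smul]
  · rw [map_add, map_smul, smul_eq_mul]
    have : T * f (Φ.v p) = |f y0| + f (Φ.v p) := by simp only [T]; field_simp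
    linarith [neg_abs_le (f y0)]

theorem line {a b x : V3 K} (h : det3 a b x ≠ 0) {w : Fm K} (ha : w a = 0) (hb : w b = 0)
    (y : V3 K) : det3 a b x * w y = det3 a b y * w x := by
  have := form_cramer w a b x y
  rw [ha, hb] at this
  linarith

end STR2x

theorem p_STR2 (hGEN : S_GEN) (hFRB : S_FRB) (hEQV : S_EQV) (hCROSSP : S_CROSSP) :
    S_STR2 := by
  intro K V _ _ _ _ _ Φ D a b ha hb hl
  have key : ∀ p : V, detL (Φ.v a) (Φ.v b) (Φ.v p) ≠ 0 → ∀ s ∈ Φ.F, ∀ s' ∈ Φ.F, p ∈ s → p ∈ s' →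
      Φ.FinRel s s' := by
    intro p hp s hs s' hs' h1 h2
    set c : K := det3 (Φ.v a) (Φ.v b) (Φ.v p) with hc
    have hc0 : c ≠ 0 := hp
    have hcc : 0 < c * c := mul_self_pos.2 hc0
    obtain ⟨u, hu, hmax⟩ := D.fin.exists_maximalFor (fun u : Fm K => u (Φ.v p)) D.U D.ne
    have hS : ∀ y, 0 < (c • detL (Φ.v a) (Φ.v b)) y → SMax D.U y u := by
      intro y hy
      refine ⟨hu, fun u' hu' hne => ?_⟩
      have e1 : (u - u') (Φ.v a) = 0 := by
        rw [LinearMap.sub_apply, D.t_tight u hu a ha, D.t_tight u' hu' a ha, sub_self]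
      have e2 : (u - u') (Φ.v b) = 0 := by
        rw [LinearMap.sub_apply, D.t_tight u hu b hb, D.t_tight u' hu' b hb, sub_self]
      have h3 : u' (Φ.v p) ≤ u (Φ.v p) := (le_total _ _).elim id fun h => hmax hu' h
      have h4 : u' (Φ.v p) ≠ u (Φ.v p) := fun e => hne (form_ext hc0
        (by rw [LinearMap.sub_apply] at e1; linarith)
        (by rw [LinearMap.sub_apply] at e2; linarith) e)
      have h5 : 0 < u (Φ.v p) - u' (Φ.v p) := sub_pos.2 (lt_of_le_of_ne h3 h4)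
      have h6 := STR2x.line hc0 e1 e2 y
      simp only [LinearMap.sub_apply] at h6
      have h7 : 0 < c * det3 (Φ.v a) (Φ.v b) y := hy
      have h8 : 0 < c * c * (u y - u' y) := by
        rw [mul_assoc, hc, h6, ← mul_assoc]; exact mul_pos h7 h5
      exact sub_pos.1 ((mul_pos_iff_of_pos_left hcc).1 h8)
    obtain ⟨y, hy1, hy2⟩ := STR2x.pt Φ.toFan s h1 (c • detL (Φ.v a) (Φ.v b)) hcc
    obtain ⟨y', hy1', hy2'⟩ := STR2x.pt Φ.toFan s' h2 (c • detL (Φ.v a) (Φ.v b)) hcc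
    exact (hEQV K V Φ D.lam u u (Relation.EqvGen.refl u) s hs s' hs'
      (D.rel s hs y hy1 u (hS y hy2)) (D.rel s' hs' y' hy1' u (hS y' hy2'))).1
  refine (hCROSSP K V Φ _ hl fun p q h k m hk hm => ?_).imp id fun h => ⟨_, h⟩
  have : Φ.FinRel {p, q, k} {p, q, m} := by
    rcases h with h | h
    · exact key p h _ hk _ hm (by simp) (by simp)
    · exact key q h _ hk _ hm (by simp) (by simp)
  exact this m (by simp) p q k rfl

end Pool.Agent.P.MP_33ab4b_ag.T
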