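import Pool.Agent.P.MP_33ab4b_ag.T.IfaceF

/-! Step STRUCT. -/

set_option autoImplicit false

namespace Pool.Agent.P.MP_33ab4b_ag.T

open scoped Classical

namespace STRUCTx

variable {K : Type} [Field K] [LinearOrder K] [IsStrictOrderedRing K]

theorem par {a b : V3 K} (ha : a ≠ 0) (h : detL a b = 0) : ∃ r : K, b = r • a := by
  have e : ∀ x, det3 a b x = 0 := fun x => by
    have := congrArg (fun u : Fm K => u x) h
    simpa using this
  have e0 := e (Pi.single 0 1)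
  have e1 := e (Pi.single 1 1)
  have e2 := e (Pi.single 2 1)
  simp [det3] at e0 e1 e2
  by_cases h0 : a 0 = 0
  · by_cases h1 : a 1 = 0
    · have h2 : a 2 ≠ 0 := by
        intro h2
        apply ha
        funext i
        fin_cases i <;> simp [h0, h1, h2]
      refine ⟨b 2 / a 2, ?_⟩
      funext i
      fin_cases i <;> simp <;> field_simp <;> nlinarith
    · refine ⟨b 1 / a 1, ?_⟩
      funext i
      fin_cases i <;> simp <;> field_simp <;> nlinarith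
  · refine ⟨b 0 / a 0, ?_⟩
    funext i
    fin_cases i <;> simp <;> field_simp <;> nlinarith

theorem form_eq (e y k : V3 K) {u : Fm K} (h1 : u e = 0) (h2 : u y = 0)
    (x : V3 K) : det3 e y k * u x = det3 e y x * u k := by
  rw [form_cramer u e y k x, h1, h2]; ring

variable {V : Type} [Fintype V] [DecidableEq V]

theorem v_ne (Φ : Fan K V) (a : V) : Φ.v a ≠ 0 := by
  obtain ⟨s, hs, ha⟩ := Φ.used a
  obtain ⟨b, c, _, h⟩ := Fan.exists_face_of_mem hs ha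
  intro h0
  apply h.det_ne
  rw [h0]
  simp [det3]

theorem edge (Φ : Fan K V) (N : V) (u0 : Fm K) (h0 : u0 ≠ 0) (hN : u0 (Φ.v N) = 0)
    (hJ : ∀ y, Φ.InJ N y → u0 (Φ.v y) ≤ 0) (y0 : V) (hy0 : Φ.InJ N y0) :
    ∃ u : Fm K, u ≠ 0 ∧ u (Φ.v N) = 0 ∧ (∀ y, Φ.InJ N y → u (Φ.v y) ≤ 0) ∧
      ∃ y1, Φ.InJ N y1 ∧ u (Φ.v y1) = 0 := by
  by_cases hz : ∃ y1, Φ.InJ N y1 ∧ u0 (Φ.v y1) = 0
  · exact ⟨u0, h0, hN, hJ, hz⟩
  have hlt : ∀ y, Φ.InJ N y → u0 (Φ.v y) < 0 := fun y hy =>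
    lt_of_le_of_ne (hJ y hy) fun h => hz ⟨y, hy, h⟩
  set m : Fm K := detL (Φ.v N) (Φ.v y0) with hm
  obtain ⟨k, hk⟩ := hy0.1.exists_face
  have hmk : m (Φ.v k) ≠ 0 := hk.det_ne
  have hm0 : m (Φ.v y0) = 0 := by simp [hm]
  have hmN : m (Φ.v N) = 0 := by simp [hm]
  obtain ⟨y1, hy1, hmax⟩ := Finset.exists_max_image (Finset.univ.filter fun y => Φ.InJ N y)
    (fun y => m (Φ.v y) / (- u0 (Φ.v y))) ⟨y0, by simpa using hy0⟩
  have hy1' : Φ.InJ N y1 := by simpa using hy1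
  refine ⟨(- u0 (Φ.v y1)) • m + m (Φ.v y1) • u0, ?_, ?_, ?_, y1, hy1', ?_⟩
  · intro h
    have a1 := congrArg (fun u : Fm K => u (Φ.v y0)) h
    have a2 := congrArg (fun u : Fm K => u (Φ.v k)) h
    simp only [LinearMap.add_apply, LinearMap.smul_apply, smul_eq_mul, LinearMap.zero_apply,
      hm0] at a1 a2
    have b1 : m (Φ.v y1) = 0 := by
      have : m (Φ.v y1) * u0 (Φ.v y0) = 0 := by linarith
      exact (mul_eq_zero.mp this).resolve_right (hlt y0 hy0).ne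
    rw [b1] at a2
    have : u0 (Φ.v y1) * m (Φ.v k) = 0 := by linarith
    rcases mul_eq_zero.mp this with h | h
    · exact (hlt y1 hy1').ne h
    · exact hmk h
  · simp [hN, hmN]
  · intro y hy
    have := hmax y (by simpa using hy)
    rw [div_le_div_iff₀ (neg_pos.mpr (hlt y hy)) (neg_pos.mpr (hlt y1 hy1'))] at this
    simp only [LinearMap.add_apply, LinearMap.smul_apply, smul_eq_mul]
    linarith
  · simp only [LinearMap.add_apply, LinearMap.smul_apply, smul_eq_mul]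
    ring

theorem sgn (Φ : Fan K V) (N y1 : V) (u : Fm K) (h0 : u ≠ 0) (hN : u (Φ.v N) = 0)
    (h1 : u (Φ.v y1) = 0) (ha : Φ.adj N y1) :
    ∃ s1 : Fm K, (s1 = detL (Φ.v N) (Φ.v y1) ∨ s1 = - detL (Φ.v N) (Φ.v y1)) ∧ s1 ≠ 0 ∧
      ∀ x, u x ≤ 0 → s1 x ≤ 0 := by
  obtain ⟨k, hk⟩ := ha.exists_face
  have hd := hk.det_ne
  have key := form_eq (Φ.v N) (Φ.v y1) (Φ.v k) hN h1
  have huk : u (Φ.v k) ≠ 0 := by
    intro h
    apply h0
    refine LinearMap.ext fun x => ?_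
    have := key x
    rw [h, mul_zero] at this
    exact (mul_eq_zero.mp this).resolve_left hd
  have hne : detL (Φ.v N) (Φ.v y1) ≠ 0 := by
    intro h
    apply hd
    have := congrArg (fun u : Fm K => u (Φ.v k)) h
    simpa using this
  have hsq : ∀ x, det3 (Φ.v N) (Φ.v y1) x * (u (Φ.v k) * u (Φ.v k)) =
      (det3 (Φ.v N) (Φ.v y1) (Φ.v k) * u (Φ.v k)) * u x := fun x => by
    have := key x
    linear_combination (- u (Φ.v k)) * this
  have hp : 0 < u (Φ.v k) * u (Φ.v k) := mul_self_pos.mpr huk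
  rcases lt_or_gt_of_ne (mul_ne_zero hd huk) with h | h
  · refine ⟨_, Or.inr rfl, neg_ne_zero.mpr hne, fun x hx => ?_⟩
    have := hsq x
    have h2 : 0 ≤ det3 (Φ.v N) (Φ.v y1) x * (u (Φ.v k) * u (Φ.v k)) := by
      rw [this]; exact mul_nonneg_of_nonpos_of_nonpos h.le hx
    have := (mul_nonneg_iff_of_pos_right hp).mp h2
    simpa using this
  · refine ⟨_, Or.inl rfl, hne, fun x hx => ?_⟩
    have := hsq x
    have h2 : det3 (Φ.v N) (Φ.v y1) x * (u (Φ.v k) * u (Φ.v k)) ≤ 0 := by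
      rw [this]; exact mul_nonpos_of_nonneg_of_nonpos h.le hx
    have h3 : det3 (Φ.v N) (Φ.v y1) x ≤ 0 := by
      by_contra hc
      push Not at hc
      have := mul_pos hc hp
      linarith
    simpa using h3

end STRUCTx

open STRUCTx in
theorem p_STRUCT (hUNIQ : S_UNIQ) (hFRB : S_FRB) (hLP : S_LP) (hSTR2 : S_STR2) (hAX1 : S_AX1) (hAX2 : S_AX2) (hCROSSP : S_CROSSP) :
    S_STRUCT := by
  intro K V _ _ _ _ _ Φ
  obtain ⟨D⟩ := hLP K V Φ
  by_cases hind : ∃ a b, D.t a ≠ 0 ∧ D.t b ≠ 0 ∧ detL (Φ.v a) (Φ.v b) ≠ 0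
  · obtain ⟨a, b, ha, hb, hab⟩ := hind
    rcases hSTR2 K V Φ D a b ha hb hab with h | h
    · exact Or.inl h
    · exact Or.inr (Or.inl h)
  push Not at hind
  obtain ⟨N, hN⟩ := D.t_ne
  have hvN : Φ.v N ≠ 0 := v_ne Φ.toFan N
  have hS : ∃ S, D.t S ≠ 0 ∧ Φ.v S = - Φ.v N := by
    by_contra hc
    push Not at hc
    have hall : ∀ b, D.t b ≠ 0 → b = N := by
      intro b hb
      obtain ⟨r, hr⟩ := par hvN (hind N b hN hb)
      rcases lt_trichotomy r 0 with h | h | h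
      · have h1 := (hFRB K V Φ).2.2.2.2.2.2.2.2.2 N b (-r) (neg_pos.mpr h) (by simpa using hr)
        exfalso
        apply hc b hb
        rw [hr, show r = -1 by linarith]
        simp
      · exfalso
        apply v_ne Φ.toFan b
        rw [hr, h, zero_smul]
      · exact ((hUNIQ K V Φ.toFan).2.2 N b r h hr).symm
    have h := D.t_rel
    rw [Finset.sum_eq_single N] at h
    · exact hvN ((smul_eq_zero.mp h).resolve_left hN)
    · intro b _ hb
      have : D.t b = 0 := by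
        by_contra h'
        exact hb (hall b h')
      rw [this, zero_smul]
    · simp
  obtain ⟨S, hS, hSN⟩ := hS
  obtain ⟨wf, heq⟩ := hAX1 K V Φ D N S hSN hN
  by_cases hc : ∀ u : Fm K, u ≠ 0 → u (Φ.v N) = 0 → ∃ y, Φ.InJ N y ∧ 0 < u (Φ.v y)
  · exact Or.inr (Or.inr ⟨N, S, hSN, hc, wf⟩)
  push Not at hc
  obtain ⟨u0, h0, hu0, hJ⟩ := hc
  by_cases hne : ∃ y, Φ.InJ N y
  · obtain ⟨y0, hy0⟩ := hne
    obtain ⟨u, h1, h2, h3, y1, hy1, h4⟩ := edge Φ.toFan N u0 h0 hu0 hJ y0 hy0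
    obtain ⟨s1, hs, hs0, hle⟩ := sgn Φ.toFan N y1 u h1 h2 h4 hy1.1
    have hsN : s1 (Φ.v N) = 0 := by rcases hs with rfl | rfl <;> simp
    have hsJ : ∀ y, Φ.InJ N y → s1 (Φ.v y) ≤ 0 := fun y hy => hle _ (h3 y hy)
    have := hAX2 K V Φ D N S y1 s1 hSN hN hS wf hy1 hs hsJ (heq s1 hsN hsJ)
    rcases hCROSSP K V Φ s1 hs0 this with h | h
    · exact Or.inl h
    · exact Or.inr (Or.inl ⟨s1, h⟩)
  · exact Or.inl fun a b => wf a b fun ⟨y, hy, _⟩ => hne ⟨y, hy⟩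

end Pool.Agent.P.MP_33ab4b_ag.T
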