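import Pool.Agent.P.MP_33ab4b_ag.T.IfaceT
import Pool.Agent.P.MP_33ab4b_ag.T.IfaceF

/-! Step TA1. -/

set_option autoImplicit false

namespace Pool.Agent.P.MP_33ab4b_ag.T

open scoped Classical

namespace TA1x

variable {K V I : Type} [Field K] [LinearOrder K] [IsStrictOrderedRing K] [Fintype V]
  [DecidableEq V] [Fintype I] [DecidableEq I] {P : HP K V I} (T : TAG P)

theorem nxJ {j : V} (hj : j ∈ T.J) : T.nx j ∈ T.J := (T.cyc.mem j hj).1
theorem pvJ {j : V} (hj : j ∈ T.J) : T.pv j ∈ T.J := (T.cyc.mem j hj).2.1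
theorem pv_nx {j : V} (hj : j ∈ T.J) : T.pv (T.nx j) = j := (T.cyc.mem j hj).2.2.1
theorem nx_pv {j : V} (hj : j ∈ T.J) : T.nx (T.pv j) = j := (T.cyc.mem j hj).2.2.2

theorem dpos {j : V} (hj : j ∈ T.J) : 0 < det3 (P.v T.N) (P.v j) (P.v (T.nx j)) := T.cyc.pos j hj

theorem nx_ne {j : V} (hj : j ∈ T.J) : T.nx j ≠ j := by
  intro h
  have := dpos T hj
  rw [h] at this
  simp at this

theorem pv_ne {j : V} (hj : j ∈ T.J) : T.pv j ≠ j := by
  intro h
  have := nx_ne T (pvJ T hj)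
  rw [nx_pv T hj] at this
  exact this h.symm

theorem nxnx_ne {j : V} (hj : j ∈ T.J) : T.nx (T.nx j) ≠ j := by
  intro h
  have h1 := dpos T hj
  have h2 := dpos T (nxJ T hj)
  rw [h, det3_swap23] at h2
  linarith

theorem sum_two {M : Type} [AddCommMonoid M] {j : V} (hj : j ∈ T.J) (f : V → M)
    (h : ∀ i, i ≠ j → i ≠ T.nx j → f i = 0) : ∑ i ∈ T.J, f i = f j + f (T.nx j) :=
  Finset.sum_eq_add_of_mem j (T.nx j) hj (nxJ T hj) (nx_ne T hj).symm
    (fun c _ hc => h c hc.1 hc.2)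

theorem coordS {j a : V} (hj : j ∈ T.J) (ha : T.sec j a) :
    P.v a = (T.be j a : K) • P.v j + (T.be (T.nx j) a : K) • P.v (T.nx j) +
      (T.et a : K) • P.v T.N := by
  have := T.coord a
  rw [sum_two T hj _ (fun i h1 h2 => by rw [ha i h1 h2]; simp)] at this
  exact this

/-- The function on the rays that belongs to a combination of tent classes. -/
def ph (s : V → K) (a : V) : K := ∑ i ∈ T.J, s i * (T.be i a : K)

theorem phS (s : V → K) {j a : V} (hj : j ∈ T.J) (ha : T.sec j a) :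
    ph T s a = s j * (T.be j a : K) + s (T.nx j) * (T.be (T.nx j) a : K) :=
  sum_two T hj _ (fun i h1 h2 => by rw [ha i h1 h2]; simp)

theorem cl_ph (s : V → K) : P.cl (ph T s) = ∑ i ∈ T.J, s i • T.Bj i := by
  simp only [HP.cl, TAG.Bj, ph, Finset.sum_smul, Finset.smul_sum, smul_smul]
  exact Finset.sum_comm

theorem memB {b : I → K} (hb : b ∈ T.B) : ∃ s : V → K, b = P.cl (ph T s) := by
  induction hb using Submodule.span_induction with
  | mem x hx =>
    obtain ⟨j, hj, rfl⟩ := hx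
    refine ⟨Pi.single j 1, ?_⟩
    rw [cl_ph, Finset.sum_eq_single_of_mem j hj]
    · simp
    · intro i _ hi; simp [hi]
  | zero => exact ⟨0, by simp [cl_ph]⟩
  | add x y _ _ hx hy =>
    obtain ⟨c, rfl⟩ := hx; obtain ⟨c', rfl⟩ := hy
    exact ⟨c + c', by simp [cl_ph, add_smul, Finset.sum_add_distrib]⟩
  | smul r x _ hx =>
    obtain ⟨c, rfl⟩ := hx
    exact ⟨r • c, by simp [cl_ph, Finset.smul_sum, smul_smul]⟩

theorem Bj_eq {j : V} (hj : j ∈ T.J) : T.Bj j = P.cl (ph T (Pi.single j 1)) := by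
  rw [cl_ph, Finset.sum_eq_single_of_mem j hj]
  · simp
  · intro i _ hi; simp [hi]

theorem secform (s : V → K) {j : V} (hj : j ∈ T.J) : ∃ g : Fm K, g (P.v T.N) = 0 ∧
    g (P.v j) = s j ∧ g (P.v (T.nx j)) = s (T.nx j) ∧ ∀ a, T.sec j a → g (P.v a) = ph T s a := by
  obtain ⟨g, h0, h1, h2⟩ := exists_form (dpos T hj).ne' 0 (s j) (s (T.nx j))
  refine ⟨g, h0, h1, h2, fun a ha => ?_⟩
  rw [coordS T hj ha, phS T s hj ha]
  simp only [map_add, map_smul, smul_eq_mul, h0, h1, h2]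
  ring

theorem face_sec {a b c : V} (h : P.face a b c) :
    ∃ j ∈ T.J, T.sec j a ∧ T.sec j b ∧ T.sec j c := by
  obtain ⟨j, hj, hs⟩ := T.fsec _ h
  exact ⟨j, hj, hs a (by simp), hs b (by simp), hs c (by simp)⟩

/-- A vertex in two different sectors is a pole or lies on a chain. -/
theorem two_sec {j j' : V} (hj : j ∈ T.J) (hj' : j' ∈ T.J) (hne : j ≠ j') :
    ∃ i0, ∀ a, T.sec j a → T.sec j' a → ∀ i, i ≠ i0 → T.be i a = 0 := by
  by_cases h : j' = T.nx j
  · refine ⟨j', fun a h1 h2 i hi => ?_⟩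
    by_cases e : i = j
    · refine h2 i hi ?_
      rw [e, h]; exact (nxnx_ne T hj).symm
    · exact h1 i e (by rw [← h]; exact hi)
  · refine ⟨j, fun a h1 h2 i hi => ?_⟩
    by_cases e : i = T.nx j
    · refine h2 i (by rw [e]; exact fun x => h x.symm) ?_
      rw [e]
      intro x
      have := congrArg T.pv x
      rw [pv_nx T hj, pv_nx T hj'] at this
      exact hne this
    · exact h1 i hi e

theorem one_ray {i0 a : V} (h : ∀ i, i ≠ i0 → T.be i a = 0) :
    a = T.N ∨ a = T.S ∨ (a ∈ T.C ∧ T.ch a = i0) := by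
  rcases T.part a with e | e | e | e
  · exact Or.inl e
  · exact Or.inr (Or.inl e)
  · refine Or.inr (Or.inr ⟨e, ?_⟩)
    by_contra hne
    exact (T.beC a e).1.ne' (h _ hne)
  · exfalso
    obtain ⟨j, hj, -, h1, h2⟩ := T.beI a e
    by_cases e1 : j = i0
    · exact h2.ne' (h _ (by rw [← e1]; exact nx_ne T hj))
    · exact h1.ne' (h _ e1)

theorem nonmer (hW : S_WALL) (hR : S_WREL) (s : V → K) {a c : V} (hac : P.adj a c)
    (hn : ¬ ((a ∈ T.C ∧ (c = T.up a ∨ c = T.dn a)) ∨ (c ∈ T.C ∧ (a = T.up c ∨ a = T.dn c)))) :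
    P.mu (P.cl (ph T s)) (P.D a) (P.D c) = 0 := by
  obtain ⟨k, l, hkl, hk, hl, -, -, -⟩ := hW K V P.toFan a c hac
  obtain ⟨hv, hm⟩ := (hR K V I P).1 a c k l hk hl hkl
  obtain ⟨j, hj, ja, jc, jk⟩ := face_sec T hk
  obtain ⟨j', hj', ja', jc', jl⟩ := face_sec T hl
  by_cases e : j = j'
  · subst e
    obtain ⟨g, -, -, -, hg⟩ := secform T s hj
    have := congrArg g hv
    simp only [map_add, map_smul, smul_eq_mul, map_zero, hg a ja, hg c jc, hg k jk, hg l jl] at this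
    rw [hm, this]
  · exfalso
    obtain ⟨i0, hi⟩ := two_sec T hj hj' e
    have ha := one_ray T (hi a ja ja')
    have hc := one_ray T (hi c jc jc')
    have hNS := T.nadj
    rcases ha with ha | ha | ha
    · rcases hc with hc | hc | hc
      · exact hac.1 (ha.trans hc.symm)
      · exact hNS (by rw [← ha, ← hc]; exact hac)
      · exact hn (Or.inr ⟨hc.1, T.nbr c hc.1 a hac.symm (Or.inl ha)⟩)
    · rcases hc with hc | hc | hc
      · exact hNS (by rw [← ha, ← hc]; exact hac.symm)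
      · exact hac.1 (ha.trans hc.symm)
      · exact hn (Or.inr ⟨hc.1, T.nbr c hc.1 a hac.symm (Or.inr (Or.inl ha))⟩)
    · refine hn (Or.inl ⟨ha.1, T.nbr a ha.1 c hac ?_⟩)
      rcases hc with hc | hc | hc
      · exact Or.inl hc
      · exact Or.inr (Or.inl hc)
      · exact Or.inr (Or.inr ⟨hc.1, hc.2.trans ha.2.symm⟩)

/-- The bend of a combination of tent classes along the half plane of `j`. -/
def kap (s : V → K) (j : V) : K :=
  s (T.nx j) / (T.om j : K) + s (T.pv j) / (T.om (T.pv j) : K) -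
    s j * cA (P.v T.N) P.v T.nx T.pv j

theorem detS {j a : V} (hj : j ∈ T.J) (ha : T.sec j a) :
    det3 (P.v T.N) (P.v j) (P.v a) =
      (T.be (T.nx j) a : K) * det3 (P.v T.N) (P.v j) (P.v (T.nx j)) ∧
    det3 (P.v T.N) (P.v (T.nx j)) (P.v a) =
      - (T.be j a : K) * det3 (P.v T.N) (P.v j) (P.v (T.nx j)) := by
  rw [coordS T hj ha]
  simp only [det3, Pi.add_apply, Pi.smul_apply, smul_eq_mul]
  constructor <;> ring

theorem side {j y y' k : V} (hj : j ∈ T.J) (hy : 0 < T.be j y) (hk : P.face y y' k) :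
    (0 < det3 (P.v T.N) (P.v j) (P.v k) → T.sec j k) ∧
    (det3 (P.v T.N) (P.v j) (P.v k) < 0 → T.sec (T.pv j) k) := by
  obtain ⟨i, hi, iy, -, ik⟩ := face_sec T hk
  have hcase : i = j ∨ i = T.pv j := by
    by_contra hc
    push Not at hc
    refine hy.ne' (iy j hc.1.symm ?_)
    intro e
    exact hc.2 (by rw [e, pv_nx T hi])
  have hb : ∀ i a, (0 : K) ≤ (T.be i a : K) := fun i a => by exact_mod_cast T.be_nonneg i a
  rcases hcase with e | e
  · subst e
    refine ⟨fun _ => ik, fun h => ?_⟩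
    rw [(detS T hj ik).1] at h
    exact absurd h (not_lt.mpr (mul_nonneg (hb _ _) (dpos T hj).le))
  · subst e
    refine ⟨fun h => ?_, fun _ => ik⟩
    have := (detS T hi ik).2
    rw [nx_pv T hj] at this
    rw [this] at h
    have h2 := dpos T hi
    rw [nx_pv T hj] at h2
    have := mul_nonneg (hb (T.pv j) k) h2.le
    linarith

theorem bend0 (hR : S_WREL) (s : V → K) {j y y' k l : V} (hj : j ∈ T.J) (hy : 0 < T.be j y)
    (h1 : ∀ i, i ≠ j → T.be i y = 0) (h2 : ∀ i, i ≠ j → T.be i y' = 0) (hk : P.face y y' k)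
    (hl : P.face y y' l) (dk : det3 (P.v T.N) (P.v j) (P.v k) = -1)
    (dl : det3 (P.v T.N) (P.v j) (P.v l) = 1) :
    P.mu (P.cl (ph T s)) (P.D y) (P.D y') = kap T s j := by
  have hkl : k ≠ l := by
    rintro rfl
    rw [dk] at dl
    linarith
  obtain ⟨hv, hm⟩ := (hR K V I P).1 y y' k l hk hl hkl
  have sk := (side T hj hy hk).2 (by rw [dk]; norm_num)
  have sl := (side T hj hy hl).1 (by rw [dl]; norm_num)
  have hp := pvJ T hj
  have sy : T.sec (T.pv j) y := fun i _ e => h1 i (by rwa [nx_pv T hj] at e)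
  have sy' : T.sec (T.pv j) y' := fun i _ e => h2 i (by rwa [nx_pv T hj] at e)
  obtain ⟨g, g0, g1, g2, hg⟩ := secform T s hp
  rw [nx_pv T hj] at g2
  have e1 := congrArg g hv
  simp only [map_add, map_smul, smul_eq_mul, map_zero, hg y sy, hg y' sy', hg k sk] at e1
  have e2 := congrArg g (coordS T hj sl)
  simp only [map_add, map_smul, smul_eq_mul, g0, g2] at e2
  have e3 := form_cramer g (P.v T.N) (P.v (T.pv j)) (P.v j) (P.v (T.nx j))
  rw [g0, g1, g2, det3_swap23 (P.v T.N) (P.v j) (P.v (T.nx j))] at e3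
  have e4 := (detS T hj sl).1
  rw [dl] at e4
  have o1 := T.omdef j hj
  have o2 := T.omdef _ hp
  rw [nx_pv T hj] at o2
  have p1 := dpos T hj
  have p2 := dpos T hp
  rw [nx_pv T hj] at p2
  rw [hm, kap, cA, ← o1, ← o2, phS T s hj sl]
  set w1 := det3 (P.v T.N) (P.v j) (P.v (T.nx j))
  set w2 := det3 (P.v T.N) (P.v (T.pv j)) (P.v j)
  set w3 := det3 (P.v T.N) (P.v (T.pv j)) (P.v (T.nx j))
  have hb : (T.be (T.nx j) l : K) = 1 / w1 := by field_simp; linarith
  have hG : g (P.v (T.nx j)) = (- w1 * s (T.pv j) + w3 * s j) / w2 := by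
    field_simp; linarith
  rw [hb, hG] at e2
  rw [hb]
  have e5 : ph T s k + P.m3 y y y' * ph T s y + P.m3 y y' y' * ph T s y' = - g (P.v l) := by
    linarith
  have e6 : ph T s k + (s j * (T.be j l : K) + s (T.nx j) * (1 / w1)) + P.m3 y y y' * ph T s y +
      P.m3 y y' y' * ph T s y' = s j * (T.be j l : K) + s (T.nx j) * (1 / w1) - g (P.v l) := by
    linarith
  rw [e6, e2]
  field_simp
  ring

theorem ray_coord {j y : V} (hj : j ∈ T.J) (h1 : ∀ i, i ≠ j → T.be i y = 0) :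
    P.v y = (T.be j y : K) • P.v j + (T.et y : K) • P.v T.N := by
  have := coordS T hj (a := y) (fun i e _ => h1 i e)
  rw [h1 _ (nx_ne T hj)] at this
  simpa using this

theorem bend (hW : S_WALL) (hR : S_WREL) (s : V → K) {j y y' : V} (hj : j ∈ T.J)
    (hy : 0 < T.be j y) (h1 : ∀ i, i ≠ j → T.be i y = 0) (h2 : ∀ i, i ≠ j → T.be i y' = 0)
    (ha : P.adj y y') (hd : T.be j y * T.et y' - T.be j y' * T.et y = 1 ∨
      T.be j y' * T.et y - T.be j y * T.et y' = 1) :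
    P.mu (P.cl (ph T s)) (P.D y) (P.D y') = kap T s j := by
  obtain ⟨k, l, hkl, hk, hl, dk, dl, -⟩ := hW K V P.toFan y y' ha
  have e : ∀ x : V3 K, det3 (P.v y) (P.v y') x =
      ((T.be j y' : K) * T.et y - (T.be j y : K) * T.et y') * det3 (P.v T.N) (P.v j) x := by
    intro x
    rw [ray_coord T hj h1, ray_coord T hj h2]
    simp only [det3, Pi.add_apply, Pi.smul_apply, smul_eq_mul]
    ring
  rw [e] at dk dl
  rcases hd with hd | hd
  · have hd' : (T.be j y' : K) * T.et y - (T.be j y : K) * T.et y' = -1 := by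
      have : ((T.be j y * T.et y' - T.be j y' * T.et y : ℚ) : K) = 1 := by rw [hd]; simp
      push_cast at this
      linarith
    rw [hd'] at dk dl
    exact bend0 T hR s hj hy h1 h2 hk hl (by linarith) (by linarith)
  · have hd' : (T.be j y' : K) * T.et y - (T.be j y : K) * T.et y' = 1 := by
      have : ((T.be j y' * T.et y - T.be j y * T.et y' : ℚ) : K) = 1 := by rw [hd]; simp
      push_cast at this
      linarith
    rw [hd'] at dk dl
    exact bend0 T hR s hj hy h1 h2 hl hk (by linarith) (by linarith)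

theorem bend_up (hW : S_WALL) (hR : S_WREL) (s : V → K) {y : V} (hy : y ∈ T.C) :
    P.mu (P.cl (ph T s)) (P.D y) (P.D (T.up y)) = kap T s (T.ch y) := by
  refine bend T hW hR s (T.chJ y hy) (T.beC y hy).1 (T.beC y hy).2 ?_ (T.upC y hy).1
    (Or.inl (T.detup y hy))
  intro i hi
  rcases (T.upC y hy).2 with e | ⟨e1, e2, -⟩
  · rw [e]; exact (T.beN i).1
  · exact (T.beC _ e1).2 i (by rwa [e2])

theorem bend_dn (hW : S_WALL) (hR : S_WREL) (s : V → K) {y : V} (hy : y ∈ T.C) :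
    P.mu (P.cl (ph T s)) (P.D y) (P.D (T.dn y)) = kap T s (T.ch y) := by
  refine bend T hW hR s (T.chJ y hy) (T.beC y hy).1 (T.beC y hy).2 ?_ (T.dnC y hy).1
    (Or.inr (T.detdn y hy))
  intro i hi
  rcases (T.dnC y hy).2 with e | ⟨e1, e2, -⟩
  · rw [e]; exact (T.beN i).2
  · exact (T.beC _ e1).2 i (by rwa [e2])

theorem q_eq (hW : S_WALL) (hR : S_WREL) (s : V → K) {j : V} (hj : j ∈ T.J) :
    T.q (P.cl (ph T s)) (T.Bj j) = kap T s j := by
  obtain ⟨jC, jc⟩ := T.JC j hj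
  have hup : T.up j = T.N := (T.upN j jC).mpr jc.symm
  have h0 := bend_up T hW hR s jC
  rw [hup, jc] at h0
  rw [TAG.q, P.mu12, TAG.Bj, P.mu_cl, Finset.sum_eq_single j]
  · rw [P.mu12, h0, (T.beJ j hj).1]; simp
  · intro a _ haj
    by_cases h1 : a = T.N
    · rw [h1, (T.beN j).1]; simp
    by_cases h2 : P.adj a T.N
    · rcases T.adjN a h2.symm with e | e
      · rw [(T.beJ a e).2.2 j (Ne.symm haj)]; simp
      · rw [P.mu12, nonmer T hW hR s h2, mul_zero]
        rintro (⟨h, -⟩ | ⟨h, -⟩)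
        · exact T.disj a h e
        · exact T.NC.1 h
    · rw [P.mu12, P.nadj h1 h2, mul_zero]
  · intro h; exact absurd (Finset.mem_univ j) h

end TA1x

theorem p_TA1 (hWALL : S_WALL) (hWREL : S_WREL) :
    S_TA1 := by
  intro K V I _ _ _ _ _ _ _ P T
  refine ⟨fun b hb a c hac hn => ?_, fun b hb y hy => ?_, fun j hj => ?_,
    fun j hj i hi h1 h2 h3 => ?_, fun j hj => ?_⟩
  · obtain ⟨s, rfl⟩ := TA1x.memB T hb
    exact TA1x.nonmer T hWALL hWREL s hac hn
  · obtain ⟨s, rfl⟩ := TA1x.memB T hb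
    rw [TA1x.q_eq T hWALL hWREL s (T.chJ y hy)]
    exact ⟨TA1x.bend_up T hWALL hWREL s hy, TA1x.bend_dn T hWALL hWREL s hy⟩
  · rw [TA1x.Bj_eq T hj, TA1x.q_eq T hWALL hWREL _ (TA1x.nxJ T hj), TA1x.kap, TA1x.pv_nx T hj]
    simp [TA1x.nxnx_ne T hj, TA1x.nx_ne T hj]
  · rw [TA1x.Bj_eq T hj, TA1x.q_eq T hWALL hWREL _ hi, TA1x.kap]
    have e1 : T.nx i ≠ j := fun e => h3 (by rw [← e, TA1x.pv_nx T hi])
    have e2 : T.pv i ≠ j := fun e => h2 (by rw [← e, TA1x.nx_pv T hi])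
    simp [e1, e2, h1]
  · conv_lhs => arg 2; rw [TA1x.Bj_eq T hj]
    rw [TA1x.q_eq T hWALL hWREL _ hj, TA1x.kap]
    simp [TA1x.nx_ne T hj, TA1x.pv_ne T hj]

end Pool.Agent.P.MP_33ab4b_ag.T
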