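import Pool.Agent.P.MP_33ab4b_ag.T.IfaceT
import Pool.Agent.P.MP_33ab4b_ag.T.IfaceF
import Pool.Agent.P.MP_33ab4b_ag.T.TTA1

/-! Step TA2. -/

set_option autoImplicit false
set_option linter.unusedSectionVars false

namespace Pool.Agent.P.MP_33ab4b_ag.T

open scoped Classical

namespace TA2x

open TA1x

variable {K V I : Type} [Field K] [LinearOrder K] [IsStrictOrderedRing K] [Fintype V]
  [DecidableEq V] [Fintype I] [DecidableEq I] {P : HP K V I} (T : TAG P)

theorem v_ne (a : V) : P.v a ≠ 0 := by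
  obtain ⟨s, hs, ha⟩ := P.used a
  obtain ⟨b, c, -, h⟩ := Fan.exists_face_of_mem hs ha
  intro e
  have := h.det_ne
  rw [e] at this
  exact this (by simp [det3])

theorem om_ne {j : V} (hj : j ∈ T.J) : (T.om j : K) ≠ 0 := by
  rw [← T.omdef j hj]
  exact (dpos T hj).ne'

theorem up_ne_dn {y : V} (hy : y ∈ T.C) : T.up y ≠ T.dn y := by
  intro e
  have h1 := T.detup y hy
  have h2 := T.detdn y hy
  rw [e] at h1
  linarith

theorem up_ne {y : V} (hy : y ∈ T.C) : T.up y ≠ y := (T.upC y hy).1.1.symm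
theorem dn_ne {y : V} (hy : y ∈ T.C) : T.dn y ≠ y := (T.dnC y hy).1.1.symm

theorem Bj_mem {j : V} (hj : j ∈ T.J) : T.Bj j ∈ T.B := Submodule.subset_span ⟨j, hj, rfl⟩

theorem q_comm (x y : I → K) : T.q x y = T.q y x := P.mu12 _ _ _

/-- The values of the fibre class of a chain vertex. -/
def F (y a : V) : K :=
  (if a = T.up y then 1 else 0) + (if a = T.dn y then 1 else 0) - (if a = y then (T.cy y : K) else 0)

theorem sumF (y : V) (c : V → K) :
    ∑ a, c a * F T y a = c (T.up y) + c (T.dn y) - (T.cy y : K) * c y := by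
  simp only [F, mul_sub, mul_add, mul_ite, mul_one, mul_zero, Finset.sum_sub_distrib,
    Finset.sum_add_distrib, Finset.sum_ite_eq', Finset.mem_univ, if_true]
  ring

theorem sumFv {y : V} (hy : y ∈ T.C) : ∑ a, F T y a • P.v a = 0 := by
  have := T.cyv y hy
  simp only [F, sub_smul, add_smul, ite_smul, one_smul, zero_smul, Finset.sum_sub_distrib,
    Finset.sum_add_distrib, Finset.sum_ite_eq', Finset.mem_univ, if_true]
  rw [this, sub_self]

/-- Two families with the linear relation that agree off one vertex agree. -/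
theorem diag {g g' : V → K} (a : V) (h : ∑ c, g c • P.v c = 0) (h' : ∑ c, g' c • P.v c = 0)
    (e : ∀ c, c ≠ a → g c = g' c) : g a = g' a := by
  have h2 : ∑ c, (g c - g' c) • P.v c = 0 := by
    simp only [sub_smul, Finset.sum_sub_distrib, h, h', sub_self]
  rw [Finset.sum_eq_single a (fun c _ hc => by rw [e c hc, sub_self, zero_smul])
    (fun h => absurd (Finset.mem_univ a) h)] at h2
  exact sub_eq_zero.mp ((smul_eq_zero.mp h2).resolve_right (v_ne a))

theorem ph_N (s : V → K) : ph T s T.N = 0 :=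
  Finset.sum_eq_zero fun i _ => by rw [(T.beN i).1]; simp

theorem ph_S (s : V → K) : ph T s T.S = 0 :=
  Finset.sum_eq_zero fun i _ => by rw [(T.beN i).2]; simp

theorem ph_J (s : V → K) {j : V} (hj : j ∈ T.J) : ph T s j = s j := by
  rw [ph, Finset.sum_eq_single_of_mem j hj]
  · rw [(T.beJ j hj).1]; simp
  · intro i _ hi
    rw [(T.beJ j hj).2.2 i hi]; simp

theorem ph_mem (s : V → K) : P.cl (ph T s) ∈ T.B := by
  rw [cl_ph]
  exact sum_mem fun i hi => Submodule.smul_mem _ _ (Bj_mem T hi)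

theorem form_ph (u : Fm K) (a : V) :
    u (P.v a) = ph T (fun i => u (P.v i)) a + (T.et a : K) * u (P.v T.N) := by
  have := congrArg u (T.coord a)
  simp only [map_add, map_sum, map_smul, smul_eq_mul] at this
  rw [ph]
  refine this.trans ?_
  congr 1
  exact Finset.sum_congr rfl fun i _ => mul_comm _ _

theorem cl_et : P.cl (fun a => (T.et a : K)) = P.D T.N - P.D T.S + T.eta := by
  rw [TAG.eta, ← P.cl_single, ← P.cl_single, ← P.cl_sub, ← P.cl_add]
  congr 1
  funext a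
  have hNS := T.NS
  by_cases h1 : a = T.N
  · subst h1
    simp [T.etN.1, hNS]
  by_cases h2 : a = T.S
  · subst h2
    simp [T.etN.2, hNS.symm]
  · simp [h1, h2]

theorem Phi_eq (u : Fm K) (hu : u (P.v T.N) = 1) :
    T.Phi = P.cl (ph T (fun i => u (P.v i))) := by
  have h := P.cl_form u
  have e : (fun a => u (P.v a)) = ph T (fun i => u (P.v i)) + fun a => (T.et a : K) := by
    funext a
    rw [Pi.add_apply, form_ph T u a, hu, mul_one]
  rw [e, P.cl_add, cl_et] at h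
  rw [TAG.Phi, eq_neg_of_add_eq_zero_left h]
  abel

theorem exists_u (r : K) : ∃ u : Fm K, u (P.v T.N) = r := by
  obtain ⟨j, hj⟩ := T.cyc.ne
  obtain ⟨u, h, -⟩ := exists_form (dpos T hj).ne' r 0 0
  exact ⟨u, h⟩

theorem form_S (u : Fm K) : u (P.v T.S) = - u (P.v T.N) := by
  have : P.v T.S = - P.v T.N := T.axis
  rw [this, map_neg]

theorem span (x : I → K) :
    ∃ b ∈ T.B, ∃ c : V → K, (∀ a, (a = T.S ∨ a ∈ T.J) → c a = 0) ∧ x = b + P.cl c := by
  obtain ⟨c0, rfl⟩ := P.exists_cl x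
  obtain ⟨u, hu⟩ := exists_u T (- c0 T.S)
  refine ⟨P.cl (ph T (c0 - fun a => u (P.v a))), ph_mem T _,
    (c0 - fun a => u (P.v a)) - ph T (c0 - fun a => u (P.v a)), ?_, ?_⟩
  · rintro a (rfl | ha)
    · simp [ph_S, form_S, hu]
    · rw [Pi.sub_apply, ph_J T _ ha, sub_self]
  · rw [P.cl_sub, P.cl_sub, P.cl_form]
    abel

theorem indep (c : V → K) (hc : ∀ a, (a = T.S ∨ a ∈ T.J) → c a = 0) (h : P.cl c ∈ T.B) :
    c = 0 := by
  obtain ⟨s, hs⟩ := memB T h
  have h0 : P.cl (c - ph T s) = 0 := by rw [P.cl_sub, hs, sub_self]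
  obtain ⟨u, hu⟩ := (P.ker _).mp h0
  have hN : u (P.v T.N) = 0 := by
    have := hu T.S
    rw [Pi.sub_apply, hc _ (Or.inl rfl), ph_S, form_S] at this
    linarith
  funext a
  have h1 := hu a
  rw [form_ph T u a, hN, mul_zero, add_zero, Pi.sub_apply] at h1
  have h2 : ph T (fun i => u (P.v i)) a = - ph T s a := by
    simp only [ph, ← Finset.sum_neg_distrib]
    refine Finset.sum_congr rfl fun i hi => ?_
    have := hu i
    rw [Pi.sub_apply, hc i (Or.inr hi), ph_J T s hi] at this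
    rw [← this]
    ring
  rw [h2] at h1
  simpa using h1

theorem Bind {j : V} (hj : j ∈ T.J) (s : V → K) (h1 : s j = 0) (h2 : s (T.nx j) = 0)
    (h : ∑ i ∈ T.J, s i • T.Bj i = 0) : ∀ i ∈ T.J, s i = 0 := by
  rw [← cl_ph] at h
  obtain ⟨u, hu⟩ := (P.ker _).mp h
  have hu0 : u = 0 := by
    refine form_ext (dpos T hj).ne' ?_ ?_ ?_
    · rw [← hu, ph_N]; rfl
    · rw [← hu, ph_J T s hj, h1]; rfl
    · rw [← hu, ph_J T s (nxJ T hj), h2]; rfl
  intro i hi
  rw [← ph_J T s hi, hu, hu0]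
  rfl

theorem Brel (u : Fm K) (hu : u (P.v T.N) = 0) : ∑ j ∈ T.J, u (P.v j) • T.Bj j = 0 := by
  rw [← cl_ph T (fun i => u (P.v i)), ← P.cl_form u]
  congr 1
  funext a
  rw [form_ph T u a, hu, mul_zero, add_zero]

theorem ker_B (l : (I → K) →ₗ[K] K) (h : ∀ j ∈ T.J, l (T.Bj j) = 0) {b : I → K} (hb : b ∈ T.B) :
    l b = 0 := by
  have : T.B ≤ LinearMap.ker l := by
    rw [TAG.B, Submodule.span_le]
    rintro _ ⟨j, hj, rfl⟩
    exact h j hj
  exact this hb

theorem F_Bj {y : V} (hy : y ∈ T.C) (j : V) : ∑ a, (T.be j a : K) * F T y a = 0 := by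
  rw [sumF]
  have : T.be j (T.up y) + T.be j (T.dn y) - T.cy y * T.be j y = 0 := by
    by_cases e : j = T.ch y
    · rw [e, (T.cyb y hy).1, sub_self]
    · have e1 : T.be j (T.up y) = 0 := by
        rcases (T.upC y hy).2 with h | ⟨h1, h2, -⟩
        · rw [h]; exact (T.beN j).1
        · exact (T.beC _ h1).2 j (by rwa [h2])
      have e2 : T.be j (T.dn y) = 0 := by
        rcases (T.dnC y hy).2 with h | ⟨h1, h2, -⟩
        · rw [h]; exact (T.beN j).2
        · exact (T.beC _ h1).2 j (by rwa [h2])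
      rw [e1, e2, (T.beC y hy).2 j e]
      ring
  exact_mod_cast this

section TA1

variable (h1 : ∀ b ∈ T.B, ∀ a c, P.adj a c →
      ¬ ((a ∈ T.C ∧ (c = T.up a ∨ c = T.dn a)) ∨ (c ∈ T.C ∧ (a = T.up c ∨ a = T.dn c))) →
      P.mu b (P.D a) (P.D c) = 0)
  (h2 : ∀ b ∈ T.B, ∀ y ∈ T.C, P.mu b (P.D y) (P.D (T.up y)) = T.q b (T.Bj (T.ch y)) ∧
      P.mu b (P.D y) (P.D (T.dn y)) = T.q b (T.Bj (T.ch y)))

include h1 in
theorem off {b : I → K} (hb : b ∈ T.B) {a c : V} (hac : c ≠ a)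
    (hn : ¬ ((a ∈ T.C ∧ (c = T.up a ∨ c = T.dn a)) ∨ (c ∈ T.C ∧ (a = T.up c ∨ a = T.dn c)))) :
    P.mu b (P.D a) (P.D c) = 0 := by
  by_cases h : P.adj a c
  · exact h1 b hb a c h hn
  · exact P.nadj hac.symm h b

include h1 in
theorem BI {b : I → K} (hb : b ∈ T.B) {i : V} (hi : i ∈ T.In) : P.mu b (P.D i) = 0 := by
  have e : ∀ c, c ≠ i → P.mu b (P.D i) (P.D c) = 0 := by
    intro c hc
    refine off T h1 hb hc ?_
    rintro (⟨h, -⟩ | ⟨h, h' | h'⟩)
    · exact T.disj i h hi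
    · rcases (T.upC c h).2 with e | ⟨e, -⟩
      · exact T.NC.2.2.1 (by rw [← e, ← h']; exact hi)
      · exact T.disj i (by rw [h']; exact e) hi
    · rcases (T.dnC c h).2 with e | ⟨e, -⟩
      · exact T.NC.2.2.2 (by rw [← e, ← h']; exact hi)
      · exact T.disj i (by rw [h']; exact e) hi
  refine P.form_ext fun c => ?_
  by_cases hc : c = i
  · rw [hc]
    exact diag (g := fun c => P.mu b (P.D i) (P.D c)) (g' := fun _ => 0) i (P.LRv _) (by simp) e
  · exact e c hc

include h1 h2 in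
theorem muC {b : I → K} (hb : b ∈ T.B) {y : V} (hy : y ∈ T.C) (a : V) :
    P.mu b (P.D y) (P.D a) = T.q b (T.Bj (T.ch y)) * F T y a := by
  have e : ∀ c, c ≠ y → P.mu b (P.D y) (P.D c) = T.q b (T.Bj (T.ch y)) * F T y c := by
    intro c hc
    by_cases c1 : c = T.up y
    · rw [F, if_pos c1, if_neg (by rw [c1]; exact up_ne_dn T hy), if_neg hc, c1, (h2 b hb y hy).1]
      ring
    by_cases c2 : c = T.dn y
    · rw [F, if_neg c1, if_pos c2, if_neg hc, c2, (h2 b hb y hy).2]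
      ring
    rw [F, if_neg c1, if_neg c2, if_neg hc, off T h1 hb hc]
    · ring
    rintro (⟨-, h | h⟩ | ⟨h, h' | h'⟩)
    · exact c1 h
    · exact c2 h
    · rcases (T.upC c h).2 with e | ⟨-, -, e⟩
      · exact T.NC.1 (by rw [← e, ← h']; exact hy)
      · exact c2 (by rw [h', e])
    · rcases (T.dnC c h).2 with e | ⟨-, -, e⟩
      · exact T.NC.2.1 (by rw [← e, ← h']; exact hy)
      · exact c1 (by rw [h', e])
  by_cases hc : a = y
  · rw [hc]
    refine diag (g := fun c => P.mu b (P.D y) (P.D c))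
      (g' := fun c => T.q b (T.Bj (T.ch y)) * F T y c) y (P.LRv _) ?_ e
    simp only [mul_smul, ← Finset.smul_sum, sumFv T hy, smul_zero]
  · exact e a hc

include h1 h2 in
theorem muBC {b b' : I → K} (hb : b ∈ T.B) (hb' : b' ∈ T.B) {y : V} (hy : y ∈ T.C) :
    P.mu b (P.D y) b' = 0 := by
  refine ker_B T _ (fun j _ => ?_) hb'
  rw [TAG.Bj, P.form_cl]
  simp only [muC T h1 h2 hb hy, mul_left_comm _ (T.q b (T.Bj (T.ch y))), ← Finset.mul_sum,
    F_Bj T hy, mul_zero]

include h1 h2 in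
theorem muB0 {b b' : I → K} (hb : b ∈ T.B) (hb' : b' ∈ T.B) {a : V} (hN : a ≠ T.N)
    (hS : a ≠ T.S) : P.mu b b' (P.D a) = 0 := by
  rw [P.mu23]
  rcases T.part a with e | e | e | e
  · exact absurd e hN
  · exact absurd e hS
  · exact muBC T h1 h2 hb hb' e
  · rw [BI T h1 hb e]; rfl

include h1 h2 in
theorem muBS {b b' : I → K} (hb : b ∈ T.B) (hb' : b' ∈ T.B) :
    P.mu b b' (P.D T.S) = T.q b b' := by
  have hNS := T.NS
  have := diag (P := P) (g := fun c => P.mu b b' (P.D c))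
    (g' := fun c => (if c = T.N then T.q b b' else 0) + (if c = T.S then T.q b b' else 0)) T.S
    (P.LRv _) ?_ ?_
  · simpa [hNS.symm] using this
  · have ax : P.v T.S = - P.v T.N := T.axis
    simp [add_smul, ite_smul, Finset.sum_add_distrib, ax]
  · intro c hc
    by_cases e : c = T.N
    · simp [e, hNS, TAG.q]
    · simp [e, hc, muB0 T h1 h2 hb hb' e hc]

end TA1

end TA2x

open TA1x TA2x in
theorem p_TA2 (hPD1 : S_PD1) (hTA1 : S_TA1) :
    S_TA2 := by
  intro K V I _ _ _ _ _ _ _ P T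
  obtain ⟨h1, h2, h3, h4, h5⟩ := hTA1 K V I P T
  obtain ⟨j0, hj0⟩ := T.cyc.ne
  have hNS := T.NS
  obtain ⟨z, hzN, hzS, hz0⟩ : ∃ z : (I → K) →ₗ[K] K, z (P.D T.N) = 1 ∧ z (P.D T.S) = 1 ∧
      ∀ a, a ≠ T.N → a ≠ T.S → z (P.D a) = 0 := by
    have b1 := Bj_mem T hj0
    have b2 := Bj_mem T (nxJ T hj0)
    refine ⟨(T.om j0 : K) • P.mu (T.Bj j0) (T.Bj (T.nx j0)), ?_, ?_, fun a e1 e2 => ?_⟩
    · have := h3 j0 hj0
      rw [TAG.q] at this
      rw [LinearMap.smul_apply, this, smul_eq_mul, mul_one_div_cancel (om_ne T hj0)]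
    · rw [LinearMap.smul_apply, muBS T h1 h2 b1 b2, h3 j0 hj0, smul_eq_mul,
        mul_one_div_cancel (om_ne T hj0)]
    · rw [LinearMap.smul_apply, muB0 T h1 h2 b1 b2 e1 e2, smul_zero]
  obtain ⟨f, hf⟩ : ∃ f : V → (I → K) →ₗ[K] K, ∀ y ∈ T.C, ∀ a, f y (P.D a) = F T y a := by
    refine ⟨fun y => (T.om (T.ch y) : K) • P.mu (T.Bj (T.nx (T.ch y))) (P.D y), fun y hy a => ?_⟩
    have hj := T.chJ y hy
    rw [LinearMap.smul_apply, muC T h1 h2 (Bj_mem T (nxJ T hj)) hy, q_comm, h3 _ hj, smul_eq_mul,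
      ← mul_assoc, mul_one_div_cancel (om_ne T hj), one_mul]
  have hBC : ∀ b ∈ T.B, ∀ y ∈ T.C, P.mu b (P.D y) = T.q b (T.Bj (T.ch y)) • f y := by
    intro b hb y hy
    refine P.form_ext fun a => ?_
    rw [muC T h1 h2 hb hy, LinearMap.smul_apply, hf y hy, smul_eq_mul]
  have hBB : ∀ b ∈ T.B, ∀ b' ∈ T.B, P.mu b b' = T.q b b' • z := by
    intro b hb b' hb'
    refine P.form_ext fun a => ?_
    rw [LinearMap.smul_apply, smul_eq_mul]
    by_cases e1 : a = T.N
    · rw [e1, hzN, mul_one, TAG.q]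
    by_cases e2 : a = T.S
    · rw [e2, hzS, mul_one, muBS T h1 h2 hb hb']
    · rw [hz0 a e1 e2, muB0 T h1 h2 hb hb' e1 e2, mul_zero]
  have hzc : ∀ c : V → K, z (P.cl c) = c T.N + c T.S := by
    intro c
    rw [P.form_cl, Finset.sum_eq_add_of_mem T.N T.S (Finset.mem_univ _) (Finset.mem_univ _) hNS
      (fun a _ ha => by rw [hz0 a ha.1 ha.2, mul_zero]), hzN, hzS, mul_one, mul_one]
  have hfc : ∀ y ∈ T.C, ∀ c : V → K,
      f y (P.cl c) = c (T.up y) + c (T.dn y) - (T.cy y : K) * c y := by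
    intro y hy c
    rw [P.form_cl, ← sumF]
    exact Finset.sum_congr rfl fun a _ => by rw [hf y hy]
  refine ⟨⟨z, f, ⟨hzN, hzS⟩, hz0, hf, fun b hb i hi => BI T h1 hb hi, hBC, hBB, ?_, h3, h4, h5,
    ?_, ?_, span T, indep T, fun j hj => Bind T hj, Brel T, ?_, ?_⟩⟩
  · intro b hb h
    refine hPD1 K V I P b fun a c hac => ?_
    by_cases ha : a ∈ T.C
    · rw [muC T h1 h2 hb ha, h _ (T.chJ a ha), zero_mul]
    by_cases hc : c ∈ T.C
    · rw [P.mu23, muC T h1 h2 hb hc, h _ (T.chJ c hc), zero_mul]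
    · exact h1 b hb a c hac (fun h => h.elim (fun h => ha h.1) (fun h => hc h.1))
  · obtain ⟨u, hu⟩ := exists_u T (1 : K)
    rw [Phi_eq T u hu]
    exact ph_mem T _
  · intro j hj hd
    obtain ⟨u, u1, u2, u3⟩ := exists_form (dpos T hj).ne' (1 : K) 0 0
    have u4 : u (P.v (T.pv j)) = 0 := by
      have := form_cramer u (P.v T.N) (P.v j) (P.v (T.nx j)) (P.v (T.pv j))
      rw [hd, u2, u3, zero_mul, mul_zero, mul_zero, add_zero, add_zero] at this
      exact (mul_eq_zero.mp this).resolve_left (dpos T hj).ne'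
    rw [Phi_eq T u u1, cl_ph, q_comm, TAG.q, map_sum, LinearMap.sum_apply]
    refine Finset.sum_eq_zero fun i hi => ?_
    rw [map_smul, LinearMap.smul_apply, smul_eq_mul]
    by_cases e1 : i = j
    · rw [e1, u2, zero_mul]
    by_cases e2 : i = T.nx j
    · rw [e2, u3, zero_mul]
    by_cases e3 : i = T.pv j
    · rw [e3, u4, zero_mul]
    · have := h4 j hj i hi e1 e2 e3
      rw [TAG.q] at this
      rw [this, mul_zero]
  · intro w hz hw
    obtain ⟨b, hb, c, hc, rfl⟩ := span T w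
    have zb : z b = 0 := ker_B T z (fun j _ => by
      rw [TAG.Bj, hzc, (T.beN j).1, (T.beN j).2]; simp) hb
    have cS := hc _ (Or.inl rfl)
    have cN : c T.N = 0 := by
      rw [map_add, zb, hzc, cS] at hz
      simpa using hz
    have rel : ∀ y ∈ T.C, c (T.up y) + c (T.dn y) - (T.cy y : K) * c y = 0 := by
      intro y hy
      have fb : f y b = 0 := ker_B T (f y) (fun j _ => by
        rw [TAG.Bj, hfc y hy, ← sumF T y (fun a => (T.be j a : K)), F_Bj T hy]) hb
      have := hw y hy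
      rwa [map_add, fb, zero_add, hfc y hy] at this
    have cC : ∀ y ∈ T.C, c y = 0 := by
      intro y hy
      have hj := T.chJ y hy
      refine (T.chind (fun y => c y = 0 ∧ c (T.up y) = 0) _ hj ⟨hc _ (Or.inr hj), ?_⟩ ?_ y hy rfl).1
      · rw [(T.upN _ (T.JC _ hj).1).mpr (T.JC _ hj).2.symm, cN]
      · rintro x hx - ⟨e1, e2⟩ hd
        have := rel x hx
        rw [e1, e2, mul_zero, zero_add, sub_zero] at this
        refine ⟨this, ?_⟩
        rcases (T.dnC x hx).2 with e | ⟨-, -, e⟩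
        · exact absurd (e ▸ hd) T.NC.2.1
        · rw [e, e1]
    refine Submodule.add_mem_sup hb (P.mem_sp.mpr ⟨c, fun a ha => ?_, rfl⟩)
    rcases T.part a with e | e | e | e
    · rw [e, cN]
    · rw [e, cS]
    · exact cC a e
    · exact absurd e ha
  · intro j hj x
    have b1 := Bj_mem T hj
    have b2 := Bj_mem T (nxJ T hj)
    have e1 : P.mu (T.Bj j) (T.Bj (T.nx j)) x = 1 / (T.om j : K) * z x := by
      rw [hBB _ b1 _ b2, h3 j hj, LinearMap.smul_apply, smul_eq_mul]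
    have e2 : P.mu (T.Bj j) (T.Bj (T.nx j)) x = 1 / (T.om j : K) *
        ∑ y ∈ T.C.filter (fun y => T.ch y = j), (T.be j y : K) * f y x := by
      conv_lhs => rw [TAG.Bj, P.mu_cl]
      rw [Finset.mul_sum, ← Finset.sum_subset (Finset.subset_univ (T.C.filter (fun y => T.ch y = j)))]
      · refine Finset.sum_congr rfl fun y hy => ?_
        obtain ⟨hy, hc⟩ := Finset.mem_filter.mp hy
        rw [P.mu12, hBC _ b2 y hy, hc, q_comm, h3 j hj, LinearMap.smul_apply, smul_eq_mul]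
        ring
      · intro a _ ha
        rcases T.part a with e | e | e | e
        · rw [e, (T.beN j).1]; simp
        · rw [e, (T.beN j).2]; simp
        · rw [(T.beC a e).2 j (fun h => ha (Finset.mem_filter.mpr ⟨e, h.symm⟩))]; simp
        · rw [P.mu12, BI T h1 b2 e]; simp
    exact mul_left_cancel₀ (one_div_ne_zero (om_ne T hj)) (e2.symm.trans e1)

end Pool.Agent.P.MP_33ab4b_ag.T
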