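import Pool.Agent.P.MP_33ab4b_ag.T.IfaceT
import Pool.Agent.P.MP_33ab4b_ag.T.IfaceF
import Pool.Agent.P.MP_33ab4b_ag.T.IfaceA
import Pool.Agent.P.MP_33ab4b_ag.T.CycL

/-! Step TG0. -/

set_option autoImplicit false
set_option linter.unusedSectionVars false

namespace Pool.Agent.P.MP_33ab4b_ag.T

open scoped Classical

namespace TG0x

variable {K V : Type} [Field K] [LinearOrder K] [IsStrictOrderedRing K] [Fintype V] [DecidableEq V]

theorem open_comb (Φ : Fan K V) {s : Finset V} {x y : V3 K} (hx : Φ.InOpen s x)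
    (hy : Φ.InOpen s y) {r r' : K} (hr : 0 ≤ r) (hr' : 0 < r') : Φ.InOpen s (r • x + r' • y) := by
  obtain ⟨t, t1, t2, rfl⟩ := hx
  obtain ⟨u, u1, u2, rfl⟩ := hy
  refine ⟨fun a => r * t a + r' * u a, fun a ha => ?_, fun a ha => ?_, ?_⟩
  · have := mul_nonneg hr (t1 a ha).le
    have := mul_pos hr' (u1 a ha)
    linarith
  · simp [t2 a ha, u2 a ha]
  · simp only [Finset.smul_sum, smul_smul, ← Finset.sum_add_distrib, add_smul]

theorem open_vert (Φ : Fan K V) {s : Finset V} {x : V3 K} (hx : Φ.InOpen s x) {a : V}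
    (ha : a ∈ s) {r : K} (hr : 0 < r) : Φ.InOpen s (r • x + (1 : K) • Φ.v a) := by
  obtain ⟨t, t1, t2, rfl⟩ := hx
  refine ⟨fun b => r * t b + (if b = a then 1 else 0), fun b hb => ?_, fun b hb => ?_, ?_⟩
  · have := mul_pos hr (t1 b hb)
    beta_reduce
    split_ifs <;> linarith
  · have : b ≠ a := by rintro rfl; exact hb ha
    simp [t2 b hb, this]
  · simp [Finset.smul_sum, smul_smul, Finset.sum_add_distrib, add_smul, ite_smul]

theorem open_ex (Φ : Fan K V) (s : Finset V) : ∃ x, Φ.InOpen s x :=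
  ⟨_, fun a => if a ∈ s then 1 else 0, fun a ha => by simp [ha], fun a ha => by simp [ha], rfl⟩

/-- A point of an open cone does not lie in a straight half plane. -/
theorem not_inH (Φ : Fan K V) {s : Finset V} (hs : s ∈ Φ.F) {x e y : V3 K} (hx : Φ.InOpen s x)
    (hy : Φ.Str e y) : ¬ InH e y x := by
  intro h
  obtain ⟨t, t1, t2, e1⟩ := hx
  have hrep : Φ.IsRep x t := by
    refine ⟨fun a => ?_, ⟨s, hs, t2⟩, e1⟩
    by_cases ha : a ∈ s
    · exact (t1 a ha).le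
    · exact (t2 a ha).ge
  obtain ⟨a, b, c, rfl, hf⟩ := Fan.exists_face_eq hs
  obtain ⟨p1, q1, -, h1⟩ := hy x t h hrep a (t1 a (by simp)).ne'
  obtain ⟨p2, q2, -, h2⟩ := hy x t h hrep b (t1 b (by simp)).ne'
  obtain ⟨p3, q3, -, h3⟩ := hy x t h hrep c (t1 c (by simp)).ne'
  apply hf.det_ne
  rw [h1, h2, h3]
  simp only [det3, Pi.add_apply, Pi.smul_apply, smul_eq_mul]
  ring

theorem inH_left {e p q x : V3 K} (hw : 0 < det3 e p q) (h0 : det3 e p x = 0)
    (h1 : 0 ≤ det3 e x q) : InH e p x := by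
  have hp : detL e p ≠ 0 := fun h => by
    have := LinearMap.congr_fun h q
    simp at this
    linarith
  obtain ⟨s, t, rfl⟩ := par_mod hp h0
  rw [det3_comb2] at h1
  exact ⟨s, t, nonneg_of_mul_nonneg_left h1 hw, rfl⟩

theorem inH_right {e p q x : V3 K} (hw : 0 < det3 e p q) (h0 : det3 e x q = 0)
    (h1 : 0 ≤ det3 e p x) : InH e q x := by
  have hq : detL e q ≠ 0 := fun h => by
    have := LinearMap.congr_fun h p
    simp only [detL_apply, LinearMap.zero_apply] at this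
    rw [det3_swap23] at this
    linarith
  obtain ⟨s, t, rfl⟩ := par_mod hq (by rw [det3_swap23, h0, neg_zero])
  rw [det3_comb3] at h1
  exact ⟨s, t, nonneg_of_mul_nonneg_left h1 hw, rfl⟩

/-- An open cone with one point in an open sector with straight sides lies in it. -/
theorem open_sector (Φ : Fan K V) {s : Finset V} (hs : s ∈ Φ.F) {e p q x : V3 K}
    (hw : 0 < det3 e p q) (hp : Φ.Str e p) (hq : Φ.Str e q) (hx : Φ.InOpen s x)
    (hA : 0 < det3 e p x) (hC : 0 < det3 e x q) {y : V3 K} (hy : Φ.InOpen s y) :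
    0 < det3 e p y ∧ 0 < det3 e y q := by
  have k1 : det3 e p y ≤ 0 → det3 e p x * det3 e y q < det3 e p y * det3 e x q := by
    intro hB
    by_contra hc
    refine not_inH Φ hs (open_comb Φ hx hy (neg_nonneg.2 hB) hA) hp (inH_left hw ?_ ?_)
    · rw [det3_lin3]; ring
    · rw [det3_lin2]; linarith [not_lt.1 hc]
  have k2 : det3 e y q ≤ 0 → det3 e p y * det3 e x q < det3 e p x * det3 e y q := by
    intro hD
    by_contra hc
    refine not_inH Φ hs (open_comb Φ hx hy (neg_nonneg.2 hD) hC) hq (inH_right hw ?_ ?_)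
    · rw [det3_lin2]; ring
    · rw [det3_lin3]; linarith [not_lt.1 hc]
  have hB : 0 < det3 e p y := by
    by_contra hB
    have hB := not_lt.1 hB
    have h1 := k1 hB
    have h2 : det3 e p y * det3 e x q ≤ 0 := mul_nonpos_of_nonpos_of_nonneg hB hC.le
    have hD : det3 e y q ≤ 0 := by
      by_contra hD
      have := mul_pos hA (not_le.1 hD)
      linarith
    linarith [k2 hD]
  refine ⟨hB, ?_⟩
  by_contra hD
  have hD := not_lt.1 hD
  have h1 := k2 hD
  have h2 := mul_pos hB hC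
  have h3 : det3 e p x * det3 e y q ≤ 0 := mul_nonpos_of_nonneg_of_nonpos hA.le hD
  linarith

end TG0x

open TG0x in
theorem p_TG0 (hUNIQ : S_UNIQ) (hNX : S_NX) (hTOP : S_TOP) :
    S_TG0 := by
  intro K V _ _ _ _ _ Φ N S J hTA hJ
  obtain ⟨hax, hcomp, -⟩ := hTA
  obtain ⟨-, -, -, -, hsame, -⟩ := hTOP K V Φ.toFan N S hax
  have hnp : ∀ a ∈ J, ∀ t : K, Φ.v a ≠ t • Φ.v N := fun a ha t => by
    obtain ⟨k, hk⟩ := ((hJ a).1 ha).1.exists_face
    exact not_par_of_det hk.det_ne t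
  have he : Φ.v N ≠ 0 := by
    obtain ⟨s, hs, hN⟩ := Φ.used N
    obtain ⟨b, c, -, hf⟩ := Fan.exists_face_of_mem hs hN
    intro h0
    apply hf.det_ne
    rw [h0]; simp [det3]
  have hpar : ∀ a ∈ J, ∀ b ∈ J, a ≠ b → det3 (Φ.v N) (Φ.v a) (Φ.v b) = 0 →
      ∃ s t : K, 0 < s ∧ Φ.v b = (-s) • Φ.v a + t • Φ.v N := by
    intro a ha b hb hab h0
    obtain ⟨s, t, hst⟩ := par_mod (detL_ne_zero he (hnp a ha)) h0
    rcases le_or_gt 0 s with hs | hs
    · exact absurd (hsame a b ((hJ a).1 ha).1 ((hJ b).1 hb).1 ⟨s, t, hs, hst⟩) hab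
    · exact ⟨-s, t, neg_pos.2 hs, by rw [neg_neg]; exact hst⟩
  obtain ⟨nx, pv, C⟩ := hNX K V (Φ.v N) Φ.v J he hnp hpar (fun u hu h0 => by
    obtain ⟨y, hy, h⟩ := hcomp u hu h0
    exact ⟨y, (hJ y).2 hy, h⟩)
  refine ⟨nx, pv, C, ?_, ?_⟩
  · intro a ha b hb hab h0
    obtain ⟨s, t, hs, hst⟩ := hpar a ha b hb hab h0
    obtain ⟨k, hk⟩ := ((hJ a).1 ha).1.exists_face
    obtain ⟨l, hl⟩ := ((hJ b).1 hb).1.exists_face
    have z1 : det3 (Φ.v N) (Φ.v b) (Φ.v k) ∈ Φ.hf.Z := det3_mem _ (Φ.vZ N) (Φ.vZ b) (Φ.vZ k)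
    have z2 : det3 (Φ.v N) (Φ.v a) (Φ.v l) ∈ Φ.hf.Z := det3_mem _ (Φ.vZ N) (Φ.vZ a) (Φ.vZ l)
    have e1 : det3 (Φ.v N) (Φ.v b) (Φ.v k) = -s * det3 (Φ.v N) (Φ.v a) (Φ.v k) := by
      rw [hst, det3_comb2]
    have e2 : det3 (Φ.v N) (Φ.v b) (Φ.v l) = -s * det3 (Φ.v N) (Φ.v a) (Φ.v l) := by
      rw [hst, det3_comb2]
    have a1 : |det3 (Φ.v N) (Φ.v a) (Φ.v k)| = 1 := by
      rcases hk.det with h | h <;> rw [h] <;> simp
    have a2 : |det3 (Φ.v N) (Φ.v b) (Φ.v l)| = 1 := by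
      rcases hl.det with h | h <;> rw [h] <;> simp
    have b1 : 1 ≤ s := by
      have := Φ.hf.one_le_abs z1 (by rw [e1]; exact mul_ne_zero (neg_ne_zero.2 hs.ne') hk.det_ne)
      rwa [e1, abs_mul, a1, mul_one, abs_neg, abs_of_pos hs] at this
    have b2 : s ≤ 1 := by
      have h1 := Φ.hf.one_le_abs z2 (fun h => hl.det_ne (by rw [e2, h, mul_zero]))
      rw [e2, abs_mul, abs_neg, abs_of_pos hs] at a2
      nlinarith
    have : s = 1 := le_antisymm b2 b1
    exact ⟨t, by rw [hst, this, neg_smul, one_smul]⟩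
  · intro s hs
    obtain ⟨x, hx⟩ := open_ex Φ.toFan s
    obtain ⟨j0, hj0⟩ := C.ne
    obtain ⟨j, hj, hA, hC⟩ := C.cov x (fun t ht =>
      not_inH Φ.toFan hs hx ((hJ j0).1 hj0).2 ⟨0, t, le_rfl, by rw [ht, zero_smul, zero_add]⟩)
    have hp := ((hJ j).1 hj).2
    have hq := ((hJ _).1 (C.nx_mem hj)).2
    have hw := C.pos j hj
    have hA' : 0 < det3 (Φ.v N) (Φ.v j) x := by
      refine lt_of_le_of_ne hA fun h => ?_
      exact not_inH Φ.toFan hs hx hp (inH_left hw h.symm hC.le)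
    have key := fun y (hy : Φ.InOpen s y) => open_sector Φ.toFan hs hw hp hq hx hA' hC hy
    refine ⟨j, hj, fun a ha => ⟨?_, ?_⟩, key⟩
    · by_contra h
      have h := not_le.1 h
      have := (key _ (open_vert Φ.toFan hx ha (div_pos (neg_pos.2 h) hA'))).1
      rw [det3_lin3, div_mul_cancel₀ _ hA'.ne'] at this
      linarith
    · by_contra h
      have h := not_le.1 h
      have := (key _ (open_vert Φ.toFan hx ha (div_pos (neg_pos.2 h) hC))).2
      rw [det3_lin2, div_mul_cancel₀ _ hC.ne'] at this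
      linarith

end Pool.Agent.P.MP_33ab4b_ag.T
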