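import Pool.Agent.P.MP_33ab4b_ag.T.IfaceT
import Pool.Agent.P.MP_33ab4b_ag.T.IfaceF

/-! Step TG1. -/

set_option autoImplicit false
set_option linter.unusedSectionVars false

namespace Pool.Agent.P.MP_33ab4b_ag.T

open scoped Classical

namespace TG1x

variable {K V : Type} [Field K] [LinearOrder K] [IsStrictOrderedRing K]

theorem alg {p q r s α β α' β' W : K} (hW : 0 < W) (D : 0 < p * s - q * r) (hα : 0 < α)
    (hβ : 0 ≤ β) (hα' : 0 ≤ α') (hβ' : 0 ≤ β') (e1 : W * α = α' * p + β' * r)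
    (e2 : W * β = α' * q + β' * s) (n1 : ¬ (0 < q ∧ 0 < p)) (n3 : ¬ (q < 0 ∧ 0 < s))
    (n4 : ¬ (0 < p ∧ r < 0)) (n2 : ¬ (0 < s ∧ 0 < r)) (m1 : q = 0 → p < 0)
    (m2 : s = 0 → r < 0) : False := by
  have h1 : 0 < W * α := mul_pos hW hα
  have h2 : 0 ≤ W * β := mul_nonneg hW.le hβ
  rcases lt_or_ge 0 p with hp | hp
  · have hq : q < 0 := by
      rcases lt_trichotomy q 0 with h | h | h
      · exact h
      · linarith [m1 h]
      · exact absurd ⟨h, hp⟩ n1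
    have hs : s ≤ 0 := not_lt.mp fun h => n3 ⟨hq, h⟩
    have hr : 0 ≤ r := not_lt.mp fun h => n4 ⟨hp, h⟩
    have hs' : s < 0 := lt_of_le_of_ne hs fun h => by linarith [m2 h]
    have a1 : α' * q ≤ 0 := mul_nonpos_of_nonneg_of_nonpos hα' hq.le
    have a2 : β' * s ≤ 0 := mul_nonpos_of_nonneg_of_nonpos hβ' hs
    have a3 : α' = 0 := by
      have : α' * q = 0 := by linarith
      exact (mul_eq_zero.mp this).resolve_right hq.ne
    have a4 : β' = 0 := by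
      have : β' * s = 0 := by linarith
      exact (mul_eq_zero.mp this).resolve_right hs'.ne
    rw [a3, a4] at e1
    linarith
  · have a1 : α' * p ≤ 0 := mul_nonpos_of_nonneg_of_nonpos hα' hp
    have hr : 0 < r := by
      by_contra hc
      have := mul_nonpos_of_nonneg_of_nonpos hβ' (not_lt.mp hc)
      linarith
    have hs : s ≤ 0 := not_lt.mp fun h => n2 ⟨h, hr⟩
    have hs' : s < 0 := lt_of_le_of_ne hs fun h => by linarith [m2 h]
    have b1 : s * (W * α) - r * (W * β) = α' * (p * s - q * r) := by rw [e1, e2]; ring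
    have b2 : s * (W * α) < 0 := mul_neg_of_neg_of_pos hs' h1
    have b3 : 0 ≤ r * (W * β) := mul_nonneg hr.le h2
    have b4 : 0 ≤ α' * (p * s - q * r) := mul_nonneg hα' D.le
    linarith

theorem d2 (e x y : V3 K) (s t : K) : det3 e (s • x + t • e) y = s * det3 e x y := by
  simp only [det3, Pi.add_apply, Pi.smul_apply, smul_eq_mul]; ring

theorem d3 (e x y : V3 K) (s t : K) : det3 e y (s • x + t • e) = s * det3 e y x := by
  simp only [det3, Pi.add_apply, Pi.smul_apply, smul_eq_mul]; ring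

theorem a2 (e x y z : V3 K) : det3 e (x + y) z = det3 e x z + det3 e y z := by
  simp only [det3, Pi.add_apply]; ring

theorem a3 (e x y z : V3 K) : det3 e z (x + y) = det3 e z x + det3 e z y := by
  simp only [det3, Pi.add_apply]; ring

/-- The closed sector between `a` and `b`. -/
def Sec (e a b x : V3 K) : Prop := 0 ≤ det3 e a x ∧ 0 ≤ det3 e x b

section cyc

variable {e : V3 K} {v : V → V3 K} {A : Finset V} {nx pv : V → V} (C : Cyc e v A nx pv)
include C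

theorem L1 {j j' : V} (hj : j ∈ A) (hj' : j' ∈ A) {x : V3 K} (h : Sec e (v j) (v (nx j)) x)
    (h' : Sec e (v j') (v (nx j')) x) (h0 : 0 < det3 e x (v (nx j))) : j = j' ∨ j = nx j' := by
  by_contra hc
  push Not at hc
  have W := C.pos j hj
  have W' := C.pos j' hj'
  have hn := (C.mem j hj).1
  have hn' := (C.mem j' hj').1
  refine alg (p := det3 e (v j') (v (nx j))) (q := det3 e (v j) (v j'))
    (r := det3 e (v (nx j')) (v (nx j))) (s := det3 e (v j) (v (nx j'))) W' ?_ h0 h.1 h'.2 h'.1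
    ?_ ?_ (C.nob j hj j' hj') ?_ ?_ (C.nob j hj _ hn') ?_ ?_
  · have : det3 e (v j') (v (nx j)) * det3 e (v j) (v (nx j')) -
        det3 e (v j) (v j') * det3 e (v (nx j')) (v (nx j)) =
        det3 e (v j) (v (nx j)) * det3 e (v j') (v (nx j')) := by simp only [det3]; ring
    rw [this]; positivity
  · simp only [det3]; ring
  · simp only [det3]; ring
  · rintro ⟨h1, h2⟩
    exact C.nob j' hj' j hj ⟨by rw [det3_swap23]; linarith, h2⟩
  · rintro ⟨h1, h2⟩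
    exact C.nob j' hj' _ hn ⟨h1, by rw [det3_swap23]; linarith⟩
  · intro h1
    obtain ⟨s, t, hs, e1⟩ := C.npar j hj j' hj' hc.1 h1
    rw [e1, d2]; nlinarith
  · intro h1
    obtain ⟨s, t, hs, e1⟩ := C.npar j hj _ hn' hc.2 h1
    rw [e1, d2]; nlinarith

theorem L2 {j j' : V} (hj : j ∈ A) (hj' : j' ∈ A) {x : V3 K} (h : Sec e (v j) (v (nx j)) x)
    (h' : Sec e (v j') (v (nx j')) x) (h0 : 0 < det3 e (v j) x) : nx j = j' ∨ nx j = nx j' := by
  by_contra hc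
  push Not at hc
  have W := C.pos j hj
  have W' := C.pos j' hj'
  have hn := (C.mem j hj).1
  have hn' := (C.mem j' hj').1
  refine alg (s := det3 e (v j') (v (nx j))) (r := det3 e (v j) (v j'))
    (q := det3 e (v (nx j')) (v (nx j))) (p := det3 e (v j) (v (nx j'))) W' ?_ h0 h.2 h'.1 h'.2
    ?_ ?_ ?_ ?_ ?_ ?_ ?_ ?_
  · have : det3 e (v j) (v (nx j')) * det3 e (v j') (v (nx j)) -
        det3 e (v (nx j')) (v (nx j)) * det3 e (v j) (v j') =
        det3 e (v j) (v (nx j)) * det3 e (v j') (v (nx j')) := by simp only [det3]; ring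
    rw [this]; positivity
  · simp only [det3]; ring
  · simp only [det3]; ring
  · exact fun h1 => C.nob j hj _ hn' ⟨h1.2, h1.1⟩
  · rintro ⟨h1, h2⟩
    exact C.nob j' hj' _ hn ⟨h2, by rw [det3_swap23]; linarith⟩
  · rintro ⟨h1, h2⟩
    exact C.nob j' hj' j hj ⟨by rw [det3_swap23]; linarith, h1⟩
  · exact fun h1 => C.nob j hj j' hj' ⟨h1.2, h1.1⟩
  · intro h1
    obtain ⟨s, t, hs, e1⟩ := C.npar _ hn _ hn' hc.2 (by rw [det3_swap23, h1, neg_zero])
    rw [e1, d3]; nlinarith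
  · intro h1
    obtain ⟨s, t, hs, e1⟩ := C.npar _ hn j' hj' hc.1 (by rw [det3_swap23, h1, neg_zero])
    rw [e1, d3]; nlinarith

theorem nx_ne {j : V} (hj : j ∈ A) : nx j ≠ j := fun h => by
  have := C.pos j hj
  rw [h] at this
  simp at this

theorem L3 {j j' : V} (hj : j ∈ A) (hj' : j' ∈ A) {x : V3 K} (h1 : 0 < det3 e (v j) x)
    (h2 : 0 < det3 e x (v (nx j))) (h' : Sec e (v j') (v (nx j')) x) : j = j' := by
  rcases L1 C hj hj' ⟨h1.le, h2.le⟩ h' h2 with a | a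
  · exact a
  · exfalso
    rcases L2 C hj hj' ⟨h1.le, h2.le⟩ h' h1 with b | b
    · have W := C.pos j hj
      have W' := C.pos j' hj'
      rw [b] at W
      rw [← a, det3_swap23] at W'
      linarith
    · exact nx_ne C hj (b.trans a.symm)

theorem sec_self {j : V} (hj : j ∈ A) : Sec e (v j) (v (nx j)) (v j) :=
  ⟨by simp, (C.pos j hj).le⟩

theorem sec_nx {j : V} (hj : j ∈ A) : Sec e (v j) (v (nx j)) (v (nx j)) :=
  ⟨(C.pos j hj).le, by simp⟩

end cyc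

theorem sec_e (e a b : V3 K) : Sec e a b e := ⟨by simp, by simp⟩

variable [Fintype V] [DecidableEq V]

theorem rep1 (Φ : Fan K V) (a : V) : Φ.IsRep (Φ.v a) (Pi.single a 1) := by
  obtain ⟨s, hs, ha⟩ := Φ.used a
  refine ⟨fun c => ?_, ⟨s, hs, fun c hc => ?_⟩, ?_⟩
  · rw [Pi.single_apply]; split_ifs <;> norm_num
  · exact Pi.single_eq_of_ne (by rintro rfl; exact hc ha) _
  · simp [Pi.single_apply, ite_smul]

theorem v_ne (Φ : Fan K V) (a : V) : Φ.v a ≠ 0 := by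
  obtain ⟨s, hs, ha⟩ := Φ.used a
  obtain ⟨b, c, _, h⟩ := Fan.exists_face_of_mem hs ha
  intro h0
  have := h.det_ne
  rw [h0] at this
  simp [det3] at this

theorem form_nonneg (Φ : Fan K V) (u : Fm K) {s : Finset V} {t : V → K} (h0 : ∀ a, 0 ≤ t a)
    (hs : ∀ a, a ∉ s → t a = 0) (hu : ∀ a ∈ s, 0 ≤ u (Φ.v a)) : 0 ≤ u (∑ a, t a • Φ.v a) := by
  rw [map_sum]
  refine Finset.sum_nonneg fun a _ => ?_
  by_cases ha : a ∈ s
  · rw [map_smul]; exact mul_nonneg (h0 a) (hu a ha)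
  · simp [hs a ha]

theorem sec_sum (Φ : Fan K V) {e a b : V3 K} {s : Finset V} {t : V → K} (h0 : ∀ a, 0 ≤ t a)
    (hs : ∀ a, a ∉ s → t a = 0) (hu : ∀ c ∈ s, Sec e a b (Φ.v c)) :
    Sec e a b (∑ c, t c • Φ.v c) := by
  refine ⟨form_nonneg Φ (detL e a) h0 hs fun c hc => (hu c hc).1, ?_⟩
  have := form_nonneg Φ (- detL e b) h0 hs fun c hc => by
    have := (hu c hc).2
    simp only [LinearMap.neg_apply, detL_apply]
    rw [det3_swap23] at this
    exact this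
  simp only [LinearMap.neg_apply, detL_apply] at this
  rw [det3_swap23]
  exact this

theorem open_sum (Φ : Fan K V) (s : Finset V) :
    Φ.InOpen s (∑ a, (if a ∈ s then (1 : K) else 0) • Φ.v a) :=
  ⟨_, fun a ha => by simp [ha], fun a ha => by simp [ha], rfl⟩

theorem wall_pos {a b k ξ : V3 K} (φ : Fm K) (hd : det3 a b k * det3 a b ξ < 0) (ha : 0 ≤ φ a)
    (hb : 0 ≤ φ b) (hk : 0 ≤ φ k) (hξ : 0 < φ ξ) : 0 < φ (a + b) := by
  rw [map_add]
  by_contra hc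
  have a0 : φ a = 0 := by linarith
  have b0 : φ b = 0 := by linarith
  have h := form_cramer φ a b k ξ
  rw [a0, b0] at h
  have hne : det3 a b k ≠ 0 := by rintro h0; simp [h0] at hd
  have h1 : det3 a b k * det3 a b k * φ ξ = det3 a b k * det3 a b ξ * φ k := by
    linear_combination det3 a b k * h
  have h2 : 0 < det3 a b k * det3 a b k * φ ξ := mul_pos (mul_self_pos.mpr hne) hξ
  have h3 := mul_nonpos_of_nonpos_of_nonneg hd.le hk
  linarith

section main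

variable (hU : S_UNIQ) (hP : S_PATH) (hF : S_FRB) (Φ : HFan K V) {N : V} {J : Finset V}
  {nx pv : V → V} (C : Cyc (Φ.v N) Φ.v J nx pv) (hJ : ∀ y, y ∈ J ↔ Φ.InJ N y)
  (wf : ∀ a b, ¬ Φ.Mer N a b → Φ.WallFin a b)
  (fs : ∀ s ∈ Φ.F, ∃ j ∈ J, (∀ a ∈ s, 0 ≤ det3 (Φ.v N) (Φ.v j) (Φ.v a) ∧
        0 ≤ det3 (Φ.v N) (Φ.v a) (Φ.v (nx j))) ∧ ∀ y, Φ.InOpen s y →
        0 < det3 (Φ.v N) (Φ.v j) y ∧ 0 < det3 (Φ.v N) y (Φ.v (nx j)))

include hP hF C hJ wf fs in
theorem finsec {j : V} (hj : j ∈ J) {s0 : Finset V} (h0 : s0 ∈ Φ.F)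
    (hs0 : ∀ a ∈ s0, Sec (Φ.v N) (Φ.v j) (Φ.v (nx j)) (Φ.v a)) :
    ∀ s ∈ Φ.F, (∀ a ∈ s, Sec (Φ.v N) (Φ.v j) (Φ.v (nx j)) (Φ.v a)) → Φ.FinRel s0 s := by
  obtain ⟨F1, F2, F3, F4, F5, F6, F7, F8, F9, F10⟩ := hF K V Φ
  have ho := open_sum Φ.toFan s0
  set ξ := ∑ a, (if a ∈ s0 then (1 : K) else 0) • Φ.v a with hξ
  obtain ⟨j0, hj0, _, hop⟩ := fs s0 h0
  have hξ0 := hop ξ ho
  have : j0 = j := L3 C hj0 hj hξ0.1 hξ0.2
    (sec_sum Φ.toFan (fun a => by split_ifs <;> norm_num) (fun a ha => by simp [ha]) hs0)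
  subst this
  refine hP K V Φ.toFan (fun s => (∀ a ∈ s, Sec (Φ.v N) (Φ.v j0) (Φ.v (nx j0)) (Φ.v a)) →
    Φ.FinRel s0 s) s0 ξ h0 ho (fun _ => F2 s0 h0) ?_
  intro a b k l hk hl hkl hd hQ hs
  have sa := hs a (by simp)
  have sb := hs b (by simp)
  have sk := hs k (by simp)
  have p1 : 0 < det3 (Φ.v N) (Φ.v j0) (Φ.v a + Φ.v b) :=
    wall_pos (detL (Φ.v N) (Φ.v j0)) hd sa.1 sb.1 sk.1 hξ0.1
  have sw : ∀ x, (- detL (Φ.v N) (Φ.v (nx j0))) x = det3 (Φ.v N) x (Φ.v (nx j0)) := fun x => by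
    simp only [LinearMap.neg_apply, detL_apply]
    rw [det3_swap23, neg_neg]
  have p2 : 0 < det3 (Φ.v N) (Φ.v a + Φ.v b) (Φ.v (nx j0)) := by
    rw [← sw]
    exact wall_pos _ hd (by rw [sw]; exact sa.2) (by rw [sw]; exact sb.2) (by rw [sw]; exact sk.2)
      (by rw [sw]; exact hξ0.2)
  have nm : ¬ Φ.Mer N a b := by
    rintro ⟨y, hy, ⟨s1, t1, hs1, e1⟩, ⟨s2, t2, hs2, e2⟩⟩
    have e3 : Φ.v a + Φ.v b = (s1 + s2) • Φ.v y + (t1 + t2) • Φ.v N := by rw [e1, e2]; module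
    rw [e3, d3] at p1
    rw [e3, d2] at p2
    have hs' : 0 ≤ s1 + s2 := by linarith
    refine C.nob j0 hj0 y ((hJ y).mpr hy) ⟨?_, ?_⟩
    · by_contra hc
      have := mul_nonpos_of_nonneg_of_nonpos hs' (not_lt.mp hc)
      linarith
    · by_contra hc
      have := mul_nonpos_of_nonneg_of_nonpos hs' (not_lt.mp hc)
      linarith
  obtain ⟨j1, hj1, hs1, _⟩ := fs _ hl
  have ta := hs1 a (by simp)
  have tb := hs1 b (by simp)
  have : j0 = j1 := L3 C hj0 hj1 p1 p2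
    ⟨by rw [a3]; linarith [ta.1, tb.1], by rw [a2]; linarith [ta.2, tb.2]⟩
  subst this
  have r1 := hQ hs1
  have r2 := F3 _ hk _ hl ((F9 a b k l hk hl hkl).mp (wf a b nm))
  intro i hi
  exact F4 _ h0 _ hl r1 _ (r2 i hi)

include hU C fs in
theorem inface {j : V} (hj : j ∈ J) {b : V} (hb : Sec (Φ.v N) (Φ.v j) (Φ.v (nx j)) (Φ.v b)) :
    ∃ s ∈ Φ.F, b ∈ s ∧ ∀ a ∈ s, Sec (Φ.v N) (Φ.v j) (Φ.v (nx j)) (Φ.v a) := by
  obtain ⟨δ0, hδ0, hδ⟩ := (hU K V Φ.toFan).2.1 _ _ (rep1 Φ.toFan b) (Φ.v j + Φ.v (nx j))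
  obtain ⟨t, ht⟩ := Fan.exists_rep (Φ := Φ.toFan) (Φ.v b + (δ0 / 2) • (Φ.v j + Φ.v (nx j)))
  have htb : t b ≠ 0 := hδ (δ0 / 2) (by positivity) (by linarith) t ht b (by simp)
  obtain ⟨ht0, ⟨s, hs, hts⟩, hsum⟩ := ht
  obtain ⟨j1, hj1, hs1, _⟩ := fs s hs
  have W := C.pos j hj
  have hW : 0 < δ0 / 2 * det3 (Φ.v N) (Φ.v j) (Φ.v (nx j)) := by positivity
  have : j = j1 := by
    refine L3 C hj hj1 (x := Φ.v b + (δ0 / 2) • (Φ.v j + Φ.v (nx j))) ?_ ?_ ?_
    · have : det3 (Φ.v N) (Φ.v j) (Φ.v b + (δ0 / 2) • (Φ.v j + Φ.v (nx j))) =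
          det3 (Φ.v N) (Φ.v j) (Φ.v b) + δ0 / 2 * det3 (Φ.v N) (Φ.v j) (Φ.v (nx j)) := by
        simp only [det3, Pi.add_apply, Pi.smul_apply, smul_eq_mul]; ring
      rw [this]; linarith [hb.1]
    · have : det3 (Φ.v N) (Φ.v b + (δ0 / 2) • (Φ.v j + Φ.v (nx j))) (Φ.v (nx j)) =
          det3 (Φ.v N) (Φ.v b) (Φ.v (nx j)) + δ0 / 2 * det3 (Φ.v N) (Φ.v j) (Φ.v (nx j)) := by
        simp only [det3, Pi.add_apply, Pi.smul_apply, smul_eq_mul]; ring
      rw [this]; linarith [hb.2]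
    · rw [hsum]
      exact sec_sum Φ.toFan ht0 hts hs1
  subst this
  exact ⟨s, hs, by by_contra h; exact htb (hts b h), hs1⟩

include hU hP hF C hJ wf fs in
theorem finF {j : V} (hj : j ∈ J) {s : Finset V} (h0 : s ∈ Φ.F)
    (hs : ∀ a ∈ s, Sec (Φ.v N) (Φ.v j) (Φ.v (nx j)) (Φ.v a)) {b : V}
    (hb : Sec (Φ.v N) (Φ.v j) (Φ.v (nx j)) (Φ.v b)) : Φ.FinF s (Φ.v b) := by
  obtain ⟨s', hs', hbs, h'⟩ := inface hU Φ C fs hj hb
  exact finsec hP hF Φ C hJ wf fs hj h0 hs s' hs' h' b hbs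

include hU hP hF C hJ wf fs in
theorem std3 {j : V} (hj : j ∈ J) {a b c : V}
    (ha : Sec (Φ.v N) (Φ.v j) (Φ.v (nx j)) (Φ.v a))
    (hb : Sec (Φ.v N) (Φ.v j) (Φ.v (nx j)) (Φ.v b))
    (hc : Sec (Φ.v N) (Φ.v j) (Φ.v (nx j)) (Φ.v c)) : Std (det3 (Φ.v a) (Φ.v b) (Φ.v c)) := by
  obtain ⟨s, hs, _, h⟩ := inface hU Φ C fs hj ha
  exact Φ.hf.std_of_fi (det3_mem _ (Φ.vZ a) (Φ.vZ b) (Φ.vZ c))
    ((hF K V Φ).2.2.2.2.1 s hs _ _ _ (finF hU hP hF Φ C hJ wf fs hj hs h ha)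
      (finF hU hP hF Φ C hJ wf fs hj hs h hb) (finF hU hP hF Φ C hJ wf fs hj hs h hc))

end main

end TG1x

open TG1x in
theorem p_TG1 (hUNIQ : S_UNIQ) (hWALL : S_WALL) (hPATH : S_PATH) (hFRB : S_FRB) (hTOP : S_TOP) (hTG0 : S_TG0) :
    S_TG1 := by
  intro K V _ _ _ _ _ Φ N S hTA
  set J : Finset V := Finset.univ.filter (fun y => Φ.InJ N y) with hJd
  have hJ : ∀ y, y ∈ J ↔ Φ.InJ N y := fun y => by simp [hJd]
  obtain ⟨nx, pv, C, opp, fs⟩ := hTG0 K V Φ N S J hTA hJ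
  obtain ⟨axis, _, wf⟩ := hTA
  have st := fun j (hj : j ∈ J) a b c =>
    std3 hUNIQ hPATH hFRB Φ C hJ wf fs (j := j) hj (a := a) (b := b) (c := c)
  have hom : ∀ j, ∃ q : ℚ, j ∈ J → det3 (Φ.v N) (Φ.v j) (Φ.v (nx j)) = q := fun j => by
    by_cases hj : j ∈ J
    · obtain ⟨q, hq⟩ := st j hj N j (nx j) (sec_e _ _ _) (sec_self C hj) (sec_nx C hj)
      exact ⟨q, fun _ => hq⟩
    · exact ⟨0, fun h => absurd h hj⟩
  choose om hom using hom
  have hco : ∀ a, ∃ j ∈ J, Sec (Φ.v N) (Φ.v j) (Φ.v (nx j)) (Φ.v a) ∧ ∃ α β γ : ℚ,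
      (α : K) = det3 (Φ.v N) (Φ.v a) (Φ.v (nx j)) / det3 (Φ.v N) (Φ.v j) (Φ.v (nx j)) ∧
      (β : K) = det3 (Φ.v N) (Φ.v j) (Φ.v a) / det3 (Φ.v N) (Φ.v j) (Φ.v (nx j)) ∧
      (γ : K) = det3 (Φ.v a) (Φ.v j) (Φ.v (nx j)) / det3 (Φ.v N) (Φ.v j) (Φ.v (nx j)) := by
    intro a
    obtain ⟨s, hs, ha⟩ := Φ.used a
    obtain ⟨j, hj, h, _⟩ := fs s hs
    have sa : Sec (Φ.v N) (Φ.v j) (Φ.v (nx j)) (Φ.v a) := h a ha
    have s0 := st j hj N j (nx j) (sec_e _ _ _) (sec_self C hj) (sec_nx C hj)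
    obtain ⟨α, hα⟩ := (st j hj N a (nx j) (sec_e _ _ _) sa (sec_nx C hj)).div s0
    obtain ⟨β, hβ⟩ := (st j hj N j a (sec_e _ _ _) (sec_self C hj) sa).div s0
    obtain ⟨γ, hγ⟩ := (st j hj a j (nx j) sa (sec_self C hj) (sec_nx C hj)).div s0
    exact ⟨j, hj, sa, α, β, γ, hα.symm, hβ.symm, hγ.symm⟩
  choose js hjs hsec α β γ hα hβ hγ using hco
  have W : ∀ a, 0 < det3 (Φ.v N) (Φ.v (js a)) (Φ.v (nx (js a))) := fun a => C.pos _ (hjs a)
  have α0 : ∀ a, 0 ≤ α a := fun a => by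
    have : (0 : K) ≤ α a := by rw [hα]; exact div_nonneg (hsec a).2 (W a).le
    exact_mod_cast this
  have β0 : ∀ a, 0 ≤ β a := fun a => by
    have : (0 : K) ≤ β a := by rw [hβ]; exact div_nonneg (hsec a).1 (W a).le
    exact_mod_cast this
  set be : V → V → ℚ := fun i a => if i = js a then α a else if i = nx (js a) then β a else 0
    with hbe
  have be0 : ∀ i a, 0 ≤ be i a := fun i a => by
    simp only [hbe]; split_ifs
    exacts [α0 a, β0 a, le_rfl]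
  have co : ∀ a, Φ.v a = ∑ j ∈ J, (be j a : K) • Φ.v j + (γ a : K) • Φ.v N := by
    intro a
    have hn := nx_ne C (hjs a)
    rw [Finset.sum_eq_add_of_mem (js a) (nx (js a)) (hjs a) (C.mem _ (hjs a)).1 hn.symm
      (fun c _ hc => by simp [hbe, hc.1, hc.2])]
    have e1 : be (js a) a = α a := by simp [hbe]
    have e2 : be (nx (js a)) a = β a := by simp [hbe, hn]
    rw [e1, e2, hα, hβ, hγ]
    have hc := cramer (Φ.v N) (Φ.v (js a)) (Φ.v (nx (js a))) (Φ.v a)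
    have hW := (W a).ne'
    refine smul_right_injective _ hW ?_
    simp only [smul_add, smul_smul, mul_div_cancel₀ _ hW]
    rw [hc]; abel
  have sec_be : ∀ j ∈ J, ∀ a, Sec (Φ.v N) (Φ.v j) (Φ.v (nx j)) (Φ.v a) →
      ∀ i, i ≠ j → i ≠ nx j → be i a = 0 := by
    intro j hj a ha i h1 h2
    simp only [hbe]
    split_ifs with c1 c2
    · by_contra h0
      have hp : (0 : K) < α a := by exact_mod_cast lt_of_le_of_ne (α0 a) (Ne.symm h0)
      rw [hα] at hp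
      rcases L1 C (hjs a) hj (hsec a) ha ((div_pos_iff_of_pos_right (W a)).mp hp) with h | h
      · exact h1 (c1.trans h)
      · exact h2 (c1.trans h)
    · by_contra h0
      have hp : (0 : K) < β a := by exact_mod_cast lt_of_le_of_ne (β0 a) (Ne.symm h0)
      rw [hβ] at hp
      rcases L2 C (hjs a) hj (hsec a) ha ((div_pos_iff_of_pos_right (W a)).mp hp) with h | h
      · exact h1 (c2.trans h)
      · exact h2 (c2.trans h)
    · rfl
  have be_sec : ∀ j ∈ J, ∀ a, (∀ i, i ≠ j → i ≠ nx j → be i a = 0) →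
      Sec (Φ.v N) (Φ.v j) (Φ.v (nx j)) (Φ.v a) := by
    intro j hj a ha
    have hn := nx_ne C hj
    have e1 := co a
    rw [Finset.sum_eq_add_of_mem j (nx j) hj (C.mem _ hj).1 hn.symm
      (fun c _ hc => by simp [ha c hc.1 hc.2])] at e1
    have Wj := C.pos j hj
    have b1 : (0 : K) ≤ be j a := by exact_mod_cast be0 j a
    have b2 : (0 : K) ≤ be (nx j) a := by exact_mod_cast be0 (nx j) a
    constructor
    · have : det3 (Φ.v N) (Φ.v j) (Φ.v a) = be (nx j) a * det3 (Φ.v N) (Φ.v j) (Φ.v (nx j)) := by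
        rw [e1]; simp only [det3, Pi.add_apply, Pi.smul_apply, smul_eq_mul]; ring
      rw [this]; positivity
    · have : det3 (Φ.v N) (Φ.v a) (Φ.v (nx j)) = be j a * det3 (Φ.v N) (Φ.v j) (Φ.v (nx j)) := by
        rw [e1]; simp only [det3, Pi.add_apply, Pi.smul_apply, smul_eq_mul]; ring
      rw [this]; positivity
  have pole : ∀ a, ∀ c : K, Φ.v a = c • Φ.v N → (∀ j, be j a = 0) ∧ (γ a : K) = c := by
    intro a c h
    have e1 : (α a : K) = 0 := by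
      rw [hα, h, div_eq_zero_iff]; left
      simp only [det3, Pi.smul_apply, smul_eq_mul]; ring
    have e2 : (β a : K) = 0 := by
      rw [hβ, h, div_eq_zero_iff]; left
      simp only [det3, Pi.smul_apply, smul_eq_mul]; ring
    have e1' : α a = 0 := by exact_mod_cast e1
    have e2' : β a = 0 := by exact_mod_cast e2
    refine ⟨fun j => by simp [hbe, e1', e2'], ?_⟩
    rw [hγ, div_eq_iff (W a).ne']
    conv_lhs => rw [h]
    simp only [det3, Pi.smul_apply, smul_eq_mul]; ring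
  have pN := pole N 1 (by simp)
  have pS := pole S (-1) (by simp [axis])
  refine ⟨⟨N, S, J, nx, pv, be, γ, om, axis, hJ, C, opp, wf, hom, co, be0, ?_,
    fun j => ⟨pN.1 j, pS.1 j⟩, ⟨by exact_mod_cast pN.2, by exact_mod_cast pS.2⟩, ?_, ?_, ?_, ?_⟩,
    rfl, rfl⟩
  · intro j hj a
    have h1 : j ≠ js a := by rintro rfl; exact hj (hjs a)
    have h2 : j ≠ nx (js a) := by rintro rfl; exact hj (C.mem _ (hjs a)).1
    simp [hbe, h1, h2]
  · intro j hj
    obtain ⟨hn, hp, _, hnp⟩ := C.mem j hj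
    have Wj := C.pos j hj
    have Wp := C.pos _ hp
    have z : ∀ i, i ≠ j → be i j = 0 := by
      intro i hi
      by_cases h : i = nx j
      · refine sec_be _ hp j (by have := sec_nx C hp; rwa [hnp] at this ⊢) i ?_ (by rwa [hnp])
        intro h'
        rw [hnp, ← h', h, det3_swap23] at Wp
        linarith
      · exact sec_be j hj j (sec_self C hj) i hi h
    have e1 := co j
    rw [Finset.sum_eq_single_of_mem j hj (fun c _ hc => by simp [z c hc])] at e1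
    have e2 : det3 (Φ.v N) (Φ.v j) (Φ.v (nx j)) =
        be j j * det3 (Φ.v N) (Φ.v j) (Φ.v (nx j)) := by
      conv_lhs => rw [e1]
      exact d2 _ _ _ _ _
    have e3 : (be j j : K) = 1 := by
      apply mul_right_cancel₀ Wj.ne'
      rw [← e2, one_mul]
    refine ⟨by exact_mod_cast e3, ?_, z⟩
    rw [e3, one_smul, left_eq_add, smul_eq_zero] at e1
    exact_mod_cast e1.resolve_right (v_ne Φ.toFan N)
  · intro a hN hS
    by_contra hc
    push Not at hc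
    have e1 := co a
    rw [Finset.sum_eq_zero (fun j hj => by simp [le_antisymm (hc j hj) (be0 j a)]), zero_add] at e1
    rcases lt_trichotomy (γ a : K) 0 with h | h | h
    · exact hS ((hUNIQ K V Φ.toFan).2.2 S a (- γ a) (by linarith)
        (by rw [axis, e1]; module)).symm
    · exact v_ne Φ.toFan a (by rw [e1, h, zero_smul])
    · exact hN ((hUNIQ K V Φ.toFan).2.2 N a _ h e1).symm
  · intro s hs
    obtain ⟨j, hj, h, _⟩ := fs s hs
    exact ⟨j, hj, fun a ha => sec_be j hj a (h a ha)⟩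
  · intro s hs j hj h b hb
    exact finF hUNIQ hPATH hFRB Φ C hJ wf fs hj hs (fun a ha => be_sec j hj a (h a ha))
      (be_sec j hj b hb)

end Pool.Agent.P.MP_33ab4b_ag.T
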