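import Pool.Agent.P.MP_33ab4b_ag.T.IfaceT
import Pool.Agent.P.MP_33ab4b_ag.T.IfaceF

/-! Step TG2. -/

set_option autoImplicit false
set_option linter.unusedSectionVars false

namespace Pool.Agent.P.MP_33ab4b_ag.T

open scoped Classical

namespace TG2

variable {K V : Type} [Field K] [LinearOrder K] [IsStrictOrderedRing K] [Fintype V] [DecidableEq V]

theorem rep1 (Φ : Fan K V) (a : V) : Φ.IsRep (Φ.v a) (Pi.single a 1) := by
  obtain ⟨s, hs, ha⟩ := Φ.used a
  refine ⟨fun b => ?_, ⟨s, hs, fun b hb => Pi.single_eq_of_ne (by rintro rfl; exact hb ha) _⟩, ?_⟩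
  · rw [Pi.single_apply]; split_ifs <;> norm_num
  · simp [Pi.single_apply, ite_smul]

theorem rep2 (Φ : Fan K V) {a b : V} (h : Φ.adj a b) {r s : K} (hr : 0 ≤ r) (hs : 0 ≤ s) :
    Φ.IsRep (r • Φ.v a + s • Φ.v b) (Pi.single a r + Pi.single b s) := by
  obtain ⟨_, f, hf, ha, hb⟩ := h
  refine ⟨fun c => ?_, ⟨f, hf, fun c hc => ?_⟩, ?_⟩
  · rw [Pi.add_apply, Pi.single_apply, Pi.single_apply]
    split_ifs <;> linarith
  · rw [Pi.add_apply, Pi.single_eq_of_ne (by rintro rfl; exact hc ha),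
      Pi.single_eq_of_ne (by rintro rfl; exact hc hb), add_zero]
  · simp [Pi.single_apply, ite_smul, add_smul, Finset.sum_add_distrib]

variable {Φ : HFan K V} (T : TA0 Φ)

/-- The vertex `a` has coordinates only along the ray `j`. -/
def Hp (j a : V) : Prop := ∀ i, i ≠ j → T.be i a = 0

def InC (y : V) : Prop := ∃ j ∈ T.J, 0 < T.be j y ∧ Hp T j y

noncomputable def ch (y : V) : V := if h : InC T y then Classical.choose h else y

def Dd (j y a : V) : ℚ := T.be j y * T.et a - T.be j a * T.et y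

theorem ch_spec {y : V} (h : InC T y) : ch T y ∈ T.J ∧ 0 < T.be (ch T y) y ∧ Hp T (ch T y) y := by
  unfold ch
  rw [dif_pos h]
  exact Classical.choose_spec h

theorem ch_eq {j y : V} (hj : j ∈ T.J) (h0 : 0 < T.be j y) (h : Hp T j y) :
    InC T y ∧ ch T y = j := by
  have hc : InC T y := ⟨j, hj, h0, h⟩
  refine ⟨hc, ?_⟩
  by_contra hne
  exact (ch_spec T hc).2.1.ne' (h _ hne)

theorem HpN (j : V) : Hp T j T.N := fun i _ => (T.beN i).1
theorem HpS (j : V) : Hp T j T.S := fun i _ => (T.beN i).2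
theorem HpJ {j : V} (hj : j ∈ T.J) : Hp T j j := (T.beJ j hj).2.2

theorem notC_N : ¬ InC T T.N := fun ⟨j, _, h, _⟩ => h.ne' (T.beN j).1
theorem notC_S : ¬ InC T T.S := fun ⟨j, _, h, _⟩ => h.ne' (T.beN j).2

theorem JC {j : V} (hj : j ∈ T.J) : InC T j ∧ ch T j = j :=
  ch_eq T hj (by rw [(T.beJ j hj).1]; norm_num) (HpJ T hj)

theorem wpos {j : V} (hj : j ∈ T.J) : 0 < det3 (Φ.v T.N) (Φ.v j) (Φ.v (T.nx j)) := T.cyc.pos j hj

theorem nx_ne {j : V} (hj : j ∈ T.J) : j ≠ T.nx j := by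
  intro h
  have := wpos T hj
  rw [← h] at this
  simp at this

theorem coord1 {j a : V} (hj : j ∈ T.J) (h : Hp T j a) :
    Φ.v a = (T.be j a : K) • Φ.v j + (T.et a : K) • Φ.v T.N := by
  have := T.coord a
  rwa [Finset.sum_eq_single j (fun i _ hi => by rw [h i hi]; simp) (fun hn => absurd hj hn)] at this

theorem coord2 {j a : V} (hj : j ∈ T.J) (h : ∀ i, i ≠ j → i ≠ T.nx j → T.be i a = 0) :
    Φ.v a = (T.be j a : K) • Φ.v j + (T.be (T.nx j) a : K) • Φ.v (T.nx j) +
      (T.et a : K) • Φ.v T.N := by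
  have := T.coord a
  rwa [Finset.sum_eq_add j (T.nx j) (nx_ne T hj) (fun i _ hi => by rw [h i hi.1 hi.2]; simp)
    (fun hn => absurd hj hn) (fun hn => absurd (T.cyc.mem j hj).1 hn)] at this

theorem sector (a : V) : ∃ j ∈ T.J, ∀ i, i ≠ j → i ≠ T.nx j → T.be i a = 0 := by
  obtain ⟨s, hs, ha⟩ := Φ.used a
  obtain ⟨j, hj, h⟩ := T.fsec s hs
  exact ⟨j, hj, h a ha⟩

theorem Hp.inH {j a : V} (hj : j ∈ T.J) (h : Hp T j a) : InH (Φ.v T.N) (Φ.v j) (Φ.v a) :=
  ⟨T.be j a, T.et a, by exact_mod_cast T.be_nonneg j a, coord1 T hj h⟩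

theorem Hp_of_inH {j a : V} (hj : j ∈ T.J) (h : InH (Φ.v T.N) (Φ.v j) (Φ.v a)) : Hp T j a := by
  obtain ⟨s, t, hs, hv⟩ := h
  obtain ⟨k, hk, hsec⟩ := sector T a
  have hc := coord2 T hk hsec
  have hw := wpos T hk
  have hk' := (T.cyc.mem k hk).1
  have e1 : s * det3 (Φ.v T.N) (Φ.v k) (Φ.v j) =
      (T.be (T.nx k) a : K) * det3 (Φ.v T.N) (Φ.v k) (Φ.v (T.nx k)) := by
    have h1 : det3 (Φ.v T.N) (Φ.v k) (Φ.v a) = s * det3 (Φ.v T.N) (Φ.v k) (Φ.v j) := by
      rw [hv]; simp only [det3, Pi.add_apply, Pi.smul_apply, smul_eq_mul]; ring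
    rw [← h1, hc]; simp only [det3, Pi.add_apply, Pi.smul_apply, smul_eq_mul]; ring
  have e2 : s * det3 (Φ.v T.N) (Φ.v j) (Φ.v (T.nx k)) =
      (T.be k a : K) * det3 (Φ.v T.N) (Φ.v k) (Φ.v (T.nx k)) := by
    have h1 : det3 (Φ.v T.N) (Φ.v a) (Φ.v (T.nx k)) =
        s * det3 (Φ.v T.N) (Φ.v j) (Φ.v (T.nx k)) := by
      rw [hv]; simp only [det3, Pi.add_apply, Pi.smul_apply, smul_eq_mul]; ring
    rw [← h1, hc]; simp only [det3, Pi.add_apply, Pi.smul_apply, smul_eq_mul]; ring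
  have posl : ∀ x : K, 0 < s * x → 0 < x := fun x hx => by
    by_contra hn
    have := mul_nonpos_of_nonneg_of_nonpos hs (not_lt.mp hn)
    linarith
  rcases (T.be_nonneg k a).eq_or_lt with hp | hp <;>
    rcases (T.be_nonneg (T.nx k) a).eq_or_lt with hq | hq
  · intro i _
    by_cases h1 : i = k
    · rw [h1, ← hp]
    · by_cases h2 : i = T.nx k
      · rw [h2, ← hq]
      · exact hsec i h1 h2
  · have hq' : (0 : K) < T.be (T.nx k) a := by exact_mod_cast hq
    have h1 := posl _ (by rw [e1]; exact mul_pos hq' hw)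
    have hs0 : s ≠ 0 := by
      rintro rfl
      have := mul_pos hq' hw
      rw [← e1] at this
      simp at this
    have h2 : det3 (Φ.v T.N) (Φ.v j) (Φ.v (T.nx k)) = 0 := by
      rw [← hp] at e2
      simpa [hs0] using e2
    have hjk : j = T.nx k := by
      by_contra hne
      obtain ⟨t', ht'⟩ := T.opp j hj _ hk' hne h2
      have : det3 (Φ.v T.N) (Φ.v k) (Φ.v (T.nx k)) = - det3 (Φ.v T.N) (Φ.v k) (Φ.v j) := by
        rw [ht']; simp only [det3, Pi.add_apply, Pi.smul_apply, Pi.neg_apply, smul_eq_mul]; ring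
      linarith
    intro i hi
    by_cases h1 : i = k
    · rw [h1, ← hp]
    · exact hsec i h1 (hjk ▸ hi)
  · have hp' : (0 : K) < T.be k a := by exact_mod_cast hp
    have h1 := posl _ (by rw [e2]; exact mul_pos hp' hw)
    have hs0 : s ≠ 0 := by
      rintro rfl
      have := mul_pos hp' hw
      rw [← e2] at this
      simp at this
    have h2 : det3 (Φ.v T.N) (Φ.v k) (Φ.v j) = 0 := by
      rw [← hq] at e1
      simpa [hs0] using e1
    have hjk : k = j := by
      by_contra hne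
      obtain ⟨t', ht'⟩ := T.opp k hk j hj hne h2
      have : det3 (Φ.v T.N) (Φ.v j) (Φ.v (T.nx k)) = - det3 (Φ.v T.N) (Φ.v k) (Φ.v (T.nx k)) := by
        rw [ht']; simp only [det3, Pi.add_apply, Pi.smul_apply, Pi.neg_apply, smul_eq_mul]; ring
      linarith
    intro i hi
    by_cases h2 : i = T.nx k
    · rw [h2, ← hq]
    · exact hsec i (hjk ▸ hi) h2
  · have hp' : (0 : K) < T.be k a := by exact_mod_cast hp
    have hq' : (0 : K) < T.be (T.nx k) a := by exact_mod_cast hq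
    exact absurd ⟨posl _ (by rw [e1]; exact mul_pos hq' hw),
      posl _ (by rw [e2]; exact mul_pos hp' hw)⟩ (T.cyc.nob k hk j hj)

theorem Hp_cases {j a : V} (hj : j ∈ T.J) (h : Hp T j a) :
    a = T.N ∨ a = T.S ∨ (InC T a ∧ ch T a = j) := by
  by_cases h1 : a = T.N
  · exact Or.inl h1
  by_cases h2 : a = T.S
  · exact Or.inr (Or.inl h2)
  obtain ⟨i, _, hi⟩ := T.bepos a h1 h2
  have : i = j := by
    by_contra hne
    exact hi.ne' (h i hne)
  subst this
  exact Or.inr (Or.inr (ch_eq T hj hi h))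

theorem det_Dd {j y a : V} (hj : j ∈ T.J) (hy : Hp T j y) (ha : Hp T j a) (x : V3 K) :
    det3 (Φ.v y) (Φ.v a) x = - (Dd T j y a : K) * det3 (Φ.v T.N) (Φ.v j) x := by
  rw [coord1 T hj hy, coord1 T hj ha]
  simp only [Dd, det3, Pi.add_apply, Pi.smul_apply, smul_eq_mul]
  push_cast
  ring

theorem detZ (a b c : V) : det3 (Φ.v a) (Φ.v b) (Φ.v c) ∈ Φ.hf.Z :=
  det3_mem _ (Φ.vZ a) (Φ.vZ b) (Φ.vZ c)

theorem Dd_adj {j y a : V} (hj : j ∈ T.J) (hy : Hp T j y) (ha : Hp T j a) (h : Φ.adj y a) :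
    Dd T j y a = 1 ∨ Dd T j y a = -1 := by
  obtain ⟨k, hk⟩ := h.exists_face
  obtain ⟨k0, hk0⟩ := ((T.Jdef j).mp hj).1.exists_face
  have e1 := det_Dd T hj hy ha (Φ.v k)
  have e0 := det_Dd T hj hy ha (Φ.v k0)
  have z0 := detZ (Φ := Φ) y a k0
  have hD : (Dd T j y a : K) ∈ Φ.hf.Z := by
    rcases hk0.det with h0 | h0
    · rw [e0, h0, mul_one] at z0
      simpa using Φ.hf.Z.neg_mem z0
    · rw [e0, h0] at z0
      simpa using z0
  have hab : |(Dd T j y a : K)| * |det3 (Φ.v T.N) (Φ.v j) (Φ.v k)| = 1 := by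
    rw [← abs_neg, ← abs_mul, ← e1]
    rcases hk.det with h0 | h0 <;> rw [h0] <;> simp
  have n1 : (Dd T j y a : K) ≠ 0 := by
    intro h0
    rw [h0] at hab
    simp at hab
  have n2 : det3 (Φ.v T.N) (Φ.v j) (Φ.v k) ≠ 0 := by
    intro h0
    rw [h0] at hab
    simp at hab
  have g1 := Φ.hf.one_le_abs hD n1
  have g2 := Φ.hf.one_le_abs (detZ (Φ := Φ) T.N j k) n2
  have g3 : |(Dd T j y a : K)| = 1 := by nlinarith
  rcases (abs_eq zero_le_one).mp g3 with h0 | h0
  · left; exact_mod_cast h0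
  · right; exact_mod_cast h0

theorem nb_uniq (hU : S_UNIQ) {j y a a' : V} (hj : j ∈ T.J) (h0 : 0 < T.be j y) (hy : Hp T j y)
    (ha : Hp T j a) (ha' : Hp T j a') (h : Φ.adj y a) (h' : Φ.adj y a')
    (hD : Dd T j y a = Dd T j y a') : a = a' := by
  have key : ∀ a a' : V, Hp T j a → Hp T j a' → Φ.adj y a' → Dd T j y a = Dd T j y a' →
      T.be j a' ≤ T.be j a → a = a' := by
    intro a a' ha ha' h' hD hle
    have h0' : (0 : K) < T.be j y := by exact_mod_cast h0
    have hc : (0 : K) ≤ ((T.be j a : K) - T.be j a') / T.be j y :=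
      div_nonneg (by rw [sub_nonneg]; exact_mod_cast hle) h0'.le
    have hD' : (T.be j y : K) * T.et a - T.be j a * T.et y =
        T.be j y * T.et a' - T.be j a' * T.et y := by
      unfold Dd at hD
      exact_mod_cast hD
    have hv : Φ.v a = (((T.be j a : K) - T.be j a') / T.be j y) • Φ.v y + (1 : K) • Φ.v a' := by
      rw [coord1 T hj ha, coord1 T hj ha', coord1 T hj hy]
      funext i
      simp only [Pi.add_apply, Pi.smul_apply, smul_eq_mul]
      field_simp
      linear_combination (Φ.v T.N i) * hD'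
    have r2 := rep2 Φ.toFan h' hc zero_le_one
    rw [← hv] at r2
    have := congrFun ((hU K V Φ.toFan).1 _ _ _ (rep1 Φ.toFan a) r2) a'
    by_contra hne
    rw [Pi.add_apply, Pi.single_eq_of_ne (Ne.symm hne), Pi.single_eq_of_ne (Ne.symm h'.1),
      Pi.single_eq_same] at this
    simp at this
  rcases le_total (T.be j a') (T.be j a) with hle | hle
  · exact key a a' ha ha' h' hD hle
  · exact (key a' a ha' ha h hD.symm hle).symm

theorem nb_exists (hU : S_UNIQ) {j y : V} (hj : j ∈ T.J) (h0 : 0 < T.be j y) (hy : Hp T j y)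
    (σ : K) (hσ : σ ≠ 0) : ∃ a, Φ.adj y a ∧ Hp T j a ∧ 0 < σ * (Dd T j y a : K) := by
  obtain ⟨δ0, hδ0, hn⟩ := (hU K V Φ.toFan).2.1 _ _ (rep1 Φ.toFan y) (σ • Φ.v T.N)
  have h0' : (0 : K) < T.be j y := by exact_mod_cast h0
  obtain ⟨t, ht⟩ := Fan.exists_rep (Φ := Φ.toFan) (Φ.v y + (δ0 / 2) • σ • Φ.v T.N)
  have hty : t y ≠ 0 := hn (δ0 / 2) (by linarith) (by linarith) t ht y (by simp)
  have hin : InH (Φ.v T.N) (Φ.v j) (Φ.v y + (δ0 / 2) • σ • Φ.v T.N) := by
    refine ⟨T.be j y, T.et y + δ0 / 2 * σ, h0'.le, ?_⟩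
    rw [coord1 T hj hy]
    funext i
    simp only [Pi.add_apply, Pi.smul_apply, smul_eq_mul]
    ring
  have hsupp : ∀ a, t a ≠ 0 → Hp T j a := fun a ha =>
    Hp_of_inH T hj (((T.Jdef j).mp hj).2 _ t hin ht a ha)
  obtain ⟨φ, f1, f2, _⟩ := exists_form (wpos T hj).ne' (T.be j y : K) (- T.et y) 0
  have hφ : ∀ a, Hp T j a → φ (Φ.v a) = Dd T j y a := fun a ha => by
    rw [coord1 T hj ha, map_add, map_smul, map_smul, f1, f2]
    simp only [Dd, smul_eq_mul]
    push_cast
    ring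
  obtain ⟨tn, ⟨s, hs, hts⟩, hsum⟩ := ht
  have e1 := congrArg φ hsum
  rw [map_add, map_smul, map_smul, f1, hφ y hy, map_sum] at e1
  have e2 : ∑ a, σ * φ (t a • Φ.v a) = δ0 / 2 * (σ * σ) * T.be j y := by
    rw [← Finset.mul_sum, ← e1]
    simp only [Dd, smul_eq_mul]
    push_cast
    ring
  have hpos : ∑ _a : V, (0 : K) < ∑ a, σ * φ (t a • Φ.v a) := by
    rw [e2, Finset.sum_const_zero]
    exact mul_pos (mul_pos (by linarith) (mul_self_pos.mpr hσ)) h0'
  obtain ⟨a, _, ha⟩ := Finset.exists_lt_of_sum_lt hpos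
  have hta : t a ≠ 0 := by
    intro h
    rw [h] at ha
    simp at ha
  rw [map_smul, hφ a (hsupp a hta), smul_eq_mul] at ha
  have hD : 0 < σ * (Dd T j y a : K) := by
    have := (tn a).lt_of_ne' hta
    by_contra hn'
    have := mul_nonpos_of_nonneg_of_nonpos this.le (not_lt.mp hn')
    nlinarith
  refine ⟨a, ⟨?_, s, hs, ?_, ?_⟩, hsupp a hta, hD⟩
  · rintro rfl
    simp [Dd] at hD
  · by_contra h
    exact hty (hts y h)
  · by_contra h
    exact hta (hts a h)

noncomputable def up (y : V) : V :=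
  if h : ∃ a, Φ.adj y a ∧ Hp T (ch T y) a ∧ Dd T (ch T y) y a = 1 then Classical.choose h else y

noncomputable def dn (y : V) : V :=
  if h : ∃ a, Φ.adj y a ∧ Hp T (ch T y) a ∧ Dd T (ch T y) y a = -1 then Classical.choose h else y

noncomputable def bot (j : V) : V :=
  if h : ∃ y, InC T y ∧ ch T y = j ∧ Φ.adj T.S y then Classical.choose h else j

noncomputable def cy (y : V) : ℚ :=
  (T.be (ch T y) (up T y) + T.be (ch T y) (dn T y)) / T.be (ch T y) y

theorem up_spec (hU : S_UNIQ) {y : V} (h : InC T y) :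
    Φ.adj y (up T y) ∧ Hp T (ch T y) (up T y) ∧ Dd T (ch T y) y (up T y) = 1 := by
  obtain ⟨hj, h0, hy⟩ := ch_spec T h
  have ex : ∃ a, Φ.adj y a ∧ Hp T (ch T y) a ∧ Dd T (ch T y) y a = 1 := by
    obtain ⟨a, h1, h2, h3⟩ := nb_exists T hU hj h0 hy 1 one_ne_zero
    refine ⟨a, h1, h2, (Dd_adj T hj hy h2 h1).resolve_right fun e => ?_⟩
    rw [e] at h3
    norm_num at h3
  unfold up
  rw [dif_pos ex]
  exact Classical.choose_spec ex

theorem dn_spec (hU : S_UNIQ) {y : V} (h : InC T y) :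
    Φ.adj y (dn T y) ∧ Hp T (ch T y) (dn T y) ∧ Dd T (ch T y) y (dn T y) = -1 := by
  obtain ⟨hj, h0, hy⟩ := ch_spec T h
  have ex : ∃ a, Φ.adj y a ∧ Hp T (ch T y) a ∧ Dd T (ch T y) y a = -1 := by
    obtain ⟨a, h1, h2, h3⟩ := nb_exists T hU hj h0 hy (-1) (by norm_num)
    refine ⟨a, h1, h2, (Dd_adj T hj hy h2 h1).resolve_left fun e => ?_⟩
    rw [e] at h3
    norm_num at h3
  unfold dn
  rw [dif_pos ex]
  exact Classical.choose_spec ex

theorem eq_up (hU : S_UNIQ) {y a : V} (h : InC T y) (h1 : Φ.adj y a) (h2 : Hp T (ch T y) a)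
    (h3 : Dd T (ch T y) y a = 1) : a = up T y := by
  obtain ⟨hj, h0, hy⟩ := ch_spec T h
  obtain ⟨u1, u2, u3⟩ := up_spec T hU h
  exact nb_uniq T hU hj h0 hy h2 u2 h1 u1 (h3.trans u3.symm)

theorem eq_dn (hU : S_UNIQ) {y a : V} (h : InC T y) (h1 : Φ.adj y a) (h2 : Hp T (ch T y) a)
    (h3 : Dd T (ch T y) y a = -1) : a = dn T y := by
  obtain ⟨hj, h0, hy⟩ := ch_spec T h
  obtain ⟨u1, u2, u3⟩ := dn_spec T hU h
  exact nb_uniq T hU hj h0 hy h2 u2 h1 u1 (h3.trans u3.symm)

theorem nbr (hU : S_UNIQ) {y a : V} (h : InC T y) (h1 : Φ.adj y a) (h2 : Hp T (ch T y) a) :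
    a = up T y ∨ a = dn T y := by
  obtain ⟨hj, _, hy⟩ := ch_spec T h
  rcases Dd_adj T hj hy h2 h1 with e | e
  · exact Or.inl (eq_up T hU h h1 h2 e)
  · exact Or.inr (eq_dn T hU h h1 h2 e)

theorem DdN (j y : V) : Dd T j y T.N = T.be j y := by
  simp [Dd, T.etN.1, (T.beN j).1]

theorem DdS (j y : V) : Dd T j y T.S = - T.be j y := by
  simp [Dd, T.etN.2, (T.beN j).2]

theorem Dd_swap (j y a : V) : Dd T j a y = - Dd T j y a := by
  simp [Dd]

theorem up_cases (hU : S_UNIQ) {y : V} (h : InC T y) : up T y = T.N ∨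
    (InC T (up T y) ∧ ch T (up T y) = ch T y ∧ dn T (up T y) = y) := by
  obtain ⟨hj, h0, hy⟩ := ch_spec T h
  obtain ⟨u1, u2, u3⟩ := up_spec T hU h
  rcases Hp_cases T hj u2 with e | e | ⟨e1, e2⟩
  · exact Or.inl e
  · rw [e, DdS] at u3
    linarith
  · refine Or.inr ⟨e1, e2, (eq_dn T hU e1 u1.symm (e2 ▸ hy) ?_).symm⟩
    rw [e2, Dd_swap, u3]

theorem dn_cases (hU : S_UNIQ) {y : V} (h : InC T y) : dn T y = T.S ∨
    (InC T (dn T y) ∧ ch T (dn T y) = ch T y ∧ up T (dn T y) = y) := by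
  obtain ⟨hj, h0, hy⟩ := ch_spec T h
  obtain ⟨u1, u2, u3⟩ := dn_spec T hU h
  rcases Hp_cases T hj u2 with e | e | ⟨e1, e2⟩
  · rw [e, DdN] at u3
    linarith
  · exact Or.inl e
  · refine Or.inr ⟨e1, e2, (eq_up T hU e1 u1.symm (e2 ▸ hy) ?_).symm⟩
    rw [e2, Dd_swap, u3, neg_neg]

theorem top_eq (hT : S_TOP) {y : V} (h : InC T y) (ha : Φ.adj T.N y) : y = ch T y := by
  obtain ⟨hj, _, hy⟩ := ch_spec T h
  exact ((hT K V Φ.toFan T.N T.S T.axis).2.2.2.2.1 _ _ ((T.Jdef _).mp hj).1 ha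
    (hy.inH T hj)).symm

theorem upN (hU : S_UNIQ) (hT : S_TOP) {y : V} (h : InC T y) : up T y = T.N ↔ y = ch T y := by
  obtain ⟨hj, _, hy⟩ := ch_spec T h
  constructor
  · intro e
    exact top_eq T hT h (e ▸ (up_spec T hU h).1.symm)
  · intro e
    have hyJ : y ∈ T.J := e ▸ hj
    refine (eq_up T hU h ((T.Jdef y).mp hyJ).1.symm (HpN T _) ?_).symm
    rw [DdN, ← e, (T.beJ y hyJ).1]

theorem dnS_of_adj (hU : S_UNIQ) {y : V} (h : InC T y) (ha : Φ.adj T.S y) :
    dn T y = T.S ∧ T.be (ch T y) y = 1 := by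
  obtain ⟨hj, h0, hy⟩ := ch_spec T h
  rcases Dd_adj T hj hy (HpS T _) ha.symm with e | e
  · rw [DdS] at e
    linarith
  · refine ⟨(eq_dn T hU h ha.symm (HpS T _) e).symm, ?_⟩
    rw [DdS] at e
    linarith

theorem bot_spec (hT : S_TOP) {j : V} (hj : j ∈ T.J) :
    InC T (bot T j) ∧ ch T (bot T j) = j ∧ Φ.adj T.S (bot T j) := by
  have ex : ∃ y, InC T y ∧ ch T y = j ∧ Φ.adj T.S y := by
    obtain ⟨nadj, _, h3, _⟩ := hT K V Φ.toFan T.N T.S T.axis
    have hd : detL (Φ.v T.N) (Φ.v j) ≠ 0 := by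
      intro e
      have := wpos T hj
      rw [← detL_apply, e] at this
      simp at this
    obtain ⟨_, y, hy, r, t, hr, hv⟩ := h3 (Φ.v j) hd ((T.Jdef j).mp hj).2
    rcases Hp_cases T hj (Hp_of_inH T hj ⟨r, t, hr.le, hv⟩) with e | e | e
    · exact absurd (e ▸ hy.symm) nadj
    · exact absurd e.symm hy.1
    · exact ⟨y, e.1, e.2, hy⟩
  unfold bot
  rw [dif_pos ex]
  exact Classical.choose_spec ex

theorem eq_bot (hU : S_UNIQ) (hT : S_TOP) {y : V} (h : InC T y) (ha : Φ.adj T.S y) :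
    y = bot T (ch T y) := by
  obtain ⟨hj, _, hy⟩ := ch_spec T h
  obtain ⟨b1, b2, b3⟩ := bot_spec T hT hj
  have hb := (ch_spec T b1).2.2
  have n1 := (dnS_of_adj T hU h ha).2
  have n2 := (dnS_of_adj T hU b1 b3).2
  rw [b2] at hb n2
  have hax : Φ.v T.N = - Φ.v T.S := by rw [T.axis, neg_neg]
  refine (hT K V Φ.toFan T.S T.N hax).2.2.2.2.1 _ _ ha b3
    ⟨1, (T.et y : K) - T.et (bot T (ch T y)), zero_le_one, ?_⟩
  rw [coord1 T hj hb, coord1 T hj hy, n1, n2, T.axis]
  funext i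
  simp only [Pi.add_apply, Pi.smul_apply, Pi.neg_apply, smul_eq_mul]
  ring

theorem cyb (hU : S_UNIQ) {y : V} (h : InC T y) :
    T.be (ch T y) (up T y) + T.be (ch T y) (dn T y) = cy T y * T.be (ch T y) y ∧
      T.et (up T y) + T.et (dn T y) = cy T y * T.et y := by
  obtain ⟨_, h0, _⟩ := ch_spec T h
  have u3 := (up_spec T hU h).2.2
  have d3 := (dn_spec T hU h).2.2
  unfold Dd at u3 d3
  unfold cy
  constructor
  · field_simp
  · field_simp
    linear_combination u3 + d3

theorem cyv (hU : S_UNIQ) {y : V} (h : InC T y) :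
    Φ.v (up T y) + Φ.v (dn T y) = (cy T y : K) • Φ.v y := by
  obtain ⟨hj, _, hy⟩ := ch_spec T h
  obtain ⟨c1, c2⟩ := cyb T hU h
  have c1' : (T.be (ch T y) (up T y) : K) + T.be (ch T y) (dn T y) = cy T y * T.be (ch T y) y := by
    exact_mod_cast c1
  have c2' : (T.et (up T y) : K) + T.et (dn T y) = cy T y * T.et y := by exact_mod_cast c2
  have e1 := coord1 T hj (up_spec T hU h).2.1
  have e2 := coord1 T hj (dn_spec T hU h).2.1
  have e3 := coord1 T hj hy
  funext i
  have f1 := congrFun e1 i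
  have f2 := congrFun e2 i
  have f3 := congrFun e3 i
  simp only [Pi.add_apply, Pi.smul_apply, smul_eq_mul] at f1 f2 f3 ⊢
  linear_combination f1 + f2 - (cy T y : K) * f3 + Φ.v (ch T y) i * c1' + Φ.v T.N i * c2'

theorem chind (hU : S_UNIQ) (hT : S_TOP) (Q : V → Prop) {j : V} (hQ : Q j)
    (step : ∀ y, InC T y → ch T y = j → Q y → InC T (dn T y) → Q (dn T y)) :
    ∀ y, InC T y → ch T y = j → Q y := by
  have key : ∀ n : ℕ, ∀ y, InC T y → ch T y = j →
      (Finset.univ.filter fun a => T.et y / T.be j y < T.et a / T.be j a).card = n → Q y := by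
    intro n
    induction n using Nat.strong_induction_on with
    | _ n ih =>
      intro y hy hc hn
      rcases up_cases T hU hy with e | ⟨e1, e2, e3⟩
      · rw [(upN T hU hT hy).mp e, hc]
        exact hQ
      · have p1 := (ch_spec T hy).2.1
        have p2 := (ch_spec T e1).2.1
        have u3 := (up_spec T hU hy).2.2
        rw [e2] at p2
        rw [hc] at p1 p2 u3
        have hlt : T.et y / T.be j y < T.et (up T y) / T.be j (up T y) := by
          rw [div_lt_div_iff₀ p1 p2]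
          unfold Dd at u3
          linarith
        have hq : Q (up T y) := by
          refine ih _ ?_ (up T y) e1 (e2.trans hc) rfl
          rw [← hn]
          refine Finset.card_lt_card ⟨fun a ha => ?_, fun hs => ?_⟩
          · simp only [Finset.mem_filter, Finset.mem_univ, true_and] at ha ⊢
            exact hlt.trans ha
          · have := hs (Finset.mem_filter.mpr ⟨Finset.mem_univ (up T y), hlt⟩)
            simp at this
        have := step (up T y) e1 (e2.trans hc) hq (by rw [e3]; exact hy)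
        rwa [e3] at this
  exact fun y hy hc => key _ y hy hc rfl

theorem beI {i : V} (h1 : i ≠ T.N) (h2 : i ≠ T.S) (h3 : ¬ InC T i) :
    ∃ j ∈ T.J, (∀ k, k ≠ j → k ≠ T.nx j → T.be k i = 0) ∧ 0 < T.be j i ∧ 0 < T.be (T.nx j) i := by
  obtain ⟨j, hj, hs⟩ := sector T i
  have no : ∀ k ∈ T.J, ¬ Hp T k i := fun k hk hp => by
    rcases Hp_cases T hk hp with e | e | e
    · exact h1 e
    · exact h2 e
    · exact h3 e.1
  refine ⟨j, hj, hs, (T.be_nonneg _ _).lt_of_ne fun e => ?_, (T.be_nonneg _ _).lt_of_ne fun e => ?_⟩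
  · refine no _ (T.cyc.mem j hj).1 fun k hk => ?_
    by_cases hkj : k = j
    · rw [hkj, ← e]
    · exact hs k hkj hk
  · refine no _ hj fun k hk => ?_
    by_cases hkj : k = T.nx j
    · rw [hkj, ← e]
    · exact hs k hk hkj

theorem merw (hU : S_UNIQ) (hT : S_TOP) {a b : V} (h : Φ.adj a b) (hm : Φ.Mer T.N a b) :
    (InC T a ∧ (b = up T a ∨ b = dn T a)) ∨ (InC T b ∧ (a = up T b ∨ a = dn T b)) := by
  obtain ⟨y, hy, ha, hb⟩ := hm
  have hj := (T.Jdef y).mpr hy
  have pa := Hp_of_inH T hj ha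
  have pb := Hp_of_inH T hj hb
  have nadj := (hT K V Φ.toFan T.N T.S T.axis).1
  rcases Hp_cases T hj pa with e | e | e
  · rcases Hp_cases T hj pb with e' | e' | e'
    · exact absurd (e.trans e'.symm) h.1
    · exact absurd (e ▸ e' ▸ h) nadj
    · exact Or.inr ⟨e'.1, nbr T hU e'.1 h.symm (e'.2 ▸ pa)⟩
  · rcases Hp_cases T hj pb with e' | e' | e'
    · exact absurd (e ▸ e' ▸ h.symm) nadj
    · exact absurd (e.trans e'.symm) h.1
    · exact Or.inr ⟨e'.1, nbr T hU e'.1 h.symm (e'.2 ▸ pa)⟩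
  · exact Or.inl ⟨e.1, nbr T hU e.1 h (e.2 ▸ pb)⟩

/-- The neighbours of an interior vertex lie in its sector. -/
theorem nb_sector {i j a : V} (hj : j ∈ T.J) (p1 : 0 < T.be j i) (p2 : 0 < T.be (T.nx j) i)
    {s : Finset V} (hs : s ∈ Φ.F) (hi : i ∈ s) (ha : a ∈ s) :
    ∀ k, k ≠ j → k ≠ T.nx j → T.be k a = 0 := by
  obtain ⟨j', hj', h⟩ := T.fsec s hs
  have c1 : j = j' ∨ j = T.nx j' := by
    by_contra hn
    push Not at hn
    exact p1.ne' (h i hi j hn.1 hn.2)
  have c2 : T.nx j = j' ∨ T.nx j = T.nx j' := by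
    by_contra hn
    push Not at hn
    exact p2.ne' (h i hi _ hn.1 hn.2)
  rcases c1 with e | e
  · subst e
    exact h a ha
  · rcases c2 with e' | e'
    · intro k k1 k2
      exact h a ha k (e' ▸ k2) (e ▸ k1)
    · exact absurd (e.trans e'.symm) (nx_ne T hj)

end TG2

open TG2 in
theorem p_TG2 (hUNIQ : S_UNIQ) (hWALL : S_WALL) (hFRB : S_FRB) (hTOP : S_TOP) (hWREL : S_WREL) :
    S_TG2 := by
  intro K V I _ _ _ _ _ _ _ P T
  have hC : ∀ y, y ∈ Finset.univ.filter (fun y => InC T y) ↔ InC T y := fun y => by simp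
  have hI : ∀ y, y ∈ Finset.univ.filter (fun y => y ≠ T.N ∧ y ≠ T.S ∧ ¬ InC T y) ↔
      (y ≠ T.N ∧ y ≠ T.S ∧ ¬ InC T y) := fun y => by simp
  obtain ⟨nadj, NS, _, hboth, _⟩ := hTOP K V P.toFan T.N T.S T.axis
  have stdw : ∀ a b, P.adj a b → ¬ ((InC T a ∧ (b = up T a ∨ b = dn T a)) ∨
      (InC T b ∧ (a = up T b ∨ a = dn T b))) → Std (P.m3 a a b) := fun a b hab hn =>
    P.hf.std_of_fi (P.m3_mem a a b) (((hWREL K V I P).2.2.2 a b hab).mp
      (T.wf a b fun hm => hn (merw T hUNIQ hTOP hab hm))).1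
  refine ⟨{ toTA0 := T
            C := Finset.univ.filter (fun y => InC T y)
            In := Finset.univ.filter (fun y => y ≠ T.N ∧ y ≠ T.S ∧ ¬ InC T y)
            ch := ch T
            up := up T
            dn := dn T
            bot := bot T
            cy := cy T
            NS := NS
            NC := ⟨fun h => notC_N T ((hC _).mp h), fun h => notC_S T ((hC _).mp h),
              fun h => ((hI _).mp h).1 rfl, fun h => ((hI _).mp h).2.1 rfl⟩
            disj := fun a ha h => ((hI _).mp h).2.2 ((hC _).mp ha)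
            part := fun a => by rw [hC, hI]; tauto
            JC := fun j hj => by rw [hC]; exact JC T hj
            chJ := fun y hy => (ch_spec T ((hC _).mp hy)).1
            beC := fun y hy => (ch_spec T ((hC _).mp hy)).2
            beI := fun i hi => beI T ((hI _).mp hi).1 ((hI _).mp hi).2.1 ((hI _).mp hi).2.2
            upC := fun y hy => by
              rw [hC] at hy ⊢
              exact ⟨(up_spec T hUNIQ hy).1, up_cases T hUNIQ hy⟩
            dnC := fun y hy => by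
              rw [hC] at hy ⊢
              exact ⟨(dn_spec T hUNIQ hy).1, dn_cases T hUNIQ hy⟩
            upN := fun y hy => upN T hUNIQ hTOP ((hC _).mp hy)
            botC := fun j hj => by
              obtain ⟨b1, b2, b3⟩ := bot_spec T hTOP hj
              obtain ⟨d1, d2⟩ := dnS_of_adj T hUNIQ b1 b3
              rw [b2] at d2
              exact ⟨(hC _).mpr b1, b2, d1, d2⟩
            dnS := fun y hy e => by
              rw [hC] at hy
              exact eq_bot T hUNIQ hTOP hy (e ▸ (dn_spec T hUNIQ hy).1.symm)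
            detup := fun y hy => (up_spec T hUNIQ ((hC _).mp hy)).2.2
            detdn := fun y hy => by
              have := (dn_spec T hUNIQ ((hC _).mp hy)).2.2
              unfold Dd at this
              linarith
            cyv := fun y hy => cyv T hUNIQ ((hC _).mp hy)
            cyb := fun y hy => cyb T hUNIQ ((hC _).mp hy)
            nbr := fun y hy a ha hc => by
              rw [hC] at hy hc
              refine nbr T hUNIQ hy ha ?_
              rcases hc with e | e | ⟨e1, e2⟩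
              · rw [e]; exact HpN T _
              · rw [e]; exact HpS T _
              · rw [← e2]; exact (ch_spec T e1).2.2
            chind := fun Q j _ hQ step y hy hc =>
              chind T hUNIQ hTOP Q hQ (fun y h1 h2 h3 h4 =>
                step y ((hC _).mpr h1) h2 h3 ((hC _).mpr h4)) y ((hC _).mp hy) hc
            adjN := fun a ha => by
              by_cases h : InC T a
              · left
                rw [top_eq T hTOP h ha]
                exact (ch_spec T h).1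
              · right
                exact (hI _).mpr ⟨ha.1.symm, fun e => nadj (e ▸ ha), h⟩
            adjS := fun a ha => by
              by_cases h : InC T a
              · exact Or.inl ⟨(hC _).mpr h, (dnS_of_adj T hUNIQ h ha).1⟩
              · exact Or.inr ((hI _).mpr ⟨fun e => nadj (e ▸ ha.symm), ha.1.symm, h⟩)
            nadj := nadj
            both := fun a h1 h2 => by
              have hj := (T.Jdef a).mpr (hboth a h1 h2)
              have := eq_bot T hUNIQ hTOP (JC T hj).1 h2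
              rw [(JC T hj).2] at this
              exact ⟨hj, this.symm⟩
            merw := fun a b hab hm => by
              rw [hC, hC]
              exact merw T hUNIQ hTOP hab hm
            stdw := fun a b hab hn => by
              rw [hC, hC] at hn
              exact stdw a b hab hn
            stdT := fun i hi => ?_ }, rfl⟩
  obtain ⟨i1, i2, i3⟩ := (hI _).mp hi
  obtain ⟨j, hj, _, p1, p2⟩ := beI T i1 i2 i3
  obtain ⟨s, hs, his⟩ := P.used i
  obtain ⟨b, c, es, hf⟩ := Fan.exists_face_of_mem (Φ := P.toFan) hs his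
  refine P.hf.std_of_fi (P.m3_mem i i i) ?_
  have hLR := P.LR (P.mu (P.D i) (P.D i)) (detL (P.v b) (P.v c))
  rw [← Finset.add_sum_erase _ _ (Finset.mem_univ i)] at hLR
  have hrest : Fi (∑ a ∈ Finset.univ.erase i,
      detL (P.v b) (P.v c) (P.v a) * P.mu (P.D i) (P.D i) (P.D a)) := by
    refine Fi.sum _ fun a ha => ?_
    have hai : i ≠ a := (Finset.ne_of_mem_erase ha).symm
    by_cases hadj : P.adj i a
    · refine Fi.mul ?_ (stdw i a hadj ?_).fi
      · obtain ⟨_, s', hs', h1, h2⟩ := hadj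
        have := T.sfin s hs j hj (fun x hx => nb_sector T hj p1 p2 hs his hx) a
          (nb_sector T hj p1 p2 hs' h1 h2) i b c es
        rw [detL_apply, det3_rot]
        exact this.1
      · rintro (⟨h, _⟩ | ⟨h, e | e⟩)
        · exact i3 h
        · rcases up_cases T hUNIQ h with e' | e'
          · exact i1 (e.trans e')
          · exact i3 (e ▸ e'.1)
        · rcases dn_cases T hUNIQ h with e' | e'
          · exact i2 (e.trans e')
          · exact i3 (e ▸ e'.1)
    · rw [P.nadj hai hadj, mul_zero]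
      exact Fi.zero
  rw [detL_apply, det3_rot] at hLR
  rcases hf.det with e | e
  · rw [e] at hLR
    exact hrest.neg.of_eq (by unfold HP.m3; linarith)
  · rw [e] at hLR
    exact hrest.of_eq (by unfold HP.m3; linarith)

end Pool.Agent.P.MP_33ab4b_ag.T
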