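import Pool.Agent.P.MP_33ab4b_ag.T.IfaceF

/-! Step TOP. -/

set_option autoImplicit false
set_option linter.unusedSectionVars false

namespace Pool.Agent.P.MP_33ab4b_ag.T

open scoped Classical

namespace TOPx

variable {K V : Type} [Field K] [LinearOrder K] [IsStrictOrderedRing K] [Fintype V] [DecidableEq V]

theorem rep2 (Φ : Fan K V) {s : Finset V} (hs : s ∈ Φ.F) {a b : V} (ha : a ∈ s) (hb : b ∈ s)
    {r1 r2 : K} (h1 : 0 ≤ r1) (h2 : 0 ≤ r2) :
    Φ.IsRep (r1 • Φ.v a + r2 • Φ.v b)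
      (fun c => (if c = a then r1 else 0) + (if c = b then r2 else 0)) := by
  refine ⟨fun c => add_nonneg (by split_ifs <;> simp [h1]) (by split_ifs <;> simp [h2]),
    ⟨s, hs, fun c hc => ?_⟩, ?_⟩
  · have h3 : c ≠ a := fun e => hc (e ▸ ha)
    have h4 : c ≠ b := fun e => hc (e ▸ hb)
    simp [h3, h4]
  · simp [add_smul, Finset.sum_add_distrib, ite_smul]

theorem rep1 (Φ : Fan K V) (a : V) {r : K} (h : 0 ≤ r) :
    Φ.IsRep (r • Φ.v a) (fun c => if c = a then r else 0) := by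
  obtain ⟨s, hs, ha⟩ := Φ.used a
  refine ⟨fun c => by dsimp only; split_ifs <;> simp [h], ⟨s, hs, fun c hc => ?_⟩, ?_⟩
  · have h3 : c ≠ a := fun e => hc (e ▸ ha)
    simp [h3]
  · simp [ite_smul]

theorem rep0 (Φ : Fan K V) (a : V) : Φ.IsRep 0 (fun _ => 0) := by
  obtain ⟨s, hs, _⟩ := Φ.used a
  exact ⟨fun _ => le_rfl, ⟨s, hs, fun _ _ => rfl⟩, by simp⟩

theorem pole (Φ : Fan K V) (hU : ∀ x t t', Φ.IsRep x t → Φ.IsRep x t' → t = t') {N S : V}
    (hax : Φ.v S = - Φ.v N) (γ : K) {t : V → K} (ht : Φ.IsRep (γ • Φ.v N) t) {a : V}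
    (ha : t a ≠ 0) : a = N ∨ a = S := by
  rcases le_total 0 γ with h | h
  · have := hU _ _ _ ht (rep1 Φ N h)
    left
    by_contra hne
    exact ha (by rw [this]; simp [hne])
  · have e : γ • Φ.v N = (-γ) • Φ.v S := by rw [hax]; simp
    rw [e] at ht
    have := hU _ _ _ ht (rep1 Φ S (neg_nonneg.mpr h))
    right
    by_contra hne
    exact ha (by rw [this]; simp [hne])

theorem exists_phi {e y0 : V3 K} (h : detL e y0 ≠ 0) :
    ∃ φ : Fm K, φ e = 0 ∧ φ y0 = 1 ∧ ∀ s : Fm K, s ≠ 0 → s e = 0 → s y0 = 0 → ∀ x, s x = 0 →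
      ∃ β : K, x = φ x • y0 + β • e := by
  obtain ⟨k, hk⟩ : ∃ k, det3 e y0 k ≠ 0 := by
    by_contra hc
    push Not at hc
    exact h (LinearMap.ext fun k => by simpa using hc k)
  obtain ⟨φ, h1, h2, h3⟩ := exists_form hk 0 1 0
  refine ⟨φ, h1, h2, fun s hs se sy x sx => ?_⟩
  have sk : s k ≠ 0 := fun hsk => hs (form_ext hk (by simpa using se) (by simpa using sy)
    (by simpa using hsk))
  have c1 := form_cramer s e y0 k x
  rw [sx, se, sy] at c1
  have d0 : det3 e y0 x = 0 := by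
    have : det3 e y0 x * s k = 0 := by linear_combination -c1
    exact (mul_eq_zero.mp this).resolve_right sk
  have c2 := form_cramer φ e y0 k x
  rw [h1, h2, h3] at c2
  have c3 := cramer e y0 k x
  rw [d0] at c3
  refine ⟨det3 x y0 k / det3 e y0 k, ?_⟩
  have hx : x = (det3 e y0 k)⁻¹ • (det3 e y0 k • x) := by
    rw [smul_smul, inv_mul_cancel₀ hk, one_smul]
  have hφ : φ x = det3 e x k / det3 e y0 k := by
    rw [eq_div_iff hk]; linear_combination c2
  rw [hφ]
  conv_lhs => rw [hx, c3]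
  funext i
  simp only [Pi.smul_apply, Pi.add_apply, smul_eq_mul]
  field_simp
  ring

theorem inH_of {e y y0 x : V3 K} {r t : K} (hr : 0 < r) (hy : y = r • y0 + t • e) :
    InH e y x ↔ InH e y0 x := by
  constructor
  · rintro ⟨a, b, ha, rfl⟩
    refine ⟨a * r, a * t + b, by positivity, ?_⟩
    rw [hy]; module
  · rintro ⟨a, b, ha, rfl⟩
    refine ⟨a / r, b - a / r * t, by positivity, ?_⟩
    rw [hy]
    funext i
    simp only [Pi.smul_apply, Pi.add_apply, smul_eq_mul]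
    field_simp
    ring

theorem near_pole (hUNIQ : S_UNIQ) (Φ : Fan K V) {e y0 : V3 K} (P : V) (σ : K)
    (hP : Φ.v P = σ • e) (hd : detL e y0 ≠ 0) (hs : Φ.Str e y0) :
    ∃ y, Φ.adj P y ∧ ∃ r t : K, 0 < r ∧ Φ.v y = r • y0 + t • e := by
  obtain ⟨-, hN, -⟩ := hUNIQ K V Φ
  obtain ⟨φ, h1, h2, -⟩ := exists_phi hd
  have hr := rep1 Φ P (zero_le_one (α := K))
  obtain ⟨δ0, hδ0, hδ⟩ := hN _ _ hr y0
  obtain ⟨t', ht'⟩ := Φ.exists_rep ((1 : K) • Φ.v P + (δ0 / 2) • y0)
  have hP' : t' P ≠ 0 := hδ (δ0 / 2) (by positivity) (by linarith) t' ht' P (by simp)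
  have hin : InH e y0 ((1 : K) • Φ.v P + (δ0 / 2) • y0) :=
    ⟨δ0 / 2, σ, by positivity, by rw [hP]; module⟩
  have hall := hs _ t' hin ht'
  obtain ⟨h0, ⟨s, hsF, hsupp⟩, hsum⟩ := ht'
  have hφ := congrArg φ hsum
  simp only [map_add, map_smul, map_sum, smul_eq_mul, hP, h1, h2] at hφ
  obtain ⟨a, -, ha⟩ : ∃ a ∈ Finset.univ, t' a * φ (Φ.v a) ≠ 0 := by
    apply Finset.exists_ne_zero_of_sum_ne_zero
    rw [← hφ]
    have : 0 < δ0 / 2 := by positivity
    linarith [this]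
  have hta : t' a ≠ 0 := left_ne_zero_of_mul ha
  have hφa : φ (Φ.v a) ≠ 0 := right_ne_zero_of_mul ha
  obtain ⟨α, β, hα, hv⟩ := hall a hta
  have hα' : φ (Φ.v a) = α := by rw [hv]; simp [h1, h2]
  refine ⟨a, ⟨?_, s, hsF, ?_, ?_⟩, α, β, lt_of_le_of_ne hα (by rw [← hα']; exact hφa.symm), hv⟩
  · rintro rfl
    apply hφa
    rw [hP]; simp [h1]
  · by_contra hc; exact hP' (hsupp P hc)
  · by_contra hc; exact hta (hsupp a hc)

theorem open_dir (Φ : Fan K V) {s0 : Finset V} {a : V} (ha : a ∈ s0) (s : Fm K)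
    (hpos : 0 < s (Φ.v a)) :
    ∃ w : V3 K, 0 < s w ∧ ∀ (x : V3 K) (t : V → K), (∀ c, 0 ≤ t c) → (∀ c, c ∉ s0 → t c = 0) →
      x = ∑ c, t c • Φ.v c → ∀ δ : K, 0 < δ → Φ.InOpen s0 (x + δ • w) := by
  set A : K := ∑ c, (if c ∈ s0 then (1 : K) else 0) * s (Φ.v c) with hA
  set M : K := (|A| + 1) / s (Φ.v a) with hM
  have hM0 : 0 < M := by positivity
  refine ⟨∑ c, ((if c ∈ s0 then (1 : K) else 0) + (if c = a then M else 0)) • Φ.v c, ?_, ?_⟩
  · have : s (∑ c, ((if c ∈ s0 then (1 : K) else 0) + (if c = a then M else 0)) • Φ.v c) =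
        A + M * s (Φ.v a) := by
      rw [map_sum]
      simp only [map_smul, smul_eq_mul, add_mul, Finset.sum_add_distrib]
      congr 1
      simp [ite_mul]
    rw [this, hM, div_mul_cancel₀ _ hpos.ne']
    have := neg_abs_le A
    linarith
  · intro x t h0 h1 hx δ hδ
    refine ⟨fun c => t c + δ * ((if c ∈ s0 then (1 : K) else 0) + (if c = a then M else 0)),
      fun c hc => ?_, fun c hc => ?_, ?_⟩
    · have h2 : 0 ≤ (if c = a then M else 0) := by split_ifs <;> simp [hM0.le]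
      have h3 := h0 c
      simp only [hc, if_true]
      positivity
    · have h3 : c ≠ a := fun e => hc (e ▸ ha)
      simp [h1 c hc, hc, h3]
    · rw [hx, Finset.smul_sum, ← Finset.sum_add_distrib]
      refine Finset.sum_congr rfl fun c _ => ?_
      rw [smul_smul, add_smul]

theorem exists_pos_of_sum {f : V → K} (h : ∑ c, f c = 0) {a : V} (ha : f a ≠ 0) :
    (∃ c, 0 < f c) ∧ ∃ c, f c < 0 := by
  constructor
  · by_contra hc
    push Not at hc
    exact ha ((Finset.sum_eq_zero_iff_of_nonpos fun c _ => hc c).mp h a (Finset.mem_univ _))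
  · by_contra hc
    push Not at hc
    exact ha ((Finset.sum_eq_zero_iff_of_nonneg fun c _ => hc c).mp h a (Finset.mem_univ _))

end TOPx

open TOPx in
theorem p_TOP (hUNIQ : S_UNIQ) :
    S_TOP := by
  intro K V _ _ _ _ _ Φ N S hax
  obtain ⟨hU, -, -⟩ := hUNIQ K V Φ
  refine ⟨?_, ?_, ?_, ?_, ?_, ?_⟩
  · rintro ⟨hne, s, hs, hN, hS⟩
    have h1 := rep2 Φ hs hN hS (zero_le_one (α := K)) (zero_le_one (α := K))
    have e : (1 : K) • Φ.v N + (1 : K) • Φ.v S = 0 := by rw [hax]; simp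
    rw [e] at h1
    have := congrFun (hU _ _ _ h1 (rep0 Φ N)) N
    simp [hne] at this
  · rintro rfl
    have h1 := rep1 Φ N (zero_le_two (α := K))
    have e : (2 : K) • Φ.v N = 0 := by
      rw [two_smul]; nth_rewrite 1 [hax]; simp
    rw [e] at h1
    have := congrFun (hU _ _ _ h1 (rep0 Φ N)) N
    simp at this
  · intro y0 hd hs
    refine ⟨?_, near_pole hUNIQ Φ S (-1) (by rw [hax]; simp) hd hs⟩
    obtain ⟨y, hy, r, t, hr, hv⟩ := near_pole hUNIQ Φ N 1 (by simp) hd hs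
    refine ⟨y, ⟨hy, fun x t' hx ht' a ha => ?_⟩, r, t, hr, hv⟩
    exact (inH_of hr hv).mpr (hs x t' ((inH_of hr hv).mp hx) ht' a ha)
  · intro y hN hS
    refine ⟨hN, ?_⟩
    rintro x t' ⟨r, t, hr, rfl⟩ ht' a ha
    have hy : InH (Φ.v N) (Φ.v y) (Φ.v y) := ⟨1, 0, zero_le_one, by simp⟩
    rcases le_total 0 t with h | h
    · obtain ⟨-, s, hs, h1, h2⟩ := hN
      have := hU _ _ _ ht' (rep2 Φ hs h2 h1 hr h)
      by_cases e1 : a = y
      · rw [e1]; exact hy
      · by_cases e2 : a = N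
        · rw [e2]; exact ⟨0, 1, le_rfl, by simp⟩
        · exact absurd (by rw [this]; simp [e1, e2]) ha
    · obtain ⟨-, s, hs, h1, h2⟩ := hS
      have e : r • Φ.v y + t • Φ.v N = r • Φ.v y + (-t) • Φ.v S := by rw [hax]; simp
      rw [e] at ht'
      have := hU _ _ _ ht' (rep2 Φ hs h2 h1 hr (neg_nonneg.mpr h))
      by_cases e1 : a = y
      · rw [e1]; exact hy
      · by_cases e2 : a = S
        · rw [e2]; exact ⟨0, -1, le_rfl, by rw [hax]; simp⟩
        · exact absurd (by rw [this]; simp [e1, e2]) ha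
  · rintro y y' ⟨hy, s, hs, h1, h2⟩ ⟨hy', s', hs', h1', h2'⟩ ⟨r, t, hr, hv⟩
    by_contra hne
    have hne' : y' ≠ y := fun e => hne e.symm
    rcases le_total 0 t with h | h
    · have a1 := rep1 Φ y' (zero_le_one (α := K))
      rw [one_smul, hv] at a1
      have := congrFun (hU _ _ _ a1 (rep2 Φ hs h2 h1 hr h)) y'
      simp [hne', hy'.symm] at this
    · have a1 := rep2 Φ hs' h2' h1' (zero_le_one (α := K)) (neg_nonneg.mpr h)
      have e : (1 : K) • Φ.v y' + (-t) • Φ.v N = r • Φ.v y := by rw [hv]; module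
      rw [e] at a1
      have := congrFun (hU _ _ _ a1 (rep1 Φ y hr)) y'
      simp [hne', hy'.symm] at this
  · intro y0 hd hns s hs0 se sy
    obtain ⟨φ, p1, p2, p3⟩ := exists_phi hd
    simp only [Fan.Str, not_forall] at hns
    obtain ⟨x, t', ⟨r, t, hr, rfl⟩, ht', a, ha, hna⟩ := hns
    have hNin : InH (Φ.v N) y0 (Φ.v N) := ⟨0, 1, le_rfl, by simp⟩
    have hSin : InH (Φ.v N) y0 (Φ.v S) := ⟨0, -1, le_rfl, by rw [hax]; simp⟩
    have hr' : 0 < r := by
      refine lt_of_le_of_ne hr ?_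
      rintro rfl
      rw [zero_smul, zero_add] at ht'
      rcases pole Φ hU hax t ht' ha with e | e
      · exact hna (e ▸ hNin)
      · exact hna (e ▸ hSin)
    obtain ⟨h0, ⟨s0, hs0F, hsupp⟩, hsum⟩ := ht'
    have hmem : ∀ c, t' c ≠ 0 → c ∈ s0 := fun c hc => by
      by_contra hh; exact hc (hsupp c hh)
    by_cases hall : ∀ c, t' c * s (Φ.v c) = 0
    · exfalso
      have hz : ∀ c, t' c ≠ 0 → s (Φ.v c) = 0 := fun c hc =>
        (mul_eq_zero.mp (hall c)).resolve_left hc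
      obtain ⟨βa, hva⟩ := p3 s hs0 se sy _ (hz a ha)
      have hαa : φ (Φ.v a) < 0 := by
        by_contra hc
        exact hna ⟨_, βa, not_lt.mp hc, hva⟩
      have hφ := congrArg φ hsum
      simp only [map_add, map_smul, map_sum, smul_eq_mul, p1, p2] at hφ
      obtain ⟨b, hb⟩ : ∃ b, 0 < t' b * φ (Φ.v b) := by
        by_contra hc
        push Not at hc
        have := Finset.sum_nonpos (s := Finset.univ) fun c _ => hc c
        linarith
      have htb : t' b ≠ 0 := left_ne_zero_of_mul hb.ne'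
      have hαb : 0 < φ (Φ.v b) := by
        have := lt_of_le_of_ne (h0 b) htb.symm
        exact (pos_iff_pos_of_mul_pos hb).mp this
      obtain ⟨βb, hvb⟩ := p3 s hs0 se sy _ (hz b htb)
      have a1 := rep2 Φ hs0F (hmem a ha) (hmem b htb) hαb.le (neg_nonneg.mpr hαa.le)
      have e : φ (Φ.v b) • Φ.v a + (-φ (Φ.v a)) • Φ.v b =
          (φ (Φ.v b) * βa - φ (Φ.v a) * βb) • Φ.v N := by
        generalize φ (Φ.v a) = αa at hva ⊢
        generalize φ (Φ.v b) = αb at hvb ⊢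
        rw [hva, hvb]; module
      rw [e] at a1
      have hab : a ≠ b := by rintro rfl; linarith
      have := pole Φ hU hax _ a1 (a := a) (by simp [hab, hαb.ne'])
      rcases this with e | e
      · exact hna (e ▸ hNin)
      · exact hna (e ▸ hSin)
    · push Not at hall
      obtain ⟨c0, hc0⟩ := hall
      have hs' := congrArg s hsum
      simp only [map_add, map_smul, map_sum, smul_eq_mul, se, sy, mul_zero, add_zero] at hs'
      obtain ⟨⟨c1, hc1⟩, c2, hc2⟩ := exists_pos_of_sum hs'.symm hc0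
      have t1 : t' c1 ≠ 0 := left_ne_zero_of_mul hc1.ne'
      have t2 : t' c2 ≠ 0 := left_ne_zero_of_mul hc2.ne
      have s1 : 0 < s (Φ.v c1) :=
        (pos_iff_pos_of_mul_pos hc1).mp (lt_of_le_of_ne (h0 c1) t1.symm)
      have s2 : 0 < (-s) (Φ.v c2) := by
        have := lt_of_le_of_ne (h0 c2) t2.symm
        simp only [LinearMap.neg_apply]
        by_contra hc
        have : 0 ≤ t' c2 * s (Φ.v c2) := mul_nonneg this.le (by linarith)
        linarith
      obtain ⟨w, hw, hw2⟩ := open_dir Φ (hmem c1 t1) s s1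
      obtain ⟨w', hw', hw2'⟩ := open_dir Φ (hmem c2 t2) (-s) s2
      refine ⟨s0, hs0F, r, t, hr', w, w', hw, by simpa using hw', fun δ hδ => ?_⟩
      exact ⟨hw2 _ t' h0 hsupp hsum δ hδ, hw2' _ t' h0 hsupp hsum δ hδ⟩

end Pool.Agent.P.MP_33ab4b_ag.T
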