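import Pool.Agent.P.MP_33ab4b_ag.T.IfaceP
import Pool.Agent.P.MP_33ab4b_ag.T.IfaceF

/-! Step TPB. -/

set_option autoImplicit false

namespace Pool.Agent.P.MP_33ab4b_ag.T

open scoped Classical

namespace TPBx

variable {K V I : Type} [Field K] [LinearOrder K] [IsStrictOrderedRing K] [Fintype V]
  [DecidableEq V] [Fintype I] [DecidableEq I]

/-- A form that does not change sign along walls inside `A` keeps its sign on supports. -/
theorem supp_sign (Φ : Fan K V) (u : Fm K) (A : V → Prop) {x : V3 K} {t : V → K}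
    (ht : Φ.IsRep x t) (hA : ∀ a, t a ≠ 0 → A a)
    (h : ∀ a c, Φ.adj a c → A a → A c → ¬ (0 < u (Φ.v a) ∧ u (Φ.v c) < 0)) (hx : 0 ≤ u x) :
    ∀ a, t a ≠ 0 → 0 ≤ u (Φ.v a) := by
  intro a ha
  by_contra hneg
  push Not at hneg
  obtain ⟨h0, ⟨s, hs, hsup⟩, e⟩ := ht
  have hall : ∀ c, t c * u (Φ.v c) ≤ 0 := by
    intro c
    by_cases hc : t c = 0
    · simp [hc]
    · by_contra hpos
      push Not at hpos
      have hc' : 0 < t c := lt_of_le_of_ne (h0 c) (Ne.symm hc)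
      have hu : 0 < u (Φ.v c) := (pos_iff_pos_of_mul_pos hpos).mp hc'
      have hne : c ≠ a := by rintro rfl; exact lt_asymm hu hneg
      have hcs : c ∈ s := by by_contra hh; exact hc (hsup c hh)
      have has : a ∈ s := by by_contra hh; exact ha (hsup a hh)
      exact h c a ⟨hne, s, hs, hcs, has⟩ (hA c hc) (hA a ha) ⟨hu, hneg⟩
  have hsum : u x = ∑ c, t c * u (Φ.v c) := by
    rw [e, map_sum]; simp
  have hlt : ∑ c, t c * u (Φ.v c) < ∑ _c : V, (0 : K) :=
    Finset.sum_lt_sum (fun c _ => hall c) ⟨a, Finset.mem_univ a,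
      mul_neg_of_pos_of_neg (lt_of_le_of_ne (h0 a) (Ne.symm ha)) hneg⟩
  rw [Finset.sum_const_zero, ← hsum] at hlt
  exact absurd hx (not_le.mpr hlt)

variable {P : HP K V I} (G : PLG P)

theorem supp_X {x : V3 K} {t : V → K} (ht : P.IsRep x t) (hx : G.l x = 0) :
    ∀ a, t a ≠ 0 → a ∈ G.X := by
  intro a ha
  have h1 := supp_sign P.toFan G.l (fun _ => True) ht (fun _ _ => trivial)
    (fun a c hac _ _ => G.str a c hac) hx.ge a ha
  have h2 := supp_sign P.toFan (-G.l) (fun _ => True) ht (fun _ _ => trivial)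
    (fun a c hac _ _ hh => G.str c a hac.symm ⟨by simpa using hh.2, by simpa using hh.1⟩)
    (by simp [hx]) a ha
  simp only [LinearMap.neg_apply, Left.nonneg_neg_iff] at h2
  exact (G.memX a).mpr (le_antisymm h2 h1)

theorem no_cross {N S : V} (hax : G.Ax N S) {a c : V} (hac : P.adj a c) (ha : a ∈ G.X)
    (hc : c ∈ G.X) :
    ¬ (0 < det3 (P.v G.k0) (P.v N) (P.v a) ∧ det3 (P.v G.k0) (P.v N) (P.v c) < 0) := by
  rintro ⟨h1, h2⟩
  obtain ⟨hN, hS, e⟩ := hax
  have eS : ∀ y, det3 (P.v G.k0) (P.v S) y = - det3 (P.v G.k0) (P.v N) y := by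
    intro y; rw [e]; simp only [det3, Pi.neg_apply]; ring
  rcases (G.adjX c hc a ha).mp hac.symm with h | h
  · refine G.cyc.nob c hc N hN ⟨?_, ?_⟩
    · rw [det3_swap23]; linarith
    · rw [← h]; exact h1
  · have hc' : c = G.nx a := by rw [h]; exact (G.cyc.mem c hc).2.2.2.symm
    refine G.cyc.nob a ha S hS ⟨?_, ?_⟩
    · rw [det3_swap23, eS]; linarith
    · rw [← hc', eS]; linarith

theorem plane_nx {N : V} (hN : N ∈ G.X) {y : V3 K} (hy : G.l y = 0) :
    y = det3 (P.v G.k0) (P.v N) y • P.v (G.nx N) + det3 (P.v G.k0) y (P.v (G.nx N)) • P.v N := by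
  have h := cramer (P.v G.k0) (P.v N) (P.v (G.nx N)) y
  have h0 := G.ldet _ _ ((G.memX N).mp hN) ((G.memX _).mp (G.cyc.mem N hN).1) y
  rw [G.w1 N hN, one_smul, h0, hy, zero_mul, zero_smul, zero_add] at h
  rw [add_comm]; exact h

theorem pv_eq {N : V} (hN : N ∈ G.X) : P.v (G.pv N) = G.cx N • P.v N - P.v (G.nx N) := by
  rw [← G.cxv N hN]; abel

theorem inH_nx {N : V} (hN : N ∈ G.X) {y : V3 K} (hy : G.l y = 0)
    (h : 0 ≤ det3 (P.v G.k0) (P.v N) y) : InH (P.v N) (P.v (G.nx N)) y :=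
  ⟨_, _, h, plane_nx G hN hy⟩

theorem inH_pv {N : V} (hN : N ∈ G.X) {y : V3 K} (hy : G.l y = 0)
    (h : det3 (P.v G.k0) (P.v N) y ≤ 0) : InH (P.v N) (P.v (G.pv N)) y := by
  refine ⟨- det3 (P.v G.k0) (P.v N) y, det3 (P.v G.k0) y (P.v (G.nx N)) +
    det3 (P.v G.k0) (P.v N) y * G.cx N, neg_nonneg.mpr h, ?_⟩
  have e := plane_nx G hN hy
  rw [pv_eq G hN]
  generalize det3 (P.v G.k0) (P.v N) y = r at e ⊢
  generalize det3 (P.v G.k0) y (P.v (G.nx N)) = q at e ⊢
  rw [e]; module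

theorem inJ_nx {N S : V} (hax : G.Ax N S) : P.InJ N (G.nx N) := by
  have hN := hax.1
  have hm := G.cyc.mem N hN
  refine ⟨(G.adjX N hN _ hm.1).mpr (Or.inl rfl), ?_⟩
  rintro x t ⟨s, r, hs, e⟩ ht a ha
  have hx : G.l x = 0 := by
    rw [e]; simp [(G.memX N).mp hN, (G.memX _).mp hm.1]
  have hX := supp_X G ht hx
  refine inH_nx G hN ((G.memX a).mp (hX a ha)) ?_
  refine supp_sign P.toFan (detL (P.v G.k0) (P.v N)) (fun a => a ∈ G.X) ht hX
    (fun a c hac ha hc => no_cross G hax hac ha hc) ?_ a ha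
  rw [e, map_add, map_smul, map_smul]; simp [G.w1 N hN, hs]

theorem inJ_pv {N S : V} (hax : G.Ax N S) : P.InJ N (G.pv N) := by
  have hN := hax.1
  have hm := G.cyc.mem N hN
  refine ⟨(G.adjX N hN _ hm.2.1).mpr (Or.inr rfl), ?_⟩
  rintro x t ⟨s, r, hs, e⟩ ht a ha
  have hx : G.l x = 0 := by
    rw [e]; simp [(G.memX N).mp hN, (G.memX _).mp hm.2.1]
  have hX := supp_X G ht hx
  refine inH_pv G hN ((G.memX a).mp (hX a ha)) ?_
  have := supp_sign P.toFan (- detL (P.v G.k0) (P.v N)) (fun a => a ∈ G.X) ht hX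
    (fun a c hac ha hc hh => no_cross G hax hac.symm hc ha
      ⟨by simpa using hh.2, by simpa using hh.1⟩) ?_ a ha
  · simpa using this
  · rw [e, pv_eq G hN, map_add, map_smul, map_smul, map_sub, map_smul]; simp [G.w1 N hN, hs]

end TPBx

theorem p_TPB (hUNIQ : S_UNIQ) (hTOP : S_TOP) :
    S_TPB := by
  intro K V I _ _ _ _ _ _ _ P G hW hB
  obtain ⟨N, S, a, a', b, hax, haa, h1, h2, h3, h4, h5, h6, hsgn⟩ := hB
  have hN := hax.1
  have hm := G.cyc.mem N hN
  have hT := (hTOP K V P.toFan N S hax.2.2).2.2.2.1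
  have ja : P.InJ N a := hT a h1.symm h2.symm
  have ja' : P.InJ N a' := hT a' h3.symm h4.symm
  have jb : P.InJ N b := hT b h5.symm h6.symm
  have jn := TPBx.inJ_nx G hax
  have jp := TPBx.inJ_pv G hax
  have lN := (G.memX N).mp hN
  have ln := (G.memX _).mp hm.1
  have lp := (G.memX _).mp hm.2.1
  refine ⟨N, S, ⟨hax.2.2, ?_, ?_⟩, ?_⟩
  · intro u hu huN
    rcases lt_trichotomy (u (P.v (G.nx N))) 0 with h | h | h
    · refine ⟨_, jp, ?_⟩
      rw [TPBx.pv_eq G hN]; simp [huN, h]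
    · have e : u = u (P.v G.k0) • G.l :=
        form_ext (a := P.v G.k0) (b := P.v N) (c := P.v (G.nx N))
          (by rw [G.w1 N hN]; exact one_ne_zero) (by simp [G.k01]) (by simp [huN, lN])
          (by simp [h, ln])
      have hc : u (P.v G.k0) ≠ 0 := by
        intro h0; rw [h0, zero_smul] at e; exact hu e
      have ev : ∀ y, u y = u (P.v G.k0) * G.l y := fun y => by
        conv_lhs => rw [e]
        simp
      rcases lt_or_gt_of_ne hc with hc | hc <;> rcases hsgn with ⟨s1, _, s3⟩ | ⟨s1, _, s3⟩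
      · exact ⟨b, jb, by rw [ev]; exact mul_pos_of_neg_of_neg hc s3⟩
      · exact ⟨a, ja, by rw [ev]; exact mul_pos_of_neg_of_neg hc s1⟩
      · exact ⟨a, ja, by rw [ev]; exact mul_pos hc s1⟩
      · exact ⟨b, jb, by rw [ev]; exact mul_pos hc s3⟩
    · exact ⟨_, jn, h⟩
  · intro x y hmer
    by_cases hxy : x ∉ G.X ∨ y ∉ G.X
    · exact hW x y hxy
    push Not at hxy
    obtain ⟨hx, hy⟩ := hxy
    intro k l hk _
    exfalso
    apply hmer
    have lx := (G.memX x).mp hx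
    have ly := (G.memX y).mp hy
    have c1 := TPBx.no_cross G hax hk.adj12 hx hy
    have c2 := TPBx.no_cross G hax hk.adj12.symm hy hx
    by_cases hh : 0 ≤ det3 (P.v G.k0) (P.v N) (P.v x) ∧ 0 ≤ det3 (P.v G.k0) (P.v N) (P.v y)
    · exact ⟨_, jn, TPBx.inH_nx G hN lx hh.1, TPBx.inH_nx G hN ly hh.2⟩
    · refine ⟨_, jp, TPBx.inH_pv G hN lx ?_, TPBx.inH_pv G hN ly ?_⟩
      · by_contra h
        push Not at h
        exact hh ⟨h.le, not_lt.mp fun h' => c1 ⟨h, h'⟩⟩
      · by_contra h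
        push Not at h
        exact hh ⟨not_lt.mp fun h' => c2 ⟨h, h'⟩, h.le⟩
  · intro J hJ
    have hsub : ({G.nx N, G.pv N, a, a', b} : Finset V) ⊆ J := by
      intro y hy
      simp only [Finset.mem_insert, Finset.mem_singleton] at hy
      rcases hy with rfl | rfl | rfl | rfl | rfl <;> exact (hJ _).mpr (by assumption)
    refine le_trans ?_ (Finset.card_le_card hsub)
    have d0 := (G.nxne N hN).2
    have key : ∀ y z : V, G.l (P.v y) ≠ G.l (P.v z) → y ≠ z := by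
      rintro y z h rfl; exact h rfl
    have la : G.l (P.v a) ≠ 0 := by rcases hsgn with h | h; exacts [h.1.ne', h.1.ne]
    have la' : G.l (P.v a') ≠ 0 := by rcases hsgn with h | h; exacts [h.2.1.ne', h.2.1.ne]
    have lb : G.l (P.v b) ≠ 0 := by rcases hsgn with h | h; exacts [h.2.2.ne, h.2.2.ne']
    have d1 : G.nx N ≠ a := key _ _ (by rw [ln]; exact la.symm)
    have d2 : G.nx N ≠ a' := key _ _ (by rw [ln]; exact la'.symm)
    have d3 : G.nx N ≠ b := key _ _ (by rw [ln]; exact lb.symm)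
    have d4 : G.pv N ≠ a := key _ _ (by rw [lp]; exact la.symm)
    have d5 : G.pv N ≠ a' := key _ _ (by rw [lp]; exact la'.symm)
    have d6 : G.pv N ≠ b := key _ _ (by rw [lp]; exact lb.symm)
    have d7 : a ≠ b := key _ _ (by
      rcases hsgn with h | h
      · exact (h.2.2.trans h.1).ne'
      · exact (h.1.trans h.2.2).ne)
    have d8 : a' ≠ b := key _ _ (by
      rcases hsgn with h | h
      · exact (h.2.2.trans h.2.1).ne'
      · exact (h.2.1.trans h.2.2).ne)
    rw [Finset.card_insert_of_notMem (by simp [d0, d1, d2, d3]),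
      Finset.card_insert_of_notMem (by simp [d4, d5, d6]),
      Finset.card_insert_of_notMem (by simp [haa, d7]), Finset.card_pair d8]

end Pool.Agent.P.MP_33ab4b_ag.T
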