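import Pool.Agent.P.MP_33ab4b_ag.T.IfaceP
import Pool.Agent.P.MP_33ab4b_ag.T.IfaceA

/-! Step TPE. -/

set_option autoImplicit false

namespace Pool.Agent.P.MP_33ab4b_ag.T

open scoped Classical

namespace TPEx

variable {K V I : Type} [Field K] [LinearOrder K] [IsStrictOrderedRing K] [Fintype V]
  [DecidableEq V] [Fintype I] [DecidableEq I] {P : HP K V I} {G : PLG P}

theorem fc_std (hSTD : S_STD) (A : PLA G) {x0 : V} (hx0 : x0 ∈ G.X)
    (h : ∀ d : Derivation ℚ K K, ∃ c : K, dv d G.fc = c • G.fc) : ∀ i, Std (G.fc i) := by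
  have hn : G.nx x0 ∈ G.X := (G.cyc.mem x0 hx0).1
  have hf := (G.kuf x0 hx0).1
  have e : P.mu (P.D x0) (P.D (G.nx x0)) G.fc = 1 := by
    rw [P.mu13, P.mu23, A.fXX x0 hx0 _ hn, if_neg hf.ne.1, if_pos hf.adj12]
  refine hSTD K P.hf I G.fc 1 (P.mu (P.D x0) (P.D (G.nx x0))) one_ne_zero ?_ ?_ ?_ ?_ h
  · intro i
    simp only [Rat.cast_one, one_mul, PLG.fc, HP.cl, Finset.sum_apply, Pi.smul_apply, smul_eq_mul]
    refine sum_mem fun a _ => mul_mem ?_ (P.DZ a i)
    rcases le_total (G.l (P.v a)) 0 with h1 | h1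
    · rw [max_eq_right h1]; exact zero_mem _
    · rw [max_eq_left h1]; exact G.lZ a
  · intro i
    refine P.mu_mem (P.DZ _) (P.DZ _) fun j => ?_
    by_cases hj : j = i
    · subst hj; simp only [Pi.single_eq_same]; exact one_mem _
    · rw [Pi.single_eq_of_ne hj]; exact zero_mem _
  · rw [e]; exact Std.one
  · rw [e]; exact one_ne_zero

theorem det_ne (R : TPF G) : det3 (P.v R.x0) (P.v (G.nx R.x0)) (P.v (G.ku R.x0)) ≠ 0 :=
  (G.kuf R.x0 R.hx0).1.det_ne

theorem indep (R : TPF G) (c : V → K) (hc : ∀ a, R.Out a → c a = 0) (h : P.cl c = 0) : c = 0 := by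
  obtain ⟨u, hu⟩ := (P.ker c).mp h
  have h0 : u = 0 := by
    refine form_ext (det_ne R) ?_ ?_ ?_
    · rw [← hu, hc _ (Or.inl rfl)]; rfl
    · rw [← hu, hc _ (Or.inr (Or.inl rfl))]; rfl
    · rw [← hu, hc _ (Or.inr (Or.inr rfl))]; rfl
  funext a
  rw [hu a, h0]; rfl

theorem span (R : TPF G) (x : I → K) : ∃ c : V → K, (∀ a, R.Out a → c a = 0) ∧ x = P.cl c := by
  obtain ⟨c, rfl⟩ := P.exists_cl x
  obtain ⟨u, h0, h1, h2⟩ := exists_form (det_ne R) (c R.x0) (c (G.nx R.x0)) (c (G.ku R.x0))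
  refine ⟨c - fun a => u (P.v a), ?_, ?_⟩
  · rintro a (rfl | rfl | rfl)
    · simp [h0]
    · simp [h1]
    · simp [h2]
  · rw [P.cl_sub, P.cl_form, sub_zero]

/-- The map on coefficient vectors that descends to the endomorphism. -/
noncomputable def FF (R : TPF G) (d : Derivation ℚ K K) : (V → K) →ₗ[K] (I → K) where
  toFun c := ∑ a, c a • P.ep d a + (c R.x0 * d R.w0 + c (G.nx R.x0) * d R.w1) • G.fc
  map_add' c c' := by
    simp only [Pi.add_apply, add_smul, add_mul, Finset.sum_add_distrib]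
    abel
  map_smul' r c := by
    simp only [Pi.smul_apply, smul_eq_mul, RingHom.id_apply, smul_add, Finset.smul_sum, smul_smul,
      add_smul, mul_assoc]

theorem FF_apply (R : TPF G) (d : Derivation ℚ K K) (c : V → K) : FF R d c =
    ∑ a, c a • P.ep d a + (c R.x0 * d R.w0 + c (G.nx R.x0) * d R.w1) • G.fc := rfl

theorem FF_std (A : PLA G) (R : TPF G) (d : Derivation ℚ K K) (u : Fm K)
    (h0 : Std (u (P.v R.x0))) (h1 : Std (u (P.v (G.nx R.x0)))) (h2 : Std (u (P.v (G.ku R.x0)))) :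
    FF R d (fun a => u (P.v a)) = 0 := by
  have e := P.dv_cl d (fun a => u (P.v a))
  rw [P.cl_form, dv_zero] at e
  have e2 : (fun a => d (u (P.v a))) =
      (u (P.v R.x0) * d R.w0 + u (P.v (G.nx R.x0)) * d R.w1) •
        (fun a => max (- G.l (P.v a)) 0) := by
    funext a
    have hc := congrArg u (R.coord a)
    simp only [map_add, map_smul, smul_eq_mul] at hc
    have hm : max (- G.l (P.v a)) 0 = ((max (- R.lq a) 0 : ℚ) : K) := by
      rw [R.lqv a]; push_cast; rfl
    rw [Pi.smul_apply, smul_eq_mul, hm, hc]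
    simp only [map_add, Derivation.leibniz, smul_eq_mul, h0.der d, h1.der d, h2.der d,
      (Std.rat _).der d]
    ring
  rw [e2, P.cl_smul, ← A.fc_lo] at e
  rw [FF_apply]
  exact e.symm

theorem FF_form (A : PLA G) (R : TPF G) (d : Derivation ℚ K K) (u : Fm K) :
    FF R d (fun a => u (P.v a)) = 0 := by
  obtain ⟨e0, a0, b0, c0⟩ := exists_form (det_ne R) 1 0 0
  obtain ⟨e1, a1, b1, c1⟩ := exists_form (det_ne R) 0 1 0
  obtain ⟨e2, a2, b2, c2⟩ := exists_form (det_ne R) 0 0 1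
  have hu : u = u (P.v R.x0) • e0 + u (P.v (G.nx R.x0)) • e1 + u (P.v (G.ku R.x0)) • e2 := by
    refine form_ext (det_ne R) ?_ ?_ ?_ <;>
      simp [a0, b0, c0, a1, b1, c1, a2, b2, c2]
  have hv : (fun a => u (P.v a)) = u (P.v R.x0) • (fun a => e0 (P.v a)) +
      u (P.v (G.nx R.x0)) • (fun a => e1 (P.v a)) + u (P.v (G.ku R.x0)) • (fun a => e2 (P.v a)) := by
    funext a
    have := LinearMap.congr_fun hu (P.v a)
    simpa using this
  rw [hv, map_add, map_add, map_smul, map_smul, map_smul,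
    FF_std A R d e0 (a0 ▸ Std.one) (b0 ▸ Std.zero) (c0 ▸ Std.zero),
    FF_std A R d e1 (a1 ▸ Std.zero) (b1 ▸ Std.one) (c1 ▸ Std.zero),
    FF_std A R d e2 (a2 ▸ Std.zero) (b2 ▸ Std.zero) (c2 ▸ Std.one)]
  simp

theorem exists_E (A : PLA G) (R : TPF G) (d : Derivation ℚ K K) :
    ∃ E : (I → K) →ₗ[K] (I → K), ∀ c, E (P.cl c) = FF R d c := by
  obtain ⟨σ, hσ⟩ := P.clL.exists_rightInverse_of_surjective (LinearMap.range_eq_top.mpr fun x => by
    obtain ⟨c, rfl⟩ := P.exists_cl x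
    exact ⟨c, rfl⟩)
  refine ⟨(FF R d).comp σ, fun c => ?_⟩
  have h1 : P.cl (σ (P.cl c) - c) = 0 := by
    have := LinearMap.congr_fun hσ (P.cl c)
    simp only [LinearMap.comp_apply, HP.clL_apply, LinearMap.id_apply] at this
    rw [P.cl_sub, this, sub_self]
  obtain ⟨u, hu⟩ := (P.ker _).mp h1
  have h2 : FF R d (σ (P.cl c) - c) = 0 := by
    rw [show σ (P.cl c) - c = fun a => u (P.v a) from funext hu]
    exact FF_form A R d u
  rw [map_sub, sub_eq_zero] at h2
  exact h2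

theorem ep_mem (A : PLA G) (d : Derivation ℚ K K) (hf : dv d G.fc = 0) {a : V} (ha : a ∉ G.X) :
    P.ep d a ∈ G.Kf := by
  refine A.nd _ fun x _ => ?_
  have := P.d_mu_zero d (A.fD0 a ha) (P.D x)
  rw [hf] at this
  simpa [HP.ep] using this

theorem isE (A : PLA G) (R : TPF G) (d : Derivation ℚ K K) (hf : dv d G.fc = 0) :
    ∃ E, R.IsE d E := by
  obtain ⟨E, hE⟩ := exists_E A R d
  have hn : G.nx R.x0 ∈ G.X := (G.cyc.mem R.x0 R.hx0).1
  have hD : ∀ a, E (P.D a) = P.ep d a +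
      ((Pi.single a 1 : V → K) R.x0 * d R.w0 + (Pi.single a 1 : V → K) (G.nx R.x0) * d R.w1) •
        G.fc := by
    intro a
    rw [← P.cl_single, hE, FF_apply]
    congr 1
    simp [Pi.single_apply, ite_smul]
  have hD0 : ∀ a, a ≠ R.x0 → a ≠ G.nx R.x0 → E (P.D a) = P.ep d a := by
    intro a h0 h1
    rw [hD, Pi.single_eq_of_ne h0.symm, Pi.single_eq_of_ne h1.symm]
    simp
  have hDX : ∀ a, a ∉ G.X → E (P.D a) = P.ep d a := fun a ha =>
    hD0 a (by rintro rfl; exact ha R.hx0) (by rintro rfl; exact ha hn)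
  have hfz : ∀ y c, c ∉ G.X → P.mu G.fc y (P.D c) = 0 := by
    intro y c hc
    rw [P.mu23, A.fD0 c hc]; rfl
  have h3 : ∀ a b c, c ∉ G.X → rho E P.mu (P.D a) (P.D b) (P.D c) = 0 := by
    intro a b c hc
    have h1 := (R.stdm a b c (Or.inr (Or.inr hc))).der d
    rw [HP.m3, P.d_mu] at h1
    have h2 : P.mu (P.D a) G.fc (P.D c) = 0 := by rw [P.mu12]; exact hfz _ c hc
    rw [rho, hD a, hD b, hDX c hc]
    simp only [map_add, map_smul, LinearMap.add_apply, LinearMap.smul_apply, hfz _ c hc, h2,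
      smul_zero, add_zero]
    exact h1
  refine ⟨E, ?_, ?_, ?_, ?_, ?_, ?_⟩
  · have hs : ∀ a, Std (max (G.l (P.v a)) 0) := fun a => by
      rw [R.lqv a]
      exact ⟨max (R.lq a) 0, by push_cast; rfl⟩
    have e := P.dv_cl_std d hs
    have e1 : E G.fc = FF R d (fun a => max (G.l (P.v a)) 0) := hE _
    rw [e1, FF_apply, ← e, (G.memX _).mp R.hx0, (G.memX _).mp hn]
    have : dv d (P.cl fun a => max (G.l (P.v a)) 0) = 0 := hf
    rw [this]; simp
  · intro k hk
    induction hk using Submodule.span_induction with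
    | mem x hx =>
      obtain ⟨a, ha, rfl⟩ := hx
      rw [hDX a ha]; exact ep_mem A d hf ha
    | zero => simp
    | add x y _ _ hx hy => rw [map_add]; exact add_mem hx hy
    | smul r x _ hx => rw [map_smul]; exact Submodule.smul_mem _ _ hx
  · intro a ha
    exact hD0 a (fun h => ha (Or.inl h)) (fun h => ha (Or.inr (Or.inl h)))
  · intro a
    refine ⟨- ((Pi.single a 1 : V → K) R.x0 * d R.w0 +
      (Pi.single a 1 : V → K) (G.nx R.x0) * d R.w1), ?_⟩
    rw [hD a, neg_smul]; abel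
  · intro x y k hk
    induction hk using Submodule.span_induction with
    | mem z hz =>
      obtain ⟨c, hc, rfl⟩ := hz
      obtain ⟨s, rfl⟩ := P.exists_cl x
      obtain ⟨t, rfl⟩ := P.exists_cl y
      have : rho E P.mu (P.cl s) (P.cl t) (P.D c) =
          ∑ a, ∑ b, s a * t b * rho E P.mu (P.D a) (P.D b) (P.D c) := by
        simp only [rho, HP.cl, map_sum, map_smul, LinearMap.sum_apply, LinearMap.smul_apply,
          smul_eq_mul, Finset.mul_sum, mul_add, Finset.sum_add_distrib]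
        refine congrArg₂ _ (congrArg₂ _ ?_ ?_) ?_ <;> rw [Finset.sum_comm] <;>
          exact Finset.sum_congr rfl fun a _ => Finset.sum_congr rfl fun b _ => by ring
      rw [this]
      exact Finset.sum_eq_zero fun a _ => Finset.sum_eq_zero fun b _ => by
        rw [h3 a b c hc, mul_zero]
    | zero => simp [rho]
    | add z w _ _ hz hw =>
      simp only [rho, map_add] at hz hw ⊢
      linarith
    | smul r z _ hz =>
      simp only [rho, map_smul, smul_eq_mul] at hz ⊢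
      rw [← mul_add, ← mul_add, hz, mul_zero]
  · intro k hk
    induction hk using Submodule.span_induction with
    | mem x hx =>
      obtain ⟨c, hc, rfl⟩ := hx
      rw [hDX c hc, HP.ep, ← P.d_p, P.pdef]
      exact (Std.sum _ fun a _ => R.stdm a a c (Or.inr (Or.inr hc))).der d
    | zero => simp
    | add x y _ _ hx hy => rw [map_add, map_add, hx, hy, add_zero]
    | smul r x _ hx => rw [map_smul, map_smul, hx, smul_zero]

theorem skew (A : PLA G) (R : TPF G) (d : Derivation ℚ K K) (hf : dv d G.fc = 0) {x y : V}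
    (hx : x ∈ G.X) (hy : y ∈ G.X) : G.Gm d x y = - G.Gm d y x := by
  have hs : Std (P.mu G.fc (P.D x) (P.D y)) := by
    rw [A.fXX x hx y hy]
    split_ifs
    · exact (R.stdc x hx).neg
    · exact Std.one
    · exact Std.zero
  have h1 := hs.der d
  rw [P.d_mu, hf, P.mu23 G.fc (P.D x) (dv d (P.D y))] at h1
  simp only [map_zero, LinearMap.zero_apply, zero_add] at h1
  simp only [PLG.Gm, HP.ep]
  linarith

theorem rel (A : PLA G) (d : Derivation ℚ K K) (x : V) :
    ∑ y ∈ G.X, G.Gm d x y • P.v y = 0 := by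
  rw [← P.LRv (P.mu G.fc (P.ep d x))]
  refine Finset.sum_subset (Finset.subset_univ _) fun a _ ha => ?_
  rw [PLG.Gm, P.mu23, A.fD0 a ha]
  simp

end TPEx

theorem p_TPE (hSTD : S_STD) :
    S_TPE := by
  intro K V I _ _ _ _ _ _ _ P G A R h
  have hf : ∀ d : Derivation ℚ K K, dv d G.fc = 0 := fun d =>
    dv_std d (TPEx.fc_std hSTD A R.hx0 h)
  exact ⟨hf, fun d => TPEx.isE A R d (hf d), TPEx.indep R, TPEx.span R, fun d =>
    ⟨fun x hx y hy => TPEx.skew A R d (hf d) hx hy, fun x _ => TPEx.rel A d x⟩⟩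

end Pool.Agent.P.MP_33ab4b_ag.T
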