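import Pool.Agent.P.MP_33ab4b_ag.T.IfaceP
import Pool.Agent.P.MP_33ab4b_ag.T.IfaceF

/-! Step TPF. -/

set_option autoImplicit false

namespace Pool.Agent.P.MP_33ab4b_ag.T

open scoped Classical

namespace TPFx

variable {K V I : Type} [Field K] [LinearOrder K] [IsStrictOrderedRing K] [Fintype V]
  [DecidableEq V] [Fintype I] [DecidableEq I]

theorem inOpen {Φ : Fan K V} {a b c : V} (h : Φ.face a b c) :
    Φ.InOpen {a, b, c} (Φ.v a + Φ.v b + Φ.v c) := by
  refine ⟨fun i => if i ∈ ({a, b, c} : Finset V) then 1 else 0, fun i hi => by simp only [hi]; simp,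
    fun i hi => by simp only [hi]; simp, ?_⟩
  simp only [ite_smul, one_smul, zero_smul]
  rw [Finset.sum_ite_mem, Finset.univ_inter, Finset.sum_insert (by simp [h.ne.1, h.ne.2.1]),
    Finset.sum_insert (by simp [h.ne.2.2]), Finset.sum_singleton, add_assoc]

/-- All rays of a closed half space have finite coordinates in a face on the plane. -/
theorem half (hPATH : S_PATH) (hFRB : S_FRB) (P : HP K V I) (X : Finset V) (u : Fm K)
    (nx k : V → V) (hX : ∀ a, a ∈ X ↔ u (P.v a) = 0)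
    (hstr : ∀ a b, P.adj a b → ¬ (0 < u (P.v a) ∧ u (P.v b) < 0))
    (hdet : ∀ x y : V3 K, u x = 0 → u y = 0 → ∃ c : K, ∀ z, det3 x y z = u z * c)
    (hnx : ∀ x ∈ X, nx x ∈ X) (hk : ∀ x ∈ X, P.face x (nx x) (k x) ∧ u (P.v (k x)) = 1)
    (hW : ∀ a b, (a ∉ X ∨ b ∉ X) → P.WallFin a b) (x0 : V) (hx0 : x0 ∈ X) :
    ∀ a, 0 ≤ u (P.v a) → P.FinF {x0, nx x0, k x0} (P.v a) := by
  obtain ⟨-, hrefl, -, htr, -, -, -, -, hwf, -⟩ := hFRB K V P.toHFan
  have hf0 := (hk x0 hx0).1
  have hξ : u (P.v x0 + P.v (nx x0) + P.v (k x0)) = 1 := by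
    rw [map_add, map_add, (hX _).1 hx0, (hX _).1 (hnx _ hx0), (hk x0 hx0).2]; simp
  have key : ∀ s ∈ P.F, (∀ i ∈ s, 0 ≤ u (P.v i)) → P.FinRel {x0, nx x0, k x0} s := by
    refine hPATH K V P.toFan (fun s => (∀ i ∈ s, 0 ≤ u (P.v i)) → P.FinRel {x0, nx x0, k x0} s)
      {x0, nx x0, k x0} _ hf0 (inOpen hf0) (fun _ => hrefl _ hf0) ?_
    intro a b c e hc he hce hneg hQ hup
    have ha := hup a (by simp)
    have hb := hup b (by simp)
    have hc' := hup c (by simp)
    by_cases hab : a ∈ X ∧ b ∈ X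
    · exfalso
      obtain ⟨r, hr⟩ := hdet _ _ ((hX _).1 hab.1) ((hX _).1 hab.2)
      rw [hr, hr, hξ] at hneg
      have : 0 ≤ u (P.v c) * (r * r) := mul_nonneg hc' (mul_self_nonneg r)
      nlinarith
    · have hab' : a ∉ X ∨ b ∉ X := by tauto
      have he' : 0 ≤ u (P.v e) := by
        by_contra hlt
        push Not at hlt
        rcases hab' with h | h
        · exact hstr a e he.adj13 ⟨lt_of_le_of_ne ha (fun h' => h ((hX _).2 h'.symm)), hlt⟩
        · exact hstr b e he.adj23 ⟨lt_of_le_of_ne hb (fun h' => h ((hX _).2 h'.symm)), hlt⟩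
      have h1 := hQ (by
        intro i hi
        simp only [Finset.mem_insert, Finset.mem_singleton] at hi
        rcases hi with rfl | rfl | rfl <;> assumption)
      have h2 := (hwf a b e c he hc hce.symm).1 (hW a b hab')
      exact fun i hi => htr _ hf0 _ he h1 _ (h2 i hi)
  intro a ha
  by_cases haX : a ∈ X
  · refine key _ (hk a haX).1 ?_ a (by simp)
    intro i hi
    simp only [Finset.mem_insert, Finset.mem_singleton] at hi
    rcases hi with rfl | rfl | rfl
    · exact ha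
    · exact ((hX _).1 (hnx _ haX)).ge
    · rw [(hk a haX).2]; exact zero_le_one
  · obtain ⟨s, hs, has⟩ := P.used a
    refine key s hs ?_ a has
    intro i hi
    by_cases hia : a = i
    · exact hia ▸ ha
    · by_contra hlt
      push Not at hlt
      exact hstr a i ⟨hia, s, hs, has, hi⟩
        ⟨lt_of_le_of_ne ha (fun h' => haX ((hX _).2 h'.symm)), hlt⟩

/-- Finite coordinates in a face are standard. -/
theorem coords (P : HP K V I) {a b c : V} (h : P.face a b c) (y : V)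
    (hy : P.FinF {a, b, c} (P.v y)) :
    ∃ r s t : ℚ, P.v y = (r : K) • P.v a + (s : K) • P.v b + (t : K) • P.v c := by
  obtain ⟨h1, h2, h3⟩ := hy a b c rfl
  obtain ⟨r, hr⟩ := P.hf.std_of_fi (P.det_mem y b c) h1
  obtain ⟨s, hs⟩ := P.hf.std_of_fi (P.det_mem a y c) h2
  obtain ⟨t, ht⟩ := P.hf.std_of_fi (P.det_mem a b y) h3
  have hc := cramer (P.v a) (P.v b) (P.v c) (P.v y)
  rw [hr, hs, ht] at hc
  rcases h.det with e | e
  · rw [e, one_smul] at hc
    exact ⟨r, s, t, hc⟩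
  · rw [e, neg_smul, one_smul] at hc
    refine ⟨-r, -s, -t, ?_⟩
    rw [← neg_neg (P.v y), hc]
    push_cast
    simp only [neg_smul, neg_add]

theorem m3_12 (P : HP K V I) (a b c : V) : P.m3 a b c = P.m3 b a c := P.mu12 _ _ _
theorem m3_23 (P : HP K V I) (a b c : V) : P.m3 a b c = P.m3 a c b := P.mu23 _ _ _
theorem m3_13 (P : HP K V I) (a b c : V) : P.m3 a b c = P.m3 c b a := P.mu13 _ _ _

theorem std_aab (hWREL : S_WREL) (P : HP K V I) {a b : V} (hab : a ≠ b) (hW : P.WallFin a b) :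
    Std (P.m3 a a b) := by
  by_cases h : P.adj a b
  · exact P.hf.std_of_fi (P.m3_mem _ _ _) (((hWREL K V I P).2.2.2 a b h).1 hW).1
  · exact Std.zero.of_eq (P.nadj hab h _)

theorem std_m3 (hWREL : S_WREL) (P : HP K V I) (G : PLG P) (hW : G.Wf)
    (hl : ∀ a, Std (G.l (P.v a))) (a b c : V) (h : a ∉ G.X ∨ b ∉ G.X ∨ c ∉ G.X) :
    Std (P.m3 a b c) := by
  have h2 : ∀ x y, x ≠ y → (x ∉ G.X ∨ y ∉ G.X) → Std (P.m3 x x y) :=
    fun x y hxy hX => std_aab hWREL P hxy (hW x y hX)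
  have h3 : ∀ x, x ∉ G.X → Std (P.m3 x x x) := by
    intro x hx
    have h0 : G.l (P.v x) ≠ 0 := fun e => hx ((G.memX x).2 e)
    have hs := P.LR (P.mu (P.D x) (P.D x)) G.l
    rw [← Finset.add_sum_erase _ _ (Finset.mem_univ x)] at hs
    have hS : Std (∑ y ∈ Finset.univ.erase x, G.l (P.v y) * P.mu (P.D x) (P.D x) (P.D y)) :=
      Std.sum _ fun y hy => (hl y).mul (h2 x y (Finset.ne_of_mem_erase hy).symm (Or.inl hx))
    refine (hS.neg.div (hl x)).of_eq ?_
    rw [eq_div_iff h0, HP.m3]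
    linear_combination hs
  by_cases hab : a = b
  · subst hab
    by_cases hac : a = c
    · subst hac
      exact h3 a (by tauto)
    · exact h2 a c hac (by tauto)
  · by_cases hac : a = c
    · subst hac
      exact (h2 a b hab (by tauto)).of_eq (m3_23 P _ _ _)
    · by_cases hbc : b = c
      · subst hbc
        exact (h2 b a (Ne.symm hab) (by tauto)).of_eq (m3_13 P _ _ _)
      · exact P.m3_std hab hac hbc

end TPFx

open TPFx in
theorem p_TPF (hWALL : S_WALL) (hPATH : S_PATH) (hFRB : S_FRB) (hWREL : S_WREL) :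
    S_TPF := by
  intro K V I _ _ _ _ _ _ _ P G hW x0 hx0
  have hnx : ∀ x ∈ G.X, G.nx x ∈ G.X := fun x hx => (G.cyc.mem x hx).1
  have hl0 : ∀ x ∈ G.X, G.l (P.v x) = 0 := fun x hx => (G.memX x).1 hx
  have hup := half hPATH hFRB P G.X G.l G.nx G.ku G.memX G.str
    (fun x y hx hy => ⟨det3 (P.v G.k0) x y, fun z => by rw [det3_rot z x y, G.ldet x y hx hy]⟩)
    hnx G.kuf hW x0 hx0
  have hlo := half hPATH hFRB P G.X (- G.l) G.nx G.kl (fun a => by simpa using G.memX a)
    (fun a b hab h => G.str b a hab.symm ⟨by simpa using h.2, by simpa using h.1⟩)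
    (fun x y hx hy => ⟨- det3 (P.v G.k0) x y, fun z => by
      rw [det3_rot z x y, G.ldet x y (by simpa using hx) (by simpa using hy)]; simp⟩)
    hnx (fun x hx => ⟨(G.klf x hx).1, by simp [(G.klf x hx).2]⟩) hW x0 hx0
  have hne : ∀ x ∈ G.X, G.ku x ≠ G.kl x := by
    intro x hx e
    have h1 := (G.kuf x hx).2
    rw [e, (G.klf x hx).2] at h1
    norm_num at h1
  have hrel : ∀ x ∈ G.X, P.v (G.ku x) + P.v (G.kl x) + P.m3 x x (G.nx x) • P.v x
      + P.m3 x (G.nx x) (G.nx x) • P.v (G.nx x) = 0 := fun x hx =>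
    ((hWREL K V I P).1 _ _ _ _ (G.kuf x hx).1 (G.klf x hx).1 (hne x hx)).1
  set w0 : K := - P.m3 x0 x0 (G.nx x0) with hw0
  set w1 : K := - P.m3 x0 (G.nx x0) (G.nx x0) with hw1
  have hkl : P.v (G.kl x0) = w0 • P.v x0 + w1 • P.v (G.nx x0) - P.v (G.ku x0) := by
    have := hrel x0 hx0
    rw [hw0, hw1, neg_smul, neg_smul]
    linear_combination (exp := 1) this
  have hco : ∀ a, ∃ r s t : ℚ, G.l (P.v a) = t ∧ P.v a = (r : K) • P.v x0 + (s : K) • P.v (G.nx x0)
      + (t : K) • P.v (G.ku x0)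
      + ((max (- t) 0 : ℚ) : K) • (w0 • P.v x0 + w1 • P.v (G.nx x0)) := by
    intro a
    rcases le_total 0 (G.l (P.v a)) with h | h
    · obtain ⟨r, s, t, e⟩ := coords P (G.kuf x0 hx0).1 a (hup a h)
      have ht : G.l (P.v a) = t := by
        rw [e]
        simp [hl0 x0 hx0, hl0 _ (hnx x0 hx0), (G.kuf x0 hx0).2]
      have ht' : 0 ≤ t := by
        rw [ht] at h
        exact_mod_cast h
      refine ⟨r, s, t, ht, ?_⟩
      rw [max_eq_right (by linarith)]
      simpa using e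
    · obtain ⟨r, s, t, e⟩ := coords P (G.klf x0 hx0).1 a (hlo a (by simpa using h))
      have ht : G.l (P.v a) = ((- t : ℚ) : K) := by
        rw [e]
        simp [hl0 x0 hx0, hl0 _ (hnx x0 hx0), (G.klf x0 hx0).2]
      have ht' : - t ≤ 0 := by
        rw [ht] at h
        exact_mod_cast h
      refine ⟨r, s, - t, ht, ?_⟩
      rw [neg_neg, max_eq_left (by linarith), e, hkl]
      push_cast
      module
  choose s0 s1 lq hlq hc using hco
  have hfin : ∀ x ∈ G.X, ∀ y ∈ G.X, Std (det3 (P.v G.k0) (P.v x) (P.v y)) := by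
    intro x hx y hy
    refine P.hf.std_of_fi (P.det_mem _ _ _) ?_
    exact (hFRB K V P.toHFan).2.2.2.2.1 _ (G.kuf x0 hx0).1 _ _ _
      (hup _ (by rw [G.k01]; exact zero_le_one)) (hup _ (hl0 x hx).ge) (hup _ (hl0 y hy).ge)
  have hmXX : ∀ x ∈ G.X,
      Std (P.m3 x x (G.nx x) + G.w (w0 • P.v x0 + w1 • P.v (G.nx x0)) (P.v (G.nx x))) ∧
      Std (P.m3 (G.nx x) (G.nx x) x + G.w (P.v x) (w0 • P.v x0 + w1 • P.v (G.nx x0))) := by
    intro x hx
    have hu : lq (G.ku x) = 1 := by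
      have := hlq (G.ku x)
      rw [(G.kuf x hx).2] at this
      exact_mod_cast this.symm
    have hd : lq (G.kl x) = -1 := by
      have := hlq (G.kl x)
      rw [(G.klf x hx).2] at this
      exact_mod_cast this.symm
    have e := hrel x hx
    rw [hc (G.ku x), hc (G.kl x), hu, hd] at e
    norm_num at e
    have e1 := congrArg (detL (P.v (G.nx x)) (P.v G.k0)) e
    have e2 := congrArg (detL (P.v G.k0) (P.v x)) e
    simp only [map_add, map_smul, map_neg, map_zero, detL_apply, smul_eq_mul] at e1 e2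
    have hw := G.w1 x hx
    constructor
    · refine ((((Std.rat (s0 (G.ku x))).add (Std.rat (s0 (G.kl x)))).mul
        (hfin x0 hx0 _ (hnx x hx))).add (((Std.rat (s1 (G.ku x))).add (Std.rat (s1 (G.kl x)))).mul
        (hfin _ (hnx x0 hx0) _ (hnx x hx)))).neg.of_eq ?_
      simp only [PLG.w, det3, Pi.add_apply, Pi.smul_apply, smul_eq_mul] at e1 hw ⊢
      linear_combination e1 - P.m3 x x (G.nx x) * hw
    · refine ((((Std.rat (s0 (G.ku x))).add (Std.rat (s0 (G.kl x)))).mul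
        (hfin x hx x0 hx0)).add (((Std.rat (s1 (G.ku x))).add (Std.rat (s1 (G.kl x)))).mul
        (hfin x hx _ (hnx x0 hx0)))).neg.of_eq ?_
      rw [m3_13 P (G.nx x) (G.nx x) x]
      simp only [PLG.w, det3, Pi.add_apply, Pi.smul_apply, smul_eq_mul] at e2 hw ⊢
      linear_combination e2 - P.m3 x (G.nx x) (G.nx x) * hw
  refine ⟨⟨x0, s0, s1, lq, w0, w1, hx0, hlq, hc,
    ⟨P.hf.Z.neg_mem (P.m3_mem _ _ _), P.hf.Z.neg_mem (P.m3_mem _ _ _)⟩,
    std_m3 hWREL P G hW (fun a => ⟨lq a, hlq a⟩), ?_, hmXX⟩, rfl, ?_⟩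
  · intro x hx
    obtain ⟨-, hp, -, hnp⟩ := G.cyc.mem x hx
    have e := congrArg (detL (P.v G.k0) (P.v (G.pv x))) (G.cxv x hx)
    have hw := G.w1 _ hp
    rw [hnp] at hw
    simp only [map_add, map_smul, detL_apply, smul_eq_mul, det3_self23, hw] at e
    exact (hfin _ hp _ (hnx x hx)).of_eq (by linear_combination -e)
  · intro h0 h1
    change Fi w0 at h0
    change Fi w1 at h1
    have hF : ∀ x ∈ G.X, Fi (P.m3 x x (G.nx x)) ∧ Fi (P.m3 (G.nx x) (G.nx x) x) := by
      intro x hx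
      obtain ⟨a1, a2⟩ := hmXX x hx
      constructor
      · refine (a1.fi.sub ((h0.mul (hfin x0 hx0 _ (hnx x hx)).fi).add
          (h1.mul (hfin _ (hnx x0 hx0) _ (hnx x hx)).fi))).of_eq ?_
        simp only [PLG.w, det3, Pi.add_apply, Pi.smul_apply, smul_eq_mul]
        ring
      · refine (a2.fi.sub ((h0.mul (hfin x hx x0 hx0).fi).add
          (h1.mul (hfin x hx _ (hnx x0 hx0)).fi))).of_eq ?_
        simp only [PLG.w, det3, Pi.add_apply, Pi.smul_apply, smul_eq_mul]
        ring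
    intro a b
    by_cases hab : a ∈ G.X ∧ b ∈ G.X
    · by_cases hadj : P.adj a b
      · refine ((hWREL K V I P).2.2.2 a b hadj).2 ?_
        rcases (G.adjX a hab.1 b hab.2).1 hadj with e | e
        · subst e
          exact ⟨(hF a hab.1).1, (hF a hab.1).2.of_eq (m3_13 P _ _ _)⟩
        · have e' : G.nx b = a := by rw [e]; exact (G.cyc.mem a hab.1).2.2.2
          subst e'
          exact ⟨(hF b hab.2).2, (hF b hab.2).1.of_eq (m3_13 P _ _ _)⟩
      · exact fun k l hk _ => absurd hk.adj12 hadj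
    · exact hW a b (by tauto)

end Pool.Agent.P.MP_33ab4b_ag.T
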