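import Pool.Agent.P.MP_33ab4b_ag.T.IfaceP

/-! Step TRI. -/

set_option autoImplicit false

namespace Pool.Agent.P.MP_33ab4b_ag.T

open scoped Classical

namespace TRIx

variable {K V I : Type} [Field K] [LinearOrder K] [IsStrictOrderedRing K] [Fintype V]
  [DecidableEq V] [Fintype I] [DecidableEq I] {P : HP K V I} (G : PLG P)

theorem v_inj {x y : V} (hx : x ∈ G.X) (hy : y ∈ G.X) (h : P.v y = P.v x) : y = x := by
  by_contra hne
  have h1 := G.opp x hx y hy (Ne.symm hne) (by rw [h]; simp)
  rw [h] at h1
  have h2 := G.w1 x hx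
  have h3 : det3 (P.v G.k0) (P.v x) (P.v (G.nx x)) = - det3 (P.v G.k0) (P.v x) (P.v (G.nx x)) := by
    conv_lhs => rw [h1]
    simp only [det3, Pi.neg_apply]; ring
  rw [h2] at h3
  norm_num at h3

/-- If all self-intersection numbers vanish, there are at most four rays. -/
theorem card_le (h : ∀ x ∈ G.X, P.v (G.nx x) + P.v (G.pv x) = 0) : G.X.card ≤ 4 := by
  obtain ⟨x, hx⟩ := G.cyc.ne
  have m := G.cyc.mem
  have two : ∀ y ∈ G.X, P.v (G.nx (G.nx y)) = - P.v y := by
    intro y hy
    have := h _ (m y hy).1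
    rw [(m y hy).2.2.1] at this
    exact eq_neg_of_add_eq_zero_left this
  have h1 := (m x hx).1
  have h2 := (m _ h1).1
  have h3 := (m _ h2).1
  have h4 := (m _ h3).1
  have four : G.nx (G.nx (G.nx (G.nx x))) = x := by
    refine v_inj G hx h4 ?_
    rw [two _ h2, two _ hx, neg_neg]
  have hsub : G.X ⊆ {x, G.nx x, G.nx (G.nx x), G.nx (G.nx (G.nx x))} := by
    intro b hb
    refine G.cyc.orb (fun b => b ∈ ({x, G.nx x, G.nx (G.nx x), G.nx (G.nx (G.nx x))} : Finset V))
      x hx (by simp) ?_ b hb
    intro c _ hc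
    simp only [Finset.mem_insert, Finset.mem_singleton] at hc ⊢
    rcases hc with rfl | rfl | rfl | rfl
    · simp
    · simp
    · simp
    · exact Or.inl four
  exact (Finset.card_le_card hsub).trans Finset.card_le_four

end TRIx

theorem p_TRI :
    S_TRI := by
  intro K V I _ _ _ _ _ _ _ P G M h5 hsk hrel hna
  have m := G.cyc.mem
  have hd : ∀ x ∈ G.X, M x x = 0 := by
    intro x hx
    have := hsk x hx x hx
    linarith
  -- the relation at `x` has two terms
  have two : ∀ x ∈ G.X, M x (G.nx x) • P.v (G.nx x) + M x (G.pv x) • P.v (G.pv x) = 0 := by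
    intro x hx
    rw [← hrel x hx]
    symm
    rw [← Finset.sum_pair (f := fun y => M x y • P.v y) (G.nxne x hx).2]
    symm
    refine Finset.sum_subset ?_ ?_
    · intro y hy
      simp only [Finset.mem_insert, Finset.mem_singleton] at hy
      rcases hy with rfl | rfl
      · exact (m x hx).1
      · exact (m x hx).2.1
    · intro y hy hny
      simp only [Finset.mem_insert, Finset.mem_singleton] at hny
      by_cases e : x = y
      · subst e; rw [hd x hx, zero_smul]
      · rw [hna x hx y hy e (fun ha => hny ((G.adjX x hx y hy).mp ha)), zero_smul]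
  have eq : ∀ x ∈ G.X, M x (G.pv x) = M x (G.nx x) := by
    intro x hx
    have h1 := congrArg (detL (P.v G.k0) (P.v x)) (two x hx)
    have h2 := G.w1 x hx
    have h3 := G.w1 _ (m x hx).2.1
    rw [(m x hx).2.2.2, det3_swap23] at h3
    have h4 : det3 (P.v G.k0) (P.v x) (P.v (G.pv x)) = -1 := by linarith
    simp only [map_add, map_smul, detL_apply, map_zero, smul_eq_mul, h2, h4] at h1
    linarith
  have step : ∀ x ∈ G.X, M (G.nx x) (G.nx (G.nx x)) = - M x (G.nx x) := by
    intro x hx
    have h1 := eq _ (m x hx).1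
    rw [(m x hx).2.2.1] at h1
    rw [← h1, hsk _ (m x hx).1 x hx]
  have main : ∀ x ∈ G.X, M x (G.nx x) = 0 := by
    intro x hx
    by_contra hne
    have all : ∀ y ∈ G.X, M y (G.nx y) ≠ 0 := by
      refine G.cyc.orb (fun y => M y (G.nx y) ≠ 0) x hx hne ?_
      intro b hb h
      rw [step b hb]
      exact neg_ne_zero.mpr h
    have := TRIx.card_le G (fun y hy => by
      have h1 := two y hy
      rw [eq y hy, ← smul_add] at h1
      exact (smul_eq_zero.mp h1).resolve_left (all y hy))
    omega
  intro x hx y hy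
  by_cases e : x = y
  · subst e; exact hd x hx
  by_cases ha : P.adj x y
  · rcases (G.adjX x hx y hy).mp ha with rfl | rfl
    · exact main x hx
    · rw [eq x hx]; exact main x hx
  · exact hna x hx y hy e ha

end Pool.Agent.P.MP_33ab4b_ag.T
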