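import Pool.Agent.P.MP_33ab4b_ag.T.IfaceA
import Pool.Agent.P.MP_33ab4b_ag.Jc

/-! Step VERT. -/

set_option autoImplicit false

namespace Pool.Agent.P.MP_33ab4b_ag.T

open scoped Classical

theorem p_VERT (hJC : S_JC) (hBIN : S_BIN) :
    S_VERT := by
  intro K _ _ _ L _ _ _ mu U W H hs hU hr hd
  exact vert hs H (W : Set L) U hU hr hd

end Pool.Agent.P.MP_33ab4b_ag.T
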