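import Pool.Agent.P.MP_33ab4b_ag.T.IfaceF
import Pool.Agent.P.MP_33ab4b_ag.T.Fb23

/-! Step WALL. -/

set_option autoImplicit false

namespace Pool.Agent.P.MP_33ab4b_ag.T

open scoped Classical

theorem p_WALL (hUNIQ : S_UNIQ) :
    S_WALL := by
  intro K V _ _ _ _ _ Φ a b h
  have _ := hUNIQ
  exact Fb.wall Φ h

end Pool.Agent.P.MP_33ab4b_ag.T
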