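import Pool.Agent.P.MP_33ab4b_ag.T.IfaceF

/-! Step WREL. -/

set_option autoImplicit false

namespace Pool.Agent.P.MP_33ab4b_ag.T

open scoped Classical

section

variable {K V I : Type} [Field K] [LinearOrder K] [IsStrictOrderedRing K] [Fintype V]
  [DecidableEq V] [Fintype I] [DecidableEq I]

theorem wrel_only (hW : S_WALL) (P : HP K V I) {a b k l : V} (hk : P.face a b k)
    (hl : P.face a b l) (hkl : k ≠ l) (c : V) (hc : P.face a b c) : c = k ∨ c = l := by
  obtain ⟨k0, l0, -, -, -, -, -, h⟩ := hW K V P.toFan a b hk.adj12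
  rcases h k hk with e1 | e1 <;> rcases h l hl with e2 | e2 <;> rcases h c hc with e3 | e3 <;>
    subst_vars <;> simp_all

theorem wrel_sum (hW : S_WALL) (P : HP K V I) {a b k l : V} (hk : P.face a b k)
    (hl : P.face a b l) (hkl : k ≠ l) (x : V → K) :
    P.mu (P.cl x) (P.D a) (P.D b) = x k + x l + P.m3 a a b * x a + P.m3 a b b * x b := by
  obtain ⟨hab, hak, hbk⟩ := hk.ne
  obtain ⟨-, hal, hbl⟩ := hl.ne
  have e : ∀ c, x c * P.mu (P.D c) (P.D a) (P.D b) =
      (if c = k then x k else 0) + (if c = l then x l else 0) +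
      (if c = a then P.m3 a a b * x a else 0) + (if c = b then P.m3 a b b * x b else 0) := by
    intro c
    by_cases h1 : c = a
    · subst h1
      simp [hab, hak, hal, HP.m3, mul_comm]
    by_cases h2 : c = b
    · subst h2
      rw [P.mu12]
      simp [h1, hbk, hbl, HP.m3, mul_comm]
    by_cases h3 : c = k
    · subst h3
      have := P.m3_face hk.rot.rot
      simp only [HP.m3] at this
      simp [this, h1, h2, hkl]
    by_cases h4 : c = l
    · subst h4
      have := P.m3_face hl.rot.rot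
      simp only [HP.m3] at this
      simp [this, h1, h2, h3]
    have : ¬ P.face c a b := fun h => by
      rcases wrel_only hW P hk hl hkl c h.rot with e | e
      · exact h3 e
      · exact h4 e
    have := P.m3_not_face h1 h2 hab this
    simp only [HP.m3] at this
    simp [this, h1, h2, h3, h4]
  rw [P.mu_cl, Finset.sum_congr rfl fun c _ => e c]
  simp [Finset.sum_add_distrib]

theorem wrel_vec (hW : S_WALL) (P : HP K V I) {a b k l : V} (hk : P.face a b k)
    (hl : P.face a b l) (hkl : k ≠ l) :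
    P.v k + P.v l + P.m3 a a b • P.v a + P.m3 a b b • P.v b = 0 := by
  funext i
  have h := wrel_sum hW P hk hl hkl (fun c => (LinearMap.proj i : Fm K) (P.v c))
  rw [P.cl_form] at h
  simpa using h.symm

theorem wrel_H (P : HP K V I) (u : Fm K) : P.H = P.cl (fun c => P.h c - u (P.v c)) := by
  have := P.cl_sub P.h (fun c => u (P.v c))
  rw [P.cl_form, sub_zero] at this
  exact this.symm

theorem wrel_pos (hW : S_WALL) (P : HP K V I) {a b : V} (hab : P.adj a b) :
    0 < P.mu P.H (P.D a) (P.D b) := by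
  obtain ⟨k, l, hkl, hk, hl, -, -, -⟩ := hW K V P.toFan a b hab
  obtain ⟨u, h1, h2⟩ := P.conv _ hk
  rw [wrel_H P u, wrel_sum hW P hk hl hkl]
  have ea := h1 a (by simp)
  have eb := h1 b (by simp)
  have ek := h1 k (by simp)
  have el := h2 l (by simp [hl.ne.2.1.symm, hl.ne.2.2.symm, hkl.symm])
  simp only [ea, eb, ek, sub_self, mul_zero, add_zero, zero_add]
  linarith

theorem wrel_nonneg (hW : S_WALL) (P : HP K V I) {a b : V} (hab : a ≠ b) :
    0 ≤ P.mu P.H (P.D a) (P.D b) := by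
  by_cases h : P.adj a b
  · exact (wrel_pos hW P h).le
  · rw [P.nadj hab h]

theorem wrel_HH (hW : S_WALL) (P : HP K V I) (a : V) : 0 < P.mu P.H P.H (P.D a) := by
  obtain ⟨s, hs, ha⟩ := P.used a
  obtain ⟨b, c, rfl, hc⟩ := Fan.exists_face_of_mem hs ha
  obtain ⟨u, h1, h2⟩ := P.conv _ hs
  obtain ⟨k, l, hkl, hk, hl, -, -, h⟩ := hW K V P.toFan a b hc.adj12
  have hex : ∃ m, P.face a b m ∧ m ≠ c := by
    rcases h c hc with e | e
    · exact ⟨l, hl, by rw [e]; exact hkl.symm⟩
    · exact ⟨k, hk, by rw [e]; exact hkl⟩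
  obtain ⟨m, hm, hmc⟩ := hex
  have hle : ∀ i, 0 ≤ P.h i - u (P.v i) := fun i => by
    by_cases hi : i ∈ ({a, b, c} : Finset V)
    · rw [h1 i hi, sub_self]
    · exact (sub_pos.mpr (h2 i hi)).le
  conv_rhs => rw [P.mu_comm]; arg 1; arg 1; arg 2; rw [wrel_H P u]
  rw [P.mu_cl]
  refine Finset.sum_pos' (fun i _ => ?_) ⟨m, Finset.mem_univ _, ?_⟩
  · by_cases hi : i = a
    · rw [hi, h1 a (by simp), sub_self, zero_mul]
    · rw [P.mu12]
      exact mul_nonneg (hle i) (wrel_nonneg hW P hi)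
  · rw [P.mu12]
    refine mul_pos (sub_pos.mpr (h2 m ?_)) (wrel_pos hW P hm.adj13.symm)
    simp [hm.ne.2.1.symm, hm.ne.2.2.symm, hmc]

theorem wrel_fin (hW : S_WALL) (P : HP K V I) {a b : V} (hab : P.adj a b) :
    P.WallFin a b ↔ Fi (P.m3 a a b) ∧ Fi (P.m3 a b b) := by
  have key : ∀ k l, P.face a b k → P.face a b l → k ≠ l →
      |det3 (P.v l) (P.v b) (P.v k)| = |P.m3 a a b| ∧
      |det3 (P.v a) (P.v l) (P.v k)| = |P.m3 a b b| := by
    intro k l hk hl hkl
    have e : P.v l = - P.v k - P.m3 a a b • P.v a - P.m3 a b b • P.v b := by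
      have := wrel_vec hW P hk hl hkl
      rw [← sub_eq_zero, ← this]; abel
    have e1 : det3 (P.v l) (P.v b) (P.v k) = - P.m3 a a b * det3 (P.v a) (P.v b) (P.v k) := by
      rw [e]; simp only [det3, Pi.sub_apply, Pi.neg_apply, Pi.smul_apply, smul_eq_mul]; ring
    have e2 : det3 (P.v a) (P.v l) (P.v k) = - P.m3 a b b * det3 (P.v a) (P.v b) (P.v k) := by
      rw [e]; simp only [det3, Pi.sub_apply, Pi.neg_apply, Pi.smul_apply, smul_eq_mul]; ring
    rw [e1, e2]
    rcases hk.det with d | d <;> simp [d]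
  constructor
  · intro h
    obtain ⟨k, l, hkl, hk, hl, -, -, -⟩ := hW K V P.toFan a b hab
    obtain ⟨h1, h2, -⟩ := h k l hk hl
    obtain ⟨e1, e2⟩ := key k l hk hl hkl
    exact ⟨h1.of_abs_le e1.ge, h2.of_abs_le e2.ge⟩
  · rintro ⟨h1, h2⟩ k l hk hl
    have h3 : Fi (det3 (P.v a) (P.v b) (P.v l)) := by
      rcases hl.det with d | d <;> rw [d]
      · exact Fi.one
      · exact Fi.one.neg
    by_cases hkl : k = l
    · subst hkl
      exact ⟨by simpa using Fi.zero, by simpa using Fi.zero, h3⟩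
    · obtain ⟨e1, e2⟩ := key k l hk hl hkl
      exact ⟨h1.of_abs_le e1.le, h2.of_abs_le e2.le, h3⟩

end

theorem p_WREL (hWALL : S_WALL) :
    S_WREL := by
  intro K V I _ _ _ _ _ _ _ P
  exact ⟨fun a b k l hk hl hkl => ⟨wrel_vec hWALL P hk hl hkl, wrel_sum hWALL P hk hl hkl⟩,
    fun a b h => wrel_pos hWALL P h, wrel_HH hWALL P, fun a b h => wrel_fin hWALL P h⟩

end Pool.Agent.P.MP_33ab4b_ag.T
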