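import Pool.Agent.P.MP_33ab4b_ag.T.IfaceA
import Pool.Agent.P.MP_33ab4b_ag.T.Zar

/-! Step ZAR. -/

set_option autoImplicit false

namespace Pool.Agent.P.MP_33ab4b_ag.T

open scoped Classical

theorem p_ZAR :
    S_ZAR := by
  intro K _ _ _ ι A M n hs ho hn hm x
  obtain ⟨h1, h2⟩ := zar A M n x hs ho hn hm
  refine ⟨h1, fun h0 => ?_⟩
  obtain ⟨h3, h4, h5⟩ := h2 h0
  refine ⟨h3, fun a ha b hb hM => ?_, h5⟩
  rw [div_eq_div_iff (hn a ha).ne' (hn b hb).ne']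
  exact h4 a ha b hb hM

end Pool.Agent.P.MP_33ab4b_ag.T
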