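import Pool.Agent.P.MP_33ab4b_ag.T.THFQ
import Pool.Agent.P.MP_33ab4b_ag.T.TQFAN
import Pool.Agent.P.MP_33ab4b_ag.T.TRANK
import Pool.Agent.P.MP_33ab4b_ag.T.TUNIQ
import Pool.Agent.P.MP_33ab4b_ag.T.TWALL
import Pool.Agent.P.MP_33ab4b_ag.T.TFRB
import Pool.Agent.P.MP_33ab4b_ag.T.TGEN
import Pool.Agent.P.MP_33ab4b_ag.T.TDETB
import Pool.Agent.P.MP_33ab4b_ag.T.TPIVOT
import Pool.Agent.P.MP_33ab4b_ag.T.TLP1
import Pool.Agent.P.MP_33ab4b_ag.T.TLP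
import Pool.Agent.P.MP_33ab4b_ag.T.TEQV
import Pool.Agent.P.MP_33ab4b_ag.T.TPATH
import Pool.Agent.P.MP_33ab4b_ag.T.TCROSSP
import Pool.Agent.P.MP_33ab4b_ag.T.TSTR2
import Pool.Agent.P.MP_33ab4b_ag.T.TAXS
import Pool.Agent.P.MP_33ab4b_ag.T.TTOP
import Pool.Agent.P.MP_33ab4b_ag.T.TAX1
import Pool.Agent.P.MP_33ab4b_ag.T.TNX
import Pool.Agent.P.MP_33ab4b_ag.T.TLINK
import Pool.Agent.P.MP_33ab4b_ag.T.TSL
import Pool.Agent.P.MP_33ab4b_ag.T.TAX2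
import Pool.Agent.P.MP_33ab4b_ag.T.TSTRUCT
import Pool.Agent.P.MP_33ab4b_ag.T.TWREL
import Pool.Agent.P.MP_33ab4b_ag.T.TFINC
import Pool.Agent.P.MP_33ab4b_ag.T.TTG0
import Pool.Agent.P.MP_33ab4b_ag.T.TTG1
import Pool.Agent.P.MP_33ab4b_ag.T.TTG2
import Pool.Agent.P.MP_33ab4b_ag.T.TPD1
import Pool.Agent.P.MP_33ab4b_ag.T.TTA1
import Pool.Agent.P.MP_33ab4b_ag.T.TTA2
import Pool.Agent.P.MP_33ab4b_ag.T.TST1
import Pool.Agent.P.MP_33ab4b_ag.T.TSTD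
import Pool.Agent.P.MP_33ab4b_ag.T.TZAR
import Pool.Agent.P.MP_33ab4b_ag.T.TDEF0
import Pool.Agent.P.MP_33ab4b_ag.T.TRAD0
import Pool.Agent.P.MP_33ab4b_ag.T.TST2
import Pool.Agent.P.MP_33ab4b_ag.T.TMW
import Pool.Agent.P.MP_33ab4b_ag.T.TSTDSUB
import Pool.Agent.P.MP_33ab4b_ag.T.TST3
import Pool.Agent.P.MP_33ab4b_ag.T.TST4
import Pool.Agent.P.MP_33ab4b_ag.T.TCR0
import Pool.Agent.P.MP_33ab4b_ag.T.TCR
import Pool.Agent.P.MP_33ab4b_ag.T.TJC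
import Pool.Agent.P.MP_33ab4b_ag.T.TBIN
import Pool.Agent.P.MP_33ab4b_ag.T.TVERT
import Pool.Agent.P.MP_33ab4b_ag.T.TFM
import Pool.Agent.P.MP_33ab4b_ag.T.TST7
import Pool.Agent.P.MP_33ab4b_ag.T.TST8
import Pool.Agent.P.MP_33ab4b_ag.T.TLINB
import Pool.Agent.P.MP_33ab4b_ag.T.TRHOA
import Pool.Agent.P.MP_33ab4b_ag.T.TRHO1
import Pool.Agent.P.MP_33ab4b_ag.T.TPL1
import Pool.Agent.P.MP_33ab4b_ag.T.TPL2
import Pool.Agent.P.MP_33ab4b_ag.T.TFLIP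
import Pool.Agent.P.MP_33ab4b_ag.T.TLOC
import Pool.Agent.P.MP_33ab4b_ag.T.TAXU
import Pool.Agent.P.MP_33ab4b_ag.T.TRADU
import Pool.Agent.P.MP_33ab4b_ag.T.TDICH
import Pool.Agent.P.MP_33ab4b_ag.T.TR4
import Pool.Agent.P.MP_33ab4b_ag.T.TTPB
import Pool.Agent.P.MP_33ab4b_ag.T.TTPF
import Pool.Agent.P.MP_33ab4b_ag.T.TG34
import Pool.Agent.P.MP_33ab4b_ag.T.TTPE
import Pool.Agent.P.MP_33ab4b_ag.T.TNIL2
import Pool.Agent.P.MP_33ab4b_ag.T.TVERT2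
import Pool.Agent.P.MP_33ab4b_ag.T.TSPLIT
import Pool.Agent.P.MP_33ab4b_ag.T.TTRI
import Pool.Agent.P.MP_33ab4b_ag.T.TG5A
import Pool.Agent.P.MP_33ab4b_ag.T.TPF
import Pool.Agent.P.MP_33ab4b_ag.T.TINJ1
import Pool.Agent.P.MP_33ab4b_ag.T.TINJ2
import Pool.Agent.P.MP_33ab4b_ag.T.TINJB
import Pool.Agent.P.MP_33ab4b_ag.T.TG5B
import Pool.Agent.P.MP_33ab4b_ag.T.TPRAD
import Pool.Agent.P.MP_33ab4b_ag.T.TEND
import Pool.Agent.P.MP_33ab4b_ag.T.TKMAIN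
import Pool.Agent.P.MP_33ab4b_ag.T.TCORE
import Pool.Agent.P.MP_33ab4b_ag.T.TDEG
import Pool.Agent.P.MP_33ab4b_ag.T.TRG1
import Pool.Agent.P.MP_33ab4b_ag.T.TRG2
import Pool.Agent.P.MP_33ab4b_ag.T.TRG3
import Pool.Agent.P.MP_33ab4b_ag.T.TMain

/-! Assembly of all steps. -/

set_option autoImplicit false

namespace Pool.Agent.P.MP_33ab4b_ag.T

theorem all_HFQ : S_HFQ := p_HFQ
theorem all_QFAN : S_QFAN := p_QFAN
theorem all_RANK : S_RANK := p_RANK all_QFAN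
theorem all_UNIQ : S_UNIQ := p_UNIQ
theorem all_WALL : S_WALL := p_WALL all_UNIQ
theorem all_FRB : S_FRB := p_FRB all_WALL
theorem all_GEN : S_GEN := p_GEN
theorem all_DETB : S_DETB := p_DETB all_UNIQ
theorem all_PIVOT : S_PIVOT := p_PIVOT
theorem all_LP1 : S_LP1 := p_LP1 all_FRB all_DETB all_PIVOT
theorem all_LP : S_LP := p_LP all_GEN all_LP1
theorem all_EQV : S_EQV := p_EQV all_FRB
theorem all_PATH : S_PATH := p_PATH all_UNIQ all_WALL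
theorem all_CROSSP : S_CROSSP := p_CROSSP all_PATH all_FRB
theorem all_STR2 : S_STR2 := p_STR2 all_GEN all_FRB all_EQV all_CROSSP
theorem all_AXS : S_AXS := p_AXS
theorem all_TOP : S_TOP := p_TOP all_UNIQ
theorem all_AX1 : S_AX1 := p_AX1 all_GEN all_FRB all_EQV all_AXS all_TOP
theorem all_NX : S_NX := p_NX
theorem all_LINK : S_LINK := p_LINK all_UNIQ all_WALL all_NX
theorem all_SL : S_SL := p_SL
theorem all_AX2 : S_AX2 := p_AX2 all_WALL all_LINK all_FRB all_EQV all_AXS all_TOP all_SL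
theorem all_STRUCT : S_STRUCT := p_STRUCT all_UNIQ all_FRB all_LP all_STR2 all_AX1 all_AX2 all_CROSSP
theorem all_WREL : S_WREL := p_WREL all_WALL
theorem all_FINC : S_FINC := p_FINC all_PATH all_FRB all_WREL
theorem all_TG0 : S_TG0 := p_TG0 all_UNIQ all_NX all_TOP
theorem all_TG1 : S_TG1 := p_TG1 all_UNIQ all_WALL all_PATH all_FRB all_TOP all_TG0
theorem all_TG2 : S_TG2 := p_TG2 all_UNIQ all_WALL all_FRB all_TOP all_WREL
theorem all_PD1 : S_PD1 := p_PD1 all_WALL all_PATH all_WREL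
theorem all_TA1 : S_TA1 := p_TA1 all_WALL all_WREL
theorem all_TA2 : S_TA2 := p_TA2 all_PD1 all_TA1
theorem all_ST1 : S_ST1 := p_ST1
theorem all_STD : S_STD := p_STD
theorem all_ZAR : S_ZAR := p_ZAR
theorem all_DEF0 : S_DEF0 := p_DEF0 all_ZAR all_LINK all_WREL
theorem all_RAD0 : S_RAD0 := p_RAD0 all_ZAR all_DEF0
theorem all_ST2 : S_ST2 := p_ST2 all_STD all_RAD0
theorem all_MW : S_MW := p_MW all_WREL
theorem all_STDSUB : S_STDSUB := p_STDSUB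
theorem all_ST3 : S_ST3 := p_ST3 all_STDSUB all_WREL
theorem all_ST4 : S_ST4 := p_ST4 all_ZAR all_ST3
theorem all_CR0 : S_CR0 := p_CR0 all_UNIQ
theorem all_CR : S_CR := p_CR all_CR0
theorem all_JC : S_JC := p_JC
theorem all_BIN : S_BIN := p_BIN
theorem all_VERT : S_VERT := p_VERT all_JC all_BIN
theorem all_FM : S_FM := p_FM all_VERT all_DEF0 all_RAD0
theorem all_ST7 : S_ST7 := p_ST7 all_STDSUB all_ST4 all_CR all_FM
theorem all_ST8 : S_ST8 := p_ST8 all_SL all_MW all_ST7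
theorem all_LINB : S_LINB := p_LINB
theorem all_RHOA : S_RHOA := p_RHOA all_LINB all_VERT
theorem all_RHO1 : S_RHO1 := p_RHO1 all_RHOA all_DEF0 all_RAD0 all_MW all_WREL
theorem all_PL1 : S_PL1 := p_PL1 all_UNIQ all_WALL all_NX all_FRB
theorem all_PL2 : S_PL2 := p_PL2 all_ZAR all_PATH all_WREL
theorem all_FLIP : S_FLIP := p_FLIP
theorem all_LOC : S_LOC := p_LOC all_LINK all_WREL
theorem all_AXU : S_AXU := p_AXU all_UNIQ
theorem all_RADU : S_RADU := p_RADU all_LOC all_AXU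
theorem all_DICH : S_DICH := p_DICH all_FLIP all_LOC all_AXU all_RADU
theorem all_R4 : S_R4 := p_R4 all_UNIQ all_FRB all_PL1 all_PL2 all_DICH
theorem all_TPB : S_TPB := p_TPB all_UNIQ all_TOP
theorem all_TPF : S_TPF := p_TPF all_WALL all_PATH all_FRB all_WREL
theorem all_G34 : S_G34 := p_G34 all_STD
theorem all_TPE : S_TPE := p_TPE all_STD
theorem all_NIL2 : S_NIL2 := p_NIL2 all_BIN
theorem all_VERT2 : S_VERT2 := p_VERT2 all_JC all_NIL2 all_FLIP all_AXU all_RADU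
theorem all_SPLIT : S_SPLIT := p_SPLIT all_LINB all_TPE all_VERT2
theorem all_TRI : S_TRI := p_TRI
theorem all_G5A : S_G5A := p_G5A all_LINB all_TPE all_SPLIT all_TRI
theorem all_PF : S_PF := p_PF all_WREL
theorem all_INJ1 : S_INJ1 := p_INJ1
theorem all_INJ2 : S_INJ2 := p_INJ2
theorem all_INJB : S_INJB := p_INJB all_INJ1 all_INJ2
theorem all_G5B : S_G5B := p_G5B all_LINB all_TPE all_SPLIT all_PF all_INJB
theorem all_PRAD : S_PRAD := p_PRAD all_FLIP all_RADU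
theorem all_END : S_END := p_END all_TPE all_VERT2 all_PRAD
theorem all_KMAIN : S_KMAIN := p_KMAIN all_STRUCT all_FINC all_TG1 all_TG2 all_TA2 all_ST1 all_ST2 all_ST8 all_RHO1 all_R4 all_PL1 all_PL2 all_DICH all_TPB all_TPF all_G34 all_G5A all_G5B all_END all_TPE
theorem all_CORE : S_CORE := p_CORE all_HFQ all_QFAN all_RANK all_KMAIN
theorem all_DEG : S_DEG := p_DEG all_QFAN all_UNIQ all_WALL all_LINK
theorem all_RG1 : S_RG1 := p_RG1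
theorem all_RG2 : S_RG2 := p_RG2 all_QFAN all_WALL all_PATH
theorem all_RG3 : S_RG3 := p_RG3
theorem all_Main : S_Main := p_Main all_CORE all_DEG all_RG1 all_RG2 all_RG3

end Pool.Agent.P.MP_33ab4b_ag.T
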