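import Pool.Agent.P.MP_33ab4b_ag.Defs

/-!
Working definitions for the toric case: ordered fields with hyperintegers, fans and presentations
over them, the output of the linear program, axes and straight planes.
-/

set_option autoImplicit false

namespace Pool.Agent.P.MP_33ab4b_ag.T

open scoped Classical

/-! ### Integer level -/

/-- The trilinear form with coefficients `mu`. -/
def tri {b : ℕ} (mu : Fin b → Fin b → Fin b → ℤ) (x y z : Fin b → ℤ) : ℤ :=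
  ∑ i, ∑ j, ∑ k, mu i j k * x i * y j * z k

/-- A presentation of `(Z^b, mu, p)` by the fan `S`. -/
structure ZPres {m : ℕ} (S : SPFan m) (b : ℕ) (mu : Fin b → Fin b → Fin b → ℤ) (p : Fin b → ℤ) where
  D : Fin m → Fin b → ℤ
  onto : ∀ x : Fin b → ℤ, ∃ y : Fin m → ℤ, x = ∑ a, y a • D a
  ker : ∀ y : Fin m → ℤ, ∑ a, y a • D a = 0 ↔ ∃ u : Fin 3 → ℤ, ∀ a, y a = u ⬝ᵥ S.v a
  mface : ∀ a c e, a ≠ c → a ≠ e → c ≠ e →
    tri mu (D a) (D c) (D e) = if ({a, c, e} : Finset (Fin m)) ∈ S.F then 1 else 0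
  mnadj : ∀ a c, a ≠ c → (∀ s ∈ S.F, ¬ (a ∈ s ∧ c ∈ s)) → ∀ x, tri mu (D a) (D c) x = 0
  pdef : ∀ x, p ⬝ᵥ x = ∑ a, tri mu (D a) (D a) x

/-! ### Ordered fields -/

section field

variable {K : Type} [Field K] [LinearOrder K] [IsStrictOrderedRing K]

abbrev V3 (K : Type) : Type := Fin 3 → K

abbrev Fm (K : Type) [Field K] : Type := V3 K →ₗ[K] K

def det3 (a b c : V3 K) : K :=
  a 0 * (b 1 * c 2 - b 2 * c 1) - a 1 * (b 0 * c 2 - b 2 * c 0) + a 2 * (b 0 * c 1 - b 1 * c 0)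

/-- `det3 a b` as a linear form. -/
def detL (a b : V3 K) : Fm K where
  toFun := det3 a b
  map_add' x y := by simp only [det3, Pi.add_apply]; ring
  map_smul' r x := by simp only [det3, Pi.smul_apply, smul_eq_mul, RingHom.id_apply]; ring

/-- Standard: rational. -/
def Std (x : K) : Prop := ∃ q : ℚ, x = q

/-- Finite. -/
def Fi (x : K) : Prop := ∃ n : ℕ, |x| ≤ n

/-- `x = O(y)`. -/
def BO (x y : K) : Prop := ∃ n : ℕ, |x| ≤ n * |y|

/-- `x` has finite minors with the triple `a, b, c`. -/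
def FinB (a b c x : V3 K) : Prop := Fi (det3 x b c) ∧ Fi (det3 a x c) ∧ Fi (det3 a b x)

abbrev Tri (K L : Type) [Field K] [AddCommGroup L] [Module K L] : Type :=
  L →ₗ[K] L →ₗ[K] L →ₗ[K] K

def Sym3 {L : Type} [AddCommGroup L] [Module K L] (mu : Tri K L) : Prop :=
  (∀ x y z, mu x y z = mu y x z) ∧ ∀ x y z, mu x y z = mu x z y

/-- The action of an endomorphism on a trilinear form, as a derivation. -/
def rho {L : Type} [AddCommGroup L] [Module K L] (U : L →ₗ[K] L) (mu : Tri K L) (x y z : L) : K :=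
  mu (U x) y z + mu x (U y) z + mu x y (U z)

/-- A derivation applied to the coordinates of a vector. -/
def dv {I : Type} (d : Derivation ℚ K K) (x : I → K) : I → K := fun i => d (x i)

/-- Hyperintegers and the transfer facts that are used. -/
structure HF (K : Type) [Field K] [LinearOrder K] [IsStrictOrderedRing K] where
  Z : Subring K
  disc : ∀ x ∈ Z, 0 < x → 1 ≤ x
  flo : ∀ x : K, ∃ n ∈ Z, n ≤ x ∧ x < n + 1
  der : ∀ x : K, (∀ d : Derivation ℚ K K, d x = 0) → Std x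
  ineq : ∀ (ι κ : Type) [Fintype ι] [Fintype κ] (c : ι → κ → ℚ),
    (∃ s : κ → K, ∀ i, 0 < ∑ a, (c i a : K) * s a) → ∃ s : κ → ℚ, ∀ i, 0 < ∑ a, c i a * s a

/-- A cyclically ordered complete family of rays in the quotient of three-space by `e`. -/
structure Cyc {V : Type} (e : V3 K) (v : V → V3 K) (A : Finset V) (nx pv : V → V) : Prop where
  mem : ∀ a ∈ A, nx a ∈ A ∧ pv a ∈ A ∧ pv (nx a) = a ∧ nx (pv a) = a
  ne : A.Nonempty
  orb : ∀ Q : V → Prop, ∀ a ∈ A, Q a → (∀ b ∈ A, Q b → Q (nx b)) → ∀ b ∈ A, Q b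
  pos : ∀ a ∈ A, 0 < det3 e (v a) (v (nx a))
  nob : ∀ a ∈ A, ∀ b ∈ A, ¬ (0 < det3 e (v a) (v b) ∧ 0 < det3 e (v b) (v (nx a)))
  cov : ∀ x : V3 K, (∀ t : K, x ≠ t • e) →
    ∃ a ∈ A, 0 ≤ det3 e (v a) x ∧ 0 < det3 e x (v (nx a))
  npar : ∀ a ∈ A, ∀ b ∈ A, a ≠ b → det3 e (v a) (v b) = 0 →
    ∃ s t : K, 0 < s ∧ v b = (-s) • v a + t • e

/-- Minus the self-intersection number of the ray `a` in a cyclic family. -/
def cA {V : Type} (e : V3 K) (v : V → V3 K) (nx pv : V → V) (a : V) : K :=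
  det3 e (v (pv a)) (v (nx a)) / (det3 e (v (pv a)) (v a) * det3 e (v a) (v (nx a)))

/-- `x` lies in the closed half plane spanned by `y` and the line of `e`. -/
def InH (e y x : V3 K) : Prop := ∃ s t : K, 0 ≤ s ∧ x = s • y + t • e

/-- `u` is the strict maximiser of `y` on `U`. -/
def SMax (U : Set (Fm K)) (y : V3 K) (u : Fm K) : Prop := u ∈ U ∧ ∀ u' ∈ U, u' ≠ u → u' y < u y

end field

/-! ### Fans -/

structure Fan (K V : Type) [Field K] [LinearOrder K] [IsStrictOrderedRing K] [Fintype V]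
    [DecidableEq V] where
  v : V → V3 K
  F : Finset (Finset V)
  h : V → K
  card3 : ∀ s ∈ F, s.card = 3
  unimod : ∀ a b c, ({a, b, c} : Finset V) ∈ F →
    det3 (v a) (v b) (v c) = 1 ∨ det3 (v a) (v b) (v c) = -1
  cover : ∀ x : V3 K, ∃ s ∈ F, ∃ t : V → K, (∀ a, 0 ≤ t a) ∧ (∀ a, a ∉ s → t a = 0) ∧
    x = ∑ a, t a • v a
  used : ∀ a, ∃ s ∈ F, a ∈ s
  conv : ∀ s ∈ F, ∃ u : Fm K, (∀ a ∈ s, u (v a) = h a) ∧ ∀ a, a ∉ s → u (v a) < h a

namespace Fan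

variable {K V : Type} [Field K] [LinearOrder K] [IsStrictOrderedRing K] [Fintype V] [DecidableEq V]
  (Φ : Fan K V)

def face (a b c : V) : Prop := ({a, b, c} : Finset V) ∈ Φ.F

def adj (a b : V) : Prop := a ≠ b ∧ ∃ s ∈ Φ.F, a ∈ s ∧ b ∈ s

noncomputable def nbrs (a : V) : Finset V := Finset.univ.filter (fun b => Φ.adj a b)

/-- `t` is a nonnegative representation of `x` supported on a face. -/
def IsRep (x : V3 K) (t : V → K) : Prop :=
  (∀ a, 0 ≤ t a) ∧ (∃ s ∈ Φ.F, ∀ a, a ∉ s → t a = 0) ∧ x = ∑ a, t a • Φ.v a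

/-- `y` lies in the open cone of `s`. -/
def InOpen (s : Finset V) (y : V3 K) : Prop :=
  ∃ t : V → K, (∀ a ∈ s, 0 < t a) ∧ (∀ a, a ∉ s → t a = 0) ∧ y = ∑ a, t a • Φ.v a

/-- `x` has finite coordinates in the basis given by the face `s`. -/
def FinF (s : Finset V) (x : V3 K) : Prop :=
  ∀ a b c, s = {a, b, c} → FinB (Φ.v a) (Φ.v b) (Φ.v c) x

def FinRel (s s' : Finset V) : Prop := ∀ i ∈ s', Φ.FinF s (Φ.v i)

def WallFin (a b : V) : Prop :=
  ∀ k l, Φ.face a b k → Φ.face a b l → FinB (Φ.v a) (Φ.v b) (Φ.v k) (Φ.v l)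

def FIN : Prop := ∀ a b, Φ.WallFin a b

def StrPlane (l : Fm K) : Prop :=
  l ≠ 0 ∧ ∀ a b, Φ.adj a b → ¬ (0 < l (Φ.v a) ∧ l (Φ.v b) < 0)

def TP (l : Fm K) : Prop :=
  Φ.StrPlane l ∧ ∀ a b, (l (Φ.v a) ≠ 0 ∨ l (Φ.v b) ≠ 0) → Φ.WallFin a b

/-- The half plane of `y` about the line of `e` is a union of walls. -/
def Str (e y : V3 K) : Prop :=
  ∀ x t, InH e y x → Φ.IsRep x t → ∀ a, t a ≠ 0 → InH e y (Φ.v a)

def InJ (N y : V) : Prop := Φ.adj N y ∧ Φ.Str (Φ.v N) (Φ.v y)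

def Mer (N a b : V) : Prop :=
  ∃ y, Φ.InJ N y ∧ InH (Φ.v N) (Φ.v y) (Φ.v a) ∧ InH (Φ.v N) (Φ.v y) (Φ.v b)

def TA (N S : V) : Prop :=
  Φ.v S = - Φ.v N ∧ (∀ u : Fm K, u ≠ 0 → u (Φ.v N) = 0 → ∃ y, Φ.InJ N y ∧ 0 < u (Φ.v y)) ∧
    ∀ a b, ¬ Φ.Mer N a b → Φ.WallFin a b

def InP (u : Fm K) (lam : K) : Prop := ∀ a, u (Φ.v a) ≤ Φ.h a - lam

def Tight (u : Fm K) (lam : K) (a : V) : Prop := u (Φ.v a) = Φ.h a - lam

def Generic (x : V3 K) : Prop :=
  ∀ a b, detL (Φ.v a) (Φ.v b) ≠ 0 → det3 (Φ.v a) (Φ.v b) x ≠ 0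

/-- `a, b, c` is a basis, tight at `u`, with `x` in its cone. -/
def Good (x : V3 K) (u : Fm K) (lam : K) (a b c : V) : Prop :=
  det3 (Φ.v a) (Φ.v b) (Φ.v c) ≠ 0 ∧ Φ.Tight u lam a ∧ Φ.Tight u lam b ∧ Φ.Tight u lam c ∧
    ∃ r s t : K, 0 ≤ r ∧ 0 ≤ s ∧ 0 ≤ t ∧ x = r • Φ.v a + s • Φ.v b + t • Φ.v c

def Rel (lam : K) (s : Finset V) (u : Fm K) : Prop :=
  (∃ a b c, det3 (Φ.v a) (Φ.v b) (Φ.v c) ≠ 0 ∧ Φ.Tight u lam a ∧ Φ.Tight u lam b ∧
    Φ.Tight u lam c) ∧ (∀ i, Φ.Tight u lam i → Φ.FinF s (Φ.v i)) ∧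
    ∀ i ∈ s, BO (Φ.h i - u (Φ.v i)) lam

def Eqv (lam : K) : Fm K → Fm K → Prop :=
  Relation.EqvGen (fun u u' => ∃ s ∈ Φ.F, Φ.Rel lam s u ∧ Φ.Rel lam s u')

end Fan

/-- A fan with hyperintegral rays. -/
structure HFan (K V : Type) [Field K] [LinearOrder K] [IsStrictOrderedRing K] [Fintype V]
    [DecidableEq V] extends Fan K V where
  hf : HF K
  vZ : ∀ a i, v a i ∈ hf.Z

/-- The output of the parametric linear program. -/
structure LPD {K V : Type} [Field K] [LinearOrder K] [IsStrictOrderedRing K] [Fintype V]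
    [DecidableEq V] (Φ : Fan K V) where
  lam : K
  U : Set (Fm K)
  t : V → K
  pos : 0 < lam
  fin : U.Finite
  ne : U.Nonempty
  inP : ∀ u ∈ U, Φ.InP u lam
  t_nonneg : ∀ a, 0 ≤ t a
  t_ne : ∃ a, t a ≠ 0
  t_rel : ∑ a, t a • Φ.v a = 0
  t_tight : ∀ u ∈ U, ∀ a, t a ≠ 0 → Φ.Tight u lam a
  rel : ∀ s ∈ Φ.F, ∀ y, Φ.InOpen s y → ∀ u, SMax U y u → Φ.Rel lam s u

/-- A presentation over `K` of a standard lattice with standard cubic and linear form. -/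
structure HP (K V I : Type) [Field K] [LinearOrder K] [IsStrictOrderedRing K] [Fintype V]
    [DecidableEq V] [Fintype I] [DecidableEq I] extends HFan K V where
  D : V → I → K
  mu : Tri K (I → K)
  p : (I → K) →ₗ[K] K
  sym : Sym3 mu
  muZ : ∀ i j k, ∃ n : ℤ, mu (Pi.single i 1) (Pi.single j 1) (Pi.single k 1) = n
  pZ : ∀ i, ∃ n : ℤ, p (Pi.single i 1) = n
  DZ : ∀ a i, D a i ∈ hf.Z
  onto : ∀ i, ∃ y : V → K, (∀ a, y a ∈ hf.Z) ∧ Pi.single i 1 = ∑ a, y a • D a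
  ker : ∀ x : V → K, ∑ a, x a • D a = 0 ↔ ∃ u : Fm K, ∀ a, x a = u (v a)
  mface : ∀ a b c, a ≠ b → a ≠ c → b ≠ c →
    mu (D a) (D b) (D c) = if ({a, b, c} : Finset V) ∈ F then 1 else 0
  mnadj : ∀ a b, a ≠ b → ¬ toFan.adj a b → mu (D a) (D b) = 0
  pdef : ∀ x, p x = ∑ a, mu (D a) (D a) x

namespace HP

variable {K V I : Type} [Field K] [LinearOrder K] [IsStrictOrderedRing K] [Fintype V]
  [DecidableEq V] [Fintype I] [DecidableEq I] (P : HP K V I)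

/-- The class with the given coefficients. -/
def cl (x : V → K) : I → K := ∑ a, x a • P.D a

def H : I → K := P.cl P.h

def cc : I → K := ∑ a, P.D a

def m3 (a b c : V) : K := P.mu (P.D a) (P.D b) (P.D c)

def ep (d : Derivation ℚ K K) (a : V) : I → K := dv d (P.D a)

def c3 : K := P.mu P.cc P.cc P.cc

/-- The span of the classes of a set of vertices. -/
def sp (A : Set V) : Submodule K (I → K) := Submodule.span K (P.D '' A)

end HP

end Pool.Agent.P.MP_33ab4b_ag.T
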