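import Pool.Agent.P.MP_33ab4b_ag.T.Defs

/-!
Axis data (sectors, chains, pulled back classes) and plane data.
-/

set_option autoImplicit false

namespace Pool.Agent.P.MP_33ab4b_ag.T

open scoped Classical

variable {K V I : Type} [Field K] [LinearOrder K] [IsStrictOrderedRing K] [Fintype V]
  [DecidableEq V] [Fintype I] [DecidableEq I]

/-! ### Axis: sectors -/

/-- Sectors and coordinates about an axis. `J` is the set of top vertices of all straight half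
planes; `be j a` and `et a` are the coordinates of the ray `a` in its sector. -/
structure TA0 (Φ : HFan K V) where
  N : V
  S : V
  J : Finset V
  nx : V → V
  pv : V → V
  be : V → V → ℚ
  et : V → ℚ
  om : V → ℚ
  axis : Φ.v S = - Φ.v N
  Jdef : ∀ y, y ∈ J ↔ Φ.InJ N y
  cyc : Cyc (Φ.v N) Φ.v J nx pv
  opp : ∀ a ∈ J, ∀ b ∈ J, a ≠ b → det3 (Φ.v N) (Φ.v a) (Φ.v b) = 0 →
    ∃ t : K, Φ.v b = - Φ.v a + t • Φ.v N
  wf : ∀ a b, ¬ Φ.Mer N a b → Φ.WallFin a b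
  omdef : ∀ j ∈ J, det3 (Φ.v N) (Φ.v j) (Φ.v (nx j)) = om j
  coord : ∀ a, Φ.v a = ∑ j ∈ J, (be j a : K) • Φ.v j + (et a : K) • Φ.v N
  be_nonneg : ∀ j a, 0 ≤ be j a
  be_out : ∀ j, j ∉ J → ∀ a, be j a = 0
  beN : ∀ j, be j N = 0 ∧ be j S = 0
  etN : et N = 1 ∧ et S = -1
  beJ : ∀ j ∈ J, be j j = 1 ∧ et j = 0 ∧ ∀ i, i ≠ j → be i j = 0
  bepos : ∀ a, a ≠ N → a ≠ S → ∃ j ∈ J, 0 < be j a
  fsec : ∀ s ∈ Φ.F, ∃ j ∈ J, ∀ a ∈ s, ∀ i, i ≠ j → i ≠ nx j → be i a = 0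
  sfin : ∀ s ∈ Φ.F, ∀ j ∈ J, (∀ a ∈ s, ∀ i, i ≠ j → i ≠ nx j → be i a = 0) →
    ∀ b, (∀ i, i ≠ j → i ≠ nx j → be i b = 0) → Φ.FinF s (Φ.v b)

/-- The vertex `a` lies in the closed sector from `j` to `nx j`. -/
def TA0.sec {Φ : HFan K V} (T : TA0 Φ) (j a : V) : Prop :=
  ∀ i, i ≠ j → i ≠ T.nx j → T.be i a = 0

/-! ### Axis: chains -/

/-- Chains and interior vertices. -/
structure TAG (P : HP K V I) extends TA0 P.toHFan where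
  C : Finset V
  In : Finset V
  ch : V → V
  up : V → V
  dn : V → V
  bot : V → V
  cy : V → ℚ
  NS : N ≠ S
  NC : N ∉ C ∧ S ∉ C ∧ N ∉ In ∧ S ∉ In
  disj : ∀ a ∈ C, a ∉ In
  part : ∀ a, a = N ∨ a = S ∨ a ∈ C ∨ a ∈ In
  JC : ∀ j ∈ J, j ∈ C ∧ ch j = j
  chJ : ∀ y ∈ C, ch y ∈ J
  beC : ∀ y ∈ C, 0 < be (ch y) y ∧ ∀ j, j ≠ ch y → be j y = 0
  beI : ∀ i ∈ In, ∃ j ∈ J, (∀ k, k ≠ j → k ≠ nx j → be k i = 0) ∧ 0 < be j i ∧ 0 < be (nx j) i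
  upC : ∀ y ∈ C, P.adj y (up y) ∧ (up y = N ∨ (up y ∈ C ∧ ch (up y) = ch y ∧ dn (up y) = y))
  dnC : ∀ y ∈ C, P.adj y (dn y) ∧ (dn y = S ∨ (dn y ∈ C ∧ ch (dn y) = ch y ∧ up (dn y) = y))
  upN : ∀ y ∈ C, up y = N ↔ y = ch y
  botC : ∀ j ∈ J, bot j ∈ C ∧ ch (bot j) = j ∧ dn (bot j) = S ∧ be j (bot j) = 1
  dnS : ∀ y ∈ C, dn y = S → y = bot (ch y)
  detup : ∀ y ∈ C, be (ch y) y * et (up y) - be (ch y) (up y) * et y = 1
  detdn : ∀ y ∈ C, be (ch y) (dn y) * et y - be (ch y) y * et (dn y) = 1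
  cyv : ∀ y ∈ C, P.v (up y) + P.v (dn y) = (cy y : K) • P.v y
  cyb : ∀ y ∈ C, be (ch y) (up y) + be (ch y) (dn y) = cy y * be (ch y) y ∧
    et (up y) + et (dn y) = cy y * et y
  nbr : ∀ y ∈ C, ∀ a, P.adj y a → (a = N ∨ a = S ∨ (a ∈ C ∧ ch a = ch y)) → a = up y ∨ a = dn y
  chind : ∀ Q : V → Prop, ∀ j ∈ J, Q j → (∀ y ∈ C, ch y = j → Q y → dn y ∈ C → Q (dn y)) →
    ∀ y ∈ C, ch y = j → Q y
  adjN : ∀ a, P.adj N a → a ∈ J ∨ a ∈ In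
  adjS : ∀ a, P.adj S a → (a ∈ C ∧ dn a = S) ∨ a ∈ In
  nadj : ¬ P.adj N S
  both : ∀ a, P.adj N a → P.adj S a → a ∈ J ∧ bot a = a
  merw : ∀ a b, P.adj a b → P.Mer N a b →
    (a ∈ C ∧ (b = up a ∨ b = dn a)) ∨ (b ∈ C ∧ (a = up b ∨ a = dn b))
  stdw : ∀ a b, P.adj a b →
    ¬ ((a ∈ C ∧ (b = up a ∨ b = dn a)) ∨ (b ∈ C ∧ (a = up b ∨ a = dn b))) → Std (P.m3 a a b)
  stdT : ∀ i ∈ In, Std (P.m3 i i i)

namespace TAG

variable {P : HP K V I} (T : TAG P)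

/-- The pulled back tent class of the ray `j`. -/
def Bj (j : V) : I → K := P.cl (fun a => (T.be j a : K))

def B : Submodule K (I → K) := Submodule.span K (T.Bj '' (T.J : Set V))

def q (x y : I → K) : K := P.mu x y (P.D T.N)

def W0 : Submodule K (I → K) := P.sp (T.In : Set V)

def Pm : Submodule K (I → K) := T.B ⊔ T.W0

/-- The height class: coefficients `et` on the vertices other than the poles. -/
noncomputable def eta : I → K := P.cl (fun a => if a = T.N ∨ a = T.S then 0 else (T.et a : K))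

noncomputable def Phi : I → K := P.D T.S - P.D T.N - T.eta

/-- The chain of `j` has more than one vertex. -/
def Red (j : V) : Prop := T.bot j ≠ j

end TAG

/-- The intersection numbers of the pulled back classes. -/
structure TAA {P : HP K V I} (T : TAG P) where
  z : (I → K) →ₗ[K] K
  f : V → (I → K) →ₗ[K] K
  zN : z (P.D T.N) = 1 ∧ z (P.D T.S) = 1
  z0 : ∀ a, a ≠ T.N → a ≠ T.S → z (P.D a) = 0
  fD : ∀ y ∈ T.C, ∀ a, f y (P.D a) = (if a = T.up y then 1 else 0) + (if a = T.dn y then 1 else 0)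
    - (if a = y then (T.cy y : K) else 0)
  BI : ∀ b ∈ T.B, ∀ i ∈ T.In, P.mu b (P.D i) = 0
  BC : ∀ b ∈ T.B, ∀ y ∈ T.C, P.mu b (P.D y) = T.q b (T.Bj (T.ch y)) • f y
  BB : ∀ b ∈ T.B, ∀ b' ∈ T.B, P.mu b b' = T.q b b' • z
  nd : ∀ b ∈ T.B, (∀ j ∈ T.J, T.q b (T.Bj j) = 0) → b = 0
  qnx : ∀ j ∈ T.J, T.q (T.Bj j) (T.Bj (T.nx j)) = 1 / (T.om j : K)
  qfar : ∀ j ∈ T.J, ∀ i ∈ T.J, i ≠ j → i ≠ T.nx j → i ≠ T.pv j → T.q (T.Bj j) (T.Bj i) = 0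
  qself : ∀ j ∈ T.J, T.q (T.Bj j) (T.Bj j) = - cA (P.v T.N) P.v T.nx T.pv j
  PhiB : T.Phi ∈ T.B
  qPhi : ∀ j ∈ T.J, det3 (P.v (T.pv j)) (P.v j) (P.v (T.nx j)) = 0 → T.q T.Phi (T.Bj j) = 0
  span : ∀ x, ∃ b ∈ T.B, ∃ c : V → K, (∀ a, (a = T.S ∨ a ∈ T.J) → c a = 0) ∧ x = b + P.cl c
  indep : ∀ c : V → K, (∀ a, (a = T.S ∨ a ∈ T.J) → c a = 0) → P.cl c ∈ T.B → c = 0
  Bind : ∀ j ∈ T.J, ∀ s : V → K, s j = 0 → s (T.nx j) = 0 → ∑ i ∈ T.J, s i • T.Bj i = 0 →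
    ∀ i ∈ T.J, s i = 0
  Brel : ∀ u : Fm K, u (P.v T.N) = 0 → ∑ j ∈ T.J, u (P.v j) • T.Bj j = 0
  radW : ∀ w, z w = 0 → (∀ y ∈ T.C, f y w = 0) → w ∈ T.Pm
  fsum : ∀ j ∈ T.J, ∀ x, ∑ y ∈ T.C.filter (fun y => T.ch y = j), (T.be j y : K) * f y x = z x

namespace TAA

variable {P : HP K V I} {T : TAG P} (A : TAA T)

def H1 : Prop := ∀ d : Derivation ℚ K K, ∀ y ∈ T.C, A.z (P.ep d y) = 0

/-- The fibre class is standard, `B` and `W0` are stable, reducible tent classes are standard. -/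
def Stab : Prop :=
  (∀ i, Std (A.z (Pi.single i 1))) ∧ (∀ d : Derivation ℚ K K, ∀ b ∈ T.B, dv d b ∈ T.B) ∧
    (∀ d : Derivation ℚ K K, ∀ i ∈ T.In, P.ep d i ∈ T.W0) ∧
    ∀ j ∈ T.J, T.Red j → ∀ i, Std (T.Bj j i)

/-- The chain of `j` carries a vertex on whose fibre class `x` does not vanish. -/
def XiCh (x : I → K) (j : V) : Prop := ∃ y ∈ T.C, T.ch y = j ∧ A.f y x ≠ 0

end TAA

/-! ### Straight planes -/

structure PLG (P : HP K V I) where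
  l : Fm K
  X : Finset V
  nx : V → V
  pv : V → V
  ku : V → V
  kl : V → V
  k0 : V
  cx : V → K
  memX : ∀ a, a ∈ X ↔ l (P.v a) = 0
  lZ : ∀ a, l (P.v a) ∈ P.hf.Z
  str : ∀ a b, P.adj a b → ¬ (0 < l (P.v a) ∧ l (P.v b) < 0)
  k01 : l (P.v k0) = 1
  cyc : Cyc (P.v k0) P.v X nx pv
  card3 : 3 ≤ X.card
  w1 : ∀ x ∈ X, det3 (P.v k0) (P.v x) (P.v (nx x)) = 1
  opp : ∀ x ∈ X, ∀ y ∈ X, x ≠ y → det3 (P.v k0) (P.v x) (P.v y) = 0 → P.v y = - P.v x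
  adjX : ∀ x ∈ X, ∀ y ∈ X, P.adj x y ↔ (y = nx x ∨ y = pv x)
  nxne : ∀ x ∈ X, nx x ≠ x ∧ nx x ≠ pv x
  kuf : ∀ x ∈ X, P.face x (nx x) (ku x) ∧ l (P.v (ku x)) = 1
  klf : ∀ x ∈ X, P.face x (nx x) (kl x) ∧ l (P.v (kl x)) = -1
  cxv : ∀ x ∈ X, P.v (nx x) + P.v (pv x) = cx x • P.v x
  ldet : ∀ x y : V3 K, l x = 0 → l y = 0 → ∀ k : V3 K, det3 k x y = l k * det3 (P.v k0) x y

namespace PLG

variable {P : HP K V I} (G : PLG P)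

/-- The fibre class of the plane. -/
def fc : I → K := P.cl (fun a => max (G.l (P.v a)) 0)

def Kf : Submodule K (I → K) := P.sp {a | a ∉ G.X}

def w (x y : V3 K) : K := det3 (P.v G.k0) x y

/-- `k` lies in the radical of the cubic form restricted to `Kf`. -/
def Rad (k : I → K) : Prop :=
  k ∈ G.Kf ∧ ∀ a b, a ∉ G.X → b ∉ G.X → P.mu k (P.D a) (P.D b) = 0

/-- An axis in the plane. -/
def Ax (N S : V) : Prop := N ∈ G.X ∧ S ∈ G.X ∧ P.v S = - P.v N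

def Beta : Prop :=
  ∃ N S a a' b, G.Ax N S ∧ a ≠ a' ∧ P.adj a N ∧ P.adj a S ∧ P.adj a' N ∧ P.adj a' S ∧
    P.adj b N ∧ P.adj b S ∧
    ((0 < G.l (P.v a) ∧ 0 < G.l (P.v a') ∧ G.l (P.v b) < 0) ∨
      (G.l (P.v a) < 0 ∧ G.l (P.v a') < 0 ∧ 0 < G.l (P.v b)))

/-- Walls outside the plane are finite. -/
def Wf : Prop := ∀ a b, (a ∉ G.X ∨ b ∉ G.X) → P.WallFin a b

/-- The skew matrix of a derivation on the plane vertices. -/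
def Gm (d : Derivation ℚ K K) (x y : V) : K := P.mu G.fc (P.ep d x) (P.D y)

end PLG

structure PLA {P : HP K V I} (G : PLG P) : Prop where
  fc_lo : G.fc = P.cl (fun a => max (- G.l (P.v a)) 0)
  fc_mem : G.fc ∈ G.Kf
  fD0 : ∀ a, a ∉ G.X → P.mu G.fc (P.D a) = 0
  fXX : ∀ x ∈ G.X, ∀ y ∈ G.X, P.mu G.fc (P.D x) (P.D y) =
    if x = y then - G.cx x else if P.adj x y then 1 else 0
  nd : ∀ y, (∀ x ∈ G.X, P.mu G.fc y (P.D x) = 0) → y ∈ G.Kf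
  def0 : ∀ k ∈ G.Kf, P.mu P.H k k = 0 → ∃ c : K, k = c • G.fc
  ind : ∀ x0 ∈ G.X, ∀ c : V → K, (∀ a, (a ∉ G.X ∨ a = x0 ∨ a = G.nx x0) → c a = 0) →
    P.cl c ∈ G.Kf → c = 0

/-- Standard coordinates when the walls outside the plane are finite; the shear is
`w0 • v x0 + w1 • v (nx x0)`. -/
structure TPF {P : HP K V I} (G : PLG P) where
  x0 : V
  s0 : V → ℚ
  s1 : V → ℚ
  lq : V → ℚ
  w0 : K
  w1 : K
  hx0 : x0 ∈ G.X
  lqv : ∀ a, G.l (P.v a) = lq a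
  coord : ∀ a, P.v a = (s0 a : K) • P.v x0 + (s1 a : K) • P.v (G.nx x0) + (lq a : K) • P.v (G.ku x0)
    + ((max (- lq a) 0 : ℚ) : K) • (w0 • P.v x0 + w1 • P.v (G.nx x0))
  wZ : w0 ∈ P.hf.Z ∧ w1 ∈ P.hf.Z
  stdm : ∀ a b c, (a ∉ G.X ∨ b ∉ G.X ∨ c ∉ G.X) → Std (P.m3 a b c)
  stdc : ∀ x ∈ G.X, Std (G.cx x)
  mXX : ∀ x ∈ G.X,
    Std (P.m3 x x (G.nx x) + G.w (w0 • P.v x0 + w1 • P.v (G.nx x0)) (P.v (G.nx x))) ∧
    Std (P.m3 (G.nx x) (G.nx x) x + G.w (P.v x) (w0 • P.v x0 + w1 • P.v (G.nx x0)))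

namespace TPF

variable {P : HP K V I} {G : PLG P} (R : TPF G)

/-- The three vertices that are left out of the basis. -/
def Out (a : V) : Prop := a = R.x0 ∨ a = G.nx R.x0 ∨ a = G.ku R.x0

/-- The endomorphism given by a derivation in the basis of the remaining vertices. -/
structure IsE (d : Derivation ℚ K K) (E : (I → K) →ₗ[K] (I → K)) : Prop where
  Ef : E G.fc = 0
  EK : ∀ k ∈ G.Kf, E k ∈ G.Kf
  Eb : ∀ a, ¬ R.Out a → E (P.D a) = P.ep d a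
  Ea : ∀ a, ∃ c : K, P.ep d a = E (P.D a) + c • G.fc
  inv : ∀ x y, ∀ k ∈ G.Kf, rho E P.mu x y k = 0
  pK : ∀ k ∈ G.Kf, P.p (E k) = 0

/-- A derivation split into a symmetry `s`, a multiple of the fibre class and a remainder of the
size `r`. -/
structure Split (d : Derivation ℚ K K) (r : K) where
  s : (I → K) →ₗ[K] (I → K)
  lam : V → K
  E' : V → V → K
  sinv : ∀ x y z, rho s P.mu x y z = 0
  sK : ∀ x, s x ∈ G.Kf
  eq : ∀ a, P.ep d a = s (P.D a) + P.cl (E' a) + lam a • G.fc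
  supp : ∀ a b, R.Out b → E' a b = 0
  small : ∀ a b, BO (E' a b) r

end TPF

end Pool.Agent.P.MP_33ab4b_ag.T
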