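import Pool.Agent.P.MP_33ab4b_ag.T.IfaceP

/-! Assembly, ultrapower reduction and the cohomology ring. -/

set_option autoImplicit false

namespace Pool.Agent.P.MP_33ab4b_ag.T

open scoped Classical

-- deps: STRUCT FINC TG1 TG2 TA2 ST1 ST2 ST8 RHO1 R4 PL1 PL2 DICH TPB TPF G34 G5A G5B END TPE
def S_KMAIN : Prop :=
  ∀ (K V I : Type) [Field K] [LinearOrder K] [IsStrictOrderedRing K] [Fintype V] [DecidableEq V]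
    [Fintype I] [DecidableEq I] (P : HP K V I), Std P.c3

-- deps:
def S_QFAN : Prop :=
  ∀ (m : ℕ) (S : SPFan m), ∃ Φ : Fan ℚ (Fin m), (∀ a i, Φ.v a i = (S.v a i : ℚ)) ∧ Φ.F = S.F

-- deps: QFAN
def S_RANK : Prop :=
  ∀ (m : ℕ) (S : SPFan m) (b : ℕ) (mu : Fin b → Fin b → Fin b → ℤ) (p : Fin b → ℤ)
    (Z : ZPres S b mu p), m = b + 3 ∧
    ∀ x : Fin m → ℚ, (∀ i, ∑ a, x a * (Z.D a i : ℚ) = 0) ↔
      ∃ u : Fin 3 → ℚ, ∀ a, x a = ∑ i, u i * (S.v a i : ℚ)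

-- deps: HFQ QFAN RANK KMAIN
def S_CORE : Prop :=
  ∀ (b : ℕ) (mu : Fin b → Fin b → Fin b → ℤ) (p : Fin b → ℤ),
    (∀ i j k, mu i j k = mu j i k) → (∀ i j k, mu i j k = mu i k j) →
    {n : ℤ | ∃ (m : ℕ) (S : SPFan m) (Z : ZPres S b mu p),
      n = tri mu (∑ a, Z.D a) (∑ a, Z.D a) (∑ a, Z.D a)}.Finite

-- deps: QFAN UNIQ WALL LINK
def S_DEG : Prop :=
  ∀ (m : ℕ) (S : SPFan m), ∃ M : Fin m → Fin m → Fin m → ℤ,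
    (∀ a b c, M a b c = M b a c) ∧ (∀ a b c, M a b c = M a c b) ∧
    (∀ a b c, a ≠ b → a ≠ c → b ≠ c →
      M a b c = if ({a, b, c} : Finset (Fin m)) ∈ S.F then 1 else 0) ∧
    (∀ a b, a ≠ b → (∀ s ∈ S.F, ¬ (a ∈ s ∧ b ∈ s)) → ∀ c, M a b c = 0) ∧
    ∀ i b c, ∑ a, S.v a i * M a b c = 0

-- deps:
def S_RG1 : Prop :=
  ∀ (m : ℕ) (S : SPFan m) (M : Fin m → Fin m → Fin m → ℤ),
    (∀ a b c, M a b c = M b a c) → (∀ a b c, M a b c = M a c b) →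
    (∀ a b c, a ≠ b → a ≠ c → b ≠ c →
      M a b c = if ({a, b, c} : Finset (Fin m)) ∈ S.F then 1 else 0) →
    (∀ a b, a ≠ b → (∀ s ∈ S.F, ¬ (a ∈ s ∧ b ∈ s)) → ∀ c, M a b c = 0) →
    (∀ i b c, ∑ a, S.v a i * M a b c = 0) →
    ∃ deg : S.Coh →+ ℤ, ∀ a b c, deg (S.x a * S.x b * S.x c) = M a b c

-- deps: QFAN WALL PATH
def S_RG2 : Prop :=
  ∀ (m : ℕ) (S : SPFan m), ∀ s ∈ S.F, ∀ a b c, ∃ n : ℤ, S.x a * S.x b * S.x c = n • ∏ i ∈ s, S.x i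

-- deps:
def S_RG3 : Prop :=
  ∀ (m : ℕ) (S : SPFan m) (y : Fin m → ℤ),
    ∑ a, y a • S.x a = 0 ↔ ∃ u : Fin 3 → ℤ, ∀ a, y a = u ⬝ᵥ S.v a

-- deps: CORE DEG RG1 RG2 RG3
def S_Main : Prop :=
  ∀ (R : Type) [CommRing R] (L : AddSubgroup R) (p : R),
    {n : ℤ | ∃ (m : ℕ) (S : SPFan m) (φ : S.Coh ≃+* R),
      S.H2.map φ.toAddMonoidHom = L ∧ φ S.p1 = p ∧ S.IsC1Cube n}.Finite

end Pool.Agent.P.MP_33ab4b_ag.T
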