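import Pool.Agent.P.MP_33ab4b_ag.T.IfaceT

/-! Straight planes. -/

set_option autoImplicit false

namespace Pool.Agent.P.MP_33ab4b_ag.T

open scoped Classical

-- deps: UNIQ WALL NX FRB
def S_PL1 : Prop :=
  ∀ (K V I : Type) [Field K] [LinearOrder K] [IsStrictOrderedRing K] [Fintype V] [DecidableEq V]
    [Fintype I] [DecidableEq I] (P : HP K V I) (l : Fm K), P.StrPlane l →
    ∃ G : PLG P, ∃ c : K, 0 < c ∧ G.l = c • l

-- deps:
def S_FLIP : Prop :=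
  ∀ (K V I : Type) [Field K] [LinearOrder K] [IsStrictOrderedRing K] [Fintype V] [DecidableEq V]
    [Fintype I] [DecidableEq I] (P : HP K V I) (G : PLG P),
    ∃ G' : PLG P, G'.l = - G.l ∧ G'.X = G.X ∧ G'.nx = G.pv ∧ G'.pv = G.nx ∧ G'.cx = G.cx ∧
      (PLA G → G'.fc = G.fc ∧ PLA G')

-- deps: ZAR PATH WREL
def S_PL2 : Prop :=
  ∀ (K V I : Type) [Field K] [LinearOrder K] [IsStrictOrderedRing K] [Fintype V] [DecidableEq V]
    [Fintype I] [DecidableEq I] (P : HP K V I) (G : PLG P), PLA G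

-- deps: LINK WREL
def S_LOC : Prop :=
  ∀ (K V I : Type) [Field K] [LinearOrder K] [IsStrictOrderedRing K] [Fintype V] [DecidableEq V]
    [Fintype I] [DecidableEq I] (P : HP K V I) (G : PLG P) (b : V) (g : V → K) (Y : Finset V),
    b ∉ G.X → (∀ x ∈ Y, x ∈ G.X ∧ P.adj b x ∧ g x = 0) →
    (∀ c, P.adj b c → c ∉ Y → P.mu (P.cl g) (P.D b) (P.D c) = 0) →
    ∀ x ∈ Y, P.mu (P.cl g) (P.D b) (P.D x) ≠ 0 →
      ∃ x' ∈ Y, P.v x' = - P.v x ∧ ∀ y ∈ Y, y ≠ x → y ≠ x' → P.mu (P.cl g) (P.D b) (P.D y) = 0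

-- deps: UNIQ
def S_AXU : Prop :=
  ∀ (K V I : Type) [Field K] [LinearOrder K] [IsStrictOrderedRing K] [Fintype V] [DecidableEq V]
    [Fintype I] [DecidableEq I] (P : HP K V I) (G : PLG P),
    (∀ a a' N S N' S', a ≠ a' → 0 < G.l (P.v a) → 0 < G.l (P.v a') → G.Ax N S → G.Ax N' S' →
      P.adj a N → P.adj a S → P.adj a' N' → P.adj a' S' →
      (N' = N ∧ S' = S) ∨ (N' = S ∧ S' = N)) ∧
    ∀ a a' N S, a ≠ a' → 0 < G.l (P.v a) → 0 < G.l (P.v a') → G.Ax N S → P.adj a' N → P.adj a' S →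
      P.adj a N → det3 (P.v N) (P.v a') (P.v a) ≠ 0 ∧ ∀ x ∈ G.X, P.adj a x →
        0 ≤ det3 (P.v N) (P.v a') (P.v a) * det3 (P.v N) (P.v a') (P.v x)

-- deps: LOC AXU
def S_RADU : Prop :=
  ∀ (K V I : Type) [Field K] [LinearOrder K] [IsStrictOrderedRing K] [Fintype V] [DecidableEq V]
    [Fintype I] [DecidableEq I] (P : HP K V I) (G : PLG P) (_A : PLA G) (k : V → K),
    (∀ a, ¬ 0 < G.l (P.v a) → k a = 0) →
    (∀ a b, 0 < G.l (P.v a) → 0 < G.l (P.v b) → P.mu (P.cl k) (P.D a) (P.D b) = 0) →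
    (∃ c : K, P.cl k = c • G.fc) ∨
    ∃ N S, G.Ax N S ∧ ∃ α : V → K,
      (∀ a, 0 < G.l (P.v a) → ∀ c, P.mu (P.cl k) (P.D a) (P.D c) =
        α a * ((if c = N then 1 else 0) + (if c = S then 1 else 0))) ∧
      (∀ a, 0 < G.l (P.v a) → α a ≠ 0 → P.adj a N ∧ P.adj a S) ∧
      ∃ a a', a ≠ a' ∧ 0 < G.l (P.v a) ∧ 0 < G.l (P.v a') ∧ α a ≠ 0 ∧ α a' ≠ 0

-- deps: FLIP LOC AXU RADU
def S_DICH : Prop :=
  ∀ (K V I : Type) [Field K] [LinearOrder K] [IsStrictOrderedRing K] [Fintype V] [DecidableEq V]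
    [Fintype I] [DecidableEq I] (P : HP K V I) (G : PLG P) (_A : PLA G) (d : Derivation ℚ K K),
    (∃ c : K, dv d G.fc = c • G.fc) ∨ G.Beta

-- deps: UNIQ TOP
def S_TPB : Prop :=
  ∀ (K V I : Type) [Field K] [LinearOrder K] [IsStrictOrderedRing K] [Fintype V] [DecidableEq V]
    [Fintype I] [DecidableEq I] (P : HP K V I) (G : PLG P), G.Wf → G.Beta →
    ∃ N S, P.TA N S ∧ ∀ J : Finset V, (∀ y, y ∈ J ↔ P.InJ N y) → 5 ≤ J.card

-- deps: UNIQ FRB PL1 PL2 DICH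
def S_R4 : Prop :=
  ∀ (K V I : Type) [Field K] [LinearOrder K] [IsStrictOrderedRing K] [Fintype V] [DecidableEq V]
    [Fintype I] [DecidableEq I] (P : HP K V I) (T : TAG P), T.J.card = 4 → ∀ j ∈ T.J,
    det3 (P.v T.N) (P.v (T.pv j)) (P.v (T.nx j)) = 0 →
    (∃ d : Derivation ℚ K K, ¬ ∃ c : K, dv d (T.Bj j) = c • T.Bj j) →
    ∃ G : PLG P, G.Wf ∧ G.Beta

-- deps: WALL PATH FRB WREL
def S_TPF : Prop :=
  ∀ (K V I : Type) [Field K] [LinearOrder K] [IsStrictOrderedRing K] [Fintype V] [DecidableEq V]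
    [Fintype I] [DecidableEq I] (P : HP K V I) (G : PLG P), G.Wf → ∀ x0 ∈ G.X,
    ∃ R : TPF G, R.x0 = x0 ∧ (Fi R.w0 → Fi R.w1 → P.FIN)

-- deps: STD
def S_TPE : Prop :=
  ∀ (K V I : Type) [Field K] [LinearOrder K] [IsStrictOrderedRing K] [Fintype V] [DecidableEq V]
    [Fintype I] [DecidableEq I] (P : HP K V I) (G : PLG P) (_A : PLA G) (R : TPF G),
    (∀ d : Derivation ℚ K K, ∃ c : K, dv d G.fc = c • G.fc) →
    (∀ d : Derivation ℚ K K, dv d G.fc = 0) ∧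
    (∀ d : Derivation ℚ K K, ∃ E, R.IsE d E) ∧
    (∀ c : V → K, (∀ a, R.Out a → c a = 0) → P.cl c = 0 → c = 0) ∧
    (∀ x, ∃ c : V → K, (∀ a, R.Out a → c a = 0) ∧ x = P.cl c) ∧
    ∀ d : Derivation ℚ K K, (∀ x ∈ G.X, ∀ y ∈ G.X, G.Gm d x y = - G.Gm d y x) ∧
      ∀ x ∈ G.X, ∑ y ∈ G.X, G.Gm d x y • P.v y = 0

-- deps: JC NIL2 FLIP AXU RADU
def S_VERT2 : Prop :=
  ∀ (K V I : Type) [Field K] [LinearOrder K] [IsStrictOrderedRing K] [Fintype V] [DecidableEq V]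
    [Fintype I] [DecidableEq I] (P : HP K V I) (G : PLG P) (_A : PLA G)
    (U : Module.End K (I → K)) (p : (I → K) →ₗ[K] K), (∀ x, U x ∈ G.Kf) → U G.fc = 0 →
    (∀ x y, ∀ k ∈ G.Kf, rho U P.mu x y k = 0) → (∀ k ∈ G.Kf, p (U k) = 0) →
    ∃ s n : Module.End K (I → K), U = s + n ∧ (∀ x y z, rho s P.mu x y z = 0) ∧
      (∀ x, p (s x) = 0) ∧ (∀ x, s x ∈ G.Kf) ∧ s G.fc = 0 ∧ (∀ x, G.Rad (n x)) ∧
      (G.X.card ≠ 4 → ∀ x, ∃ c : K, n x = c • G.fc)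

-- deps: STD
def S_G34 : Prop :=
  ∀ (K V I : Type) [Field K] [LinearOrder K] [IsStrictOrderedRing K] [Fintype V] [DecidableEq V]
    [Fintype I] [DecidableEq I] (P : HP K V I) (G : PLG P) (_A : PLA G),
    (∀ d : Derivation ℚ K K, dv d G.fc = 0) → (∀ x ∈ G.X, Std (G.cx x)) → G.X.card ≤ 4 →
    ∀ d : Derivation ℚ K K, ∀ x ∈ G.X, ∀ y ∈ G.X, G.Gm d x y = 0

-- deps: LINB TPE VERT2
def S_SPLIT : Prop :=
  ∀ (K V I : Type) [Field K] [LinearOrder K] [IsStrictOrderedRing K] [Fintype V] [DecidableEq V]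
    [Fintype I] [DecidableEq I] (P : HP K V I) (G : PLG P) (_A : PLA G) (R : TPF G),
    (∀ d : Derivation ℚ K K, ∃ c : K, dv d G.fc = c • G.fc) → 5 ≤ G.X.card →
    ∀ (d : Derivation ℚ K K) (r : K), (∀ x ∈ G.X, ∀ y ∈ G.X, BO (G.Gm d x y) r) →
    Nonempty (R.Split d r)

-- deps:
def S_TRI : Prop :=
  ∀ (K V I : Type) [Field K] [LinearOrder K] [IsStrictOrderedRing K] [Fintype V] [DecidableEq V]
    [Fintype I] [DecidableEq I] (P : HP K V I) (G : PLG P) (M : V → V → K), 5 ≤ G.X.card →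
    (∀ x ∈ G.X, ∀ y ∈ G.X, M x y = - M y x) → (∀ x ∈ G.X, ∑ y ∈ G.X, M x y • P.v y = 0) →
    (∀ x ∈ G.X, ∀ y ∈ G.X, x ≠ y → ¬ P.adj x y → M x y = 0) → ∀ x ∈ G.X, ∀ y ∈ G.X, M x y = 0

-- deps: LINB TPE SPLIT TRI
def S_G5A : Prop :=
  ∀ (K V I : Type) [Field K] [LinearOrder K] [IsStrictOrderedRing K] [Fintype V] [DecidableEq V]
    [Fintype I] [DecidableEq I] (P : HP K V I) (G : PLG P) (_A : PLA G) (_R : TPF G),
    (∀ d : Derivation ℚ K K, ∃ c : K, dv d G.fc = c • G.fc) → 5 ≤ G.X.card →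
    (∀ x ∈ G.X, ¬ Fi (P.m3 (G.nx x) (G.nx x) x)) →
    ∀ d : Derivation ℚ K K, ∀ x ∈ G.X, ∀ y ∈ G.X, G.Gm d x y = 0

/-- The linear form of the wall from `a` to `nx a`. -/
def sfm {K V I : Type} [Field K] [LinearOrder K] [IsStrictOrderedRing K] [Fintype V]
    [DecidableEq V] [Fintype I] [DecidableEq I] {P : HP K V I} {G : PLG P} (R : TPF G) (a : V)
    (y : V → K) : K :=
  (R.s1 (G.nx a) : K) * y a - (R.s1 a : K) * y (G.nx a)

/-- The walls that do not touch the line of `x0`. -/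
noncomputable def gen {K V I : Type} [Field K] [LinearOrder K] [IsStrictOrderedRing K] [Fintype V]
    [DecidableEq V] [Fintype I] [DecidableEq I] {P : HP K V I} {G : PLG P} (R : TPF G) :
    Finset V :=
  G.X.filter (fun a => R.s1 a ≠ 0 ∧ R.s1 (G.nx a) ≠ 0)

/-- The bend at the vertex `a`. -/
def bnd {K V I : Type} [Field K] [LinearOrder K] [IsStrictOrderedRing K] [Fintype V]
    [DecidableEq V] [Fintype I] [DecidableEq I] {P : HP K V I} (G : PLG P) (a : V)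
    (y : V → K) : K :=
  y (G.pv a) + y (G.nx a) - G.cx a * y a

/-- The opposite vertices of `x0` (at most one). -/
noncomputable def oppo {K V I : Type} [Field K] [LinearOrder K] [IsStrictOrderedRing K] [Fintype V]
    [DecidableEq V] [Fintype I] [DecidableEq I] {P : HP K V I} {G : PLG P} (R : TPF G) :
    Finset V :=
  G.X.filter (fun a => R.s1 a = 0 ∧ a ≠ R.x0)

/-- The quadratic form of the plane in diagonal shape. -/
noncomputable def qB {K V I : Type} [Field K] [LinearOrder K] [IsStrictOrderedRing K] [Fintype V]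
    [DecidableEq V] [Fintype I] [DecidableEq I] {P : HP K V I} {G : PLG P} (R : TPF G)
    (y y' : V → K) : K :=
  ∑ h ∈ oppo R, (y h * bnd G h y' + bnd G h y * y' h + G.cx h * y h * y' h) -
    ∑ a ∈ gen R, (1 / ((R.s1 a : K) * (R.s1 (G.nx a) : K))) * sfm R a y * sfm R a y'

/-- The coefficient of the shear in the cubic form. -/
noncomputable def pB {K V I : Type} [Field K] [LinearOrder K] [IsStrictOrderedRing K] [Fintype V]
    [DecidableEq V] [Fintype I] [DecidableEq I] {P : HP K V I} {G : PLG P} (R : TPF G)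
    (y y' y'' : V → K) : K :=
  ∑ h ∈ oppo R, (y h * y' h * bnd G h y'' + y h * bnd G h y' * y'' h + bnd G h y * y' h * y'' h +
    G.cx h * y h * y' h * y'' h) +
    ∑ a ∈ gen R, (1 / ((R.s1 a : K) * (R.s1 (G.nx a) : K))) * sfm R a y * sfm R a y' * sfm R a y''

-- deps: WREL
def S_PF : Prop :=
  ∀ (K V I : Type) [Field K] [LinearOrder K] [IsStrictOrderedRing K] [Fintype V] [DecidableEq V]
    [Fintype I] [DecidableEq I] (P : HP K V I) (G : PLG P) (_A : PLA G) (R : TPF G),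
    5 ≤ G.X.card → Std R.w1 →
    (∀ x ∈ G.X, ∀ y ∈ G.X, x ≠ R.x0 → y ≠ R.x0 →
      P.mu G.fc (P.D x) (P.D y) = qB R (Pi.single x 1) (Pi.single y 1)) ∧
    ∀ x ∈ G.X, ∀ y ∈ G.X, ∀ z ∈ G.X, x ≠ R.x0 → y ≠ R.x0 → z ≠ R.x0 →
      Std (P.m3 x y z - R.w0 * pB R (Pi.single x 1) (Pi.single y 1) (Pi.single z 1))

-- deps: INJ1 INJ2
def S_INJB : Prop :=
  ∀ (K V I : Type) [Field K] [LinearOrder K] [IsStrictOrderedRing K] [Fintype V] [DecidableEq V]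
    [Fintype I] [DecidableEq I] (P : HP K V I) (G : PLG P) (R : TPF G) (X0 : Finset V)
    (Γ : V → V → K) (l : V → K) (θ : K), 5 ≤ G.X.card →
    (∀ a, a ∈ X0 ↔ a ∈ G.X ∧ a ≠ R.x0 ∧ a ≠ G.nx R.x0) → (∀ x b, b ∉ X0 → Γ x b = 0) →
    (∀ x ∈ X0, ∀ y ∈ X0, qB R (Γ x) (Pi.single y 1) + qB R (Pi.single x 1) (Γ y) = 0) →
    (∀ x ∈ X0, ∀ y ∈ X0, ∀ z ∈ X0,
      pB R (Γ x) (Pi.single y 1) (Pi.single z 1) + pB R (Pi.single x 1) (Γ y) (Pi.single z 1) +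
      pB R (Pi.single x 1) (Pi.single y 1) (Γ z) +
      (l x * qB R (Pi.single y 1) (Pi.single z 1) + l y * qB R (Pi.single x 1) (Pi.single z 1) +
        l z * qB R (Pi.single x 1) (Pi.single y 1)) -
      θ * pB R (Pi.single x 1) (Pi.single y 1) (Pi.single z 1) = 0) →
    ∀ x ∈ X0, Γ x = 0

-- deps: LINB TPE SPLIT PF INJB
def S_G5B : Prop :=
  ∀ (K V I : Type) [Field K] [LinearOrder K] [IsStrictOrderedRing K] [Fintype V] [DecidableEq V]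
    [Fintype I] [DecidableEq I] (P : HP K V I) (G : PLG P) (_A : PLA G) (R : TPF G),
    (∀ d : Derivation ℚ K K, ∃ c : K, dv d G.fc = c • G.fc) → 5 ≤ G.X.card →
    Fi R.w1 → ¬ Fi R.w0 → ∀ d : Derivation ℚ K K, ∀ x ∈ G.X, ∀ y ∈ G.X, G.Gm d x y = 0

-- deps: FLIP RADU
def S_PRAD : Prop :=
  ∀ (K V I : Type) [Field K] [LinearOrder K] [IsStrictOrderedRing K] [Fintype V] [DecidableEq V]
    [Fintype I] [DecidableEq I] (P : HP K V I) (G : PLG P) (_A : PLA G), G.X.card = 4 →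
    ∀ k, G.Rad k → P.p k = 0

-- deps: TPE VERT2 PRAD
def S_END : Prop :=
  ∀ (K V I : Type) [Field K] [LinearOrder K] [IsStrictOrderedRing K] [Fintype V] [DecidableEq V]
    [Fintype I] [DecidableEq I] (P : HP K V I) (G : PLG P) (_A : PLA G) (_R : TPF G),
    (∀ d : Derivation ℚ K K, ∃ c : K, dv d G.fc = c • G.fc) →
    (∀ d : Derivation ℚ K K, ∀ x ∈ G.X, ∀ y ∈ G.X, G.Gm d x y = 0) → Std P.c3

end Pool.Agent.P.MP_33ab4b_ag.T
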