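import Pool.Agent.P.MP_33ab4b_ag.T.IfaceF

/-! The axis case. -/

set_option autoImplicit false

namespace Pool.Agent.P.MP_33ab4b_ag.T

open scoped Classical

-- deps: UNIQ NX TOP
def S_TG0 : Prop :=
  ∀ (K V : Type) [Field K] [LinearOrder K] [IsStrictOrderedRing K] [Fintype V] [DecidableEq V]
    (Φ : HFan K V) (N S : V) (J : Finset V), Φ.TA N S → (∀ y, y ∈ J ↔ Φ.InJ N y) →
    ∃ nx pv : V → V, Cyc (Φ.v N) Φ.v J nx pv ∧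
      (∀ a ∈ J, ∀ b ∈ J, a ≠ b → det3 (Φ.v N) (Φ.v a) (Φ.v b) = 0 →
        ∃ t : K, Φ.v b = - Φ.v a + t • Φ.v N) ∧
      ∀ s ∈ Φ.F, ∃ j ∈ J, (∀ a ∈ s, 0 ≤ det3 (Φ.v N) (Φ.v j) (Φ.v a) ∧
        0 ≤ det3 (Φ.v N) (Φ.v a) (Φ.v (nx j))) ∧ ∀ y, Φ.InOpen s y →
        0 < det3 (Φ.v N) (Φ.v j) y ∧ 0 < det3 (Φ.v N) y (Φ.v (nx j))

-- deps: UNIQ WALL PATH FRB TOP TG0
def S_TG1 : Prop :=
  ∀ (K V : Type) [Field K] [LinearOrder K] [IsStrictOrderedRing K] [Fintype V] [DecidableEq V]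
    (Φ : HFan K V) (N S : V), Φ.TA N S → ∃ T : TA0 Φ, T.N = N ∧ T.S = S

-- deps: UNIQ WALL FRB TOP WREL
def S_TG2 : Prop :=
  ∀ (K V I : Type) [Field K] [LinearOrder K] [IsStrictOrderedRing K] [Fintype V] [DecidableEq V]
    [Fintype I] [DecidableEq I] (P : HP K V I) (T0 : TA0 P.toHFan), ∃ T : TAG P, T.toTA0 = T0

-- deps: WALL WREL
def S_TA1 : Prop :=
  ∀ (K V I : Type) [Field K] [LinearOrder K] [IsStrictOrderedRing K] [Fintype V] [DecidableEq V]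
    [Fintype I] [DecidableEq I] (P : HP K V I) (T : TAG P),
    (∀ b ∈ T.B, ∀ a c, P.adj a c →
      ¬ ((a ∈ T.C ∧ (c = T.up a ∨ c = T.dn a)) ∨ (c ∈ T.C ∧ (a = T.up c ∨ a = T.dn c))) →
      P.mu b (P.D a) (P.D c) = 0) ∧
    (∀ b ∈ T.B, ∀ y ∈ T.C, P.mu b (P.D y) (P.D (T.up y)) = T.q b (T.Bj (T.ch y)) ∧
      P.mu b (P.D y) (P.D (T.dn y)) = T.q b (T.Bj (T.ch y))) ∧
    (∀ j ∈ T.J, T.q (T.Bj j) (T.Bj (T.nx j)) = 1 / (T.om j : K)) ∧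
    (∀ j ∈ T.J, ∀ i ∈ T.J, i ≠ j → i ≠ T.nx j → i ≠ T.pv j → T.q (T.Bj j) (T.Bj i) = 0) ∧
    ∀ j ∈ T.J, T.q (T.Bj j) (T.Bj j) = - cA (P.v T.N) P.v T.nx T.pv j

-- deps: PD1 TA1
def S_TA2 : Prop :=
  ∀ (K V I : Type) [Field K] [LinearOrder K] [IsStrictOrderedRing K] [Fintype V] [DecidableEq V]
    [Fintype I] [DecidableEq I] (P : HP K V I) (T : TAG P), Nonempty (TAA T)

-- deps: ZAR LINK WREL
def S_DEF0 : Prop :=
  ∀ (K V I : Type) [Field K] [LinearOrder K] [IsStrictOrderedRing K] [Fintype V] [DecidableEq V]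
    [Fintype I] [DecidableEq I] (P : HP K V I) (T : TAG P) (_A : TAA T),
    ∀ w ∈ T.W0, P.mu P.H w w = 0 → w = 0

-- deps: ZAR DEF0
def S_RAD0 : Prop :=
  ∀ (K V I : Type) [Field K] [LinearOrder K] [IsStrictOrderedRing K] [Fintype V] [DecidableEq V]
    [Fintype I] [DecidableEq I] (P : HP K V I) (T : TAG P) (_A : TAA T),
    ∀ w ∈ T.W0, (∀ i ∈ T.In, ∀ i' ∈ T.In, P.mu w (P.D i) (P.D i') = 0) → w = 0

-- deps:
def S_ST1 : Prop :=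
  ∀ (K V I : Type) [Field K] [LinearOrder K] [IsStrictOrderedRing K] [Fintype V] [DecidableEq V]
    [Fintype I] [DecidableEq I] (P : HP K V I) (T : TAG P) (A : TAA T),
    (5 ≤ T.J.card → A.H1) ∧
    (T.J.card = 4 → A.H1 ∨ ∃ j ∈ T.J, det3 (P.v T.N) (P.v (T.pv j)) (P.v (T.nx j)) = 0 ∧
      ∃ d : Derivation ℚ K K, ¬ ∃ c : K, dv d (T.Bj j) = c • T.Bj j)

-- deps: STD RAD0
def S_ST2 : Prop :=
  ∀ (K V I : Type) [Field K] [LinearOrder K] [IsStrictOrderedRing K] [Fintype V] [DecidableEq V]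
    [Fintype I] [DecidableEq I] (P : HP K V I) (T : TAG P) (A : TAA T), A.H1 → A.Stab

-- deps: STDSUB WREL
def S_ST3 : Prop :=
  ∀ (K V I : Type) [Field K] [LinearOrder K] [IsStrictOrderedRing K] [Fintype V] [DecidableEq V]
    [Fintype I] [DecidableEq I] (P : HP K V I) (T : TAG P) (A : TAA T), A.Stab →
    ∃ b0 ∈ T.B, (∀ i, Std (b0 i)) ∧
      ∀ j ∈ T.J, T.Red j → Std (T.q b0 (T.Bj j)) ∧ 0 < T.q b0 (T.Bj j)

-- deps: ZAR ST3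
def S_ST4 : Prop :=
  ∀ (K V I : Type) [Field K] [LinearOrder K] [IsStrictOrderedRing K] [Fintype V] [DecidableEq V]
    [Fintype I] [DecidableEq I] (P : HP K V I) (T : TAG P) (A : TAA T), A.Stab →
    ∀ d : Derivation ℚ K K, ∀ y ∈ T.C, P.ep d y ∈ T.Pm

-- deps: UNIQ
def S_CR0 : Prop :=
  ∀ (K V I : Type) [Field K] [LinearOrder K] [IsStrictOrderedRing K] [Fintype V] [DecidableEq V]
    [Fintype I] [DecidableEq I] (P : HP K V I) (T : TAG P), ∀ j ∈ T.J, ∀ j' ∈ T.J,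
    (j' = T.nx j ∨ j' = T.pv j) →
    (∀ y1 ∈ T.C, ∀ y2 ∈ T.C, T.ch y1 = j → T.ch y2 = j →
      T.et y2 / T.be j y2 < T.et y1 / T.be j y1 → ∀ k1 k2, 0 < T.be j' k1 → 0 < T.be j' k2 →
      P.adj y1 k1 → P.adj k1 T.S → P.adj y2 k2 → P.adj k2 T.N → k1 = k2) ∧
    (∀ y1 ∈ T.C, T.ch y1 = j → P.adj y1 j' → ∀ a b, P.adj a b →
      (∀ i, i ≠ j → i ≠ j' → T.be i a = 0) → (∀ i, i ≠ j → i ≠ j' → T.be i b = 0) →
      (0 < T.be j a ∨ 0 < T.be j b) → (0 < T.be j' a ∨ 0 < T.be j' b) →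
      ¬ (T.be j y1 * T.et a < T.be j a * T.et y1 ∧ T.be j b * T.et y1 < T.be j y1 * T.et b)) ∧
    ∀ y1 ∈ T.C, T.ch y1 = j → P.adj y1 j' → ∀ a, (∀ i, i ≠ j → i ≠ j' → T.be i a = 0) →
      0 < T.be j a → 0 < T.be j' a → T.be j y1 * T.et a ≠ T.be j a * T.et y1

-- deps: CR0
def S_CR : Prop :=
  ∀ (K V I : Type) [Field K] [LinearOrder K] [IsStrictOrderedRing K] [Fintype V] [DecidableEq V]
    [Fintype I] [DecidableEq I] (P : HP K V I) (T : TAG P) (A : TAA T) (x x' ψ : I → K)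
    (c : V → K), A.z x = 0 → (∀ y ∈ T.C, A.f y x = A.f y x') →
    (∀ a k, a ≠ T.N → ¬ P.adj T.N a → ¬ P.adj T.N k → P.mu x (P.D a) (P.D k) = 0) →
    (∀ a k, a ≠ T.S → ¬ P.adj T.S a → ¬ P.adj T.S k → P.mu x' (P.D a) (P.D k) = 0) →
    ψ ∈ T.B → (∀ a, (a = T.N ∨ a = T.S ∨ a ∈ T.J) → c a = 0) → x = ψ + P.cl c →
    (∀ j ∈ T.J, A.XiCh x j → T.q T.Phi (T.Bj j) = 0) ∧
    (∀ y ∈ T.C, ¬ A.XiCh x (T.ch y) → c y = 0) ∧
    (∀ y ∈ T.C, ∀ y' ∈ T.C, c y ≠ 0 → T.Red (T.ch y') → ¬ A.XiCh x (T.ch y') → ¬ P.adj y y') ∧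
    ∃ I2 : Finset V, I2 ⊆ T.In ∧ (∀ i ∈ T.In, i ∉ I2 → ∀ i' ∈ I2, ¬ P.adj i i') ∧
      (∀ i ∈ T.In, i ∉ I2 → ∀ y ∈ T.C, P.adj i y → c y = 0) ∧ (∀ i ∈ I2, ¬ P.adj T.N i) ∧
      ∀ i ∈ I2, ∀ y ∈ T.C, P.adj i y → A.XiCh x (T.ch y) ∨ ¬ T.Red (T.ch y)

-- deps: VERT DEF0 RAD0
def S_FM : Prop :=
  ∀ (K V I : Type) [Field K] [LinearOrder K] [IsStrictOrderedRing K] [Fintype V] [DecidableEq V]
    [Fintype I] [DecidableEq I] (P : HP K V I) (T : TAG P) (A : TAA T) (d : Derivation ℚ K K)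
    (ψ : I → K) (c : V → K) (I2 : Finset V), A.Stab → (∀ y ∈ T.C, P.ep d y ∈ T.Pm) →
    ψ ∈ T.B → (∀ a, (a = T.N ∨ a = T.S ∨ a ∈ T.J) → c a = 0) → P.ep d T.N = ψ + P.cl c →
    I2 ⊆ T.In → (∀ i ∈ T.In, i ∉ I2 → ∀ i' ∈ I2, ¬ P.adj i i') →
    (∀ i ∈ T.In, i ∉ I2 → ∀ y ∈ T.C, P.adj i y → c y = 0) →
    P.mu (P.cl (fun a => if a ∈ T.In ∧ a ∉ I2 then c a else 0)) (P.D T.N) (P.D T.N) = 0 ∧
    ∀ y ∈ T.C, y ∉ T.J →
      P.mu (P.cl (fun a => if a ∈ T.In ∧ a ∉ I2 then c a else 0)) (P.D y) (P.D y) = 0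

-- deps: STDSUB ST4 CR FM
def S_ST7 : Prop :=
  ∀ (K V I : Type) [Field K] [LinearOrder K] [IsStrictOrderedRing K] [Fintype V] [DecidableEq V]
    [Fintype I] [DecidableEq I] (P : HP K V I) (T : TAG P) (A : TAA T), A.Stab →
    ∀ d : Derivation ℚ K K,
      d (T.q T.Phi T.Phi) = 0 ∧ ∀ j ∈ T.J, T.Red j → d (T.q T.Phi (T.Bj j)) = 0

-- deps: WREL
def S_MW : Prop :=
  ∀ (K V I : Type) [Field K] [LinearOrder K] [IsStrictOrderedRing K] [Fintype V] [DecidableEq V]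
    [Fintype I] [DecidableEq I] (P : HP K V I) (T : TAG P) (_A : TAA T),
    (∀ y ∈ T.C,
      Std (P.m3 (T.up y) (T.up y) y + (T.be (T.ch y) y : K) * T.q T.Phi (T.Bj (T.ch y)) +
        (T.et y : K) * T.q (T.Bj (T.ch y)) (T.Bj (T.ch y))) ∧
      Std (P.m3 y y (T.up y) - (T.be (T.ch y) (T.up y) : K) * T.q T.Phi (T.Bj (T.ch y)) -
        (T.et (T.up y) : K) * T.q (T.Bj (T.ch y)) (T.Bj (T.ch y))) ∧
      Std (P.m3 (T.dn y) (T.dn y) y - (T.be (T.ch y) y : K) * T.q T.Phi (T.Bj (T.ch y)) -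
        (T.et y : K) * T.q (T.Bj (T.ch y)) (T.Bj (T.ch y))) ∧
      Std (P.m3 y y (T.dn y) + (T.be (T.ch y) (T.dn y) : K) * T.q T.Phi (T.Bj (T.ch y)) +
        (T.et (T.dn y) : K) * T.q (T.Bj (T.ch y)) (T.Bj (T.ch y))) ∧
      Std ((T.be (T.ch y) y : K) * P.m3 y y y + (T.be (T.ch y) (T.up y) : K) * P.m3 y y (T.up y) +
        (T.be (T.ch y) (T.dn y) : K) * P.m3 y y (T.dn y) +
        (T.cy y : K) * T.q (T.Bj (T.ch y)) (T.Bj (T.ch y)))) ∧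
    Std (P.m3 T.N T.N T.N - T.q T.Phi T.Phi) ∧
    Std (P.m3 T.S T.S T.S - T.q (T.Phi + ∑ j ∈ T.J, (T.et (T.bot j) : K) • T.Bj j)
      (T.Phi + ∑ j ∈ T.J, (T.et (T.bot j) : K) • T.Bj j))

-- deps: SL MW ST7
def S_ST8 : Prop :=
  ∀ (K V I : Type) [Field K] [LinearOrder K] [IsStrictOrderedRing K] [Fintype V] [DecidableEq V]
    [Fintype I] [DecidableEq I] (P : HP K V I) (T : TAG P) (A : TAA T), A.Stab → Std P.c3

-- deps: RHOA DEF0 RAD0 MW WREL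
def S_RHO1 : Prop :=
  ∀ (K V I : Type) [Field K] [LinearOrder K] [IsStrictOrderedRing K] [Fintype V] [DecidableEq V]
    [Fintype I] [DecidableEq I] (P : HP K V I) (T : TAG P) (_A : TAA T), T.J.card = 3 → P.FIN

end Pool.Agent.P.MP_33ab4b_ag.T
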