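import Pool.Agent.P.MP_33ab4b_ag.T.IfaceM

/-! From rings in the lowest universe to all rings. -/

set_option autoImplicit false

namespace Pool.Agent.P.MP_33ab4b_ag.T

theorem main_lift.{u} (hM : S_Main) (R : Type u) [CommRing R] (L : AddSubgroup R) (p : R) :
    {n : ℤ | ∃ (m : ℕ) (S : SPFan m) (φ : S.Coh ≃+* R),
      S.H2.map φ.toAddMonoidHom = L ∧ φ S.p1 = p ∧ S.IsC1Cube n}.Finite := by
  rcases Set.eq_empty_or_nonempty {n : ℤ | ∃ (m : ℕ) (S : SPFan m) (φ : S.Coh ≃+* R),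
      S.H2.map φ.toAddMonoidHom = L ∧ φ S.p1 = p ∧ S.IsC1Cube n} with h | ⟨_, m0, S0, φ0, hL0, hp0, -⟩
  · rw [h]; exact Set.finite_empty
  · refine (hM S0.Coh S0.H2 S0.p1).subset ?_
    rintro n ⟨m, S, φ, hL, hp, hn⟩
    refine ⟨m, S, φ.trans φ0.symm, ?_, ?_, hn⟩
    · ext z
      have e : φ0 z ∈ L ↔ z ∈ S0.H2 := by
        rw [← hL0]
        exact AddSubgroup.mem_map_iff_mem (f := φ0.toAddMonoidHom) φ0.injective
      rw [← e, ← hL]
      constructor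
      · rintro ⟨w, hw, rfl⟩
        exact ⟨w, hw, by simp⟩
      · rintro ⟨w, hw, e'⟩
        refine ⟨w, hw, ?_⟩
        have e2 : φ w = φ0 z := e'
        simp [e2]
    · simp [hp, ← hp0]

end Pool.Agent.P.MP_33ab4b_ag.T
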