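import Pool.Agent.P.MP_33ab4b_ag.T.IfaceF
import Pool.Agent.P.MP_33ab4b_ag.T.IfaceA
import Pool.Agent.P.MP_33ab4b_ag.T.LpB

/-! Step AX2. -/

set_option autoImplicit false
set_option linter.unusedSectionVars false

namespace Pool.Agent.P.MP_33ab4b_ag.T

open scoped Classical

namespace AX2x

variable {K V : Type} [Field K] [LinearOrder K] [IsStrictOrderedRing K] [Fintype V] [DecidableEq V]

/-- The perturbation property supplied by the step AXS. -/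
def Side (U : Set (Fm K)) (e y0 : V3 K) (s u : Fm K) : Prop :=
  ∀ r t : K, 0 < r → ∀ w : V3 K, 0 < s w → ∃ δ0 : K, 0 < δ0 ∧ ∀ δ, 0 < δ → δ < δ0 →
    SMax U (r • y0 + t • e + δ • w) u

theorem det_inH (e y x : V3 K) (r1 t1 r2 t2 : K) :
    det3 (r1 • y + t1 • e) (r2 • y + t2 • e) x = (t1 * r2 - r1 * t2) * det3 e y x := by
  simp only [det3, Pi.add_apply, Pi.smul_apply, smul_eq_mul]; ring

theorem side_rel (Φ : Fan K V) (D : LPD Φ) {e y0 : V3 K} {s u : Fm K} (hS : Side D.U e y0 s u)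
    {a b k : V} (hf : Φ.face a b k) (ha : InH e y0 (Φ.v a)) (hb : InH e y0 (Φ.v b))
    (hk : 0 < s (Φ.v k)) : Φ.Rel D.lam {a, b, k} u := by
  obtain ⟨r1, t1, h1, e1⟩ := ha
  obtain ⟨r2, t2, h2, e2⟩ := hb
  have hr : 0 < r1 + r2 := by
    rcases (add_nonneg h1 h2).eq_or_lt with h | h
    · exfalso
      have z1 : r1 = 0 := by linarith
      have z2 : r2 = 0 := by linarith
      apply hf.det_ne
      rw [e1, e2, det_inH, z1, z2]; ring
    · exact h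
  obtain ⟨δ0, h0, hδ⟩ := hS (r1 + r2) (t1 + t2) hr (Φ.v k) hk
  have hm := hδ (δ0 / 2) (by positivity) (by linarith)
  refine D.rel _ hf _ ?_ u hm
  have := lp_inOpen Φ hf one_pos one_pos (show 0 < δ0 / 2 by positivity)
  have e3 : (r1 + r2) • y0 + (t1 + t2) • e + (δ0 / 2) • Φ.v k =
      (1 : K) • Φ.v a + (1 : K) • Φ.v b + (δ0 / 2) • Φ.v k := by
    rw [e1, e2]; module
  rw [e3]
  exact this

theorem side_ne (Φ : Fan K V) {e y0 : V3 K} {a b k : V} (hf : Φ.face a b k)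
    (ha : InH e y0 (Φ.v a)) (hb : InH e y0 (Φ.v b)) : det3 e y0 (Φ.v k) ≠ 0 := by
  obtain ⟨r1, t1, -, e1⟩ := ha
  obtain ⟨r2, t2, -, e2⟩ := hb
  intro h
  apply hf.det_ne
  rw [e1, e2, det_inH, h, mul_zero]

theorem eqv_rel (Φ : Fan K V) {lam : K} {u u' : Fm K} (h : Φ.Eqv lam u u') :
    u = u' ∨ ((∃ s ∈ Φ.F, Φ.Rel lam s u) ∧ ∃ s ∈ Φ.F, Φ.Rel lam s u') := by
  induction h with
  | rel x y h =>
    obtain ⟨s, hs, h1, h2⟩ := h
    exact Or.inr ⟨⟨s, hs, h1⟩, ⟨s, hs, h2⟩⟩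
  | refl x => exact Or.inl rfl
  | symm x y _ ih =>
    rcases ih with h | h
    · exact Or.inl h.symm
    · exact Or.inr h.symm
  | trans x y z _ _ ih1 ih2 =>
    rcases ih1 with rfl | h1
    · exact ih2
    · rcases ih2 with rfl | h2
      · exact Or.inr h1
      · exact Or.inr ⟨h1.1, h2.2⟩

theorem conv_wall (Φ : Fan K V) {a b k l : V} (hk : Φ.face a b k) (hl : Φ.face a b l)
    (hkl : k ≠ l) (w : Fm K) {A B : K} (h : Φ.v k + Φ.v l = A • Φ.v a + B • Φ.v b) :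
    A * (Φ.h a - w (Φ.v a)) + B * (Φ.h b - w (Φ.v b)) <
      (Φ.h k - w (Φ.v k)) + (Φ.h l - w (Φ.v l)) := by
  obtain ⟨u, h1, h2⟩ := Φ.conv _ hk
  have ea := h1 a (by simp)
  have eb := h1 b (by simp)
  have ek := h1 k (by simp)
  have el := h2 l (by simp [hl.ne.2.1.symm, hl.ne.2.2.symm, hkl.symm])
  have q1 := congrArg u h
  have q2 := congrArg w h
  simp only [map_add, map_smul, smul_eq_mul] at q1 q2
  rw [ea, eb, ek] at q1
  linarith

theorem upper (Φ : Fan K V) {lam : K} (hlam : 0 < lam) {z P k l : V} (hk : Φ.face z P k)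
    (hl : Φ.face z P l) (hkl : k ≠ l) {uL uR s : Fm K} {c : K} (hP : Φ.Tight uR lam P)
    (hL : Φ.Rel lam {z, P, k} uL) (hR : Φ.Rel lam {z, P, l} uR) (hc : uL = uR + c • s)
    (hcb : BO c lam) (hs : Fi (s (Φ.v k))) {A B : K}
    (h : Φ.v k + Φ.v l = A • Φ.v z + B • Φ.v P) (hA : Fi A) : ∃ n : K, Fi n ∧ B ≤ n := by
  have key := conv_wall Φ hk hl hkl uR h
  have e1 : Φ.h P - uR (Φ.v P) = lam := by
    have : uR (Φ.v P) = Φ.h P - lam := hP
    linarith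
  have b1 : BO (Φ.h l - uR (Φ.v l)) lam := hR.2.2 l (by simp)
  have b2 : BO (Φ.h z - uR (Φ.v z)) lam := hR.2.2 z (by simp)
  have b3 : BO (Φ.h k - uL (Φ.v k)) lam := hL.2.2 k (by simp)
  have b4 : BO (Φ.h k - uR (Φ.v k)) lam := by
    refine (b3.add (hcb.mul_fi hs)).of_eq ?_
    rw [hc]
    simp only [LinearMap.add_apply, LinearMap.smul_apply, smul_eq_mul]
    ring
  have b5 := (b4.add b1).sub (b2.fi_mul hA)
  refine ⟨_, b5.fi_div, ?_⟩
  rw [le_div_iff₀ hlam]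
  rw [e1] at key
  linarith

theorem one_of_mul (hf : HF K) {r m : K} (hr : 0 < r) (hrZ : r ∈ hf.Z) (hm : m ∈ hf.Z)
    (h : r * m = 1) : r = 1 := by
  have h1 := hf.disc r hrZ hr
  have hm0 : 0 < m := by
    by_contra hc
    have : r * m ≤ 0 := mul_nonpos_of_nonneg_of_nonpos hr.le (not_lt.mp hc)
    linarith
  have h2 := hf.disc m hm hm0
  have : r * 1 ≤ r * m := mul_le_mul_of_nonneg_left h2 hr.le
  linarith

theorem detZ (Φ : HFan K V) (a b c : V) : det3 (Φ.v a) (Φ.v b) (Φ.v c) ∈ Φ.hf.Z :=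
  det3_mem _ (Φ.vZ a) (Φ.vZ b) (Φ.vZ c)

/-- The coefficient of `y` in the relation of the top wall is finite. -/
theorem top_A (hWALL : S_WALL) (hLINK : S_LINK) (hSL : S_SL) (Φ : HFan K V) {N y k l : V}
    (hk : Φ.face N y k) (hl : Φ.face N y l) (dk : det3 (Φ.v N) (Φ.v y) (Φ.v k) = 1)
    (dl : det3 (Φ.v N) (Φ.v y) (Φ.v l) = -1)
    (hopp : ∀ b, Φ.adj N b → ∀ r t : K, 0 < r → Φ.v b = (-r) • Φ.v y + t • Φ.v N →
      Φ.WallFin N b) : Fi (det3 (Φ.v N) (Φ.v l) (Φ.v k)) := by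
  obtain ⟨-, nx, pv, C, hnx, hpar⟩ := hLINK K V Φ.toFan N
  have hy : Φ.adj N y := hk.adj12
  have hcA : ∀ b, Φ.adj N b → Φ.face N b (nx b) ∧ Φ.face N b (pv b) ∧
      det3 (Φ.v N) (Φ.v b) (Φ.v (nx b)) = 1 ∧ det3 (Φ.v N) (Φ.v b) (Φ.v (pv b)) = -1 ∧
      cA (Φ.v N) Φ.v nx pv b = det3 (Φ.v N) (Φ.v (pv b)) (Φ.v (nx b)) := by
    intro b hb
    obtain ⟨-, m2, -, m4⟩ := C.mem b (Fan.mem_nbrs.mpr hb)
    obtain ⟨f1, d1⟩ := hnx b hb
    obtain ⟨f2, d2⟩ := hnx (pv b) (Fan.mem_nbrs.mp m2)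
    rw [m4] at f2 d2
    refine ⟨f1, f2.swap23, d1, by rw [det3_swap23, d2], ?_⟩
    simp only [cA, d1, d2, mul_one, div_one]
  obtain ⟨k0, l0, -, -, -, d1, d2, hu⟩ := hWALL K V Φ.toFan N y hy
  obtain ⟨f1, f2, g1, g2, g3⟩ := hcA y hy
  have ek : k = k0 := (hu k hk).resolve_right fun e => by
    rw [e, d2] at dk; norm_num at dk
  have el : l = l0 := (hu l hl).resolve_left fun e => by
    rw [e, d1] at dl; norm_num at dl
  have enx : nx y = k0 := (hu _ f1).resolve_right fun e => by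
    rw [e, d2] at g1; norm_num at g1
  have epv : pv y = l0 := (hu _ f2).resolve_left fun e => by
    rw [e, d1] at g2; norm_num at g2
  rw [enx, epv, ← ek, ← el] at g3
  rw [← g3]
  obtain ⟨s1, s2, -⟩ := hSL K Φ.hf V (Φ.v N) Φ.v (Φ.nbrs N) nx pv C (fun a _ b _ => detZ Φ N a b)
    (fun a ha => by rw [(hnx a (Fan.mem_nbrs.mp ha)).2]; exact Fi.one)
  by_cases hex : ∀ b ∈ Φ.nbrs N, b ≠ y → det3 (Φ.v N) (Φ.v y) (Φ.v b) ≠ 0
  · exact s1 y (Fan.mem_nbrs.mpr hy) hex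
  · push Not at hex
    obtain ⟨b, hb, hne, hd⟩ := hex
    have hb' := Fan.mem_nbrs.mp hb
    obtain ⟨r, t, hr, eb⟩ := hpar y b hy hb' hne.symm hd
    obtain ⟨f3, f4, g4, -, g5⟩ := hcA b hb'
    have q : ∀ x, det3 (Φ.v N) (Φ.v b) x = - r * det3 (Φ.v N) (Φ.v y) x := fun x => by
      rw [eb]
      simp only [det3, Pi.add_apply, Pi.smul_apply, smul_eq_mul]; ring
    have hrZ : r ∈ Φ.hf.Z := by
      have := Φ.hf.Z.neg_mem (detZ Φ N b k)
      rw [q, dk] at this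
      simpa using this
    have r1 : r = 1 := one_of_mul Φ.hf hr hrZ (Φ.hf.Z.neg_mem (detZ Φ N y (nx b))) (by
      rw [q] at g4; linarith)
    have w := hopp b hb' r t hr eb (nx b) (pv b) f3 f4
    have fb : Fi (cA (Φ.v N) Φ.v nx pv b) := by rw [g5]; exact w.2.1
    have := s2 y (Fan.mem_nbrs.mpr hy) b hb ⟨t, by rw [eb, r1]; module⟩
    exact (this.sub fb).of_eq (by ring)

end AX2x

theorem p_AX2 (hWALL : S_WALL) (hLINK : S_LINK) (hFRB : S_FRB) (hEQV : S_EQV) (hAXS : S_AXS) (hTOP : S_TOP) (hSL : S_SL) :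
    S_AX2 := by
  intro K V _ _ _ _ _ Φ D N S y1 s1 hax htN htS hnm hy1 hs1 hJ hE a b hab
  by_cases hM : Φ.Mer N a b
  swap
  · exact hnm a b hM
  obtain ⟨y, hy, ha, hb⟩ := hM
  obtain ⟨F1, F2, F3, F4, -, -, -, -, -, -⟩ := hFRB K V Φ
  have hEr : ∀ u, ∀ s ∈ Φ.F, ∀ s' ∈ Φ.F, Φ.Rel D.lam s u → Φ.Rel D.lam s' u → Φ.FinRel s s' :=
    fun u s hs s' hs' h1 h2 =>
      (hEQV K V Φ D.lam u u (Relation.EqvGen.refl u) s hs s' hs' h1 h2).1
  have hUe : ∀ u ∈ D.U, ∀ u' ∈ D.U, u (Φ.v N) = u' (Φ.v N) := fun u hu u' hu' => by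
    rw [D.t_tight u hu N htN, D.t_tight u' hu' N htN]
  have s1e : s1 (Φ.v N) = 0 := by rcases hs1 with e | e <;> simp [e]
  have s1y1 : s1 (Φ.v y1) = 0 := by rcases hs1 with e | e <;> simp [e]
  have s1H : ∀ z x, Φ.InJ N z → InH (Φ.v N) (Φ.v z) x → s1 x ≤ 0 := by
    rintro z x hz ⟨r, t, hr, rfl⟩
    simp only [map_add, map_smul, smul_eq_mul, s1e, mul_zero, add_zero]
    exact mul_nonpos_of_nonneg_of_nonpos hr (hJ z hz)
  have s1y : s1 (Φ.v y) < 0 := by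
    refine lt_of_le_of_ne (hJ y hy) fun h0 => ?_
    obtain ⟨r1, t1, -, e1⟩ := ha
    obtain ⟨r2, t2, -, e2⟩ := hb
    rcases hab with h | h
    · exact h (by rw [e1]; simp [h0, s1e])
    · exact h (by rw [e2]; simp [h0, s1e])
  have hN : ∀ z : V3 K, InH (Φ.v N) z (Φ.v N) := fun z => ⟨0, 1, le_rfl, by simp⟩
  have hz : ∀ z : V3 K, InH (Φ.v N) z z := fun z => ⟨1, 0, zero_le_one, by simp⟩
  -- the width of `U` in the direction `y1`
  have hW : ∀ u ∈ D.U, ∀ u' ∈ D.U, BO (u (Φ.v y1) - u' (Φ.v y1)) D.lam := by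
    obtain ⟨k, l, -, fk, fl, dk, dl, -⟩ := hWALL K V Φ.toFan N y1 hy1.1
    obtain ⟨k1, f1, p1⟩ : ∃ k1, Φ.face N y1 k1 ∧ 0 < s1 (Φ.v k1) := by
      rcases hs1 with e | e
      · exact ⟨k, fk, by rw [e, detL_apply, dk]; exact one_pos⟩
      · exact ⟨l, fl, by rw [e, LinearMap.neg_apply, detL_apply, dl]; norm_num⟩
    have n1 : detL (Φ.v N) (Φ.v y1) ≠ 0 := fun h => by
      have : detL (Φ.v N) (Φ.v y1) (Φ.v k) = 0 := by rw [h]; rfl
      rw [detL_apply, dk] at this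
      exact one_ne_zero this
    have n2 : detL (Φ.v N) (-Φ.v y1) ≠ 0 := fun h => by
      have : detL (Φ.v N) (-Φ.v y1) (Φ.v k) = 0 := by rw [h]; rfl
      have e : det3 (Φ.v N) (-Φ.v y1) (Φ.v k) = - det3 (Φ.v N) (Φ.v y1) (Φ.v k) := by
        simp only [det3, Pi.neg_apply]; ring
      rw [detL_apply, e, dk] at this
      norm_num at this
    have n3 : s1 ≠ 0 := fun h => by
      rw [h] at p1
      exact lt_irrefl _ p1
    obtain ⟨u1, m1, x1, -, z1⟩ := hAXS K D.U (Φ.v N) (Φ.v y1) s1 D.fin D.ne hUe n1 n3 s1e s1y1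
    obtain ⟨u2, m2, x2, -, z2⟩ := hAXS K D.U (Φ.v N) (-Φ.v y1) s1 D.fin D.ne hUe n2 n3 s1e
      (by rw [map_neg, s1y1, neg_zero])
    have R1 : Φ.Rel D.lam {N, y1, k1} u1 := AX2x.side_rel Φ.toFan D z1 f1 (hN _) (hz _) p1
    obtain ⟨δ1, p2, w1⟩ := z1 1 0 one_pos (Φ.v k1) p1
    obtain ⟨δ2, p3, w2⟩ := z2 1 0 one_pos (Φ.v k1) p1
    have hq : Φ.Eqv D.lam u1 u2 := by
      refine hE _ _ u1 u2 ?_ ?_ (w1 (δ1 / 2) (by positivity) (by linarith))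
        (w2 (δ2 / 2) (by positivity) (by linarith))
      · simp only [map_add, map_smul, smul_eq_mul, s1e, s1y1, mul_zero, zero_add]
        positivity
      · simp only [map_add, map_smul, map_neg, smul_eq_mul, s1e, s1y1, neg_zero, mul_zero, zero_add]
        positivity
    obtain ⟨s', hs', R2⟩ : ∃ s' ∈ Φ.F, Φ.Rel D.lam s' u2 := by
      rcases AX2x.eqv_rel Φ.toFan hq with e | h
      · exact ⟨_, f1, e ▸ R1⟩
      · exact h.2
    have hb := (hEQV K V Φ D.lam u1 u2 hq _ f1 s' hs' R1 R2).2 (Φ.v y1) (F2 _ f1 y1 (by simp))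
    intro u hu u' hu'
    refine hb.mono ?_
    have i1 := x1 u hu
    have i2 := x1 u' hu'
    have i3 := x2 u hu
    have i4 := x2 u' hu'
    simp only [map_neg] at i3 i4
    rw [abs_of_nonneg (show 0 ≤ u1 (Φ.v y1) - u2 (Φ.v y1) by linarith), abs_le]
    constructor <;> linarith
  -- the two sides of the half plane of `y`
  obtain ⟨k, l, hkl, fk, fl, dk, dl, -⟩ := hWALL K V Φ.toFan N y hy.1
  have n1 : detL (Φ.v N) (Φ.v y) ≠ 0 := fun h => by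
    have : detL (Φ.v N) (Φ.v y) (Φ.v k) = 0 := by rw [h]; rfl
    rw [detL_apply, dk] at this
    exact one_ne_zero this
  obtain ⟨uL, mL, xL, cL, zL⟩ := hAXS K D.U (Φ.v N) (Φ.v y) (detL (Φ.v N) (Φ.v y)) D.fin D.ne hUe
    n1 n1 (by simp) (by simp)
  obtain ⟨uR, mR, xR, -, zR⟩ := hAXS K D.U (Φ.v N) (Φ.v y) (- detL (Φ.v N) (Φ.v y)) D.fin D.ne hUe
    n1 (neg_ne_zero.mpr n1) (by simp) (by simp)
  obtain ⟨c, -, hc⟩ := cL uR mR (le_antisymm (xL uR mR) (xR uL mL))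
  have hcb : BO c D.lam := by
    refine (hW uL mL uR mR).mono ?_
    have d0 : det3 (Φ.v N) (Φ.v y) (Φ.v y1) ≠ 0 := fun h => by
      rw [det3_swap23, neg_eq_zero] at h
      rcases hs1 with e | e <;> simp [e, h] at s1y
    have d1 := Φ.hf.one_le_abs (AX2x.detZ Φ N y y1) d0
    have e : uL (Φ.v y1) - uR (Φ.v y1) = c * det3 (Φ.v N) (Φ.v y) (Φ.v y1) := by
      rw [hc]
      simp only [LinearMap.add_apply, LinearMap.smul_apply, smul_eq_mul, detL_apply]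
      ring
    rw [e, abs_mul]
    exact le_mul_of_one_le_right (abs_nonneg _) d1
  have RL : ∀ p q m, Φ.face p q m → InH (Φ.v N) (Φ.v y) (Φ.v p) → InH (Φ.v N) (Φ.v y) (Φ.v q) →
      0 < det3 (Φ.v N) (Φ.v y) (Φ.v m) → Φ.Rel D.lam {p, q, m} uL :=
    fun p q m f hp hq h => AX2x.side_rel Φ.toFan D zL f hp hq h
  have RR : ∀ p q m, Φ.face p q m → InH (Φ.v N) (Φ.v y) (Φ.v p) → InH (Φ.v N) (Φ.v y) (Φ.v q) →
      det3 (Φ.v N) (Φ.v y) (Φ.v m) < 0 → Φ.Rel D.lam {p, q, m} uR :=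
    fun p q m f hp hq h => AX2x.side_rel Φ.toFan D zR f hp hq (by simpa using h)
  have pk : 0 < det3 (Φ.v N) (Φ.v y) (Φ.v k) := by rw [dk]; exact one_pos
  have pl : det3 (Φ.v N) (Φ.v y) (Φ.v l) < 0 := by rw [dl]; norm_num
  have Rk := RL N y k fk (hN _) (hz _) pk
  have Rl := RR N y l fl (hN _) (hz _) pl
  -- the top wall
  have hA : Fi (det3 (Φ.v N) (Φ.v l) (Φ.v k)) := by
    refine AX2x.top_A hWALL hLINK hSL Φ fk fl dk dl fun b' _ r t hr eb => hnm N b' ?_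
    rintro ⟨z, hz', -, h2⟩
    have := s1H z _ hz' h2
    rw [eb] at this
    simp only [map_add, map_smul, smul_eq_mul, s1e, mul_zero, add_zero] at this
    nlinarith
  have vtop : Φ.v k + Φ.v l = det3 (Φ.v N) (Φ.v l) (Φ.v k) • Φ.v y +
      det3 (Φ.v l) (Φ.v y) (Φ.v k) • Φ.v N := by
    have := cramer (Φ.v N) (Φ.v y) (Φ.v k) (Φ.v l)
    rw [dk, dl] at this
    linear_combination (norm := module) this
  obtain ⟨nU, hnU, hBU⟩ := AX2x.upper Φ.toFan D.pos fk.swap12 fl.swap12 hkl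
    (D.t_tight uR mR N htN) (RL y N k fk.swap12 (hz _) (hN _) pk)
    (RR y N l fl.swap12 (hz _) (hN _) pl) hc hcb (by rw [detL_apply, dk]; exact Fi.one) vtop hA
  -- the bottom wall
  obtain ⟨y', ay', r, t, hr, ey'⟩ := ((hTOP K V Φ.toFan N S hax).2.2.1 (Φ.v y) n1 hy.2).2
  obtain ⟨k', l', hkl', fk', fl', dk', dl', -⟩ := hWALL K V Φ.toFan S y' ay'
  have q : ∀ x, det3 (Φ.v S) (Φ.v y') x = - r * det3 (Φ.v N) (Φ.v y) x := fun x => by
    rw [ey', hax]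
    simp only [det3, Pi.add_apply, Pi.smul_apply, Pi.neg_apply, smul_eq_mul]; ring
  have hrZ : r ∈ Φ.hf.Z := by
    have := Φ.hf.Z.neg_mem (AX2x.detZ Φ S y' k)
    rw [q, dk] at this
    simpa using this
  have r1 : r = 1 := AX2x.one_of_mul Φ.hf hr hrZ (AX2x.detZ Φ N y l') (by
    rw [q] at dl'; linarith)
  rw [q, r1] at dk' dl'
  have dk2 : det3 (Φ.v N) (Φ.v y) (Φ.v k') = -1 := by linarith
  have dl2 : det3 (Φ.v N) (Φ.v y) (Φ.v l') = 1 := by linarith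
  have hS : InH (Φ.v N) (Φ.v y) (Φ.v S) := ⟨0, -1, le_rfl, by rw [hax]; simp⟩
  have hy' : InH (Φ.v N) (Φ.v y) (Φ.v y') := ⟨r, t, hr.le, ey'⟩
  have Rl' := RL y' S l' fl'.swap12 hy' hS (by rw [dl2]; exact one_pos)
  have Rk' := RR y' S k' fk'.swap12 hy' hS (by rw [dk2]; norm_num)
  have G1 := hEr uL _ fk _ fl'.swap12 Rk Rl'
  have G2 := hEr uR _ fl _ fk'.swap12 Rl Rk'
  obtain ⟨a1, a2, -⟩ := G1 l' (by simp) N y k rfl
  obtain ⟨a3, -, -⟩ := G1 y' (by simp) N y k rfl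
  obtain ⟨a4, a5, -⟩ := G2 k' (by simp) N y l rfl
  have ht : Fi t := by
    refine a3.of_eq ?_
    have : det3 (Φ.v y') (Φ.v y) (Φ.v k) = t * det3 (Φ.v N) (Φ.v y) (Φ.v k) := by
      rw [ey']
      simp only [det3, Pi.add_apply, Pi.smul_apply, smul_eq_mul]; ring
    rw [this, dk, mul_one]
  have vbot : Φ.v l' + Φ.v k' =
      (det3 (Φ.v N) (Φ.v l) (Φ.v k) + det3 (Φ.v N) (Φ.v l') (Φ.v k) -
        det3 (Φ.v N) (Φ.v k') (Φ.v l)) • Φ.v y' +
      ((det3 (Φ.v N) (Φ.v l) (Φ.v k) + det3 (Φ.v N) (Φ.v l') (Φ.v k) -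
        det3 (Φ.v N) (Φ.v k') (Φ.v l)) * t - det3 (Φ.v l') (Φ.v y) (Φ.v k) +
        det3 (Φ.v k') (Φ.v y) (Φ.v l) - det3 (Φ.v l) (Φ.v y) (Φ.v k)) • Φ.v S := by
    have c1 := cramer (Φ.v N) (Φ.v y) (Φ.v k) (Φ.v l')
    have c2 := cramer (Φ.v N) (Φ.v y) (Φ.v l) (Φ.v k')
    rw [dk, dl2] at c1
    rw [dl, dk2] at c2
    rw [ey', hax, r1]
    linear_combination (norm := module) c1 - c2 + vtop
  have hA' := (hA.add a2).sub a5
  obtain ⟨nL, hnL, hBL⟩ := AX2x.upper Φ.toFan D.pos fl'.swap12 fk'.swap12 hkl'.symm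
    (D.t_tight uR mR S htS) Rl' Rk' hc hcb (by rw [detL_apply, dl2]; exact Fi.one) vbot hA'
  have hB : Fi (det3 (Φ.v l) (Φ.v y) (Φ.v k)) :=
    Fi.of_le_of_le ((((hA'.mul ht).sub a1).add a4).sub hnL) hnU (by linarith) hBU
  have Gtop : Φ.FinRel {N, y, k} {N, y, l} := by
    intro i hi
    simp only [Finset.mem_insert, Finset.mem_singleton] at hi
    rcases hi with e | e | e
    · exact F2 _ fk i (by simp [e])
    · exact F2 _ fk i (by simp [e])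
    · rw [e]
      exact F1 N y k fk _ ⟨hB, hA, by rw [dl]; exact Fi.one.neg⟩
  have Gall : ∀ m, Φ.face a b m → Φ.FinRel {N, y, k} {a, b, m} := by
    intro m f
    rcases lt_or_gt_of_ne (AX2x.side_ne Φ.toFan f ha hb) with h | h
    · exact fun i hi => F4 _ fk _ fl Gtop _ (hEr uR _ fl _ f Rl (RR a b m f ha hb h) i hi)
    · exact hEr uL _ fk _ f Rk (RL a b m f ha hb h)
  intro m m' f f'
  exact F4 _ f _ fk (F3 _ fk _ f (Gall m f)) _ (Gall m' f' m' (by simp)) a b m rfl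

end Pool.Agent.P.MP_33ab4b_ag.T
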