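import Pool.Agent.P.MP_33ab4b_ag.T.IfaceP

/-! Step FLIP. -/

set_option autoImplicit false

namespace Pool.Agent.P.MP_33ab4b_ag.T

open scoped Classical

namespace FLIPx

variable {K V I : Type} [Field K] [LinearOrder K] [IsStrictOrderedRing K] [Fintype V]
  [DecidableEq V] [Fintype I] [DecidableEq I] {P : HP K V I}

theorem orb_rev {e : V3 K} {v : V → V3 K} {A : Finset V} {nx pv : V → V} (C : Cyc e v A nx pv)
    (Q : V → Prop) (a : V) (ha : a ∈ A) (hQ : Q a) (hs : ∀ b ∈ A, Q b → Q (pv b)) :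
    ∀ b ∈ A, Q b := by
  refine C.orb Q a ha hQ ?_
  intro b hb hQb
  have hsurj : Set.SurjOn pv (A.filter Q : Finset V) (A.filter Q : Finset V) := by
    refine Finset.surjOn_of_injOn_of_card_le pv ?_ ?_ le_rfl
    · intro c hc
      simp only [Finset.coe_filter, Set.mem_setOf_eq] at hc ⊢
      exact ⟨(C.mem c hc.1).2.1, hs c hc.1 hc.2⟩
    · intro c hc d hd h
      simp only [Finset.coe_filter, Set.mem_setOf_eq] at hc hd
      rw [← (C.mem c hc.1).2.2.2, h, (C.mem d hd.1).2.2.2]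
  obtain ⟨c, hc, e1⟩ := hsurj (show b ∈ ((A.filter Q : Finset V) : Set V) by
    simp only [Finset.coe_filter, Set.mem_setOf_eq]; exact ⟨hb, hQb⟩)
  simp only [Finset.coe_filter, Set.mem_setOf_eq] at hc
  rw [← e1, (C.mem c hc.1).2.2.2]
  exact hc.2

theorem det_flip (G : PLG P) {k x y : V3 K} (hk : G.l k = -1) (hx : G.l x = 0) (hy : G.l y = 0) :
    det3 k x y = det3 (P.v G.k0) y x := by
  rw [G.ldet x y hx hy k, hk, det3_swap23 (P.v G.k0) x y]; ring

theorem cyc_flip (G : PLG P) {k : V3 K} (hk : G.l k = -1) : Cyc k P.v G.X G.pv G.nx := by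
  have C := G.cyc
  have hl : ∀ a ∈ G.X, G.l (P.v a) = 0 := fun a ha => (G.memX a).1 ha
  refine ⟨fun a ha => ⟨(C.mem a ha).2.1, (C.mem a ha).1, (C.mem a ha).2.2.2, (C.mem a ha).2.2.1⟩,
    C.ne, fun Q a ha hQ hs => orb_rev C Q a ha hQ hs, ?_, ?_, ?_, ?_⟩
  · intro a ha
    have hp := (C.mem a ha).2.1
    rw [det_flip G hk (hl a ha) (hl _ hp)]
    have := C.pos _ hp
    rwa [(C.mem a ha).2.2.2] at this
  · intro a ha b hb h
    have hp := (C.mem a ha).2.1
    rw [det_flip G hk (hl a ha) (hl b hb), det_flip G hk (hl b hb) (hl _ hp)] at h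
    have := C.nob _ hp b hb
    rw [(C.mem a ha).2.2.2] at this
    exact this ⟨h.2, h.1⟩
  · intro x hx
    set x' : V3 K := x + G.l x • k with hx'
    have hl' : G.l x' = 0 := by
      rw [hx', map_add, map_smul, hk, smul_eq_mul]; ring
    have e1 : ∀ y, det3 k y x = det3 k y x' := by
      intro y; simp only [hx', det3, Pi.add_apply, Pi.smul_apply, smul_eq_mul]; ring
    have e2 : ∀ y, det3 k x y = det3 k x' y := by
      intro y; simp only [hx', det3, Pi.add_apply, Pi.smul_apply, smul_eq_mul]; ring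
    have hne : ∀ t : K, x' ≠ t • P.v G.k0 := by
      intro t ht
      have h0 : t = 0 := by
        have := congrArg G.l ht
        rw [hl', map_smul, G.k01, smul_eq_mul, mul_one] at this
        exact this.symm
      rw [h0, zero_smul, hx'] at ht
      refine hx (- G.l x) ?_
      rw [neg_smul]; exact eq_neg_of_add_eq_zero_left ht
    obtain ⟨b, hb, h1, h2⟩ := C.cov x' hne
    have hn := (C.mem b hb).1
    have hp := (C.mem b hb).2.1
    rcases h1.lt_or_eq with h1 | h1
    · refine ⟨G.nx b, hn, ?_, ?_⟩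
      · rw [e1, det_flip G hk (hl _ hn) hl']; exact h2.le
      · rw [(C.mem b hb).2.2.1, e2, det_flip G hk hl' (hl b hb)]; exact h1
    · refine ⟨b, hb, ?_, ?_⟩
      · rw [e1, det_flip G hk (hl b hb) hl', det3_swap23, ← h1]; simp
      · rw [e2, det_flip G hk hl' (hl _ hp)]
        have w1 := G.w1 b hb
        have w2 := G.w1 _ hp
        rw [(C.mem b hb).2.2.2] at w2
        have pl : det3 (P.v G.k0) (P.v (G.pv b)) x' * det3 (P.v G.k0) (P.v b) (P.v (G.nx b)) =
            det3 (P.v G.k0) (P.v (G.pv b)) (P.v b) * det3 (P.v G.k0) x' (P.v (G.nx b)) +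
            det3 (P.v G.k0) (P.v (G.pv b)) (P.v (G.nx b)) * det3 (P.v G.k0) (P.v b) x' := by
          simp only [det3]; ring
        rw [w1, w2, ← h1, mul_one, one_mul, mul_zero, add_zero] at pl
        rw [pl]; exact h2
  · intro a ha b hb hab h
    rw [det_flip G hk (hl a ha) (hl b hb), det3_swap23, neg_eq_zero] at h
    exact ⟨1, 0, one_pos, by rw [G.opp a ha b hb hab h]; simp⟩

/-- The plane data with the two sides exchanged. -/
noncomputable def flip (G : PLG P) (x0 : V) (h0 : x0 ∈ G.X) : PLG P where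
  l := - G.l
  X := G.X
  nx := G.pv
  pv := G.nx
  ku := fun x => G.kl (G.pv x)
  kl := fun x => G.ku (G.pv x)
  k0 := G.kl x0
  cx := G.cx
  memX := fun a => by rw [G.memX a, LinearMap.neg_apply, neg_eq_zero]
  lZ := fun a => by rw [LinearMap.neg_apply]; exact neg_mem (G.lZ a)
  str := fun a b h h' => by
    simp only [LinearMap.neg_apply] at h'
    exact G.str b a h.symm ⟨by linarith [h'.2], by linarith [h'.1]⟩
  k01 := by rw [LinearMap.neg_apply, (G.klf x0 h0).2, neg_neg]
  cyc := cyc_flip G (G.klf x0 h0).2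
  card3 := G.card3
  w1 := fun x hx => by
    have hp := (G.cyc.mem x hx).2.1
    rw [det_flip G (G.klf x0 h0).2 ((G.memX x).1 hx) ((G.memX _).1 hp)]
    have := G.w1 _ hp
    rwa [(G.cyc.mem x hx).2.2.2] at this
  opp := fun x hx y hy hxy h => by
    rw [det_flip G (G.klf x0 h0).2 ((G.memX x).1 hx) ((G.memX y).1 hy), det3_swap23,
      neg_eq_zero] at h
    exact G.opp x hx y hy hxy h
  adjX := fun x hx y hy => by rw [G.adjX x hx y hy, or_comm]
  nxne := fun x hx => by
    refine ⟨fun h => (G.nxne x hx).1 ?_, (G.nxne x hx).2.symm⟩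
    have := (G.cyc.mem x hx).2.2.2
    rwa [h] at this
  kuf := fun x hx => by
    have h := G.klf _ (G.cyc.mem x hx).2.1
    rw [(G.cyc.mem x hx).2.2.2] at h
    exact ⟨h.1.swap12, by rw [LinearMap.neg_apply, h.2, neg_neg]⟩
  klf := fun x hx => by
    have h := G.kuf _ (G.cyc.mem x hx).2.1
    rw [(G.cyc.mem x hx).2.2.2] at h
    exact ⟨h.1.swap12, by rw [LinearMap.neg_apply, h.2]⟩
  cxv := fun x hx => by rw [add_comm]; exact G.cxv x hx
  ldet := fun x y hx hy k => by
    rw [LinearMap.neg_apply, neg_eq_zero] at hx hy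
    rw [LinearMap.neg_apply, G.ldet x y hx hy k, G.ldet x y hx hy (P.v (G.kl x0)),
      (G.klf x0 h0).2]
    ring

end FLIPx

theorem p_FLIP :
    S_FLIP := by
  intro K V I _ _ _ _ _ _ _ P G
  obtain ⟨x0, h0⟩ := G.cyc.ne
  refine ⟨FLIPx.flip G x0 h0, rfl, rfl, rfl, rfl, rfl, fun A => ?_⟩
  have hf : (FLIPx.flip G x0 h0).fc = G.fc := A.fc_lo.symm
  refine ⟨hf, ⟨?_, ?_, ?_, ?_, ?_, ?_, ?_⟩⟩
  · rw [hf]
    show P.cl (fun a => max (G.l (P.v a)) 0) = P.cl (fun a => max (- (- G.l) (P.v a)) 0)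
    simp only [LinearMap.neg_apply, neg_neg]
  · rw [hf]; exact A.fc_mem
  · rw [hf]; exact A.fD0
  · rw [hf]; exact A.fXX
  · rw [hf]; exact A.nd
  · rw [hf]; exact A.def0
  · intro x hx c hc hK
    refine A.ind _ (G.cyc.mem x hx).2.1 c ?_ hK
    intro a ha
    rw [(G.cyc.mem x hx).2.2.2] at ha
    refine hc a ?_
    rcases ha with ha | ha | ha
    · exact Or.inl ha
    · exact Or.inr (Or.inr ha)
    · exact Or.inr (Or.inl ha)

end Pool.Agent.P.MP_33ab4b_ag.T
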