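import Pool.Agent.P.MP_33ab4b_ag.T.IfaceA
import Pool.Agent.P.MP_33ab4b_ag.Jc

/-! Step JC. -/

set_option autoImplicit false

namespace Pool.Agent.P.MP_33ab4b_ag.T

open scoped Classical

theorem p_JC :
    S_JC := by
  intro K _ _ _ L _ _ _ mu p U h2 hp
  obtain ⟨s, n, a1, a2, a3, a4, -, a6, a7, a8⟩ := jc mu p U h2 hp
  exact ⟨s, n, a1, a2, a3, a4, a6, fun x hx => (a7 x hx).2, a8⟩

end Pool.Agent.P.MP_33ab4b_ag.T
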