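import Pool.Agent.P.MP_33ab4b_ag.T.IfaceM
import Pool.Agent.P.MP_33ab4b_ag.T.IfaceF
import Pool.Agent.P.MP_33ab4b_ag.T.IfaceT
import Pool.Agent.P.MP_33ab4b_ag.T.IfaceP

/-! Step KMAIN. -/

set_option autoImplicit false

namespace Pool.Agent.P.MP_33ab4b_ag.T

open scoped Classical

theorem p_KMAIN (hSTRUCT : S_STRUCT) (hFINC : S_FINC) (hTG1 : S_TG1) (hTG2 : S_TG2) (hTA2 : S_TA2) (hST1 : S_ST1) (hST2 : S_ST2) (hST8 : S_ST8) (hRHO1 : S_RHO1) (hR4 : S_R4) (hPL1 : S_PL1) (hPL2 : S_PL2) (hDICH : S_DICH) (hTPB : S_TPB) (hTPF : S_TPF) (hG34 : S_G34) (hG5A : S_G5A) (hG5B : S_G5B) (hEND : S_END) (hTPE : S_TPE) :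
    S_KMAIN := by
  intro K V I _ _ _ _ _ _ _ P
  have mk : ∀ N S, P.TA N S → ∃ T : TAG P, T.N = N ∧ Nonempty (TAA T) := by
    intro N S h
    obtain ⟨T0, hN, _⟩ := hTG1 K V P.toHFan N S h
    obtain ⟨T, hT⟩ := hTG2 K V I P T0
    exact ⟨T, by rw [← hN, ← hT], hTA2 K V I P T⟩
  have main : ∀ (T : TAG P) (A : TAA T), A.H1 → Std P.c3 := fun T A h =>
    hST8 K V I P T A (hST2 K V I P T A h)
  have beta : ∀ G : PLG P, G.Wf → G.Beta → Std P.c3 := by
    intro G hW hB
    obtain ⟨N, S, hTA, h5⟩ := hTPB K V I P G hW hB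
    obtain ⟨T, hN, ⟨A⟩⟩ := mk N S hTA
    exact main T A ((hST1 K V I P T A).1 (h5 T.J fun y => by rw [← hN]; exact T.Jdef y))
  rcases hSTRUCT K V P.toHFan with h | ⟨l, hl, hw⟩ | ⟨N, S, h⟩
  · exact hFINC K V I P h
  · obtain ⟨G, c, hc, hG⟩ := hPL1 K V I P l hl
    have A := hPL2 K V I P G
    have hW : G.Wf := by
      intro a b hab
      refine hw a b ?_
      rw [G.memX, G.memX, hG] at hab
      simp only [LinearMap.smul_apply, smul_eq_mul, mul_eq_zero, hc.ne', false_or] at hab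
      exact hab
    by_cases hB : G.Beta
    · exact beta G hW hB
    have hf : ∀ d : Derivation ℚ K K, ∃ c : K, dv d G.fc = c • G.fc := fun d =>
      (hDICH K V I P G A d).resolve_right hB
    obtain ⟨x0, hx0⟩ := G.cyc.ne
    obtain ⟨R, _, _⟩ := hTPF K V I P G hW x0 hx0
    by_cases h4 : G.X.card ≤ 4
    · exact hEND K V I P G A R hf
        (hG34 K V I P G A (hTPE K V I P G A R hf).1 R.stdc h4)
    have h5 : 5 ≤ G.X.card := by omega
    by_cases hA : ∀ x ∈ G.X, ¬ Fi (P.m3 (G.nx x) (G.nx x) x)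
    · exact hEND K V I P G A R hf (hG5A K V I P G A R hf h5 hA)
    push Not at hA
    obtain ⟨m, hm, hfi⟩ := hA
    obtain ⟨R', hR', hfin⟩ := hTPF K V I P G hW m hm
    have hw1 : Fi R'.w1 := by
      have h1 := ((R'.mXX m hm).2.fi.sub hfi)
      have e : G.w (P.v m) (R'.w0 • P.v R'.x0 + R'.w1 • P.v (G.nx R'.x0)) = R'.w1 := by
        rw [hR']
        have := G.w1 m hm
        simp only [PLG.w, ← detL_apply, map_add, map_smul, smul_eq_mul] at this ⊢
        rw [this]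
        simp
      rw [e] at h1
      simpa using h1
    by_cases hw0 : Fi R'.w0
    · exact hFINC K V I P (hfin hw0 hw1)
    · exact hEND K V I P G A R' hf (hG5B K V I P G A R' hf h5 hw1 hw0)
  · obtain ⟨T, _, ⟨A⟩⟩ := mk N S h
    have h3 : 3 ≤ T.J.card := by
      obtain ⟨j, hj⟩ := T.cyc.ne
      obtain ⟨h1, h2, h3, h4⟩ := T.cyc.mem j hj
      have p1 := T.cyc.pos j hj
      have p2 := T.cyc.pos _ h2
      rw [h4] at p2
      have n1 : j ≠ T.nx j := fun e => by rw [← e] at p1; simp at p1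
      have n2 : T.pv j ≠ j := fun e => by rw [e] at p2; simp at p2
      have n3 : T.pv j ≠ T.nx j := fun e => by
        rw [e, det3_swap23] at p2; linarith
      have : ({T.pv j, j, T.nx j} : Finset V) ⊆ T.J := by
        intro x hx
        simp only [Finset.mem_insert, Finset.mem_singleton] at hx
        rcases hx with rfl | rfl | rfl <;> assumption
      have hc := Finset.card_le_card this
      rwa [Finset.card_eq_three.mpr ⟨_, _, _, n2, n3, n1, rfl⟩] at hc
    rcases (by omega : T.J.card = 3 ∨ T.J.card = 4 ∨ 5 ≤ T.J.card) with hc | hc | hc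
    · exact hFINC K V I P (hRHO1 K V I P T A hc)
    · rcases (hST1 K V I P T A).2 hc with h1 | ⟨j, hj, hd, hdd⟩
      · exact main T A h1
      · obtain ⟨G, hW, hB⟩ := hR4 K V I P T hc j hj hd hdd
        exact beta G hW hB
    · exact main T A ((hST1 K V I P T A).1 hc)

end Pool.Agent.P.MP_33ab4b_ag.T
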