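import Pool.Agent.P.MP_33ab4b_ag.T.LpB

/-! Step LP. -/

set_option autoImplicit false
set_option linter.unusedSectionVars false

namespace Pool.Agent.P.MP_33ab4b_ag.T

open scoped Classical

section
variable {K V : Type} [Field K] [LinearOrder K] [IsStrictOrderedRing K] [Fintype V] [DecidableEq V]

/-- A generic point of an open cone on which finitely many forms stay positive. -/
theorem lp_generic (hGEN : S_GEN) (Φ : Fan K V) {s : Finset V} (hs : s ∈ Φ.F) {y : V3 K}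
    (hy : Φ.InOpen s y) (B : Set (Fm K)) (hB : B.Finite) (hy' : ∀ u ∈ B, 0 < u y) :
    ∃ x, Φ.InOpen s x ∧ Φ.Generic x ∧ ∀ u ∈ B, 0 < u x := by
  obtain ⟨a, b, c, rfl, hf⟩ := Fan.exists_face_eq hs
  obtain ⟨r, s, t, hr, hs, ht, e⟩ := lp_of_inOpen Φ hf hy
  obtain ⟨u1, a1, b1, c1⟩ := exists_form hf.det_ne 1 0 0
  obtain ⟨u2, a2, b2, c2⟩ := exists_form hf.det_ne 0 1 0
  obtain ⟨u3, a3, b3, c3⟩ := exists_form hf.det_ne 0 0 1
  obtain ⟨x, h1, h2⟩ := hGEN K (V3 K)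
    ({u | u ≠ 0} ∩ Set.range (fun p : V × V => detL (Φ.v p.1) (Φ.v p.2)))
    (B ∪ {u1, u2, u3}) ((Set.finite_range _).inter_of_right _) (hB.union (Set.toFinite _))
    (fun u hu => hu.1) y (by
      rintro u (hu | rfl | rfl | rfl)
      · exact hy' u hu
      · simpa [e, a1, b1, c1] using hr
      · simpa [e, a2, b2, c2] using hs
      · simpa [e, a3, b3, c3] using ht)
  refine ⟨x, ?_, fun p q h => h1 _ ⟨h, (p, q), rfl⟩, fun u hu => h2 u (Or.inl hu)⟩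
  obtain ⟨r', s', t', e'⟩ : ∃ r' s' t' : K, x = r' • Φ.v a + s' • Φ.v b + t' • Φ.v c :=
    ⟨_, _, _, lp_coord hf.det_ne x⟩
  rw [e']
  refine lp_inOpen Φ hf ?_ ?_ ?_
  · simpa [e', a1, b1, c1] using h2 u1 (by simp)
  · simpa [e', a2, b2, c2] using h2 u2 (by simp)
  · simpa [e', a3, b3, c3] using h2 u3 (by simp)

/-- A nonnegative relation that is tight at one feasible form bounds the parameter, and is tight at
every feasible form with the same parameter. -/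
theorem lp_rel (Φ : Fan K V) {t : V → K} {u u' : Fm K} {lam lam' : K} (t0 : ∀ i, 0 ≤ t i)
    (t1 : ∃ i, t i ≠ 0) (t2 : ∑ i, t i • Φ.v i = 0) (t3 : ∀ i, t i ≠ 0 → Φ.Tight u lam i)
    (hP : Φ.InP u' lam') :
    lam' ≤ lam ∧ (lam' = lam → ∀ i, t i ≠ 0 → Φ.Tight u' lam i) := by
  have e1 : ∑ i, t i * u (Φ.v i) = 0 := by rw [← lp_form_sum, t2, map_zero]
  have e2 : ∑ i, t i * u' (Φ.v i) = 0 := by rw [← lp_form_sum, t2, map_zero]
  have e3 : ∑ i, t i * (Φ.h i - lam' - u' (Φ.v i)) = (∑ i, t i) * (lam - lam') := by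
    have : ∀ i, t i * (Φ.h i - lam' - u' (Φ.v i)) =
        t i * (lam - lam') + t i * u (Φ.v i) - t i * u' (Φ.v i) := by
      intro i
      by_cases h : t i = 0
      · simp [h]
      · rw [show u (Φ.v i) = _ from t3 i h]; ring
    simp only [this, Finset.sum_sub_distrib, Finset.sum_add_distrib, e1, e2, Finset.sum_mul]
    ring
  have nn : ∀ i ∈ (Finset.univ : Finset V), 0 ≤ t i * (Φ.h i - lam' - u' (Φ.v i)) :=
    fun i _ => mul_nonneg (t0 i) (sub_nonneg.mpr (hP i))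
  obtain ⟨j, hj⟩ := t1
  have pos : 0 < ∑ i, t i := Finset.sum_pos' (fun i _ => t0 i)
    ⟨j, Finset.mem_univ _, lt_of_le_of_ne (t0 j) hj.symm⟩
  refine ⟨?_, ?_⟩
  · have := Finset.sum_nonneg nn
    rw [e3] at this
    exact sub_nonneg.mp (nonneg_of_mul_nonneg_right this pos)
  · rintro rfl i hi
    rw [sub_self, mul_zero] at e3
    have := (Finset.sum_eq_zero_iff_of_nonneg nn).mp e3 i (Finset.mem_univ _)
    exact (sub_eq_zero.mp ((mul_eq_zero.mp this).resolve_left hi)).symm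

end

theorem p_LP (hGEN : S_GEN) (hLP1 : S_LP1) :
    S_LP := by
  intro K V _ _ _ _ _ Φ
  obtain ⟨s0, hs0, -⟩ := Φ.cover 0
  obtain ⟨a0, b0, c0, e0, hf0⟩ := Fan.exists_face_eq hs0
  obtain ⟨x0, hx0, hg0, -⟩ := lp_generic hGEN Φ.toFan hs0
    (e0 ▸ lp_inOpen Φ.toFan hf0 one_pos one_pos one_pos) ∅ Set.finite_empty (by simp)
  obtain ⟨lam, u0, a, b, c, t, hl, hP0, hG0, -, t0, t1, t2, t3⟩ := hLP1 K V Φ s0 x0 hs0 hx0 hg0
  let U : Set (Fm K) := {u | Φ.InP u lam ∧ ∃ a b c, det3 (Φ.v a) (Φ.v b) (Φ.v c) ≠ 0 ∧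
    Φ.Tight u lam a ∧ Φ.Tight u lam b ∧ Φ.Tight u lam c}
  have fin : U.Finite := by
    refine (Set.finite_iUnion (fun p : V × V × V => Set.Subsingleton.finite
      (s := {u : Fm K | det3 (Φ.v p.1) (Φ.v p.2.1) (Φ.v p.2.2) ≠ 0 ∧ Φ.Tight u lam p.1 ∧
        Φ.Tight u lam p.2.1 ∧ Φ.Tight u lam p.2.2}) ?_)).subset ?_
    · rintro u ⟨hd, h1, h2, h3⟩ u' ⟨-, h1', h2', h3'⟩
      exact form_ext hd (h1.trans h1'.symm) (h2.trans h2'.symm) (h3.trans h3'.symm)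
    · rintro u ⟨-, a, b, c, h⟩
      exact Set.mem_iUnion.mpr ⟨(a, b, c), h⟩
  refine ⟨⟨lam, U, t, hl, fin, ⟨u0, hP0, a, b, c, hG0.1, hG0.2.1, hG0.2.2.1, hG0.2.2.2.1⟩,
    fun u hu => hu.1, t0, t1, t2, fun u hu => (lp_rel Φ.toFan t0 t1 t2 t3 hu.1).2 rfl, ?_⟩⟩
  intro s hs y hy u hu
  obtain ⟨x, hx, hg, hpos⟩ := lp_generic hGEN Φ.toFan hs hy ((fun u' => u - u') '' (U \ {u}))
    ((fin.subset Set.diff_subset).image _) (by
      rintro _ ⟨u', hu', rfl⟩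
      simpa using hu.2 u' hu'.1 hu'.2)
  obtain ⟨lam1, u1, a1, b1, c1, t', -, hP1, hG1, hR, t0', t1', t2', t3'⟩ := hLP1 K V Φ s x hs hx hg
  obtain rfl : lam1 = lam := le_antisymm (lp_rel Φ.toFan t0 t1 t2 t3 hP1).1
    (lp_rel Φ.toFan t0' t1' t2' t3' hP0).1
  obtain ⟨hd, ha, hb, hc, r, s', w, hr, hs', hw, e⟩ := hG1
  by_cases h : u1 = u
  · rwa [← h]
  exfalso
  have h1 := hpos _ ⟨u1, ⟨⟨hP1, a1, b1, c1, hd, ha, hb, hc⟩, h⟩, rfl⟩
  have i1 := mul_le_mul_of_nonneg_left (hu.1.1 a1) hr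
  have i2 := mul_le_mul_of_nonneg_left (hu.1.1 b1) hs'
  have i3 := mul_le_mul_of_nonneg_left (hu.1.1 c1) hw
  unfold Fan.Tight at ha hb hc
  rw [e] at h1
  simp only [LinearMap.sub_apply, map_add, map_smul, smul_eq_mul, ha, hb, hc] at h1
  linarith

end Pool.Agent.P.MP_33ab4b_ag.T
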