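import Pool.Agent.P.MP_33ab4b_ag.T.IfaceA
import Pool.Agent.P.MP_33ab4b_ag.T.Lb

/-! Step STD. -/

set_option autoImplicit false

namespace Pool.Agent.P.MP_33ab4b_ag.T

open scoped Classical

theorem p_STD :
    S_STD := by
  intro K _ _ _ hf I _ _ x q lam e hx hl s e' hd i
  have t : lam x = ∑ i, lam (Pi.single i 1) * x i := by
    simpa using Lb.form_eq (Pi.basisFun K I) lam x
  rw [t] at s e'
  refine Lb.stdv hf (Std.rat q) (by exact_mod_cast e) hx hl s e' (fun d => ?_) i
  obtain ⟨c, hc⟩ := hd d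
  exact ⟨c, fun i => congrFun hc i⟩

end Pool.Agent.P.MP_33ab4b_ag.T
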