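import Pool.Agent.P.MP_33ab4b_ag.T.IfaceP
import Pool.Agent.P.MP_33ab4b_ag.T.IfaceA

/-! Step VERT2. -/

set_option autoImplicit false

namespace Pool.Agent.P.MP_33ab4b_ag.T

open scoped Classical

namespace VERT2x

variable {K V I : Type} [Field K] [LinearOrder K] [IsStrictOrderedRing K] [Fintype V]
  [DecidableEq V] [Fintype I] [DecidableEq I] {P : HP K V I}

theorem D_mem (G : PLG P) {a : V} (ha : a ∉ G.X) : P.D a ∈ G.Kf :=
  Submodule.subset_span ⟨a, ha, rfl⟩

theorem notX (G : PLG P) {a : V} (ha : 0 < G.l (P.v a)) : a ∉ G.X :=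
  fun h => ha.ne' ((G.memX a).mp h)

theorem fc_K (G : PLG P) (A : PLA G) {k : I → K} (hk : k ∈ G.Kf) : P.mu G.fc k = 0 := by
  obtain ⟨c, hc, rfl⟩ := P.mem_sp.mp hk
  refine LinearMap.ext fun z => ?_
  rw [P.mu12, P.mu_cl]
  refine Finset.sum_eq_zero fun a _ => ?_
  by_cases ha : a ∈ G.X
  · rw [hc a (by simpa using ha), zero_mul]
  · rw [P.mu12, A.fD0 a ha]; simp

/-- The upper part of a coefficient vector. -/
noncomputable def upp (G : PLG P) (c : V → K) : V → K := fun a => if 0 < G.l (P.v a) then c a else 0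

theorem upp0 (G : PLG P) (c : V → K) (a : V) (h : ¬ 0 < G.l (P.v a)) : upp G c a = 0 := if_neg h

/-- Against an upper vertex only the upper part counts. -/
theorem upper (G : PLG P) (c : V → K) (hc : ∀ a, a ∉ {a | a ∉ G.X} → c a = 0) {a : V}
    (ha : 0 < G.l (P.v a)) (z : I → K) :
    P.mu (P.cl c) (P.D a) z = P.mu (P.cl (upp G c)) (P.D a) z := by
  rw [P.mu_cl, P.mu_cl]
  refine Finset.sum_congr rfl fun e _ => ?_
  unfold upp
  rcases lt_trichotomy (G.l (P.v e)) 0 with h | h | h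
  · have hne : e ≠ a := by rintro rfl; linarith
    have : ¬ P.adj e a := fun h' => G.str a e h'.symm ⟨ha, h⟩
    rw [P.mnadj e a hne this]; simp
  · rw [hc e (by simpa using (G.memX e).mpr h)]; simp
  · rw [if_pos h]

theorem det_ax (G : PLG P) {N S : V} (hax : G.Ax N S) :
    det3 (P.v G.k0) (P.v N) (P.v S) = 0 := by
  rw [hax.2.2]
  simp only [det3, Pi.neg_apply]; ring

theorem ax_symm (G : PLG P) {N S : V} (hax : G.Ax N S) : G.Ax S N :=
  ⟨hax.2.1, hax.1, by rw [hax.2.2, neg_neg]⟩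

theorem nx_ne (G : PLG P) {N S : V} (hax : G.Ax N S) : G.nx N ≠ S := by
  intro h
  have h1 := G.w1 N hax.1
  rw [h, det_ax G hax] at h1
  exact zero_ne_one h1

theorem ax_ne (G : PLG P) {N S : V} (hax : G.Ax N S) : N ≠ S := by
  rintro rfl
  have h1 := G.w1 N hax.1
  have h2 := h1
  have e : det3 (P.v G.k0) (- P.v N) (P.v (G.nx N)) = - det3 (P.v G.k0) (P.v N) (P.v (G.nx N)) := by
    simp only [det3, Pi.neg_apply]; ring
  rw [hax.2.2, e, h1] at h2
  norm_num at h2

/-- If every wall of the plane touches the axis, the plane has four vertices. -/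
theorem nxnx (G : PLG P) {N S : V} (hax : G.Ax N S)
    (h : ∀ x ∈ G.X, x = N ∨ x = S ∨ G.nx x = N ∨ G.nx x = S) : G.nx (G.nx N) = S := by
  obtain ⟨h1, -, h2, -⟩ := G.cyc.mem N hax.1
  rcases h _ h1 with e | e | e | e
  · exact absurd e (G.nxne N hax.1).1
  · exact absurd e (nx_ne G hax)
  · exact absurd (e.trans h2.symm) (G.nxne _ h1).2
  · exact e

theorem card4 (G : PLG P) {N S : V} (hax : G.Ax N S)
    (h : ∀ x ∈ G.X, x = N ∨ x = S ∨ G.nx x = N ∨ G.nx x = S) : G.X.card = 4 := by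
  have e1 := nxnx G hax h
  have e2 := nxnx G (ax_symm G hax) (fun x hx => by have := h x hx; tauto)
  obtain ⟨m1, -, p1, -⟩ := G.cyc.mem N hax.1
  obtain ⟨m2, -, p2, -⟩ := G.cyc.mem S hax.2.1
  have n1 := ax_ne G hax
  have n2 := nx_ne G hax
  have n3 := nx_ne G (ax_symm G hax)
  have n4 := (G.nxne N hax.1).1
  have n5 := (G.nxne S hax.2.1).1
  have n6 : G.nx N ≠ G.nx S := fun e => n1 (by rw [← p1, e, p2])
  have hX : G.X = {N, G.nx N, S, G.nx S} := by
    apply Finset.Subset.antisymm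
    · intro b hb
      refine G.cyc.orb (fun b => b ∈ ({N, G.nx N, S, G.nx S} : Finset V)) N hax.1 (by simp) ?_ b hb
      intro b _ hb
      simp only [Finset.mem_insert, Finset.mem_singleton] at hb ⊢
      rcases hb with e | e | e | e <;> rw [e]
      · exact Or.inr (Or.inl rfl)
      · exact Or.inr (Or.inr (Or.inl e1))
      · exact Or.inr (Or.inr (Or.inr rfl))
      · exact Or.inl e2
    · intro b hb
      simp only [Finset.mem_insert, Finset.mem_singleton] at hb
      rcases hb with e | e | e | e <;> rw [e]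
      · exact hax.1
      · exact m1
      · exact hax.2.1
      · exact m2
  rw [hX, Finset.card_insert_of_notMem (by simp [n1, n4.symm, n3.symm]),
    Finset.card_insert_of_notMem (by simp [n2, n6]), Finset.card_pair n5.symm]

/-- The upper part of the image is a multiple of the fibre class. -/
theorem key (hAXU : S_AXU) (hRADU : S_RADU) (G : PLG P) (A : PLA G) (n : Module.End K (I → K))
    (hW : ∀ x, n x ∈ G.Kf) (hr : ∀ x y, ∀ w ∈ G.Kf, rho n P.mu x y w = 0)
    (h1 : ∀ w ∈ G.Kf, ∃ c : K, n w = c • G.fc)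
    (h2 : ∀ y, ∀ w ∈ G.Kf, ∀ w' ∈ G.Kf, P.mu (n y) w w' = 0) (h4 : G.X.card ≠ 4) (y0 : I → K)
    (c0 : V → K) (hc0 : ∀ a, a ∉ {a | a ∉ G.X} → c0 a = 0) (hy0 : n y0 = P.cl c0) :
    ∃ r : K, P.cl (upp G c0) = r • G.fc := by
  have rad : ∀ (y : I → K) (c : V → K), (∀ a, a ∉ {a | a ∉ G.X} → c a = 0) → n y = P.cl c →
      ∀ a b, 0 < G.l (P.v a) → 0 < G.l (P.v b) → P.mu (P.cl (upp G c)) (P.D a) (P.D b) = 0 := by
    intro y c hc hy a b ha hb
    rw [← upper G c hc ha, ← hy]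
    exact h2 y _ (D_mem G (notX G ha)) _ (D_mem G (notX G hb))
  rcases hRADU K V I P G A (upp G c0) (upp0 G c0) (rad y0 c0 hc0 hy0) with
    h | ⟨N, S, hax, α, hα, hadj, a, a', hne, ha, ha', h0, h0'⟩
  · exact h
  exfalso
  have hNS := ax_ne G hax
  have haX := notX G ha
  -- the value on the class of every vertex
  have val : ∀ y c, P.mu (n y) (P.D a) (P.D c) =
      P.mu (n y) (P.D a) (P.D N) * ((if c = N then 1 else 0) + (if c = S then 1 else 0)) := by
    intro y c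
    obtain ⟨c1, hc1, hy⟩ := P.mem_sp.mp (hW y)
    rw [hy, upper G c1 hc1 ha, upper G c1 hc1 ha]
    rcases hRADU K V I P G A (upp G c1) (upp0 G c1) (rad y c1 hc1 hy) with
      ⟨r, h⟩ | ⟨N', S', hax', β, hβ, hadj', -⟩
    · rw [h, map_smul, LinearMap.smul_apply, A.fD0 a haX]
      simp
    · rw [hβ a ha, hβ a ha]
      by_cases hb : β a = 0
      · rw [hb]; ring
      · obtain ⟨b1, b2⟩ := hadj' a ha hb
        obtain ⟨b3, b4⟩ := hadj a' ha' h0'
        rcases (hAXU K V I P G).1 a' a N S N' S' hne.symm ha' ha hax hax' b3 b4 b1 b2 with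
          ⟨e1, e2⟩ | ⟨e1, e2⟩
        · rw [e1, e2, if_pos rfl, if_neg hNS]; ring
        · rw [e1, e2, if_pos rfl, if_neg hNS]; ring
  obtain ⟨lam, hlam⟩ := h1 _ (D_mem G haX)
  have rel : ∀ y y', P.mu (n y) (P.D a) y' + P.mu (n y') (P.D a) y + lam * P.mu G.fc y y' = 0 := by
    intro y y'
    have := hr y y' _ (D_mem G haX)
    unfold rho at this
    rw [hlam, map_smul, smul_eq_mul, P.mu23 (n y), P.mu12 y (n y'), P.mu23 (n y'),
      P.mu13 y y', P.mu23 G.fc] at this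
    exact this
  have v0 : P.mu (n y0) (P.D a) (P.D N) = α a := by
    rw [hy0, upper G c0 hc0 ha, hα a ha, if_pos rfl, if_neg hNS]; ring
  by_cases hl : lam = 0
  · have r1 := rel (P.D N) (P.D N)
    have r2 := rel y0 (P.D N)
    rw [hl] at r1 r2
    have z1 : P.mu (n (P.D N)) (P.D a) (P.D N) = 0 := by linarith
    have z2 : P.mu (n (P.D N)) (P.D a) = 0 :=
      P.form_ext fun c => by rw [val, z1]; simp
    rw [z2, v0] at r2
    apply h0
    simpa using r2
  · refine h4 (card4 G hax fun x hx => ?_)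
    by_contra hc
    simp only [not_or] at hc
    obtain ⟨c1, c2, c3, c4⟩ := hc
    have hn := (G.cyc.mem x hx).1
    have r := rel (P.D x) (P.D (G.nx x))
    rw [val, val (P.D (G.nx x)), if_neg c1, if_neg c2, if_neg c3, if_neg c4, A.fXX x hx _ hn,
      if_neg (G.nxne x hx).1.symm, if_pos ((G.adjX x hx _ hn).mpr (Or.inl rfl))] at r
    apply hl
    simpa using r

end VERT2x

theorem p_VERT2 (hJC : S_JC) (hNIL2 : S_NIL2) (hFLIP : S_FLIP) (hAXU : S_AXU) (hRADU : S_RADU) :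
    S_VERT2 := by
  intro K V I _ _ _ _ _ _ _ P G A U p hU hf hr hp
  have sw1 : ∀ x y z, rho U P.mu x y z = rho U P.mu x z y := by
    intro x y z
    unfold rho
    rw [P.mu23 (U x) y z, P.mu23 x (U y) z, P.mu23 x y (U z)]; ring
  have sw2 : ∀ x y z, rho U P.mu x y z = rho U P.mu z y x := by
    intro x y z
    unfold rho
    rw [P.mu13 (U x) y z, P.mu13 x (U y) z, P.mu13 x y (U z)]; ring
  obtain ⟨s, n, hU', hnil, h1, h2, h4, h5, -⟩ := hJC K (I → K) P.mu p U (fun x y z => by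
    rw [sw2, hr _ _ _ (hU x), sw1, hr _ _ _ (hU y), hr _ _ _ (hU z)]
    ring) (fun x => hp _ (hU x))
  have hW : ∀ x, n x ∈ G.Kf := fun x => by
    obtain ⟨y, hy⟩ := h4 x
    rw [hy]; exact hU y
  have hsx : ∀ x, s x = U x - n x := fun x => by rw [hU', LinearMap.add_apply, add_sub_cancel_right]
  have hrn : ∀ x y, ∀ w ∈ G.Kf, rho n P.mu x y w = 0 := fun x y w hw => by
    have e1 := hr x y w hw
    have e2 := h1 x y w
    unfold rho at e1 e2 ⊢
    simp only [hsx, map_sub, LinearMap.sub_apply] at e2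
    linarith
  obtain ⟨a1, a2⟩ := hNIL2 K (I → K) P.mu n G.Kf P.H G.fc P.sym hnil hW (h5 _ hf)
    (fun w hw => VERT2x.fc_K G A hw) hrn A.def0
  refine ⟨s, n, hU', h1, h2, fun x => ?_, ?_, fun x => ⟨hW x, fun a b ha hb =>
    a2 x _ (VERT2x.D_mem G ha) _ (VERT2x.D_mem G hb)⟩, fun hc x => ?_⟩
  · rw [hsx]; exact G.Kf.sub_mem (hU x) (hW x)
  · rw [hsx, hf, h5 _ hf, sub_zero]
  obtain ⟨G', hl, hX, -, -, -, hA⟩ := hFLIP K V I P G
  obtain ⟨hfc, A'⟩ := hA A
  have hK : G'.Kf = G.Kf := by unfold PLG.Kf; rw [hX]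
  obtain ⟨c, hc0, hy⟩ := P.mem_sp.mp (hW x)
  obtain ⟨r, e⟩ := VERT2x.key hAXU hRADU G A n hW hrn a1 a2 hc x c hc0 hy
  obtain ⟨r', e'⟩ := VERT2x.key hAXU hRADU G' A' n (by rw [hK]; exact hW) (by rw [hK]; exact hrn)
    (by rw [hK, hfc]; exact a1) (by rw [hK]; exact a2) (by rw [hX]; exact hc) x c
    (by rw [hX]; exact hc0) hy
  have hl' : ∀ a, G'.l (P.v a) = - G.l (P.v a) := fun a => by rw [hl]; rfl
  have hsum : c = VERT2x.upp G c + VERT2x.upp G' c := by
    funext a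
    simp only [VERT2x.upp, Pi.add_apply, hl']
    rcases lt_trichotomy (G.l (P.v a)) 0 with h | h | h
    · rw [if_neg (by linarith), if_pos (by linarith), zero_add]
    · rw [hc0 a (by simpa using (G.memX a).mpr h)]; simp
    · rw [if_pos h, if_neg (by linarith), add_zero]
  refine ⟨r + r', ?_⟩
  rw [hy, hsum, P.cl_add, e, e', hfc, add_smul]

end Pool.Agent.P.MP_33ab4b_ag.T
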